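import Pool.Agent.Lib.MP_d6ddbd_nt.K11.Stmt
import Pool.Agent.Lib.MP_ca56d1_nt.Loc

/-!
The linear algebra applied to the system of classes.
-/

set_option autoImplicit false

open NumberField
open Pool.Agent.Stark (Pr og hq SqCl cl cl_surj cl_mul cl_eq_zero cl_eq_cl)

noncomputable section

namespace Pool.Agent.Lib.MP_d6ddbd_nt.K11

namespace Asm

variable {L : Type} [Field L] [NumberField L]

/-- Functions that are additive on products. -/
def Ad (g : L → ZMod 2) : Prop := ∀ x y : L, x ≠ 0 → y ≠ 0 → g (x * y) = g x + g y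

omit [NumberField L] in
theorem Ad.congr {g : L → ZMod 2} (h : Ad g) {x y : L} (hx : x ≠ 0) (hy : y ≠ 0)
    (e : cl x = cl y) : g x = g y := by
  obtain ⟨r, hr⟩ := (cl_eq_cl hx hy).1 e
  have h0 : r ≠ 0 := by
    rintro rfl
    exact mul_ne_zero hx hy (by simpa using hr)
  have h1 := h x y hx hy
  rw [hr, h r r h0 h0] at h1
  revert h1
  generalize g r = a, g x = b, g y = c
  revert a b c
  decide

/-- The linear form on square classes. -/
def lin {g : L → ZMod 2} (h : Ad g) : SqCl L →ₗ[ZMod 2] ZMod 2 :=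
  (AddMonoidHom.mk' (fun c => g (cl_surj c).choose) fun c c' => by
    obtain ⟨h1, h2⟩ := (cl_surj c).choose_spec
    obtain ⟨h3, h4⟩ := (cl_surj c').choose_spec
    obtain ⟨h5, h6⟩ := (cl_surj (c + c')).choose_spec
    rw [← h _ _ h1 h3]
    exact h.congr h5 (mul_ne_zero h1 h3) (by rw [h6, cl_mul h1 h3, h2, h4])).toZModLinearMap 2

omit [NumberField L] in
theorem lin_cl {g : L → ZMod 2} (h : Ad g) {x : L} (hx : x ≠ 0) : lin h (cl x) = g x :=
  h.congr (cl_surj (cl x)).choose_spec.1 hx (cl_surj (cl x)).choose_spec.2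

theorem ad_og (s : Finset (Pr L)) : Ad fun x : L => ∑ 𝔮 ∈ s, (og 𝔮 x : ZMod 2) := fun x y hx hy => by
  rw [← Finset.sum_add_distrib]
  exact Finset.sum_congr rfl fun 𝔮 _ => by
    rw [og, Pool.Agent.Stark.ord_mul hx hy, Int.cast_add, og, og]

theorem ad_hq (s : Finset (Pr L)) (c : Pr L → L) : Ad fun x : L => ∑ 𝔮 ∈ s, hq 𝔮 x (c 𝔮) :=
  fun x y hx hy => by
  rw [← Finset.sum_add_distrib]
  refine Finset.sum_congr rfl fun 𝔮 _ => ?_
  by_cases h : c 𝔮 = 0
  · have h0 : ∀ a, hq 𝔮 a (c 𝔮) = 0 := fun a =>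
      Pool.Agent.Stark.hs_of_isSquare_right _ ⟨0, by rw [h, map_zero, mul_zero]⟩
    rw [h0, h0, h0, add_zero]
  · rw [hq, hq, hq, map_mul]
    exact (Pool.Agent.Stark.isLoc_wv 𝔮).hs_mul_left ((map_ne_zero _).2 hx) ((map_ne_zero _).2 hy)
      ((map_ne_zero _).2 h)

theorem ad_sv (p : ℕ) : Ad (sv p : L → ZMod 2) := ad_og _
theorem ad_fv (p : ℕ) : Ad (fv p : L → ZMod 2) := ad_hq _ fun _ => (p : L)
theorem ad_av (𝔭 : Pr L) : Ad (av 𝔭) := ad_og _
theorem ad_bv (θ : L) (d : ℤ) (𝔭 : Pr L) : Ad (bv θ d 𝔭) := ad_hq _ _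

theorem wc_mono {d : ℤ} {B B' : Finset ℕ} (h : B ⊆ B') {x : L} (hx : Wc d B x) : Wc d B' x :=
  ⟨hx.ne, hx.sq, hx.two, fun p h1 h2 h3 => hx.ev p h1 h2 fun e => h3 (h e)⟩

theorem wc_one (d : ℤ) (B : Finset ℕ) : Wc d B (1 : L) :=
  ⟨one_ne_zero, by rw [map_one]; exact IsSquare.one, fun 𝔭 _ => ⟨1, by simp⟩,
    fun _ _ _ _ 𝔭 _ => by simp [og]⟩

variable {q : ℕ} {d : ℤ}

/-- The set of primes attached to a set of Kolyvagin primes. -/
def vs (n : Finset {p // Kol q d p}) : Finset ℕ := n.map (Function.Embedding.subtype _)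

theorem mem_vs {n : Finset {p // Kol q d p}} {p : {p // Kol q d p}} : p.1 ∈ vs n ↔ p ∈ n :=
  Finset.mem_map' (Function.Embedding.subtype _)

theorem kn_vs (n : Finset {p // Kol q d p}) : Kn q d (vs n) := fun p hp => by
  obtain ⟨x, -, rfl⟩ := Finset.mem_map.1 hp
  exact x.2

theorem vs_mono {n m : Finset {p // Kol q d p}} (h : n ⊆ m) : insert q (vs n) ⊆ insert q (vs m) :=
  Finset.insert_subset_insert _ (Finset.map_subset_map.2 h)

theorem q_notMem (n : Finset {p // Kol q d p}) : q ∉ vs n := fun h => (kn_vs n q h).nq rfl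

theorem adm (hQ : QD q d) (n : Finset {p // Kol q d p}) :
    ∀ p ∈ insert q (vs n), p.Prime ∧ p ≠ 2 ∧ p ≠ 11 ∧ ¬ (p : ℤ) ∣ d ∧ nr p = 1 := by
  intro p hp
  rcases Finset.mem_insert.1 hp with rfl | hp
  · have := hQ.qf.big
    exact ⟨hQ.qf.pr, by omega, by omega, hQ.nd, hQ.ty⟩
  · have h := kn_vs n p hp
    refine ⟨h.pr, ?_, h.n11, h.nd, h.ty⟩
    rintro rfl
    have := (pow_dvd_pow 2 (Nat.le_add_left 3 (tt d))).trans h.dv
    omega

/-- The space of all classes that are unramified outside `d`, `q` and the Kolyvagin primes. -/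
def WW (hm : ∀ (n : Finset {p // Kol q d p}) (x y : L), Wc d (insert q (vs n)) x →
    Wc d (insert q (vs n)) y → Wc d (insert q (vs n)) (x * y)) : Submodule (ZMod 2) (SqCl L) where
  carrier := {c | ∃ (n : Finset {p // Kol q d p}) (x : L), Wc d (insert q (vs n)) x ∧ cl x = c}
  add_mem' := by
    classical
    rintro _ _ ⟨n, x, hx, rfl⟩ ⟨m, y, hy, rfl⟩
    exact ⟨n ∪ m, x * y, hm _ _ _ (wc_mono (vs_mono Finset.subset_union_left) hx)
      (wc_mono (vs_mono Finset.subset_union_right) hy), cl_mul hx.ne hy.ne⟩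
  zero_mem' := ⟨∅, 1, wc_one _ _, (cl_eq_zero one_ne_zero).2 IsSquare.one⟩
  smul_mem' := by
    rintro c _ ⟨n, x, hx, rfl⟩
    rcases Pool.Agent.Stark.zmod2_cases c with rfl | rfl
    · exact ⟨∅, 1, wc_one _ _, by rw [zero_smul]; exact (cl_eq_zero one_ne_zero).2 IsSquare.one⟩
    · exact ⟨n, x, hx, (one_smul _ _).symm⟩

/-- A linear map to a subspace of functions. -/
def toU {W : Submodule (ZMod 2) (SqCl L)} (g : D1 L d → SqCl L →ₗ[ZMod 2] ZMod 2)
    (h : ∀ c : W, (fun 𝔭 => g 𝔭 c.1) ∈ UU L d) : W →ₗ[ZMod 2] UU L d :=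
  ((LinearMap.pi g).comp W.subtype).codRestrict _ h

/-- The dot product. -/
def dot (d : ℤ) : UU L d →ₗ[ZMod 2] UU L d →ₗ[ZMod 2] ZMod 2 :=
  LinearMap.mk₂ (ZMod 2) (fun u v => ∑ 𝔭, u.1 𝔭 * v.1 𝔭)
    (fun _ _ _ => by simp [add_mul, Finset.sum_add_distrib])
    (fun _ _ _ => by simp [Finset.mul_sum, mul_assoc])
    (fun _ _ _ => by simp [mul_add, Finset.sum_add_distrib])
    (fun _ _ _ => by simp [Finset.mul_sum, mul_left_comm])

end Asm

open Asm in
theorem asm_thm (hA : AStmt) (hL : LStmt) (hCheb : ChebStmt) : AsmStmt := by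
  classical
  intro L _ _ θ hθ q d M α hQ hK hM hsel
  obtain ⟨hS, hU, hB⟩ := hL L θ hθ d hQ.fam
  have hB' := fun n : Finset {p // Kol q d p} => hB _ (adm hQ n)
  let W : Submodule (ZMod 2) (SqCl L) := WW fun n x y hx hy => ((hB' n).1 x y hx hy).1
  have hW : ∀ c : W, ∃ (n : Finset {p // Kol q d p}) (x : L), Wc d (insert q (vs n)) x ∧
      cl x = c.1 := fun c => c.2
  have out : ∀ (n : Finset {p // Kol q d p}) (x : L), Wc d (insert q (vs n)) x →
      ∀ p ∉ n, sv p.1 x = 0 := fun n x hx p hp =>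
    ((hB' n).2.1 x hx).2.2.2 p.1 p.2.pr p.2.nd fun e =>
      (Finset.mem_insert.1 e).elim p.2.nq fun e' => hp (mem_vs.1 e')
  have shrink : ∀ (m n : Finset {p // Kol q d p}) (x : L), Wc d (insert q (vs m)) x →
      (∀ p ∉ n, sv p.1 x = 0) → Wc d (insert q (vs n)) x := fun m n x hx h0 =>
    ⟨hx.ne, hx.sq, hx.two, fun p h1 h2 h3 => by
      by_cases e : p ∈ insert q (vs m)
      · have e1 : p ∈ vs m := (Finset.mem_insert.1 e).resolve_left fun e' =>
          h3 (Finset.mem_insert.2 (Or.inl e'))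
        exact (((hB' m).2.1 x hx).2.2.1 p e (h0 ⟨p, kn_vs m p e1⟩ fun e' =>
          h3 (Finset.mem_insert_of_mem (mem_vs.2 e')))).ev p h1 h2 (Finset.notMem_erase _ _)
      · exact hx.ev p h1 h2 e⟩
  have ha : ∀ c : W, (fun 𝔭 : D1 L d => lin (ad_av 𝔭.1) c.1) ∈ UU L d := fun c => by
    obtain ⟨n, x, hx, e⟩ := hW c
    simp only [← e, lin_cl _ hx.ne]
    exact ((hB' n).2.1 x hx).1
  have hb : ∀ c : W, (fun 𝔭 : D1 L d => lin (ad_bv θ d 𝔭.1) c.1) ∈ UU L d := fun c => by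
    obtain ⟨n, x, hx, e⟩ := hW c
    simp only [← e, lin_cl _ hx.ne]
    exact ((hB' n).2.1 x hx).2.1
  have hmem : ∀ (n : Finset {p // Kol q d p}) j, Wc d (insert q (vs n)) (α (vs n) j) :=
    fun n j => hK.mem _ j (kn_vs n)
  let κ : Finset {p // Kol q d p} → ℕ → W := fun n j => ⟨cl (α (vs n) j), n, _, hmem n j, rfl⟩
  have hκ : ∀ n j, κ n j = 0 ↔ IsSquare (α (vs n) j) := fun n j =>
    Subtype.ext_iff.trans (cl_eq_zero (hmem n j).ne)
  have key := hA W (UU L d) {p // Kol q d p} (dot d) (toU _ ha) (toU _ hb)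
    (fun p => (lin (ad_sv p.1)).comp W.subtype) (fun p => (lin (ad_fv p.1)).comp W.subtype)
    ((lin (ad_sv q)).comp W.subtype) ((lin (ad_fv q)).comp W.subtype) M κ ?_ ?_ ?_ ?_ ?_
    (hU ▸ hM) (fun n j h => (hκ n j).2 (hK.top _ j h)) ?_ ?_ ?_ ?_ ?_ ?_
  · exact ⟨key.1.trans hU, fun h => key.2 ((hκ ∅ 0).2 h)⟩
  · intro c
    obtain ⟨n, x, hx, e⟩ := hW c
    refine n.finite_toSet.subset fun p hp => by_contra fun h => hp ?_
    show lin (ad_sv p.1) c.1 = 0
    rw [← e, lin_cl _ hx.ne]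
    exact out n x hx p h
  · intro c c' B h0
    obtain ⟨n, x, hx, e⟩ := hW c
    obtain ⟨m, y, hy, e'⟩ := hW c'
    have h1 : ∀ p ∉ B, sv p.1 x = 0 ∧ sv p.1 y = 0 := fun p hp => by
      have := h0 p hp
      simp only [LinearMap.comp_apply, Submodule.subtype_apply, ← e, ← e', lin_cl _ hx.ne,
        lin_cl _ hy.ne] at this
      exact this
    have h2 := ((hB' B).1 x y (shrink n B x hx fun p hp => (h1 p hp).1)
      (shrink m B y hy fun p hp => (h1 p hp).2)).2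
    rw [Finset.sum_insert (q_notMem B), vs, Finset.sum_map, ← Finset.sum_coe_sort (D1 L d),
      Finset.sum_add_distrib, ← add_assoc] at h2
    show ∑ 𝔭 : D1 L d, lin (ad_av 𝔭.1) c.1 * lin (ad_bv θ d 𝔭.1) c'.1 +
      ∑ 𝔭 : D1 L d, lin (ad_bv θ d 𝔭.1) c.1 * lin (ad_av 𝔭.1) c'.1 + _ + _ = 0
    simp only [LinearMap.comp_apply, Submodule.subtype_apply, ← e, ← e', lin_cl _ hx.ne,
      lin_cl _ hy.ne]
    exact h2
  · intro n
    have e : (⨅ p ∉ n, LinearMap.ker ((lin (ad_sv p.1)).comp W.subtype) :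
        Submodule (ZMod 2) W).map W.subtype = WS L d (insert q (vs n)) := by
      refine le_antisymm ?_ (Submodule.span_le.2 ?_)
      · rintro _ ⟨c, hc, rfl⟩
        obtain ⟨m, x, hx, e⟩ := hW c
        refine Submodule.subset_span ⟨x, shrink m n x hx fun p hp => ?_, e⟩
        have : lin (ad_sv p.1) c.1 = 0 :=
          (Submodule.mem_iInf _).1 ((Submodule.mem_iInf _).1 hc p) hp
        rwa [← e, lin_cl _ hx.ne] at this
      · rintro _ ⟨x, hx, rfl⟩
        refine ⟨⟨cl x, n, x, hx, rfl⟩, (Submodule.mem_iInf _).2 fun p =>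
          (Submodule.mem_iInf _).2 fun hp => ?_, rfl⟩
        show lin (ad_sv p.1) (cl x) = 0
        rw [lin_cl _ hx.ne]
        exact out n x hx p hp
    obtain ⟨h1, h2⟩ := (hB' n).2.2
    rw [← e] at h1 h2
    refine ⟨Module.Finite.equiv (Submodule.equivMapOfInjective _ W.injective_subtype _).symm, ?_⟩
    rw [Submodule.finrank_map_subtype_eq, Finset.card_insert_of_notMem (q_notMem n), vs,
      Finset.card_map] at h2
    omega
  · intro T lam B
    obtain ⟨lam', hl⟩ := LinearMap.exists_extend lam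
    choose n x hx e using hW
    obtain ⟨p, h1, h2, h3⟩ := (hCheb L θ hθ d hQ.fam).2 q (T.image x) lam' (B.sup Subtype.val) hQ
      fun y hy => by
        obtain ⟨c, -, rfl⟩ := Finset.mem_image.1 hy
        exact ⟨_, fun h => (adm hQ (n c) 11 h).2.2.1 rfl, hx c⟩
    refine ⟨⟨p, h2⟩, fun h => h1.not_ge (Finset.le_sup (f := Subtype.val) h), fun c hc => ?_⟩
    show lin (ad_fv p) c.1 = _
    rw [← hl, ← e, lin_cl _ (hx c).ne, h3 _ (Finset.mem_image_of_mem x hc), e]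
    rfl
  · intro c h1 h2 h3 h4
    obtain ⟨n, x, hx, e⟩ := hW c
    simp only [LinearMap.comp_apply, Submodule.subtype_apply, ← e, lin_cl _ hx.ne] at h1 h2 h3
    have h5 := ((hB' ∅).2.1 x (shrink n ∅ x hx fun p _ => h1 p)).2.2.1 q
      (Finset.mem_insert_self _ _) h2
    rw [Finset.erase_insert (q_notMem ∅)] at h5
    refine Subtype.ext (e.symm.trans ((cl_eq_zero hx.ne).2 (hsel x ((hS x).2 ⟨h5, fun 𝔭 h𝔭 => ?_⟩)
      h3)))
    have : lin (ad_bv θ d 𝔭) c.1 = 0 := congrFun (congrArg Subtype.val h4) ⟨𝔭, h𝔭⟩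
    rwa [← e, lin_cl _ hx.ne] at this
  · obtain ⟨n, j, h1, h2⟩ := hK.ne
    refine ⟨n.subtype _, j, fun h => h2 ?_⟩
    rwa [hκ, vs, Finset.subtype_map_of_mem h1] at h
  · exact fun n => Subtype.ext (funext fun 𝔭 =>
      (lin_cl (ad_bv θ d 𝔭.1) (hmem n 0).ne).trans (hK.b0 _ (kn_vs n) 𝔭.1 𝔭.2))
  · exact fun n j => Subtype.ext (funext fun 𝔭 => (lin_cl (ad_av 𝔭.1) (hmem n j).ne).trans
      ((hK.ab _ j (kn_vs n) 𝔭.1 𝔭.2).trans (lin_cl (ad_bv θ d 𝔭.1) (hmem n (j + 1)).ne).symm))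
  · exact fun n j p hp => (lin_cl (ad_sv p.1) (hmem n j).ne).trans (out n _ (hmem n j) p hp)
  · exact fun n j p hp => (lin_cl (ad_fv p.1) (hmem n j).ne).trans
      (hK.fp _ j (kn_vs n) p.1 (mem_vs.2 hp))
  · intro n j p hp
    refine (lin_cl (ad_sv p.1) (hmem (insert p n) j).ne).trans
      (Eq.trans ?_ (lin_cl (ad_fv p.1) (hmem n j).ne).symm)
    rw [show vs (insert p n) = insert p.1 (vs n) from Finset.map_insert _ _ _]
    exact hK.sp _ j p.1 (kn_vs n) p.2 fun e => hp (mem_vs.1 e)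

end Pool.Agent.Lib.MP_d6ddbd_nt.K11
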