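import Pool.Agent.Lib.MP_d6ddbd_nt.K11.Aux2

/-!
The choice of the auxiliary prime `r`.
-/

set_option autoImplicit false

open Pointwise
open Pool.Agent.Lib.MP_02f36d_nt (xc yc)

noncomputable section

namespace Pool.Agent.Lib.MP_d6ddbd_nt.K11

namespace Aux

theorem pow_eig {s : G} {x η : ℂ} (hη : s η = η) (h : s x = η * x) (n : ℕ) :
    (s ^ n) x = η ^ n * x := by
  induction n with
  | zero => simp
  | succ n ih =>
    rw [pow_succ']
    change s ((s ^ n) x) = _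
    rw [ih, map_mul, map_pow, hη, h]
    ring

theorem pow_fix {s : G} {x : ℂ} (h : s x = x) (n : ℕ) : (s ^ n) x = x := by
  simpa using pow_eig (s := s) (x := x) (η := 1) (map_one s) (by rw [h, one_mul]) n

theorem pow_even {σ : G} {x : ℂ} (h : σ (σ x) = x) {a : ℕ} (ha : Even a) : (σ ^ a) x = x := by
  obtain ⟨b, rfl⟩ := ha
  rw [← two_mul, pow_mul]
  exact pow_fix (by rw [pow_two]; exact h) b

theorem pow_odd {σ : G} {x : ℂ} (h : σ (σ x) = x) {a : ℕ} (ha : Odd a) : (σ ^ a) x = σ x := by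
  obtain ⟨b, rfl⟩ := ha
  rw [pow_succ']
  change σ ((σ ^ (2 * b)) x) = _
  rw [pow_even h (even_two_mul b)]

theorem fix8 {g : G} {ζ η : ℂ} {m : ℕ} (hζ : IsPrimitiveRoot ζ (2 ^ m)) (hm : 3 ≤ m)
    (hg : g ζ = ζ) (hη : η ^ 8 = 1) : g η = η := by
  obtain ⟨k, rfl⟩ := Nat.exists_eq_add_of_le hm
  obtain ⟨i, _, hi⟩ := hζ.eq_pow_of_pow_eq_one (ξ := η)
    (by rw [pow_add, pow_mul, show (2 : ℕ) ^ 3 = 8 by norm_num, hη, one_pow])
  rw [← hi, map_pow, hg]

theorem cj_inv {z : ℂ} {n : ℕ} (hn : n ≠ 0) (h : ‖z ^ n‖ = 1) : cj z = z⁻¹ := by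
  rw [norm_pow] at h
  rw [cj_apply, Complex.inv_eq_conj ((pow_eq_one_iff_of_nonneg (norm_nonneg z) hn).1 h)]

theorem exists_g (hV : VStmt) (hR : RStmt) {q : ℕ} {d : ℤ} {π w : ℕ → ℂ} (hq : QD q d)
    (hπ : ∀ l : ℕ, l.Prime → (l : ℤ) ∣ d → Gen q l (π l)) (hw : ∀ l, w l ^ 8 = uu (π l))
    {ζ : ℂ} {m : ℕ} (hζ : IsPrimitiveRoot ζ (2 ^ m)) (hm : 3 ≤ m) (j : ℕ → ℕ) {g₀ : G}
    (h1 : g₀ (om q) = om q) (h2 : g₀ ζ = ζ) (S : Finset ℕ) :
    (∀ l ∈ S, l.Prime ∧ (l : ℤ) ∣ d) → ∃ g : G, g (om q) = om q ∧ g ζ = ζ ∧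
      (∀ x, fc x = 0 → g x = g₀ x) ∧ ∀ l ∈ S, ∃ η : ℂ, η ^ 4 = -1 ∧ g (w l) = η ^ j l * w l := by
  induction S using Finset.induction_on with
  | empty => exact fun _ => ⟨g₀, h1, h2, fun _ _ => rfl, by simp⟩
  | insert l S hlS ih =>
    intro hS
    obtain ⟨g, hg1, hg2, hg3, hg4⟩ := ih fun l' h => hS l' (Finset.mem_insert_of_mem h)
    obtain ⟨hl, hd⟩ := hS l (Finset.mem_insert_self l S)
    obtain ⟨s, hs1, hs2, hs3, hs4, hs5⟩ := exists_s hV hR hq hπ hw hζ.pow_eq_one hl hd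
    have hw0 : w l ≠ 0 := fun h => by
      have h3 := uu_norm (gen_ne hl (hπ l hl hd))
      rw [← hw, h] at h3
      simp at h3
    have hη : (s (w l) / w l) ^ 4 = -1 := by
      rw [div_pow, ← map_pow, hs5, neg_div, div_self (pow_ne_zero _ hw0)]
    have hη8 : (s (w l) / w l) ^ 8 = 1 := by
      rw [show (8 : ℕ) = 4 * 2 by norm_num, pow_mul, hη]; norm_num
    have hprim : IsPrimitiveRoot (s (w l) / w l) 8 := by
      have h3 : orderOf (s (w l) / w l) = 2 ^ (2 + 1) := orderOf_eq_prime_pow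
        (by rw [show (2 : ℕ) ^ 2 = 4 by norm_num, hη]; norm_num) hη8
      have h4 := IsPrimitiveRoot.orderOf (s (w l) / w l)
      rwa [h3] at h4
    obtain ⟨i, _, hi⟩ := hprim.eq_pow_of_pow_eq_one (ξ := g (w l) / w l) (by
      rw [div_pow, ← map_pow, hw, uu_fix (hπ l hl hd).1 hg1, ← hw, div_self (pow_ne_zero _ hw0)])
    refine ⟨g * s ^ (j l + 7 * i), ?_, ?_, fun x hx => ?_, fun l' hl' => ?_⟩
    · change g ((s ^ _) _) = _
      rw [pow_fix hs1, hg1]
    · change g ((s ^ _) _) = _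
      rw [pow_fix hs2, hg2]
    · change g ((s ^ _) _) = _
      rw [pow_fix (hs3 x hx), hg3 x hx]
    · rcases Finset.mem_insert.1 hl' with rfl | h
      · refine ⟨_, hη, ?_⟩
        change g ((s ^ _) _) = _
        have h3 : g (w l') = (s (w l') / w l') ^ i * w l' := by rw [hi, div_mul_cancel₀ _ hw0]
        rw [pow_eig (fix8 hζ hm hs2 hη8) (div_mul_cancel₀ _ hw0).symm, map_mul, map_pow,
          fix8 hζ hm hg2 hη8, h3, ← mul_assoc, ← pow_add,
          show j l' + 7 * i + i = j l' + 8 * i by ring, pow_add, pow_mul, hη8, one_pow, mul_one]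
      · obtain ⟨η, h3, h4⟩ := hg4 l' h
        obtain ⟨h5, h6⟩ := hS l' hl'
        refine ⟨η, h3, ?_⟩
        change g ((s ^ _) _) = _
        rw [pow_fix (hs4 l' h5 h6 fun e => hlS (e ▸ h)), h4]

/-- The congruences at the place above `r`. -/
theorem final {O : ValuationSubring ℂ} (h2 : O.valuation (2 : ℂ) = 1) {y c : ℂ} {o : ℕ}
    (ho : Odd o) (hy : O.valuation y = 1) (hc : O.valuation c = 1)
    (h4 : O.valuation (y ^ 4 - 1) < 1) (h : O.valuation (c - y ^ o) < 1) :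
    (c ^ 2 = -1 → ¬ O.valuation (y ^ 2 - 1) < 1) ∧
    (c = -1 → O.valuation (y ^ 2 - 1) < 1 ∧ ¬ O.valuation (y - 1) < 1) := by
  have hp : ∀ n : ℕ, O.valuation (y ^ n) ≤ 1 := fun n => by rw [map_pow, hy, one_pow]
  have h1 : O.valuation (1 : ℂ) ≤ 1 := by rw [map_one]
  have h5 := cong_pow hc.le (hp o) h 2
  refine ⟨fun e h6 => ?_, fun e => ⟨?_, fun h6 => ?_⟩⟩
  · have h7 := cong_pow (hp 2) h1 h6 o
    rw [← pow_mul, mul_comm, pow_mul, one_pow] at h7
    exact neg_one_ne h2 (e ▸ cong_trans h5 h7)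
  · obtain ⟨t, rfl⟩ := ho
    have h7 := cong_pow (hp 4) h1 h4 t
    have h8 := cong_mul (x' := y ^ 2) (y' := y ^ 2) (by rw [← pow_mul]; exact hp _) (hp 2) h7
      (by simp)
    rw [e, neg_one_sq, show (y ^ (2 * t + 1)) ^ 2 = (y ^ 4) ^ t * y ^ 2 by ring] at h5
    rw [one_pow, one_mul] at h8
    exact cong_symm (cong_trans h5 h8)
  · have h7 := cong_pow hy.le h1 h6 o
    rw [one_pow] at h7
    exact neg_one_ne h2 (e ▸ cong_trans h h7)

theorem main (hV : VStmt) (hR : RStmt) : AuxStmt := by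
  classical
  intro q d π hq hπ
  have hw' : ∀ l, ∃ w : ℂ, w ^ 8 = uu (π l) := fun l =>
    IsAlgClosed.exists_pow_nat_eq _ (by norm_num)
  choose w hw using hw'
  set m := 3 * tt d + 4 with hm
  obtain ⟨ζ, hζ⟩ : ∃ ζ : ℂ, IsPrimitiveRoot ζ (2 ^ m) :=
    ⟨_, Complex.isPrimitiveRoot_exp (2 ^ m) (by positivity)⟩
  have hd0 : d.natAbs ≠ 0 := by
    have := hq.fam.m4
    omega
  have hmem : ∀ l : ℕ, l ∈ d.natAbs.primeFactors ↔ l.Prime ∧ (l : ℤ) ∣ d := fun l => by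
    rw [Nat.mem_primeFactors_of_ne_zero hd0, Int.natCast_dvd]
  obtain ⟨g₀, e, he, h01, h02, h03⟩ := exists_g0 hV hR.1 hq.qf hζ.pow_eq_one
  obtain ⟨g, hg1, hg2, hg3, hg4⟩ := exists_g hV hR hq hπ hw hζ (by omega)
    (fun l => if nr l = 1 then 1 else 2) h01 h02 d.natAbs.primeFactors fun l h => (hmem l).1 h
  have h3c := h03 g hg3
  set σ : G := cj * g with hσ
  have hσa : ∀ x, σ x = cj (g x) := fun x => rfl
  obtain ⟨T, hT, hTx, hTa⟩ := two_tors hR.1 he
  have hwa : ∀ l ∈ d.natAbs.primeFactors, IsAlgebraic ℚ (w l) := fun l h =>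
    IsAlgebraic.of_pow (n := 8) (by norm_num)
      (by rw [hw]; exact uu_alg (hπ l ((hmem l).1 h).1 ((hmem l).1 h).2).1)
  have hζa : IsAlgebraic ℚ ζ := IsAlgebraic.of_pow (n := 2 ^ m) (by positivity)
    (by rw [hζ.pow_eq_one]; exact isAlgebraic_one)
  obtain ⟨r, O, φ, a, b, hr, hN, hO, hφ, hab⟩ := hV.2.2.2.1
    (insert (om q) (insert ζ (insert e (d.natAbs.primeFactors.image w)))) σ
    (11 + q + d.natAbs) (by
      intro x hx
      simp only [Finset.mem_insert, Finset.mem_image] at hx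
      rcases hx with rfl | rfl | rfl | ⟨l, hl, rfl⟩
      · exact om_alg q
      · exact hζa
      · exact hTx ▸ hTa.1
      · exact hwa l hl)
  have hr2 : r ≠ 2 := by omega
  have hr11 : r ≠ 11 := by omega
  have hrq : r ≠ q := by omega
  have h2 := v_two hr hO hr2
  have hσom : σ (om q) = 1 - om q := by rw [hσa, hg1, cj_om]
  have hσom2 : σ (σ (om q)) = om q := by rw [hσom, map_sub, map_one, hσom]; ring
  have hne : 1 - om q ≠ om q := fun h => by
    have h1 := congrArg Complex.im h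
    have h3 := om_im hq.qf.pr.ne_zero
    simp at h1
    linarith
  have hom := hab 1 (om q) (by simp)
  simp only [pow_one, mul_one] at hom
  have ha : Odd a := by
    rcases Nat.even_or_odd a with h | h
    · rw [pow_even hσom2 h] at hom
      rw [pow_fix hom.1, hσom] at hom
      exact (hne hom.2).elim
    · exact h
  have hφom : φ (om q) = 1 - om q := by rw [hom.1, pow_odd hσom2 ha, hσom]
  have hζ0 : ζ ≠ 0 := hζ.ne_zero (by positivity)
  have hσζ : σ ζ = ζ⁻¹ := by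
    rw [hσa, hg2, cj_inv (n := 2 ^ m) (by positivity) (by rw [hζ.pow_eq_one, norm_one])]
  have hφζ : φ ζ = ζ⁻¹ := by
    have h1 := (hab 1 ζ (by simp)).1
    rw [pow_one, mul_one, pow_odd (by rw [hσζ, map_inv₀, hσζ, inv_inv]) ha, hσζ] at h1
    exact h1
  have hvζ : O.valuation ζ = 1 := v_root (n := 2 ^ m) (by positivity)
    (by rw [hζ.pow_eq_one, map_one])
  have hdv : 2 ^ m ∣ r + 1 := by
    refine hζ.dvd_of_pow_eq_one _ (root_eq_one h2 m _ ?_ ?_)
    · rw [← pow_mul, mul_comm, pow_mul, hζ.pow_eq_one, one_pow]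
    · have h1 := nu.1 (hφ ζ hζa (mo.2 hvζ.le)).2
      have e1 : ζ ^ (r + 1) - 1 = ζ * (ζ ^ r - φ ζ) := by rw [hφζ]; field_simp; ring
      rw [e1]
      exact v_mul_lt hvζ.le (cong_symm h1)
  have hnr : nr r = 0 := by
    obtain ⟨_, _, _, _, _, _, h7, h8⟩ := hR.2 r O hr hr2 hr11 hO
    obtain ⟨h9, h10, _⟩ := h8 φ hφ
    by_contra h0
    have h11 : φ • φ • T = T := by
      rcases h7 with h | h | h
      · exact (h0 h).elim
      · exact (h10.1 h).1 T hT
      · rw [h9.1 h T hT, h9.1 h T hT]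
    have h12 : φ (φ e) = e := by rw [← hTx, ← xc_smul, ← xc_smul, h11]
    have h13 := (hab 2 e (by simp)).2
    rw [pow_even h12 ((even_two).mul_left b), pow_two] at h13
    exact h3c h13
  refine ⟨r, O, ⟨hr, hr11, hrq, fun h => ?_, hdv, fun h => ?_, hnr⟩, hO, fun l hl hd => ?_⟩
  · have := Nat.le_of_dvd (Nat.pos_of_ne_zero hd0) (Int.natCast_dvd.1 h)
    omega
  · exact hne (hφom.symm.trans
      ((hV.2.1.2.2.2.2.2.2.2.1 q r O φ hq.qf.pr hq.qf.m4 hr hr2 hrq hO hφ).2 h))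
  have hl' := (hmem l).2 ⟨hl, hd⟩
  have hG := hπ l hl hd
  have hrl : r ≠ l := by
    have := Nat.le_of_dvd (Nat.pos_of_ne_zero hd0) (Int.natCast_dvd.1 hd)
    omega
  obtain ⟨η, hη, hgw⟩ := hg4 l hl'
  set j : ℕ := if nr l = 1 then 1 else 2 with hj
  have hη8 : η ^ 8 = 1 := by rw [show (8 : ℕ) = 4 * 2 by norm_num, pow_mul, hη]; norm_num
  have hun := uu_norm (gen_ne hl hG)
  have hσw : σ (w l) = (η ^ j * w l)⁻¹ := by
    rw [hσa, hgw]
    refine cj_inv (n := 8) (by norm_num) ?_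
    rw [mul_pow, ← pow_mul, mul_comm j, pow_mul, hη8, one_pow, one_mul, hw, hun]
  have hση : σ η = η⁻¹ := by
    rw [hσa, fix8 hζ (by omega) hg2 hη8]
    exact cj_inv (n := 8) (by norm_num) (by rw [hη8, norm_one])
  have hσ2 : (σ ^ (a * 2)) (w l) = (η ^ (2 * j)) ^ a * w l := by
    rw [mul_comm a, pow_mul]
    refine pow_eig ?_ ?_ a
    · rw [map_pow, pow_two σ]
      change σ (σ η) ^ _ = _
      rw [hση, map_inv₀, hση, inv_inv]
    · rw [pow_two]
      change σ (σ (w l)) = _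
      rw [hσw, map_inv₀, map_mul, map_pow, hση, hσw, mul_inv, inv_inv, inv_pow, inv_inv]
      ring
  have hvu := uu_val hq.qf.m4 hl hG hr hO hrl
  have hvw : O.valuation (w l) = 1 := v_root (n := 8) (by norm_num) (by rw [hw, hvu])
  have hw0 : w l ≠ 0 := fun h => by simp [h] at hvw
  obtain ⟨k, hk⟩ : 4 ∣ r + 1 := by
    refine dvd_trans ?_ hdv
    exact pow_dvd_pow 2 (show 2 ≤ m by omega)
  have hk0 : 1 ≤ k := by omega
  obtain ⟨k', rfl⟩ := Nat.exists_eq_add_of_le hk0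
  have hrr : r * r = 8 * ((1 + k') * (2 * k' + 1)) + 1 := by
    have : r = 4 * k' + 3 := by omega
    rw [this]; ring
  have hcong : O.valuation ((η ^ (2 * j)) ^ a - (uu (π l) ^ (1 + k')) ^ (2 * k' + 1)) < 1 := by
    have h1 := nu.1 (hV.2.1.1 O r r φ φ hφ hφ hr.ne_zero (w l) (hwa l hl') (mo.2 hvw.le)).2
    have h3 := (hab 2 (w l) (by
      simp only [Finset.mem_insert, Finset.mem_image]
      exact Or.inr (Or.inr (Or.inr ⟨l, hl', rfl⟩)))).1
    rw [← pow_two, h3, hσ2, hrr, pow_succ (w l), pow_mul (w l), hw, ← sub_mul, map_mul, hvw,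
      mul_one, pow_mul (uu (π l))] at h1
    exact h1
  have hu0 : uu (π l) ≠ 0 := fun h => by simp [h] at hun
  have h4 : O.valuation ((uu (π l) ^ (1 + k')) ^ 4 - 1) < 1 := by
    have h1 := nu.1 (hφ _ (uu_alg hG.1) (mo.2 hvu.le)).2
    have h3 : (cj * φ) (om q) = om q := by
      change cj (φ (om q)) = _
      rw [hφom, map_sub, map_one, cj_om]; ring
    have h5 : φ (uu (π l)) = (uu (π l))⁻¹ := by
      have h6 : cj (φ (uu (π l))) = uu (π l) := uu_fix hG.1 h3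
      have h7 := congrArg cj h6
      rw [cj_inv (z := uu (π l)) (n := 1) one_ne_zero (by rw [pow_one, hun])] at h7
      exact (Complex.conj_conj _).symm.trans h7
    have e1 : (uu (π l) ^ (1 + k')) ^ 4 - 1 = uu (π l) * (uu (π l) ^ r - φ (uu (π l))) := by
      rw [h5, ← pow_mul, mul_comm (1 + k'), ← hk]
      field_simp
      ring
    rw [e1]
    exact v_mul_lt hvu.le (cong_symm h1)
  have hvη : O.valuation η = 1 := v_root (n := 8) (by norm_num) (by rw [hη8, map_one])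
  obtain ⟨f1, f2⟩ := final h2 (odd_two_mul_add_one k') (by rw [map_pow, hvu, one_pow])
    (by rw [map_pow, map_pow, hvη, one_pow, one_pow]) h4 hcong
  have e1 : (r + 1) / 2 ^ 1 = (1 + k') * 2 := by omega
  have e2 : (r + 1) / 2 ^ 2 = 1 + k' := by omega
  rw [e1, e2, pow_mul, nu, nu]
  refine ⟨fun h => f1 ?_, fun h => f2 ?_⟩
  · rw [hj, if_pos h, ← pow_mul, mul_comm a, pow_mul, ← pow_mul η, hη, ha.neg_one_pow]
  · rw [hj, if_neg (by omega), hη, ha.neg_one_pow]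

end Aux

theorem aux_thm (hV : VStmt) (hR : RStmt) : AuxStmt := Aux.main hV hR

end Pool.Agent.Lib.MP_d6ddbd_nt.K11
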