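import Pool.Agent.Lib.MP_d6ddbd_nt.K11.StP

/-!
The trace of the Heegner points of conductor one does not reduce to the origin at `q`.
-/

set_option autoImplicit false

open Pointwise
open Pool.Agent.Lib.MP_02f36d_nt (xc yc)
open Pool.Agent.Lib.MP_9177b7_ag.CM

noncomputable section

namespace Pool.Agent.Lib.MP_d6ddbd_nt.K11

namespace Base

theorem val_int {O : ValuationSubring ℂ} {q : ℕ} (hq : q.Prime) (h : Ov O q) {n : ℤ} (hn : n ≠ 0) :
    ∃ k : ℕ, O.valuation n = O.valuation q ^ k := by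
  have p := Nat.prime_iff_prime_int.1 hq
  obtain ⟨k, m, a, rfl⟩ := WfDvdMonoid.max_power_factor hn p.irreducible
  obtain ⟨u, v, e⟩ := p.irreducible.coprime_iff_not_dvd.2 a
  have le : ∀ c : ℤ, O.valuation c ≤ 1 := fun c => (O.valuation_le_one_iff _).2 (intCast_mem O c)
  have : O.valuation m = 1 := (le m).eq_of_not_lt fun l => by
    have e' : (u : ℂ) * q + v * m = 1 := by exact_mod_cast e
    refine (O.valuation.map_add_lt (g := 1) (x := u * q) (y := v * m) ?_ ?_).ne (by rw [e', map_one])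
    · rw [map_mul]
      exact (mul_le_of_le_one_left' (le u)).trans_lt (O.mem_nonunits_iff.1 h)
    · rw [map_mul]
      exact (mul_le_of_le_one_left' (le v)).trans_lt l
  exact ⟨k, by simp [this]⟩

theorem inertia (h : V3Stmt) {O : ValuationSubring ℂ} {q : ℕ} (hq : q.Prime) (hO : Ov O q) :
    ∃ ι : G, Frob O 1 ι ∧ ι (om q) ≠ om q := by
  by_contra! H
  have q0 : (q : ℂ) ≠ 0 := Nat.cast_ne_zero.2 hq.ne_zero
  have s := om_sq' q
  obtain ⟨y, y0, a, b⟩ := h ℚ (Rat.castHom ℂ) q O (2 * om q - 1) hq hO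
    (IsAlgebraic.of_pow two_pos (s ▸ (isAlgebraic_natCast q).neg))
    (fun e => q0 (by rw [e] at s; simpa using s)) fun σ c _ => by simp [H σ c, map_ofNat]
  have e := ((O.valuation_le_one_iff _).2 a).eq_of_not_lt (mt O.mem_nonunits_iff.2 b)
  obtain ⟨i, hi⟩ := val_int hq hO (Rat.num_ne_zero.2 y0)
  obtain ⟨j, hj⟩ := val_int hq hO (Int.natCast_ne_zero.2 y.den_nz)
  have v0 : O.valuation q ≠ 0 := (map_ne_zero _).2 q0
  replace s := congrArg O.valuation s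
  rw [Int.cast_natCast] at hj
  rw [Rat.coe_castHom, Rat.cast_def, map_div₀, map_div₀, hi, hj,
    div_eq_one_iff_eq (div_ne_zero (pow_ne_zero _ v0) (pow_ne_zero _ v0))] at e
  rw [map_pow, e, Valuation.map_neg, div_pow, ← pow_mul, ← pow_mul,
    div_eq_iff (pow_ne_zero _ v0), ← pow_succ'] at s
  have := pow_right_injective₀ (zero_lt_iff.2 v0) (O.mem_nonunits_iff.1 hO).ne s
  omega

theorem sq11 : om 11 ^ 2 = om 11 - (3 : ℤ) := om_sq (q := 11) rfl

theorem im11 : 0 < (om 11).im := om_im (by norm_num)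

theorem class_one {N : Submodule ℤ ℂ} (hN : IsLat N) (h : om 11 • N ≤ N) :
    ∃ c : ℂ, c ≠ 0 ∧ N = c • OK 11 := by
  obtain ⟨τ, c, hc, hτ, rfl⟩ := hyp.exists_fd hN
  have h' : om 11 • sp τ 1 ≤ sp τ 1 := by
    simpa only [smul_comm (om 11) c, inv_smul_smul₀ hc] using smul_le_smul c⁻¹ h
  obtain ⟨A, u, e⟩ := mem_sp.1 (mul_mem_of_le h' (right_mem_sp _ _))
  rw [mul_one, mul_one] at e
  have a : (om 11).im = A * τ.im := by simp [← e]
  have b : 4 * (om 11).im ^ 2 = 11 := by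
    have : (om 11).im = Real.sqrt 11 / 2 := by simp [om]
    rw [this, div_pow, Real.sq_sqrt (by norm_num)]
    norm_num
  have d := ModularGroup.three_le_four_mul_im_sq_of_mem_fd hτ
  have f : (0 : ℝ) < A := (mul_pos_iff_of_pos_right τ.im_pos).1 (a ▸ im11)
  have g : (3 * A ^ 2 : ℝ) ≤ 11 := by
    rw [a] at b
    nlinarith [sq_nonneg (A : ℝ)]
  obtain rfl : A = 1 := by
    norm_cast at f g
    nlinarith
  refine ⟨c, hc, congrArg _ (le_antisymm (sp_le.2 ⟨mem_sp.2 ⟨-u, 1, ?_⟩, left_mem_sp _ _⟩)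
    (sp_le.2 ⟨right_mem_sp _ _, mem_sp.2 ⟨1, u, ?_⟩⟩))⟩ <;> simp [← e]

theorem cm11 (hR : R1Stmt) {Pp : Submodule ℤ ℂ → Submodule ℤ ℂ → Pt} {a : ℕ → ℤ} {t0 : Pt}
    (h : XI Pp a t0) : ∃ M, Lv (OK 11) M ∧ Pp (OK 11) M = 3 • t0 := by
  have s := om_sq' 11
  have hL : IsLat (OK 11) := isLat_ord im11.ne'
  have w : om 11 • OK 11 ≤ OK 11 := smul_ord_le (om' sq11)
  have n : ((1 : ℤ) + (-2 : ℤ) * om 11) * (1 / (11 : ℤ)) ∉ OK 11 :=
    div_notMem im11.ne' (by norm_num) (by norm_num)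
  have d : ∀ y ∈ OK 11, (2 * om 11 - 1) * y ∈ OK 11 := fun y hy => by
    convert sub_mem (imul (mul_mem_of_le w hy) 2) hy using 1
    push_cast
    ring
  generalize hδ : 2 * om 11 - 1 = δ at s d
  push_cast at s n
  have δ0 : δ ≠ 0 := fun e => by simp [e] at s
  have i : δ⁻¹ = -δ / 11 := by
    field_simp
    linear_combination s
  have n' : δ⁻¹ ∉ OK 11 := by
    convert n using 2
    rw [i, ← hδ]
    ring
  have one : (1 : ℂ) ∈ OK 11 := left_mem_sp _ _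
  have neg : ∀ c : ℂ, (-c) • OK 11 = c • OK 11 := fun c => by
    ext z
    simp only [mem_smul_iff]
    constructor <;> rintro ⟨y, hy, rfl⟩ <;> exact ⟨-y, neg_mem hy, by ring⟩
  have lv : Lv (OK 11) (δ⁻¹ • OK 11) := by
    refine ⟨hL, SetLike.lt_iff_le_and_exists.2 ⟨fun y hy => mem_smul_iff.2 ⟨_, d y hy, ?_⟩,
      δ⁻¹, mem_smul_iff.2 ⟨1, one, mul_one _⟩, n'⟩, ?_⟩
    · field_simp
    rw [smul_smul, show 11 * δ⁻¹ = -δ by rw [i]; ring, neg]
    refine SetLike.lt_iff_le_and_exists.2 ⟨fun z hz => ?_, 1, one, fun hz => ?_⟩ <;>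
      obtain ⟨y, hy, e⟩ := mem_smul_iff.1 hz
    · exact e ▸ d y hy
    · exact n' (by rwa [← eq_inv_of_mul_eq_one_right e])
  refine ⟨_, lv, sub_eq_zero.1 ?_⟩
  have e1 := h.scale _ _ δ⁻¹ lv (inv_ne_zero δ0)
  rw [smul_smul, show δ⁻¹ * δ⁻¹ = -11⁻¹ by field_simp; linear_combination s, neg,
    h.fricke _ _ lv] at e1
  have fix : ∀ σ : G, σ • Pp (OK 11) (δ⁻¹ • OK 11) = Pp (OK 11) (δ⁻¹ • OK 11) := fun σ => by
    obtain ⟨N, hN⟩ := hyp.exists_conj (σ : ℂ →+* ℂ) hL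
    obtain ⟨c, hc, rfl⟩ := class_one hN.2.1 (hyp.conj_smul_le (om' sq11) im11.ne' hN w)
    have k := hyp.conj_smul hN (inv_ne_zero δ0)
    have : (σ : ℂ →+* ℂ) δ⁻¹ • c • OK 11 = c • δ⁻¹ • OK 11 := by
      have : ((σ : ℂ →+* ℂ) δ) ^ 2 = δ ^ 2 := by rw [← map_pow, s, map_neg, map_ofNat]
      rw [smul_comm, map_inv₀]
      rcases sq_eq_sq_iff_eq_or_eq_neg.1 this with e | e <;> rw [e]
      rw [inv_neg, neg]
    rw [← h.conj σ _ _ _ _ lv (g2_ne sq11 im11.ne' (by norm_num))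
      (g3_ne sq11 im11.ne' (by norm_num)) hN (this ▸ k), h.scale _ _ c lv hc]
  generalize Pp (OK 11) (δ⁻¹ • OK 11) = P at e1 fix
  obtain ⟨-, -, -, two, ⟨e₁, e₂, e₃, f, n1, n2, n3, -, -, -, ⟨ω, w1, w2, w3⟩, -⟩, -⟩ := hR
  have t : 2 • (P - 3 • t0) = 0 := by
    rw [← neg_eq_zero.2 h.five, ← sub_eq_zero, ← neg_eq_zero, ← sub_eq_zero.2 e1]
    module
  have x : ω (xc (P - 3 • t0)) = xc (P - 3 • t0) := by
    rw [← xc_smul, smul_sub, fix, smul_comm, h.rat]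
  refine ((two _).1 t).resolve_right fun c => ?_
  have := c.2
  simp only [f, mul_eq_zero, sub_eq_zero] at this
  rcases this with (e | e) | e <;> rw [e] at x
  exacts [n1 (x.symm.trans w1), n3 (x.symm.trans w2), n2 (w3.symm.trans x)]

theorem sum_inv {H A : Type} [CommGroup H] [AddCommGroup A] (o : Odd (Nat.card H)) (c : H)
    (s : Finset H) (hs : ∀ x, x ∈ s) (f : H → A) (h : ∀ x, f x + f (c * x⁻¹) = 0) :
    ∃ x, c * x⁻¹ = x ∧ ∑ y ∈ s, f y = f x := by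
  classical
  have b := (Nat.coprime_two_right.2 o).pow_left_bijective (G := H)
  obtain ⟨x, e⟩ := b.2 c
  have k : ∀ y, c * y⁻¹ = y ↔ y = x := fun y => by
    rw [mul_inv_eq_iff_eq_mul, ← sq, ← e, eq_comm]
    exact b.1.eq_iff
  refine ⟨x, (k x).2 rfl, ?_⟩
  rw [← Finset.add_sum_erase s f (hs x), Finset.sum_involution (fun y _ => c * y⁻¹)
    (fun y _ => h y) (fun y a _ => mt (k y).1 (Finset.ne_of_mem_erase a))
    (fun y a => Finset.mem_erase.2 ⟨fun l => Finset.ne_of_mem_erase a ?_, hs _⟩)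
    (fun y _ => by simp), add_zero]
  exact inv_injective (mul_left_cancel (l.trans ((k x).2 rfl).symm))

end Base

open Base in
theorem base_thm (hV : VStmt) (hR : RStmt) (hG2 : G2Stmt) (hPic : PicStmt) (hGal : GalStmt) :
    BaseStmt := fun Pp a t0 h q hq4 hq big b s O hb hs hO hsum => by
  obtain ⟨ι, i1, i2⟩ := inertia hV.2.2.1 hq hO
  have w := om' (om_sq hq4.out)
  have f : (ι * cj) (om q) = om q := by
    have e1 : ι (om q) = _ := (map_omega w (ι : ℂ →+* ℂ)).resolve_left i2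
    change ι (starRingEnd ℂ _) = _
    rw [conj_omega w (om_im hq.ne_zero).ne', map_sub, map_intCast, e1, sub_sub_cancel]
  have g := hGal Pp a t0 h q hq big b 1 hb one_ne_zero (by norm_num)
  have k : ∀ x : Pic q 1, t0 - hp Pp b (ar q 1 (ι * cj) * lam q 1 11 (1 - b) * x⁻¹) - hp Pp b x ∈
      E1 O := fun x => by
    have := (hR.2 q O hq (by omega) (by omega) hO).2.2.1 ι _ i1 (g x).2.1
    rwa [← mul_one ι, ← cj_mul_cj, ← mul_assoc, mul_smul, (g x).2.2.2.1, smul_sub, h.rat,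
      (g _).2.2.1 _ f, ← mul_assoc] at this
  obtain ⟨o, pic⟩ := hPic q hq big
  obtain ⟨x, e, u⟩ := sum_inv o (ar q 1 (ι * cj) * lam q 1 11 (1 - b)) s hs
    (fun x => QuotientAddGroup.mk' (E1 O) (5 • hp Pp b x)) fun x => by
      rw [← map_add, QuotientAddGroup.mk'_apply, QuotientAddGroup.eq_zero_iff]
      convert neg_mem (nsmul_mem (k x) 5) using 1
      rw [nsmul_sub, nsmul_sub, h.five]
      abel
  rw [← map_sum, QuotientAddGroup.mk'_apply, (QuotientAddGroup.eq_zero_iff _).2 hsum, eq_comm,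
    QuotientAddGroup.mk'_apply, QuotientAddGroup.eq_zero_iff] at u
  obtain ⟨M, lv, p⟩ := cm11 hR.1 h
  obtain ⟨l, -, -, -, m⟩ := (pic 1 one_ne_zero).2.1 x _ (cl_out x)
  refine hG2 q O _ hq big hq4.out hO l ((m _).2 (Oc_one q ▸ right_mem_sp _ _))
    (h.jc q O _ _ _ _ hq big hO ((g x).1 _ (cl_out x)).1 lv p ?_)
  have := k x
  rw [e] at this
  convert neg_mem (add_mem (nsmul_mem this 3) u) using 1
  change hp Pp b x - _ = _
  module

end Pool.Agent.Lib.MP_d6ddbd_nt.K11
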