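import Pool.Agent.Lib.MP_d6ddbd_nt.K11.CK1

/-!
From the system of cocycles to the system of classes.
-/

set_option autoImplicit false

open NumberField IsDedekindDomain Pointwise
open Pool.Agent.Lib.MP_02f36d_nt (xc yc)
open Pool.Agent.Stark (Pr og hq LSq pw ord_mul ord_pow ord_one mem_pw_iff ord_add_of_lt zmod2_ext)

noncomputable section

namespace Pool.Agent.Lib.MP_d6ddbd_nt.K11

namespace CK

variable {L : Type} [Field L] [NumberField L] {θ : L}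

theorem fam_ne {d : ℤ} (hd : Fam d) {l : ℕ} (hld : (l : ℤ) ∣ d) : l ≠ 2 ∧ l ≠ 11 := by
  refine ⟨?_, ?_⟩ <;> rintro rfl
  · have := hd.m4
    omega
  · exact hd.n11 hld

omit [NumberField L] in
theorem sqrt_ne {e : L →+* ℂ} {α : L} (hα : α ≠ 0) {s : ℂ} (hs : s ^ 2 = e α) : s ≠ 0 := by
  rintro rfl
  exact (map_ne_zero e).2 hα (by rw [← hs]; norm_num)

/-- The parity of the valuation is read on the inertia group. -/
theorem parity (hL1 : Link1Stmt) (hθ : Cub θ) {d : ℤ} (hd : Fam d) {l : ℕ} (hl : l.Prime)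
    (hld : (l : ℤ) ∣ d) {𝔮 : Pr L} (hq : 𝔮 ∈ ab L l) {f : L →+* ℂ} {O : ValuationSubring ℂ}
    (hf : Below f O 𝔮) {σ : G} {s : ℂ} (hσ : Frob O 1 σ) (hs : s ^ 2 = d) (hσs : σ s = -s)
    {α : L} {ξ : G → Pt} (hα : α ≠ 0) (hK : Kum θ α ξ) :
    Even (og 𝔮 α) ↔ wl (f θ) (ξ σ) = 0 := by
  obtain ⟨t, ht⟩ := exists_sqrt (f α)
  obtain ⟨h1, h2⟩ := ((hL1 L θ hθ).1 f O 𝔮 l α t hl (fam_ne hd hld).1 (fam_ne hd hld).2 hq hf hα
    ht).1 σ s d hσ hs hd.sf hld hσs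
  rw [← h2, hK f t σ ht h1]

theorem norm_pair (hPr : PrStmt) (hθ : Cub θ) {l : ℕ} (hl : l.Prime) {𝔭 𝔮 : Pr L} (h : 𝔭 ≠ 𝔮)
    (h1 : ∀ 𝔯, 𝔯 ∈ ab L l ↔ 𝔯 = 𝔭 ∨ 𝔯 = 𝔮) (hn : nm 𝔭 = l) (hn' : nm 𝔮 = l ^ 2) {α : L}
    (hα : α ≠ 0) (hN : IsSquare (Algebra.norm ℚ α)) : Even (og 𝔭 α) := by
  classical
  have h2 := ((hPr L θ hθ).2.2.2.1 l α hl hα).2 hN
  have h3 : ab L l = {𝔭, 𝔮} := Finset.ext fun x => by simp [h1]
  have h4 : Nat.log l l = 1 := by simpa using Nat.log_pow hl.one_lt 1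
  rw [h3, Finset.sum_pair h, hn, hn', Nat.log_pow hl.one_lt, h4] at h2
  obtain ⟨c, hc⟩ := h2
  exact ⟨c - og 𝔮 α, by push_cast at hc; linear_combination hc⟩

open Classical in
theorem av_three (hPr : PrStmt) (hθ : Cub θ) {l : ℕ} (hl : l.Prime) {𝔭 : Pr L} (hp : 𝔭 ∈ ab L l)
    (hn : ∀ 𝔮 ∈ ab L l, nm 𝔮 = l) {α : L} (hα : α ≠ 0) (hN : IsSquare (Algebra.norm ℚ α)) :
    av 𝔭 α = 0 ↔ Even (og 𝔭 α) := by
  have h2 := ((hPr L θ hθ).2.2.2.1 l α hl hα).2 hN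
  have h4 : Nat.log l l = 1 := by simpa using Nat.log_pow hl.one_lt 1
  rw [Finset.sum_congr rfl (g := fun 𝔮 => og 𝔮 α) fun 𝔮 hq => by rw [hn 𝔮 hq, h4]; simp,
    ← cast_eq_zero, Int.cast_sum, ← Finset.add_sum_erase _ _ hp] at h2
  unfold av
  rw [hn 𝔭 hp, ← cast_eq_zero]
  generalize ∑ 𝔮 ∈ (ab L l).erase 𝔭, (og 𝔮 α : ZMod 2) = a at h2 ⊢
  generalize (og 𝔭 α : ZMod 2) = b at h2 ⊢
  revert a b
  decide

open Classical in
theorem av_pair {l : ℕ} {𝔭 𝔮 : Pr L} (h : 𝔭 ≠ 𝔮) (h1 : ∀ 𝔯, 𝔯 ∈ ab L l ↔ 𝔯 = 𝔭 ∨ 𝔯 = 𝔮)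
    (hn : nm 𝔭 = l) (α : L) : av 𝔭 α = 0 ↔ Even (og 𝔮 α) := by
  have h3 : (ab L l).erase 𝔭 = {𝔮} := Finset.ext fun x => by
    rw [Finset.mem_erase, h1, Finset.mem_singleton]
    constructor
    · exact fun a => a.2.resolve_left a.1
    · rintro rfl
      exact ⟨h.symm, Or.inr rfl⟩
  unfold av
  rw [hn, h3, Finset.sum_singleton, cast_eq_zero]

theorem nsq_eq_zero {𝔭 : Pr L} {α : L} : nsq 𝔭 α = 0 ↔ LSq 𝔭 α := by
  unfold nsq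
  split_ifs with h <;> simp [h]

theorem z2 {a b c : ZMod 2} (h : a = b + c) : (a = 0 ↔ b = 0) ↔ c = 0 := by
  subst h
  revert b c
  decide

/-- The two coordinates at a prime of degree one that divides `d`. -/
theorem loc (hV : VStmt) (hR : RStmt) (hPr : PrStmt) (hL1 : Link1Stmt) (hD : LocDStmt)
    (hθ : Cub θ) {d : ℤ} (hd : Fam d) {l : ℕ} (hl : l.Prime) (hld : (l : ℤ) ∣ d) {𝔭 : Pr L}
    (hp : 𝔭 ∈ ab L l) (hn : nm 𝔭 = l) {e : L →+* ℂ} {O : ValuationSubring ℂ} (hO : Ov O l)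
    (he : Below e O 𝔭) {σ φ : G} {η : ℤ} {s : ℂ} (hσ : Frob O 1 σ) (hφ : Frob O l φ)
    (hs : s ^ 2 = d) (hσs : σ s = -s) (hη : η = 1 ∨ η = -1) (hφs : φ s = η * s) {α : L}
    {ξ : G → Pt} (hα : α ≠ 0) (hN : IsSquare (Algebra.norm ℚ α)) (hc : Coc ξ) (hK : Kum θ α ξ) :
    (nr l = 3 → av 𝔭 α = wl (e θ) (ξ σ)) ∧ (nr l = 1 → (av 𝔭 α = 0 ↔ ξ σ = 0)) ∧
      ∀ Z S : Pt, 2 • Z = 0 → 2 • S = ξ σ → ξ φ = φ • S - η • S + Z →
        bv θ d 𝔭 α = wl (e θ) Z := by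
  obtain ⟨h2, h11⟩ := fam_ne hd hld
  have hP := (hPr L θ hθ).2.2.1 l hl h2 h11
  have par : ∀ {𝔮 : Pr L} {f : L →+* ℂ}, 𝔮 ∈ ab L l → Below f O 𝔮 →
      (Even (og 𝔮 α) ↔ ξ σ = 0 ∨ xc (ξ σ) = f θ) := fun hq hf => by
    rw [parity hL1 hθ hd hl hld hq hf hσ hs hσs hα hK, wl_eq_zero]
  have bel : ∀ {𝔭 𝔮 : Pr L} {e f : L →+* ℂ}, 𝔭 ∈ ab L l → 𝔮 ∈ ab L l → nm 𝔭 = l → Below e O 𝔭 →
      Below f O 𝔮 → (𝔮 = 𝔭 ↔ f θ = e θ) := fun a b c a' b' =>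
    below_iff hV hPr hθ hl h2 h11 a b c a' b'
  have emb : ∀ {𝔮 : Pr L}, 𝔮 ∈ ab L l → ∃ f : L →+* ℂ, Below f O 𝔮 := fun hq =>
    exists_emb hV hR hPr hθ hl h2 h11 hp hn hO he hq
  have frob : ∀ {β : L} {t : ℂ}, β ≠ 0 → t ^ 2 = e β → Even (og 𝔭 β) →
      φ (e θ) = e θ ∧ (φ t = t ↔ LSq 𝔭 β) := fun {β t} a b c =>
    ((hL1 L θ hθ).1 e O 𝔭 l β t hl h2 h11 hp he a b).2 φ (hn ▸ hφ) c
  have hφe : φ (e θ) = e θ := (frob (β := 1) (t := 1) one_ne_zero (by simp) (by simp [og])).1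
  refine ⟨fun h => ?_, fun h => ?_, fun Z S hZ hS hξ => ?_⟩
  · refine zmod2_ext ?_
    rw [av_three hPr hθ hl hp (hP.2.2.2.2.1 h).2 hα hN, par hp he, wl_eq_zero]
  · obtain ⟨𝔮, a, b, c⟩ := pair hPr hθ hl h2 h11 hp hn h
    have hq := (b 𝔮).2 (Or.inr rfl)
    obtain ⟨f, hf⟩ := emb hq
    rw [av_pair a b hn, par hq hf]
    refine ⟨fun g => g.elim id fun g => ?_, Or.inl⟩
    refine ((par hp he).1 (norm_pair hPr hθ hl a b hn c hα hN)).resolve_right fun g' => ?_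
    exact a.symm ((bel hp hq hn he hf).2 (g.symm.trans g'))
  have hD1 := (hD L θ hθ d l hd hl hld).1 α hα hN 𝔭 hp hn
  have hfe := fc_emb hθ e
  have hT := hc.two σ
  obtain ⟨t, ht⟩ := exists_sqrt (e α)
  have ht0 := sqrt_ne hα ht
  have hθα : φ (e α) = e α := by
    obtain ⟨a, b, c, h⟩ := (hPr L θ hθ).2.2.2.2.2.2.1 α
    rw [h]
    simp [hφe]
  have htφ : φ t = t ∨ φ t = -t := sgn (by rw [ht, hθα])
  have hW : 2 • (φ • S - η • S) = 0 := by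
    rw [eq_sub_of_add_eq hξ.symm, nsmul_sub, hc.two, hZ, sub_zero]
  have hwl : wl (e θ) (ξ φ) = wl (e θ) (φ • S - η • S) + wl (e θ) Z := by
    rw [hξ, hR.1.2.2.2.2.2.1 _ _ _ hfe hW hZ]
  have hKφ := hK e t φ ht hφe
  obtain ⟨h, h0, hh, hh'⟩ := hR.1.2.2.2.2.2.2.2 (e θ) S hfe
  rw [hS] at hh hh'
  refine zmod2_ext ?_
  rw [← z2 hwl, ← hKφ]
  by_cases hT0 : ξ σ = 0
  · obtain ⟨g1, g2, -⟩ := hh' φ η hφe hη (by rw [hT0, sz, zsmul_zero])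
    have g3 : h ^ 2 = 1 := by rw [hh, hT0]; simp [gam]
    have g4 : φ h = h := by
      rcases sq_eq_one_iff.1 g3 with g | g <;> simp [g]
    rw [hD1.1 fun 𝔮 hq => by obtain ⟨f, hf⟩ := emb hq; exact (par hq hf).2 (Or.inl hT0),
      nsq_eq_zero, ← (frob hα ht ((par hp he).2 (Or.inl hT0))).2,
      ← g2 (wl_eq_zero.2 (Or.inl hT0))]
    simp [g4]
  have hx := (((hR.1.2.2.2.1 _).1 hT).resolve_left hT0).2
  by_cases hxe : xc (ξ σ) = e θ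
  · obtain ⟨g1, g2, -⟩ := hh' φ η hφe hη (by
      rw [fix_two hR hT (by rw [hxe, hφe]), eta_two hη hT])
    have g3 : h ^ 2 = e (fd θ) := by rw [hh, map_fd]; simp [gam, hT0, hxe]
    have g4 : gm θ d 𝔭 𝔭 = fd θ := by simp [gm]
    have g5 : Even (og 𝔭 (α * fd θ)) := by
      have a : og 𝔭 (α * fd θ) = og 𝔭 α + og 𝔭 (fd θ) := ord_mul hα (fd_ne' hθ e)
      rw [a, (hP.1 𝔭 hp).2.2.1, add_zero]
      exact (par hp he).2 (Or.inr hxe)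
    rw [hD1.2 𝔭 hp hn fun 𝔮 hq => by
        obtain ⟨f, hf⟩ := emb hq
        rw [par hq hf, bel hp hq hn he hf, ← hxe]
        exact ⟨fun g => (g.resolve_left hT0).symm, fun g => Or.inr g.symm⟩,
      nsq_eq_zero, g4, ← (frob (t := t * h) (mul_ne_zero hα (fd_ne' hθ e))
        (by rw [mul_pow, ht, g3, map_mul]) g5).2, sgn_mul ht0 h0 htφ g1,
      g2 (wl_eq_zero.2 (Or.inr hxe))]
  have hodd : ¬ Even (og 𝔭 α) := fun g => ((par hp he).1 g).elim hT0 hxe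
  have h3 : nr l = 3 := (nr_cases hPr hθ hl h2 h11 hp hn).resolve_left fun g => by
    obtain ⟨𝔮, a, b, c⟩ := pair hPr hθ hl h2 h11 hp hn g
    exact hodd (norm_pair hPr hθ hl a b hn c hα hN)
  obtain ⟨e', 𝔭', he', hp', hb'⟩ := exists_below hV hPr hθ hl hO hx
  have hn' := (hP.2.2.2.2.1 h3).2 𝔭' hp'
  have hne : 𝔭 ≠ 𝔭' := fun g => hxe (he'.symm.trans ((bel hp' hp hn' hb' he).1 g).symm)
  have hfix := ((hR.2 l O hl h2 h11 hO).2.2.2.2.2.2.2 φ hφ).1.1 h3 _ hT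
  obtain ⟨g1, -, g2⟩ := hh' φ η hφe hη (by rw [hfix, eta_two hη hT])
  have g3 : h ^ 2 = e' θ - e θ := by rw [hh, he']; simp [gam, hT0, hxe]
  have g4 : gm θ d 𝔭' 𝔭 = d * (xr θ 𝔭' - θ) := by simp [gm, hne]
  have hd0 : (d : L) ≠ 0 := Int.cast_ne_zero.2 hd.sf.ne_zero
  have hx0 := xr_ne hPr hθ (xr θ 𝔭')
  have hs' : s ^ 2 = e d := by rw [hs, map_intCast]
  have hs0 := sqrt_ne hd0 hs'
  have g5 : og 𝔭 ((xr θ 𝔭' : L) - θ) = 0 := hP.2.1 𝔭' hp' 𝔭 hp hn' hne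
  have g6 : ¬ Even (og 𝔭 (d : L)) := fun g => ne_neg hs0 (hσs.symm.trans
    ((((hL1 L θ hθ).1 e O 𝔭 l d s hl h2 h11 hp he hd0 hs').1 σ s d hσ hs hd.sf hld hσs).2.2 g))
  have g7 : Even (og 𝔭 (α * (d * (xr θ 𝔭' - θ)))) := by
    have a : og 𝔭 (α * (d * (xr θ 𝔭' - θ))) = og 𝔭 α + og 𝔭 (d * (xr θ 𝔭' - θ)) :=
      ord_mul hα (mul_ne_zero hd0 hx0)
    have b : og 𝔭 ((d : L) * (xr θ 𝔭' - θ)) = og 𝔭 (d : L) + og 𝔭 ((xr θ 𝔭' : L) - θ) :=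
      ord_mul hd0 hx0
    rw [a, b, g5, add_zero]
    exact (Int.not_even_iff_odd.1 hodd).add_odd (Int.not_even_iff_odd.1 g6)
  obtain ⟨k, hk⟩ := exists_sqrt (e (xr θ 𝔭' - θ))
  have hk0 := sqrt_ne hx0 hk
  have hkφ : φ k = k ∨ φ k = -k := sgn (by rw [hk, map_sub, map_sub, map_intCast, map_intCast, hφe])
  have g8 : φ k = k ↔ φ h = h := by
    refine sgn_congr' hV hφ hl.ne_zero (IsAlgebraic.of_pow two_pos (hk ▸ alg_emb e _))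
      (IsAlgebraic.of_pow two_pos (g3 ▸ (alg_emb e' θ).sub (alg_emb e θ))) ?_ ?_ ?_ hkφ g1
    · have := xr_mem hV hPr hθ hl h2 h11 hp' hn' hb'
      rwa [hk, g3, map_sub, map_intCast, sub_sub_sub_cancel_right]
    · rw [hk]
      exact val_one hV he hx0 g5
    · simpa [map_ofNat] using val_one hV he two_ne_zero (hP.1 𝔭 hp).2.1
  have hsφ : φ s = s ∨ φ s = -s := sgn (by rw [hs, map_intCast])
  have hskφ : φ (s * k) = s * k ∨ φ (s * k) = -(s * k) := sgn (by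
    rw [mul_pow, map_mul, hs, map_intCast, hk, map_sub, map_sub, map_intCast, map_intCast, hφe])
  have g9 : φ (s * k) = s * k ↔ φ h = η * h := by
    rw [sgn_mul hs0 hk0 hsφ hkφ, g8, hφs]
    have a := ne_neg hs0
    have b := ne_neg h0
    rcases hη with rfl | rfl <;> rcases g1 with g | g <;> rw [g] <;> simp [a, b, b.symm]
  rw [hD1.2 𝔭' hp' hn' fun 𝔮 hq => by
      obtain ⟨f, hf⟩ := emb hq
      rw [par hq hf, bel hp' hq hn' hb' hf, he']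
      exact ⟨fun g => (g.resolve_left hT0).symm, fun g => Or.inr g.symm⟩,
    nsq_eq_zero, g4, ← (frob (t := t * (s * k)) (mul_ne_zero hα (mul_ne_zero hd0 hx0))
      (by rw [mul_pow, mul_pow, ht, hs', hk, map_mul, map_mul]) g7).2,
    sgn_mul ht0 (mul_ne_zero hs0 hk0) htφ hskφ, g9,
    g2 fun g => (wl_eq_zero.1 g).elim hT0 hxe]

theorem pst_sf {p : ℕ} (hp : p.Prime) : Squarefree (GF.pst p) ∧ (p : ℤ) ∣ GF.pst p := by
  refine ⟨?_, Dvd.intro_left _ rfl⟩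
  rw [← Int.squarefree_natAbs]
  simpa [GF.pst, Int.natAbs_mul, Int.natAbs_pow] using hp.squarefree

theorem ne_two {p n : ℕ} (h : 2 ^ (n + 3) ∣ p + 1) : p ≠ 2 := by
  rintro rfl
  have := (Dvd.intro_left _ (pow_add 2 n 3).symm).trans h
  norm_num at this

theorem even_of_at2 {α : L} (hα : α ≠ 0) (h : At2 α) : ∀ 𝔭 ∈ ab L 2, Even (og 𝔭 α) := by
  intro 𝔭 hp
  obtain ⟨β, hβ⟩ := h 𝔭 hp
  have h1 : α * β ^ 2 ≠ 0 ∧ og 𝔭 (α * β ^ 2) = 0 := by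
    by_cases h0 : α * β ^ 2 - 1 = 0
    · rw [sub_eq_zero.1 h0]
      exact ⟨one_ne_zero, ord_one⟩
    · have h2 := (mem_pw_iff.1 hβ).resolve_left h0
      have h3 := ord_add_of_lt (w := 𝔭.valuation L) one_ne_zero h0 (by rw [ord_one]; omega)
      rwa [add_sub_cancel, ord_one] at h3
  have h2 : og 𝔭 (α * β ^ 2) = og 𝔭 α + og 𝔭 (β ^ 2) := ord_mul hα (right_ne_zero_of_mul h1.1)
  have h3 : og 𝔭 (β ^ 2) = (2 : ℕ) * og 𝔭 β := ord_pow β 2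
  exact ⟨-og 𝔭 β, by push_cast at h3; omega⟩

end CK

open CK in
theorem ck_thm (hV : VStmt) (hR : RStmt) (hPr : PrStmt) (hKum : KumStmt) (hLink1 : Link1Stmt)
    (hLink2 : Link2Stmt) (hLocD : LocDStmt) : CKStmt := by
  classical
  intro L _ _ θ hθ q d r M ξ hQ hr hK
  have hex : ∀ n j, ∃ α : L, α ≠ 0 ∧ IsSquare (Algebra.norm ℚ α) ∧
      (Kn q d n → Kum θ α (ξ n j)) ∧ (¬ Kn q d n → α = 1) := fun n j => by
    by_cases h : Kn q d n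
    · obtain ⟨α, a, b, c⟩ := (hKum L θ hθ).1 _ (hK.coc n j h)
      exact ⟨α, a, b, fun _ => c, fun g => absurd h g⟩
    · exact ⟨1, one_ne_zero, by simp, fun g => absurd g h, fun _ => rfl⟩
  choose α h0 hN hKu h1 using hex
  have hd := hQ.fam
  have sqc : ∀ n j, Kn q d n → (IsSquare (α n j) ↔ Cob (ξ n j)) := fun n j h =>
    (hKum L θ hθ).2 _ _ (h0 n j) (hK.coc n j h) (hKu n j h)
  have atd : ∀ n, Kn q d n → ∀ 𝔭 ∈ D1 L d, bv θ d 𝔭 (α n 0) = 0 ∧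
      ∀ j, av 𝔭 (α n j) = bv θ d 𝔭 (α n (j + 1)) := fun n hn 𝔭 hp => by
    obtain ⟨hp1, hp2⟩ := Finset.mem_filter.1 hp
    obtain ⟨-, l, hl, hpl, hl'⟩ := (hPr L θ hθ).2.2.2.2.1 𝔭
    have hld : (l : ℤ) ∣ d :=
      Int.natCast_dvd.2 ((hl' _ (Int.natAbs_ne_zero.2 hd.sf.ne_zero)).1 hp1)
    obtain ⟨h2, h11⟩ := fam_ne hd hld
    have hP := (hPr L θ hθ).2.2.1 l hl h2 h11
    have hnm := (hP.1 𝔭 hpl).2.2.2.2.1 hp2
    obtain ⟨e₁, -, -, r1, -⟩ := roots hR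
    obtain ⟨e, -⟩ := (hPr L θ hθ).2.2.2.2.2.2.2.1 e₁ r1
    obtain ⟨O, he⟩ := hV.1.2.1 L e 𝔭
    have hO : Ov O l := by
      have := (hV.1.2.2.2.1 L e O 𝔭 he l (Nat.cast_ne_zero.2 hl.ne_zero)).2
        (by rw [(hP.1 𝔭 hpl).1]; exact one_pos)
      rwa [map_natCast] at this
    obtain ⟨s, hs⟩ := exists_sqrt d
    obtain ⟨σ, hσ, hσs⟩ := (hLink1 L θ hθ).2.1 l O s d hl hO hs hd.sf hld
    obtain ⟨φ, hφ⟩ := hV.1.2.2.2.2 l O hl hO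
    obtain ⟨η, hη, hφs⟩ : ∃ η : ℤ, (η = 1 ∨ η = -1) ∧ φ s = η * s := by
      rcases sgn (σ := φ) (s := s) (by rw [hs, map_intCast]) with g | g
      · exact ⟨1, Or.inl rfl, by simp [g]⟩
      · exact ⟨-1, Or.inr rfl, by simp [g]⟩
    have hc := nr_cases hPr hθ hl h2 h11 hpl hnm
    obtain ⟨Z, S, a, b, c⟩ := hK.atd n l O σ φ η s hn hl hld (by omega) hO hσ hφ hs hσs hφs
    have lc := fun j => loc hV hR hPr hLink1 hLocD hθ hd hl hld hpl hnm hO he hσ hφ hs hσs hη hφs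
      (h0 n j) (hN n j) (hK.coc n j hn) (hKu n j hn)
    have lb : ∀ j, bv θ d 𝔭 (α n j) = wl (e θ) (Z j) := fun j =>
      (lc j).2.2 _ _ (a j).1 (a j).2.1 (a j).2.2
    rcases hc with g | g
    · have hφe : φ (e θ) = e θ := (((hLink1 L θ hθ).1 e O 𝔭 l 1 1 hl h2 h11 hpl he one_ne_zero
        (by simp)).2 φ (hnm ▸ hφ) (by simp [og])).1
      have fx := fun j => fix_iff hR (fc_emb hθ e) hφe
        (((hR.2 l O hl h2 h11 hO).2.2.2.2.2.2.2 φ hφ).2.1.1 g).2 (a j).1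
      refine ⟨by rw [lb, ← fx]; exact (c g).1, fun j => zmod2_ext ?_⟩
      rw [(lc j).2.1 g, lb, ← fx, ← (c g).2 j, sub_eq_zero]
    · refine ⟨by rw [lb, (b g).1]; exact wl_eq_zero.2 (Or.inl rfl), fun j => ?_⟩
      rw [(lc j).1 g, lb, (b g).2 j]
  have atp : ∀ n j p, Kn q d n → Kol q d p → p ∉ n →
      fv p (α (insert p n) j) = 0 ∧ sv p (α (insert p n) j) = fv p (α n j) := by
    intro n j p hn hp hpn
    have hn' : Kn q d (insert p n) := fun x hx => by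
      rcases Finset.mem_insert.1 hx with rfl | hx
      exacts [hp, hn x hx]
    obtain ⟨O, φ, hO, hφ, hφ'⟩ := hp.fr
    obtain ⟨s, hs⟩ := exists_sqrt (GF.pst p)
    obtain ⟨σ, hσ, hσs⟩ := (hLink1 L θ hθ).2.1 p O s _ hp.pr hO hs (pst_sf hp.pr).1
      (pst_sf hp.pr).2
    obtain ⟨a, b⟩ := hK.atp n j p O σ φ s hn hp hpn hO hσ hφ hφ' hs hσs
    have lk := fun m (hm : Kn q d m) => ((hLink1 L θ hθ).2.2 _ _ (h0 m j) (hN m j)
      (hK.coc m j hm) (hKu m j hm)).2 p O σ φ s hp.pr (ne_two hp.dv) hp.n11 hp.ty hO hσ hφ hs hσs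
    refine ⟨(lk _ hn').2.2 b, zmod2_ext ?_⟩
    rw [(lk _ hn').1, (lk _ hn).2, ← a, smul_eq_zero']
  refine ⟨α, ⟨fun n j hn => ?_, fun n j hj => ?_, ?_, fun n hn 𝔭 hp => (atd n hn 𝔭 hp).1,
    fun n j hn 𝔭 hp => (atd n hn 𝔭 hp).2 j, fun n j hn p hp => ?_,
    fun n j p hn hp hpn => (atp n j p hn hp hpn).2⟩, hKu _ _ fun p hp => absurd hp (by simp)⟩
  · have hq := hQ.qf.big
    have L2 := hLink2 L θ hθ _ _ (h0 n j) (hN n j) (hK.coc n j hn) (hKu n j hn)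
    have a2 : At2 (α n j) := L2.1 fun O hO => hK.unr n j 2 O hn Nat.prime_two hO (by omega)
      (ne_two (n := 3 * tt d + 1) hr.dv).symm (fun g => (fam_ne hd g).1 rfl)
      fun g => ne_two (hn 2 g).dv rfl
    refine ⟨h0 n j, hN n j, a2, fun p hp hpd hpn => ?_⟩
    rw [Finset.mem_insert, not_or] at hpn
    by_cases h2 : p = 2
    · rw [h2]
      exact even_of_at2 (h0 n j) a2
    by_cases hpr : p = r
    · intro 𝔭 h𝔭
      have h11 : p ≠ 11 := hpr ▸ hr.n11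
      obtain ⟨𝔮, a, b⟩ := ((hPr L θ hθ).2.2.1 p hp h2 h11).2.2.1 (hpr ▸ hr.ty)
      have c := ((hPr L θ hθ).2.2.2.1 p _ hp (h0 n j)).2 (hN n j)
      rw [a, Finset.mem_singleton] at h𝔭
      rw [a, Finset.sum_singleton, b, Nat.log_pow hp.one_lt, ← h𝔭] at c
      obtain ⟨c, hc⟩ := c
      exact ⟨c - og 𝔭 (α n j), by push_cast at hc; omega⟩
    have un := fun O hO => hK.unr n j p O hn hp hO hpn.1 hpr hpd hpn.2
    by_cases h11 : p = 11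
    · subst h11
      exact L2.2 un
    · exact ((hLink1 L θ hθ).2.2 _ _ (h0 n j) (hN n j) (hK.coc n j hn) (hKu n j hn)).1 p hp h2
        h11 un
  · by_cases hn : Kn q d n
    · exact (sqc n j hn).2 ⟨0, nsmul_zero 2, fun σ => by rw [hK.top n j σ hj, sz, sub_zero]⟩
    · rw [h1 n j hn]
      exact IsSquare.one
  · obtain ⟨n, j, hn, h⟩ := hK.ne
    exact ⟨n, j, hn, fun g => h ((sqc n j hn).1 g)⟩
  · have := (atp (n.erase p) j p (fun x hx => hn x (Finset.mem_of_mem_erase hx)) (hn p hp)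
      (Finset.notMem_erase p n)).1
    rwa [Finset.insert_erase hp] at this

end Pool.Agent.Lib.MP_d6ddbd_nt.K11
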