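import Pool.Agent.Lib.MP_d6ddbd_nt.K11.Cheb1

/-!
The choice of `q` and of the Kolyvagin primes.
-/

set_option autoImplicit false

open NumberField IsDedekindDomain Pointwise
open Pool.Agent.Lib.MP_02f36d_nt (xc yc)
open Pool.Agent.Stark (Pr og hq LSq pw SqCl cl)

noncomputable section

namespace Pool.Agent.Lib.MP_d6ddbd_nt.K11

namespace Cheb

variable {L : Type} [Field L] [NumberField L]

/-- The classes to which Lemma K applies. -/
def Gd (α : L) : Prop := α ≠ 0 ∧ IsSquare (Algebra.norm ℚ α) ∧ ∀ 𝔭 ∈ ab L 11, Even (og 𝔭 α)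

theorem prod_gd {ι : Type} (S : Finset ι) (a : ι → L) (h : ∀ i, Gd (a i)) :
    Gd (∏ i ∈ S, a i) ∧ cl (∏ i ∈ S, a i) = ∑ i ∈ S, cl (a i) := by
  classical
  induction S using Finset.induction_on with
  | empty =>
    exact ⟨⟨by simp, by simp, fun 𝔭 _ => by simp [og]⟩, by
      simpa using (Pool.Agent.Stark.cl_eq_zero one_ne_zero).2 IsSquare.one⟩
  | insert i S hi ih =>
    rw [Finset.prod_insert hi, Finset.sum_insert hi, Pool.Agent.Stark.cl_mul (h i).1 ih.1.1, ih.2]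
    refine ⟨⟨mul_ne_zero (h i).1 ih.1.1, ?_, fun 𝔭 h𝔭 => ?_⟩, rfl⟩
    · rw [map_mul]; exact (h i).2.1.mul ih.1.2.1
    · rw [og, Pool.Agent.Stark.ord_mul (h i).1 ih.1.1]
      exact ((h i).2.2 𝔭 h𝔭).add (ih.1.2.2 𝔭 h𝔭)

/-- The sign attached to a class modulo two. -/
def sg (c : ZMod 2) : ℂ := if c = 0 then 1 else -1

theorem sg_add (a b : ZMod 2) : sg (a + b) = sg a * sg b := by
  rcases Pool.Agent.Stark.zmod2_cases a with rfl | rfl <;>
    rcases Pool.Agent.Stark.zmod2_cases b with rfl | rfl <;>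
    simp [sg, show (1 + 1 : ZMod 2) = 0 from rfl]

theorem sg_sum {ι : Type} (S : Finset ι) (c : ι → ZMod 2) : sg (∑ i ∈ S, c i) = ∏ i ∈ S, sg (c i) := by
  classical
  induction S using Finset.induction_on with
  | empty => simp [sg]
  | insert i S hi ih => rw [Finset.prod_insert hi, Finset.sum_insert hi, sg_add, ih]

theorem map_sg (g : G) (c : ZMod 2) : g (sg c) = sg c := by
  unfold sg; split_ifs <;> simp

theorem exists_g (hC : CommStmt) {θ : L} (hθ : Cub θ) (m : ℕ) (e : L →+* ℂ) (T : Finset L)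
    (s : L → ℂ) (hs : ∀ α ∈ T, s α ^ 2 = e α) (hT : ∀ α ∈ T, Gd α)
    (hfix : ∀ g : G, (∀ P : Pt, 2 ^ (m + 1) • P = 0 → g • P = P) → ∀ y, g (e y) = e y)
    (lam : SqCl L →ₗ[ZMod 2] ZMod 2) :
    ∃ g ∈ commutator G, (∀ P : Pt, 2 ^ (m + 1) • P = 0 → g • P = P) ∧
      ∀ α ∈ T, g (s α) = sg (lam (cl α)) * s α := by
  classical
  let U : Submodule (ZMod 2) (T → ZMod 2) :=
    { carrier := {u | ∃ g ∈ commutator G, (∀ P : Pt, 2 ^ (m + 1) • P = 0 → g • P = P) ∧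
        ∀ α : T, g (s α) = sg (u α) * s α}
      add_mem' := by
        rintro u v ⟨g, g1, g2, g3⟩ ⟨h, h1, h2, h3⟩
        refine ⟨g * h, mul_mem g1 h1, fun P hP => by rw [mul_smul, h2 P hP, g2 P hP], fun α => ?_⟩
        show g (h (s α)) = _
        rw [h3, map_mul, map_sg, g3, Pi.add_apply, sg_add]; ring
      zero_mem' := ⟨1, one_mem _, fun P _ => one_smul _ _, fun α => by simp [sg]⟩
      smul_mem' := by
        rintro c u hu
        rcases Pool.Agent.Stark.zmod2_cases c with rfl | rfl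
        · exact ⟨1, one_mem _, fun P _ => one_smul _ _, fun α => by simp [sg]⟩
        · rwa [one_smul] }
  have hU : (fun α : T => lam (cl α.1)) ∈ U := by
    by_contra hn
    obtain ⟨f, f1, f2⟩ := U.exists_dual_map_eq_bot_of_notMem hn inferInstance
    let S : Finset T := Finset.univ.filter fun i => f (fun j => if i = j then 1 else 0) = 1
    have hf : ∀ u : T → ZMod 2, f u = ∑ i ∈ S, u i := fun u => by
      rw [LinearMap.pi_apply_eq_sum_univ, Finset.sum_filter]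
      refine Finset.sum_congr rfl fun i _ => ?_
      rcases Pool.Agent.Stark.zmod2_cases (f fun j => if i = j then 1 else 0) with h | h <;>
        simp [h]
    obtain ⟨⟨b1, b2, b3⟩, b4⟩ := prod_gd S (fun i : T => i.1) fun i => hT i.1 i.2
    have hns : ¬ IsSquare (∏ i ∈ S, i.1) := fun h => f1 (by
      rw [hf, ← map_sum, ← b4, (Pool.Agent.Stark.cl_eq_zero b1).2 h, map_zero])
    have hsq : (∏ i ∈ S, s i.1) ^ 2 = e (∏ i ∈ S, i.1) := by
      rw [map_prod, ← Finset.prod_pow]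
      exact Finset.prod_congr rfl fun i _ => hs i.1 i.2
    obtain ⟨g, g1, g2, g3⟩ := hC L θ hθ _ m e _ b1 b2 b3 hns hsq
    have h1 : ∀ α : T, ∃ c, g (s α) = sg c * s α := fun α => by
      have : g (s α) ^ 2 = s α ^ 2 := by rw [← map_pow, hs α.1 α.2, hfix g g2]
      rcases sq_eq_sq_iff_eq_or_eq_neg.1 this with h | h
      · exact ⟨0, by simp [sg, h]⟩
      · exact ⟨1, by simp [sg, h]⟩
    choose u hu using h1
    have h2 : f u = 0 := by
      have : f u ∈ U.map f := Submodule.mem_map_of_mem ⟨g, g1, g2, hu⟩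
      rwa [f2, Submodule.mem_bot] at this
    have h3 : g (∏ i ∈ S, s i.1) = ∏ i ∈ S, s i.1 := by
      rw [map_prod, Finset.prod_congr rfl fun i _ => hu i, Finset.prod_mul_distrib, ← sg_sum,
        ← hf, h2]
      simp [sg]
    have h4 : ∏ i ∈ S, s i.1 = 0 := by linear_combination (g3 - h3) / 2
    rw [h4] at hsq
    exact b1 ((map_eq_zero e).1 (by rw [← hsq]; simp))
  obtain ⟨g, g1, g2, g3⟩ := hU
  exact ⟨g, g1, g2, fun α hα => g3 ⟨α, hα⟩⟩

theorem core (hV : VStmt) (hR : RStmt) (hPr : PrStmt) (hL : Link1Stmt) (hC : CommStmt) {θ : L}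
    (hθ : Cub θ) {d : ℤ} (hd : Fam d) (T : Finset L) (lam : SqCl L →ₗ[ZMod 2] ZMod 2) (N m : ℕ)
    (hT : ∀ α ∈ T, ∃ B : Finset ℕ, 11 ∉ B ∧ Wc d B α) (X : Finset ℂ)
    (hX : ∀ x ∈ X, ∃ c : ℤ, x ^ 2 = c) :
    ∃ (p : ℕ) (O : ValuationSubring ℂ) (φ : G), N < p ∧ p.Prime ∧ Ov O p ∧ Frob O p φ ∧
      2 ^ (m + 1) ∣ p + 1 ∧ nr p = 1 ∧ (∀ P : Pt, 2 ^ (m + 1) • P = 0 → φ • φ • P = P) ∧
      (∀ x ∈ X, φ x = cj x) ∧ ∀ α ∈ T, fv p α = lam (cl α) := by
  classical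
  obtain ⟨⟨-, -, v3, v4, -⟩, -, -, ⟨v5, -⟩⟩ := hV
  obtain ⟨hfin, halg⟩ := tors hR.1 (m + 1)
  obtain ⟨⟨-, -, hpt, h2, ⟨e₁, e₂, e₃, hf, -, -, n23, -, c2, -⟩, -⟩, hR2⟩ := hR
  obtain ⟨-, -, p3, -, p5, p6, p7, -, -, e', -, he'⟩ := hPr L θ hθ
  choose! B hB using hT
  let e : L →+* ℂ := Complex.ofRealHom.comp e'
  have hce : ∀ y, cj (e y) = e y := fun y => Complex.conj_ofReal _
  have hae : ∀ y, IsAlgebraic ℚ (e y) := fun y =>
    (Algebra.IsAlgebraic.isAlgebraic (R := ℚ) y).algHom e.toRatAlgHom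
  let s : L → ℂ := fun α => (Real.sqrt (e' α) : ℝ)
  have hs : ∀ α ∈ T, s α ^ 2 = e α := fun α hα => by
    show ((Real.sqrt (e' α) : ℝ) : ℂ) ^ 2 = ((e' α : ℝ) : ℂ)
    rw [← Complex.ofReal_pow, Real.sq_sqrt (he' α (hB α hα).2.ne (hB α hα).2.sq).le]
  have hcs : ∀ α, cj (s α) = s α := fun α => Complex.conj_ofReal _
  have hroot : ∀ x : ℂ, fc x = 0 → 2 ^ (m + 1) • pt x 0 = 0 ∧ 2 • pt x 0 = 0 ∧ xc (pt x 0) = x :=
    fun x hx => by
      obtain ⟨-, b2, b3⟩ := hpt x 0 (by rw [hx]; ring)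
      have : 2 • pt x 0 = 0 := (h2 _).2 (Or.inr ⟨b3, by rw [b2, hx]⟩)
      exact ⟨by rw [pow_succ, mul_smul, this]; exact nsmul_zero _, this, b2⟩
  have hfθ : fc (e θ) = 0 := by
    have := congrArg e hθ.eq
    simpa [fc, map_ofNat] using this
  have hfix : ∀ g : G, (∀ P : Pt, 2 ^ (m + 1) • P = 0 → g • P = P) → ∀ y, g (e y) = e y :=
    fun g hg y => by
      have h1 : g (e θ) = e θ := by
        have := xc_smul g (pt (e θ) 0)
        rw [hg _ (hroot _ hfθ).1, (hroot _ hfθ).2.2] at this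
        exact this.symm
      obtain ⟨a, b, c, rfl⟩ := p7 y
      simp only [map_add, map_mul, map_pow, map_ratCast, h1]
  obtain ⟨g, g1, g2, g3⟩ := exists_g hC hθ m e T s hs (fun α hα => ⟨(hB α hα).2.ne, (hB α hα).2.sq,
    (hB α hα).2.ev 11 (by norm_num) hd.n11 (hB α hα).1⟩) hfix lam
  have hn : 2 ^ (m + 1) ≠ 0 := by positivity
  have hζ := Complex.isPrimitiveRoot_exp _ hn
  generalize Complex.exp (2 * Real.pi * Complex.I / (2 ^ (m + 1) : ℕ)) = ζ at hζ
  have hI : Complex.I ^ 2 = ((-1 : ℤ) : ℂ) := by simp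
  let J : Finset ℂ := insert Complex.I (insert ζ
    (X ∪ (hfin.toFinset.image xc ∪ (hfin.toFinset.image yc ∪ T.image s))))
  have hJ : ∀ x ∈ J, IsAlgebraic ℚ x := fun x hx => by
    simp only [J, Finset.mem_insert, Finset.mem_union, Finset.mem_image, Set.Finite.mem_toFinset,
      Set.mem_ofPred_eq] at hx
    rcases hx with rfl | rfl | hx | ⟨P, hP, rfl⟩ | ⟨P, hP, rfl⟩ | ⟨α, hα, rfl⟩
    · exact alg_sq hI
    · exact IsAlgebraic.of_pow (n := 2 ^ (m + 1)) (by positivity)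
        (by rw [hζ.pow_eq_one]; exact isAlgebraic_one)
    · obtain ⟨c, hc⟩ := hX x hx
      exact alg_sq hc
    · exact (halg P hP).1
    · exact (halg P hP).2
    · exact IsAlgebraic.of_pow (n := 2) (by norm_num) (by rw [hs α hα]; exact hae α)
  obtain ⟨p, O, φ, a, b, hp, hN, hO, hφ, hab⟩ := v5 J (cj * g)
    (N + 11 + d.natAbs + ∑ α ∈ T, ∑ x ∈ B α, x) hJ
  have hcc : ∀ x, cj (cj x) = x := fun x => Complex.conj_conj x
  have hσ : ∀ x, (cj * g) x = cj (g x) := fun _ => rfl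
  have hinv : ∀ x, g x = x → g (cj x) = cj x → (cj * g) ((cj * g) x) = x := fun x h1 h2 => by
    rw [hσ, hσ, h1, h2, hcc]
  have ha : Odd a := by
    by_contra h
    have h0 : g Complex.I = Complex.I := (ab_sq hI).fix g1 1
    obtain ⟨h3, h4⟩ := hab 1 Complex.I (by simp [J])
    rw [pow_one, mul_one, pow_even (hinv _ h0 ((ab_sq hI).fix g1 cj))
      (Nat.not_odd_iff_even.1 h)] at h3
    rw [pow_one, pow_fix h3, hσ, h0, cj_apply, Complex.conj_I] at h4
    exact Complex.I_ne_zero (by linear_combination -h4 / 2)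
  have st : ∀ x ∈ J, (cj * g) ((cj * g) x) = x → φ x = cj (g x) := fun x hx h => by
    have h3 := (hab 1 x hx).1
    rwa [pow_one, mul_one, pow_odd h ha, hσ] at h3
  have st2 : ∀ x ∈ J, g x = x → g (cj x) = cj x → φ x = cj x := fun x hx h1 h2 => by
    rw [st x hx (hinv x h1 h2), h1]
  have htor : ∀ P : Pt, 2 ^ (m + 1) • P = 0 → 2 ^ (m + 1) • cj • P = 0 := fun P hP => by
    rw [smul_comm, hP]; exact (smul_eq_zero' _ _).2 rfl
  have hP : ∀ P : Pt, 2 ^ (m + 1) • P = 0 → φ • P = cj • P := fun P hP => by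
    refine act_ext (by simp only [smul_eq_zero']) ?_ ?_
    · rw [xc_smul, xc_smul]
      refine st2 _ (by simp only [J, Finset.mem_insert, Finset.mem_union, Finset.mem_image,
        Set.Finite.mem_toFinset]; exact .inr (.inr (.inr (.inl ⟨P, hP, rfl⟩)))) ?_ ?_
      · rw [← xc_smul, g2 P hP]
      · rw [← xc_smul cj, ← xc_smul, g2 _ (htor P hP)]
    · rw [yc_smul, yc_smul]
      refine st2 _ (by simp only [J, Finset.mem_insert, Finset.mem_union, Finset.mem_image,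
        Set.Finite.mem_toFinset]; exact .inr (.inr (.inr (.inr (.inl ⟨P, hP, rfl⟩))))) ?_ ?_
      · rw [← yc_smul, g2 P hP]
      · rw [← yc_smul cj, ← yc_smul, g2 _ (htor P hP)]
  have hPP : ∀ P : Pt, 2 ^ (m + 1) • P = 0 → φ • φ • P = P := fun P h => by
    rw [hP P h, hP _ (htor P h), ← mul_smul, cj_mul_cj, one_smul]
  have p2 : p ≠ 2 := by omega
  have p11 : p ≠ 11 := by omega
  have hnr : nr p = 1 := by
    refine ((hR2 p O hp p2 p11 hO).2.2.2.2.2.2.2 φ hφ).2.1.2 ⟨fun P h => hPP P ?_, pt e₂ 0, ?_⟩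
    · rw [pow_succ, mul_smul, h]; exact nsmul_zero _
    · obtain ⟨b1, b2, b3⟩ := hroot e₂ (by rw [hf]; ring)
      refine ⟨b2, fun h => n23 ?_⟩
      have := congrArg xc h
      rw [hP _ b1, xc_smul, b3, c2] at this
      exact this.symm
  refine ⟨p, O, φ, by omega, hp, hO, hφ, ?_, hnr, hPP, fun x hx => ?_, fun α hα => ?_⟩
  · refine dvd_of_frob hp p2 hO hφ hζ ?_
    rw [st2 ζ (by simp [J]) ((ab_root hn hζ).fix g1 1) ((ab_root hn hζ).fix g1 cj), cj_apply,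
      mul_comm, Complex.mul_conj, Complex.normSq_eq_norm_sq, hζ.norm'_eq_one hn]
    simp
  · obtain ⟨c, hc⟩ := hX x hx
    exact st2 x (by simp [J, hx]) ((ab_sq hc).fix g1 1) ((ab_sq hc).fix g1 cj)
  obtain ⟨𝔭, h𝔭, hb⟩ := v3 L e p O hp hO
  have hm : 𝔭 ∈ ab L p := (mem_ab' hp.ne_zero).2 h𝔭
  obtain ⟨q1, -, -, q4, -⟩ := p3 p hp p2 p11
  obtain ⟨r1, r2, -, r4, -⟩ := q1 𝔭 hm
  have hne : ∀ x : ℤ, (x : L) - θ ≠ 0 := fun x => sub_ne_zero.2 (by simpa using (p6 x).1)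
  have hnm : nm 𝔭 = p := by
    have h0 : θ ≠ 0 := fun h => hne 0 (by simp [h])
    have h1 : φ (e θ) = e θ := by
      have := congrArg xc (hP _ (hroot _ hfθ).1)
      rwa [xc_smul, xc_smul, (hroot _ hfθ).2.2, hce] at this
    obtain ⟨n, h3⟩ := exists_int hp hO hφ (hae θ) ((hb θ h0).2 (p5 𝔭).1) h1
    have h4 : 0 < og 𝔭 ((n : L) - θ) := (v4 L e O 𝔭 hb _ (hne n)).1 (by simpa using h3)
    have h5 : ((xr θ 𝔭 : ℤ) : L) - θ ∈ pw (𝔭.valuation L) 1 :=
      Classical.epsilon_spec (p := fun x : ℤ => (x : L) - θ ∈ pw (𝔭.valuation L) 1)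
        ⟨n, Pool.Agent.Stark.mem_pw_iff.2 (Or.inr h4)⟩
    exact r4.2 ((Pool.Agent.Stark.mem_pw_iff.1 h5).resolve_left (hne _))
  have hfil : ((ab L p).filter fun 𝔮 => nm 𝔮 = p) = {𝔭} := by
    obtain ⟨𝔞, 𝔟, -, k1, -, k3⟩ := q4 hnr
    have k4 : ∀ 𝔮 ∈ ab L p, nm 𝔮 = p → 𝔮 = 𝔞 := fun 𝔮 k5 k6 => by
      refine ((k1 𝔮).1 k5).resolve_right fun k7 => ?_
      rw [k7, k3] at k6
      have := hp.two_le
      nlinarith
    ext 𝔮
    rw [Finset.mem_filter, Finset.mem_singleton]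
    exact ⟨fun h => (k4 𝔮 h.1 h.2).trans (k4 𝔭 hm hnm).symm, fun h => h ▸ ⟨hm, hnm⟩⟩
  have hd0 : d ≠ 0 := fun h => by have := hd.m4; omega
  have hev : Even (og 𝔭 α) := by
    refine (hB α hα).2.ev p hp (fun h => ?_) (fun h => ?_) 𝔭 hm
    · have := Nat.le_of_dvd (Int.natAbs_pos.2 hd0) (Int.natCast_dvd.1 h)
      omega
    · have k1 : p ≤ ∑ x ∈ B α, x := Finset.single_le_sum (f := fun x => x) (fun _ _ => zero_le) h
      have k2 : ∑ x ∈ B α, x ≤ ∑ α ∈ T, ∑ x ∈ B α, x :=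
        Finset.single_le_sum (f := fun α => ∑ x ∈ B α, x) (fun _ _ => zero_le) hα
      exact absurd ((k1.trans k2).trans (Nat.le_add_left _ _)) (not_le.2 hN)
  have hl := (((hL L θ hθ).1 e O 𝔭 p α (s α) hp p2 p11 hm hb (hB α hα).2.ne (hs α hα)).2 φ
    (by rw [hnm]; exact hφ) hev).2
  have hsg : ∀ c, cj (sg c * s α) = sg c * s α := fun c => by rw [map_mul, map_sg, hcs]
  have hφs : φ (s α) = sg (lam (cl α)) * s α := by
    rw [st (s α) (by simp only [J, Finset.mem_insert, Finset.mem_union, Finset.mem_image]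
                     exact .inr (.inr (.inr (.inr (.inr ⟨α, hα, rfl⟩))))) ?_, g3 α hα, hsg]
    rw [hσ, hσ, g3 α hα, hsg, map_mul, map_sg, g3 α hα, ← mul_assoc, ← sg_add,
      CharTwo.add_self_eq_zero, hsg]
    simp [sg]
  have hs0 : s α ≠ 0 := fun h => (hB α hα).2.ne ((map_eq_zero e).1 (by rw [← hs α hα, h]; simp))
  rw [fv, hfil, Finset.sum_singleton, hq_unr 𝔭 r2 (hB α hα).2.ne hev r1, ← hl, hφs]
  rcases Pool.Agent.Stark.zmod2_cases (lam (cl α)) with h | h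
  · simp [h, sg]
  · rw [h, if_neg]
    intro k
    exact hs0 (by simp only [sg, one_ne_zero, if_false] at k; linear_combination -k / 2)

end Cheb

open Cheb in
theorem cheb_thm (hV : VStmt) (hR : RStmt) (hPr : PrStmt) (hLink1 : Link1Stmt)
    (hComm : CommStmt) : ChebStmt := by
  classical
  intro L _ _ θ hθ d hd
  have hd0 : d ≠ 0 := fun h => by have := hd.m4; omega
  have hnd : ∀ p : ℕ, d.natAbs < p → ¬ (p : ℤ) ∣ d := fun p h1 h => by
    have := Nat.le_of_dvd (Int.natAbs_pos.2 hd0) (Int.natCast_dvd.1 h)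
    omega
  refine ⟨fun α hα => ?_, fun q T lam N hq hT => ?_⟩
  · obtain ⟨lam, hlam⟩ : ∃ lam : SqCl L →ₗ[ZMod 2] ZMod 2, ¬ IsSquare α → lam (cl α) = 1 := by
      by_cases h : IsSquare α
      · exact ⟨0, fun h' => (h' h).elim⟩
      · by_contra! hn
        refine h ((Pool.Agent.Stark.cl_eq_zero hα.ne).1
          ((Module.forall_dual_apply_eq_zero_iff (ZMod 2) _).1 fun f => ?_))
        exact (Pool.Agent.Stark.zmod2_cases _).resolve_right (hn f).2
    have hsq : ∀ l : ℕ, ((Real.sqrt l : ℝ) : ℂ) ^ 2 = ((l : ℤ) : ℂ) := fun l => by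
      rw [← Complex.ofReal_pow, Real.sq_sqrt (by positivity)]; simp
    obtain ⟨q, O, φ, hN, hp, hO, hφ, h4, hnr, -, hX, hf⟩ := core hV hR hPr hLink1 hComm hθ hd {α}
      lam (44 + d.natAbs) 1 (fun β hβ => ⟨∅, by simp, by rwa [Finset.mem_singleton.1 hβ]⟩)
      ((insert 11 d.natAbs.primeFactors).image fun l : ℕ => ((Real.sqrt l : ℝ) : ℂ))
      (fun x hx => by
        obtain ⟨l, -, rfl⟩ := Finset.mem_image.1 hx
        exact ⟨l, hsq l⟩)
    have hq4 : q % 4 = 3 := by omega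
    have key : ∀ l ∈ insert 11 d.natAbs.primeFactors, l.Prime → l ≠ 2 → l < q → Spl q l :=
      fun l hl h1 h2 h3 => by
        refine spl_of hq4 h1 h2 ?_
        have k1 := hV.2.1.2.2.2.2.2.2.2.2 q O φ _ l hp (by omega) (fun h => by
          have := Nat.le_of_dvd h1.pos (Int.natCast_dvd_natCast.1 h)
          omega) hO hφ (hsq l)
        rw [hX _ (Finset.mem_image_of_mem _ hl), cj_apply, Complex.conj_ofReal] at k1
        have k2 : ((Real.sqrt l : ℝ) : ℂ) ≠ 0 := by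
          have := h1.pos
          exact_mod_cast (Real.sqrt_pos.2 (by positivity)).ne'
        have k3 : ((jacobiSym l q : ℤ) : ℂ) = 1 :=
          mul_right_cancel₀ k2 (by rw [← k1, one_mul])
        exact_mod_cast k3
    refine ⟨q, ⟨hd, ⟨hp, by omega, hq4, key 11 (by simp) (by norm_num) (by norm_num) (by omega)⟩,
      hnd q (by omega), hnr, fun l hl hld => ?_⟩, fun h => ?_⟩
    · have k1 : l ∣ d.natAbs := Int.natCast_dvd.1 hld
      have k2 := Nat.le_of_dvd (Int.natAbs_pos.2 hd0) k1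
      refine key l (Finset.mem_insert_of_mem (Nat.mem_primeFactors.2
        ⟨hl, k1, (Int.natAbs_pos.2 hd0).ne'⟩)) hl ?_ (by omega)
      rintro rfl
      have := hd.m4
      omega
    · rw [hf α (Finset.mem_singleton_self α), hlam h]
  · obtain ⟨p, O, φ, hN, hp, hO, hφ, h4, hnr, hP, hX, hf⟩ := core hV hR hPr hLink1 hComm hθ hd T
      lam (N + 11 + q + d.natAbs) (tt d + 2) hT {2 * om q - 1}
      (fun x hx => ⟨-q, by rw [Finset.mem_singleton.1 hx]; exact om_sqz q⟩)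
    refine ⟨p, by omega, ⟨hp, by omega, by omega, hnd p (by omega), h4, fun h => ?_, hnr,
      O, φ, hO, hφ, hP⟩, hf⟩
    have k1 := (hV.2.1.2.2.2.2.2.2.2.1 q p O φ hq.qf.pr hq.qf.m4 hp (by omega) (by omega) hO hφ).2 h
    rw [om_eq, hX _ (Finset.mem_singleton_self _), ← om_eq] at k1
    have k2 := congrArg Complex.im k1
    have k3 := om_im hq.qf.pr.ne_zero
    rw [cj_apply, Complex.conj_im] at k2
    linarith

end Pool.Agent.Lib.MP_d6ddbd_nt.K11
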