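import Pool.Agent.Lib.MP_d6ddbd_nt.K11.StP

/-!
The coordinate at a prime `l`: a discrete logarithm of `conj π / π` modulo a prime above `l`.
-/

set_option autoImplicit false

open Pointwise
open Pool.Agent.Lib.MP_9177b7_ag.CM (sp mem_sp)

noncomputable section

namespace Pool.Agent.Lib.MP_d6ddbd_nt.K11

namespace CoA

/-- The norm of the generator. -/
abbrev NN (q : ℕ) : ℤ := ((q + 1) / 4 : ℕ)

/-- The maximal order as an abstract ring. -/
abbrev QA (q : ℕ) : Type := QuadraticAlgebra ℤ (-NN q) 1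

variable {q : ℕ}

section

variable {S : Type} [CommRing S] {u : S} (h : u ^ 2 = u - NN q)

/-- Evaluation at a root. -/
def ev : QA q →+* S :=
  (QuadraticAlgebra.lift ⟨u, by
    rw [zsmul_one, one_smul, Int.cast_neg]; linear_combination h⟩).toRingHom

theorem ev_apply (z : QA q) : ev h z = z.re + z.im * u := by
  change z.re • (1 : S) + z.im • u = _
  rw [zsmul_one, zsmul_eq_mul]

theorem ev_star (z : QA q) : ev h (star z) = z.re + z.im * (1 - u) := by
  rw [ev_apply, QuadraticAlgebra.re_star, QuadraticAlgebra.im_star]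
  push_cast
  ring

theorem ev_norm (z : QA q) : ev h z * ev h (star z) = (z.norm : ℤ) := by
  rw [← map_mul, ← QuadraticAlgebra.algebraMap_norm_eq_mul_star, eq_intCast, map_intCast]

end

variable [hq : Fact (q % 4 = 3)]

variable (q) in
/-- The embedding in `ℂ`. -/
def io : QA q →+* ℂ := ev (om_sq hq.out)

theorem io_inj : Function.Injective (io q) := (injective_iff_map_eq_zero _).2 fun z h => by
  rw [io, ev_apply] at h
  have a := congrArg Complex.im h
  have b := (om_im (q := q) (by have := hq.out; omega)).ne'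
  have c : z.im = 0 := by simpa [b] using a
  have d : z.re = 0 := by simpa [c] using h
  exact QuadraticAlgebra.ext d c

theorem mem_OK {π : ℂ} : π ∈ OK q ↔ ∃ z, io q z = π := by
  rw [OK, mem_sp]
  exact ⟨fun ⟨a, b, h⟩ => ⟨⟨a, b⟩, by rw [io, ev_apply, ← h, mul_one]⟩,
    fun ⟨z, h⟩ => ⟨z.re, z.im, by rw [← h, io, ev_apply, mul_one]⟩⟩

theorem io_star (z : QA q) : io q (star z) = starRingEnd ℂ (io q z) := by
  have : starRingEnd ℂ (om q) = 1 - om q := by
    simp only [om, map_div₀, map_add, map_mul, map_one, Complex.conj_I, Complex.conj_ofReal,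
      map_ofNat]
    ring
  rw [io, ev_star, ev_apply, map_add, map_mul, map_intCast, map_intCast, this]

theorem normSq_io (z : QA q) : Complex.normSq (io q z) = (z.norm : ℤ) := by
  have := ev_norm (om_sq hq.out) z
  rw [← io, io_star, Complex.mul_conj] at this
  exact_mod_cast this

theorem cop_iff {l : ℕ} {π : ℂ} : Cop q l π ↔ ∃ z, io q z = π ∧ IsCoprime z.norm (l : ℤ) := by
  refine ⟨fun ⟨a, n, b, c⟩ => ?_, ?_⟩
  · obtain ⟨z, rfl⟩ := mem_OK.1 a
    rw [normSq_io, Int.cast_inj] at b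
    exact ⟨z, rfl, b ▸ c⟩
  · rintro ⟨z, rfl, c⟩
    exact ⟨mem_OK.2 ⟨z, rfl⟩, _, normSq_io z, c⟩

theorem io_mem (O : ValuationSubring ℂ) (z : QA q) : O.valuation (io q z) ≤ 1 := by
  have : om q ∈ O := (O.mem_or_inv_mem _).elim id fun h => by
    have h0 : om q ≠ 0 := fun e => by
      simpa [e] using om_im (q := q) (by have := hq.out; omega)
    rw [show om q = 1 - (NN q : ℂ) * (om q)⁻¹ by
      field_simp
      exact om_sq hq.out]
    exact sub_mem (one_mem _) (mul_mem (intCast_mem _ _) h)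
  rw [O.valuation_le_one_iff, io, ev_apply]
  exact add_mem (intCast_mem _ _) (mul_mem (intCast_mem _ _) this)

theorem io_unit {O : ValuationSubring ℂ} {l : ℕ} (h : Ov O l) {z : QA q}
    (c : IsCoprime z.norm (l : ℤ)) : O.valuation (io q z) = 1 := by
  refine (io_mem O z).eq_of_not_lt fun a => ?_
  obtain ⟨s, t, e⟩ := c
  have b : (1 : ℂ) = io q z * io q (s * star z) + l * io q t := by
    rw [map_mul, map_intCast, map_intCast, mul_left_comm, io, ev_norm]
    exact_mod_cast e.symm.trans (by ring)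
  have d := O.valuation.map_add_lt (g := 1) (x := io q z * io q (s * star z)) (y := l * io q t)
    (by rw [map_mul]; exact mul_lt_one_of_lt_of_le a (io_mem O _))
    (by rw [map_mul]; exact mul_lt_one_of_lt_of_le (O.mem_nonunits_iff.1 h) (io_mem O _))
  rw [← b, map_one] at d
  exact d.false

omit hq in
theorem dvd_iff {j i k m : ℕ} (h : i ≤ k) (hm : 2 ^ k ∣ m) (m0 : m ≠ 0) :
    2 ^ i ∣ (j : ZMod (2 ^ k)).val ↔ m ∣ j * (m / 2 ^ i) := by
  obtain ⟨e, rfl⟩ := (pow_dvd_pow 2 h).trans hm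
  rw [ZMod.val_natCast, Nat.dvd_mod_iff (pow_dvd_pow 2 h), Nat.mul_div_cancel_left _ (by positivity),
    Nat.mul_dvd_mul_iff_right (Nat.pos_of_ne_zero (right_ne_zero_of_mul m0))]

section

variable {l : ℕ} [hl : Fact l.Prime] {F : Type} [Field F] [CharP F l]

omit hq in
theorem cast_ne {n : ℤ} : (n : F) ≠ 0 ↔ IsCoprime n (l : ℤ) := by
  rw [Ne, CharP.intCast_eq_zero_iff F l, isCoprime_comm,
    (Nat.prime_iff_prime_int.1 hl.out).irreducible.coprime_iff_not_dvd]

omit hq in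
theorem ex_int {x : F} (h : x ^ l = x) : ∃ n : ℤ, (n : F) = x :=
  (mem_bot_iff_intCast l F).1 ((Subfield.mem_bot_iff_pow_eq_self F l).2 h)

omit hq in
theorem euler (h2 : (2 : F) ≠ 0) {n : ℤ} (h : (n : F) ≠ 0) :
    (n : F) ^ (l / 2) = 1 ↔ jacobiSym n l = 1 := by
  have a := congrArg (ZMod.castHom dvd_rfl F) (legendreSym.eq_pow l n)
  rw [map_intCast, map_pow, map_intCast] at a
  rw [← a, ← jacobiSym.legendreSym.to_jacobiSym]
  rcases legendreSym.eq_one_or_neg_one l (cast_ne.2 ((cast_ne (F := F)).1 h)) with b | b <;> rw [b]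
  · simp
  · refine iff_of_false (fun e => h2 ?_) (by decide)
    push_cast at e
    linear_combination -e

variable {ρ : F} (h : ρ ^ 2 = ρ - NN q)

omit hq in
theorem ev_pow (z : QA q) : ev h z ^ l = z.re + z.im * ρ ^ l := by
  rw [ev_apply, ← frobenius_def, map_add, map_mul, map_intCast, map_intCast, frobenius_def]

omit hq in
theorem ne_iff {z : QA q} : IsCoprime z.norm (l : ℤ) ↔ ev h z ≠ 0 ∧ ev h (star z) ≠ 0 := by
  rw [← cast_ne (F := F), ← ev_norm h, mul_ne_zero_iff]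

omit hq in
theorem ex_z (hd : ρ - (1 - ρ) ≠ 0) {s t : F} (e : (ρ ^ l = ρ ∧ s ^ l = s ∧ t ^ l = t) ∨
    (ρ ^ l = 1 - ρ ∧ s ^ l = t ∧ t ^ l = s)) : ∃ z : QA q, ev h z = s ∧ ev h (star z) = t := by
  have hd' : 1 - ρ - ρ ≠ 0 := fun e => hd (by linear_combination -e)
  obtain ⟨b, hb⟩ : ∃ n : ℤ, (n : F) = (s - t) / (ρ - (1 - ρ)) := ex_int (by
    rw [div_pow, sub_pow_char, sub_pow_char, sub_pow_char, one_pow]
    rcases e with ⟨a, b, c⟩ | ⟨a, b, c⟩ <;> rw [a, b, c]
    rw [sub_sub_cancel, div_eq_div_iff hd' hd]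
    ring)
  rw [eq_div_iff hd] at hb
  obtain ⟨a, ha⟩ : ∃ n : ℤ, (n : F) = s - b * ρ := ex_int (by
    rw [sub_pow_char, mul_pow, ← frobenius_def l (b : F), map_intCast]
    rcases e with ⟨a, b, c⟩ | ⟨a, b, c⟩ <;> rw [a, b]
    linear_combination hb)
  exact ⟨⟨a, b⟩, by rw [ev_apply]; linear_combination ha,
    by rw [ev_star]; linear_combination ha - hb⟩

/-- The quotient of the two reductions. -/
def uu (z : QA q) : F := ev h (star z) / ev h z

omit hq hl [CharP F l] in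
theorem uu_mul (z w : QA q) : uu h (z * w) = uu h z * uu h w := by
  rw [uu, uu, uu, star_mul', map_mul, map_mul, mul_div_mul_comm]

end

theorem main {l k : ℕ} (hq' : q.Prime) (hl : l.Prime) (h2 : l ≠ 2) (hlq : l ≠ q) (hk : k ≠ 0)
    (h3 : Spl q l → 2 ^ k ∣ l - 1) (h4 : ¬ Spl q l → 2 ^ k ∣ l + 1) :
    ∃ dz : QA q → ZMod (2 ^ k), (∀ z w : QA q, IsCoprime z.norm (l : ℤ) → IsCoprime w.norm (l : ℤ) →
        dz (z * w) = dz z + dz w) ∧
      (∀ (z w : QA q) (n : ℤ), IsCoprime z.norm (l : ℤ) → z - n = l * w → dz z = 0) ∧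
      (∃ z : QA q, IsCoprime z.norm (l : ℤ) ∧ dz z = 1) ∧
      (∀ z : QA q, IsCoprime z.norm (l : ℤ) → (Even (dz z).val ↔ jacobiSym z.norm l = 1)) ∧
      ∀ (z : QA q) (i : ℕ), ¬ Spl q l → IsCoprime z.norm (l : ℤ) → i ≤ k → ∀ e, e = (l + 1) / 2 ^ i →
        (2 ^ i ∣ (dz z).val → ∃ w, star z ^ e - z ^ e = l * w) ∧
          (¬ 2 ^ i ∣ (dz z).val → IsCoprime (star z ^ e - z ^ e).norm (l : ℤ)) := by
  have := Fact.mk hl
  let F := AlgebraicClosure (ZMod l)
  have l3 : 2 < l := hl.two_le.lt_of_ne' h2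
  obtain ⟨o, ho⟩ := hl.odd_of_ne_two h2
  have t : (2 : F) ≠ 0 := fun e => h2 ((Nat.prime_dvd_prime_iff_eq hl Nat.prime_two).1
    ((CharP.cast_eq_zero_iff F l 2).1 e))
  have pw : ∀ x : F, x ^ l = x ^ (2 * o) * x := fun x => by rw [← pow_succ, ← ho]
  obtain ⟨δ, hδ⟩ := IsAlgClosed.exists_pow_nat_eq (-q : F) two_pos
  have nq : 4 * (NN q : F) = q + 1 := by
    have : 4 * ((q + 1) / 4) = q + 1 := by have := hq.out; omega
    rw [NN, Int.cast_natCast, ← Nat.cast_succ, Nat.succ_eq_add_one, ← Nat.cast_ofNat, ← Nat.cast_mul,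
      this]
  obtain ⟨ρ, hρ⟩ : ∃ ρ : F, 2 * ρ = 1 + δ := ⟨(1 + δ) / 2, mul_div_cancel₀ _ t⟩
  have h : ρ ^ 2 = ρ - NN q := mul_left_cancel₀ (pow_ne_zero 2 t) (by
    linear_combination (2 * ρ + δ - 1) * hρ + hδ + nq)
  have hd : ρ - (1 - ρ) ≠ 0 := fun e => hlq ((Nat.prime_dvd_prime_iff_eq hl hq').1
    ((CharP.cast_eq_zero_iff F l q).1 (by linear_combination hδ + δ * hρ - δ * e)))
  have fr : 2 * ρ ^ l = 1 + δ ^ l := by
    simpa only [map_mul, map_add, map_one, map_ofNat, frobenius_def] using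
      congrArg (frobenius F l) hρ
  have sp : Spl q l ↔ δ ^ l = δ := by
    refine ⟨fun ⟨s, e⟩ => ?_, fun e => ?_⟩
    · have a : δ ^ 2 = algebraMap _ F s ^ 2 := by rw [hδ, ← map_pow, sq, ← e, map_neg, map_natCast]
      have b : algebraMap _ F s ^ l = algebraMap _ F s := by rw [← map_pow, ZMod.pow_card]
      rcases sq_eq_sq_iff_eq_or_eq_neg.1 a with rfl | rfl
      exacts [b, by rw [(hl.odd_of_ne_two h2).neg_pow, b]]
    · obtain ⟨n, rfl⟩ := ex_int e
      exact ⟨n, (algebraMap _ F).injective (by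
        rw [map_neg, map_natCast, map_mul, map_intCast, ← hδ, sq])⟩
  have s1 : Spl q l → ∀ z, ev h z ^ l = ev h z := fun a z => by
    rw [ev_pow, ev_apply, mul_left_cancel₀ t (fr.trans (by rw [sp.1 a, hρ]))]
  have r2 : ¬ Spl q l → ρ ^ l = 1 - ρ := fun a => by
    have b : (δ ^ l) ^ 2 = δ ^ 2 := by
      rw [← pow_mul, mul_comm, pow_mul, hδ, ← frobenius_def, map_neg, map_natCast]
    have c := (sq_eq_sq_iff_eq_or_eq_neg.1 b).resolve_left (mt sp.2 a)
    exact mul_left_cancel₀ t (by linear_combination fr + hρ + c)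
  have s2 : ¬ Spl q l → ∀ z, ev h z ^ l = ev h (star z) := fun a z => by rw [ev_pow, ev_star, r2 a]
  obtain ⟨m, hm, m1, m2⟩ : ∃ m, 2 ^ k ∣ m ∧ (Spl q l → m = 2 * o) ∧ (¬ Spl q l → m = 2 * (o + 1)) := by
    by_cases a : Spl q l
    · exact ⟨l - 1, h3 a, fun _ => by omega, fun b => absurd a b⟩
    · exact ⟨l + 1, h4 a, fun b => absurd b a, fun _ => by omega⟩
  have mm : m + 1 = l ∨ m = l + 1 := (em (Spl q l)).imp (fun a => by have := m1 a; omega)
    fun a => by have := m2 a; omega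
  have m0 : m ≠ 0 := by omega
  have : NeZero (m : ZMod l) := ⟨by
    rcases mm with e | e
    · have : (m : ZMod l) + 1 = 0 := by rw [← Nat.cast_succ, Nat.succ_eq_add_one, e, ZMod.natCast_self]
      exact fun z => by simp [z] at this
    · simp [e]⟩
  have := NeZero.mk m0
  obtain ⟨ζ, hζ⟩ := HasEnoughRootsOfUnity.exists_primitiveRoot F m
  have key : ∀ z : QA q, IsCoprime z.norm (l : ℤ) → uu h z ^ (m / 2) = (z.norm : ℤ) ^ o := fun z c => by
    obtain ⟨a, b⟩ := (ne_iff h).1 c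
    rw [uu, ← ev_norm h, div_pow, div_eq_iff (pow_ne_zero _ a)]
    by_cases s : Spl q l
    · have := s1 s z
      rw [pw, mul_eq_right₀ a] at this
      rw [m1 s, Nat.mul_div_cancel_left _ two_pos]
      linear_combination -ev h (star z) ^ o * this
    · rw [m2 s, Nat.mul_div_cancel_left _ two_pos, mul_pow, pow_succ, ← s2 s z, pw]
      ring
  have lo : l / 2 = o := by omega
  have um : ∀ z : QA q, IsCoprime z.norm (l : ℤ) → ∃ j, ζ ^ j = uu h z := fun z c => by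
    refine (hζ.eq_pow_of_pow_eq_one ?_).imp fun j e => e.2
    have a : ((z.norm : ℤ) : F) ^ l = (z.norm : ℤ) := map_intCast (frobenius F l) _
    rw [pw, mul_eq_right₀ (cast_ne.2 c)] at a
    rw [← Nat.div_mul_cancel ((dvd_pow_self 2 hk).trans hm), pow_mul, key z c, ← pow_mul, mul_comm, a]
  choose! j hj using um
  have eq : ∀ z : QA q, IsCoprime z.norm (l : ℤ) → ∀ n : ℕ, ζ ^ n = uu h z →
      (j z : ZMod (2 ^ k)) = n :=
    fun z c n e => (ZMod.natCast_eq_natCast_iff _ _ _).2 (Nat.ModEq.of_dvd hm (hζ.eq_orderOf ▸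
      (hζ.isOfFinOrder m0).pow_eq_pow_iff_modEq.1 ((hj z c).trans e.symm)))
  have dv : ∀ z : QA q, IsCoprime z.norm (l : ℤ) → ∀ i ≤ k,
      (2 ^ i ∣ (j z : ZMod (2 ^ k)).val ↔ uu h z ^ (m / 2 ^ i) = 1) := fun z c i e => by
    rw [dvd_iff e hm m0, ← hj z c, ← pow_mul, hζ.pow_eq_one_iff_dvd]
  refine ⟨fun z => j z, fun z w a b => ?_, fun z w n a b => ?_, ?_, fun z a => ?_,
    fun z i s a b e he => ?_⟩
  · rw [← Nat.cast_add]
    exact eq _ (by rw [map_mul]; exact a.mul_left b) _ (by rw [pow_add, hj z a, hj w b, uu_mul])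
  · refine (eq z a 0 ?_).trans Nat.cast_zero
    obtain rfl := sub_eq_iff_eq_add.1 b
    have := ((ne_iff h).1 a).1
    rw [pow_zero, uu, eq_div_iff this]
    simp
  · have z0 := hζ.ne_zero m0
    suffices ∃ z : QA q, ev h z ≠ 0 ∧ ev h (star z) = ζ * ev h z by
      obtain ⟨z, a, b⟩ := this
      have c := (ne_iff h).2 ⟨a, b ▸ mul_ne_zero z0 a⟩
      exact ⟨z, c, (eq z c 1 (by rw [pow_one, uu, b, mul_div_cancel_right₀ _ a])).trans Nat.cast_one⟩
    by_cases s : Spl q l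
    · obtain ⟨z, a, b⟩ := ex_z h hd (s := 1) (t := ζ) (Or.inl ⟨mul_left_cancel₀ t
        (fr.trans (by rw [sp.1 s, hρ])), one_pow _, by
          rw [pw, ← m1 s, hζ.pow_eq_one, one_mul]⟩)
      exact ⟨z, a ▸ one_ne_zero, by rw [a, b, mul_one]⟩
    · have c : ζ ^ l = ζ⁻¹ := eq_inv_of_mul_eq_one_left (by
        rw [pw, ← pow_succ, ← pow_succ, ← hζ.pow_eq_one, m2 s]; rfl)
      obtain ⟨z, a, b⟩ := ex_z h hd (s := 1 + ζ⁻¹) (t := 1 + ζ) (Or.inr ⟨r2 s,
        by rw [add_pow_char, one_pow, inv_pow, c, inv_inv], by rw [add_pow_char, one_pow, c]⟩)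
      have d : 1 + ζ = ζ * (1 + ζ⁻¹) := by rw [mul_add, mul_one, mul_inv_cancel₀ z0, add_comm]
      refine ⟨z, fun e => ?_, by rw [a, b, d]⟩
      rw [← a, e, mul_zero] at d
      have := Nat.le_of_dvd two_pos (hζ.dvd_of_pow_eq_one 2 (by linear_combination (ζ - 1) * d))
      have := m2 s
      omega
  · rw [even_iff_two_dvd, ← euler t (cast_ne.2 a), lo, ← key z a]
    simpa using dv z a 1 (Nat.pos_of_ne_zero hk)
  · have c := dv z a i b
    rw [m2 s, show 2 * (o + 1) = l + 1 by omega, ← he, uu, div_pow,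
      div_eq_one_iff_eq (pow_ne_zero _ ((ne_iff h).1 a).1), ← sub_eq_zero, ← map_pow, ← map_pow,
      ← map_sub] at c
    generalize star z ^ e - z ^ e = x at c ⊢
    refine ⟨fun d => ?_, fun d => (ne_iff h).2 ⟨mt c.2 d, s2 s x ▸ pow_ne_zero _ (mt c.2 d)⟩⟩
    have f := c.1 d
    have g := s2 s x
    rw [f, zero_pow hl.ne_zero, ev_star] at g
    rw [ev_apply] at f
    have u : (x.im : F) = 0 := (mul_eq_zero.1 (by linear_combination f + g)).resolve_right hd
    obtain ⟨y, hy⟩ := (CharP.intCast_eq_zero_iff F l _).1 u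
    obtain ⟨y', hy'⟩ := (CharP.intCast_eq_zero_iff F l x.re).1 (by linear_combination f - ρ * u)
    exact ⟨⟨y', y⟩, QuadraticAlgebra.ext (by simp [hy']) (by simp [hy])⟩

end CoA

open CoA in
theorem co_thm (hKer : KerStmt) : CoStmt := by
  intro q _ hq hb l k hl h2 hlq hk h3 h4
  obtain ⟨dz, d1, d2, ⟨z₀, c₀, d3⟩, d4, d5⟩ := main hq hl h2 hlq hk h3 h4
  obtain ⟨k1, k2, k3, -⟩ := hKer q hq hb l hl.ne_zero
  obtain ⟨dl, hd⟩ : ∃ dl : ℂ → ZMod (2 ^ k), ∀ z, dl (io q z) = dz z :=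
    ⟨fun π => dz (Function.invFun (io q) π), fun z => congrArg dz (Function.leftInverse_invFun io_inj z)⟩
  have mul : ∀ π π', Cop q l π → Cop q l π' → dl (π * π') = dl π + dl π' := fun π π' a b => by
    obtain ⟨z, rfl, a'⟩ := cop_iff.1 a
    obtain ⟨w, rfl, b'⟩ := cop_iff.1 b
    rw [← map_mul, hd, hd, hd, d1 z w a' b']
  have int : ∀ π (n : ℤ), Cop q l π → π - n ∈ (l : ℂ) • OK q → dl π = 0 := fun π n a b => by
    obtain ⟨z, rfl, a'⟩ := cop_iff.1 a
    obtain ⟨y, c, e⟩ := (Submodule.mem_smul_pointwise_iff_exists _ _ _).1 b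
    obtain ⟨w, rfl⟩ := mem_OK.1 c
    rw [hd]
    exact d2 z w n a' (io_inj (by rw [map_sub, map_mul, map_intCast, map_natCast, ← e, smul_eq_mul]))
  have wd : ∀ π π', Cop q l π → Cop q l π' → kp q l π = kp q l π' → dl π = dl π' :=
    fun π π' a b e => by
      have c := (k2 π' b).1
      have f : ∃ n : ℤ, π' * starRingEnd ℂ π' - n ∈ (l : ℂ) • OK q := by
        obtain ⟨-, n, f, -⟩ := b
        exact ⟨n, by rw [Complex.mul_conj, f]; simp⟩
      have g := ((k2 _ (k1 _ _ b c)).2.2.2.2.1).2 f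
      rw [(k2 π' b).2.2.2.1 _ c, ← e, ← (k2 π a).2.2.2.1 _ c] at g
      obtain ⟨n, f⟩ := f
      obtain ⟨n', g⟩ := ((k2 _ (k1 _ _ a c)).2.2.2.2.1).1 g
      have := (int _ n' (k1 _ _ a c) g).trans (int _ n (k1 _ _ b c) f).symm
      rw [mul _ _ a c, mul _ _ b c] at this
      exact add_right_cancel this
  choose P p1 p2 using fun x : Pic q l => (k3 (x ^ hh q)).1 (by rw [map_pow, hh, pow_card_eq_one'])
  refine ⟨fun x => dl (P x), dl, fun x y => ?_, fun x π a b => wd _ _ (p1 x) a ((p2 x).symm.trans b),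
    mul, int, fun a => ?_, fun π n a b => ?_, fun π i O s a b c => ?_⟩
  · rw [← mul _ _ (p1 x) (p1 y)]
    exact wd _ _ (p1 _) (k1 _ _ (p1 x) (p1 y))
      (by rw [← p2, (k2 _ (p1 x)).2.2.2.1 _ (p1 y), ← p2, ← p2, mul_pow])
  · have o : Cop q l 1 := cop_iff.2 ⟨1, map_one _, by rw [map_one]; exact isCoprime_one_left⟩
    have c : Cop q l (io q z₀) := cop_iff.2 ⟨z₀, rfl, c₀⟩
    rw [← ZMod.natCast_zmod_val a]
    induction a.val with
    | zero => exact ⟨1, o, (int 1 1 o (by simp)).trans Nat.cast_zero.symm⟩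
    | succ n ih =>
      obtain ⟨π, e, f⟩ := ih
      exact ⟨_, k1 _ _ e c, by rw [mul _ _ e c, f, hd, d3, Nat.cast_succ]⟩
  · obtain ⟨z, rfl, a'⟩ := cop_iff.1 a
    rw [normSq_io, Int.cast_inj] at b
    rw [hd, ← b]
    exact d4 z a'
  · obtain ⟨z, rfl, a'⟩ := cop_iff.1 a
    obtain ⟨e1, e2⟩ := d5 z i s a' b _ rfl
    have u := io_unit c a'
    have z0 : io q z ≠ 0 := fun e => by simp [e] at u
    rw [hd, div_pow, div_sub_one (pow_ne_zero _ z0), O.mem_nonunits_iff, map_div₀, map_pow, u,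
      one_pow, div_one, ← io_star, ← map_pow, ← map_pow, ← map_sub]
    refine ⟨fun f => ?_, fun f => by_contra fun g => f.ne (io_unit c (e2 g))⟩
    obtain ⟨w, f⟩ := e1 f
    rw [f, map_mul, map_mul, map_natCast]
    exact mul_lt_one_of_lt_of_le (O.mem_nonunits_iff.1 c) (io_mem O _)

end Pool.Agent.Lib.MP_d6ddbd_nt.K11
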