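import Pool.Agent.Lib.MP_d6ddbd_nt.K11.Stmt

/-!
Commutators that fix the points of order a power of two and move a given square root.
-/

set_option autoImplicit false

open NumberField IsDedekindDomain
open Pool.Agent.Lib.MP_02f36d_nt (xc yc)
open Pool.Agent.Stark (Pr og ord ord_mul ord_pow val_eq_exp)

noncomputable section

namespace Pool.Agent.Lib.MP_d6ddbd_nt.K11

namespace Comm

/-! Signs -/

open Classical in
/-- The sign by which `g` acts on `x`. -/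
def sg (g : G) (x : ℂ) : ZMod 2 := if g x = x then 0 else 1

section

variable {g h : G} {x y : ℂ}

theorem sg_eq : sg g x = 0 ↔ g x = x := by
  unfold sg
  split_ifs with e <;> simp [e]

theorem sg_neg (hx : x ≠ 0) (e : g x = -x) : sg g x = 1 :=
  if_neg fun e' => hx (by linear_combination (e - e') / 2)

theorem sg_mul (hx : x ≠ 0) (a : g x ^ 2 = x ^ 2) (b : h x ^ 2 = x ^ 2) :
    sg (g * h) x = sg g x + sg h x := by
  have m : (g * h) x = g (h x) := rfl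
  rcases sq_eq_sq_iff_eq_or_eq_neg.1 a with a | a <;> rcases sq_eq_sq_iff_eq_or_eq_neg.1 b with b | b
  · rw [sg_eq.2 a, sg_eq.2 b, sg_eq.2 (by rw [m, b, a]), add_zero]
  · rw [sg_eq.2 a, sg_neg hx b, sg_neg hx (by rw [m, b, map_neg, a]), zero_add]
  · rw [sg_neg hx a, sg_eq.2 b, sg_neg hx (by rw [m, b, a]), add_zero]
  · rw [sg_neg hx a, sg_neg hx b, sg_eq.2 (by rw [m, b, map_neg, a, neg_neg])]
    rfl

theorem sg_prod (hx : x ≠ 0) (hy : y ≠ 0) (a : g x ^ 2 = x ^ 2) (b : g y ^ 2 = y ^ 2) :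
    sg g (x * y) = sg g x + sg g y := by
  have m := mul_ne_zero hx hy
  rcases sq_eq_sq_iff_eq_or_eq_neg.1 a with a | a <;> rcases sq_eq_sq_iff_eq_or_eq_neg.1 b with b | b
  · rw [sg_eq.2 a, sg_eq.2 b, sg_eq.2 (by rw [map_mul, b, a]), add_zero]
  · rw [sg_eq.2 a, sg_neg hy b, sg_neg m (by rw [map_mul, b, a, mul_neg]), zero_add]
  · rw [sg_neg hx a, sg_eq.2 b, sg_neg m (by rw [map_mul, b, a, neg_mul]), add_zero]
  · rw [sg_neg hx a, sg_neg hy b, sg_eq.2 (by rw [map_mul, b, a, neg_mul_neg])]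
    rfl

theorem sg_conj (a : h x ^ 2 = y ^ 2) : sg (h * g * h⁻¹) y = sg g x := by
  have m : (h * g * h⁻¹) (h x) = h (g x) := by
    rw [← RingAut.mul_apply, inv_mul_cancel_right]
    rfl
  have : (h * g * h⁻¹) y = y ↔ g x = x := by
    rw [← h.injective.eq_iff (a := g x), ← m]
    rcases sq_eq_sq_iff_eq_or_eq_neg.1 a with a | a <;> simp [a]
  simp only [sg, this]

theorem cj_prod (a : cj x ^ 2 = y ^ 2) : cj (x * y) = x * y := by
  have m : cj (cj x) = x := Complex.conj_conj x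
  rcases sq_eq_sq_iff_eq_or_eq_neg.1 a with a | a
  · rw [map_mul, ← a, m, mul_comm]
  · rw [map_mul, ← neg_eq_iff_eq_neg.2 a, map_neg, m]
    ring

end

/-! The filtration -/

section

variable (A : Type) [AddCommGroup A] [DistribMulAction G A]

/-- The automorphisms that fix the points of order `2 ^ i`. -/
def N (i : ℕ) : Subgroup G where
  carrier := {g | ∀ T : A, 2 ^ i • T = 0 → g • T = T}
  one_mem' T _ := one_smul _ T
  mul_mem' a b T h := by rw [mul_smul, b T h, a T h]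
  inv_mem' a T h := inv_smul_eq_iff.2 (a T h).symm

/-- The roots and the points of order two. -/
structure Dt where
  e : Fin 3 → ℂ
  T : Fin 3 → A
  h : Fin 3 → ℂ
  w : G
  hf : A → A
  wl : ℂ → A → ZMod 2
  hf2 : ∀ P, 2 • hf P = P
  root : ∀ x, fc x = 0 ↔ ∃ j, x = e j
  inj : Function.Injective e
  disc : fd (e 0) * fd (e 1) * fd (e 2) = 2 ^ 8 * 11 ^ 5
  two : ∀ U, 2 • U = 0 ↔ U = 0 ∨ ∃ j, U = T j
  add : T 0 + T 1 = T 2
  we : ∀ j, w (e j) = e (j + 1)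
  ce : ∀ j, cj (e j) = e (-j)
  sm : ∀ (σ : G) j k, σ (e j) = e k ↔ σ • T j = T k
  w0 : ∀ x, wl x 0 = 0
  wT : ∀ j k, wl (e j) (T k) = if j = k then 0 else 1
  wadd : ∀ j U U', 2 • U = 0 → 2 • U' = 0 → wl (e j) (U + U') = wl (e j) U + wl (e j) U'
  wsm : ∀ (x : ℂ) (σ : G) U, wl (σ x) (σ • U) = wl x U
  h2 : ∀ j, h j ^ 2 = fd (e j)
  hs : ∀ j (σ : G), σ • T j = T j → wl (e j) (σ • hf (T j) - hf (T j)) = sg σ (h j)

variable {A}

theorem N_conj {i : ℕ} {g : G} (h : g ∈ N A i) (σ : G) : σ * g * σ⁻¹ ∈ N A i := fun T e => by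
  rw [mul_smul, mul_smul, h (σ⁻¹ • T) (by rw [smul_comm, e, smul_zero]), smul_inv_smul]

theorem N_succ {i : ℕ} {g : G} (h : g ∈ N A (i + 1)) : g ∈ N A i := fun T e =>
  h T (by rw [pow_succ', mul_smul, e, smul_zero])

theorem N_one {i : ℕ} {g : G} (h : g ∈ N A (i + 1)) : g ∈ N A (0 + 1) := by
  induction i with
  | zero => exact h
  | succ i ih => exact ih (N_succ h)

theorem N_two {i : ℕ} {g : G} (h : g ∈ N A (i + 1)) {T : A} (e : 2 • T = 0) : g • T = T :=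
  N_one h T (by rwa [zero_add, pow_one])

namespace Dt

variable (D : Dt A) {i : ℕ} {g g' : G} {P U U' : A}

theorem T2 (j : Fin 3) : 2 • D.T j = 0 := (D.two _).2 (Or.inr ⟨j, rfl⟩)

theorem fix (hg : g ∈ N A (i + 1)) (j : Fin 3) : g (D.e j) = D.e j :=
  (D.sm g j j).2 (N_two hg (D.T2 j))

theorem mem_one (h : ∀ j, g (D.e j) = D.e j) : g ∈ N A (0 + 1) := fun U a => by
  rcases (D.two U).1 (by rwa [zero_add, pow_one] at a) with rfl | ⟨j, rfl⟩
  exacts [smul_zero g, (D.sm g j j).1 (h j)]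

theorem wsum (h : 2 • U = 0) : D.wl (D.e 0) U + D.wl (D.e 1) U + D.wl (D.e 2) U = 0 := by
  rcases (D.two U).1 h with rfl | ⟨j, rfl⟩
  · simp [D.w0]
  · simp only [D.wT]
    clear h
    revert j
    decide

theorem eq_zero (h : 2 • U = 0) (h' : ∀ j, D.wl (D.e j) U = 0) : U = 0 := by
  rcases (D.two U).1 h with rfl | ⟨j, rfl⟩
  · rfl
  · have := h' (j + 1)
    rw [D.wT] at this
    exact absurd this (by clear this h h'; revert j; decide)

theorem pow_hf (i : ℕ) (U : A) : 2 ^ i • D.hf^[i] U = U := by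
  induction i with
  | zero => simp
  | succ i ih => rw [pow_succ, mul_smul, Function.iterate_succ_apply', D.hf2, ih]

/-- The leading term of the action of `g`. -/
def ld (i : ℕ) (g : G) (U : A) : A := g • D.hf^[i] U - D.hf^[i] U

theorem ld_eq (hg : g ∈ N A i) (h : 2 ^ i • P = U) : g • P - P = D.ld i g U := by
  have := hg (P - D.hf^[i] U) (by rw [smul_sub, h, D.pow_hf, sub_self])
  rw [smul_sub] at this
  exact sub_eq_sub_iff_sub_eq_sub.1 this

theorem ld_zero (hg : g ∈ N A i) : D.ld i g 0 = 0 := by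
  rw [← D.ld_eq hg (smul_zero _), smul_zero, sub_zero]

theorem ld_two (hg : g ∈ N A i) (h : 2 • U = 0) : 2 • D.ld i g U = 0 := by
  rw [ld, smul_sub, smul_comm, hg _ (by rw [smul_comm, D.pow_hf, h]), sub_self]

theorem ld_add (hg : g ∈ N A i) : D.ld i g (U + U') = D.ld i g U + D.ld i g U' := by
  rw [← D.ld_eq hg (P := D.hf^[i] U + D.hf^[i] U') (by rw [smul_add, D.pow_hf, D.pow_hf]), smul_add,
    ld, ld]
  abel

theorem ld_mul (hg : g ∈ N A (i + 1)) (hg' : g' ∈ N A (i + 1)) (h : 2 • U = 0) :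
    D.ld (i + 1) (g * g') U = D.ld (i + 1) g U + D.ld (i + 1) g' U := by
  rw [← N_two hg (D.ld_two hg' h), ld, ld, ld, mul_smul, smul_sub]
  abel

theorem ld_conj (hg : g ∈ N A i) (σ : G) : D.ld i (σ * g * σ⁻¹) (σ • U) = σ • D.ld i g U := by
  rw [← D.ld_eq (N_conj hg σ) (P := σ • D.hf^[i] U) (by rw [smul_comm, D.pow_hf]), ld, smul_sub,
    mul_smul, mul_smul, inv_smul_smul]

theorem mem_succ (hg : g ∈ N A i) (h : ∀ j, D.ld i g (D.T j) = 0) : g ∈ N A (i + 1) := fun P a => by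
  rw [← sub_eq_zero, D.ld_eq hg rfl]
  rcases (D.two (2 ^ i • P)).1 (by rwa [← mul_smul, ← pow_succ']) with b | ⟨j, b⟩
  · rw [b, D.ld_zero hg]
  · rw [b, h]

include D in
theorem sq_mem (hg : g ∈ N A (i + 1)) : g * g ∈ N A (i + 1 + 1) :=
  D.mem_succ (mul_mem hg hg) fun j => by
    rw [D.ld_mul hg hg (D.T2 j), ← two_nsmul, D.ld_two hg (D.T2 j)]

theorem ld_sq (hg : g ∈ N A (i + 1)) : D.ld (i + 1 + 1) (g * g) U =
    D.ld (i + 1) g U + D.ld (i + 1) g (2 ^ i • D.ld (i + 1) g U) := by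
  have a : g • (2 • D.hf^[i + 1 + 1] U) - 2 • D.hf^[i + 1 + 1] U = D.ld (i + 1) g U :=
    D.ld_eq hg (by rw [← mul_smul, ← pow_succ, D.pow_hf])
  have b := D.ld_eq hg (P := D.ld (i + 1 + 1) g U) (U := 2 ^ i • D.ld (i + 1) g U)
    (by rw [pow_succ, mul_smul, ← a, ld, smul_sub 2, smul_comm g])
  rw [← b, ← a, ld, ld, mul_smul, smul_sub, two_nsmul, smul_add]
  abel

/-- The matrix of the leading term. -/
def m (i : ℕ) (g : G) (j k : Fin 3) : ZMod 2 := D.wl (D.e j) (D.ld i g (D.T k))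

/-- The diagonal. -/
def a (i : ℕ) (g : G) (j : Fin 3) : ZMod 2 := D.m i g j j

theorem m_row (hg : g ∈ N A i) (k : Fin 3) : D.m i g 0 k + D.m i g 1 k + D.m i g 2 k = 0 :=
  D.wsum (D.ld_two hg (D.T2 k))

theorem m_col (hg : g ∈ N A i) (j : Fin 3) : D.m i g j 2 = D.m i g j 0 + D.m i g j 1 := by
  rw [m, ← D.add, D.ld_add hg, D.wadd _ _ _ (D.ld_two hg (D.T2 0)) (D.ld_two hg (D.T2 1))]
  rfl

theorem m_mul (hg : g ∈ N A (i + 1)) (hg' : g' ∈ N A (i + 1)) (j k : Fin 3) :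
    D.m (i + 1) (g * g') j k = D.m (i + 1) g j k + D.m (i + 1) g' j k := by
  rw [m, D.ld_mul hg hg' (D.T2 k), D.wadd _ _ _ (D.ld_two hg (D.T2 k)) (D.ld_two hg' (D.T2 k))]
  rfl

theorem m_conj (hg : g ∈ N A i) {σ : G} {j k j' k' : Fin 3} (hj : σ (D.e j) = D.e j')
    (hk : σ (D.e k) = D.e k') : D.m i (σ * g * σ⁻¹) j' k' = D.m i g j k := by
  rw [m, ← hj, ← (D.sm σ _ _).1 hk, D.ld_conj hg, D.wsm]
  rfl

theorem a_mul (hg : g ∈ N A (i + 1)) (hg' : g' ∈ N A (i + 1)) (j : Fin 3) :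
    D.a (i + 1) (g * g') j = D.a (i + 1) g j + D.a (i + 1) g' j := D.m_mul hg hg' j j

theorem a_conj (hg : g ∈ N A i) {σ : G} {j j' : Fin 3} (hj : σ (D.e j) = D.e j') :
    D.a i (σ * g * σ⁻¹) j' = D.a i g j := D.m_conj hg hj hj

theorem a_one (i : ℕ) (j : Fin 3) : D.a i 1 j = 0 := by
  rw [a, m, ld, one_smul, sub_self, D.w0]

theorem a_h (hg : g ∈ N A (0 + 1)) (j : Fin 3) : D.a (0 + 1) g j = sg g (D.h j) :=
  D.hs j g (N_two hg (D.T2 j))

theorem mat : ∀ m : Fin 3 → Fin 3 → ZMod 2, (∀ k, m 0 k + m 1 k + m 2 k = 0) →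
    (∀ j, m j 2 = m j 0 + m j 1) →
    ((∀ j, m j j = m 0 0) → ∀ j k, m j k + m (j + 1) (k + 1) = 0) ∧
      (m 0 0 + m 1 1 + m 2 2 = 0 → ∀ j k, m j k = m k j) := by
  decide +kernel

theorem comm_mem (hg : g ∈ N A (i + 1)) (h : ∀ j, D.a (i + 1) g j = D.a (i + 1) g 0) :
    D.w * g * D.w⁻¹ * g ∈ N A (i + 1 + 1) := by
  have c := N_conj hg D.w
  refine D.mem_succ (mul_mem c hg) fun k => D.eq_zero (D.ld_two (mul_mem c hg) (D.T2 k)) fun j => ?_
  obtain ⟨j, rfl⟩ := (Equiv.addRight 1).surjective j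
  obtain ⟨k, rfl⟩ := (Equiv.addRight 1).surjective k
  refine (D.m_mul c hg (j + 1) (k + 1)).trans ?_
  rw [D.m_conj hg (D.we j) (D.we k)]
  exact (mat _ (D.m_row hg) (D.m_col hg)).1 h j k

theorem a_sq (hg : g ∈ N A (i + 1))
    (h : D.a (i + 1) g 0 + D.a (i + 1) g 1 + D.a (i + 1) g 2 = 0) (j : Fin 3) :
    D.a (i + 1 + 1) (g * g) j = D.a (i + 1) g j := by
  have t := D.ld_two hg (D.T2 j)
  have t' : 2 • 2 ^ i • D.ld (i + 1) g (D.T j) = 0 := by rw [smul_comm, t, smul_zero]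
  rw [a, m, D.ld_sq hg, D.wadd _ _ _ t (D.ld_two hg t')]
  refine add_eq_left.2 ?_
  rcases (D.two _).1 t' with b | ⟨k, b⟩
  · rw [b, D.ld_zero hg, D.w0]
  · have : D.ld (i + 1) g (D.T j) = D.T k := by
      cases i with
      | zero => simpa using b
      | succ i =>
        rw [pow_succ, mul_smul, t, smul_zero] at b
        have := D.wT (k + 1) k
        rw [← b, D.w0] at this
        exact absurd this (by clear this b; revert k; decide)
    rw [b]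
    refine ((mat _ (D.m_row hg) (D.m_col hg)).2 h j k).trans ?_
    rw [m, this, D.wT, if_pos rfl]

/-! Equivariant families of square roots -/

/-- A family of square roots that is permuted up to signs like the roots. -/
def Eqv (s : Fin 3 → ℂ) : Prop :=
  (∀ j, s j ≠ 0) ∧ ∀ (σ : G) j k, σ (D.e j) = D.e k → σ (s j) ^ 2 = s k ^ 2

theorem eqv_h : D.Eqv D.h := by
  refine ⟨fun j z => ?_, fun σ j k a => ?_⟩
  · have a := D.h2 j
    have b := D.disc
    rw [z, zero_pow two_ne_zero] at a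
    have : ∏ k, fd (D.e k) = 0 := Finset.prod_eq_zero (Finset.mem_univ j) a.symm
    rw [Fin.prod_univ_three, b] at this
    norm_num at this
  · rw [← map_pow, D.h2, D.h2, ← a]
    simp [fd, map_ofNat]

variable {D} {s : Fin 3 → ℂ} (hs : D.Eqv s)

include hs

theorem Eqv.mul (hg : g ∈ N A (i + 1)) (hg' : g' ∈ N A (i + 1)) (j : Fin 3) :
    sg (g * g') (s j) = sg g (s j) + sg g' (s j) :=
  sg_mul (hs.1 j) (hs.2 g j j (D.fix hg j)) (hs.2 g' j j (D.fix hg' j))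

theorem Eqv.conj {σ : G} {j k : Fin 3} (h : σ (D.e j) = D.e k) :
    sg (σ * g * σ⁻¹) (s k) = sg g (s j) := sg_conj (hs.2 σ j k h)

theorem Eqv.prod (hg : g ∈ N A (i + 1)) (j k : Fin 3) :
    sg g (s j * s k) = sg g (s j) + sg g (s k) :=
  sg_prod (hs.1 j) (hs.1 k) (hs.2 g j j (D.fix hg j)) (hs.2 g k k (D.fix hg k))

theorem Eqv.cj12 : cj (s 1 * s 2) = s 1 * s 2 := cj_prod (hs.2 cj 1 2 (D.ce 1))

variable (hp : ∀ σ : G, σ (s 0 * (s 1 * s 2)) = s 0 * (s 1 * s 2))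

include hp

theorem Eqv.sum (hg : g ∈ N A (i + 1)) : sg g (s 0) + (sg g (s 1) + sg g (s 2)) = 0 := by
  rw [← hs.prod hg, ← sg_prod (hs.1 0) (mul_ne_zero (hs.1 1) (hs.1 2)) (hs.2 g 0 0 (D.fix hg 0))
    (by rw [map_mul, mul_pow, mul_pow, hs.2 g 1 1 (D.fix hg 1), hs.2 g 2 2 (D.fix hg 2)]), sg_eq]
  exact hp g

theorem Eqv.cj0 : cj (s 0) = s 0 := by
  have := hp cj
  rw [map_mul, hs.cj12] at this
  exact mul_right_cancel₀ (mul_ne_zero (hs.1 1) (hs.1 2)) this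

theorem Eqv.cyc (hg : g ∈ N A (i + 1)) (h : ∀ j, sg (D.w * g * D.w⁻¹) (s j) = sg g (s j))
    (j : Fin 3) : sg g (s j) = 0 := by
  have : ∀ f : Fin 3 → ZMod 2, f 0 + (f 1 + f 2) = 0 → (∀ j, f j = f (j + 1)) → ∀ j, f j = 0 := by
    decide
  exact this (fun j => sg g (s j)) (hs.sum hp hg) (fun j => (hs.conj (D.we j)).symm.trans (h _)) j

theorem Eqv.ker (H : ∀ g ∈ N A (i + 1 + 1), ∀ j, sg g (s j) = 0) (hg : g ∈ N A (i + 1))
    (h : ∀ j, D.a (i + 1) g j = D.a (i + 1) g 0) : ∀ j, sg g (s j) = 0 :=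
  hs.cyc hp hg fun j => by
    have := H _ (D.comm_mem hg h) j
    rw [hs.mul (N_conj hg _) hg] at this
    exact CharTwo.add_eq_zero.1 this

omit hs hp in
theorem phi (x : Fin 3 → ZMod 2) : (x 1 + x 2) + (x 2 + x 0) + (x 0 + x 1) = 0 ∧
    ∀ j, x j + (x (j + 1) + x (j + 2)) = x 0 + (x 1 + x 2) := by
  revert x
  decide

omit hs hp in
theorem orb {Q : (Fin 3 → ZMod 2) → Prop} (h0 : Q 0) (h1 : ∀ v, Q v → Q fun j => v (j - 1))
    {v : Fin 3 → ZMod 2} (h2 : Q v) (h3 : v ≠ 0) (h4 : v 0 + v 1 + v 2 = 0)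
    (u : Fin 3 → ZMod 2) (h5 : u 0 + u 1 + u 2 = 0) : Q u := by
  have : ∀ v u : Fin 3 → ZMod 2, v ≠ 0 → v 0 + v 1 + v 2 = 0 → u 0 + u 1 + u 2 = 0 → u = 0 ∨ u = v ∨
      u = (fun j => v (j - 1)) ∨ u = fun j => v (j - 1 - 1) := by decide
  rcases this v u h3 h4 h5 with rfl | rfl | rfl | rfl
  exacts [h0, h2, h1 _ h2, h1 _ (h1 _ h2)]

omit hs hp in
theorem ex (h : ∃ g ∈ N A (0 + 1), g (D.h 1 * D.h 2) ≠ D.h 1 * D.h 2) (i : ℕ)
    (v : Fin 3 → ZMod 2) (hv : v 0 + v 1 + v 2 = 0) : ∃ g ∈ N A (i + 1), D.a (i + 1) g = v := by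
  induction i with
  | succ i ih =>
    obtain ⟨g, a, rfl⟩ := ih
    exact ⟨_, D.sq_mem a, funext (D.a_sq a hv)⟩
  | zero =>
    obtain ⟨g, a, b⟩ := h
    rw [Ne, ← sg_eq, D.eqv_h.prod a, ← D.a_h a, ← D.a_h a] at b
    have c := N_conj a D.w
    have d : ∀ j, D.a (0 + 1) (D.w * g * D.w⁻¹ * g) (j + 1) =
        D.a (0 + 1) g j + D.a (0 + 1) g (j + 1) := fun j => by rw [D.a_mul c a, D.a_conj a (D.we j)]
    refine orb (Q := fun v => ∃ g ∈ N A (0 + 1), D.a (0 + 1) g = v) ⟨1, one_mem _, funext (D.a_one _)⟩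
      ?_ ⟨_, mul_mem c a, rfl⟩ (fun z => b ((d 1).symm.trans (congrFun z _))) ?_ v hv
    · rintro _ ⟨g, a, rfl⟩
      exact ⟨_, N_conj a D.w, funext fun j => D.a_conj a (by rw [D.we, sub_add_cancel])⟩
    · refine (congrArg₂ _ (congrArg₂ _ (d 2) (d 0)) (d 1)).trans ?_
      generalize D.a (0 + 1) g = x
      revert x
      decide

theorem Eqv.down (h : ∃ g ∈ N A (0 + 1), g (D.h 1 * D.h 2) ≠ D.h 1 * D.h 2)
    (H : ∀ g ∈ N A (i + 1 + 1), ∀ j, sg g (s j) = 0) :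
    ∀ g ∈ N A (0 + 1 + 1), ∀ j, sg g (s j) = 0 := by
  induction i with
  | zero => exact H
  | succ i ih =>
    refine ih fun g hg j => ?_
    obtain ⟨t, a, b⟩ := ex h i (fun j => D.a (i + 1 + 1) g (j + 1) + D.a (i + 1 + 1) g (j + 2))
      (phi _).1
    have c := D.sq_mem a
    have d := hs.ker hp H (mul_mem hg c) (fun j => by
      rw [D.a_mul hg c, D.a_mul hg c, D.a_sq a (b ▸ (phi _).1), D.a_sq a (b ▸ (phi _).1), b]
      exact (phi _).2 j) j
    rwa [hs.mul hg c, hs.mul a a, CharTwo.add_self_eq_zero, add_zero] at d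

theorem Eqv.base (h : ∃ g ∈ N A (0 + 1), g (D.h 1 * D.h 2) ≠ D.h 1 * D.h 2)
    (H : ∀ g ∈ N A (0 + 1 + 1), ∀ j, sg g (s j) = 0) :
    (∀ g ∈ N A (0 + 1), g (s 0) = s 0) ∨
      ∀ g ∈ N A (0 + 1), g (s 0 * (D.h 1 * D.h 2)) = s 0 * (D.h 1 * D.h 2) := by
  obtain ⟨t, a, b⟩ := ex h 0 ![0, 1, 1] rfl
  have c := N_conj a cj
  have d := hs.ker hp H (mul_mem c a) (fun j => by
    obtain ⟨j, rfl⟩ := neg_surjective j
    rw [D.a_mul c a, D.a_mul c a, D.a_conj a (D.ce j), D.a_conj (j' := 0) a (D.ce 0), b]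
    revert j
    decide) 2
  rw [hs.mul c a, hs.conj (k := 2) (D.ce 1)] at d
  have e := hs.sum hp a
  rw [d, add_zero] at e
  have key : ∀ g ∈ N A (0 + 1),
      sg g (s 0) = sg t (s 1) * (D.a (0 + 1) g 1 + D.a (0 + 1) g 2) := fun g hg => by
    obtain ⟨u, a', b', c'⟩ := orb (Q := fun v => ∃ u ∈ N A (0 + 1), D.a (0 + 1) u = v ∧
        ∀ j, sg u (s j) = sg t (s 1) * v j) ⟨1, one_mem _, funext (D.a_one _), fun j =>
          (sg_eq.2 rfl).trans (mul_zero _).symm⟩ (by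
        rintro _ ⟨g, a, rfl, c⟩
        exact ⟨_, N_conj a D.w, funext fun j => D.a_conj a (by rw [D.we, sub_add_cancel]),
          fun j => (hs.conj (by rw [D.we, sub_add_cancel])).trans (c _)⟩)
      ⟨t, a, b, fun j => by
        fin_cases j
        exacts [e.trans (mul_zero _).symm, (mul_one _).symm,
          (CharTwo.add_eq_zero.1 d).symm.trans (mul_one _).symm]⟩ (by decide) rfl
      (fun j => D.a (0 + 1) g (j + 1) + D.a (0 + 1) g (j + 2)) (phi _).1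
    have := hs.ker hp H (mul_mem hg a') (fun j => by
      rw [D.a_mul hg a', D.a_mul hg a', b']
      exact (phi _).2 j) 0
    rw [hs.mul hg a', c'] at this
    exact CharTwo.add_eq_zero.1 this
  have : ∀ x : ZMod 2, x = 0 ∨ x = 1 := by decide
  refine (this (sg t (s 1))).imp (fun z g hg => ?_) fun z g hg => ?_
  · rw [← sg_eq, key g hg, z, zero_mul]
  · rw [← sg_eq, sg_prod (hs.1 0) (mul_ne_zero (D.eqv_h.1 1) (D.eqv_h.1 2))
      (hs.2 g 0 0 (D.fix hg 0)) (by rw [map_mul, mul_pow, mul_pow, D.eqv_h.2 g 1 1 (D.fix hg 1),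
        D.eqv_h.2 g 2 2 (D.fix hg 2)]), key g hg, z, one_mul, D.eqv_h.prod hg, D.a_h hg, D.a_h hg,
      CharTwo.add_self_eq_zero]

theorem Eqv.top {k : Fin 3} (H : ∀ g ∈ commutator G, g ∈ N A (i + 1) → sg g (s k) = 0) :
    ∀ g ∈ N A (i + 1), ∀ j, sg g (s j) = 0 := by
  have st : ∀ j, (∀ g ∈ commutator G, g ∈ N A (i + 1) → sg g (s (j + 1)) = 0) →
      ∀ g ∈ commutator G, g ∈ N A (i + 1) → sg g (s j) = 0 := fun j H g a b =>
    (hs.conj (D.we j)).symm.trans (H _ (Subgroup.Normal.conj_mem inferInstance g a _) (N_conj b _))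
  have al : ∀ j, ∀ g ∈ commutator G, g ∈ N A (i + 1) → sg g (s j) = 0 := fun j => by
    have : ∀ j k : Fin 3, k = j ∨ k = j + 1 ∨ k = j + 1 + 1 := by decide
    rcases this j k with rfl | rfl | rfl
    exacts [H, st _ H, st _ (st _ H)]
  refine fun g hg => hs.cyc hp hg fun j => ?_
  have c := mul_mem (N_conj hg D.w) (inv_mem hg)
  rw [← inv_mul_cancel_right (D.w * g * D.w⁻¹) g, hs.mul c hg,
    al j (D.w * g * D.w⁻¹ * g⁻¹) (Subgroup.commutator_mem_commutator (Subgroup.mem_top D.w) (Subgroup.mem_top g)) c,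
    zero_add]

omit hs hp in
theorem fixed {y : ℂ} (h : ∀ g ∈ N A (0 + 1), g y = y) (h' : cj y = y) {σ : G}
    (hσ : σ (D.e 0) = D.e 0) : σ y = y := by
  have r : ∀ j, ∃ k, σ (D.e j) = D.e k := fun j => (D.root _).1 (by
    have := congrArg σ ((D.root _).2 ⟨j, rfl⟩)
    simpa [fc, map_ofNat] using this)
  choose π hπ using r
  have i : Function.Injective π := fun j k e => D.inj (σ.injective (by rw [hπ, hπ, e]))
  have z : π 0 = 0 := D.inj ((hπ 0).symm.trans hσ)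
  have : ∀ π : Fin 3 → Fin 3, Function.Injective π → π 0 = 0 → (∀ j, π j = j) ∨ ∀ j, -π j = j := by
    decide
  rcases this π i z with a | a
  · exact h σ (D.mem_one fun j => by rw [hπ, a])
  · have := h (cj * σ) (D.mem_one fun j => by rw [RingAut.mul_apply, hπ, D.ce, a])
    exact cj.injective (this.trans h'.symm)

end Dt

end

theorem exDt (hR : R1Stmt) : Nonempty (Dt Pt) := by
  obtain ⟨⟨-, -, -, -, -, half⟩, -, hpt, htwo, ⟨e₁, e₂, e₃, fac, n12, n13, n23, c1, c2, hadd,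
    ⟨w, w1, w2, w3⟩, -⟩, wadd, wsm, hh⟩ := hR
  choose hf hf2 using half
  let e : Fin 3 → ℂ := ![e₁, e₂, e₃]
  have root : ∀ x, fc x = 0 ↔ ∃ j, x = e j := fun x => by
    simp [fac, e, Fin.exists_fin_succ, sub_eq_zero, or_assoc]
  have r : ∀ j, fc (e j) = 0 := fun j => (root _).2 ⟨j, rfl⟩
  have p := fun j => hpt (e j) 0 (by rw [r]; simp)
  have inj : Function.Injective e := fun j k => by
    fin_cases j <;> fin_cases k <;> simp [e, n12, n13, n23, n12.symm, n13.symm, n23.symm]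
  have sm : ∀ (σ : G) j k, σ (e j) = e k ↔ σ • pt (e j) 0 = pt (e k) 0 := fun σ j k =>
    ⟨fun a => act_ext (by simp [smul_eq_zero', (p _).1])
      (by rw [xc_smul, (p _).2.1, (p _).2.1, a]) (by rw [yc_smul, (p _).2.2, (p _).2.2, map_zero]),
      fun a => by rw [← (p j).2.1, ← xc_smul, a, (p k).2.1]⟩
  have wT : ∀ j k, wl (e j) (pt (e k) 0) = if j = k then 0 else 1 := fun j k => by
    simp [wl, (p _).1, (p _).2.1, inj.eq_iff, eq_comm]
  choose h h0 h2 h3 using fun j => hh (e j) (hf (pt (e j) 0)) (r j)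
  refine ⟨⟨e, fun j => pt (e j) 0, h, w, hf, wl, hf2, root, inj, ?_, fun U => ?_,
    hadd, fun j => ?_, fun j => ?_, sm, fun _ => if_pos (Or.inl rfl), wT,
    fun j U U' => wadd _ _ _ (r j), wsm, fun j => ?_, fun j σ u => ?_⟩⟩
  · have a := fac 0
    have b := fac 1
    have c := fac (-1)
    simp only [fc] at a b c
    change fd e₁ * fd e₂ * fd e₃ = _
    simp only [fd]
    grind
  · refine (htwo U).trans (or_congr_right' fun n => ⟨fun ⟨a, b⟩ => ((root _).1 b).imp fun j b =>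
      act_ext (by simp [n, (p _).1]) (by rw [b, (p _).2.1]) (by rw [a, (p _).2.2]), ?_⟩)
    rintro ⟨j, rfl⟩
    exact ⟨(p j).2.2, by rw [(p j).2.1, r]⟩
  · fin_cases j
    exacts [w1, w2, w3]
  · fin_cases j
    exacts [c1, c2, (congrArg cj c2).symm.trans (Complex.conj_conj _)]
  · rw [h2, hf2, gam, if_neg (p j).1, if_pos (p j).2.1]
  · have := (h3 j σ 1 ((sm σ j j).2 u) (Or.inl rfl)
      (by rw [hf2, u, one_smul])).2.1 (by rw [hf2, wT, if_pos rfl])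
    rw [one_smul, ← sg_eq] at this
    revert this
    generalize wl _ _ = x, sg _ _ = y
    revert x y
    decide

/-! The prime above `11` -/

theorem odd11 (hPr : PrStmt) {L : Type} [Field L] [NumberField L] {θ : L} (hθ : Cub θ) {β z : L}
    (h0 : β ≠ 0) (hβ : ∀ 𝔭 ∈ ab L 11, Even (og 𝔭 β)) : z ^ 2 * fd θ ≠ β * (2 ^ 8 * 11 ^ 5) := by
  obtain ⟨-, ⟨𝔭, 𝔮, -, a1, -, -, a2, -, a3, -⟩, -, -, a4, -⟩ := hPr L θ hθ
  have m := (a1 𝔭).2 (Or.inl rfl)
  obtain ⟨-, l, b1, -, b2⟩ := a4 𝔭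
  obtain rfl := (Nat.prime_dvd_prime_iff_eq b1 (by norm_num)).1 ((b2 11 (by norm_num)).1 m)
  have t : ord (𝔭.valuation L) (2 : L) = 0 := by
    have := mt (b2 2 two_ne_zero).1 (by norm_num)
    rw [mem_ab, not_not] at this
    exact_mod_cast this
  have n : θ - 8 ≠ 0 := fun e => by simp [e, og] at a3
  have v1 : 𝔭.valuation L (θ - 8) < 1 := by
    rw [val_eq_exp n, ← WithZero.exp_zero, WithZero.exp_lt_exp]
    exact neg_neg_of_pos a3
  have v2 : 𝔭.valuation L (-2 ^ 5 : L) = 1 := by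
    rw [Valuation.map_neg, map_pow, val_eq_exp two_ne_zero, t]
    simp
  have v3 : ∀ k : ℕ, 𝔭.valuation L (k : L) ≤ 1 := fun k => by
    simpa using 𝔭.valuation_le_one (K := L) (k : 𝓞 L)
  have v4 : 𝔭.valuation L ((θ - 8) * ((3 : ℕ) * (θ - 8) + (40 : ℕ))) < 1 := by
    rw [map_mul]
    refine mul_lt_one_of_lt_of_le v1 ((Valuation.map_add _ _ _).trans (max_le ?_ (v3 _)))
    rw [map_mul]
    exact mul_le_one' (v3 _) v1.le
  have v5 : 𝔭.valuation L (fd θ) = 1 := by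
    refine Eq.trans ?_ ((Valuation.map_add_eq_of_lt_left _ (v4.trans_eq v2.symm)).trans v2)
    congr 1
    simp only [fd]
    push_cast
    ring
  have f0 : fd θ ≠ 0 := fun e => by simp [e] at v5
  intro e
  have z0 : z ≠ 0 := fun e' => by simp [e', h0] at e
  have := congrArg (ord (𝔭.valuation L)) e
  rw [ord_mul (pow_ne_zero 2 z0) f0, ord_mul h0 (by norm_num), ord_mul (by norm_num) (by norm_num),
    ord_pow, ord_pow, ord_pow, t, show ord (𝔭.valuation L) (11 : L) = 1 from a2,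
    show ord (𝔭.valuation L) (fd θ) = 0 by simp [ord, v5]] at this
  obtain ⟨c, hc⟩ := hβ 𝔭 m
  rw [og] at hc
  push_cast at this
  omega

end Comm

open Comm in
theorem comm_thm (hV : VStmt) (hR : RStmt) (hPr : PrStmt) : CommStmt := by
  intro L _ _ θ hθ α m e s h0 ⟨n, hn⟩ h11 hsq hs
  obtain ⟨D⟩ := exDt hR.1
  obtain ⟨-, -, -, -, -, -, a1, a2, a3, -⟩ := hPr L θ hθ
  choose ε hε using fun j => a2 (D.e j) ((D.root _).2 ⟨j, rfl⟩)
  have tr : ∀ (σ : G) (e e' : L →+* ℂ), σ (e θ) = e' θ → ∀ x, σ (e x) = e' x := fun σ e e' h x => by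
    obtain ⟨a, b, c, rfl⟩ := a1 x
    simp [h]
  have ne : ∀ j k, j ≠ k → ε j θ ≠ ε k θ := fun j k h => by
    rw [hε, hε]
    exact D.inj.ne h
  have nm := a3 α (ε 0) (ε 1) (ε 2) (ne _ _ (by decide)) (ne _ _ (by decide)) (ne _ _ (by decide))
  have e0 : ∀ j, ε j α ≠ 0 := fun j => (map_ne_zero _).2 h0
  obtain ⟨s₁, h₁⟩ := IsAlgClosed.exists_pow_nat_eq (ε 1 α) two_pos
  obtain ⟨s₂, h₂⟩ := IsAlgClosed.exists_pow_nat_eq (ε 2 α) two_pos
  have n12 : s₁ * s₂ ≠ 0 := fun z => mul_ne_zero (e0 1) (e0 2) (by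
    rw [← h₁, ← h₂, ← mul_pow, z, zero_pow two_ne_zero])
  let t : Fin 3 → ℂ := ![n / (s₁ * s₂), s₁, s₂]
  have t2 : ∀ j, t j ^ 2 = ε j α := fun j => by
    fin_cases j
    · change (n / (s₁ * s₂)) ^ 2 = ε 0 α
      rw [div_pow, div_eq_iff (pow_ne_zero 2 n12), mul_pow, h₁, h₂, ← mul_assoc, ← nm, hn]
      push_cast
      ring
    exacts [h₁, h₂]
  have ht : D.Eqv t := ⟨fun j z => e0 j (by rw [← t2, z, zero_pow two_ne_zero]), fun σ j k a => by
    rw [← map_pow, t2, t2, tr σ _ (ε k) (by rw [hε, hε, a])]⟩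
  have hp : ∀ σ : G, σ (t 0 * (t 1 * t 2)) = t 0 * (t 1 * t 2) := fun σ => by
    rw [show t 0 * (t 1 * t 2) = n from div_mul_cancel₀ _ n12, map_ratCast]
  have fx : ∀ y : ℂ, (∀ g ∈ N Pt (0 + 1), g y = y) → cj y = y → ∃ z, ε 0 z = y := fun y a b =>
    hV.2.2.2.2.2.1 L (ε 0) y fun σ c => Dt.fixed a b (D := D) (by rw [← hε, c])
  have Z : ∀ (β : L) (x : ℂ), β ≠ 0 → (∀ 𝔭 ∈ ab L 11, Even (og 𝔭 β)) → x ^ 2 = ε 0 β → cj x = x →
      ¬ ∀ g ∈ N Pt (0 + 1), g (x * (D.h 1 * D.h 2)) = x * (D.h 1 * D.h 2) := fun β x a b c d f => by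
    obtain ⟨z, hz⟩ := fx _ f (by rw [map_mul, d, D.eqv_h.cj12])
    refine odd11 hPr hθ a b (z := z) ((ε 0).injective ?_)
    have : ε 0 (fd θ) = fd (D.e 0) := by simp [fd, hε, map_ofNat]
    rw [map_mul, map_pow, hz, this, mul_pow, mul_pow, c, D.h2, D.h2, map_mul]
    simp only [map_mul, map_pow, map_ofNat]
    rw [← D.disc]
    ring
  have h1 : ∃ g ∈ N Pt (0 + 1), g (D.h 1 * D.h 2) ≠ D.h 1 * D.h 2 := by
    simpa using Z 1 1 one_ne_zero (fun _ _ => by simp [og]) (by simp) (map_one _)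
  obtain ⟨k, hk⟩ := (D.root (e θ)).1 (by
    have := congrArg e hθ.eq
    simpa [fc, map_ofNat] using this)
  have st : s ^ 2 = t k ^ 2 := by
    rw [hs, t2]
    exact tr 1 e (ε k) (hk.trans (hε k).symm) α
  by_contra! H
  have H1 := ht.top hp (i := m) (k := k) fun g a b => by
    have c := H g a b
    rw [sg_eq]
    rcases sq_eq_sq_iff_eq_or_eq_neg.1 (ht.2 g k k (D.fix b k)) with d | d
    · exact d
    · rcases sq_eq_sq_iff_eq_or_eq_neg.1 st with rfl | rfl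
      · exact absurd d c
      · exact absurd (by rw [map_neg, d]) c
  rcases ht.base hp h1 (ht.down hp h1 (i := m) fun g a => H1 g (N_succ a)) with a | a
  · obtain ⟨z, hz⟩ := fx _ a (ht.cj0 hp)
    exact hsq ⟨z, (ε 0).injective (by rw [map_mul, hz, ← t2, sq])⟩
  · exact Z α _ h0 h11 (t2 0) (ht.cj0 hp) a

end Pool.Agent.Lib.MP_d6ddbd_nt.K11
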