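import Pool.Agent.Lib.MP_d6ddbd_nt.K11.Stmt
import Pool.Agent.Lib.MP_ca56d1_nt.Loc

/-!
The local condition at `11`.
-/

set_option autoImplicit false

open NumberField IsDedekindDomain
open Pool.Agent.Stark Pool.Agent.Stark.LocAux

namespace Pool.Agent.Lib.MP_d6ddbd_nt.K11

namespace Eleven

section Gen

variable {k : Type*} [Field k] {w : Valuation k (WithZero (Multiplicative ℤ))}

theorem int_mem (n : ℤ) : (n : k) ∈ pw w 0 := by simpa using zsmul_mem (one_mem (w := w)) n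

theorem unit {x : k} (hx : x ∈ pw w 0) (hx' : x ∉ pw w 1) : x ≠ 0 ∧ ord w x = 0 := by
  have h1 := not_mem.1 hx'
  have h2 := (mem_pw_iff.1 hx).resolve_left h1.1
  exact ⟨h1.1, by omega⟩

theorem int_mem1 (h : (11 : k) ∈ pw w 1) (n : ℤ) : (n : k) ∈ pw w 1 ↔ (11 : ℤ) ∣ n := by
  constructor
  · intro hn
    by_contra h1
    obtain ⟨a, b, e⟩ :=
      (Prime.coprime_iff_not_dvd (Int.prime_iff_natAbs_prime.2 (by norm_num))).2 h1
    have e' : (a : k) * 11 + b * n = 1 := by exact_mod_cast congrArg (Int.cast : ℤ → k) e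
    exact one_not_mem (e' ▸ add_mem (pw_mul (int_mem a) h le_rfl) (pw_mul (int_mem b) hn le_rfl))
  · rintro ⟨m, rfl⟩
    rw [Int.cast_mul]
    exact pw_mul (by simpa using h) (int_mem m) le_rfl

theorem int_unit (h : (11 : k) ∈ pw w 1) {n : ℤ} (hn : ¬ (11 : ℤ) ∣ n) :
    (n : k) ≠ 0 ∧ ord w (n : k) = 0 := unit (int_mem n) fun e => hn ((int_mem1 h n).1 e)

theorem exists_int (h : rc w = 11) {s : k} (hs : s ∈ pw w 0) : ∃ r : ℤ, s - r ∈ pw w 1 := by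
  have : Fact (Nat.Prime 11) := ⟨by norm_num⟩
  have h1 : (QuotientAddGroup.mk ⟨1, one_mem⟩ : pw w 0 ⧸ (pw w 1).addSubgroupOf (pw w 0)) ≠ 0 :=
    fun e => one_not_mem (w := w)
      (AddSubgroup.mem_addSubgroupOf.1 ((QuotientAddGroup.eq_zero_iff _).1 e))
  obtain ⟨r, hr⟩ := mem_zmultiples_of_prime_card (p := 11) h (g' := QuotientAddGroup.mk ⟨s, hs⟩) h1
  refine ⟨r, ?_⟩
  have h2 := QuotientAddGroup.eq.1 ((QuotientAddGroup.mk_zsmul _ _ r).trans hr)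
  simpa [AddSubgroup.mem_addSubgroupOf, sub_eq_neg_add] using h2

theorem even_of_sq {a b : k} (ha : a ≠ 0) (hb : b ≠ 0) (h : IsSquare (a * b)) :
    Even (ord w a + ord w b) := by
  obtain ⟨r, hr⟩ := h
  have h0 : r ≠ 0 := left_ne_zero_of_mul (hr ▸ mul_ne_zero ha hb)
  rw [← ord_mul ha hb, hr, ord_mul h0 h0]
  exact ⟨_, rfl⟩

theorem sq_of_cong (L : IsLoc w) (h : (11 : k) ∈ pw w 1) {b : k} {r : ℤ} (hr : ¬ (11 : ℤ) ∣ r)
    (hb : b - (r : k) ^ 2 ∈ pw w 1) : IsSquare b := by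
  have h1 := int_unit h hr
  have h2 : ord w (2 : k) = 0 := by simpa using (int_unit h (n := 2) (by norm_num)).2
  have h3 : IsSquare (b / (r : k) ^ 2) := hens L (by
    rw [h2, div_sub_one (pow_ne_zero 2 h1.1)]
    exact pw_div hb (by rw [ord_pow, h1.2]; norm_num))
  rw [← div_mul_cancel₀ b (pow_ne_zero 2 h1.1)]
  exact h3.mul ⟨r, sq _⟩

theorem nsq_of_cong (hc : rc w = 11) (h : (11 : k) ∈ pw w 1) {b : k} {n : ℤ}
    (hn : ∀ t : ℤ, ¬ (11 : ℤ) ∣ n - t ^ 2) (hb : b - n ∈ pw w 1) :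
    b ≠ 0 ∧ ord w b = 0 ∧ ¬ IsSquare b := by
  have h1 := int_unit h (n := n) (by simpa using hn 0)
  have h2 := add_high (w := w) h1.1 (y := b - n) (by rwa [h1.2])
  rw [add_sub_cancel, h1.2] at h2
  refine ⟨h2.1, h2.2, ?_⟩
  rintro ⟨s, rfl⟩
  have h0 : s ≠ 0 := left_ne_zero_of_mul h2.1
  have h3 : s ∈ pw w 0 := mem_of_le (by have := h2.2; rw [ord_mul h0 h0] at this; omega)
  obtain ⟨t, ht⟩ := exists_int hc h3
  refine hn t ((int_mem1 h _).1 ?_)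
  rw [show ((n - t ^ 2 : ℤ) : k) = (s - t) * (s + t) - (s * s - n) by push_cast; ring]
  exact sub_mem (pw_mul ht (add_mem h3 (int_mem t)) le_rfl) hb

theorem ord_int [CharZero k] {n : ℤ} (hn : n ≠ 0) : ∃ v : ℤ,
    ∀ w : Valuation k (WithZero (Multiplicative ℤ)), (11 : k) ∈ pw w 1 →
      ord w (n : k) = v * ord w (11 : k) := by
  obtain ⟨v, m, hm, rfl⟩ := WfDvdMonoid.max_power_factor' hn (x := 11) (by decide)
  refine ⟨v, fun w h => ?_⟩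
  have h1 := int_unit h hm
  rw [Int.cast_mul, Int.cast_pow, ord_mul (by simp) h1.1, ord_pow, h1.2]
  simp

theorem ord_rat [CharZero k] (y : ℚ) : ∃ v : ℤ,
    ∀ w : Valuation k (WithZero (Multiplicative ℤ)), (11 : k) ∈ pw w 1 →
      ord w (y : k) = v * ord w (11 : k) := by
  rcases eq_or_ne y 0 with rfl | hy
  · exact ⟨0, fun _ _ => by simp⟩
  have h1 : y.num ≠ 0 := Rat.num_ne_zero.2 hy
  have h2 : (y.den : ℤ) ≠ 0 := by exact_mod_cast y.den_ne_zero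
  obtain ⟨a, ha⟩ := ord_int (k := k) h1
  obtain ⟨b, hb⟩ := ord_int (k := k) h2
  refine ⟨a - b, fun w h => ?_⟩
  rw [Rat.cast_def, ← Int.cast_natCast, ord_div (Int.cast_ne_zero.2 h1) (Int.cast_ne_zero.2 h2),
    ha w h, hb w h, sub_mul]

/-- One of the two valuations of `x - d z ^ 2 θ` is even. -/
theorem even_or [CharZero k] {w' : Valuation k (WithZero (Multiplicative ℤ))}
    (h1 : ord w (11 : k) = 1) (h2 : ord w' (11 : k) = 2) {θ : k} (h8 : 0 < ord w (θ - 8))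
    (h9 : 0 < ord w' (θ - 9)) {d : ℤ} (hd : ¬ (11 : ℤ) ∣ d) (x z : ℚ) :
    Even (ord w ((x : k) - d * (z : k) ^ 2 * θ)) ∨
      Even (ord w' ((x : k) - d * (z : k) ^ 2 * θ)) := by
  have m1 : (11 : k) ∈ pw w 1 := mem_of_le h1.ge
  have m2 : (11 : k) ∈ pw w' 1 := mem_of_le (by omega)
  rcases eq_or_ne z 0 with rfl | hz
  · obtain ⟨v, hv⟩ := ord_rat (k := k) x
    refine Or.inr ?_
    rw [show (x : k) - d * ((0 : ℚ) : k) ^ 2 * θ = x by simp, hv w' m2, h2]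
    exact (even_two).mul_left v
  have hz' : (z : k) ≠ 0 := Rat.cast_ne_zero.2 hz
  have hy : (d : k) * (z : k) ^ 2 ≠ 0 := mul_ne_zero (int_unit m1 hd).1 (pow_ne_zero 2 hz')
  obtain ⟨u, hu⟩ := ord_rat (k := k) z
  obtain ⟨v, hv⟩ := ord_rat (k := k) (x - 9 * (d * z ^ 2))
  have e1 : ord w ((d : k) * (z : k) ^ 2) = 2 * u := by
    rw [ord_mul (int_unit m1 hd).1 (pow_ne_zero 2 hz'), (int_unit m1 hd).2, ord_pow, hu w m1, h1]
    simp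
  have e2 : ord w' ((d : k) * (z : k) ^ 2) = 4 * u := by
    rw [ord_mul (int_unit m1 hd).1 (pow_ne_zero 2 hz'), (int_unit m2 hd).2, ord_pow, hu w' m2, h2]
    push_cast
    ring
  have e3 := hv w m1
  have e4 := hv w' m2
  push_cast at e3 e4
  rw [h1] at e3
  rw [h2] at e4
  by_cases hc : (x : k) - 9 * (d * (z : k) ^ 2) ∈ pw w (2 * u + 1)
  · refine Or.inl ?_
    have := add_high (w := w) hy (y := (x : k) - 9 * (d * (z : k) ^ 2) - d * (z : k) ^ 2 * (θ - 8))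
      (by
        rw [e1]
        exact sub_mem hc (pw_mul (mem_of_le e1.ge) (mem_of_le h8) le_rfl))
    rw [show (x : k) - d * (z : k) ^ 2 * θ = d * (z : k) ^ 2 +
      ((x : k) - 9 * (d * (z : k) ^ 2) - d * (z : k) ^ 2 * (θ - 8)) by ring, this.2, e1]
    exact even_two_mul u
  · refine Or.inr ?_
    have h3 := not_mem.1 hc
    have := add_high (w := w') h3.1 (y := -(d * (z : k) ^ 2 * (θ - 9)))
      (neg_mem (pw_mul (mem_of_le e2.ge) (mem_of_le h9) (by omega)))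
    rw [show (x : k) - d * (z : k) ^ 2 * θ = (x : k) - 9 * (d * (z : k) ^ 2) +
      -(d * (z : k) ^ 2 * (θ - 9)) by ring, this.2, e4]
    exact (even_two).mul_left v

end Gen

theorem choice0 : ∀ d : ZMod 11, d ≠ 0 →
    ∃ r : ZMod 11, r ≠ 0 ∧ ∀ t : ZMod 11, r ^ 2 - d - t ^ 2 ≠ 0 := by decide

theorem choice {d : ℤ} (hd : ¬ (11 : ℤ) ∣ d) :
    ∃ r : ℤ, ¬ (11 : ℤ) ∣ r ∧ ∀ t : ℤ, ¬ (11 : ℤ) ∣ r ^ 2 - d - t ^ 2 := by
  have key : ∀ n : ℤ, (n : ZMod 11) = 0 ↔ (11 : ℤ) ∣ n := fun n =>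
    ZMod.intCast_zmod_eq_zero_iff_dvd n 11
  obtain ⟨r, h1, h2⟩ := choice0 d fun e => hd ((key d).1 e)
  obtain ⟨r, rfl⟩ := ZMod.intCast_surjective r
  exact ⟨r, fun e => h1 ((key r).2 e), fun t e => h2 t (by exact_mod_cast (key _).2 e)⟩

end Eleven

open Eleven in
theorem eleven_thm (hPr : PrStmt) (hPF : PFStmt) : ElevenStmt := by
  classical
  intro L _ _ θ hθ d α hd hα hN
  obtain ⟨-, ⟨𝔭, 𝔮, hne, hab, n1, n2, o1, o2, t8, t9⟩, -, hv, -⟩ := hPr L θ hθ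
  have hs : ab L 11 = {𝔭, 𝔮} := Finset.ext fun 𝔯 => by simp [hab]
  have hm : ∀ 𝔯 : Pr L, ((11 : ℕ) : 𝓞 L) ∈ 𝔯.asIdeal ↔ 𝔯 = 𝔭 ∨ 𝔯 = 𝔮 := fun 𝔯 => by
    rw [← mem_ab' (by norm_num), hab]
  have par : Even (og 𝔭 α + og 𝔮 α) := by
    have := (hv 11 α (by norm_num) hα).2 hN
    rw [hs, Finset.sum_pair hne, n1, n2, show Nat.log 11 11 = 1 by decide] at this
    simpa using this
  constructor
  · rintro ⟨x, z, h0, h⟩
    have key : ∀ 𝔯 : Pr L, 𝔯 = 𝔭 ∨ 𝔯 = 𝔮 →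
        Even (og 𝔯 α + og 𝔯 ((x : L) - d * (z : L) ^ 2 * θ)) := fun 𝔯 hr => by
      have := h 𝔯 ((hm 𝔯).2 hr)
      rw [LSq, map_mul] at this
      rw [← ord_emb, ← ord_emb]
      exact even_of_sq ((map_ne_zero _).2 hα) ((map_ne_zero _).2 h0) this
    have h1 := key 𝔭 (Or.inl rfl)
    have h2 := key 𝔮 (Or.inr rfl)
    have h3 : Even (og 𝔭 _) ∨ Even (og 𝔮 _) := even_or o1 o2 t8 t9 hd x z
    rw [Int.even_add] at h1 h2 par
    intro 𝔯 hr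
    rcases (hab 𝔯).1 hr with rfl | rfl <;> tauto
  · intro hev
    have ep := hev 𝔭 ((hab 𝔭).2 (Or.inl rfl))
    have eq := hev 𝔮 ((hab 𝔮).2 (Or.inr rfl))
    have m : ∀ 𝔯 : Pr L, 1 ≤ og 𝔯 (11 : L) → (11 : Kc 𝔯) ∈ pw (wv 𝔯) 1 := fun 𝔯 h => by
      rw [← map_ofNat (emb 𝔯) 11]
      exact mem_of_le (by rwa [ord_emb])
    have m1 := m 𝔭 o1.ge
    have m2 := m 𝔮 (by omega)
    have unr : ∀ (𝔯 : Pr L) (a : Kc 𝔯), (11 : Kc 𝔯) ∈ pw (wv 𝔯) 1 → a ≠ 0 → Even (ord (wv 𝔯) a) →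
        Stark.Unr (wv 𝔯) a := fun 𝔯 a h h0 he =>
      (isLoc_wv 𝔯).unr_of_odd (by simpa using (int_unit h (n := 2) (by norm_num)).2) h0 he
    have a0 : ∀ 𝔯 : Pr L, emb 𝔯 α ≠ 0 := fun 𝔯 => (map_ne_zero _).2 hα
    have u1 := unr 𝔭 _ m1 (a0 𝔭) (by rwa [ord_emb])
    have u2 := unr 𝔮 _ m2 (a0 𝔮) (by rwa [ord_emb])
    have sp : LSq 𝔭 α := by
      have := hPF L θ hθ 11 α 11 (by norm_num) hα hN (by norm_num)
      have c0 : ((11 : ℚ) : L) = 11 := by norm_num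
      have c1 : ∀ 𝔯 : Pr L, emb 𝔯 (11 : L) ≠ 0 := fun 𝔯 => (map_ne_zero _).2 (by norm_num)
      rw [hs, Finset.sum_pair hne, c0, hq, hq, (isLoc_wv 𝔭).hs_of_unr (a0 𝔭) u1 (c1 𝔭),
        (isLoc_wv 𝔮).hs_of_unr (a0 𝔮) u2 (c1 𝔮), ord_emb, ord_emb, o1, o2] at this
      by_contra h
      rw [if_neg (show ¬ IsSquare (emb 𝔭 α) from h)] at this
      split_ifs at this <;> revert this <;> decide
    by_cases sq : LSq 𝔮 α
    · refine ⟨1, 0, by simp, fun 𝔯 hr => ?_⟩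
      rw [show α * (((1 : ℚ) : L) - d * ((0 : ℚ) : L) ^ 2 * θ) = α by simp]
      rcases (hm 𝔯).1 hr with rfl | rfl <;> assumption
    obtain ⟨r, hr, ht⟩ := choice hd
    have t : ∀ (𝔯 : Pr L) (c : L), 0 < og 𝔯 (θ - c) → emb 𝔯 θ - emb 𝔯 c ∈ pw (wv 𝔯) 1 :=
      fun 𝔯 c h => by
        rw [← map_sub]
        exact mem_of_le (by rwa [ord_emb])
    have s8 := t 𝔭 8 t8
    have s9 := t 𝔮 9 t9
    rw [map_ofNat] at s8 s9
    have eb : ∀ 𝔯 : Pr L, emb 𝔯 ((((r ^ 2 + 8 * d : ℤ) : ℚ) : L) - d * ((1 : ℚ) : L) ^ 2 * θ) =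
        (r : Kc 𝔯) ^ 2 + 8 * d - d * emb 𝔯 θ := fun 𝔯 => by simp [map_ofNat]
    have b1 : IsSquare ((r : Kc 𝔭) ^ 2 + 8 * d - d * emb 𝔭 θ) :=
      sq_of_cong (isLoc_wv 𝔭) m1 hr (by
        rw [show (r : Kc 𝔭) ^ 2 + 8 * d - d * emb 𝔭 θ - (r : Kc 𝔭) ^ 2 =
          -(d * (emb 𝔭 θ - 8)) by ring]
        exact neg_mem (pw_mul (int_mem d) s8 le_rfl))
    have b2 := nsq_of_cong ((rc_wv 𝔮).trans n2) m2 ht
      (b := (r : Kc 𝔮) ^ 2 + 8 * d - d * emb 𝔮 θ) (by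
        rw [show (r : Kc 𝔮) ^ 2 + 8 * d - d * emb 𝔮 θ - ((r ^ 2 - d : ℤ) : Kc 𝔮) =
          -(d * (emb 𝔮 θ - 9)) by push_cast; ring]
        exact neg_mem (pw_mul (int_mem d) s9 le_rfl))
    refine ⟨((r ^ 2 + 8 * d : ℤ) : ℚ), 1, fun e => b2.1 (by rw [← eb, e, map_zero]), fun 𝔯 h => ?_⟩
    rw [LSq, map_mul, eb]
    rcases (hm 𝔯).1 h with rfl | rfl
    · exact IsSquare.mul sp b1
    · exact (isLoc_wv _).isSquare_mul_of_unr (a0 _) b2.1 u2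
        (unr _ _ m2 b2.1 (b2.2.1 ▸ Even.zero)) sq b2.2.2

end Pool.Agent.Lib.MP_d6ddbd_nt.K11
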