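import Pool.Agent.Lib.MP_d6ddbd_nt.K11.StG

/-! The characteristic equation of an endomorphism. -/

namespace Pool.Agent.Lib.MP_d6ddbd_nt.K11

open WeierstrassCurve Polynomial Filter
open Pool.Agent.Lib.MP_02f36d_nt

namespace End1

variable {k : Type} [Field k] [IsAlgClosed k] [DecidableEq k] {U : Affine k}

theorem deg_line (hΔ : U.Δ ≠ 0) {h f : U.Point →+ U.Point} (hh : Alg0 h) (hf : Alg0 f) (r : ℤ) :
    (deg (h + r • f) : ℤ) = deg h + r * (deg (h + f) - deg h - deg f) + r ^ 2 * deg f := by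
  have hV : Sep U := sep_of_c4 (Or.inr hΔ)
  have := infinite_pt hV
  have par : ∀ n : ℤ, (deg (h + (n + 1) • f) : ℤ) + deg (h + (n - 1) • f) =
      2 * (deg (h + n • f) + deg f) := fun n => by
    have := deg_parallelogram hV hΔ (hh.add (hf.zsmul n)) hf
    rw [add_zsmul, sub_zsmul, one_zsmul, ← add_assoc, ← sub_eq_add_neg, ← add_sub_assoc]
    exact_mod_cast this
  have key : ∀ n : ℤ,
      (deg (h + n • f) : ℤ) = deg h + n * (deg (h + f) - deg h - deg f) + n ^ 2 * deg f ∧
      (deg (h + (n + 1) • f) : ℤ) =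
        deg h + (n + 1) * (deg (h + f) - deg h - deg f) + (n + 1) ^ 2 * deg f := fun n => by
    induction n using Int.induction_on with
    | zero => exact ⟨by simp, by rw [zero_add, one_zsmul]; ring⟩
    | succ n ih =>
      refine ⟨ih.2, ?_⟩
      have := par (n + 1)
      rw [add_sub_cancel_right, ih.1, ih.2] at this
      linear_combination this
    | pred n ih =>
      have := par (-n)
      rw [ih.1, ih.2] at this
      rw [sub_add_cancel]
      exact ⟨by linear_combination this, by rw [ih.1]⟩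
  exact (key r).1

theorem deg_plane (hΔ : U.Δ ≠ 0) {f : U.Point →+ U.Point} (hf : Alg0 f) (r s : ℤ) :
    (deg (r • AddMonoidHom.id U.Point + s • f) : ℤ) =
      r ^ 2 + (deg (AddMonoidHom.id U.Point + f) - 1 - deg f) * r * s + deg f * s ^ 2 := by
  have hV : Sep U := sep_of_c4 (Or.inr hΔ)
  have := infinite_pt hV
  have h1 := deg_line hΔ (hf.zsmul s) alg0_id r
  have h2 := deg_line hΔ alg0_id hf s
  rw [add_comm (s • f), add_comm (s • f), h2, deg_zsmul hV hΔ hf, deg_id hV] at h1
  rw [h1]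
  push_cast
  ring

end End1

open End1

theorem end1_thm : End1Stmt := by
  intro k _ _ _ U hΔ
  have hV : Sep U := sep_of_c4 (Or.inr hΔ)
  have := infinite_pt hV
  refine ⟨fun F hA a ha' => ?_, fun v n φ U' h _ _ hφ => ⟨⟨(ev_ne_zero U).mono fun P hP =>
    ptMap_ne h hP,
    (isRat_xc.pow (over_top U) _).congr (Eventually.of_forall fun P => by rw [xc_ptMap, hφ]),
    (isRat_yc.pow (over_top U) _).congr (Eventually.of_forall fun P => by rw [yc_ptMap, hφ])⟩,
    deg_eq hV ⟨X ^ v ^ n, 1, prim_two (fun x => Or.inr (by simp)) (by simp) (by simp)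
      (Or.inl (by simp)), one_ne_zero, Eventually.of_forall fun P => by simp [xc_ptMap, hφ]⟩⟩⟩
  have ha : ∀ r s : ℤ, (deg (r • AddMonoidHom.id U.Point + s • F) : ℤ) =
      r ^ 2 + a * r * s + deg F * s ^ 2 := fun r s => by
    rw [deg_plane hΔ hA, ha', add_comm F]
    ring
  generalize deg F = q at ha ⊢
  refine ⟨?_, ?_⟩
  · have h0 : (0 : ℤ) ≤ deg ((-a) • AddMonoidHom.id U.Point + (2 : ℤ) • F) := Int.natCast_nonneg _
    rw [ha] at h0
    linarith
  have al : ∀ r s : ℤ, Alg0 (r • AddMonoidHom.id U.Point + s • F) := fun r s =>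
    (alg0_id.zsmul r).add (hA.zsmul s)
  have hG := (al 0 1).comp (al a (-1))
  obtain ⟨t, ht⟩ : ∃ t : ℤ, ∀ m : ℤ, (deg (m • AddMonoidHom.id U.Point + (1 : ℤ) •
      ((0 : ℤ) • AddMonoidHom.id U.Point + (1 : ℤ) • F).comp
        (a • AddMonoidHom.id U.Point + (-1 : ℤ) • F)) : ℤ) = m ^ 2 + t * m + q ^ 2 :=
    ⟨_, fun m => by
      rw [deg_plane hΔ hG, deg_comp hV hV (al 0 1) (al a (-1)), Nat.cast_mul, ha, ha, mul_one]
      congr 1
      ring⟩
  have e : ∀ n : ℤ, (n ^ 2 - n * a) • AddMonoidHom.id U.Point + (1 : ℤ) •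
      ((0 : ℤ) • AddMonoidHom.id U.Point + (1 : ℤ) • F).comp
        (a • AddMonoidHom.id U.Point + (-1 : ℤ) • F) =
      ((-n) • AddMonoidHom.id U.Point + (1 : ℤ) • F).comp
        ((a - n) • AddMonoidHom.id U.Point + (-1 : ℤ) • F) := fun n => by
    ext P
    simp only [AddMonoidHom.comp_apply, AddMonoidHom.smul_apply, AddMonoidHom.id_apply,
      AddMonoidHom.add_apply, map_add, map_zsmul]
    module
  have t2 : t = 2 * q := by
    have h1 := ht ((|a| + 1) ^ 2 - (|a| + 1) * a)
    rw [e, deg_comp hV hV (al _ _) (al _ _), Nat.cast_mul, ha, ha] at h1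
    have h2 : (|a| + 1) ^ 2 - (|a| + 1) * a ≠ 0 := by
      have := abs_nonneg a
      have := le_abs_self a
      nlinarith
    generalize |a| + 1 = n at h1 h2
    exact mul_left_cancel₀ h2 (by linear_combination -h1)
  have h0 := ht (-q)
  have hz := ((alg0_id.zsmul (-q : ℤ)).add (hG.zsmul 1)).resolve_right fun H => by
    have := H.deg_pos hV
    rw [t2] at h0
    have h1 : (-q : ℤ) ^ 2 + 2 * q * -q + q ^ 2 = 0 := by ring
    omega
  intro P
  have := DFunLike.congr_fun hz P
  simp only [AddMonoidHom.comp_apply, AddMonoidHom.smul_apply, AddMonoidHom.id_apply,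
    AddMonoidHom.add_apply, map_add, map_zsmul, AddMonoidHom.zero_apply] at this
  rw [← neg_eq_zero, ← this, ← natCast_zsmul]
  module

end Pool.Agent.Lib.MP_d6ddbd_nt.K11
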