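import Pool.Agent.Lib.MP_d6ddbd_nt.K11.StP

/-!
The coordinate is equidistributed on the fibres at an inert prime.
-/

set_option autoImplicit false

open Pointwise
open Pool.Agent.Lib.MP_9177b7_ag.CM (sp mem_sp)

noncomputable section

namespace Pool.Agent.Lib.MP_d6ddbd_nt.K11

namespace Fib

variable {q : ℕ} [hq : Fact (q % 4 = 3)]

theorem conj_om : starRingEnd ℂ (om q) = 1 - om q := by
  simp only [om, map_div₀, map_add, map_mul, map_one, Complex.conj_I, Complex.conj_ofReal,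
    map_ofNat]
  ring

theorem mul_conj (s t s' t' : ℤ) : (s + t * om q) * starRingEnd ℂ (s' + t' * om q) =
    (s * s' + s * t' + t * t' * ((q + 1) / 4 : ℕ) : ℤ) + (t * s' - s * t' : ℤ) * om q := by
  have := om_sq hq.out
  rw [map_add, map_mul, map_intCast, map_intCast, conj_om]
  simp only [Int.cast_add, Int.cast_mul, Int.cast_sub]
  linear_combination -(t * t' : ℂ) * this

theorem nrm (s t : ℤ) :
    Complex.normSq (s + t * om q) = (s * s + s * t + t * t * ((q + 1) / 4 : ℕ) : ℤ) := by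
  have := mul_conj (q := q) s t s t
  rw [Complex.mul_conj, mul_comm t s, sub_self, Int.cast_zero, zero_mul, add_zero] at this
  exact_mod_cast this

omit hq in
theorem mem_OK {π : ℂ} : π ∈ OK q ↔ ∃ s t : ℤ, π = s + t * om q := by
  simp only [OK, mem_sp, mul_one, eq_comm]

theorem cong {n : ℕ} {s t : ℤ} :
    (∃ m : ℤ, (s + t * om q : ℂ) - m ∈ (n : ℂ) • OK q) ↔ (n : ℤ) ∣ t := by
  constructor
  · rintro ⟨m, h⟩
    obtain ⟨z, hz, e⟩ := (Submodule.mem_smul_pointwise_iff_exists _ _ _).1 h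
    obtain ⟨a, b, rfl⟩ := mem_OK.1 hz
    have := congrArg Complex.im e
    simp only [smul_eq_mul, Complex.mul_im, Complex.add_im, Complex.sub_im, Complex.intCast_im,
      Complex.intCast_re, Complex.natCast_im, Complex.natCast_re, zero_mul, add_zero, zero_add,
      sub_zero, ← mul_assoc] at this
    have q0 : q ≠ 0 := by have := hq.out; omega
    exact ⟨b, by exact_mod_cast (mul_right_cancel₀ (om_im q0).ne' this).symm⟩
  · rintro ⟨b, rfl⟩
    exact ⟨s, (Submodule.mem_smul_pointwise_iff_exists _ _ _).2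
      ⟨_, mem_OK.2 ⟨0, b, rfl⟩, by simp [mul_assoc]⟩⟩

theorem eqv (hK : KerStmt) (hp : q.Prime) (h44 : 44 < q) {n : ℕ} (n0 : n ≠ 0) {s t s' t' : ℤ}
    (h : Cop q n (s + t * om q)) (h' : Cop q n (s' + t' * om q)) :
    kp q n (s + t * om q) = kp q n (s' + t' * om q) ↔ (n : ℤ) ∣ t * s' - s * t' := by
  obtain ⟨k1, k2, -⟩ := hK q hp h44 n n0
  have c := (k2 _ h').1
  have e : kp q n (s' + t' * om q) * kp q n (starRingEnd ℂ (s' + t' * om q)) = 1 := by
    rw [← (k2 _ h').2.2.2.1 _ c, (k2 _ (k1 _ _ h' c)).2.2.2.2.1, mul_conj, cong, mul_comm, sub_self]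
    exact dvd_zero _
  rw [← cong (q := q) (s := s * s' + s * t' + t * t' * ((q + 1) / 4 : ℕ)), ← mul_conj,
    ← (k2 _ (k1 _ _ h c)).2.2.2.2.1, (k2 _ h).2.2.2.1 _ c, ← e, mul_left_inj]

variable {p c : ℕ}

/-- The first coordinate of the representatives. -/
def S (c : ℕ) : Option (ZMod p) → ℤ
  | none => 1
  | some j => 1 + c * j.val

/-- The second coordinate of the representatives. -/
def T : Option (ZMod p) → ℤ
  | none => 0
  | some _ => 1

omit hq in
theorem rep (hp : p.Prime) (h : ¬ p ∣ c) (v s : ℤ) :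
    ∃ o : Option (ZMod p), (p : ℤ) ∣ v * S c o - s * T o := by
  have := Fact.mk hp
  by_cases e : (p : ℤ) ∣ v
  · exact ⟨none, by simpa [S, T] using e⟩
  refine ⟨some ((s / v - 1) / c), (ZMod.intCast_zmod_eq_zero_iff_dvd _ _).1 ?_⟩
  have v0 : (v : ZMod p) ≠ 0 := mt (ZMod.intCast_zmod_eq_zero_iff_dvd _ _).1 e
  have c0 : (c : ZMod p) ≠ 0 := mt (ZMod.natCast_eq_zero_iff _ _).1 h
  simp only [S, T, Int.cast_sub, Int.cast_mul, Int.cast_add, Int.cast_natCast, Int.cast_one,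
    ZMod.natCast_zmod_val]
  field_simp
  ring

omit hq in
theorem inj (hp : p.Prime) (h : ¬ p ∣ c) {o o' : Option (ZMod p)}
    (e : (p : ℤ) ∣ T o * S c o' - S c o * T o') : o = o' := by
  have := Fact.mk hp
  have c0 : (c : ZMod p) ≠ 0 := mt (ZMod.natCast_eq_zero_iff _ _).1 h
  rw [← ZMod.intCast_zmod_eq_zero_iff_dvd] at e
  rcases o with _ | j <;> rcases o' with _ | j' <;> simp [S, T, c0, ← mul_sub, sub_eq_zero] at e ⊢
  exact e.symm

theorem cop (hp : p.Prime) (h : ¬ p ∣ c) (hs : ¬ Spl q p) (o : Option (ZMod p)) :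
    Cop q (p * c) (S c o + (c * T o : ℤ) * om q) := by
  have := Fact.mk hp
  refine ⟨mem_OK.2 ⟨_, _, rfl⟩, _, nrm _ _, ?_⟩
  rcases o with _ | j
  · simpa [S, T] using isCoprime_one_left
  rw [S, T, mul_one, Nat.cast_mul]
  generalize (j.val : ℤ) = i
  obtain ⟨N, hN⟩ : ∃ N, q + 1 = 4 * N := ⟨(q + 1) / 4, by have := hq.out; omega⟩
  rw [show (q + 1) / 4 = N by omega]
  refine .mul_right ((Nat.prime_iff_prime_int.1 hp).coprime_iff_not_dvd.2 fun e => hs ?_).symm
    ⟨1, -(2 * i + c * i * i + (1 + c * i) + c * N), by ring⟩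
  have c0 : (c : ZMod p) ≠ 0 := mt (ZMod.natCast_eq_zero_iff _ _).1 h
  have e1 := congrArg (Nat.cast : ℕ → ZMod p) hN
  rw [← ZMod.intCast_zmod_eq_zero_iff_dvd] at e
  push_cast at e e1
  refine ⟨(2 * (1 + c * i) + c) / c, ?_⟩
  field_simp
  linear_combination -4 * e - (c : ZMod p) ^ 2 * e1

end Fib

open Fib in
theorem fib_thm (hPic : PicStmt) (hKer : KerStmt) : FibStmt := by
  intro q _ hq h44 c p k g dl c0 hp _ _ pc hs _ hg
  have := Fact.mk hp
  have n0 : p * c ≠ 0 := mul_ne_zero hp.ne_zero c0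
  obtain ⟨odd, fin⟩ := hPic q hq h44
  have := (fin _ n0).1
  obtain ⟨-, k2, k3, k4, -⟩ := hKer q hq h44 _ n0
  obtain ⟨l1, l2, -⟩ := hKer q hq h44 p hp.ne_zero
  have kc := (hKer q hq h44 c c0).2.1
  have dc : c ∣ p * c := dvd_mul_left _ _
  have dp : p ∣ p * c := dvd_mul_right _ _
  let f : Option (ZMod p) → {y : Pic q (p * c) // res c y = 1} := fun o =>
    ⟨kp q (p * c) (S c o + (c * T o : ℤ) * om q), by
      obtain ⟨a, b⟩ := (k2 _ (cop hp pc hs o)).2.2.2.2.2.1 c dc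
      rw [b, (kc _ a).2.2.2.2.1, cong]
      exact dvd_mul_right _ _⟩
  have c1 : (c : ℤ) ≠ 0 := Nat.cast_ne_zero.2 c0
  have hf : Function.Bijective f := by
    refine ⟨fun o o' e => inj hp pc ((mul_dvd_mul_iff_right c1).1 ?_), fun ⟨y, hy⟩ => ?_⟩
    · convert (eqv hKer hq h44 n0 (cop hp pc hs o) (cop hp pc hs o')).1 (congrArg Subtype.val e)
        using 1
      · rfl
      · simp
      · ring
    · obtain ⟨π, h1, rfl⟩ := (k3 y).1 (by rw [← res_res dc (one_dvd c), hy, map_one])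
      obtain ⟨s, t, rfl⟩ := mem_OK.1 h1.1
      obtain ⟨a, b⟩ := (k2 _ h1).2.2.2.2.2.1 c dc
      rw [b, (kc _ a).2.2.2.2.1, cong] at hy
      obtain ⟨v, rfl⟩ := hy
      obtain ⟨o, ho⟩ := rep hp pc v s
      refine ⟨o, Subtype.ext ((eqv hKer hq h44 n0 h1 (cop hp pc hs o)).2 ?_).symm⟩
      convert mul_dvd_mul_right ho c using 1
      · rfl
      · simp
      · ring
  have gk : ∀ π, Cop q p π → g (kp q p π) = hh q * dl π := fun π h => by
    have : ∀ m : ℕ, Cop q p (π ^ (m + 1)) ∧ kp q p π ^ (m + 1) = kp q p (π ^ (m + 1)) ∧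
        dl (π ^ (m + 1)) = (m + 1 : ℕ) * dl π := fun m => by
      induction m with
      | zero => simpa using h
      | succ m ih =>
        rw [pow_succ π, pow_succ (kp q p π), ih.2.1, (l2 _ ih.1).2.2.2.1 _ h, hg.dl_mul _ _ ih.1 h,
          ih.2.2, Nat.cast_succ (m + 1), add_one_mul]
        exact ⟨l1 _ _ ih.1 h, rfl, rfl⟩
    obtain ⟨m, hm⟩ : ∃ m, hh q = m + 1 := ⟨hh q - 1, by have := odd.pos; omega⟩
    rw [hg.g_eq _ _ (this m).1 (hm ▸ (this m).2.1), (this m).2.2, hm]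
  have sur : ∀ (x : Pic q c) (a : ZMod (2 ^ k)),
      ∃ y : Pic q (p * c), res c y = x ∧ g (res p y) = a := fun x a => by
    obtain ⟨y, rfl⟩ := k4 c dc x
    obtain ⟨u, hu⟩ := (ZMod.isUnit_iff_coprime (hh q) (2 ^ k)).2
      (Nat.Coprime.pow_right k (Nat.coprime_two_right.2 odd))
    obtain ⟨π, h1, h2⟩ := hg.surj (u⁻¹ * (a - g (res p y)))
    obtain ⟨s, t, rfl⟩ := mem_OK.1 h1.1
    obtain ⟨o, ho⟩ := rep hp pc t (s * c)
    obtain ⟨a1, a2⟩ := (k2 _ (cop hp pc hs o)).2.2.2.2.2.1 p dp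
    refine ⟨(f o).1 * y, by rw [map_mul, (f o).2, one_mul], ?_⟩
    rw [map_mul, hg.g_mul, a2, ← (eqv hKer hq h44 hp.ne_zero h1 a1).2 (mul_assoc s _ _ ▸ ho),
      gk _ h1, h2, ← hu, Units.mul_inv_cancel_left, sub_add_cancel]
  have e : ∀ (x : Pic q c) (a : ZMod (2 ^ k)),
      Nat.card {y : Pic q (p * c) // res c y = 1 ∧ g (res p y) = 0} =
        Nat.card {y : Pic q (p * c) // res c y = x ∧ g (res p y) = a} := fun x a => by
    obtain ⟨y, rfl, rfl⟩ := sur x a
    exact Nat.card_congr ((Equiv.mulLeft y).subtypeEquiv fun z => by simp [hg.g_mul])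
  intro x a
  have t := Nat.card_congr (Equiv.sigmaFiberEquiv
    fun y : {y : Pic q (p * c) // res c y = 1} => g (res p y.1))
  rw [← Nat.card_eq_of_bijective f hf, Nat.card_sigma, Finset.sum_congr rfl fun b _ =>
    (Nat.card_congr (Equiv.subtypeSubtypeEquivSubtypeInter _ fun y => g (res p y) = b)).trans
      ((e 1 b).symm.trans (e x a))] at t
  simp only [Finset.sum_const, Finset.card_univ, ZMod.card, smul_eq_mul, Nat.card_eq_fintype_card,
    Fintype.card_option] at t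
  rw [← t, Nat.mul_div_cancel_left _ (by positivity)]

end Pool.Agent.Lib.MP_d6ddbd_nt.K11
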