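import Pool.Agent.Lib.MP_d6ddbd_nt.K11.Stmt

/-!
The bottom class: the point behind it has infinite order, and its local behaviour at `q`.
-/

set_option autoImplicit false

open Pool.Agent.Lib.MP_02f36d_nt (xc yc xc_neg yc_neg pt_ext)

namespace Pool.Agent.Lib.MP_d6ddbd_nt.K11

namespace Fin

variable {q : ℕ} {d : ℤ} {ξ : G → Pt} {S : Pt} {χ : G → ℤ}

theorem sm_add (σ : G) (P Q : Pt) : σ • (P + Q) = σ • P + σ • Q := smul_add σ P Q

theorem sm_n (σ : G) (n : ℕ) (P : Pt) : σ • n • P = n • σ • P :=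
  map_nsmul (DistribSMul.toAddMonoidHom Pt σ) n P

theorem sm_z (σ : G) (n : ℤ) (P : Pt) : σ • n • P = n • σ • P :=
  map_zsmul (DistribSMul.toAddMonoidHom Pt σ) n P

theorem sgn_two {T : Pt} (h : 2 • T = 0) {c : ℤ} (hc : c = 1 ∨ c = -1) : c • T = T := by
  rcases hc with rfl | rfl
  · exact one_zsmul T
  · rw [neg_zsmul, one_zsmul, neg_eq_iff_add_eq_zero, ← two_nsmul, h]

theorem sgn_sq {c : ℤ} (hc : c = 1 ∨ c = -1) : c * c = 1 := by
  rcases hc with rfl | rfl <;> rfl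

/-- An automorphism of the form `ω * ω` that fixes no point of order two. -/
theorem ex_w (hR : R1Stmt) : ∃ ω : G, ∀ T : Pt, 2 • T = 0 → ω • ω • T = T → T = 0 := by
  obtain ⟨-, -, -, h2, ⟨e₁, e₂, e₃, hf, n12, n13, n23, -, -, -, ⟨ω, w1, w2, w3⟩, -⟩, -⟩ := hR
  refine ⟨ω, fun T hT h => ((h2 T).1 hT).resolve_right fun ⟨_, h0⟩ => ?_⟩
  have := congrArg xc h
  rw [xc_smul, xc_smul] at this
  rw [hf, mul_eq_zero, mul_eq_zero, sub_eq_zero, sub_eq_zero, sub_eq_zero] at h0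
  rcases h0 with (h0 | h0) | h0 <;> rw [h0] at this
  · exact n13 (by rw [← this, w1, w2])
  · exact n12 (by rw [← this, w2, w3])
  · exact n23 (by rw [← this, w3, w1])

theorem nontor (hR : R1Stmt) (hb : Bot q d ξ S χ) (hc : ¬ Cob ξ) {n : ℕ} (hn : n ≠ 0) :
    n • 2 • S ≠ 0 := fun h => by
  obtain ⟨ω, hω⟩ := ex_w hR
  obtain ⟨-, h1, -, -, h2⟩ := hb
  have fx : ω • ω • 2 • S = 2 • S := by
    rw [(h2 ω).1, sm_z ω (χ ω), (h2 ω).1, ← mul_zsmul, sgn_sq (h1 ω), one_zsmul]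
  obtain ⟨k, m, ⟨j, rfl⟩, rfl⟩ := Nat.exists_eq_two_pow_mul_odd hn
  have key : ∀ (k : ℕ) (P : Pt), ω • ω • P = P → 2 ^ k • P = 0 → P = 0 := fun k => by
    induction k with
    | zero => simp +contextual
    | succ k ih =>
      intro P a b
      refine hω P (ih _ ?_ (by rw [← mul_nsmul', ← pow_succ, b])) a
      rw [sm_n, sm_n, a]
  have h3 := key k ((2 * j + 1) • 2 • S)
    (by rw [sm_n ω (2 * j + 1), sm_n ω (2 * j + 1), fx]) (by rw [← mul_nsmul', h])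
  have h4 : 2 • (S + j • 2 • S) = 0 := by
    rw [← h3]
    module
  refine hc ⟨_, h4, fun σ => ?_⟩
  rw [(h2 σ).2, sm_add, sm_n σ j, (h2 σ).1]
  have := sgn_two h4 (h1 σ)
  generalize σ • S = P
  linear_combination (norm := module) -this

theorem chi_mul (hR : R1Stmt) (hb : Bot q d ξ S χ) (hc : ¬ Cob ξ) (σ τ : G) :
    χ (σ * τ) = χ σ * χ τ := by
  have h2 := hb.2.2.2.2
  have e : χ (σ * τ) • 2 • S = (χ σ * χ τ) • 2 • S := by
    rw [← (h2 _).1, mul_smul σ, (h2 τ).1, sm_z σ (χ τ), (h2 σ).1, ← mul_zsmul, mul_comm]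
  by_contra ne
  refine nontor hR hb hc (Int.natAbs_ne_zero.2 (sub_ne_zero.2 ne)) ?_
  rw [natAbs_nsmul_eq_zero, sub_zsmul, e, add_neg_cancel]

theorem cj_om (q : ℕ) : cj (2 * om q - 1) = -(2 * om q - 1) := by
  have : 2 * om q - 1 = Complex.I * Real.sqrt q := by
    rw [om]
    ring
  rw [this, cj_apply, map_mul, Complex.conj_I, Complex.conj_ofReal, neg_mul]

theorem sq_or {s : ℂ} {c : ℤ} (h : s ^ 2 = c) (σ : G) : σ s = s ∨ σ s = -s :=
  sq_eq_sq_iff_eq_or_eq_neg.1 (by rw [← map_pow, h, map_intCast])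

theorem om_fix {σ : G} (h : σ (2 * om q - 1) = 2 * om q - 1) : σ (om q) = om q := by
  rw [map_sub, map_mul, map_ofNat, map_one] at h
  linear_combination h / 2

theorem om_sqi (q : ℕ) : (2 * om q - 1) ^ 2 = (-(q : ℤ) : ℤ) := by
  rw [om_sq']
  simp

theorem cj_sqrt (hd : d % 4 = 1) {s : ℂ} (h : s ^ 2 = d) : cj s = ZMod.χ₄ d.natAbs * s := by
  have a := congrArg Complex.re h
  have b := congrArg Complex.im h
  simp only [sq, Complex.mul_re, Complex.mul_im, Complex.intCast_re, Complex.intCast_im] at a b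
  have c : s.re = 0 ∨ s.im = 0 := mul_eq_zero.1 (by linear_combination b / 2)
  rcases lt_or_ge 0 d with p | p
  · have p' : (0 : ℝ) < d := by exact_mod_cast p
    have : s.im = 0 := c.resolve_left fun z => by nlinarith [mul_self_nonneg s.im]
    rw [ZMod.χ₄_nat_one_mod_four (by omega)]
    apply Complex.ext <;> simp [this]
  · have p' : (d : ℝ) < 0 := by exact_mod_cast (by omega : d < 0)
    have : s.re = 0 := c.resolve_right fun z => by nlinarith [mul_self_nonneg s.re]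
    rw [ZMod.χ₄_nat_three_mod_four (by omega)]
    apply Complex.ext <;> simp [this]

/-- The action on `√d` of the automorphisms that move `√-q`. -/
theorem mov (hR : R1Stmt) (hb : Bot q d ξ S χ) (hc : ¬ Cob ξ) (hd : d % 4 = 1) {s : ℂ}
    (h : s ^ 2 = d) {σ : G} (hσ : σ (2 * om q - 1) = -(2 * om q - 1)) :
    σ s = -jacobiSym (-11) d.natAbs * χ σ * s := by
  have a := hb.2.2.1 (cj * σ) s h (om_fix (by
    change cj (σ _) = _
    rw [hσ, map_neg, cj_om, neg_neg]))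
  have b : σ s = cj ((cj * σ) s) := by
    change _ = (cj * cj) (σ s)
    rw [cj_mul_cj]
    rfl
  rw [b, a, map_mul, map_intCast, cj_sqrt hd h, chi_mul hR hb hc, hb.2.2.2.1,
    jacobiSym.neg 11 (Int.natAbs_odd.2 (Int.odd_iff.2 (by omega)))]
  push_cast
  ring

theorem inf (hV : V4Stmt) (hR : R1Stmt) (hb : Bot q d ξ S χ) (hc : ¬ Cob ξ) {s : ℂ} (s0 : s ≠ 0)
    (h : s ^ 2 = d) (hs : ∀ σ : G, σ s = χ σ * s) : (Tw d).Infinite := by
  have nt := fun n : ℕ => nontor hR hb hc n.succ_ne_zero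
  have : ∀ n : ℕ, ∃ x y : ℚ, (x : ℂ) = xc ((n + 1) • 2 • S) ∧
      (y : ℂ) = yc ((n + 1) • 2 • S) / s := fun n => by
    have e : ∀ σ : G, σ • (n + 1) • 2 • S = χ σ • (n + 1) • 2 • S := fun σ => by
      rw [sm_n σ (n + 1), (hb.2.2.2.2 σ).1, smul_comm]
    obtain ⟨x, hx⟩ := hV.2.2.1 ℚ (algebraMap ℚ ℂ) (xc ((n + 1) • 2 • S)) fun σ _ => by
      rw [← xc_smul, e]
      rcases hb.2.1 σ with c | c <;> rw [c]
      · rw [one_zsmul]
      · rw [neg_zsmul, one_zsmul, xc_neg]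
    obtain ⟨y, hy⟩ := hV.2.2.1 ℚ (algebraMap ℚ ℂ) (yc ((n + 1) • 2 • S) / s) fun σ _ => by
      rw [map_div₀, ← yc_smul, e, hs]
      rcases hb.2.1 σ with c | c <;> rw [c]
      · simp
      · rw [neg_zsmul, one_zsmul, yc_neg (nt n)]
        simp [EE, neg_div_neg_eq]
        rfl
    exact ⟨x, y, hx, hy⟩
  choose x y hx hy using this
  refine Set.infinite_of_injective_forall_mem (f := fun n => (x n, y n)) (fun n m e => ?_)
    fun n => ?_
  · have e' : (n + 1) • 2 • S = (m + 1) • 2 • S := pt_ext (nt n) (nt m)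
      (by rw [← hx, ← hx, (Prod.mk.inj e).1])
      ((div_left_inj' s0).1 (by rw [← hy, ← hy, (Prod.mk.inj e).2]))
    by_contra ne
    refine nontor hR hb hc (n := ((n : ℤ) - m).natAbs) (by omega) ?_
    rw [natAbs_nsmul_eq_zero]
    linear_combination (norm := module) e'
  · have := hR.2.1 _ (nt n)
    rw [← hx, ← (eq_div_iff s0).1 (hy n), mul_pow, h, fc] at this
    have t : (((d : ℚ) * y n ^ 2 : ℚ) : ℂ) = (x n ^ 3 - 4 * x n ^ 2 - 160 * x n - 1264 : ℚ) := by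
      push_cast
      linear_combination this
    exact_mod_cast t

theorem val_int {O : ValuationSubring ℂ} (hq : q.Prime) (hO : Ov O q) {c : ℤ}
    (hc : ¬ (q : ℤ) ∣ c) : O.valuation c = 1 := by
  have le : ∀ n : ℤ, O.valuation n ≤ 1 := fun n => (O.valuation_le_one_iff _).2 (intCast_mem O n)
  refine (le c).eq_or_lt.resolve_right fun lt => ?_
  obtain ⟨a, b, e⟩ := (Nat.prime_iff_prime_int.1 hq).irreducible.coprime_iff_not_dvd.2 hc
  have e' : (1 : ℂ) = a * q + b * c := by exact_mod_cast e.symm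
  have : O.valuation 1 < 1 := by
    rw [e']
    refine Valuation.map_add_lt _ ?_ ?_ <;> rw [map_mul]
    · exact (mul_le_of_le_one_left' (le a)).trans_lt (O.mem_nonunits_iff.1 hO)
    · exact (mul_le_of_le_one_left' (le b)).trans_lt lt
  simp at this

theorem ine_fix (hV : V2Stmt) {O : ValuationSubring ℂ} (hq : q.Prime) (h2 : q ≠ 2) (hO : Ov O q)
    (hd : ¬ (q : ℤ) ∣ d) {s : ℂ} (h : s ^ 2 = d) {σ : G} (hσ : Frob O 1 σ) : σ s = s := by
  have v : O.valuation s = 1 :=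
    (pow_eq_one_iff.1 (by rw [← map_pow, h, val_int hq hO hd])).resolve_right two_ne_zero
  have v2 := val_int hq hO (c := 2) fun e =>
    h2 ((Nat.prime_dvd_prime_iff_eq hq Nat.prime_two).1 (by exact_mod_cast e))
  refine hV.2.2.2.2.2.1 O σ s (-s) hσ ?_ ((O.valuation_le_one_iff _).1 v.le) (sq_or h σ) ?_
  · exact IsAlgebraic.of_pow two_pos (h ▸ isAlgebraic_intCast d)
  · rw [O.mem_nonunits_iff, sub_neg_eq_add, ← two_mul, map_mul, v, mul_one]
    exact fun l => l.ne (by simpa using v2)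

end Fin

open K11.Fin in
theorem fin_thm (hV : VStmt) (hR : RStmt) (hKum : KumStmt) (hLink1 : Link1Stmt) : FinStmt := by
  intro L _ _ θ hθ q d α ξ S χ hq a0 hN hns hξ hk hb
  have hc : ¬ Cob ξ := fun h => hns (((hKum L θ hθ).2 α ξ a0 hξ hk).2 h)
  have pr := hq.qf.pr
  have big := hq.qf.big
  have m4 := hq.qf.m4
  have d4 := hq.fam.m4
  obtain ⟨s, hs⟩ := IsAlgClosed.exists_pow_nat_eq (d : ℂ) two_pos
  have s0 : s ≠ 0 := fun e => by
    have : d = 0 := by exact_mod_cast (by rw [← hs, e]; simp : (d : ℂ) = 0)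
    omega
  obtain ⟨O, hO⟩ := hV.1.1 q pr
  obtain ⟨φ, hφ⟩ := hV.1.2.2.2.2 q O pr hO
  obtain ⟨-, l2, l3⟩ := hLink1 L θ hθ
  obtain ⟨σ, hσ, hσ'⟩ := l2 q O _ _ pr hO (om_sqi q)
    ((Nat.prime_iff_prime_int.1 pr).neg.squarefree) (dvd_neg.2 dvd_rfl)
  have ps : GF.pst q = -q := by
    rw [GF.pst, Odd.neg_one_pow (Nat.odd_iff.2 (by omega)), neg_one_mul]
  obtain ⟨k1, k2⟩ := (l3 α ξ a0 hN hξ hk).2 q O σ φ _ pr (by omega) (by omega) hq.ty hO hσ hφ
    (ps ▸ om_sqi q) hσ'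
  obtain ⟨-, -, r3, r4, r5, r6, -, r8⟩ := hR.2 q O pr (by omega) (by omega) hO
  have fx := ine_fix hV.2.1 pr (by omega) hO hq.nd hs hσ
  have mv := fun τ => mov hR.1 hb hc d4 hs (σ := τ)
  have c1 : -jacobiSym (-11) d.natAbs * χ σ = 1 := by
    have := mul_right_cancel₀ s0 ((mv σ hσ').symm.trans (fx.trans (one_mul s).symm))
    exact_mod_cast this
  have z : ∀ τ, ξ τ ∈ E1 O → ξ τ = 0 := fun τ => r5 1 _ (hξ.two τ)
  refine ⟨fun hJ => ⟨inf hV.2.2.2 hR.1 hb hc s0 hs fun τ => ?_, k1.2 (z _ ?_)⟩,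
    fun hJ h => k2.2 (z _ ?_)⟩
  · rcases sq_or (om_sqi q) τ with e | e
    · exact hb.2.2.1 τ s hs (om_fix e)
    · rw [mv τ e, hJ]
      simp
  · rw [(hb.2.2.2.2 σ).2, show χ σ = 1 by simpa [hJ] using c1, one_zsmul]
    exact r3 σ S hσ hb.1
  · have c2 : χ σ = -1 := (hb.2.1 σ).resolve_left fun e => hJ (by rw [e] at c1; omega)
    have e1 := (hb.2.2.2.2 σ).2
    rw [k1.1 h, c2] at e1
    obtain ⟨T, t1, t2⟩ := r6 1 S (by
      have : 2 ^ 1 • S = -(σ • S - S) := by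
        generalize σ • S = P at e1
        linear_combination (norm := module) -e1
      exact this ▸ neg_mem (r3 σ S hσ hb.1))
    obtain ⟨⟨g0, g1, g2, g3, g4, -⟩, -⟩ := hR.1
    have al : AlgP (S - T) := sub_eq_add_neg S T ▸ g1 _ _ hb.1 (g2 _ (g4 _ (t1.symm ▸ g0)))
    have t3 := (r4 q φ _ hφ pr.ne_zero (g3 φ _ al)).2 ((r4 q φ _ hφ pr.ne_zero al).2 t2)
    have t4 := sub_mem t3 t2
    rw [smul_sub, smul_sub, ((r8 φ hφ).2.1.1 hq.ty).1 T t1, sub_sub_sub_cancel_right] at t4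
    rwa [(hb.2.2.2.2 _).2, chi_mul hR.1 hb hc, sgn_sq (hb.2.1 φ), one_zsmul, mul_smul]

end Pool.Agent.Lib.MP_d6ddbd_nt.K11
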