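import Pool.Agent.Lib.MP_d6ddbd_nt.K11.StG

/-!
The local lemma of complex multiplication.
-/

set_option autoImplicit false

open Pointwise WeierstrassCurve IsLocalRing Filter
open Pool.Agent.Lib.MP_02f36d_nt
open Pool.Agent.Lib.MP_9177b7_ag.CM (IsLat sp Conj jL hyp mem_smul_iff mem_sp isLat_ord smul_ord_le
  int_of_im conj_omega left_mem_sp)
open scoped Classical

noncomputable section

namespace Pool.Agent.Lib.MP_d6ddbd_nt.K11

namespace G1

/-- The place of a valuation ring. -/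
def pl (O : ValuationSubring ℂ) : Place ℂ (ResidueField O) :=
  ⟨O, residue O, fun x h => (residue_ne_zero_iff_isUnit x).1 h⟩

theorem sp0 {O : ValuationSubring ℂ} {x : ℂ} : Sp (pl O) x 0 ↔ x ∈ O.nonunits := by
  rw [ValuationSubring.mem_nonunits_iff_exists_mem_maximalIdeal]
  exact exists_congr fun h => residue_eq_zero_iff _

theorem exRed {k : Type} [Field k] {p : Place ℂ k} {W : Affine ℂ} {U : Affine k} (s : SpW p W U)
    (hU : U.Δ ≠ 0) (P : W.Point) : ∃ a : U.Point, Red p P a := by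
  by_cases a : P = 0 ∨ xc P ∉ p.A
  · exact ⟨0, Or.inl ⟨rfl, a⟩⟩
  push Not at a
  have b := sp_of_mem a.2
  have c := sp_of_mem (s.y_mem a.1 a.2)
  have ns := (Affine.equation_iff_nonsingular_of_Δ_ne_zero hU).1 (s.equation a.1 b c)
  exact ⟨.some _ _ ns, Or.inr ⟨a.1, Affine.Point.some_ne_zero ns, b, c⟩⟩

theorem mem_inv {L : Submodule ℤ ℂ} {c x : ℂ} (hc : c ≠ 0) : x ∈ c⁻¹ • L ↔ c * x ∈ L := by
  rw [mem_smul_iff]
  refine ⟨?_, fun h => ⟨_, h, inv_mul_cancel_left₀ hc x⟩⟩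
  rintro ⟨y, hy, rfl⟩
  rwa [mul_inv_cancel_left₀ hc]

/-- The description of the conjugate lattice. -/
theorem last {A : Type} [AddCommGroup A] {Λ L L' : Submodule ℤ ℂ} {u : ℂ →+ A} {s : A → A}
    {μ π m : ℂ} (hμ : μ ≠ 0) (hm : m ≠ 0) (ker : ∀ z, u z = 0 ↔ z ∈ Λ) (le : L ≤ Λ)
    (sur : ∀ z', ∃ z, s (u z) = u z') (h1 : ∀ z, m * z ∈ Λ → s (u z) = u (π * z))
    (h2 : ∀ z z', s (u z) = u z' → (m * z ∈ L ↔ m * (μ * z') ∈ L')) :
    L' = μ • (π • L ⊔ m • Λ) := by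
  ext w
  rw [mem_smul_iff]
  constructor
  · intro hw
    obtain ⟨z, hz⟩ := sur (μ⁻¹ * (m⁻¹ * w))
    have a := (h2 _ _ hz).2 (by rwa [mul_inv_cancel_left₀ hμ, mul_inv_cancel_left₀ hm])
    rw [h1 z (le a), eq_comm, ← sub_eq_zero, ← map_sub, ker] at hz
    refine ⟨_, Submodule.add_mem_sup (mem_smul_iff.2 ⟨_, a, rfl⟩) (mem_smul_iff.2 ⟨_, hz, rfl⟩), ?_⟩
    field_simp
    ring
  · rintro ⟨y, hy, rfl⟩
    obtain ⟨y₁, a, y₂, b, rfl⟩ := Submodule.mem_sup.1 hy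
    obtain ⟨x, hx, rfl⟩ := mem_smul_iff.1 a
    obtain ⟨l, hl, rfl⟩ := mem_smul_iff.1 b
    have e : m * (m⁻¹ * x) ∈ L := by rwa [mul_inv_cancel_left₀ hm]
    have := (h2 _ (π * (m⁻¹ * x) + l) (by
      rw [h1 _ (le e), map_add, (ker l).2 hl, add_zero])).1 e
    convert this using 1
    field_simp

end G1

open G1 in
theorem g1_thm (hV : VStmt) (hUni : UniStmt) (hModel : ModelStmt) (hRed : RedStmt) (hTor : TorStmt)
    (hEnd1 : End1Stmt) (hEnd2 : End2Stmt) : G1Stmt := by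
  intro q v n O σ μ hq q44 q4 hv ho hσ hom hμ hc
  have him : (om q).im ≠ 0 := (om_im hq.ne_zero).ne'
  have hω : om q ^ 2 = (1 : ℤ) * om q - (((q + 1) / 4 : ℕ) : ℤ) := by
    rw [om_sq q4, Int.cast_one, one_mul]
  have hΛ : IsLat (OK q) := isLat_ord him
  have hle : om q • OK q ≤ OK q := smul_ord_le hω
  have omm : ∀ {m z : ℂ}, m * z ∈ OK q → m * (om q * z) ∈ OK q := fun {m z} h =>
    hle (mem_smul_iff.2 ⟨_, h, by ring⟩)
  obtain ⟨ja, jO⟩ := hRed.2.1 q O _ q4 hΛ hle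
  obtain ⟨W, U, aW, hW, hj, sW, gd, -⟩ := hModel _ (pl O) _ ja
  have hU := (gd jO).1
  obtain ⟨u, hu⟩ := hUni _ W hΛ hW hj
  have := isAlgClosed_residue O
  have := Fact.mk hv
  have : CharP (ResidueField O) v := (CharP.charP_iff_prime_eq_zero hv).2
    ((sp_nat v).unique (sp0.2 ho))
  have hs : Function.Surjective (pl O).ρ := residue_surjective
  let F := iterateFrobenius (ResidueField O) v n
  have cp : ∀ {x c}, IsAlgebraic ℚ x → Sp (pl O) x c → Sp (pl O) (σ x) (F c) := fun {x c} a s =>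
    ((sp0.2 (hσ x a s.mem).2).add (s.pow _)).congr (sub_add_cancel _ _) (zero_add _)
  have m₁ : Mod (pl O) W U := ⟨hW, sW, Or.inr hU⟩
  have hU' : (U.map F).Δ ≠ 0 := by rw [map_Δ]; exact (map_ne_zero F).2 hU
  have m₂ : Mod (pl O) (W.map (σ : ℂ →+* ℂ)) (U.map F) :=
    ⟨by rw [map_Δ]; exact (map_ne_zero _).2 hW,
      ⟨cp aW.1 sW.h1, cp aW.2.1 sW.h2, cp aW.2.2.1 sW.h3, cp aW.2.2.2.1 sW.h4, cp aW.2.2.2.2 sW.h6⟩,
      Or.inr hU'⟩
  have sU : Sep U := sep_of_c4 (Or.inr hU)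
  have sU' : Sep (U.map F) := sep_of_c4 (Or.inr hU')
  have := infinite_pt sU
  obtain ⟨c, c', ac, ac', cc, lin, lst⟩ := hu.gal σ μ _ rfl hμ hc
  obtain ⟨g, ag, dg⟩ := hRed.1 _ _ hs _ _ _ _ m₂ m₁ c ac
  obtain ⟨g', ag', dg'⟩ := hRed.1 _ _ hs _ _ _ _ m₁ m₂ c' ac'
  have d1 : deg g = 1 := by
    have e : g.comp g' = AddMonoidHom.id _ := AddMonoidHom.ext fun a => by
      obtain ⟨P, hP⟩ := exists_lift hs hW sW a
      have := dg _ _ (dg' _ _ hP)
      rw [cc] at this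
      exact this.unique hP
    have := deg_comp sU' sU ag ag'
    rw [e, deg_id sU] at this
    exact Nat.eq_one_of_mul_eq_one_right this.symm
  obtain ⟨aF, dF⟩ := (hEnd1 _ U hU).2 v n F _ rfl hv (CharP.cast_eq_zero _ v) fun _ => rfl
  have aπ : Alg0 (g.comp (ptMap F rfl)) := ag.comp (Or.inr aF)
  have dπ : deg (g.comp (ptMap F rfl)) = v ^ n := by
    rw [deg_comp sU' sU ag (Or.inr aF), d1, dF, one_mul]
  have rs : ∀ (m : ℕ) (z : ℂ) (a : U.Point), m ≠ 0 → m * z ∈ OK q → Red (pl O) (u z) a →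
      Red (pl O) (c (ptMap (σ : ℂ →+* ℂ) rfl (u z))) (g.comp (ptMap F rfl) a) := by
    intro m z a m0 hz r
    obtain ⟨ax, ay⟩ := hRed.2.2 _ W u m z hΛ aW hu m0 hz
    refine dg _ _ ?_
    rcases r with ⟨rfl, e | r⟩ | ⟨a, b, c, d⟩
    · rw [e, map_zero, map_zero]; exact red_zero
    · exact Or.inl ⟨map_zero _, Or.inr (by
        rw [xc_ptMap]
        exact fun h => r ((hV.2.1.2.1 O _ σ _ hσ (pow_ne_zero n hv.ne_zero) ax).1.1 h))⟩
    · exact Or.inr ⟨ptMap_ne _ a, ptMap_ne _ b, by rw [xc_ptMap, xc_ptMap]; exact cp ax c,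
        by rw [yc_ptMap, yc_ptMap]; exact cp ay d⟩
  generalize g.comp (ptMap F rfl) = ϖ at aπ dπ rs
  obtain ⟨f, af, hf⟩ := hu.mul (om q) (fun e => him (by rw [e]; rfl)) hle
  obtain ⟨α, aα, dα⟩ := hRed.1 _ _ hs _ _ _ _ m₁ m₁ f af
  have radd : ∀ {P Q : W.Point} {a b : U.Point}, Red (pl O) P a → Red (pl O) Q b →
      Red (pl O) (P + Q) (a + b) := fun r r' => r.add hs hW sU sW r'
  have tor : ∀ (m : ℕ) (P Q : W.Point) (a : U.Point), ¬v ∣ m → m • P = 0 → m • Q = 0 →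
      Red (pl O) P a → Red (pl O) Q a → P = Q := fun m P Q a hm p0 q0 r r' => by
    have := radd r (r'.neg sW)
    rw [add_neg_cancel, ← sub_eq_add_neg] at this
    exact sub_eq_zero.1 (hTor _ _ hs W U hW hU sW m _
      (fun e => hm ((CharP.cast_eq_zero_iff _ v m).1 e)) (by rw [nsmul_sub, p0, q0, sub_zero]) this)
  have ut : ∀ (m : ℕ) (z : ℂ), m * z ∈ OK q → m • u z = 0 := fun m z h => by
    rw [← map_nsmul, hu.ker, nsmul_eq_mul]
    exact h
  have αα : ∀ a, α (α a) = α a - ((q + 1) / 4) • a := fun a => by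
    obtain ⟨P, hP⟩ := exists_lift hs hW sW a
    obtain ⟨z, rfl⟩ := hu.surj P
    have r1 := dα _ _ (dα _ _ hP)
    have r2 := radd (dα _ _ hP) (hP.zsmul hs m₁ (-(((q + 1) / 4 : ℕ) : ℤ)))
    rw [hf, hf] at r1
    rw [hf, ← map_zsmul, ← map_add, neg_zsmul a, natCast_zsmul, ← sub_eq_add_neg] at r2
    refine Red.unique r1 ?_
    convert r2 using 2
    rw [zsmul_eq_mul, Int.cast_neg]
    linear_combination z * om_sq q4
  have cm : ∀ a, ϖ (α a) = α (ϖ a) := by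
    have k : ∀ (m : ℕ) (z : ℂ) (a : U.Point), m ≠ 0 → m * z ∈ OK q → Red (pl O) (u z) a →
        (ϖ.comp α - α.comp ϖ) a = 0 := fun m z a m0 hz r => by
      obtain ⟨z', e⟩ := hu.surj (c (ptMap (σ : ℂ →+* ℂ) rfl (u z)))
      have r1 := rs m _ _ m0 (omm hz) (hf z ▸ dα _ _ r)
      have r2 := dα _ _ (rs m z a m0 hz r)
      rw [lin _ z z' hle hom e.symm] at r1
      rw [← e, hf] at r2
      exact sub_eq_zero.2 (r1.unique r2)
    rcases (aπ.comp aα).sub (aα.comp aπ) with e | e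
    · exact fun a => sub_eq_zero.1 (DFunLike.congr_fun e a)
    exfalso
    have fin : Finite (ϖ.comp α - α.comp ϖ).ker :=
      Set.Finite.subset (eventually_cofinite.1 e.ne) fun a h => not_not.2 h
    obtain ⟨D, hD⟩ : ∃ D, D = Nat.card (ϖ.comp α - α.comp ϖ).ker := ⟨_, rfl⟩
    have D0 : 0 < D := hD ▸ Nat.card_pos
    have m0 : ((v * D + 1 : ℕ) : ℂ) ≠ 0 := Nat.cast_ne_zero.2 (Nat.succ_ne_zero _)
    have h1 : ((v * D + 1 : ℕ) : ℂ) * ((v * D + 1 : ℕ) : ℂ)⁻¹ ∈ OK q := by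
      rw [mul_inv_cancel₀ m0]; exact left_mem_sp _ _
    obtain ⟨a, r⟩ := exRed sW hU (u ((v * D + 1 : ℕ) : ℂ)⁻¹)
    have a0 : D • a = 0 := by
      have := card_nsmul_eq_zero'
        (x := (⟨a, k _ _ a (Nat.succ_ne_zero _) h1 r⟩ : (ϖ.comp α - α.comp ϖ).ker))
      rw [← hD] at this
      exact congrArg Subtype.val this
    have r' := r.zsmul hs m₁ D
    rw [natCast_zsmul, natCast_zsmul, a0] at r'
    have z0 := tor (v * D + 1) _ 0 0 (fun h => hv.one_lt.ne' (Nat.dvd_one.1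
      ((Nat.dvd_add_right (dvd_mul_right v D)).1 h))) (by rw [smul_comm, ut _ _ h1, nsmul_zero])
      (nsmul_zero _) r' red_zero
    rw [← map_nsmul, hu.ker] at z0
    obtain ⟨x, y, e⟩ := mem_sp.1 z0
    have e2 := (int_of_im him (a := x * (v * D + 1 : ℕ) - D) (b := y * (v * D + 1 : ℕ)) (by
      rw [nsmul_eq_mul, eq_mul_inv_iff_mul_eq₀ m0] at e
      rw [Int.cast_sub, Int.cast_mul, Int.cast_mul, Int.cast_natCast, Int.cast_natCast]
      linear_combination e)).1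
    have e3 : v * D + 1 ∣ D := Int.natCast_dvd_natCast.1 ⟨x, by linear_combination -e2⟩
    have := Nat.le_of_dvd D0 e3
    nlinarith [hv.one_lt]
  obtain ⟨a, b, hab, dab⟩ := (hEnd2 _ U hU q α hq q44 q4 aα αα).1 ϖ aπ cm
  refine ⟨a * 1 + b * om q, mem_sp.2 ⟨a, b, rfl⟩, ?_, fun m L hm l1 l2 => ?_⟩
  · have e : ((v : ℂ)) ^ n = a ^ 2 + a * b + (((q + 1) / 4 : ℕ) : ℤ) * b ^ 2 := by
      rw [dπ] at dab
      exact_mod_cast congrArg (Int.cast : ℤ → ℂ) dab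
    apply Complex.ofReal_injective
    rw [← Complex.mul_conj]
    simp only [map_add, map_mul, map_intCast, map_one, conj_omega hω him, Complex.ofReal_pow,
      Complex.ofReal_natCast, Int.cast_one]
    linear_combination -e - (b : ℂ) ^ 2 * om_sq q4
  have m0 : m ≠ 0 := fun e => hm (e ▸ dvd_zero v)
  have m0' : (m : ℂ) ≠ 0 := Nat.cast_ne_zero.2 m0
  obtain ⟨L', hL'⟩ := hyp.exists_conj (σ : ℂ →+* ℂ)
    (hyp.isLat_between (hyp.isLat_smul hΛ m0') hΛ l1 l2)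
  have c1 := hyp.conj_smul hL' (inv_ne_zero m0')
  rw [map_inv₀, map_natCast] at c1
  rwa [← last (s := fun P => c (ptMap (σ : ℂ →+* ℂ) rfl P)) hμ m0' hu.ker l2 (fun z' => ?_)
    (fun z hz => ?_) fun z z' e => ?_]
  · obtain ⟨P, hP⟩ := ptMap_surjective (rfl : W.map (σ : ℂ →+* ℂ) = _) σ.surjective (c' (u z'))
    obtain ⟨z, rfl⟩ := hu.surj P
    exact ⟨z, by rw [hP, cc]⟩
  · obtain ⟨t, r⟩ := exRed sW hU (u z)
    have r2 := radd (r.zsmul hs m₁ a) ((dα _ _ r).zsmul hs m₁ b)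
    rw [← hab, hf, ← map_zsmul, ← map_zsmul, ← map_add] at r2
    refine tor m _ _ _ hm (by rw [← map_nsmul, ← map_nsmul, ut m z hz, map_zero, map_zero])
      (ut m _ ?_) (rs m z t m0 hz r) ?_
    · have := (OK q).add_mem ((OK q).smul_mem a hz) ((OK q).smul_mem b (omm hz))
      convert this using 1
      simp only [zsmul_eq_mul]
      ring
    · convert r2 using 2
      simp only [zsmul_eq_mul]
      ring
  · rw [← mem_inv m0', ← mem_inv m0']
    exact lst _ _ z z' (fun x hx => (mem_inv m0').2 (l1 (mem_smul_iff.2 ⟨x, hx, rfl⟩))) c1 e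

end Pool.Agent.Lib.MP_d6ddbd_nt.K11
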