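import Pool.Agent.Lib.MP_d6ddbd_nt.K11.StG

/-!
Two singular moduli that are distinct modulo `q`.
-/

set_option autoImplicit false

open Pointwise WeierstrassCurve
open Pool.Agent.Lib.MP_02f36d_nt
open Pool.Agent.Lib.MP_9177b7_ag.CM (IsLat jL isLat_ord smul_ord_le)

namespace Pool.Agent.Lib.MP_d6ddbd_nt.K11

namespace G2

theorem cm (hUni : UniStmt) (hModel : ModelStmt) (hRed : RedStmt) {k : Type} [Field k]
    [DecidableEq k] [IsAlgClosed k] (p : Place ℂ k) (hs : Function.Surjective p.ρ) {q : ℕ}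
    (hq : q % 4 = 3) {L : Submodule ℤ ℂ} (hL : IsLat L) (h : om q • L ≤ L) :
    ∃ U : Affine k, U.Δ ≠ 0 ∧ Sp p (jL L) (U.c₄ ^ 3 / U.Δ) ∧ ∃ g : U.Point →+ U.Point, Alg0 g ∧
      ∀ P, g (g P) = g P - ((q + 1) / 4) • P := by
  obtain ⟨a, i⟩ := hRed.2.1 q p.A L hq hL h
  obtain ⟨W, U, -, h0, hj, sp, h1, -⟩ := hModel k p _ a
  obtain ⟨u, hu⟩ := hUni L W hL h0 hj
  obtain ⟨f, hf, e⟩ := hu.mul (om q) (fun e => (om_im (q := q) (by omega)).ne' (by simp [e])) h
  have m : Mod p W U := ⟨h0, sp, Or.inr (h1 i).1⟩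
  obtain ⟨g, hg, d⟩ := hRed.1 k p hs W W U U m m f hf
  refine ⟨U, (h1 i).1, (h1 i).2, g, hg, fun c => ?_⟩
  obtain ⟨P, hP⟩ := exists_lift hs h0 sp c
  have r := (d _ _ hP).add hs h0 (sep_of_c4 m.ss) sp
    ((hP.zsmul hs m ((q + 1) / 4 : ℕ)).neg sp)
  rw [← sub_eq_add_neg, ← sub_eq_add_neg, natCast_zsmul, natCast_zsmul] at r
  refine (d _ _ (d _ _ hP)).unique (Eq.mp (congrArg (Red p · _) ?_) r)
  obtain ⟨z, rfl⟩ := hu.surj P
  rw [e, e, ← map_nsmul, ← map_sub, ← mul_assoc, ← pow_two, om_sq hq, sub_mul, Int.cast_natCast,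
    nsmul_eq_mul]

theorem ok : om 11 • OK 11 ≤ OK 11 :=
  smul_ord_le (t := 1) (n := 3) (by simpa using om_sq (q := 11) rfl)

end G2

theorem g2_thm (hUni : UniStmt) (hModel : ModelStmt) (hRed : RedStmt) (hEnd2 : End2Stmt) :
    G2Stmt := by
  classical
  intro q O L hq h44 h4 hO hL h hn
  let p : Place ℂ (IsLocalRing.ResidueField O) := ⟨O, IsLocalRing.residue O, fun x hx =>
    IsLocalRing.notMem_maximalIdeal.1 fun e => hx ((IsLocalRing.residue_eq_zero_iff x).2 e)⟩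
  have := isAlgClosed_residue O
  have z : ∀ {x : ℂ} {c}, Sp p x c → x ∈ O.nonunits → c = 0 := fun {x c} s hx =>
    s.2.symm.trans ((IsLocalRing.residue_eq_zero_iff _).2
      (ValuationSubring.coe_mem_nonunits_iff.1 hx))
  obtain ⟨U, h0, s, α, hα, e⟩ :=
    G2.cm hUni hModel hRed p IsLocalRing.residue_surjective h4 hL h
  obtain ⟨U', h0', s', β, hβ, e'⟩ := G2.cm hUni hModel hRed p IsLocalRing.residue_surjective
    (q := 11) rfl (isLat_ord (om_im (by norm_num)).ne') G2.ok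
  have : U.IsElliptic := ⟨h0.isUnit⟩
  have : U'.IsElliptic := ⟨h0'.isUnit⟩
  obtain ⟨C, hC⟩ := exists_variableChange_of_j_eq U U' (by
    have := sub_eq_zero.1 (z (s.sub s') hn)
    simpa [j, div_eq_inv_mul] using this)
  have hC' : C⁻¹ • U' = U := by rw [← hC, inv_smul_smul]
  have := infinite_pt (sep_of_c4 (Or.inr h0))
  have := infinite_pt (sep_of_c4 (Or.inr h0'))
  have i : ∀ Q, vcMap hC' (vcMap hC Q) = Q := fun Q =>
    (injective_iff_map_eq_zero (vcMap hC)).2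
      (fun P hP => by_contra fun n => (vcMap_spec hC n).1 hP) (vcMap_inv hC hC' _)
  refine (hEnd2 _ U h0 q α hq h44 h4 hα e).2 ((vcMap hC).comp (β.comp (vcMap hC')))
    (z (sp_nat q) hO) (Alg0.comp (Or.inr (isAlg_vcMap (over_top _) hC trivial trivial trivial
      trivial)) (hβ.comp (Or.inr (isAlg_vcMap (over_top _) hC' trivial trivial trivial trivial))))
    fun P => ?_
  simp only [AddMonoidHom.comp_apply, i, e', map_sub, map_nsmul, vcMap_inv]

end Pool.Agent.Lib.MP_d6ddbd_nt.K11
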