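import Pool.Agent.Lib.MP_d6ddbd_nt.K11.StP

/-! The Galois action on Heegner points. -/

set_option autoImplicit false

open Pointwise
open Pool.Agent.Lib.MP_02f36d_nt (xc yc)
open Pool.Agent.Lib.MP_9177b7_ag.CM (IsLat sp Conj jL g2 g3 bar smul_mul_left smul_mul_right
  sp_mul hyp prime_lt bar_mul bar_smul smul_le_smul left_mem_sp right_mem_sp map_omega conj_omega)

noncomputable section

namespace Pool.Agent.Lib.MP_d6ddbd_nt.K11

namespace Gal

variable {q c : ℕ} [hq : Fact (q % 4 = 3)]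

omit hq in
theorem com_im (h0 : q ≠ 0) (hc : c ≠ 0) : ((c : ℂ) * om q).im ≠ 0 := by
  have := om_im h0
  simp only [Complex.mul_im, Complex.natCast_re, Complex.natCast_im, zero_mul, add_zero]
  exact mul_ne_zero (by exact_mod_cast hc) this.ne'

omit hq in
theorem lvl_smul (b : ℤ) (μ : ℂ) (L : Submodule ℤ ℂ) : lvl q c b (μ • L) = μ • lvl q c b L := by
  rw [lvl, lvl, smul_mul_right, smul_comm]

theorem lv {b : ℤ} {L P' : Submodule ℤ ℂ} (h0 : q ≠ 0) (hc : c ≠ 0) (hL : Ivt q c L)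
    (hl : IsLat L) (hP : Ivt q c (pid q c 11 b)) (hP' : P' ≤ Oc q c)
    (hm : pid q c 11 b * P' = ((11 : ℕ) : ℂ) • Oc q c) : Lv L (lvl q c b L) := by
  obtain ⟨h1, h2⟩ := prime_lt (com_im h0 hc) (l := 11) (by norm_num) (c * b)
  change ((11 : ℕ) : ℂ) • Oc q c < pid q c 11 b at h1
  change pid q c 11 b < Oc q c at h2
  obtain ⟨hO, B, hB⟩ := hL
  have e1 : (11 : ℂ) • lvl q c b L = pid q c 11 b * L := by
    rw [lvl, smul_smul, mul_inv_cancel₀ (by norm_num), one_smul]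
  have e2 : pid q c 11 b * L * B = pid q c 11 b := by rw [mul_assoc, hB, mul_comm, hP.1]
  simp only [Nat.cast_ofNat] at h1 hm
  refine ⟨hl, lt_of_le_not_ge ?_ fun h => h1.not_ge ?_, lt_of_le_not_ge ?_ fun h => h2.not_ge ?_⟩
  · have e3 : L = (11 : ℂ)⁻¹ • (pid q c 11 b * (P' * L)) := by
      rw [← mul_assoc, hm, smul_mul_left, hO, smul_smul, inv_mul_cancel₀ (by norm_num), one_smul]
    conv_lhs => rw [e3]
    exact smul_le_smul _ (mul_le_mul_right ((mul_le_mul_left hP' L).trans hO.le) _)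
  · have h3 := mul_le_mul_left (smul_le_smul (11 : ℂ) h) B
    rwa [e1, e2, smul_mul_left, hB] at h3
  · rw [e1]
    exact (mul_le_mul_left h2.le L).trans hO.le
  · have h3 := mul_le_mul_left h B
    rwa [e1, e2, hB] at h3

omit hq in
theorem conj_lvl (h0 : q ≠ 0) (hc : c ≠ 0) {b : ℤ} {σ : G} (hσ : σ (om q) = om q)
    {L L' : Submodule ℤ ℂ} (h : Conj (σ : ℂ →+* ℂ) L L') (hl : IsLat (pid q c 11 b * L)) :
    Conj (σ : ℂ →+* ℂ) (lvl q c b L) (lvl q c b L') := by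
  have p0 : (c : ℂ) * om q - ((c * b : ℤ) : ℂ) ≠ 0 := fun k => com_im h0 hc (by
    rw [sub_eq_zero.1 k]; exact Complex.intCast_im _)
  have h1 := hyp.conj_smul h (c := ((11 : ℕ) : ℂ)) (by norm_num)
  have h2 := hyp.conj_smul h p0
  have e1 : (σ : ℂ →+* ℂ) ((c : ℂ) * om q - ((c * b : ℤ) : ℂ)) =
      (c : ℂ) * om q - ((c * b : ℤ) : ℂ) := by
    rw [map_sub, map_mul, map_natCast, map_intCast]
    exact congrArg (fun z => (c : ℂ) * z - ((c * b : ℤ) : ℂ)) hσ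
  rw [map_natCast] at h1
  rw [e1] at h2
  obtain ⟨N, hN⟩ := hyp.exists_conj (σ : ℂ →+* ℂ) hl
  have h3 : N = pid q c 11 b * L' := by
    rw [pid, sp_mul] at hN ⊢
    exact hyp.conj_sup h1 h2 hN
  have h4 := hyp.conj_smul hN (c := (11 : ℂ)⁻¹) (by norm_num)
  rwa [h3, map_inv₀, map_ofNat] at h4

theorem cj_fix (h0 : q ≠ 0) {σ : G} (hσ : σ (om q) ≠ om q) : (cj * σ) (om q) = om q := by
  have hω := om' (om_sq hq.out)
  have h1 := (map_omega hω (σ : ℂ →+* ℂ)).resolve_left hσ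
  have h2 := conj_omega hω (om_im h0).ne'
  change starRingEnd ℂ ((σ : ℂ →+* ℂ) (om q)) = om q
  rw [h1, ← h2, Complex.conj_conj]

end Gal

open Gal

theorem gal_thm (hV : VStmt) (hPic : PicStmt) (hKer : KerStmt) : GalStmt := by
  intro Pp a t0 hX q hq hp' h44 b c hb hc h11
  have h0 : q ≠ 0 := hp'.ne_zero
  obtain ⟨hfin, hcl, -, har⟩ := (hPic q hp' h44).2 c hc
  have hK := (hKer q hp' h44 c hc).2.2.2.2.2 11
  obtain ⟨hb', k1, k2, k3, k4, -, -⟩ := hK b (by norm_num) (by omega) h11 hb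
  obtain ⟨-, k1', k2', -, -, -, -⟩ := hK (1 - b) (by norm_num) (by omega) h11 hb'
  have hLv : ∀ (x : Pic q c) L, Cl x L → Lv L (lvl q c b L) := fun x L h =>
    lv h0 hc h.inv (hcl x L h).1 k1.inv k2' k4
  have hLv' : ∀ (x : Pic q c) L, Cl x L → Lv L (lvl q c (1 - b) L) := fun x L h =>
    lv h0 hc h.inv (hcl x L h).1 k1'.inv k2 (by rw [mul_comm, k4])
  have hP : ∀ (x : Pic q c) L, Cl x L → Pp L (lvl q c b L) = hp Pp b x := fun x L h => by
    obtain ⟨μ, hμ, rfl⟩ := (cl_out x).exists_smul h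
    rw [lvl_smul, hX.scale _ _ _ (hLv x _ (cl_out x)) hμ, hp]
  have h3 : ∀ (x : Pic q c) (σ : G), σ (om q) = om q →
      σ • hp Pp b x = hp Pp b (ar q c σ * x) := fun x σ hσ => by
    obtain ⟨l1, l2, l3, -, -⟩ := hcl x _ (cl_out x)
    obtain ⟨L', hL'⟩ := hyp.exists_conj (σ : ℂ →+* ℂ) l1
    rw [← hP _ L' ((har σ hσ).1 x _ L' (cl_out x) hL'),
      hX.conj σ _ _ _ _ (hLv x _ (cl_out x)) l2 l3 hL'
        (conj_lvl h0 hc hσ hL' (hcl _ _ (k1.mul (cl_out x))).1), hp]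
  have h4 : ∀ x : Pic q c, cj • hp Pp b x = t0 - hp Pp b (lam q c 11 (1 - b) * x⁻¹) := fun x => by
    obtain ⟨l1, l2, l3, l4, -⟩ := hcl x _ (cl_out x)
    have c1 : Cl (lam q c 11 b * x) (lvl q c b x.out.1) := (k1.mul (cl_out x)).smul (by norm_num)
    have c2 : Cl (lam q c 11 (1 - b) * x⁻¹) (lvl q c (1 - b) (bar x.out.1)) :=
      (k1'.mul l4).smul (by norm_num)
    have e1 : bar (lvl q c b x.out.1) = lvl q c (1 - b) (bar x.out.1) := by
      rw [lvl, lvl, bar_smul, bar_mul, k3, map_inv₀, map_ofNat]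
    have e2 : lvl q c b (lvl q c (1 - b) (bar x.out.1)) = (11 : ℂ)⁻¹ • bar x.out.1 := by
      rw [lvl, lvl, smul_mul_right, ← mul_assoc, k4, smul_mul_left, l4.inv.1, Nat.cast_ofNat,
        smul_smul _ (11 : ℂ), inv_mul_cancel₀ (by norm_num), one_smul]
    have f1 := hX.conj cj _ _ _ _ (hLv x _ (cl_out x)) l2 l3 (hyp.conj_bar l1)
      (hyp.conj_bar (hcl _ _ c1).1)
    have f2 := hX.fricke _ _ (hLv' _ _ l4)
    rw [← hP _ _ c2, e2, f2, ← e1, f1, hp, sub_sub_cancel]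
  have h5 : ∀ (x : Pic q c) (σ : G), σ (om q) ≠ om q → σ • hp Pp b x =
      t0 - hp Pp b (lam q c 11 (1 - b) * (ar q c (cj * σ) * x)⁻¹) := fun x σ hσ => by
    rw [← h4, ← h3 x _ (cj_fix h0 hσ), smul_smul, ← mul_assoc, cj_mul_cj, one_mul]
  have h6 : ∀ x : Pic q c, (Set.range fun σ : G => σ • hp Pp b x).Finite := fun x => by
    refine ((Set.finite_range (hp Pp b : Pic q c → Pt)).union
      (Set.finite_range fun y : Pic q c => t0 - hp Pp b y)).subset ?_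
    rintro _ ⟨σ, rfl⟩
    by_cases hσ : σ (om q) = om q
    · exact Or.inl ⟨_, (h3 x σ hσ).symm⟩
    · exact Or.inr ⟨_, (h5 x σ hσ).symm⟩
  intro x
  refine ⟨fun L h => ⟨hLv x L h, hP x L h⟩, ⟨hV.2.2.2.2.1 _ ?_, hV.2.2.2.2.1 _ ?_⟩, h3 x, h4 x,
    fun σ hσ => ?_⟩
  · refine ((h6 x).image xc).subset ?_
    rintro _ ⟨σ, rfl⟩
    exact ⟨_, ⟨σ, rfl⟩, xc_smul σ _⟩
  · refine ((h6 x).image yc).subset ?_
    rintro _ ⟨σ, rfl⟩
    exact ⟨_, ⟨σ, rfl⟩, yc_smul σ _⟩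
  · rw [h5 x σ hσ, smul_sub, hX.rat, h5 _ σ hσ, sub_sub_cancel]
    congr 1
    simp [mul_comm, mul_left_comm]

end Pool.Agent.Lib.MP_d6ddbd_nt.K11
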