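import Pool.Agent.Lib.MP_d6ddbd_nt.K11.Stmt
import Pool.Agent.Lib.MP_ca56d1_nt.LocE2

/-!
Local squares at the primes above a good prime.
-/

set_option autoImplicit false

open NumberField IsDedekindDomain
open Pool.Agent.Stark Pool.Agent.Stark.LocAux

namespace Pool.Agent.Lib.MP_d6ddbd_nt.K11.Good

variable {L : Type} [Field L] [NumberField L] {θ : L} {p : ℕ} {𝔭 𝔮 : Pr L}

theorem disc {R : Type*} [CommRing R] (x : R) :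
    (186 * x - 2749) * fc x + (-62 * x ^ 2 + 999 * x + 5612) * fd x = 2 ^ 4 * 11 ^ 5 := by
  unfold fc fd
  ring

theorem fd_ne [Fact p.Prime] (h2 : p ≠ 2) (h11 : p ≠ 11) {x : ZMod p} (h : fc x = 0) :
    fd x ≠ 0 := fun e => by
  have h1 := disc x
  rw [h, e, mul_zero, mul_zero, add_zero] at h1
  have key : ∀ q : ℕ, q.Prime → p ≠ q → (q : ZMod p) ≠ 0 := fun q hq h e =>
    h ((Nat.prime_dvd_prime_iff_eq Fact.out hq).1 ((ZMod.natCast_eq_zero_iff _ _).1 e))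
  exact mul_ne_zero (pow_ne_zero _ (key 2 Nat.prime_two h2))
    (pow_ne_zero _ (key 11 (by decide) h11)) (by exact_mod_cast h1.symm)

theorem fc_cast {R : Type*} [CommRing R] (x : ℤ) : ((fc x : ℤ) : R) = fc (x : R) := by simp [fc]

theorem newton [Fact p.Prime] {d : ℤ} (hd : (d : ZMod p) ≠ 0) {x : ZMod p} (h : fc x = 0)
    (h' : fd x ≠ 0) (k : ℕ) :
    ∃ X : ℤ, (X : ZMod p) = x ∧ (p : ℤ) ^ (k + 1) ∣ d * fc X - p ^ 2 := by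
  induction k with
  | zero =>
    obtain ⟨X, rfl⟩ := ZMod.intCast_surjective x
    refine ⟨X, rfl, ?_⟩
    rw [zero_add, pow_one, ← ZMod.intCast_zmod_eq_zero_iff_dvd]
    push_cast
    rw [fc_cast, h]
    simp
  | succ k ih =>
    obtain ⟨X, rfl, m, hm⟩ := ih
    obtain ⟨c, hc⟩ := ZMod.intCast_surjective ((d : ZMod p) * fd (X : ZMod p))⁻¹
    obtain ⟨e, he⟩ : (p : ℤ) ∣ 1 - c * (d * fd X) := by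
      rw [← ZMod.intCast_zmod_eq_zero_iff_dvd]
      push_cast
      rw [hc, show ((fd X : ℤ) : ZMod p) = fd (X : ZMod p) by simp [fd],
        inv_mul_cancel₀ (mul_ne_zero hd h'), sub_self]
    refine ⟨X - c * (p ^ (k + 1) * m), by simp, m * e + p ^ k * m ^ 2 * d * c ^ 2 *
      (3 * X - 4 - c * (p ^ (k + 1) * m)), ?_⟩
    unfold fc fd at *
    linear_combination hm + p ^ (k + 1) * m * he

theorem int_pw (𝔭 : Pr L) (m : ℤ) : (m : L) ∈ pw (𝔭.valuation L) 0 := by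
  simpa using zsmul_mem (one_mem (w := 𝔭.valuation L)) m

theorem ord2 (h2 : og 𝔭 (2 : L) = 0) : ord (wv 𝔭) 2 = 0 := by
  rw [← map_ofNat (emb 𝔭) 2, ord_emb, h2]

theorem near (h2 : og 𝔭 (2 : L) = 0) {γ δ : L} (hδ : δ ≠ 0)
    (h : γ - δ ∈ pw (𝔭.valuation L) (og 𝔭 δ + 1)) :
    γ ≠ 0 ∧ og 𝔭 γ = og 𝔭 δ ∧ (LSq 𝔭 γ ↔ LSq 𝔭 δ) := by
  have h1 := add_high hδ h
  rw [add_sub_cancel] at h1
  have h3 : IsSquare (emb 𝔭 (γ / δ)) := by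
    refine hens (isLoc_wv 𝔭) ?_
    rw [ord2 h2, ← map_one (emb 𝔭), ← map_sub, ComplAux.emb_mem_pw, div_sub_one hδ]
    exact pw_div h (by rw [og]; omega)
  refine ⟨h1.1, h1.2, fun e => ?_, fun e => ?_⟩
  · have := IsSquare.div e h3
    rwa [← map_div₀, div_div_cancel₀ h1.1] at this
  · have := IsSquare.mul h3 e
    rwa [← map_mul, div_mul_cancel₀ _ hδ] at this

theorem lsq_sq (𝔭 : Pr L) (γ : L) : LSq 𝔭 (γ ^ 2) := ⟨emb 𝔭 γ, by rw [map_pow, sq]⟩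

theorem lsq_even {γ : L} (h0 : γ ≠ 0) (h : LSq 𝔭 γ) : Even (og 𝔭 γ) := by
  obtain ⟨s, hs⟩ := h
  have : s ≠ 0 := left_ne_zero_of_mul (hs ▸ (map_ne_zero _).2 h0)
  rw [← ord_emb, hs, ord_mul this this]
  exact ⟨_, rfl⟩

theorem unr (h2 : og 𝔭 (2 : L) = 0) {a : L} (ha : a ≠ 0) (ea : Even (og 𝔭 a)) :
    Stark.Unr (wv 𝔭) (emb 𝔭 a) :=
  (isLoc_wv 𝔭).unr_of_odd (ord2 h2) ((map_ne_zero _).2 ha) (by rwa [ord_emb])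

theorem lsq_mul (h2 : og 𝔭 (2 : L) = 0) {a b : L} (ha : a ≠ 0) (hb : b ≠ 0) (ea : Even (og 𝔭 a))
    (eb : Even (og 𝔭 b)) : LSq 𝔭 (a * b) ↔ (LSq 𝔭 a ↔ LSq 𝔭 b) := by
  have := LocEAux.io_mul (isLoc_wv 𝔭) ((map_ne_zero _).2 ha) ((map_ne_zero _).2 hb)
    (unr h2 ha ea) (unr h2 hb eb)
  unfold LocEAux.io at this
  unfold LSq
  rw [map_mul]
  split_ifs at this <;> tauto

theorem res [Fact p.Prime] (h : nm 𝔭 = p) {s : Kc 𝔭} (hs : s ∈ pw (wv 𝔭) 0) :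
    ∃ n : ℤ, s - n ∈ pw (wv 𝔭) 1 := by
  obtain ⟨n, hn⟩ := mem_zmultiples_of_prime_card (p := p)
    (G := pw (wv 𝔭) 0 ⧸ (pw (wv 𝔭) 1).addSubgroupOf (pw (wv 𝔭) 0)) ((rc_wv 𝔭).trans h)
    (g := QuotientAddGroup.mk ⟨1, one_mem⟩) (g' := QuotientAddGroup.mk ⟨s, hs⟩)
    fun e => one_not_mem (AddSubgroup.mem_addSubgroupOf.1 ((QuotientAddGroup.eq_zero_iff _).1 e))
  beta_reduce at hn
  rw [← QuotientAddGroup.mk_zsmul, QuotientAddGroup.eq, AddSubgroup.mem_addSubgroupOf] at hn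
  exact ⟨n, by simpa [neg_add_eq_sub] using hn⟩

/-- The facts on the primes above `p` that are used. -/
structure H (θ : L) (p : ℕ) : Prop where
  pr : p.Prime
  one : ∀ 𝔭 ∈ ab L p, og 𝔭 (p : L) = 1
  two : ∀ 𝔭 ∈ ab L p, og 𝔭 (2 : L) = 0
  xr1 : ∀ 𝔭 ∈ ab L p, nm 𝔭 = p ↔ 0 < og 𝔭 ((xr θ 𝔭 : L) - θ)
  xr0 : ∀ 𝔭 ∈ ab L p, ∀ 𝔮 ∈ ab L p, nm 𝔭 = p → 𝔮 ≠ 𝔭 → og 𝔮 ((xr θ 𝔭 : L) - θ) = 0
  th : ∀ 𝔭 : Pr L, 0 ≤ og 𝔭 θ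
  dv : ∀ 𝔭 ∈ ab L p, ∀ n : ℕ, n ≠ 0 → (𝔭 ∈ ab L n ↔ p ∣ n)
  ne : ∀ x : ℤ, (x : L) - θ ≠ 0
  par : ∀ α : L, α ≠ 0 → IsSquare (Algebra.norm ℚ α) →
    Even (∑ 𝔭 ∈ ab L p, (Nat.log p (nm 𝔭) : ℤ) * og 𝔭 α)
  sum3 : ∑ 𝔭 ∈ ab L p, (Nat.log p (nm 𝔭) : ℤ) = 3
  pf : ∀ α : L, α ≠ 0 → IsSquare (Algebra.norm ℚ α) → ∑ 𝔭 ∈ ab L p, hq 𝔭 α p = 0

namespace H

variable (h : H θ p)
include h

theorem unit (h𝔭 : 𝔭 ∈ ab L p) {m : ℤ} (hm : ¬ (p : ℤ) ∣ m) : (m : L) ≠ 0 ∧ og 𝔭 (m : L) = 0 := by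
  have h0 : m ≠ 0 := fun e => hm (e ▸ dvd_zero _)
  have h1 := mt (h.dv 𝔭 h𝔭 m.natAbs (by simpa using h0)).1 fun e => hm (Int.natCast_dvd.2 e)
  rw [mem_ab, not_not] at h1
  refine ⟨Int.cast_ne_zero.2 h0, ?_⟩
  rcases m.natAbs_eq with e | e <;> rw [e]
  · rw [Int.cast_natCast, h1]
  · rw [Int.cast_neg, Int.cast_natCast, og, ord_neg, ← og, h1]

theorem ogp (h𝔭 : 𝔭 ∈ ab L p) (k : ℕ) : og 𝔭 ((p : L) ^ k) = k := by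
  rw [og, ord_pow, ← og, h.one 𝔭 h𝔭, mul_one]

theorem dvd (h𝔭 : 𝔭 ∈ ab L p) {m : ℤ} {k : ℕ} (hm : (p : ℤ) ^ k ∣ m) :
    (m : L) ∈ pw (𝔭.valuation L) k := by
  obtain ⟨c, rfl⟩ := hm
  push_cast
  exact pw_mul (mem_of_le (h.ogp h𝔭 k).ge) (int_pw 𝔭 c) (by simp)

theorem mem1 (h𝔭 : 𝔭 ∈ ab L p) {m : ℤ} : (m : L) ∈ pw (𝔭.valuation L) 1 ↔ (p : ℤ) ∣ m :=
  ⟨fun e => by_contra fun hm => not_mem.2 ⟨(h.unit h𝔭 hm).1,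
    (h.unit h𝔭 hm).2.trans_lt one_pos⟩ e, fun e => h.dvd h𝔭 (k := 1) (by rwa [pow_one])⟩

theorem int {m : ℤ} (hm : m ≠ 0) : ∃ v : ℤ, ∀ 𝔭 ∈ ab L p, og 𝔭 (m : L) = v := by
  obtain ⟨k, c, hc, rfl⟩ := WfDvdMonoid.max_power_factor' hm (x := (p : ℤ))
    (Nat.prime_iff_prime_int.1 h.pr).not_isUnit
  refine ⟨k, fun 𝔭 h𝔭 => ?_⟩
  push_cast
  rw [og, ord_mul (pow_ne_zero _ (Nat.cast_ne_zero.2 h.pr.ne_zero)) (h.unit h𝔭 hc).1, ← og, ← og,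
    h.ogp h𝔭, (h.unit h𝔭 hc).2, add_zero]

theorem rat {x : ℚ} (hx : x ≠ 0) : ∃ v : ℤ, ∀ 𝔭 ∈ ab L p, og 𝔭 (x : L) = v := by
  have h1 := Rat.num_ne_zero.2 hx
  have h2 : (x.den : ℤ) ≠ 0 := Int.natCast_ne_zero.2 x.den_ne_zero
  obtain ⟨v, hv⟩ := h.int h1
  obtain ⟨u, hu⟩ := h.int h2
  refine ⟨v - u, fun 𝔭 h𝔭 => ?_⟩
  rw [Rat.cast_def, og, ← Int.cast_natCast, ord_div (Int.cast_ne_zero.2 h1) (Int.cast_ne_zero.2 h2),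
    ← og, ← og, hv 𝔭 h𝔭, hu 𝔭 h𝔭]

theorem sq_int (h𝔭 : 𝔭 ∈ ab L p) {m : ℤ} (hm : (m : ZMod p) ≠ 0) (hs : IsSquare (m : ZMod p)) :
    LSq 𝔭 (m : L) := by
  obtain ⟨r, hr⟩ := hs
  obtain ⟨r, rfl⟩ := ZMod.intCast_surjective r
  have h1 := h.unit h𝔭 (m := r ^ 2) fun e => hm (by
    rw [hr, ← sq, ← Int.cast_pow, ZMod.intCast_zmod_eq_zero_iff_dvd]; exact e)
  refine (near (h.two 𝔭 h𝔭) h1.1 ?_).2.2.2 (Int.cast_pow (R := L) r 2 ▸ lsq_sq 𝔭 _)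
  rw [h1.2, zero_add, ← Int.cast_sub, h.mem1 h𝔭, ← ZMod.intCast_zmod_eq_zero_iff_dvd]
  push_cast
  rw [hr, sq, sub_self]

theorem int_sq (h𝔭 : 𝔭 ∈ ab L p) (h1 : nm 𝔭 = p) {m : ℤ} (hs : LSq 𝔭 (m : L)) :
    IsSquare (m : ZMod p) := by
  have : Fact p.Prime := ⟨h.pr⟩
  obtain ⟨s, hs⟩ := hs
  have h2 : s ∈ pw (wv 𝔭) 0 := by_contra fun e => by
    have h3 := not_mem.1 e
    have h4 := (ComplAux.emb_mem_pw 𝔭 _ _).2 (int_pw 𝔭 m)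
    rw [hs, ComplAux.mem_pw_zero, ord_mul h3.1 h3.1] at h4
    omega
  obtain ⟨n, hn⟩ := res h1 h2
  have h3 : (n : Kc 𝔭) ∈ pw (wv 𝔭) 0 := by simpa using zsmul_mem (one_mem (w := wv 𝔭)) n
  have h4 := pw_mul hn (add_mem h2 h3) (l := 1) le_rfl
  rw [show (s - n) * (s + n) = emb 𝔭 ((m - n * n : ℤ) : L) by
    rw [Int.cast_sub, Int.cast_mul, map_sub, hs, map_mul, map_intCast]; ring, ComplAux.emb_mem_pw, h.mem1 h𝔭,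
    ← ZMod.intCast_zmod_eq_zero_iff_dvd] at h4
  exact ⟨n, by push_cast at h4; exact sub_eq_zero.1 h4⟩

theorem th0 (𝔭 : Pr L) : θ ∈ pw (𝔭.valuation L) 0 := mem_of_le (h.th 𝔭)

theorem xr_mem (h𝔭 : 𝔭 ∈ ab L p) (h1 : nm 𝔭 = p) :
    (xr θ 𝔭 : L) - θ ∈ pw (𝔭.valuation L) 1 := mem_of_le ((h.xr1 𝔭 h𝔭).1 h1)

theorem uniq (h𝔭 : 𝔭 ∈ ab L p) {X : ℤ} (hX : og 𝔭 ((X : L) - θ) ≠ 0) :
    nm 𝔭 = p ∧ ∀ 𝔮 ∈ ab L p, 𝔮 ≠ 𝔭 → og 𝔮 ((X : L) - θ) = 0 := by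
  have h1 : (X : L) - θ ∈ pw (𝔭.valuation L) 1 := mem_of_le (by
    have := ComplAux.mem_pw_zero.1 (sub_mem (int_pw 𝔭 X) (h.th0 𝔭))
    rw [og] at hX
    omega)
  have h2 : (xr θ 𝔭 : L) - θ ∈ pw (𝔭.valuation L) 1 :=
    Classical.epsilon_spec (p := fun x : ℤ => (x : L) - θ ∈ pw (𝔭.valuation L) 1) ⟨X, h1⟩
  have h3 := (h.xr1 𝔭 h𝔭).2 ((mem_pw_iff.1 h2).resolve_left (h.ne _))
  have h4 := sub_mem h1 h2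
  rw [sub_sub_sub_cancel_right, ← Int.cast_sub, h.mem1 h𝔭] at h4
  refine ⟨h3, fun 𝔮 h𝔮 e => ?_⟩
  have h5 := h.xr0 𝔭 h𝔭 𝔮 h𝔮 h3 e
  refine (near (h.two 𝔮 h𝔮) (h.ne (xr θ 𝔭)) ?_).2.1.trans h5
  rwa [h5, zero_add, sub_sub_sub_cancel_right, ← Int.cast_sub, h.mem1 h𝔮]

theorem even {γ : L} (h0 : γ ≠ 0) (hs : IsSquare (Algebra.norm ℚ γ)) (X : ℤ)
    (he : ∀ 𝔮 ∈ ab L p, og 𝔮 ((X : L) - θ) = 0 → Even (og 𝔮 γ)) :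
    ∀ 𝔭 ∈ ab L p, Even (og 𝔭 γ) := fun 𝔭 h𝔭 => by
  classical
  by_cases h1 : og 𝔭 ((X : L) - θ) = 0
  · exact he 𝔭 h𝔭 h1
  obtain ⟨h2, h3⟩ := h.uniq h𝔭 h1
  have h4 := h.par γ h0 hs
  rw [← Finset.add_sum_erase _ _ h𝔭, h2, Nat.log_eq_one_iff'.2 ⟨le_rfl, Nat.lt_mul_self_iff.2 h.pr.one_lt⟩, Nat.cast_one, one_mul,
    Int.even_add] at h4
  exact h4.2 (Finset.even_sum _ fun 𝔮 h𝔮 => (he 𝔮 (Finset.mem_of_mem_erase h𝔮)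
    (h3 𝔮 (Finset.mem_of_mem_erase h𝔮) (Finset.ne_of_mem_erase h𝔮))).mul_left _)

theorem even3 {γ : L} (h0 : γ ≠ 0) (hs : IsSquare (Algebra.norm ℚ γ)) (v : ℤ)
    (he : ∀ 𝔮 ∈ ab L p, Even (og 𝔮 γ + v)) : Even v := by
  have h1 := Finset.even_sum (s := ab L p) (fun 𝔮 => (Nat.log p (nm 𝔮) : ℤ) * (og 𝔮 γ + v))
    fun 𝔮 h𝔮 => (he 𝔮 h𝔮).mul_left _
  simp only [mul_add, Finset.sum_add_distrib, ← Finset.sum_mul, h.sum3] at h1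
  have h2 := (Int.even_add.1 h1).1 (h.par γ h0 hs)
  exact (Int.even_mul.1 h2).resolve_left (by decide)

theorem nsq_sum {γ : L} (h0 : γ ≠ 0) (hs : IsSquare (Algebra.norm ℚ γ))
    (he : ∀ 𝔮 ∈ ab L p, Even (og 𝔮 γ)) : ∑ 𝔮 ∈ ab L p, nsq 𝔮 γ = 0 := by
  rw [← h.pf γ h0 hs]
  refine Finset.sum_congr rfl fun 𝔮 h𝔮 => ?_
  rw [hq, LocEAux.hs_unr (isLoc_wv 𝔮) ((map_ne_zero _).2 h0) (unr (h.two 𝔮 h𝔮) h0 (he 𝔮 h𝔮))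
    ((map_ne_zero _).2 (Nat.cast_ne_zero.2 h.pr.ne_zero)), ord_emb, h.one 𝔮 h𝔮, Int.cast_one,
    mul_one]
  rfl

end H

end Pool.Agent.Lib.MP_d6ddbd_nt.K11.Good
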