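import Pool.Agent.Lib.MP_d6ddbd_nt.K11.Good1
import Pool.Agent.Lib.MP_d6ddbd_nt.K11.Good2

/-!
The local condition at a good prime.
-/

set_option autoImplicit false

open NumberField IsDedekindDomain
open Pool.Agent.Stark Pool.Agent.Stark.LocAux

namespace Pool.Agent.Lib.MP_d6ddbd_nt.K11

namespace Good

variable {L : Type} [Field L] [NumberField L] {θ α : L} {p : ℕ} {d : ℤ} {𝔭 𝔮 : Pr L}

theorem nrm_rat (hθ : Cub θ) (x : ℚ) : Algebra.norm ℚ (x : L) = x ^ 3 := by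
  rw [← hθ.rk, ← Algebra.norm_algebraMap (S := L), eq_ratCast]

theorem nsq_zero : nsq 𝔭 α = 0 ↔ LSq 𝔭 α := by
  unfold nsq
  split_ifs with h <;> simp [h]

theorem nsq_one (h : ¬ LSq 𝔭 α) : nsq 𝔭 α = 1 := if_neg h

theorem locS_of (h : H θ p) (hd : d ≠ 0) (X : ℤ)
    (e : ∀ 𝔭 ∈ ab L p, LSq 𝔭 (α * (d * ((X : L) - θ)))) : LocS θ d p α := by
  have e1 : ((d * X : ℚ) : L) - d * ((1 : ℚ) : L) ^ 2 * θ = d * ((X : L) - θ) := by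
    push_cast
    ring
  exact ⟨d * X, 1, e1 ▸ mul_ne_zero (Int.cast_ne_zero.2 hd) (h.ne X),
    fun 𝔭 h𝔭 => e1 ▸ e 𝔭 ((mem_ab' h.pr.ne_zero).2 h𝔭)⟩

theorem only (h : H θ p) (hd : ¬ (p : ℤ) ∣ d) (h0 : α ≠ 0) (hs : IsSquare (Algebra.norm ℚ α))
    (e : LocS θ d p α) : ∀ 𝔭 ∈ ab L p, Even (og 𝔭 α) := by
  have : Fact p.Prime := ⟨h.pr⟩
  obtain ⟨x, z, hβ, e⟩ := e
  have e1 : ∀ 𝔭 ∈ ab L p, Even (og 𝔭 α + og 𝔭 ((x : L) - d * (z : L) ^ 2 * θ)) := fun 𝔭 h𝔭 => by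
    have := lsq_even (mul_ne_zero h0 hβ) (e 𝔭 ((mem_ab' h.pr.ne_zero).1 h𝔭))
    rwa [og, ord_mul h0 hβ] at this
  have e2 : ∀ t : ℚ, t ≠ 0 → (∀ 𝔭 ∈ ab L p, og 𝔭 ((x : L) - d * (z : L) ^ 2 * θ) = og 𝔭 (t : L)) →
      ∀ 𝔭 ∈ ab L p, Even (og 𝔭 α) := fun t ht h1 𝔭 h𝔭 => by
    obtain ⟨v, hv⟩ := h.rat ht
    have h2 : ∀ 𝔭 ∈ ab L p, Even (og 𝔭 α + v) := fun 𝔭 h𝔭 => hv 𝔭 h𝔭 ▸ h1 𝔭 h𝔭 ▸ e1 𝔭 h𝔭
    exact (Int.even_add.1 (h2 𝔭 h𝔭)).2 (h.even3 h0 hs v h2)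
  by_cases hz : z = 0
  · subst hz
    exact e2 x (by simpa using hβ) fun _ _ => by simp
  have hd0 : d ≠ 0 := fun e => hd (e ▸ dvd_zero _)
  obtain ⟨y, hy⟩ : ∃ y : ℚ, y = x / (d * z ^ 2) := ⟨_, rfl⟩
  have hb : (y.den : ℚ) ≠ 0 := Nat.cast_ne_zero.2 y.den_ne_zero
  have ht : (d * z ^ 2 / y.den : ℚ) ≠ 0 := by positivity
  have ht' : ((d * z ^ 2 / y.den : ℚ) : L) ≠ 0 := Rat.cast_ne_zero.2 ht
  have e3 : (x : L) - d * (z : L) ^ 2 * θ =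
      ((d * z ^ 2 / y.den : ℚ) : L) * ((y.num : L) - (y.den : ℤ) * θ) := by
    have h1 : x = d * z ^ 2 / y.den * y.num := by
      rw [div_mul_comm, Rat.num_div_den, hy]
      field_simp
    have h2 : (y.den : L) ≠ 0 := Nat.cast_ne_zero.2 y.den_ne_zero
    rw [congrArg (Rat.cast (K := L)) h1]
    push_cast
    field_simp
  have h3 : (y.num : L) - (y.den : ℤ) * θ ≠ 0 := right_ne_zero_of_mul (e3 ▸ hβ)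
  by_cases hp : (p : ℤ) ∣ y.den
  · refine e2 _ ht fun 𝔭 h𝔭 => ?_
    have h4 := h.unit h𝔭 (m := y.num) fun e => h.pr.one_lt.ne' (Nat.eq_one_of_dvd_coprimes
      y.reduced (Int.natCast_dvd.1 e) (Int.natCast_dvd_natCast.1 hp))
    have h5 := (near (h.two 𝔭 h𝔭) (γ := (y.num : L) - (y.den : ℤ) * θ) h4.1 (by
      rw [h4.2, sub_sub_cancel_left]
      exact neg_mem (pw_mul ((h.mem1 h𝔭).2 hp) (h.th0 𝔭) le_rfl))).2.1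
    rw [e3, og, ord_mul ht' h3, ← og, ← og, h5, h4.2, add_zero]
  obtain ⟨X, hX⟩ := ZMod.intCast_surjective ((y.num : ZMod p) / ((y.den : ℤ) : ZMod p))
  refine h.even h0 hs X fun 𝔭 h𝔭 h4 => (Int.even_add.1 (e1 𝔭 h𝔭)).2 ?_
  have h5 := h.unit h𝔭 hp
  have h6 := h.unit h𝔭 hd
  have h7 : og 𝔭 (((y.den : ℤ) : L) * ((X : L) - θ)) = 0 := by
    rw [og, ord_mul h5.1 (h.ne X), ← og, ← og, h5.2, h4, add_zero]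
  have h8 := (near (h.two 𝔭 h𝔭) (γ := (y.num : L) - (y.den : ℤ) * θ)
    (mul_ne_zero h5.1 (h.ne X)) (by
      rw [h7, show (y.num : L) - (y.den : ℤ) * θ - ((y.den : ℤ) : L) * ((X : L) - θ) =
        ((y.num - y.den * X : ℤ) : L) by push_cast; ring, zero_add, h.mem1 h𝔭,
        ← ZMod.intCast_zmod_eq_zero_iff_dvd, Int.cast_sub, Int.cast_mul, hX,
        mul_div_cancel₀ _ (mt (ZMod.intCast_zmod_eq_zero_iff_dvd _ _).1 hp), sub_self])).2.1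
  have hz' : (z : L) ^ 2 ≠ 0 := pow_ne_zero _ (Rat.cast_ne_zero.2 hz)
  rw [h7, og] at h8
  rw [e3, og, ord_mul ht' h3, h8, add_zero, show ((d * z ^ 2 / y.den : ℚ) : L)
    = d * (z : L) ^ 2 / ((y.den : ℤ) : L) by push_cast; rfl, ord_div (mul_ne_zero h6.1 hz') h5.1,
    ord_mul h6.1 hz', ord_pow, ← og, ← og, ← og, h5.2, h6.2]
  simp

theorem fin (hθ : Cub θ) (h : H θ p) (hN : ∀ x : ℚ, Algebra.norm ℚ ((x : L) - θ) = fc x)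
    (hd : ¬ (p : ℤ) ∣ d) (h0 : α ≠ 0) (hs : IsSquare (Algebra.norm ℚ α))
    (he : ∀ 𝔭 ∈ ab L p, Even (og 𝔭 α)) {X : ℤ} (hn0 : d * fc X ≠ 0)
    (hn : ∀ 𝔭 ∈ ab L p, LSq 𝔭 ((d * fc X : ℤ) : L)) (h𝔮 : 𝔮 ∈ ab L p)
    (e : (∀ 𝔭 ∈ ab L p, Even (og 𝔭 (d * ((X : L) - θ)))) →
      ∀ 𝔭 ∈ ab L p, 𝔭 ≠ 𝔮 → LSq 𝔭 (α * (d * ((X : L) - θ)))) : LocS θ d p α := by
  classical
  have hd0 : d ≠ 0 := left_ne_zero_of_mul hn0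
  have h1 : ((d * fc X : ℤ) : L) ≠ 0 := Int.cast_ne_zero.2 hn0
  have h2 : (d : L) * ((X : L) - θ) ≠ 0 := mul_ne_zero (Int.cast_ne_zero.2 hd0) (h.ne X)
  have h3 : IsSquare (Algebra.norm ℚ ((d : L) * ((X : L) - θ) * ((d * fc X : ℤ) : L))) := by
    rw [map_mul, map_mul, ← Rat.cast_intCast d, ← Rat.cast_intCast X,
      ← Rat.cast_intCast (d * fc X), nrm_rat hθ, nrm_rat hθ, hN, Int.cast_mul, fc_cast]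
    exact ⟨(d : ℚ) ^ 3 * fc (X : ℚ) ^ 2, by ring⟩
  have h4 : ∀ 𝔭 ∈ ab L p, Even (og 𝔭 ((d : L) * ((X : L) - θ) * ((d * fc X : ℤ) : L))) :=
    h.even (mul_ne_zero h2 h1) h3 X fun 𝔭 h𝔭 h4 => by
      rw [og, ord_mul h2 h1, ord_mul (h.unit h𝔭 hd).1 (h.ne X), ← og, ← og, ← og, h4,
        (h.unit h𝔭 hd).2, zero_add, zero_add]
      exact lsq_even h1 (hn 𝔭 h𝔭)
  have h5 : ∀ 𝔭 ∈ ab L p, Even (og 𝔭 ((d : L) * ((X : L) - θ))) := fun 𝔭 h𝔭 => by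
    have := h4 𝔭 h𝔭
    rw [og, ord_mul h2 h1, Int.even_add] at this
    exact this.2 (lsq_even h1 (hn 𝔭 h𝔭))
  have h6 : ∀ 𝔭 ∈ ab L p, Even (og 𝔭 (α * (d * ((X : L) - θ)))) := fun 𝔭 h𝔭 => by
    rw [og, ord_mul h0 h2]
    exact (he 𝔭 h𝔭).add (h5 𝔭 h𝔭)
  have h7 : ∀ 𝔭 ∈ ab L p, LSq 𝔭 (α * (d * ((X : L) - θ)) * ((d * fc X : ℤ) : L)) ↔
      LSq 𝔭 (α * (d * ((X : L) - θ))) := fun 𝔭 h𝔭 => by
    rw [lsq_mul (h.two 𝔭 h𝔭) (mul_ne_zero h0 h2) h1 (h6 𝔭 h𝔭) (lsq_even h1 (hn 𝔭 h𝔭))]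
    exact iff_true_right (hn 𝔭 h𝔭)
  have h8 := h.nsq_sum (mul_ne_zero (mul_ne_zero h0 h2) h1)
    (by rw [mul_assoc, map_mul]; exact hs.mul h3) fun 𝔭 h𝔭 => by
      rw [og, ord_mul (mul_ne_zero h0 h2) h1]
      exact (h6 𝔭 h𝔭).add (lsq_even h1 (hn 𝔭 h𝔭))
  rw [Finset.sum_eq_single_of_mem 𝔮 h𝔮 fun 𝔭 h𝔭 e' => nsq_zero.2 ((h7 𝔭 h𝔭).2 (e h5 𝔭 h𝔭 e')),
    nsq_zero, h7 𝔮 h𝔮] at h8
  refine locS_of h hd0 X fun 𝔭 h𝔭 => ?_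
  by_cases e' : 𝔭 = 𝔮
  exacts [e' ▸ h8, e h5 𝔭 h𝔭 e']

theorem lift [Fact p.Prime] (h : H θ p) (h2 : p ≠ 2) (h11 : p ≠ 11) (hd : ¬ (p : ℤ) ∣ d)
    {x : ZMod p} (hx : fc x = 0) : ∃ X : ℤ, (X : ZMod p) = x ∧
      ∀ 𝔭 ∈ ab L p, ((d * fc X : ℤ) : L) ≠ 0 ∧ LSq 𝔭 ((d * fc X : ℤ) : L) := by
  obtain ⟨X, h3, h4⟩ := newton (mt (ZMod.intCast_zmod_eq_zero_iff_dvd _ _).1 hd) hx
    (fd_ne h2 h11 hx) 2
  refine ⟨X, h3, fun 𝔭 h𝔭 => ?_⟩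
  have := near (h.two 𝔭 h𝔭) (γ := ((d * fc X : ℤ) : L))
    (pow_ne_zero 2 (Nat.cast_ne_zero.2 h.pr.ne_zero)) (by
      rw [h.ogp h𝔭]
      simpa using h.dvd h𝔭 h4)
  exact ⟨this.1, this.2.2.2 (lsq_sq _ _)⟩

theorem fac (hθ : Cub θ) (X : L) :
    (X - θ) * (X ^ 2 + (θ - 4) * X + (θ ^ 2 - 4 * θ - 160)) = fc X := by
  unfold fc
  linear_combination -hθ.eq

theorem root (hθ : Cub θ) (h : H θ p) (h𝔭 : 𝔭 ∈ ab L p) (h1 : nm 𝔭 = p) :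
    fc (xr θ 𝔭 : ZMod p) = 0 := by
  have h4 : (4 : L) ∈ pw (𝔭.valuation L) 0 := by simpa using int_pw 𝔭 4
  have h5 := int_pw 𝔭 (xr θ 𝔭)
  rw [← fc_cast, ZMod.intCast_zmod_eq_zero_iff_dvd, ← h.mem1 h𝔭, fc_cast, ← fac hθ, sq, sq]
  exact pw_mul (h.xr_mem h𝔭 h1) (add_mem (add_mem (pw_mul h5 h5 le_rfl)
    (pw_mul (sub_mem (h.th0 𝔭) h4) h5 le_rfl)) (sub_mem (sub_mem (pw_mul (h.th0 𝔭) (h.th0 𝔭) le_rfl)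
    (pw_mul h4 (h.th0 𝔭) le_rfl)) (by simpa using int_pw 𝔭 160))) le_rfl

theorem red (h : H θ p) (h𝔭 : 𝔭 ∈ ab L p) (h1 : nm 𝔭 = p) {γ : L} {m : ℤ} (hm : (m : ZMod p) ≠ 0)
    (e : γ - m ∈ pw (𝔭.valuation L) 1) :
    γ ≠ 0 ∧ og 𝔭 γ = 0 ∧ (LSq 𝔭 γ ↔ IsSquare (m : ZMod p)) := by
  have h2 := h.unit h𝔭 (mt (ZMod.intCast_zmod_eq_zero_iff_dvd _ _).2 hm)
  have h3 := near (h.two 𝔭 h𝔭) h2.1 (γ := γ) (by rwa [h2.2])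
  exact ⟨h3.1, h3.2.1.trans h2.2, h3.2.2.trans ⟨h.int_sq h𝔭 h1, h.sq_int h𝔭 hm⟩⟩

theorem loc [Fact p.Prime] (h : H θ p) (hd : ¬ (p : ℤ) ∣ d) (h0 : α ≠ 0) (h𝔭 : 𝔭 ∈ ab L p)
    (h1 : nm 𝔭 = p) (he : Even (og 𝔭 α)) {X : ℤ} (hX : (X : ZMod p) ≠ xr θ 𝔭)
    (e : IsSquare ((d : ZMod p) * (X - xr θ 𝔭)) ↔ LSq 𝔭 α) : LSq 𝔭 (α * (d * ((X : L) - θ))) := by
  have h2 := red h h𝔭 h1 (γ := d * ((X : L) - θ)) (m := d * (X - xr θ 𝔭)) (by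
    push_cast
    exact mul_ne_zero (mt (ZMod.intCast_zmod_eq_zero_iff_dvd _ _).1 hd) (sub_ne_zero.2 hX)) (by
    rw [show d * ((X : L) - θ) - (d * (X - xr θ 𝔭) : ℤ) = d * (xr θ 𝔭 - θ) by push_cast; ring]
    exact pw_mul (int_pw 𝔭 d) (h.xr_mem h𝔭 h1) le_rfl)
  rw [lsq_mul (h.two 𝔭 h𝔭) h0 h2.1 he (h2.2.1 ▸ Even.zero), h2.2.2]
  push_cast
  exact e.symm

end Good

open Good in
theorem good_thm (hPr : PrStmt) (hPF : PFStmt) : GoodStmt := by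
  intro L _ _ θ hθ d p α hp h2 h11 hd h0 hs
  classical
  have : Fact p.Prime := ⟨hp⟩
  obtain ⟨-, -, a3, a4, a5, a6, -⟩ := hPr L θ hθ
  obtain ⟨b1, b2, b3, b4, b5, b6⟩ := a3 p hp h2 h11
  have h : H θ p := ⟨hp, fun 𝔭 e => (b1 𝔭 e).1, fun 𝔭 e => (b1 𝔭 e).2.1,
    fun 𝔭 e => (b1 𝔭 e).2.2.2.1, b2, fun 𝔭 => (a5 𝔭).1, fun 𝔭 e n hn => by
      obtain ⟨l, hl, -, h3⟩ := (a5 𝔭).2
      rw [h3 n hn, (Nat.prime_dvd_prime_iff_eq hl hp).1 ((h3 p hp.ne_zero).1 e)],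
    fun x => sub_ne_zero.2 (by simpa using (a6 x).1), fun α e => (a4 p α hp e).2, by
      have := (a4 p p hp (Nat.cast_ne_zero.2 hp.ne_zero)).1
      rw [← Rat.cast_natCast p, nrm_rat hθ, padicValRat.pow, padicValRat.self hp.one_lt,
        Rat.cast_natCast] at this
      refine Eq.trans (Finset.sum_congr rfl fun 𝔭 e => ?_) this.symm
      rw [(b1 𝔭 e).1, mul_one],
    fun α e e' => by simpa using hPF L θ hθ p α p hp e e' (Nat.cast_ne_zero.2 hp.ne_zero)⟩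
  refine ⟨only h hd h0 hs, fun he => ?_⟩
  by_cases hall : ∀ 𝔭 ∈ ab L p, LSq 𝔭 α
  · exact ⟨1, 0, by simp, fun 𝔭 e => by simpa using hall 𝔭 ((mem_ab' hp.ne_zero).2 e)⟩
  have hsum := h.nsq_sum h0 hs he
  have hr : ringChar (ZMod p) ≠ 2 := (ZMod.ringChar_zmod_n p).trans_ne h2
  have hd' : (d : ZMod p) ≠ 0 := mt (ZMod.intCast_zmod_eq_zero_iff_dvd _ _).1 hd
  have hN := fun x => (a6 x).2
  rcases b6 with e | e | e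
  · obtain ⟨𝔭, h3, -⟩ := b3 e
    rw [h3, Finset.sum_singleton, nsq_zero] at hsum
    exact absurd (by simpa [h3] using hsum) hall
  · obtain ⟨𝔭, 𝔮, h3, h4, h5, -⟩ := b4 e
    have h𝔭 := (h4 𝔭).2 (Or.inl rfl)
    have h6 : ¬ LSq 𝔭 α := fun e => by
      rw [show ab L p = {𝔭, 𝔮} by ext; simp [h4], Finset.sum_pair h3, nsq_zero.2 e, zero_add,
        nsq_zero] at hsum
      exact hall fun 𝔯 h𝔯 => ((h4 𝔯).1 h𝔯).elim (· ▸ e) (· ▸ hsum)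
    have h7 := root hθ h h𝔭 h5
    obtain ⟨a, ha⟩ : ∃ a : ℤ, a = xr θ 𝔭 := ⟨_, rfl⟩
    rw [← ha] at h7
    have h8 : ∀ x : ZMod p, (x - a) * (x ^ 2 + (a - 4) * x + (a ^ 2 - 4 * a - 160)) = fc x :=
      fun x => by unfold fc at h7 ⊢; linear_combination -h7
    have h9 : ∀ x : ZMod p, x ^ 2 + (a - 4) * x + (a ^ 2 - 4 * a - 160) ≠ 0 := fun x e' => by
      have := (Nat.card_eq_one_iff_unique.1 e).1.elim ⟨x, by rw [← h8, e', mul_zero]⟩ ⟨a, h7⟩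
      rw [Subtype.mk.inj this] at e'
      exact fd_ne h2 h11 h7 (by unfold fd; linear_combination e')
    obtain ⟨x, h10, h11'⟩ := two hr (a := a) hd' h9
    obtain ⟨X, rfl, h12⟩ : ∃ X : ℤ, (X : ZMod p) = x ∧
        ∀ 𝔭 ∈ ab L p, ((d * fc X : ℤ) : L) ≠ 0 ∧ LSq 𝔭 ((d * fc X : ℤ) : L) := by
      by_cases e' : x = a
      · exact Good.lift h h2 h11 hd (e' ▸ h7)
      obtain ⟨X, rfl⟩ := ZMod.intCast_surjective x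
      have h12 : ((d * fc X : ℤ) : ZMod p) =
          d * (X - a) * (X ^ 2 + (a - 4) * X + (a ^ 2 - 4 * a - 160)) := by
        rw [Int.cast_mul, fc_cast, ← h8, ← mul_assoc]
      have h13 := mul_ne_zero (mul_ne_zero hd' (sub_ne_zero.2 e')) (h9 X)
      refine ⟨X, rfl, fun 𝔯 h𝔯 => ⟨(h.unit h𝔯 (mt (ZMod.intCast_zmod_eq_zero_iff_dvd _ _).2
        (h12 ▸ h13))).1, h.sq_int h𝔯 (h12 ▸ h13) ?_⟩⟩
      rw [h12, ← quadraticChar_one_iff_isSquare h13, map_mul,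
        quadraticChar_neg_one_iff_not_isSquare.2 (h10 e'),
        quadraticChar_neg_one_iff_not_isSquare.2 h11']
      rfl
    refine fin hθ h hN hd h0 hs he (Int.cast_ne_zero.1 (h12 𝔭 h𝔭).1) (fun 𝔯 e => (h12 𝔯 e).2)
      ((h4 𝔮).2 (Or.inr rfl)) fun h13 𝔯 h𝔯 e' => ?_
    obtain rfl := ((h4 𝔯).1 h𝔯).resolve_right e'
    have h14 := red h h𝔭 h5 (γ := (X : L) ^ 2 + (θ - 4) * X + (θ ^ 2 - 4 * θ - 160))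
      (m := X ^ 2 + (a - 4) * X + (a ^ 2 - 4 * a - 160)) (by push_cast; exact h9 X) (by
        rw [show (X : L) ^ 2 + (θ - 4) * X + (θ ^ 2 - 4 * θ - 160) -
          (X ^ 2 + (a - 4) * X + (a ^ 2 - 4 * a - 160) : ℤ) = (a - θ) * ((4 - X - a : ℤ) - θ) by
            push_cast; ring]
        exact pw_mul (ha ▸ h.xr_mem h𝔭 h5) (sub_mem (int_pw _ _) (h.th0 _)) le_rfl)
    have h15 := mul_ne_zero (h.unit h𝔭 hd).1 (h.ne X)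
    have h16 := (lsq_mul (h.two _ h𝔭) h15 h14.1 (h13 _ h𝔭) (h14.2.1 ▸ Even.zero)).1 (by
      rw [mul_assoc, Good.fac hθ, ← fc_cast, ← Int.cast_mul]
      exact (h12 _ h𝔭).2)
    rw [lsq_mul (h.two _ h𝔭) h0 h15 (he _ h𝔭) (h13 _ h𝔭), h16, h14.2.2]
    push_cast
    exact iff_of_false h6 h11'
  · obtain ⟨h3, h4⟩ := b5 e
    have h5 : ∀ 𝔭 ∈ ab L p, ∀ 𝔮 ∈ ab L p, 𝔭 ≠ 𝔮 → (xr θ 𝔭 : ZMod p) ≠ xr θ 𝔮 :=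
      fun 𝔭 h𝔭 𝔮 h𝔮 e e' => by
      have h5 := add_mem ((h.mem1 h𝔮).2 ((ZMod.intCast_eq_intCast_iff_dvd_sub _ _ _).1 e'.symm))
        (h.xr_mem h𝔮 (h4 𝔮 h𝔮))
      rw [Int.cast_sub, sub_add_sub_cancel] at h5
      exact not_mem.2 ⟨h.ne _, (b2 𝔭 h𝔭 𝔮 h𝔮 (h4 𝔭 h𝔭) e.symm).trans_lt one_pos⟩ h5
    obtain ⟨x, h6⟩ : ∃ x : ZMod p, ∀ 𝔭 ∈ ab L p, x ≠ xr θ 𝔭 →
        (IsSquare (d * (x - xr θ 𝔭)) ↔ LSq 𝔭 α) := by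
      obtain ⟨𝔭, 𝔮, 𝔯, h6, h7, h8, h9⟩ := Finset.card_eq_three.1 h3
      simp only [h9, Finset.mem_insert, Finset.mem_singleton, forall_eq_or_imp, forall_eq] at h5 hall ⊢
      refine three hr hd' (h5.1.2.1 h6) (h5.1.2.2 h7) (h5.2.1.2.2 h8) hall (by_contra fun e => ?_)
      simp only [not_or] at e
      rw [h9, Finset.sum_insert (by simp [h6, h7]), Finset.sum_pair h8, nsq_one e.1, nsq_one e.2.1,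
        nsq_one e.2.2] at hsum
      exact absurd hsum (by decide)
    by_cases h7 : ∃ 𝔮 ∈ ab L p, x = xr θ 𝔮
    · obtain ⟨𝔮, h𝔮, h7⟩ := h7
      obtain ⟨X, rfl, h8⟩ := Good.lift h h2 h11 hd (h7 ▸ root hθ h h𝔮 (h4 𝔮 h𝔮) : fc x = 0)
      refine fin hθ h hN hd h0 hs he (Int.cast_ne_zero.1 (h8 𝔮 h𝔮).1) (fun 𝔯 e => (h8 𝔯 e).2) h𝔮
        fun _ 𝔭 h𝔭 e' => ?_
      have h9 := h7.trans_ne (h5 𝔮 h𝔮 𝔭 h𝔭 (Ne.symm e'))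
      exact loc h hd h0 h𝔭 (h4 𝔭 h𝔭) (he 𝔭 h𝔭) h9 (h6 𝔭 h𝔭 h9)
    · obtain ⟨X, rfl⟩ := ZMod.intCast_surjective x
      refine locS_of h (fun e => hd (e ▸ dvd_zero _)) X fun 𝔭 h𝔭 => ?_
      have h9 : (X : ZMod p) ≠ xr θ 𝔭 := fun e => h7 ⟨𝔭, h𝔭, e⟩
      exact loc h hd h0 h𝔭 (h4 𝔭 h𝔭) (he 𝔭 h𝔭) h9 (h6 𝔭 h𝔭 h9)

end Pool.Agent.Lib.MP_d6ddbd_nt.K11
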