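import Pool.Agent.Lib.MP_d6ddbd_nt.K11.StP

/-!
Hecke operators on Heegner points.
-/

set_option autoImplicit false

open Pointwise
open Pool.Agent.Lib.MP_9177b7_ag.CM (sp smul_mul_left smul_mul_right sp_le mem_sp left_mem_sp
  right_mem_sp smul_sp sp_mul mem_smul_iff ord_mul_ord)

noncomputable section

namespace Pool.Agent.Lib.MP_d6ddbd_nt.K11

namespace Hk

section gen

variable {w : ℂ} {t n i : ℤ} {l : ℕ} {X : Submodule ℤ ℂ}

theorem ind (him : w.im ≠ 0) {a b a' b' : ℤ} (h : (a : ℂ) + b * w = a' + b' * w) :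
    a = a' ∧ b = b' := by
  have h1 := congrArg Complex.im h
  simp only [Complex.add_im, Complex.intCast_im, Complex.mul_im, Complex.intCast_re, zero_mul,
    add_zero, zero_add] at h1
  obtain rfl : b = b' := by exact_mod_cast mul_right_cancel₀ him h1
  exact ⟨by exact_mod_cast add_right_cancel h, rfl⟩

theorem imem {z : ℂ} (h : z ∈ X) (m : ℤ) : (m : ℂ) * z ∈ X := by
  simpa only [zsmul_eq_mul] using X.smul_mem m h

theorem of_cop {z : ℂ} {a b : ℤ} (h : IsCoprime a b) (h1 : (a : ℂ) * z ∈ X) (h2 : (b : ℂ) * z ∈ X) :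
    z ∈ X := by
  obtain ⟨u, v, e⟩ := h
  have e' : (u : ℂ) * a + v * b = 1 := by exact_mod_cast e
  have := add_mem (imem h1 u) (imem h2 v)
  rwa [← mul_assoc, ← mul_assoc, ← add_mul, e', one_mul] at this

theorem cop (hl : l.Prime) {a : ℤ} (h : ¬ (l : ℤ) ∣ a) : IsCoprime (l : ℤ) a :=
  (Nat.prime_iff_prime_int.1 hl).irreducible.coprime_iff_not_dvd.2 h

theorem classify (hl : l.Prime) (h1 : (l : ℂ) • sp 1 w < X) (h2 : X < sp 1 w) :
    X = sp 1 (l * w) ∨ ∃ i : ℤ, X = sp l (w - i) := by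
  rw [smul_sp, mul_one] at h1
  obtain ⟨m1, m2⟩ := sp_le.1 h1.le
  have one : ∀ a : ℤ, (a : ℂ) ∈ X → ¬ (l : ℤ) ∣ a → (1 : ℂ) ∈ X := fun a ha k =>
    of_cop (cop hl k) (by simpa using m1) (by simpa using ha)
  by_cases h : ∃ a b : ℤ, (a : ℂ) + b * w ∈ X ∧ ¬ (l : ℤ) ∣ b
  · obtain ⟨a, b, ha, hb⟩ := h
    obtain ⟨u, v, e⟩ := cop hl hb
    have e' : (u : ℂ) * l + v * b = 1 := by exact_mod_cast e
    have m3 : w - (-(v * a) : ℤ) ∈ X := by
      convert add_mem (imem m2 u) (imem ha v) using 1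
      push_cast
      linear_combination -w * e'
    refine .inr ⟨_, le_antisymm (fun z hz => ?_) (sp_le.2 ⟨m1, m3⟩)⟩
    obtain ⟨m, k, rfl⟩ := mem_sp.1 (h2.le hz)
    by_cases d : (l : ℤ) ∣ m - k * (v * a)
    · obtain ⟨j, hj⟩ := d
      have hj' : (m : ℂ) - k * (v * a) = l * j := by exact_mod_cast hj
      exact mem_sp.2 ⟨j, k, by push_cast; linear_combination -hj'⟩
    · have o := one _ (by
        convert sub_mem hz (imem m3 k) using 1
        push_cast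
        ring) d
      refine (h2.not_ge (sp_le.2 ⟨o, ?_⟩)).elim
      simpa using add_mem m3 (imem o (-(v * a)))
  · push Not at h
    refine .inl (le_antisymm (fun z hz => ?_) (sp_le.2 ⟨?_, m2⟩))
    · obtain ⟨m, k, rfl⟩ := mem_sp.1 (h2.le hz)
      obtain ⟨j, rfl⟩ := h m k (by simpa using hz)
      exact mem_sp.2 ⟨m, j, by push_cast; ring⟩
    · obtain ⟨z, hz, hz'⟩ := SetLike.exists_of_lt h1
      obtain ⟨m, k, rfl⟩ := mem_sp.1 (h2.le hz)
      obtain ⟨j, rfl⟩ := h m k (by simpa using hz)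
      refine one m ?_ fun ⟨j', e⟩ => hz' (mem_sp.2 ⟨j', j, by rw [e]; push_cast; ring⟩)
      convert sub_mem hz (imem m2 j) using 1
      push_cast
      ring

theorem inv (hω : w ^ 2 = t * w - n) (hl : l.Prime) (h : ¬ (l : ℤ) ∣ i ^ 2 - t * i + n) :
    sp 1 (l * w) * sp l (w - i) = sp l (w - i) ∧
      sp l (w - i) * sp l (t - w - i) = sp 1 (l * w) ∧ sp 1 w * sp l (w - i) = sp 1 w := by
  have h2 : sp l (w - i) * sp l (t - w - i) = sp 1 (l * w) := by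
    rw [sp_mul, smul_sp, smul_sp]
    have o : (1 : ℂ) ∈ sp (l * l) (l * (t - w - i)) ⊔ sp ((w - i) * l) ((w - i) * (t - w - i)) :=
      of_cop ((cop hl h).mul_left (cop hl h))
        (Submodule.mem_sup_left (mem_sp.2 ⟨1, 0, by push_cast; ring⟩))
        (Submodule.mem_sup_right (mem_sp.2 ⟨0, 1, by push_cast; linear_combination -hω⟩))
    refine le_antisymm (sup_le (sp_le.2 ⟨mem_sp.2 ⟨l * l, 0, by push_cast; ring⟩,
      mem_sp.2 ⟨l * (t - i), -1, by push_cast; ring⟩⟩)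
      (sp_le.2 ⟨mem_sp.2 ⟨-(i * l), 1, by push_cast; ring⟩,
        mem_sp.2 ⟨i ^ 2 - t * i + n, 0, by push_cast; linear_combination hω⟩⟩)) (sp_le.2 ⟨o, ?_⟩)
    convert add_mem (Submodule.mem_sup_right (left_mem_sp _ _)) (imem o (i * l)) using 1
    push_cast
    ring
  have h3 := ord_mul_ord hω
  have a1 : sp l (w - i) ≤ sp 1 w :=
    sp_le.2 ⟨mem_sp.2 ⟨l, 0, by push_cast; ring⟩, mem_sp.2 ⟨-i, 1, by push_cast; ring⟩⟩
  have a2 : sp l (t - w - i) ≤ sp 1 w :=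
    sp_le.2 ⟨mem_sp.2 ⟨l, 0, by push_cast; ring⟩, mem_sp.2 ⟨t - i, -1, by push_cast; ring⟩⟩
  refine ⟨?_, h2, le_antisymm ((mul_le_mul_right a1 _).trans h3.le) fun z hz => ?_⟩
  · rw [sp_mul, one_smul, sup_eq_left, smul_sp]
    exact sp_le.2 ⟨mem_sp.2 ⟨i * l, l * l, by push_cast; ring⟩,
      mem_sp.2 ⟨(t - i) * i - n, l * (t - i), by push_cast; linear_combination -(l : ℂ) * hω⟩⟩
  · have : z ∈ sp 1 w * (sp l (w - i) * sp l (t - w - i)) := by
      rw [h2]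
      simpa using Submodule.mul_mem_mul hz (left_mem_sp 1 (l * w))
    have k : sp 1 w * (sp l (w - i) * sp l (t - w - i)) ≤ sp 1 w * (sp l (w - i) * sp 1 w) := by
      gcongr
    rw [mul_comm (sp l _) (sp 1 w), ← mul_assoc (sp 1 w) (sp 1 w), h3] at k
    exact k this

theorem lev (b : ℤ) : (11 : ℂ) • sp 1 (l * w) ⊔ (l : ℂ) • sp (11 : ℕ) (w - b) =
    sp (11 : ℕ) (l * w - (l * b : ℤ)) := by
  rw [smul_sp, smul_sp]
  refine le_antisymm (sup_le (sp_le.2 ⟨mem_sp.2 ⟨1, 0, by push_cast; ring⟩,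
    mem_sp.2 ⟨l * b, 11, by push_cast; ring⟩⟩) (sp_le.2 ⟨mem_sp.2 ⟨l, 0, by push_cast; ring⟩,
      mem_sp.2 ⟨0, 1, by push_cast; ring⟩⟩))
    (sp_le.2 ⟨Submodule.mem_sup_left (mem_sp.2 ⟨1, 0, by push_cast; ring⟩),
      Submodule.mem_sup_right (mem_sp.2 ⟨0, 1, by push_cast; ring⟩)⟩)

theorem ne1 (him : w.im ≠ 0) (hl : l.Prime) : (1 : ℂ) ∉ sp l (w - i) := fun h => by
  obtain ⟨m, k, e⟩ := mem_sp.1 h
  obtain ⟨h1, rfl⟩ := ind him (a := m * l - k * i) (b := k) (a' := 1) (b' := 0)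
    (by push_cast; linear_combination e)
  exact (Nat.prime_iff_prime_int.1 hl).not_dvd_one ⟨m, by linear_combination -h1⟩

theorem ne2 (him : w.im ≠ 0) (hl : l.Prime) : w - i ∉ sp 1 (l * w) := fun h => by
  obtain ⟨m, k, e⟩ := mem_sp.1 h
  obtain ⟨-, h1⟩ := ind him (a := m) (b := k * l) (a' := -i) (b' := 1)
    (by push_cast; linear_combination e)
  exact (Nat.prime_iff_prime_int.1 hl).not_dvd_one ⟨k, by linear_combination -h1⟩

theorem lO_le : (l : ℂ) • sp 1 w ≤ sp 1 (l * w) := by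
  rw [smul_sp]
  exact sp_le.2 ⟨mem_sp.2 ⟨l, 0, by push_cast; ring⟩, right_mem_sp _ _⟩

theorem lO_le' : (l : ℂ) • sp 1 w ≤ sp l (w - i) := by
  rw [smul_sp]
  exact sp_le.2 ⟨mem_sp.2 ⟨1, 0, by push_cast; ring⟩, mem_sp.2 ⟨i, l, by push_cast; ring⟩⟩

theorem sp_cong {j : ℤ} (h : (l : ℤ) ∣ i - j) : sp l (w - i) = sp l (w - j) := by
  obtain ⟨k, hk⟩ := h
  have hk' : (i : ℂ) - j = l * k := by exact_mod_cast hk
  exact le_antisymm (sp_le.2 ⟨left_mem_sp _ _, mem_sp.2 ⟨-k, 1, by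
    push_cast; linear_combination hk'⟩⟩) (sp_le.2 ⟨left_mem_sp _ _, mem_sp.2 ⟨k, 1, by
    push_cast; linear_combination -hk'⟩⟩)

theorem dvd_of_sp (him : w.im ≠ 0) {j : ℤ} (h : sp l (w - i) = sp l (w - j)) :
    (l : ℤ) ∣ i - j := by
  obtain ⟨m, k, e⟩ := mem_sp.1 (h ▸ right_mem_sp _ _ : w - i ∈ sp l (w - j))
  obtain ⟨h1, rfl⟩ := ind him (a := m * l - k * j) (b := k) (a' := -i) (b' := 1)
    (by push_cast; linear_combination e)
  exact ⟨-m, by linear_combination h1⟩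

end gen

variable {q c l : ℕ} [hq : Fact (q % 4 = 3)] {L L' B : Submodule ℤ ℂ}

omit hq in
theorem Oc_lc (q l c : ℕ) : Oc q (l * c) = sp 1 (l * (c * om q)) := by
  rw [Oc, Nat.cast_mul, mul_assoc]

omit hq in
theorem im_ne (q0 : q ≠ 0) (c0 : c ≠ 0) : ((c : ℂ) * om q).im ≠ 0 := by
  simpa [c0] using (om_im q0).ne'

omit hq in
theorem cancel {O X Y : Submodule ℤ ℂ} (h : L * B = O) (hX : O * X = X) (hY : O * Y = Y)
    (e : X * L = Y * L) : X = Y := by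
  rw [← hX, ← hY, ← h, mul_comm (L * B), mul_comm (L * B), ← mul_assoc, ← mul_assoc, e]

theorem nb_of (q0 : q ≠ 0) (c0 : c ≠ 0) (hl : l.Prime) (h : Ivt q (l * c) L')
    (e : Oc q c * L' = L) : Nb l L L' := by
  obtain ⟨h1, B, h2⟩ := h
  have him := im_ne q0 c0
  have d := Oc_mul hq.out (dvd_mul_left c l)
  have k : ∀ X, X * L' = L' → X * Oc q (l * c) = Oc q (l * c) := fun X hX => by
    rw [← h2, ← mul_assoc, hX]
  refine ⟨lt_of_le_of_ne ?_ fun k' => ?_, lt_of_le_of_ne ?_ fun k' => ?_⟩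
  · rw [← e, ← smul_mul_left]
    refine le_trans (mul_le_mul_left ?_ _) h1.le
    rw [Oc_lc]
    exact lO_le
  · have := k ((l : ℂ) • Oc q c) (by rw [smul_mul_left, e, k'])
    rw [smul_mul_left, d] at this
    exact ne1 (i := 0) him hl (lO_le' (this.ge (one_mem_Oc _ _)))
  · rw [← e]
    exact h1.ge.trans (mul_le_mul_left (Oc_le (dvd_mul_left c l)) _)
  · have := k (Oc q c) (e.trans k'.symm)
    rw [d, Oc_lc] at this
    exact ne2 (i := 0) him hl (this.le (by simpa [Oc] using right_mem_sp _ _))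

omit hq in
theorem lvl_of {b : ℤ} (h : Ivt q (l * c) L') (e : Oc q c * L' = L)
    (hp : Oc q c * pid q c 11 b = pid q c 11 b) :
    L' ⊔ (l : ℂ) • lvl q c b L = lvl q (l * c) b L' := by
  have k : pid q (l * c) 11 b = (11 : ℂ) • Oc q (l * c) ⊔ (l : ℂ) • pid q c 11 b := by
    rw [Oc_lc, pid, pid, lev]
    congr 1
    push_cast
    ring
  rw [lvl, lvl, k, Submodule.sup_mul, smul_mul_left, h.1, Submodule.smul_sup', smul_smul _ _ L',
    inv_mul_cancel₀ (by norm_num), one_smul, ← e, ← mul_assoc, mul_comm (pid _ _ _ _) (Oc _ _), hp,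
    smul_mul_left, smul_comm]

theorem cls_nb (hl : l.Prime) (lc : ¬ l ∣ c) {L0 : Submodule ℤ ℂ} (h0 : Ivt q (l * c) L0)
    (e : Oc q c * L0 = L) (h : Nb l L L') : (Ivt q (l * c) L' ∧ Oc q c * L' = L) ∨
      ∃ r, Rt q l r ∧ L' = sp l (c * om q - (c * r : ℤ)) * L0 := by
  obtain ⟨h1, B, h2⟩ := h0
  have d := Oc_mul hq.out (dvd_mul_left c l)
  have oo := Oc_mul_self hq.out c
  have k1 : L * B = Oc q c := by rw [← e, mul_assoc, h2, d]
  have k2 : Oc q (l * c) * L' = L' := by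
    rw [Oc_lc, sp_mul, one_smul, sup_eq_left, mul_smul]
    refine le_trans (Pool.Agent.Lib.MP_9177b7_ag.CM.smul_le_smul _ ?_) h.1.le
    have : Oc q c * L' ≤ L := (mul_le_mul_right h.2.le _).trans (by rw [← e, ← mul_assoc, oo])
    rw [Oc, sp_mul] at this
    exact le_sup_right.trans this
  have k3 : L' * B * L0 = L' := by rw [mul_assoc, mul_comm B, h2, mul_comm, k2]
  have k4 : (l : ℂ) • Oc q c < L' * B := lt_of_le_of_ne
    (by rw [← k1, ← smul_mul_left]; exact mul_le_mul_left h.1.le _) fun k =>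
    h.1.ne (by rw [← k3, ← k, smul_mul_left, e])
  have k5 : L' * B < Oc q c := lt_of_le_of_ne (by rw [← k1]; exact mul_le_mul_left h.2.le _)
    fun k => h.2.ne (by rw [← k3, k, e])
  rcases classify hl k4 k5 with k | ⟨i, k⟩
  · rw [k, ← Oc_lc, h1] at k3
    exact .inl (k3 ▸ ⟨⟨h1, B, h2⟩, e⟩)
  rw [k] at k3
  by_cases hi : (l : ℤ) ∣ i ^ 2 - c * i + c ^ 2 * ((q + 1) / 4 : ℕ)
  · have lc' : ¬ (l : ℤ) ∣ c := fun k => lc (Int.natCast_dvd_natCast.1 k)
    obtain ⟨u, v, uv⟩ := cop hl lc'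
    have d1 : (l : ℤ) ∣ i - c * (v * i) := ⟨u * i, by linear_combination -i * uv⟩
    refine .inr ⟨v * i, ?_, by rw [← k3, sp_cong d1]⟩
    refine ((cop hl lc').pow_right (n := 2)).dvd_of_dvd_mul_left ?_
    have := dvd_sub hi (d1.mul_right (i + c * (v * i) - c))
    convert this using 1
    ring
  · obtain ⟨a1, a2, a3⟩ := inv (com_sq hq.out c) hl hi
    rw [← Oc_lc] at a1 a2
    refine .inl ⟨⟨k2, sp l ((c : ℤ) - c * om q - i) * B, ?_⟩, ?_⟩
    · rw [← k3, mul_mul_mul_comm, a2, h2, Oc_mul_self hq.out]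
    · rw [← k3, ← mul_assoc, ← e]
      exact congrArg (· * L0) a3

omit hq in
theorem lvl_sp {P P' R R' O : Submodule ℤ ℂ} (hl : l.Prime) (l11 : l ≠ 11) (hL : O * L = L)
    (o : (1 : ℂ) ∈ O) (hP : O * P = P) (h1 : P * P' = (l : ℂ) • O) (h2 : R * R' = (11 : ℂ) • O)
    (hR : O * R = R) (b1 : P' ≤ O) (b2 : R' ≤ O) (c1 : (l : ℂ) ∈ P') (c2 : (11 : ℂ) ∈ R') :
    P * L ⊔ (l : ℂ) • (11 : ℂ)⁻¹ • (R * L) = (11 : ℂ)⁻¹ • (R * (P * L)) := by
  have o' : (1 : ℂ) ∈ R' ⊔ P' := of_cop (a := 11) (b := l)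
    (Nat.isCoprime_iff_coprime.2 ((Nat.coprime_primes (by norm_num) hl).2 l11.symm))
    (Submodule.mem_sup_left (by simpa using c2)) (Submodule.mem_sup_right (by simpa using c1))
  have k : R * (P * L) * (R' ⊔ P') = R * (P * L) := le_antisymm
    ((mul_le_mul_right (sup_le b2 b1) _).trans (by rw [mul_comm, ← mul_assoc, hR]))
    fun z hz => by simpa using Submodule.mul_mem_mul hz o'
  rw [← k, Submodule.mul_sup, Submodule.smul_sup', mul_right_comm, h2, smul_mul_left, ← mul_assoc O,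
    hP, smul_smul _ _ (P * L), inv_mul_cancel₀ (by norm_num), one_smul, mul_assoc R,
    mul_right_comm, h1, smul_mul_left, hL, smul_mul_right, smul_comm]

end Hk

open Hk Classical in
theorem hk_thm (hV : VStmt) (hPic : PicStmt) (hKer : KerStmt) (hGal : GalStmt) : HkStmt := by
  intro Pp a t0 hX q hq' hq h44 b c l hb c0 c11 hl l2 l11 lq lc x s hs
  have q0 := hq.ne_zero
  have him := im_ne q0 c0
  have lc0 : l * c ≠ 0 := mul_ne_zero hl.ne_zero c0
  have p11 : Nat.Prime 11 := by norm_num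
  have lc11 : ¬ 11 ∣ l * c := fun h => (p11.dvd_mul.1 h).elim
    (fun h => l11 ((Nat.prime_dvd_prime_iff_eq p11 hl).1 h).symm) c11
  have dv := dvd_mul_left c l
  obtain ⟨-, -, -, -, hS, hP⟩ := hKer q hq h44 c c0
  obtain ⟨y0, rfl⟩ := (hKer q hq h44 _ lc0).2.2.2.1 c dv x
  have h0 := cl_out y0
  generalize y0.out.1 = L0 at h0
  have hL := h0.res dv
  generalize e0 : Oc q c * L0 = L at hL
  obtain ⟨OL, B, LB⟩ := hL.inv
  obtain ⟨g1, g2, -, -, g3⟩ := hGal Pp a t0 hX q hq h44 b c hb c0 c11 (res c y0)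
  obtain ⟨g0, g1⟩ := g1 L hL
  obtain ⟨-, r1, r2, -, r3, -, -⟩ := hP 11 b p11 (by omega) c11 hb
  obtain ⟨-, -, r4, -⟩ := hP 11 (1 - b) p11 (by omega) c11 (hP 11 b p11 (by omega) c11 hb).1
  have ex : ∀ y : Pic q (l * c), ∃ L', y ∈ s → Cl y L' ∧ Oc q c * L' = L := fun y => by
    by_cases hy : y ∈ s
    · obtain ⟨μ, m0, m⟩ := (((hs y).1 hy) ▸ (cl_out y).res dv).exists_smul hL
      exact ⟨μ • y.out.1, fun _ => ⟨(cl_out y).smul m0, by rw [smul_mul_right, m]⟩⟩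
    · exact ⟨⊥, fun h => (hy h).elim⟩
  choose Λ hΛ using ex
  have im : ∀ L', L' ∈ s.image Λ ↔ Ivt q (l * c) L' ∧ Oc q c * L' = L := fun L' => by
    rw [Finset.mem_image]
    refine ⟨fun ⟨y, hy, e⟩ => e ▸ ⟨(hΛ y hy).1.inv, (hΛ y hy).2⟩, fun ⟨h, e⟩ => ?_⟩
    obtain ⟨y, hy⟩ := h.cl
    have ys : y ∈ s := (hs y).2 ((hy.res dv).unique (e ▸ hL))
    obtain ⟨μ, -, m⟩ := hy.exists_smul (hΛ y ys).1
    have k := (hΛ y ys).2
    rw [m, smul_mul_right, e] at k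
    have k' : μ • Oc q c = Oc q c := by rw [← LB, ← smul_mul_left, k]
    refine ⟨y, ys, m.trans ?_⟩
    rcases ((hPic q hq h44).2 c c0).2.2.1 μ k' with rfl | rfl
    · exact one_smul _ _
    · ext z
      simp only [mem_smul_iff, neg_one_mul]
      exact ⟨fun ⟨u, hu, e⟩ => e ▸ neg_mem hu, fun h => ⟨-z, neg_mem h, neg_neg z⟩⟩
  have val : ∀ y ∈ s, Pp (Λ y) (Λ y ⊔ (l : ℂ) • lvl q c b L) = hp Pp b y := fun y hy => by
    rw [lvl_of (hΛ y hy).1.inv (hΛ y hy).2 r1.inv.1]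
    exact ((hGal Pp a t0 hX q hq h44 b _ hb lc0 lc11 y).1 _ (hΛ y hy).1).2
  have sm : ∑ L' ∈ s.image Λ, Pp L' (L' ⊔ (l : ℂ) • lvl q c b L) = ∑ y ∈ s, hp Pp b y := by
    rw [Finset.sum_image (g := Λ) fun y hy y' hy' e =>
      (hΛ y hy).1.unique (by rw [e]; exact (hΛ y' hy').1)]
    exact Finset.sum_congr rfl val
  have nb : ∀ L', L' ∈ s.image Λ → Nb l L L' := fun L' h =>
    nb_of q0 c0 hl ((im L').1 h).1 ((im L').1 h).2
  refine ⟨fun ns => ⟨?_, fun O φ hO hφ y hy => ?_⟩, fun r hr => ?_⟩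
  · rw [← sm, ← g1]
    refine hX.hecke l L _ _ hl l11 g0 fun L' => ⟨nb L', fun h => ?_⟩
    exact (cls_nb hl lc h0.inv e0 h).elim (im L').2 fun ⟨r, hr, _⟩ =>
      (ns ((hS l hl l2).2 ⟨r, hr⟩)).elim
  · have k := hX.nb l O φ L _ (Λ y) hl l2 l11 hO hφ g0 (g1 ▸ g2) (nb _ (Finset.mem_image_of_mem _ hy))
    rw [val y hy, g1] at k
    refine k.elim id fun k => ?_
    have k' := g3 φ fun e => ns ((hV.2.1.2.2.2.2.2.2.2.1 q l O φ hq hq'.out hl l2 lq hO hφ).1 e)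
    rwa [← k', inv_smul_smul] at k
  have sp1 : ∀ r, Rt q l r → Nb l L (pid q c l r * L) ∧ pid q c l r * L ∉ s.image Λ ∧
      Pp (pid q c l r * L) (pid q c l r * L ⊔ (l : ℂ) • lvl q c b L) =
        hp Pp b (lam q c l r * res c y0) := fun r hr => by
    obtain ⟨s0, s1, s2, -, s3, -, -⟩ := hP l r hl lq lc hr
    obtain ⟨-, -, s4, -⟩ := hP l (1 - r) hl lq lc s0
    have n1 : pid q c l r * L ≠ L := fun k => ne1 him hl
      ((cancel LB s1.inv.1 (Oc_mul_self hq'.out c) (k.trans OL.symm)).ge (one_mem_Oc q c))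
    refine ⟨⟨lt_of_le_of_ne ?_ fun k => ?_, lt_of_le_of_ne ?_ n1⟩, fun k => n1 ?_, ?_⟩
    · rw [← OL, ← smul_mul_left, OL]
      exact mul_le_mul_left lO_le' _
    · have := cancel (X := (l : ℂ) • Oc q c) LB (by rw [smul_mul_right, Oc_mul_self hq'.out])
        s1.inv.1 (by rw [smul_mul_left, OL, k])
      exact ne2 him hl (lO_le (this.ge (right_mem_sp _ _)))
    · exact (mul_le_mul_left s2 _).trans OL.le
    · have := ((im _).1 k).2
      rwa [← mul_assoc, s1.inv.1] at this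
    · rw [lvl, lvl_sp hl l11 OL (one_mem_Oc q c) s1.inv.1 s3 (by simpa using r3) r1.inv.1 s4 r4
        (left_mem_sp _ _) (by simpa [pid] using left_mem_sp _ _)]
      exact ((hGal Pp a t0 hX q hq h44 b c hb c0 c11 _).1 _ (s1.mul hL)).2
  obtain ⟨s0, s1, -, -, -, s5, -⟩ := hP l r hl lq lc hr
  obtain ⟨-, s1', -⟩ := hP l (1 - r) hl lq lc s0
  have pl := Nat.prime_iff_prime_int.1 hl
  have lc' : ¬ (l : ℤ) ∣ c := fun k => lc (Int.natCast_dvd_natCast.1 k)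
  have dif : pid q c l r * L ≠ pid q c l (1 - r) * L := fun k => by
    have d1 := dvd_of_sp him (cancel LB s1.inv.1 s1'.inv.1 k)
    rw [← mul_sub] at d1
    have d2 := (pl.dvd_or_dvd d1).resolve_left lc'
    have e4 : (4 : ℤ) * ((q + 1) / 4 : ℕ) = q + 1 := by have := hq'.out; omega
    have d3 : (l : ℤ) ∣ q := by
      have := dvd_sub (Dvd.dvd.mul_left hr 4) (d2.mul_right (r - (1 - r)))
      rwa [show 4 * (r ^ 2 - r + ((q + 1) / 4 : ℕ)) - (r - (1 - r)) * (r - (1 - r)) = (q : ℤ) by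
        linear_combination e4] at this
    exact lq ((Nat.prime_dvd_prime_iff_eq hl hq).1 (Int.natCast_dvd_natCast.1 d3))
  have k := hX.hecke l L _ (insert (pid q c l r * L) (insert (pid q c l (1 - r) * L) (s.image Λ)))
    hl l11 g0 fun L' => ⟨fun h => ?_, fun h => ?_⟩
  · rw [Finset.sum_insert (by simp only [Finset.mem_insert, not_or]; exact ⟨dif, (sp1 r hr).2.1⟩),
      Finset.sum_insert (sp1 _ s0).2.1, (sp1 r hr).2.2, (sp1 _ s0).2.2, sm, g1, s5] at k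
    rw [← k]
    abel
  · simp only [Finset.mem_insert] at h
    rcases h with rfl | rfl | h
    exacts [(sp1 r hr).1, (sp1 _ s0).1, nb _ h]
  · simp only [Finset.mem_insert]
    rcases cls_nb hl lc h0.inv e0 h with h | ⟨r', hr', rfl⟩
    · exact .inr (.inr ((im L').2 h))
    have d1 : (l : ℤ) ∣ (r' - r) * (r' - (1 - r)) := by
      have := dvd_sub hr' hr
      rwa [show ∀ n : ℤ, r' ^ 2 - r' + n - (r ^ 2 - r + n) = (r' - r) * (r' - (1 - r)) from
        fun n => by ring] at this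
    rcases pl.dvd_or_dvd d1 with d | d
    · refine .inl ?_
      rw [← e0, ← mul_assoc, mul_comm (pid _ _ _ _), s1.inv.1, pid,
        sp_cong (j := c * r) (by rw [← mul_sub]; exact d.mul_left _)]
    · refine .inr (.inl ?_)
      rw [← e0, ← mul_assoc, mul_comm (pid _ _ _ _), s1'.inv.1, pid,
        sp_cong (j := c * (1 - r)) (by rw [← mul_sub]; exact d.mul_left _)]

end Pool.Agent.Lib.MP_d6ddbd_nt.K11
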