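import Pool.Agent.Lib.MP_d6ddbd_nt.K11.KB3

/-! Block `K`: the system of cocycles. -/

set_option autoImplicit false

open Pool.Agent.Lib.MP_02f36d_nt (xc yc)

noncomputable section

namespace Pool.Agent.Lib.MP_d6ddbd_nt.K11

namespace KK

open Finset

namespace Ctx

variable {q : ℕ} {d : ℤ} {r : ℕ} {k : ℕ → ℕ} {a : ℕ → ℤ} {S : Finset ℕ → (A k → ℤ) →+ Pt}
  {ρ : G → A k} {ν : A k} {j : ℕ → A k} (C : Ctx q d r k a S ρ ν j)

include C

theorem iner_Y {v : ℕ} {O : ValuationSubring ℂ} {σ : G} (hv : v.Prime) (hO : Ov O v)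
    (hσ : Frob O 1 σ) (vq : v ≠ q) (vr : v ≠ r) {n : Finset ℕ} (vn : v ∉ n)
    {f : Co ℕ (k r) (tt d + 3) → ℤ} (hf : Dep n f) :
    σ • C.YY n f = chi d.natAbs.primeFactors (ρ σ) • C.YY n f := by
  have hG := C.hV.2.1.2.2.2.2.2.2.1 q v O σ C.qd.qf.pr C.qd.qf.m4 hv vq hO hσ
  rw [C.sh_GK hG n f hf]
  congr 2
  funext x
  apply hf
  · simp [pa, C.hs.iner v O σ r hv hO hσ hG vr.symm]
  · intro p hp
    simp [pa, C.hs.iner v O σ p hv hO hσ hG (fun e => vn (e ▸ hp))]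

theorem chi_of {σ : G} (hG : σ (om q) = om q) {s : ℂ} (hs : s ^ 2 = d) {η : ℤ}
    (h : σ s = η * s) : chi d.natAbs.primeFactors (ρ σ) = η := by
  have h1 := chi_rho C.hs hG C.qd.fam C.cdD hs
  have h0 : s ≠ 0 := fun e => C.qd.fam.sf.ne_zero (by
    rw [e] at hs
    exact_mod_cast (by simpa using hs.symm : (d : ℂ) = 0))
  exact_mod_cast mul_right_cancel₀ h0 (h1.symm.trans h)

theorem atD {l : ℕ} {O : ValuationSubring ℂ} {σ φ : G} {η : ℤ} {s : ℂ} {n : Finset ℕ}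
    (hn : Kn q d n) (hl : l.Prime) (hd : (l : ℤ) ∣ d) (h2 : l ≠ 2) (h11 : l ≠ 11) (hO : Ov O l)
    (hσ : Frob O 1 σ) (hφ : Frob O l φ) (hs : s ^ 2 = d) (e1 : σ s = -s) (e2 : φ s = η * s) :
    ∃ u : ℤ, Odd u ∧
      C.sys.AtD (mkLoc C.hR hl h2 h11 hO hσ hφ) n η (-(u * ((j l r).val : ℤ))) := by
  have lq : l ≠ q := fun e => C.qd.nd (e ▸ hd)
  have lr : l ≠ r := fun e => C.rd.nd (e ▸ hd)
  have ln : l ∉ n := fun h => (hn l h).nd hd
  have hG := C.hV.2.1.2.2.2.2.2.2.1 q l O σ C.qd.qf.pr C.qd.qf.m4 hl lq hO hσ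
  have hG' := (C.hV.2.1.2.2.2.2.2.2.2.1 q l O φ C.qd.qf.pr C.qd.qf.m4 hl h2 lq hO hφ).2
    (C.qd.spl l hl hd)
  obtain ⟨u, hu, e3⟩ := C.hs.frob l O φ r (by rw [C.kd l hl hd]; omega) (C.qd.spl l hl hd) hO hφ
    lr.symm
  have c1 := C.chi_of hG hs (η := -1) (by simpa using e1)
  have c2 := C.chi_of hG' hs e2
  refine ⟨u, hu, fun f hf => ?_, c2 ▸ chi_or _ _, _, c2 ▸ C.sh_GK hG', ?_⟩
  · have := C.iner_Y hl hO hσ lq lr ln hf
    rwa [c1, neg_one_smul] at this
  · simp [pa, e3]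

theorem atP {p : ℕ} {O : ValuationSubring ℂ} {σ φ : G} {s : ℂ} {n : Finset ℕ}
    (hn : Kn q d n) (hp : Kol q d p) (pn : p ∉ n) (hO : Ov O p)
    (hσ : Frob O 1 σ) (hφ : Frob O p φ) (hs : s ^ 2 = GF.pst p) (e1 : σ s = -s) :
    C.sys.AtP (mkLoc C.hR hp.pr (kol_ne_two hp) hp.n11 hO hσ hφ) n p p
      (((p + 1) / 2 ^ k p : ℕ) : ℤ) := by
  have kp := C.kp p hp
  have kp0 : k p ≠ 0 := by omega
  have pr := C.kol_ne_r hp
  have hG := C.hV.2.1.2.2.2.2.2.2.1 q p O σ C.qd.qf.pr C.qd.qf.m4 hp.pr hp.nq hO hσ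
  have hG' : φ (om q) ≠ om q := fun e => hp.inert
    ((C.hV.2.1.2.2.2.2.2.2.2.1 q p O φ C.qd.qf.pr C.qd.qf.m4 hp.pr (kol_ne_two hp) hp.nq hO hφ).1 e)
  have ha : C.sys.a p = a p := if_pos hp
  have hn' : Kn q d (insert p n) := fun x hx => by
    rcases Finset.mem_insert.1 hx with rfl | hx
    exacts [hp, hn x hx]
  have pc := C.not_mem_cc pr hp.nd pn
  refine ⟨pn, ?_, ha ▸ a_kol C.hR C.hs hp, ?_, ?_, ?_, ?_⟩
  · rw [kp]
    exact_mod_cast Nat.div_mul_cancel hp.dv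
  · have c1 : chi d.natAbs.primeFactors (ρ σ) = 1 := Finset.prod_eq_one fun l hl => by
      rw [C.hs.iner p O σ l hp.pr hO hσ hG fun e => hp.nd (e ▸ ((mem_D C.qd.fam).1 hl).2)]
      simp [sg]
    refine ⟨_, c1 ▸ C.sh_GK hG, ?_, fun p' hp' => ?_, ?_⟩
    · simp [pa, C.hs.iner p O σ r hp.pr hO hσ hG pr.symm]
    · simp [pa, C.hs.iner p O σ p' hp.pr hO hσ hG (fun e => pn (e ▸ hp'))]
    · have h0 : s ≠ 0 := fun e => by
        have h1 : GF.pst p = 0 := by
          rw [e] at hs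
          exact_mod_cast (by simpa using hs.symm : (GF.pst p : ℂ) = 0)
        have h2 := (pst_mod (hp.pr.eq_two_or_odd.resolve_left (kol_ne_two hp))).1
        omega
      have h3 : ¬ Even (ρ σ p).val := fun e => h0 (by
        have := (C.hs.gen σ p s hG kp0 hs).2 e
        linear_combination (e1 - this) / 2)
      change Odd (cz (k p) _ (-ρ σ p)).val
      rw [cz_val kp, ← Nat.not_even_iff_odd, ← sg_eq_one, ← zero_sub, sg_sub kp0]
      rw [← sg_eq_one] at h3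
      simpa [sg] using h3
  · intro n' f hf
    have h1 := C.rf_not hG'
    change φ • φ • C.YY n' f = C.YY n' f
    rw [h1 n' f hf, gz, h1 n' _ (hf.refl _), smul_smul]
    rcases chi_or d.natAbs.primeFactors (ν + ρ (φ * cj)) with h | h <;> simp [h]
  · intro x
    rw [ha, ← Loc.hF, ← Loc.hF, ← map_zsmul, ← map_zsmul, ← map_add]
    apply (red_eq _ _).2
    have := C.hs.es p O φ (φ • x.1) hp.pr (kol_ne_two hp) hp.n11 hO hφ (φ • x).2
    rw [inv_smul_smul, ← natCast_zsmul] at this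
    exact this
  · intro g ω hg
    rw [← map_zsmul, ← map_zsmul, ← map_zsmul, ← Loc.hF]
    apply (red_eq _ _).2
    have dg : Dep (insert p n) fun x => g x * ω (x.2 p) := fun x y h1 h2 => by
      simp only [hg x y h1 fun p' hp' => h2 p' (Finset.mem_insert_of_mem hp'),
        h2 p (Finset.mem_insert_self _ _)]
    have e : cc d r (insert p n) = insert p (cc d r n) := Finset.union_insert _ _ _
    have h1 := C.hs.cong (cc d r n) _ p O φ (C.cd hn)
      (e ▸ dep_tst k d r _ (insert p n) fun x => g x * ω (x.2 p)) kp0 pc hp.inert hO hφ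
    change (C.YY _ _ : Pt) - φ • (C.YY _ _ : Pt) ∈ _
    rw [C.YY_pos hn', C.YY_pos hn, e]
    have e2 : ∀ (y : A k) (x : ZMod (2 ^ k p)), tst k d r _ (insert p n) (fun x => g x * ω (x.2 p))
        (Function.update y p x) = tst k d r _ n g y * ω (cz (k p) _ x) := by
      intro y x
      have h2 := dep_tst k d r _ n g (Function.update y p x) y fun l hl =>
        Function.update_of_ne (by rintro rfl; exact pc hl) _ _
      rw [← h2, tst_eq d dg, tst_eq d hg, mul_assoc]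
      simp [pa]
    have e3 : tst k d r _ n (((((p + 1) / 2 ^ k p : ℕ) : ℤ) * ∑ z, ω z) • g) =
        fun y => (((p + 1) / 2 ^ k p : ℕ) : ℤ) * ∑ x : ZMod (2 ^ k p),
          tst k d r _ (insert p n) (fun x => g x * ω (x.2 p)) (Function.update y p x) := by
      funext y
      simp only [e2, ← Finset.mul_sum, cz_sum kp]
      simp only [tst, Pi.smul_apply, smul_eq_mul]
      ring
    rw [e3]
    exact h1

theorem main : ∃ M ξ, KS q d r M ξ := by
  obtain ⟨M, hM, L, n0, b0, s0, h0, hne⟩ := C.sys.exists_lev C.base (by rw [C.kr]; omega) (by omega)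
  have hex : ∀ (n : Finset ℕ) (i : ℕ), ∃ x : AlgS C.hR.1, (2 : ℤ) • x ∈ C.sys.A ∧
      (i ≤ M / 2 → (2 : ℤ) ^ (M / 2 - i) • (2 : ℤ) • x = C.sys.Q n (2 * i + M % 2)) ∧
      (M / 2 < i → x = 0) := by
    intro n i
    by_cases hi : i ≤ M / 2
    · obtain ⟨u, hu, e⟩ := C.sys.D_anti (s := M / 2 - i) (by omega) (L.hM n (2 * i + M % 2))
      obtain ⟨x, rfl⟩ := exists_half u
      exact ⟨x, hu, fun _ => e.symm, fun h => absurd hi (by omega)⟩
    · exact ⟨0, by simp, fun h => absurd h hi, fun _ => rfl⟩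
  choose X xA xQ x0 using hex
  have hb : ∀ i, i ≤ M / 2 → 2 * i + M % 2 + 2 * (M / 2 - i) = M := fun i hi => by omega
  have inv : ∀ n i, C.sys.Inv (X n i) := by
    intro n i
    by_cases hi : i ≤ M / 2
    · exact L.inv (hb i hi) (xA n i) (xQ n i hi)
    · rw [x0 n i (by omega)]; exact C.sys.inv_zero
  have top : ∀ n i σ, M / 2 < i → C.sys.coc (X n i) σ = 0 := fun n i σ hi => by
    rw [x0 n i hi, C.sys.coc_zero]
  refine ⟨M / 2, fun n i σ => (C.sys.coc (X n i) σ : Pt), by omega,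
    fun n i σ hi => by rw [top n i σ hi]; rfl, fun n i _ => ⟨fun σ => ?_, fun σ τ => ?_, ?_⟩,
    ?_, ?_, ?_, ?_, ?_⟩
  · exact (two_iff _).1 ((inv n i).two σ)
  · exact congrArg Subtype.val ((inv n i).mul σ τ)
  · refine ⟨{xc (X n i).1, yc (X n i).1}, ?_, fun σ hσ => ?_⟩
    · intro x hx
      rcases Finset.mem_insert.1 hx with rfl | hx
      · exact (X n i).2.1
      · rw [Finset.mem_singleton.1 hx]; exact (X n i).2.2
    · have : σ • X n i = X n i := Subtype.ext (act_ext (smul_eq_zero' _ _)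
        ((xc_smul _ _).trans (hσ _ (by simp))) ((yc_smul _ _).trans (hσ _ (by simp))))
      rw [C.sys.coc_stab this]; rfl
  · have hn0 : Kn q d n0 := by
      by_contra h
      apply hne
      have : C.sys.Q n0 b0 = 0 := C.YY_neg h _
      rw [this]; exact AddSubgroup.zero_mem _
    refine ⟨n0, b0 / 2, hn0, fun ⟨T, t1, t2⟩ => hne ?_⟩
    have e := xQ n0 (b0 / 2) (by omega)
    rw [show 2 * (b0 / 2) + M % 2 = b0 by omega, show M / 2 - b0 / 2 = s0 by omega] at e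
    obtain ⟨T', hT'⟩ : ∃ T' : AlgS C.hR.1, T'.1 = T := ⟨⟨T, alg_of_two C.hR.1 t1⟩, rfl⟩
    have t3 : (2 : ℤ) • T' = 0 := (two_iff _).2 (hT' ▸ t1)
    have hA : X n0 (b0 / 2) - T' ∈ C.sys.A := by
      intro σ h1 h2
      have h3 := C.sys.coc_fix (xA n0 (b0 / 2) σ h1 h2)
      have h4 : C.sys.coc (X n0 (b0 / 2)) σ = σ • T' - T' := Subtype.ext (by
        have := t2 σ
        rw [← hT'] at this
        exact this)
      rw [h4] at h3
      rw [smul_sub]
      generalize σ • T' = y at h3 ⊢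
      generalize σ • X n0 (b0 / 2) = z at h3 ⊢
      linear_combination (norm := module) -h3
    refine ⟨_, hA, ?_⟩
    rw [← e]
    linear_combination (norm := module) (2 : ℤ) ^ s0 • t3
  · intro n i v O hn hv hO vq vr vd vn
    refine ⟨(X n i).1, (X n i).2, fun σ hσ => ?_⟩
    have hG := C.hV.2.1.2.2.2.2.2.2.1 q v O σ C.qd.qf.pr C.qd.qf.m4 hv vq hO hσ
    have c1 : chi d.natAbs.primeFactors (ρ σ) = 1 := Finset.prod_eq_one fun l hl => by
      rw [C.hs.iner v O σ l hv hO hσ hG fun e => vd (e ▸ ((mem_D C.qd.fam).1 hl).2)]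
      simp [sg]
    have h1 : σ • (2 : ℤ) • X n i = (2 : ℤ) • X n i := by
      by_cases hi : i ≤ M / 2
      · apply C.sys.cancel (M / 2 - i) (C.sys.stab _ _ (xA n i)) (xA n i)
        rw [← gz, xQ n i hi]
        have := C.iner_Y hv hO hσ vq vr vn (dep_tf2 (ph (2 * i + M % 2)) n)
        rwa [c1, one_smul] at this
      · simp [x0 n i (by omega)]
    refine ⟨?_, congrArg Subtype.val (C.sys.coc_fix h1)⟩
    have := congrArg Subtype.val h1
    rwa [coe_sm, coe_two] at this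
  · intro n l O σ φ η s hn hl hd hnr hO hσ hφ hs e1 e2
    have l2 := fam_odd C.qd.fam hl hd
    have l11 : l ≠ 11 := fun e => C.qd.fam.n11 (by simpa [e] using hd)
    obtain ⟨u, hu, hD⟩ := C.atD hn hl hd l2 l11 hO hσ hφ hs e1 e2
    obtain ⟨hty, ht⟩ := (C.hR.2 l O hl l2 l11 hO).2.2.2.2.2.2
    obtain ⟨t3, t1, -⟩ := ht φ hφ
    obtain ⟨j1, j3⟩ := C.hj l hl hd
    have ty3 : nr l = 3 → (∀ v : AlgS C.hR.1, (2 : ℤ) • v = 0 → φ • v = v) ∧
        ∃ u', Odd u' ∧ -(u * ((j l r).val : ℤ)) = 2 * u' := fun h => by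
      obtain ⟨c, hc⟩ : ∃ c : ℤ, ((j l r).val : ℤ) = 2 * (2 * c + 1) :=
        ⟨((j l r).val / 4 : ℕ), by have := j3 h; omega⟩
      exact ⟨fun v hv => Subtype.ext (t3.1 h v.1 ((two_iff v).1 hv)), -(u * (2 * c + 1)),
        (hu.mul (odd_two_mul_add_one c)).neg, by rw [hc]; ring⟩
    have ty1 : nr l = 1 → (∀ v : AlgS C.hR.1, (2 : ℤ) • v = 0 → φ • φ • v = v) ∧
        Odd (-(u * ((j l r).val : ℤ))) := fun h =>
      ⟨fun v hv => Subtype.ext ((t1.1 h).1 v.1 ((two_iff v).1 hv)),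
        (hu.mul (by exact_mod_cast Nat.odd_iff.2 (j1 h))).neg⟩
    have tp : ∀ i, M / 2 ≤ i → C.sys.coc (X n i) σ = 0 := by
      intro i hi
      rcases hi.eq_or_lt with rfl | hi
      · refine hD.top L ?_ ?_
        · rcases hty with h | h | h
          exacts [absurd h hnr, Or.inr (ty1 h), Or.inl (ty3 h)]
        · have := xQ n (M / 2) le_rfl
          rwa [Nat.sub_self, pow_zero, one_smul, Nat.div_add_mod] at this
      · exact top n i σ hi
    have key : ∀ i, ∃ Z V : AlgS C.hR.1, (2 : ℤ) • Z = 0 ∧ (2 : ℤ) • V = C.sys.coc (X n i) σ ∧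
        C.sys.coc (X n i) φ = φ • V - η • V + Z ∧
        (nr l = 3 → (i = 0 → Z = 0) ∧ ∀ i', i = i' + 1 → Z = C.sys.coc (X n i') σ) ∧
        (nr l = 1 → (i = 0 → φ • Z = Z) ∧
          ∀ i', i = i' + 1 → φ • Z - Z = C.sys.coc (X n i') σ) := by
      intro i
      by_cases hi : i ≤ M / 2
      · obtain ⟨V, hV⟩ := exists_half (C.sys.coc (X n i) σ)
        obtain ⟨Z, hZ⟩ : ∃ Z, C.sys.coc (X n i) φ = φ • V - η • V + Z :=
          ⟨_, (add_sub_cancel _ _).symm⟩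
        refine ⟨Z, V, ?_⟩
        rcases i with _ | i
        · obtain ⟨m1, m2, m3⟩ := hD.main L (hb 0 hi) (S2 := 0) (xA n 0) (xQ n 0 hi) (by simp)
            (by rw [Sys.Qm, if_neg (by omega)]; simp) hV hZ
          rw [C.sys.coc_zero] at m2 m3
          exact ⟨m1, hV, hZ, fun h => ⟨fun _ => m2 (ty3 h).1 (ty3 h).2, fun _ e => by omega⟩,
            fun h => ⟨fun _ => sub_eq_zero.1 (m3 (ty1 h).1 (ty1 h).2), fun _ e => by omega⟩⟩
        · obtain ⟨m1, m2, m3⟩ := hD.main L (hb _ hi) (S2 := X n i) (xA n _) (xQ n _ hi) (xA n i)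
            (by
              have := xQ n i (by omega)
              rw [show M / 2 - i = M / 2 - (i + 1) + 1 by omega] at this
              rw [this, show 2 * (i + 1) + M % 2 = 2 * i + M % 2 + 2 by omega, Sys.Qm_add]) hV hZ
          exact ⟨m1, hV, hZ,
            fun h => ⟨fun e => by omega, fun i' e => by
              obtain rfl : i = i' := by omega
              exact m2 (ty3 h).1 (ty3 h).2⟩,
            fun h => ⟨fun e => by omega, fun i' e => by
              obtain rfl : i = i' := by omega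
              exact m3 (ty1 h).1 (ty1 h).2⟩⟩
      · refine ⟨0, 0, by simp, by simp [top n i σ (by omega)], by simp [top n i φ (by omega)],
          fun _ => ⟨fun _ => rfl, fun i' e => (tp i' (by omega)).symm⟩,
          fun _ => ⟨fun _ => smul_zero _, fun i' e => ?_⟩⟩
        rw [tp i' (by omega)]; simp
    choose Z V k1 k2 k3 k4 k5 using key
    refine ⟨fun i => (Z i).1, fun i => (V i).1, fun i => ⟨(two_iff _).1 (k1 i), ?_,
      congrArg Subtype.val (k3 i)⟩, fun h => ⟨congrArg Subtype.val ((k4 0 h).1 rfl),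
      fun i => congrArg Subtype.val ((k4 (i + 1) h).2 i rfl)⟩,
      fun h => ⟨congrArg Subtype.val ((k5 0 h).1 rfl),
      fun i => congrArg Subtype.val ((k5 (i + 1) h).2 i rfl)⟩⟩
    rw [← coe_two, k2]
  · intro n i p O σ φ s hn hp pn hO hσ hφ _ hs e1
    by_cases hi : i ≤ M / 2
    · obtain ⟨m1, m2⟩ := (C.atP hn hp pn hO hσ hφ hs e1).main L (hb i hi) (xA n i) (xQ n i hi)
        (xA _ i) (xQ _ i hi)
      exact ⟨congrArg Subtype.val m1, congrArg Subtype.val m2⟩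
    · simp only [top _ i _ (not_le.1 hi)]
      exact ⟨g0 φ, rfl⟩
  · intro hMt
    classical
    obtain ⟨χ, hχ⟩ : ∃ χ : G → ℤ, χ = fun σ => if σ (om q) = om q then
        chi d.natAbs.primeFactors (ρ σ) else -chi d.natAbs.primeFactors (ν + ρ (σ * cj)) :=
      ⟨_, rfl⟩
    have c1 : ∀ σ, χ σ = 1 ∨ χ σ = -1 := by
      intro σ
      simp only [hχ]
      split_ifs
      · exact chi_or _ _
      · rcases chi_or d.natAbs.primeFactors (ν + ρ (σ * cj)) with h | h <;> simp [h]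
    have e0 := xQ ∅ 0 (Nat.zero_le _)
    rw [show 2 * 0 + M % 2 = 0 by omega] at e0
    have f0 : ∀ x y : Co ℕ (k r) (tt d + 3), tf2 (ph 0) ∅ x = tf2 (ph 0) ∅ y := fun x y => by
      simp [tf2, ph, ps]
    have c2 : ∀ σ : G, σ • (2 : ℤ) • X ∅ 0 = χ σ • (2 : ℤ) • X ∅ 0 := by
      intro σ
      apply C.sys.cancel (M / 2 - 0) (C.sys.stab _ _ (xA _ _)) (zsmul_mem (xA _ _) _)
      rw [← gz, smul_comm _ (χ σ), e0, hχ]
      simp only
      split_ifs with h
      · exact (C.sh_GK h ∅ _ (dep_tf2 _ _)).trans (by rw [funext fun x => f0 (x + _) x]; rfl)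
      · exact (C.rf_not h ∅ _ (dep_tf2 _ _)).trans (by rw [funext fun x => f0 (_ - x) x]; rfl)
    refine ⟨(X ∅ 0).1, χ, (X ∅ 0).2, c1, fun σ s hs hσ => ?_, ?_, fun σ => ⟨?_, ?_⟩⟩
    · simp only [hχ, if_pos hσ]
      exact chi_rho C.hs hσ C.qd.fam C.cdD hs
    · simp only [hχ, if_neg (cj_not C.qd.qf.pr.ne_zero), cj_mul_cj, rho_one C.hs, add_zero,
        chi_nu C.hs C.qd.fam C.cdD]
    · rw [← coe_two]
      exact congrArg Subtype.val (c2 σ)
    · have h3 : C.sys.coc (X ∅ 0) σ = σ • X ∅ 0 - χ σ • X ∅ 0 := by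
        have h4 := c2 σ
        rcases c1 σ with h | h <;> rw [h] at h4 ⊢
        · rw [one_smul] at h4 ⊢
          exact C.sys.coc_fix h4
        · rw [neg_one_smul] at h4 ⊢
          rw [C.sys.coc_neg (xA _ _) h4, sub_neg_eq_add]
      exact congrArg Subtype.val h3

end Ctx

end KK

theorem k_thm (hV : VStmt) (hR : RStmt) : KStmt :=
  fun _ _ _ _ _ _ _ _ _ h1 h2 h3 h4 h5 h6 h7 h8 =>
    KK.Ctx.main ⟨hV, hR, h1, h2, h3, h4, h5, h6, h7, h8⟩

end Pool.Agent.Lib.MP_d6ddbd_nt.K11
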