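import Pool.Agent.Lib.MP_d6ddbd_nt.K11.StP

/-!
The kernel of the map from the class group of an order to the class group of the maximal order,
and the primes of degree one.
-/

set_option autoImplicit false

open Pointwise
open Pool.Agent.Lib.MP_9177b7_ag.CM (IsLat sp bar bar_sp ord_mul_ord ord_mul_eq_iff smul_prime_le
  smul_mul_left smul_mul_right sp_le sp_mul mem_sp left_mem_sp right_mem_sp mem_smul_iff
  conj_omega)

noncomputable section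

namespace Pool.Agent.Lib.MP_d6ddbd_nt.K11

namespace Ker

variable {q c : ℕ}

theorem mem_OK {z : ℂ} : z ∈ OK q ↔ ∃ a b : ℤ, a + b * om q = z := by
  simp only [OK, mem_sp, mul_one]

theorem int_OK (a : ℤ) : (a : ℂ) ∈ OK q := mem_OK.2 ⟨a, 0, by simp⟩

theorem one_OK : (1 : ℂ) ∈ OK q := left_mem_sp _ _

theorem om_OK : om q ∈ OK q := right_mem_sp _ _

theorem mem_cO {z : ℂ} : z ∈ (c : ℂ) • OK q ↔ ∃ y ∈ OK q, c * y = z := mem_smul_iff

theorem cO_mem {y : ℂ} (hy : y ∈ OK q) : (c : ℂ) * y ∈ (c : ℂ) • OK q := mem_cO.2 ⟨y, hy, rfl⟩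

theorem zmul {X : Submodule ℤ ℂ} {x : ℂ} (a : ℤ) (h : x ∈ X) : (a : ℂ) * x ∈ X := by
  simpa only [zsmul_eq_mul] using X.smul_mem a h

theorem of_eq {X : Submodule ℤ ℂ} {x y : ℂ} (h : x ∈ X) (e : y = x) : y ∈ X := e ▸ h

theorem mem_Lp {π z : ℂ} : z ∈ Lp q c π ↔ ∃ a : ℤ, ∃ y ∈ OK q, a * π + c * y = z := by
  simp only [Lp, Submodule.mem_sup, Submodule.mem_span_singleton, mem_cO, zsmul_eq_mul]
  constructor
  · rintro ⟨_, ⟨a, rfl⟩, _, ⟨y, hy, rfl⟩, e⟩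
    exact ⟨a, y, hy, e⟩
  · rintro ⟨a, y, hy, e⟩
    exact ⟨_, ⟨a, rfl⟩, _, ⟨y, hy, rfl⟩, e⟩

theorem self_Lp (π : ℂ) : π ∈ Lp q c π := mem_Lp.2 ⟨1, 0, zero_mem _, by simp⟩

theorem cO_Lp (π : ℂ) {y : ℂ} (hy : y ∈ OK q) : (c : ℂ) * y ∈ Lp q c π :=
  mem_Lp.2 ⟨0, y, hy, by simp⟩

theorem Lp_one : Lp q c 1 = Oc q c := by
  ext z
  rw [mem_Lp, Oc, mem_sp]
  constructor
  · rintro ⟨a, y, hy, rfl⟩
    obtain ⟨u, v, rfl⟩ := mem_OK.1 hy
    exact ⟨a + c * u, v, by push_cast; ring⟩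
  · rintro ⟨a, b, rfl⟩
    exact ⟨a, b * om q, zmul b om_OK, by ring⟩

theorem mem_Oc {z : ℂ} : z ∈ Oc q c ↔ ∃ a : ℤ, ∃ y ∈ OK q, a + c * y = z := by
  rw [← Lp_one, mem_Lp]; simp only [mul_one]

theorem Oc_le_OK : Oc q c ≤ OK q := by
  rw [← Oc_one]; exact Oc_le (one_dvd c)

theorem Lp_congr {π π' : ℂ} (h : π - π' ∈ (c : ℂ) • OK q) : Lp q c π = Lp q c π' := by
  obtain ⟨y, hy, e⟩ := mem_cO.1 h
  ext z
  rw [mem_Lp, mem_Lp]
  constructor
  · rintro ⟨a, w, hw, rfl⟩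
    exact ⟨a, a * y + w, add_mem (zmul a hy) hw, by linear_combination a * e⟩
  · rintro ⟨a, w, hw, rfl⟩
    exact ⟨a, w - a * y, sub_mem hw (zmul a hy), by linear_combination -a * e⟩

theorem Lp_int {n : ℤ} (h : IsCoprime n (c : ℤ)) : Lp q c n = Oc q c := by
  obtain ⟨u, v, e⟩ := h
  have e' : (u : ℂ) * n + v * c = 1 := by exact_mod_cast e
  ext z
  rw [mem_Lp, mem_Oc]
  constructor
  · rintro ⟨a, w, hw, rfl⟩
    exact ⟨a * n, w, hw, by push_cast; ring⟩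
  · rintro ⟨a, w, hw, rfl⟩
    exact ⟨a * u, (a * v : ℤ) + w, add_mem (int_OK _) hw, by
      push_cast; linear_combination a * e'⟩

variable [hq : Fact (q % 4 = 3)]

theorem q_ne : q ≠ 0 := by have := hq.out; omega

theorem im_ne : (om q).im ≠ 0 := (om_im q_ne).ne'

theorem indep {a b : ℤ} (h : (a : ℂ) + b * om q = 0) : a = 0 ∧ b = 0 :=
  Pool.Agent.Lib.MP_9177b7_ag.CM.Idl.indep im_ne h

theorem OK_mul_OK : OK q * OK q = OK q := by
  rw [← Oc_one]; exact Oc_mul_self hq.out 1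

theorem mul_OK {x y : ℂ} (hx : x ∈ OK q) (hy : y ∈ OK q) : x * y ∈ OK q :=
  OK_mul_OK (q := q) ▸ Submodule.mul_mem_mul hx hy

theorem conj_om : starRingEnd ℂ (om q) = 1 - om q := by
  have := conj_omega (t := 1) (n := (((q + 1) / 4 : ℕ) : ℤ))
    (by rw [om_sq hq.out]; simp) (im_ne (q := q))
  simpa using this

theorem conj_OK {x : ℂ} (hx : x ∈ OK q) : starRingEnd ℂ x ∈ OK q := by
  obtain ⟨a, b, rfl⟩ := mem_OK.1 hx
  exact mem_OK.2 ⟨a + b, -b, by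
    simp only [map_add, map_mul, map_intCast, conj_om]; push_cast; ring⟩

theorem norm_int {x : ℂ} (hx : x ∈ OK q) : ∃ n : ℤ, x * starRingEnd ℂ x = n := by
  obtain ⟨a, b, rfl⟩ := mem_OK.1 hx
  refine ⟨a ^ 2 + a * b + b ^ 2 * (((q + 1) / 4 : ℕ) : ℤ), ?_⟩
  simp only [map_add, map_mul, map_intCast, conj_om]
  have := om_sq hq.out
  push_cast at this ⊢
  linear_combination -(b : ℂ) ^ 2 * this

/-- An integer in `c 𝒪` is a multiple of `c`. -/
theorem int_cO {m : ℤ} {y : ℂ} (hy : y ∈ OK q) (e : (c : ℂ) * y = m) : (c : ℤ) ∣ m := by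
  obtain ⟨a, b, rfl⟩ := mem_OK.1 hy
  have := (indep (q := q) (a := c * a - m) (b := c * b) (by push_cast; linear_combination e)).1
  exact ⟨a, by omega⟩

omit hq in
theorem cop_iff {π : ℂ} :
    Cop q c π ↔ π ∈ OK q ∧ ∃ n : ℤ, π * starRingEnd ℂ π = n ∧ IsCoprime n (c : ℤ) := by
  simp only [Cop, Complex.mul_conj]
  refine and_congr_right fun _ => exists_congr fun n => and_congr_left fun _ => ?_
  constructor
  · intro h; rw [h]; simp
  · intro h; exact_mod_cast h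

theorem cop_mul {π π' : ℂ} (h : Cop q c π) (h' : Cop q c π') : Cop q c (π * π') := by
  obtain ⟨h1, n, e, hn⟩ := h
  obtain ⟨h1', n', e', hn'⟩ := h'
  exact ⟨mul_OK h1 h1', n * n', by rw [map_mul, e, e']; push_cast; rfl, hn.mul_left hn'⟩

theorem cop_conj {π : ℂ} (h : Cop q c π) : Cop q c (starRingEnd ℂ π) := by
  obtain ⟨h1, n, e, hn⟩ := h
  exact ⟨conj_OK h1, n, by rw [Complex.normSq_conj, e], hn⟩

omit hq in
theorem cop_dvd {π : ℂ} {c' : ℕ} (hc : c' ∣ c) (h : Cop q c π) : Cop q c' π := by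
  obtain ⟨h1, n, e, hn⟩ := h
  exact ⟨h1, n, e, hn.of_isCoprime_of_dvd_right (Int.natCast_dvd_natCast.2 hc)⟩

theorem cop_bez {π : ℂ} (h : Cop q c π) : ∃ w ∈ OK q, ∃ v : ℤ, π * w + c * v = 1 := by
  obtain ⟨h1, n, e, u, v, huv⟩ := cop_iff.1 h
  have e' : (u : ℂ) * n + v * c = 1 := by exact_mod_cast huv
  exact ⟨u * starRingEnd ℂ π, zmul u (conj_OK h1), v, by linear_combination e' + u * e⟩

theorem cop_of_bez {π w o : ℂ} (h : π ∈ OK q) (hw : w ∈ OK q) (ho : o ∈ OK q)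
    (e : π * w + c * o = 1) : Cop q c π := by
  obtain ⟨n, hn⟩ := norm_int h
  obtain ⟨m, hm⟩ := norm_int hw
  have e' : starRingEnd ℂ π * starRingEnd ℂ w + c * starRingEnd ℂ o = 1 := by
    simpa using congrArg (starRingEnd ℂ) e
  obtain ⟨k, hk⟩ := int_cO (c := c) (m := 1 - m * n)
    (add_mem ho (mul_OK (mul_OK h hw) (conj_OK ho))) (by
      push_cast
      linear_combination e + π * w * e' - (w * starRingEnd ℂ w) * hn - n * hm)
  exact cop_iff.2 ⟨h, n, hn, m, k, by linear_combination -hk⟩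

theorem Lp_mul {c' : ℕ} (hc : c' ∣ c) {π π' : ℂ} (h' : π' ∈ OK q) (h : Cop q c π) :
    Lp q c' π' * Lp q c π = Lp q c' (π' * π) := by
  obtain ⟨w, hw, v, e⟩ := cop_bez h
  obtain ⟨k, rfl⟩ := hc
  refine le_antisymm (Submodule.mul_le.2 fun x hx0 y hy0 => ?_) fun z hz => ?_
  · obtain ⟨a, x, hx, rfl⟩ := mem_Lp.1 hx0
    obtain ⟨b, y, hy, rfl⟩ := mem_Lp.1 hy0
    refine mem_Lp.2 ⟨a * b, (a * k : ℤ) * (π' * y) + b * (x * π) + (c' * k : ℤ) * (x * y),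
      add_mem (add_mem (zmul _ (mul_OK h' hy)) (zmul _ (mul_OK hx h.1))) (zmul _ (mul_OK hx hy)),
      by push_cast; ring⟩
  · obtain ⟨a, y, hy, rfl⟩ := mem_Lp.1 hz
    refine add_mem (zmul a (Submodule.mul_mem_mul (self_Lp _) (self_Lp _))) ?_
    have := add_mem (Submodule.mul_mem_mul (cO_Lp (c := c') π' (mul_OK hw hy))
      (self_Lp (q := q) (c := c' * k) π))
      (Submodule.mul_mem_mul (cO_Lp (c := c') π' hy) (cO_Lp (c := c' * k) π (int_OK v)))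
    refine of_eq this ?_
    linear_combination -(c' : ℂ) * y * e

theorem Oc_mul_Lp {c' : ℕ} (hc : c' ∣ c) {π : ℂ} (h : Cop q c π) :
    Oc q c' * Lp q c π = Lp q c' π := by
  rw [← Lp_one, Lp_mul hc one_OK h, one_mul]

theorem ivt_Lp {π : ℂ} (h : Cop q c π) : Ivt q c (Lp q c π) := by
  refine ⟨Oc_mul_Lp dvd_rfl h, Lp q c (starRingEnd ℂ π), ?_⟩
  obtain ⟨h1, n, e, hn⟩ := cop_iff.1 h
  rw [Lp_mul dvd_rfl h1 (cop_conj h), e, Lp_int hn]

theorem cl_kp {π : ℂ} (h : Cop q c π) : Cl (kp q c π) (Lp q c π) := (ivt_Lp h).cls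

theorem smul_sup {π : ℂ} (h : π ∈ OK q) : π • Oc q c ⊔ (c : ℂ) • OK q = Lp q c π := by
  refine le_antisymm (sup_le (fun z hz => ?_) le_sup_right) fun z hz => ?_
  · obtain ⟨y, hy0, rfl⟩ := mem_smul_iff.1 hz
    obtain ⟨a, y, hy, rfl⟩ := mem_Oc.1 hy0
    exact mem_Lp.2 ⟨a, π * y, mul_OK h hy, by ring⟩
  · obtain ⟨a, y, hy, rfl⟩ := mem_Lp.1 hz
    exact Submodule.add_mem_sup (zmul a (mem_smul_iff.2 ⟨1, one_mem_Oc q c, mul_one _⟩))
      (cO_mem hy)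

theorem kp_mul {π π' : ℂ} (h : Cop q c π) (h' : Cop q c π') :
    kp q c (π * π') = kp q c π * kp q c π' := by
  have := (cl_kp h).mul (cl_kp h')
  rw [Lp_mul dvd_rfl h.1 h'] at this
  exact (cl_kp (cop_mul h h')).unique this

theorem res_kp {c' : ℕ} (hc : c' ∣ c) {π : ℂ} (h : Cop q c π) : res c' (kp q c π) = kp q c' π := by
  have := (cl_kp h).res hc
  rw [Oc_mul_Lp hc h] at this
  exact this.unique (cl_kp (cop_dvd hc h))

theorem kp_one_of {π : ℂ} (h : Cop q c π) {n : ℤ} (hn : π - n ∈ (c : ℂ) • OK q) :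
    kp q c π = 1 := by
  obtain ⟨w, hw, v, e⟩ := cop_bez h
  obtain ⟨y, hy, e1⟩ := mem_cO.1 hn
  have h2 : Cop q c (n : ℂ) := cop_of_bez (int_OK n) hw (add_mem (mul_OK hy hw) (int_OK v))
    (by linear_combination e + w * e1)
  obtain ⟨-, m, e2, hm⟩ := cop_iff.1 h2
  have e3 : n * n = m := by
    rw [map_intCast] at e2; exact_mod_cast e2
  have := cl_kp h
  rw [Lp_congr hn, Lp_int (e3 ▸ hm : IsCoprime (n * n) (c : ℤ)).of_mul_left_left] at this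
  exact this.unique cl_one

omit hq in
theorem Lp_unit {π : ℂ} (h : π ∈ OK q) : Lp q 1 π = OK q := by
  rw [Lp_congr (π' := 1) (mem_cO.2 ⟨π - 1, sub_mem h one_OK, by simp⟩), Lp_one, Oc_one]

theorem OK_mul_Oc : OK q * Oc q c = OK q := by
  rw [← Oc_one]; exact Oc_mul hq.out (one_dvd c)

theorem of_kp_one (hu : ∀ μ : ℂ, μ • Oc q 1 = Oc q 1 → μ = 1 ∨ μ = -1) {π : ℂ} (h : Cop q c π)
    (h1 : kp q c π = 1) : ∃ n : ℤ, π - n ∈ (c : ℂ) • OK q := by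
  have h2 := cl_kp h
  rw [h1] at h2
  obtain ⟨μ, -, e⟩ := cl_one.exists_smul h2
  have e1 := Oc_mul_Lp (one_dvd c) h
  rw [Lp_unit h.1, e, smul_mul_right, Oc_mul hq.out (one_dvd c), ← Oc_one] at e1
  have h3 : π ∈ μ • Oc q c := e ▸ self_Lp π
  obtain ⟨y, hy0, e2⟩ := mem_smul_iff.1 h3
  obtain ⟨a, y, hy, rfl⟩ := mem_Oc.1 hy0
  rcases hu μ e1 with rfl | rfl
  · exact ⟨a, mem_cO.2 ⟨y, hy, by linear_combination e2⟩⟩
  · exact ⟨-a, mem_cO.2 ⟨-y, neg_mem hy, by push_cast; linear_combination e2⟩⟩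

theorem mul_kp {π : ℂ} (h : Cop q c π) {x : Pic q c} {I : Submodule ℤ ℂ} (hx : Cl x I)
    (hI : I ≤ Oc q c) (e : OK q * I = π • OK q) : x * kp q c π = 1 := by
  have h0 : π ≠ 0 := by
    rintro rfl
    obtain ⟨B, hB⟩ := hx.inv.2
    have h1 : (1 : ℂ) ∈ OK q * I * B := by rw [mul_assoc, hB, OK_mul_Oc]; exact one_OK
    rw [e, smul_mul_left] at h1
    obtain ⟨y, -, e1⟩ := mem_smul_iff.1 h1
    simp at e1
  obtain ⟨w, hw, v, e1⟩ := cop_bez h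
  have hO : ∀ i ∈ I, ∀ y ∈ OK q, ∃ z ∈ OK q, π * z = y * i := fun i hi y hy =>
    mem_smul_iff.1 (e ▸ Submodule.mul_mem_mul hy hi)
  have hO' : ∀ z ∈ OK q, ∃ i ∈ I, ∃ j ∈ I, i + om q * j = π * z := fun z hz => by
    have h1 : π * z ∈ OK q * I := e ▸ mem_smul_iff.2 ⟨z, hz, rfl⟩
    rw [OK, sp_mul, one_smul] at h1
    obtain ⟨i, hi, _, hj0, e2⟩ := Submodule.mem_sup.1 h1
    obtain ⟨j, hj, rfl⟩ := mem_smul_iff.1 hj0
    exact ⟨i, hi, j, hj, e2⟩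
  obtain ⟨i, hi, y, hy, e2⟩ : ∃ i ∈ I, ∃ y ∈ OK q, i + c * y = 1 := by
    obtain ⟨i, hi, j, hj, e2⟩ := hO' w hw
    obtain ⟨m, y, hy, rfl⟩ := mem_Oc.1 (hI hi)
    obtain ⟨m', y', hy', rfl⟩ := mem_Oc.1 (hI hj)
    obtain ⟨a, b, e3⟩ := mem_OK.1 (add_mem (add_mem hy (mul_OK om_OK hy')) (int_OK v))
    have h4 := (indep (q := q) (a := m + c * a - 1) (b := m' + c * b) (by
      push_cast; linear_combination e1 + e2 + c * e3)).1
    have h5 : (m : ℂ) + c * a - 1 = 0 := by exact_mod_cast h4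
    exact ⟨_, hi, a - y, sub_mem (int_OK a) hy, by linear_combination h5⟩
  have hc : ∀ z ∈ OK q, π * (c * z) ∈ I * Lp q c π := fun z hz => by
    obtain ⟨i, hi, j, hj, e3⟩ := hO' z hz
    have := add_mem (Submodule.mul_mem_mul hi (cO_Lp (q := q) (c := c) π one_OK))
      (Submodule.mul_mem_mul hj (cO_Lp (q := q) (c := c) π om_OK))
    refine of_eq this ?_
    linear_combination -(c : ℂ) * e3
  have e4 : I * Lp q c π = π • Oc q c := by
    refine le_antisymm (Submodule.mul_le.2 fun j hj z hz0 => ?_) fun z hz0 => ?_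
    · obtain ⟨a, z, hz, rfl⟩ := mem_Lp.1 hz0
      obtain ⟨u, hu, e3⟩ := hO j hj z hz
      exact mem_smul_iff.2 ⟨a * j + c * u, add_mem (zmul a (hI hj))
        (mem_Oc.2 ⟨0, u, hu, by simp⟩), by linear_combination c * e3⟩
    · obtain ⟨z, hz1, rfl⟩ := mem_smul_iff.1 hz0
      obtain ⟨a, z, hz, rfl⟩ := mem_Oc.1 hz1
      have := add_mem (zmul a (Submodule.mul_mem_mul hi (self_Lp (q := q) (c := c) π)))
        (hc _ (add_mem (zmul a hy) hz))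
      refine of_eq this ?_
      linear_combination -(π * a) * e2
  have := hx.mul (cl_kp h)
  rw [e4] at this
  exact this.unique (cl_smul_one h0)

omit hq in
theorem com_im (hq0 : q ≠ 0) (hc : c ≠ 0) : ((c : ℂ) * om q).im ≠ 0 := by
  have h1 := (om_im hq0).ne'
  have h2 : (c : ℝ) ≠ 0 := by exact_mod_cast hc
  simp [h1, hc]

/-- Every class has an integral representative prime to the conductor. -/
theorem exists_int (hc : c ≠ 0) (x : Pic q c) :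
    ∃ I, Cl x I ∧ I ≤ Oc q c ∧ ∃ i ∈ I, ∃ y ∈ OK q, i + c * y = 1 := by
  have h := cl_out x
  obtain ⟨B, hB⟩ := h.inv.2
  obtain ⟨u, hu, z, hz, o, ho, e⟩ := Pool.Agent.Lib.MP_9177b7_ag.CM.Idl.scale (com_sq hq.out c)
    (com_im q_ne hc) hB (Pool.Agent.Lib.MP_9177b7_ag.CM.Idl.cl_of_eq h.inv.1) (2 * c)
    (mul_ne_zero two_ne_zero hc)
  have ho' : o ∈ OK q := Oc_le_OK ho
  have u0 : u ≠ 0 := by
    rintro rfl
    obtain ⟨a, -, rfl⟩ := mem_smul_iff.1 hz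
    have := int_cO (c := 2 * c) (m := 1) ho' (by push_cast at e ⊢; linear_combination e)
    have := Int.eq_one_of_dvd_one (by positivity) this
    omega
  refine ⟨u • x.out.1, h.smul u0, fun z hz => ?_, z, hz, (2 : ℤ) * o, zmul 2 ho', by
    push_cast at e ⊢; linear_combination e⟩
  obtain ⟨a, ha, rfl⟩ := mem_smul_iff.1 hz
  exact hB ▸ Submodule.mul_mem_mul_rev ha hu

theorem ker_res (hc : c ≠ 0) (x : Pic q c) : res 1 x = 1 ↔ ∃ π, Cop q c π ∧ x = kp q c π := by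
  constructor
  · intro h
    obtain ⟨I, hI, hle, i, hi, y, hy, e⟩ := exists_int hc x⁻¹
    have h1 := hI.res (one_dvd c)
    rw [map_inv, h, inv_one] at h1
    obtain ⟨π, -, e1⟩ := cl_one.exists_smul h1
    rw [Oc_one] at e1
    have h2 : π ∈ OK q := by
      have : π ∈ OK q * I := e1 ▸ mem_smul_iff.2 ⟨1, one_OK, mul_one _⟩
      exact OK_mul_Oc (q := q) (c := c) ▸ mul_le_mul_right hle _ this
    have h3 : i ∈ π • OK q := by
      rw [← e1]; simpa using Submodule.mul_mem_mul (one_OK (q := q)) hi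
    obtain ⟨w, hw, rfl⟩ := mem_smul_iff.1 h3
    have h4 := cop_of_bez h2 hw hy e
    exact ⟨π, h4, inv_mul_eq_one.1 (mul_kp h4 hI hle e1)⟩
  · rintro ⟨π, h, rfl⟩
    rw [res_kp (one_dvd c) h]
    exact kp_one_of (n := 0) (cop_dvd (one_dvd c) h) (mem_cO.2 ⟨π, h.1, by simp⟩)

section pid

variable {l : ℕ} {r : ℤ}

omit hq in
theorem rt_symm (h : Rt q l r) : Rt q l (1 - r) := by
  unfold Rt at *
  rwa [show (1 - r) ^ 2 - (1 - r) = r ^ 2 - r by ring]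

omit hq in
theorem rt_c (c : ℕ) (h : Rt q l r) :
    (l : ℤ) ∣ (c * r) ^ 2 - c * (c * r) + (c : ℤ) ^ 2 * ((q + 1) / 4 : ℕ) := by
  obtain ⟨k, hk⟩ := h
  exact ⟨(c : ℤ) ^ 2 * k, by linear_combination (c : ℤ) ^ 2 * hk⟩

theorem Oc_mul_pid0 (c : ℕ) (h : Rt q l r) : Oc q c * pid q c l r = pid q c l r :=
  ord_mul_eq_iff.2 (smul_prime_le (com_sq hq.out c) (rt_c c h))

theorem not_dvd_disc (hp : q.Prime) (hl : l.Prime) (hlq : l ≠ q) (hlc : ¬ l ∣ c) :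
    ¬ (l : ℤ) ∣ (c : ℤ) ^ 2 - 4 * ((c : ℤ) ^ 2 * ((q + 1) / 4 : ℕ)) := by
  have h4 : (4 : ℤ) * ((q + 1) / 4 : ℕ) = q + 1 := by have := hq.out; omega
  rw [show (c : ℤ) ^ 2 - 4 * ((c : ℤ) ^ 2 * ((q + 1) / 4 : ℕ)) = -((c ^ 2 * q : ℕ) : ℤ) by
    rw [Nat.cast_mul, Nat.cast_pow]; linear_combination -(c : ℤ) ^ 2 * h4,
    dvd_neg, Int.natCast_dvd_natCast]
  intro h
  rcases (Nat.Prime.dvd_mul hl).1 h with h | h
  · exact hlc (hl.dvd_of_dvd_pow h)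
  · exact hlq ((Nat.prime_dvd_prime_iff_eq hl hp).1 h)

theorem pid_mul (hp : q.Prime) (hl : l.Prime) (hlq : l ≠ q) (hlc : ¬ l ∣ c) (h : Rt q l r) :
    pid q c l r * pid q c l (1 - r) = (l : ℂ) • Oc q c := by
  have := Pool.Agent.Lib.MP_9177b7_ag.CM.Idl.prime_mul_conj (com_sq hq.out c) hl
    (not_dvd_disc hp hl hlq hlc) (rt_c c h)
  rw [show (c : ℤ) - c * r = c * (1 - r) by ring] at this
  exact this

theorem cl_lam (hp : q.Prime) (hl : l.Prime) (hlq : l ≠ q) (hlc : ¬ l ∣ c) (h : Rt q l r) :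
    Cl (lam q c l r) (pid q c l r) := by
  have h0 : (l : ℂ) ≠ 0 := by exact_mod_cast hl.ne_zero
  refine Ivt.cls ⟨Oc_mul_pid0 c h, (l : ℂ)⁻¹ • pid q c l (1 - r), ?_⟩
  rw [smul_mul_right, pid_mul hp hl hlq hlc h, smul_smul, inv_mul_cancel₀ h0, one_smul]

omit hq in
theorem pid_le : pid q c l r ≤ Oc q c :=
  sp_le.2 ⟨mem_sp.2 ⟨l, 0, by simp⟩, mem_sp.2 ⟨-(c * r), 1, by push_cast; ring⟩⟩

theorem bar_pid : bar (pid q c l r) = pid q c l (1 - r) := by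
  rw [pid, pid, bar_sp]
  simp only [map_sub, map_mul, map_natCast, map_intCast, conj_om]
  apply le_antisymm <;> rw [sp_le]
  · exact ⟨left_mem_sp _ _, mem_sp.2 ⟨0, -1, by push_cast; ring⟩⟩
  · exact ⟨left_mem_sp _ _, mem_sp.2 ⟨0, -1, by push_cast; ring⟩⟩

theorem lam_symm (hp : q.Prime) (hl : l.Prime) (hlq : l ≠ q) (hlc : ¬ l ∣ c) (h : Rt q l r) :
    lam q c l (1 - r) = (lam q c l r)⁻¹ := by
  have h0 : (l : ℂ) ≠ 0 := by exact_mod_cast hl.ne_zero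
  have := (cl_lam hp hl hlq hlc h).mul (cl_lam hp hl hlq hlc (rt_symm h))
  rw [pid_mul hp hl hlq hlc h] at this
  exact eq_inv_of_mul_eq_one_right (this.unique (cl_smul_one h0))

theorem Oc_mul_pid (hl : l.Prime) (hlc : ¬ l ∣ c) (h : Rt q l r) {c' : ℕ} (hc : c' ∣ c) :
    Oc q c' * pid q c l r = pid q c' l r := by
  obtain ⟨k, rfl⟩ := hc
  apply le_antisymm
  · rw [← Oc_mul_pid0 c' h]
    exact mul_le_mul_right (sp_le.2 ⟨left_mem_sp _ _, mem_sp.2 ⟨0, k, by push_cast; ring⟩⟩) _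
  · obtain ⟨u, v, e⟩ : IsCoprime (l : ℤ) (k : ℤ) := Nat.isCoprime_iff_coprime.2
      ((Nat.Prime.coprime_iff_not_dvd hl).2 fun d => hlc (d.mul_left _))
    have e' : (u : ℂ) * l + v * k = 1 := by exact_mod_cast e
    have a1 : (l : ℂ) ∈ pid q (c' * k) l r := left_mem_sp _ _
    have a2 : ((c' * k : ℕ) : ℂ) * om q - (((c' * k : ℕ) : ℤ) * r : ℤ) ∈ pid q (c' * k) l r :=
      right_mem_sp _ _
    have a3 : (c' : ℂ) * om q - ((c' : ℤ) * r : ℤ) ∈ Oc q c' := pid_le (right_mem_sp (l : ℂ) _)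
    refine sp_le.2 ⟨by simpa using Submodule.mul_mem_mul (one_mem_Oc q c') a1, ?_⟩
    have := add_mem (zmul u (Submodule.mul_mem_mul a3 a1))
      (zmul v (Submodule.mul_mem_mul (one_mem_Oc q c') a2))
    refine of_eq this ?_
    push_cast
    linear_combination -((c' : ℂ) * om q - c' * r) * e'

theorem res_lam (hp : q.Prime) (hl : l.Prime) (hlq : l ≠ q) (hlc : ¬ l ∣ c) (h : Rt q l r)
    {c' : ℕ} (hc : c' ∣ c) : res c' (lam q c l r) = lam q c' l r := by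
  have := (cl_lam hp hl hlq hlc h).res hc
  rw [Oc_mul_pid hl hlc h hc] at this
  exact this.unique (cl_lam hp hl hlq (fun d => hlc (d.trans hc)) h)

end pid

theorem res_surj (hp : q.Prime) (hc : c ≠ 0) {c' : ℕ} (hc' : c' ∣ c) :
    Function.Surjective (res c' : Pic q c → Pic q c') := by
  intro y
  have h0 : c' ≠ 0 := ne_zero_of_dvd_ne_zero hc hc'
  have h := cl_out y
  obtain ⟨B, hB⟩ := h.inv.2
  have key := Pool.Agent.Lib.MP_9177b7_ag.CM.ideal _ _ _ (com_sq hq.out c') (com_im q_ne h0)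
    (c * q) (mul_ne_zero hc hp.ne_zero) (fun A => ∃ x : Pic q c, Cl (res c' x) A)
    ⟨1, by rw [map_one]; exact cl_one⟩
    (fun A B ⟨x, hx⟩ ⟨y, hy⟩ => ⟨x * y, by rw [map_mul]; exact hx.mul hy⟩)
    (fun μ A hμ ⟨x, hx⟩ => ⟨x, hx.smul hμ⟩) ?_ _ B hB h.inv.1
  · obtain ⟨x, hx⟩ := key
    exact ⟨x, hx.unique h⟩
  intro l s hl hM hs
  have hlc : ¬ l ∣ c := fun d => hM (d.mul_right _)
  have hlq : l ≠ q := fun e => hM (e ▸ dvd_mul_left _ _)
  have hlc' : ¬ l ∣ c' := fun d => hlc (d.trans hc')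
  have hco : IsCoprime (l : ℤ) (c' : ℤ) := Nat.isCoprime_iff_coprime.2
    ((Nat.Prime.coprime_iff_not_dvd hl).2 hlc')
  obtain ⟨u, v, e⟩ := id hco
  have h1 : (l : ℤ) ∣ s - c' * (v * s) := ⟨u * s, by linear_combination -s * e⟩
  have h2 : Rt q l (v * s) := by
    refine (hco.pow_right (n := 2)).dvd_of_dvd_mul_left ?_
    have := hs.sub (h1.mul_right (s + c' * (v * s) - c'))
    convert this using 1
    ring
  refine ⟨lam q c l (v * s), ?_⟩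
  rw [res_lam hp hl hlq hlc h2 hc']
  have h3 := cl_lam hp hl hlq hlc' h2
  rwa [pid, le_antisymm (Pool.Agent.Lib.MP_9177b7_ag.CM.Idl.sp_le_sp h1)
    (Pool.Agent.Lib.MP_9177b7_ag.CM.Idl.sp_le_sp (dvd_sub_comm.1 h1))] at h3

theorem spl_iff {l : ℕ} (hl : l.Prime) (h2 : l ≠ 2) : Spl q l ↔ ∃ r, Rt q l r := by
  have := Fact.mk hl
  have h4 : (4 : ℤ) * ((q + 1) / 4 : ℕ) = q + 1 := by have := hq.out; omega
  have h4' : (4 : ZMod l) * (((q + 1) / 4 : ℕ) : ZMod l) = q + 1 := by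
    have := congrArg (Int.cast : ℤ → ZMod l) h4
    rwa [Int.cast_mul, Int.cast_add, Int.cast_natCast, Int.cast_natCast, Int.cast_ofNat,
      Int.cast_one] at this
  have h0 : (2 : ZMod l) ≠ 0 := fun e =>
    h2 ((Nat.prime_dvd_prime_iff_eq hl Nat.prime_two).1 ((ZMod.natCast_eq_zero_iff 2 l).1 e))
  have key : ∀ r : ℤ, Rt q l r ↔
      (r : ZMod l) ^ 2 - r + (((q + 1) / 4 : ℕ) : ZMod l) = 0 := fun r => by
    rw [Rt, ← ZMod.intCast_zmod_eq_zero_iff_dvd, Int.cast_add, Int.cast_sub, Int.cast_pow,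
      Int.cast_natCast]
  constructor
  · rintro ⟨s, hs⟩
    obtain ⟨r, hr⟩ := ZMod.intCast_surjective ((s + 1) / 2)
    have hr' : 2 * (r : ZMod l) = s + 1 := by rw [hr]; field_simp
    refine ⟨r, (key r).2 (mul_left_cancel₀ (mul_ne_zero h0 h0) ?_)⟩
    linear_combination h4' - hs + (2 * (r : ZMod l) + s - 1) * hr'
  · rintro ⟨r, hr⟩
    exact ⟨2 * r - 1, by linear_combination h4' - 4 * (key r).1 hr⟩

end Ker

open Ker in
theorem ker_thm (hPic : PicStmt) : KerStmt := by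
  intro q _ hp h44 c hc
  refine ⟨fun π π' => cop_mul, fun π h => ⟨cop_conj h, cl_kp h, smul_sup h.1,
    fun π' h' => kp_mul h h', ⟨of_kp_one ((hPic q hp h44).2 1 one_ne_zero).2.2.1 h,
      fun ⟨n, hn⟩ => kp_one_of h hn⟩, fun c' hc' => ⟨cop_dvd hc' h, res_kp hc' h⟩,
    fun x I hx hI e => mul_kp h hx hI e⟩, ker_res hc, fun c' hc' => res_surj hp hc hc',
    fun l hl h2 => spl_iff hl h2, fun l r hl hlq hlc h => ⟨rt_symm h, cl_lam hp hl hlq hlc h,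
      pid_le, bar_pid, pid_mul hp hl hlq hlc h, lam_symm hp hl hlq hlc h,
      fun c' hc' => ⟨Oc_mul_pid hl hlc h hc', res_lam hp hl hlq hlc h hc'⟩⟩⟩

end Pool.Agent.Lib.MP_d6ddbd_nt.K11
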