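import Pool.Agent.Lib.MP_d6ddbd_nt.K11.Stmt

/-!
Cocycles with values in the points of order two and square classes of the cubic field.
-/

set_option autoImplicit false

open Pool.Agent.Lib.MP_02f36d_nt (xc yc)

namespace Pool.Agent.Lib.MP_d6ddbd_nt.K11

namespace Kum

lemma map_fc (σ : G) (x : ℂ) : σ (fc x) = fc (σ x) := by simp [fc, map_ofNat]

lemma sm_add (σ : G) (P Q : Pt) : σ • (P + Q) = σ • P + σ • Q := smul_add σ P Q

lemma sm_sub (σ : G) (P Q : Pt) : σ • (P - Q) = σ • P - σ • Q := smul_sub σ P Q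

lemma sm_zero (σ : G) : σ • (0 : Pt) = 0 := (smul_eq_zero' σ 0).2 rfl

lemma neg_two {T : Pt} (h : 2 • T = 0) : -T = T := by
  rw [neg_eq_iff_add_eq_zero, ← two_nsmul, h]

lemma smul_two (σ : G) {T : Pt} (h : 2 • T = 0) : 2 • σ • T = 0 := by
  rw [two_nsmul, ← sm_add, ← two_nsmul, h, sm_zero]

lemma coc_one {ξ : G → Pt} (h : ∀ σ τ, ξ (σ * τ) = ξ σ + σ • ξ τ) : ξ 1 = 0 := by
  simpa using h 1 1

variable {e₁ e₂ e₃ : ℂ} {ω : G}

lemma root (hf : ∀ x, fc x = (x - e₁) * (x - e₂) * (x - e₃)) {x : ℂ} :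
    fc x = 0 ↔ x = e₁ ∨ x = e₂ ∨ x = e₃ := by
  simp only [hf, mul_eq_zero, sub_eq_zero, or_assoc]

/-- The group is generated by the stabiliser of the roots, a cycle and the conjugation. -/
lemma gen (hf : ∀ x, fc x = (x - e₁) * (x - e₂) * (x - e₃)) (h12 : e₁ ≠ e₂) (h13 : e₁ ≠ e₃)
    (h23 : e₂ ≠ e₃) (c1 : cj e₁ = e₁) (c2 : cj e₂ = e₃) (w1 : ω e₁ = e₂) (w2 : ω e₂ = e₃)
    (P : G → Prop) (hm : ∀ σ τ, P σ → P τ → P (σ * τ))
    (hN : ∀ σ : G, σ e₁ = e₁ → σ e₂ = e₂ → σ e₃ = e₃ → P σ) (hω : P ω) (hc : P cj) (σ : G) :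
    P σ := by
  have r : ∀ (σ : G) x, (x = e₁ ∨ x = e₂ ∨ x = e₃) → σ x = e₁ ∨ σ x = e₂ ∨ σ x = e₃ :=
    fun σ x h => (root hf).1 (by rw [← map_fc, (root hf).2 h, map_zero])
  have c3 : cj e₃ = e₂ := by rw [← c2]; exact Complex.conj_conj e₂
  have a2 : ∀ σ : G, σ e₁ = e₁ → σ e₂ = e₂ → P σ := fun σ h1 h2 => hN σ h1 h2 (by
    rcases r σ e₃ (by simp) with h | h | h
    exacts [absurd (σ.injective (h1.trans h.symm)) h13,
      absurd (σ.injective (h2.trans h.symm)) h23, h])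
  have a1 : ∀ σ : G, σ e₁ = e₁ → P σ := fun σ h1 => by
    rcases r σ e₂ (by simp) with h | h | h
    · exact absurd (σ.injective (h1.trans h.symm)) h12
    · exact a2 σ h1 h
    · have := hm _ _ hc (a2 (cj * σ) ((congrArg cj h1).trans c1) ((congrArg cj h).trans c3))
      rwa [← mul_assoc, cj_mul_cj, one_mul] at this
  have b : ∀ (σ : G) x y, ω x = y → σ e₁ = y → (ω⁻¹ * σ) e₁ = x := fun σ x y h h' =>
    ω.injective (by rw [h, ← h']; exact ω.apply_symm_apply _)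
  have a3 : ∀ σ : G, σ e₁ = e₂ → P σ := fun σ h => by
    simpa using hm _ _ hω (a1 _ (b σ _ _ w1 h))
  rcases r σ e₁ (by simp) with h | h | h
  exacts [a1 σ h, a3 σ h, by simpa using hm _ _ hω (a3 _ (b σ _ _ w2 h))]

lemma sgn {a b : ℂ} (h : a ^ 2 = b ^ 2) : a = b ∨ a = -b := sq_eq_sq_iff_eq_or_eq_neg.1 h

end Kum

open Kum

theorem kum_thm (hV : VStmt) (hR : RStmt) (hPr : PrStmt) : KumStmt := by
  intro L _ _ θ hθ
  obtain ⟨-, -, hfix, hext, hchi⟩ := hV.2.2.2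
  obtain ⟨-, -, hpt, h2, ⟨e₁, e₂, e₃, hf, h12, h13, h23, c1, c2, hs, ⟨ω, w1, w2, w3⟩, hw⟩, wadd,
    wsm, -⟩ := hR.1
  obtain ⟨-, -, -, -, -, -, hgen, hemb, hnorm, -⟩ := hPr L θ hθ
  have rt : ∀ e : L →+* ℂ, fc (e θ) = 0 := fun e => by
    simpa [fc, map_ofNat] using congrArg e hθ.eq
  have fx : ∀ (e e' : L →+* ℂ) (σ : G), σ (e θ) = e' θ → ∀ y, σ (e y) = e' y := fun e e' σ h y => by
    obtain ⟨a, b, c, rfl⟩ := hgen y
    simp [h]
  have w0 : ∀ e, wl e 0 = 0 := fun e => if_pos (Or.inl rfl)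
  have wd : ∀ (e : ℂ) (σ : G) (T : Pt), fc e = 0 → σ e = e → 2 • T = 0 →
      wl e (σ • T - T) = 0 := fun e σ T he h hT => by
    rw [sub_eq_add_neg, neg_two hT, wadd e _ _ he (smul_two σ hT) hT]
    conv_lhs => rw [← h, wsm, h]
    exact CharTwo.add_self_eq_zero _
  obtain ⟨f₁, hf₁⟩ := hemb e₁ ((root hf).2 (by simp))
  have G3 := gen hf h12 h13 h23 c1 c2 w1 w2
  have c3 : cj e₃ = e₂ := by rw [← c2]; exact Complex.conj_conj e₂
  refine ⟨fun ξ hξ => ?_, fun α ξ hα hξ hK => ⟨?_, ?_⟩⟩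
  · obtain ⟨J, hJ, hJ'⟩ := hξ.fin
    obtain ⟨α, s₁, hα, hs₁, hσ⟩ := hchi L f₁ (fun σ => wl e₁ (ξ σ)) J hJ (fun σ τ h _ => by
      rw [hξ.mul, wadd _ _ _ (hf₁ ▸ rt f₁) (hξ.two _) (smul_two _ (hξ.two _))]
      conv_lhs => rw [← wsm e₁ σ⁻¹ (σ • ξ τ), inv_smul_smul, ← hf₁, ← h θ]
      rw [show σ⁻¹ (σ (f₁ θ)) = f₁ θ from σ.symm_apply_apply _, h θ, hf₁])
      fun σ _ h => by rw [hJ' σ h, w0]
    have hK : Kum θ α ξ := by
      intro e s σ h h'
      obtain ⟨g, hg⟩ := hext L f₁ e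
      have a1 : ∀ y, (g⁻¹ * σ * g) (f₁ y) = f₁ y := fun y => g.injective (by
        change g (g.symm (σ (g (f₁ y)))) = _
        rw [g.apply_symm_apply, hg, fx e e σ h'])
      have a2 : g • ξ (g⁻¹ * σ * g) = ξ σ + (σ • ξ g - ξ g) := by
        have := hξ.mul g (g⁻¹ * σ * g)
        rw [← mul_assoc, mul_inv_cancel_left, hξ.mul] at this
        rw [← add_sub_assoc, this, add_sub_cancel_left]
      have a3 : wl e₁ (ξ (g⁻¹ * σ * g)) = wl (e θ) (ξ σ) := by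
        rw [← wsm _ g, a2, ← hf₁, hg, wadd _ _ _ (rt e) (hξ.two _)
          (by rw [nsmul_sub, smul_two _ (hξ.two _), hξ.two, sub_zero]),
          wd _ _ _ (rt e) h' (hξ.two _), add_zero]
      rw [← a3, ← hσ _ a1]
      have a4 : (g⁻¹ * σ * g) s₁ = s₁ ↔ σ (g s₁) = g s₁ := g.symm_apply_eq
      rw [a4]
      rcases sgn (a := s) (b := g s₁) (by rw [h, ← map_pow, hs₁, hg]) with rfl | rfl
      · rfl
      · rw [map_neg, neg_inj]
    refine ⟨α, hα, ?_, hK⟩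
    obtain ⟨f₂, hf₂⟩ := hemb e₂ ((root hf).2 (by simp))
    obtain ⟨f₃, hf₃⟩ := hemb e₃ ((root hf).2 (by simp))
    obtain ⟨s₂, hs₂⟩ := IsAlgClosed.exists_pow_nat_eq (f₂ α) two_pos
    obtain ⟨s₃, hs₃⟩ := IsAlgClosed.exists_pow_nat_eq (f₃ α) two_pos
    have hn : ((Algebra.norm ℚ α : ℚ) : ℂ) = (s₁ * s₂ * s₃) ^ 2 := by
      rw [hnorm α f₁ f₂ f₃ (by rwa [hf₁, hf₂]) (by rwa [hf₁, hf₃]) (by rwa [hf₂, hf₃]), mul_pow,
        mul_pow, hs₁, hs₂, hs₃]
    have n0 : s₁ * s₂ * s₃ ≠ 0 := fun h => by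
      rw [h, zero_pow two_ne_zero, Rat.cast_eq_zero, Algebra.norm_eq_zero_iff] at hn
      exact hα hn
    have pm : ∀ (f : L →+* ℂ) (s : ℂ) (σ : G), s ^ 2 = f α → σ (f θ) = f θ →
        (σ s = s ∧ wl (f θ) (ξ σ) = 0) ∨ (σ s = -s ∧ wl (f θ) (ξ σ) = 1) := fun f s σ h h' => by
      by_cases h0 : wl (f θ) (ξ σ) = 0
      · exact Or.inl ⟨(hK f s σ h h').2 h0, h0⟩
      · exact Or.inr ⟨(sgn (by rw [← map_pow, h, fx f f σ h'])).resolve_left
          (mt (hK f s σ h h').1 h0), if_neg fun h => h0 (if_pos h)⟩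
    have hN : ∀ σ : G, σ e₁ = e₁ → σ e₂ = e₂ → σ e₃ = e₃ → σ (s₁ * s₂ * s₃) = s₁ * s₂ * s₃ := by
      intro σ a1 a2 a3
      have := hw _ (hξ.two σ)
      rw [← hf₁] at a1 this
      rw [← hf₂] at a2 this
      rw [← hf₃] at a3 this
      rw [map_mul, map_mul]
      rcases pm f₁ s₁ σ hs₁ a1 with ⟨b1, d1⟩ | ⟨b1, d1⟩ <;>
        rcases pm f₂ s₂ σ hs₂ a2 with ⟨b2, d2⟩ | ⟨b2, d2⟩ <;>
        rcases pm f₃ s₃ σ hs₃ a3 with ⟨b3, d3⟩ | ⟨b3, d3⟩ <;>
        rw [d1, d2, d3] at this <;>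
        first
        | exact absurd this (by decide)
        | (rw [b1, b2, b3]; try ring)
    obtain ⟨y, hy⟩ := hfix ℚ (Rat.castHom ℂ) (s₁ * s₂ * s₃) fun σ _ => by
      refine G3 (fun σ => σ (s₁ * s₂ * s₃) = s₁ * s₂ * s₃)
        (fun σ τ a b => (congrArg σ b).trans a) hN ?_ ?_ σ
      · refine (sgn (by rw [← map_pow, ← hn, map_ratCast])).resolve_right fun h => n0 ?_
        have : ω (ω (ω (s₁ * s₂ * s₃))) = s₁ * s₂ * s₃ := hN (ω * ω * ω)
          (show ω (ω (ω e₁)) = e₁ by rw [w1, w2, w3]) (show ω (ω (ω e₂)) = e₂ by rw [w2, w3, w1])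
          (show ω (ω (ω e₃)) = e₃ by rw [w3, w1, w2])
        rw [h, map_neg, h, neg_neg, h] at this
        exact self_eq_neg.1 this.symm
      · have a1 : cj s₁ = s₁ := by
          refine (hK f₁ s₁ cj hs₁ (by rwa [hf₁])).2 (if_pos ?_)
          have := hξ.mul cj cj
          rw [cj_mul_cj, coc_one hξ.mul, eq_comm, add_eq_zero_iff_neg_eq,
            neg_two (hξ.two _)] at this
          have e := (congrArg xc this).trans (xc_smul _ _)
          rcases (h2 _).1 (hξ.two cj) with h | h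
          · exact Or.inl h
          · rcases (root hf).1 h.2 with h | h | h
            · exact Or.inr (h.trans hf₁.symm)
            · exact absurd (by rwa [h, c2] at e) h23
            · exact absurd (by rwa [h, c3, eq_comm] at e) h23
        have a2 := sgn (a := cj s₂) (b := s₃) (by
          rw [← map_pow, hs₂, hs₃, fx f₂ f₃ cj (by rwa [hf₂, hf₃])])
        have a3 : cj (cj s₂) = s₂ := Complex.conj_conj s₂
        rw [map_mul, map_mul, a1]
        rcases a2 with h | h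
        · rw [h] at a3
          rw [h, a3, mul_right_comm]
        · rw [h, map_neg, neg_eq_iff_eq_neg] at a3
          rw [h, a3]
          ring
    refine ⟨y, Rat.cast_injective (α := ℂ) ?_⟩
    rw [hn, ← hy, sq, Rat.cast_mul]
    rfl
  · rintro ⟨β, rfl⟩
    have z : ∀ (x : ℂ) (σ : G), fc x = 0 → σ x = x → ξ σ = 0 ∨ xc (ξ σ) = x := fun x σ h h' => by
      obtain ⟨f, rfl⟩ := hemb x h
      have := (hK f (f β) σ (by rw [map_mul, sq]) h').1 (fx f f σ h' β)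
      exact by_contra fun h => one_ne_zero ((if_neg h).symm.trans this)
    have mv : ∀ (σ : G) x y, fc x = 0 → σ x = y → σ • pt x 0 = pt y 0 := fun σ x y h h' => by
      obtain ⟨a1, a2, a3⟩ := hpt x 0 (by rw [h]; simp)
      obtain ⟨b1, b2, b3⟩ := hpt y 0 (by rw [← h', ← map_fc, h]; simp)
      exact act_ext (by simp [smul_eq_zero', a1, b1]) (by rw [xc_smul, a2, b2, h'])
        (by rw [yc_smul, a3, b3, map_zero])
    have cs : ∀ T : Pt, 2 • T = 0 → T = 0 ∨ T = pt e₁ 0 ∨ T = pt e₂ 0 ∨ T = pt e₃ 0 := by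
      intro T hT
      by_cases h0 : T = 0
      · exact Or.inl h0
      obtain ⟨a, b⟩ := ((h2 T).1 hT).resolve_left h0
      obtain ⟨a1, a2, a3⟩ := hpt (xc T) 0 (by rw [b]; simp)
      have : T = pt (xc T) 0 := act_ext (by simp [h0, a1]) a2.symm (a.trans a3.symm)
      rcases (root hf).1 b with h | h | h <;> rw [h] at this <;> simp [this]
    have r1 : fc e₁ = 0 := (root hf).2 (by simp)
    have r2 : fc e₂ = 0 := (root hf).2 (by simp)
    have r3 : fc e₃ = 0 := (root hf).2 (by simp)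
    have t3 : pt e₁ 0 + pt e₂ 0 + pt e₃ 0 = 0 := by
      obtain ⟨-, a2, a3⟩ := hpt e₃ 0 (by rw [r3]; simp)
      rw [hs, ← two_nsmul]
      exact (h2 _).2 (Or.inr ⟨a3, a2.symm ▸ r3⟩)
    have cy : ∀ T : Pt, 2 • T = 0 → ω • ω • T + ω • T + T = 0 := fun T hT => by
      rcases cs T hT with rfl | rfl | rfl | rfl
      · simp only [sm_zero, add_zero]
      · rw [mv ω _ _ r1 w1, mv ω _ _ r2 w2, ← t3]; abel
      · rw [mv ω _ _ r2 w2, mv ω _ _ r3 w3, ← t3]; abel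
      · rw [mv ω _ _ r3 w3, mv ω _ _ r1 w1, ← t3]; abel
    have hT := smul_two ω (hξ.two ω)
    set T := ω • ξ ω with hT'
    let η : G → Pt := fun σ => ξ σ - (σ • T - T)
    have em : ∀ σ τ, η (σ * τ) = η σ + σ • η τ := fun σ τ => by
      simp only [η, hξ.mul, mul_smul, sm_sub]
      abel
    have e2 : ∀ σ, 2 • η σ = 0 := fun σ => by
      simp only [η, nsmul_sub, hξ.two, smul_two σ hT, hT, sub_zero]
    have eN : ∀ σ : G, σ e₁ = e₁ → σ e₂ = e₂ → σ e₃ = e₃ → η σ = 0 := fun σ a1 a2 a3 => by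
      have b1 : ξ σ = 0 := by_contra fun h =>
        h12 (((z _ σ r1 a1).resolve_left h).symm.trans ((z _ σ r2 a2).resolve_left h))
      have b2 : σ • T = T := by
        rcases cs T hT with h | h | h | h <;> rw [h]
        exacts [sm_zero _, mv σ _ _ r1 a1, mv σ _ _ r2 a2, mv σ _ _ r3 a3]
      simp only [η, b1, b2, sub_self]
    have eω : η ω = 0 := by
      have := cy _ (hξ.two ω)
      rw [← hT'] at this
      change ξ ω - (ω • T - T) = 0
      rw [sub_eq_add_neg (ω • T), neg_two hT, sub_eq_zero, ← neg_two (hξ.two ω),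
        neg_eq_iff_add_eq_zero, add_comm, this]
    refine ⟨T, hT, fun σ => sub_eq_zero.1 (G3 (fun σ => η σ = 0)
      (fun σ τ a b => by rw [em, a, b, sm_zero, add_zero]) eN eω ?_ σ)⟩
    have a1 := em cj cj
    have a2 := em (cj * ω) (cj * ω)
    rw [cj_mul_cj, coc_one em] at a1
    rw [eN _ (show cj (ω (cj (ω e₁))) = e₁ by rw [w1, c2, w3, c1])
      (show cj (ω (cj (ω e₂))) = e₂ by rw [w2, c3, w2, c3])
      (show cj (ω (cj (ω e₃))) = e₃ by rw [w3, c1, w1, c2]), em, eω, sm_zero, add_zero,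
      mul_smul] at a2
    have a3 : ω • η cj = η cj := smul_left_cancel cj (add_left_cancel (a2.symm.trans a1))
    have a4 := cy _ (e2 cj)
    rwa [a3, a3, ← two_nsmul, e2, zero_add] at a4
  · rintro ⟨T, hT, h⟩
    obtain ⟨s, hs⟩ := IsAlgClosed.exists_pow_nat_eq (f₁ α) two_pos
    obtain ⟨y, rfl⟩ := hfix L f₁ s fun σ hσ =>
      (hK f₁ s σ hs (hσ θ)).2 (by rw [h, wd _ _ _ (rt f₁) (hσ θ) hT])
    exact ⟨y, f₁.injective (by rw [← hs, map_mul, sq])⟩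

end Pool.Agent.Lib.MP_d6ddbd_nt.K11
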