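import Pool.Agent.Lib.MP_d6ddbd_nt.K11.Stmt
import Pool.Agent.Lib.MP_ca56d1_nt.Loc

/-!
A two-converse theorem for the quadratic twists of `X₀(11)`: ramification and Frobenius values of
a class, away from `d`.
-/

set_option autoImplicit false

open NumberField IsDedekindDomain
open Pool.Agent.Lib.MP_02f36d_nt (xc yc)
open Pool.Agent.Stark

noncomputable section

namespace Pool.Agent.Lib.MP_d6ddbd_nt.K11

namespace Link1

variable {O : ValuationSubring ℂ}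

theorem nu {x : ℂ} : x ∈ O.nonunits ↔ O.valuation x < 1 := O.mem_nonunits_iff

theorem le1 {x : ℂ} : x ∈ O ↔ O.valuation x ≤ 1 := (O.valuation_le_one_iff x).symm

theorem sq1 {x : ℂ} (h : O.valuation x ^ 2 = 1) : O.valuation x = 1 :=
  (pow_eq_one_iff_of_nonneg zero_le two_ne_zero).1 h

theorem vint {l : ℕ} (hl : l.Prime) (h : Ov O l) {n : ℤ} (hn : ¬ (l : ℤ) ∣ n) :
    O.valuation n = 1 := by
  refine le_antisymm (le1.1 (intCast_mem O n)) (not_lt.1 fun h1 => ?_)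
  obtain ⟨a, b, hab⟩ := (Nat.prime_iff_prime_int.1 hl).irreducible.coprime_iff_not_dvd.2 hn
  have h2 : O.valuation ((a : ℂ) * l + b * n) < 1 := by
    refine Valuation.map_add_lt _ ?_ ?_ <;> rw [map_mul]
    · exact mul_lt_one_of_nonneg_of_lt_one_right (le1.1 (intCast_mem O a)) zero_le (nu.1 h)
    · exact mul_lt_one_of_nonneg_of_lt_one_right (le1.1 (intCast_mem O b)) zero_le h1
  have h3 : (a : ℂ) * l + b * n = 1 := by exact_mod_cast hab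
  rw [h3, map_one] at h2
  exact lt_irrefl _ h2

theorem vsf {l : ℕ} (hl : l.Prime) (h : Ov O l) {c : ℤ} (hc : Squarefree c) (hd : (l : ℤ) ∣ c) :
    O.valuation c = O.valuation l := by
  obtain ⟨c', rfl⟩ := hd
  have h1 : ¬ (l : ℤ) ∣ c' := fun h1 =>
    (Nat.prime_iff_prime_int.1 hl).not_isUnit (hc _ (mul_dvd_mul_left _ h1))
  rw [Int.cast_mul, map_mul, vint hl h h1, mul_one, Int.cast_natCast]

theorem fixu {t t' : ℂ} (h2 : O.valuation 2 = 1) (ht : O.valuation t = 1) (h : t' ^ 2 = t ^ 2)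
    (hn : O.valuation (t' - t) < 1) : t' = t := by
  rcases sq_eq_sq_iff_eq_or_eq_neg.1 h with h | h
  · exact h
  · rw [h, show -t - t = -(2 * t) by ring, Valuation.map_neg, map_mul, h2, ht, one_mul] at hn
    exact absurd hn (lt_irrefl _)

theorem near {x y : ℂ} (hx : fc x = 0) (hy : fc y = 0) (hO : x ∈ O) (hd : O.valuation (fd x) = 1)
    (hn : O.valuation (y - x) < 1) : y = x := by
  by_contra hne
  have hq : x ^ 2 + x * y + y ^ 2 - 4 * (x + y) - 160 = 0 := by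
    apply mul_left_cancel₀ (sub_ne_zero.2 hne)
    unfold fc at hx hy
    linear_combination hy - hx
  have h1 : fd x = (4 - 3 * x - (y - x)) * (y - x) := by unfold fd; linear_combination hq
  have h2 : 4 - 3 * x - (y - x) ∈ O :=
    sub_mem (sub_mem (ofNat_mem O 4) (mul_mem (ofNat_mem O 3) hO)) (le1.2 hn.le)
  rw [h1, map_mul] at hd
  exact (mul_lt_one_of_nonneg_of_lt_one_right (le1.1 h2) zero_le hn).ne hd

theorem alg2 {s x : ℂ} (h : s ^ 2 = x) (hx : IsAlgebraic ℚ x) : IsAlgebraic ℚ s :=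
  IsAlgebraic.of_pow two_pos (h ▸ hx)

theorem mfc {R S : Type*} [CommRing R] [CommRing S] (f : R →+* S) (x : R) :
    f (fc x) = fc (f x) := by simp [fc, map_ofNat]

theorem mfd {R S : Type*} [CommRing R] [CommRing S] (f : R →+* S) (x : R) :
    f (fd x) = fd (f x) := by simp [fd, map_ofNat]

theorem gfc (σ : G) {x : ℂ} (h : fc x = 0) : fc (σ x) = 0 :=
  (mfc (σ : ℂ →+* ℂ) x).symm.trans (by rw [h, map_zero])

/-- An inertia element that moves the square root of a squarefree multiple of `l`. -/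
theorem partB (hV : VStmt) {l : ℕ} {u : ℂ} {c : ℤ} (hl : l.Prime) (hO : Ov O l) (hu : u ^ 2 = c)
    (hc : Squarefree c) (hd : (l : ℤ) ∣ c) : ∃ σ : G, Frob O 1 σ ∧ σ u = -u := by
  by_contra! h
  have hc0 : (c : ℂ) ≠ 0 := by exact_mod_cast hc.ne_zero
  have hu0 : u ≠ 0 := by rintro rfl; exact hc0 (by rw [← hu]; simp)
  obtain ⟨y, hy, h1, h2⟩ := hV.2.2.1 ℚ (algebraMap ℚ ℂ) l O u hl hO
    (alg2 hu (isAlgebraic_intCast c)) hu0 fun σ hσ _ =>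
      (sq_eq_sq_iff_eq_or_eq_neg.1 (by rw [← map_pow, hu, map_intCast])).resolve_right (h σ hσ)
  have h3 : O.valuation (u / algebraMap ℚ ℂ y) = 1 :=
    le_antisymm (le1.1 h1) (not_lt.1 (mt nu.2 h2))
  have hp := (Nat.prime_iff_prime_int.1 hl).irreducible
  obtain ⟨i, a, ha, e1⟩ := WfDvdMonoid.max_power_factor (Rat.num_ne_zero.2 hy) hp
  obtain ⟨j, b, hb, e2⟩ := WfDvdMonoid.max_power_factor (a₀ := (y.den : ℤ))
    (by exact_mod_cast y.den_ne_zero) hp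
  have e3 : algebraMap ℚ ℂ y * (y.den : ℤ) = y.num := by
    rw [eq_ratCast, Rat.cast_def]
    have : (y.den : ℂ) ≠ 0 := by exact_mod_cast y.den_ne_zero
    push_cast
    field_simp
  have hy0 : algebraMap ℚ ℂ y ≠ 0 := (map_ne_zero _).2 hy
  rw [map_div₀, div_eq_one_iff_eq ((Valuation.ne_zero_iff _).2 hy0)] at h3
  have e4 := congrArg (fun z => O.valuation z ^ 2) e3
  rw [e1, e2] at e4
  simp only [Int.cast_mul, Int.cast_pow, Int.cast_natCast, map_mul, map_pow, vint hl hO ha,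
    vint hl hO hb, mul_one, mul_pow] at e4
  rw [← h3, ← map_pow, hu, vsf hl hO hc hd, ← pow_mul, ← pow_mul, ← pow_succ'] at e4
  have h4 : 0 < O.valuation l := (Valuation.pos_iff _).2 (by exact_mod_cast hl.ne_zero)
  have := (pow_right_strictAnti₀ h4 (nu.1 hO)).injective e4
  omega

variable {L : Type} [Field L] [NumberField L] {θ : L} {e : L →+* ℂ} {𝔭 : Pr L}

theorem alge (e : L →+* ℂ) (x : L) : IsAlgebraic ℚ (e x) :=
  (Algebra.IsAlgebraic.isAlgebraic x).algHom e.toRatAlgHom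

theorem b0 (h : Below e O 𝔭) (x : L) : e x ∈ O ↔ x ∈ pw (𝔭.valuation L) 0 := by
  rcases eq_or_ne x 0 with rfl | hx
  · simp
  · rw [h x hx, ComplAux.mem_pw_zero, og]

theorem b1 (hV : VStmt) (h : Below e O 𝔭) (x : L) :
    O.valuation (e x) < 1 ↔ x ∈ pw (𝔭.valuation L) 1 := by
  rcases eq_or_ne x 0 with rfl | hx
  · simp
  · rw [← nu, hV.1.2.2.2.1 L e O 𝔭 h x hx, mem_pw_iff, or_iff_right hx, og]
    rfl

theorem bu (hV : VStmt) (h : Below e O 𝔭) {x : L} (hx : x ≠ 0) (h0 : og 𝔭 x = 0) :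
    O.valuation (e x) = 1 :=
  le_antisymm (le1.1 ((h x hx).2 h0.ge)) (not_lt.1 fun h1 => by
    have := (hV.1.2.2.2.1 L e O 𝔭 h x hx).1 (nu.2 h1)
    omega)

theorem ov (hV : VStmt) (h : Below e O 𝔭) {l : ℕ} (hl : l ≠ 0) (hm : 𝔭 ∈ ab L l) : Ov O l := by
  have h1 := (ComplAux.int_mem_pw 𝔭 (l : 𝓞 L) 1).2 (by rw [pow_one]; exact (mem_ab' hl).1 hm)
  have h2 := (b1 hV h (l : L)).2 h1
  rwa [map_natCast] at h2

theorem fce (hc : Cub θ) (e : L →+* ℂ) : fc (e θ) = 0 := by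
  rw [← mfc, show fc θ = 0 from hc.eq, map_zero]

theorem fdne (hPr : PrStmt) (hc : Cub θ) : fd θ ≠ 0 := fun h =>
  ((hPr L θ hc).2.2.2.2.2.1 (-751 / 62)).1 (by
    have := hc.eq
    unfold fd at h
    push_cast
    linear_combination (9 * this - (3 * θ - 4) * h) / 992)

theorem fixL (hPr : PrStmt) (hc : Cub θ) {σ : G} (h : σ (e θ) = e θ) (y : L) :
    σ (e y) = e y := by
  obtain ⟨a, b, c, rfl⟩ := (hPr L θ hc).2.2.2.2.2.2.1 y
  simp [h]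

theorem thO (hPr : PrStmt) (hc : Cub θ) (h : Below e O 𝔭) : e θ ∈ O :=
  (b0 h θ).2 (ComplAux.mem_pw_zero.2 ((hPr L θ hc).2.2.2.2.1 𝔭).1)

/-- Residues: Fermat's and Euler's congruences. -/
theorem resid (𝔭 : Pr L) {x : L} (hx : x ∈ pw (𝔭.valuation L) 0) :
    x ^ nm 𝔭 - x ∈ pw (𝔭.valuation L) 1 ∧ (og 𝔭 (2 : L) = 0 → Odd (nm 𝔭) ∧
      (x ^ (nm 𝔭 / 2) - 1 ∈ pw (𝔭.valuation L) 1 → x ∉ pw (𝔭.valuation L) 1 →
        ∃ y : L, x - y ^ 2 ∈ pw (𝔭.valuation L) 1)) := by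
  classical
  have hm : ∀ a : 𝓞 L, (a : L) ∈ pw (𝔭.valuation L) 1 ↔ Ideal.Quotient.mk 𝔭.asIdeal a = 0 :=
    fun a => by
      rw [Ideal.Quotient.eq_zero_iff_mem, ← pow_one 𝔭.asIdeal]
      exact ComplAux.int_mem_pw 𝔭 a 1
  obtain ⟨a, ha⟩ := 𝔭.exists_valuation_sub_lt_of_integer (K := L) (x := x) hx 1
  have ha' : (a : L) - x ∈ pw (𝔭.valuation L) 1 := by
    rcases eq_or_ne ((a : L) - x) 0 with h | h
    · rw [h]; exact zero_mem _
    · have := (val_lt_val (w := 𝔭.valuation L) h one_ne_zero).1 (by rw [map_one]; exact ha)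
      rw [ord_one] at this
      exact LocAux.mem_of_le this
  have h0 : (a : L) ∈ pw (𝔭.valuation L) 0 := ComplAux.mem_pw_zero.2 (og_nonneg 𝔭 a)
  have hp : ∀ n : ℕ, (a : L) ^ n - x ^ n ∈ pw (𝔭.valuation L) 1 ∧
      x ^ n ∈ pw (𝔭.valuation L) 0 := fun n => by
    induction n with
    | zero => exact ⟨by simp, by simpa using LocAux.one_mem⟩
    | succ n ih =>
      rw [show (a : L) ^ (n + 1) - x ^ (n + 1) = (a ^ n - x ^ n) * a + x ^ n * (a - x) by ring,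
        pow_succ]
      exact ⟨add_mem (LocAux.pw_mul ih.1 h0 le_rfl) (LocAux.pw_mul ih.2 ha' le_rfl),
        LocAux.pw_mul ih.2 hx le_rfl⟩
  have := 𝔭.isMaximal
  let _ := Ideal.Quotient.field 𝔭.asIdeal
  have : Finite (𝓞 L ⧸ 𝔭.asIdeal) := Ideal.finiteQuotientOfFreeOfNeBot _ 𝔭.ne_bot
  let _ := Fintype.ofFinite (𝓞 L ⧸ 𝔭.asIdeal)
  have hN : nm 𝔭 = Fintype.card (𝓞 L ⧸ 𝔭.asIdeal) := by
    rw [← Nat.card_eq_fintype_card]
    exact Submodule.cardQuot_apply _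
  refine ⟨?_, fun h2 => ?_⟩
  · have h1 := (hm (a ^ nm 𝔭 - a)).2 (by rw [map_sub, map_pow, hN, FiniteField.pow_card, sub_self])
    have h2 := add_mem (sub_mem h1 (hp (nm 𝔭)).1) ha'
    push_cast at h2
    rwa [show (a : L) ^ nm 𝔭 - a - (a ^ nm 𝔭 - x ^ nm 𝔭) + (a - x) = x ^ nm 𝔭 - x by ring] at h2
  have hch : ringChar (𝓞 L ⧸ 𝔭.asIdeal) ≠ 2 := fun h => by
    have h1 := (hm 2).2 (by
      have := ringChar.Nat.cast_ringChar (R := 𝓞 L ⧸ 𝔭.asIdeal)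
      rw [h] at this
      exact (map_ofNat _ 2).trans this)
    have h3 : ((2 : 𝓞 L) : L) = 2 := rfl
    rw [h3] at h1
    exact LocAux.not_mem.2 ⟨two_ne_zero, by rw [← og, h2]; exact one_pos⟩ h1
  refine ⟨hN ▸ Nat.odd_iff.2 (FiniteField.odd_card_of_char_ne_two hch), fun h3 h4 => ?_⟩
  have h5 : Ideal.Quotient.mk 𝔭.asIdeal a ≠ 0 := fun h => h4 (by
    simpa using sub_mem ((hm a).2 h) ha')
  have h6 := (hm (a ^ (nm 𝔭 / 2) - 1)).1 (by
    have := add_mem (hp (nm 𝔭 / 2)).1 h3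
    push_cast
    rwa [sub_add_sub_cancel] at this)
  rw [map_sub, map_pow, map_one, sub_eq_zero, hN] at h6
  obtain ⟨y, hy⟩ := (FiniteField.isSquare_iff hch h5).2 h6
  obtain ⟨y, rfl⟩ := Ideal.Quotient.mk_surjective y
  have h7 := sub_mem ((hm (a - y ^ 2)).2 (by rw [map_sub, map_pow, hy, sq, sub_self])) ha'
  push_cast at h7
  exact ⟨y, by rwa [show (a : L) - y ^ 2 - (a - x) = x - y ^ 2 by ring] at h7⟩

section A

variable (hV : VStmt) (hPr : PrStmt) (hc : Cub θ) {l : ℕ} {α : L} {s : ℂ} (hl : l.Prime)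
  (h2 : l ≠ 2) (h11 : l ≠ 11) (hm : 𝔭 ∈ ab L l) (hB : Below e O 𝔭)
include hV hPr hc hl h2 h11 hm hB

theorem vfd : O.valuation (fd (e θ)) = 1 := by
  rw [← mfd]
  exact bu hV hB (fdne hPr hc) (((hPr L θ hc).2.2.1 l hl h2 h11).1 𝔭 hm).2.2.1

theorem v2 : O.valuation 2 = 1 := by
  rw [← map_ofNat e 2]
  exact bu hV hB two_ne_zero (((hPr L θ hc).2.2.1 l hl h2 h11).1 𝔭 hm).2.1

theorem partA1 (hα : α ≠ 0) (hs : s ^ 2 = e α) {σ : G} {u : ℂ} {c : ℤ} (hσ : Frob O 1 σ)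
    (hu : u ^ 2 = c) (hsf : Squarefree c) (hd : (l : ℤ) ∣ c) (hσu : σ u = -u) :
    σ (e θ) = e θ ∧ (σ s = s ↔ Even (og 𝔭 α)) := by
  have hθ : σ (e θ) = e θ := near (fce hc e) (gfc σ (fce hc e)) (thO hPr hc hB)
    (vfd hV hPr hc hl h2 h11 hm hB)
    (by simpa only [pow_one] using nu.1 (hσ _ (alge e θ) (thO hPr hc hB)).2)
  refine ⟨hθ, ?_⟩
  have hO := ov hV hB hl.ne_zero hm
  have hl0 : (l : L) ≠ 0 := by exact_mod_cast hl.ne_zero
  have hl1 := (((hPr L θ hc).2.2.1 l hl h2 h11).1 𝔭 hm).1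
  have hc0 : (c : ℂ) ≠ 0 := by exact_mod_cast hsf.ne_zero
  have hu0 : u ≠ 0 := by rintro rfl; exact hc0 (by rw [← hu]; simp)
  have hs0 : s ≠ 0 := by rintro rfl; exact (map_ne_zero e).2 hα (by rw [← hs]; simp)
  generalize hm' : og 𝔭 α = m
  have h3 := bu hV hB (div_ne_zero hα (zpow_ne_zero m hl0)) (by
    rw [og, ord_div hα (zpow_ne_zero m hl0), ord_zpow, ← og, ← og, hm', hl1]; ring)
  have h4 : (s / u ^ m) ^ 2 = e (α / (c : L) ^ m) := by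
    rw [div_pow, hs, ← zpow_natCast, ← zpow_mul, mul_comm, zpow_mul, zpow_natCast, hu, map_div₀,
      map_zpow₀, map_intCast]
  have h5 : O.valuation (s / u ^ m) = 1 := sq1 (by
    rw [← map_pow, h4, ← h3]
    simp only [map_div₀, map_zpow₀, map_intCast, map_natCast, vsf hl hO hsf hd])
  have h6 : σ (s / u ^ m) = s / u ^ m := fixu (v2 hV hPr hc hl h2 h11 hm hB) h5
    (by rw [← map_pow, h4, fixL hPr hc hθ])
    (by simpa only [pow_one] using nu.1 (hσ _ (alg2 h4 (alge e _)) (le1.2 h5.le)).2)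
  rw [map_div₀, map_zpow₀, hσu, div_eq_div_iff (zpow_ne_zero _ (neg_ne_zero.2 hu0))
    (zpow_ne_zero _ hu0)] at h6
  rcases Int.even_or_odd m with h | h
  · rw [h.neg_zpow] at h6
    exact iff_of_true (mul_right_cancel₀ (zpow_ne_zero _ hu0) h6) h
  · rw [h.neg_zpow] at h6
    refine iff_of_false (fun h7 => ?_) (Int.not_even_iff_odd.2 h)
    rw [h7, mul_neg, self_eq_neg] at h6
    exact mul_ne_zero hs0 (zpow_ne_zero _ hu0) h6

theorem partA2 (hα : α ≠ 0) (hs : s ^ 2 = e α) {φ : G} (hφ : Frob O (nm 𝔭) φ)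
    (he : Even (og 𝔭 α)) : φ (e θ) = e θ ∧ (φ s = s ↔ LSq 𝔭 α) := by
  have hθ : φ (e θ) = e θ := near (fce hc e) (gfc φ (fce hc e)) (thO hPr hc hB)
    (vfd hV hPr hc hl h2 h11 hm hB) (by
      have h3 := (b1 hV hB _).2 (resid 𝔭 ((b0 hB θ).1 (thO hPr hc hB))).1
      rw [map_sub, map_pow] at h3
      simpa using Valuation.map_add_lt _ (nu.1 (hφ _ (alge e θ) (thO hPr hc hB)).2) h3)
  refine ⟨hθ, ?_⟩
  have hl0 : (l : L) ≠ 0 := by exact_mod_cast hl.ne_zero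
  obtain ⟨hl1, ho2, -⟩ := ((hPr L θ hc).2.2.1 l hl h2 h11).1 𝔭 hm
  obtain ⟨k, hk⟩ := he
  have hlk := zpow_ne_zero k hl0
  set z := α / ((l : L) ^ k) ^ 2 with hz
  have hz0 : z ≠ 0 := div_ne_zero hα (pow_ne_zero 2 hlk)
  have hz1 : og 𝔭 z = 0 := by
    rw [og, hz, ord_div hα (pow_ne_zero 2 hlk), ord_pow, ord_zpow, ← og, ← og, hk, hl1]; ring
  have hz2 : z ∈ pw (𝔭.valuation L) 0 := ComplAux.mem_pw_zero.2 hz1.ge
  have hz3 : z ∉ pw (𝔭.valuation L) 1 := LocAux.not_mem.2 ⟨hz0, by rw [← og, hz1]; exact one_pos⟩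
  set t := s / e ((l : L) ^ k) with ht
  have h4 : t ^ 2 = e z := by rw [ht, hz, div_pow, hs, map_div₀, map_pow]
  have h5 : O.valuation t = 1 := sq1 (by rw [← map_pow, h4, bu hV hB hz0 hz1])
  have h6 : φ s = s ↔ φ t = t := by
    rw [ht, map_div₀, fixL hPr hc hθ, div_left_inj' ((map_ne_zero e).2 hlk)]
  have h7 : LSq 𝔭 α ↔ LSq 𝔭 z := by
    have h8 : α = z * ((l : L) ^ k) ^ 2 := (div_mul_cancel₀ _ (pow_ne_zero 2 hlk)).symm
    refine ⟨fun h => ?_, fun h => ?_⟩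
    · rw [LSq, hz, map_div₀, map_pow]
      exact h.div (IsSquare.sq _)
    · rw [LSq, h8, map_mul, map_pow]
      exact h.mul (IsSquare.sq _)
  have hat := alg2 h4 (alge e z)
  obtain ⟨hodd, hE⟩ := (resid 𝔭 hz2).2 ho2
  rw [h6, h7]
  refine ⟨fun h => ?_, fun h => ?_⟩
  · have h8 := nu.1 (hφ t hat (le1.2 h5.le)).2
    have h9 : t - t ^ nm 𝔭 = -(t * e (z ^ (nm 𝔭 / 2) - 1)) := by
      rw [map_sub, map_pow, ← h4, ← pow_mul, map_one]
      conv_lhs => rw [← Nat.two_mul_div_two_add_one_of_odd hodd]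
      ring
    rw [h, h9, Valuation.map_neg, map_mul, h5, one_mul] at h8
    obtain ⟨y, hy⟩ := hE ((b1 hV hB _).1 h8) hz3
    have h10 := LocAux.add_high (w := 𝔭.valuation L) hz0 (y := -(z - y ^ 2))
      (neg_mem (by rwa [← og, hz1]))
    rw [show z + -(z - y ^ 2) = y ^ 2 by ring, show ord _ z = 0 from hz1] at h10
    have h12 := LocAux.hens (isLoc_wv 𝔭) (x := emb 𝔭 (z / y ^ 2)) (by
      rw [← map_ofNat (emb 𝔭) 2, ord_emb, ho2, ← map_one (emb 𝔭), ← map_sub,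
        ComplAux.emb_mem_pw, div_sub_one h10.1]
      exact LocAux.pw_div hy (by rw [h10.2]; norm_num))
    rw [LSq, ← div_mul_cancel₀ z h10.1, map_mul, map_pow]
    exact h12.mul (IsSquare.sq _)
  · obtain ⟨r, hr⟩ := h
    obtain ⟨y, hy⟩ := exists_approx 𝔭 r 1
    have hr0 : r ≠ 0 := by rintro rfl; exact (map_ne_zero (emb 𝔭)).2 hz0 (by simpa using hr)
    have hr1 : r ∈ pw (wv 𝔭) 0 := ComplAux.mem_pw_zero.2 (by
      have := ord_emb 𝔭 z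
      rw [hr, ord_mul hr0 hr0, hz1] at this
      omega)
    have h8 : y ^ 2 - z ∈ pw (𝔭.valuation L) 1 := by
      rw [← ComplAux.emb_mem_pw, map_sub, map_pow, hr,
        show emb 𝔭 y ^ 2 - r * r = (emb 𝔭 y - r) * (emb 𝔭 y - r + r + r) by ring]
      exact LocAux.pw_mul hy (add_mem (add_mem (LocAux.anti zero_le_one hy) hr1) hr1) le_rfl
    have h9 := (b1 hV hB _).2 h8
    have key : ∀ y : L, O.valuation (t - e y) < 1 → φ t = t := fun y h => by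
      have hN : nm 𝔭 ≠ 0 := by rintro h; rw [h] at hodd; exact absurd hodd (by decide)
      have h10 := nu.1 ((hV.2.1.2.1 O _ φ _ hφ hN (hat.sub (alge e y))).2.2 (nu.2 h))
      rw [map_sub, fixL hPr hc hθ] at h10
      refine fixu (v2 hV hPr hc hl h2 h11 hm hB) h5 (by rw [← map_pow, h4, fixL hPr hc hθ]) ?_
      simpa using Valuation.map_sub_lt _ h10 h
    rw [map_sub, map_pow, ← h4, show e y ^ 2 - t ^ 2 = -((t - e y) * (t - e (-y))) by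
      rw [map_neg]; ring, Valuation.map_neg, map_mul] at h9
    by_contra h10
    exact h9.not_ge (one_le_mul (not_lt.1 (mt (key y) h10)) (not_lt.1 (mt (key _) h10)))

end A

theorem wl0 {x : ℂ} {T : Pt} : wl x T = 0 ↔ T = 0 ∨ xc T = x := by
  unfold wl
  split_ifs with h
  · exact iff_of_true rfl h
  · exact iff_of_false one_ne_zero h

theorem rt2 (x : ℂ) : ∃ s : ℂ, s ^ 2 = x := IsAlgClosed.exists_pow_nat_eq x two_pos

theorem partC1 (hV : VStmt) (hR : RStmt) (hPr : PrStmt) (hc : Cub θ) {α : L} {ξ : G → Pt}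
    (hα : α ≠ 0) (hξ : Coc ξ) (hK : Kum θ α ξ) {v : ℕ} (hv : v.Prime) (h2 : v ≠ 2) (h11 : v ≠ 11)
    (hU : ∀ O, Ov O v → Unr O ξ) (hm : 𝔭 ∈ ab L v) : Even (og 𝔭 α) := by
  obtain ⟨x, y, z, hf, -⟩ := hR.1.2.2.2.2.1
  obtain ⟨e, -⟩ := (hPr L θ hc).2.2.2.2.2.2.2.1 x (by rw [hf]; ring)
  obtain ⟨O, hB⟩ := hV.1.2.1 L e 𝔭
  have hO := ov hV hB hv.ne_zero hm
  obtain ⟨u, hu⟩ := rt2 ((v : ℤ) : ℂ)
  obtain ⟨s, hs⟩ := rt2 (e α)
  have hsf : Squarefree (v : ℤ) := (Nat.prime_iff_prime_int.1 hv).squarefree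
  obtain ⟨σ, hσ, hσu⟩ := partB hV hv hO hu hsf dvd_rfl
  obtain ⟨h3, h4⟩ := partA1 hV hPr hc hv h2 h11 hm hB hα hs hσ hu hsf dvd_rfl hσu
  obtain ⟨S, hS, h5⟩ := hU O hO
  obtain ⟨-, -, r3, -, r5, -⟩ := hR.2 v O hv h2 h11 hO
  exact h4.1 ((hK e s σ hs h3).2 (wl0.2 (Or.inl (r5 1 _ (by rw [pow_one]; exact hξ.two σ)
    ((h5 σ hσ).2 ▸ r3 σ S hσ hS)))))

/-- The two primes above a prime of type one, seen from a place. -/
theorem roots (hV : VStmt) (hR : RStmt) (hPr : PrStmt) (hc : Cub θ) {p : ℕ} (hp : p.Prime)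
    (h2 : p ≠ 2) (h11 : p ≠ 11) (hO : Ov O p) {𝔮 : Pr L} (hne : 𝔭 ≠ 𝔮)
    (hab : ∀ 𝔯, 𝔯 ∈ ab L p ↔ 𝔯 = 𝔭 ∨ 𝔯 = 𝔮) (hn : nm 𝔭 = p) :
    ∃ e e' : L →+* ℂ, Below e O 𝔭 ∧ Below e' O 𝔮 ∧ e θ ≠ e' θ := by
  obtain ⟨-, -, P3, -, -, P6, -, P8, -⟩ := hPr L θ hc
  obtain ⟨Q1, Q2, -⟩ := P3 p hp h2 h11
  have hm := (hab 𝔭).2 (Or.inl rfl)
  set a := xr θ 𝔭
  have ha0 : (a : L) - θ ≠ 0 := sub_ne_zero.2 (by simpa using (P6 a).1)
  have k1 : ∀ (e : L →+* ℂ) O, Below e O 𝔭 → O.valuation (a - e θ) < 1 := fun e O h => by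
    have := (b1 hV h _).2 (LocAux.mem_of_le ((Q1 𝔭 hm).2.2.2.1.1 hn))
    rwa [map_sub, map_intCast] at this
  have k2 : ∀ x : ℂ, fc x = 0 → ∃ e : L →+* ℂ, e θ = x ∧ (Below e O 𝔭 ∨
      Below e O 𝔮 ∧ O.valuation (a - x) = 1) := fun x hx => by
    obtain ⟨e, rfl⟩ := P8 x hx
    obtain ⟨𝔯, h3, h4⟩ := hV.1.2.2.1 L e p O hp hO
    refine ⟨e, rfl, ((hab 𝔯).1 ((mem_ab' hp.ne_zero).2 h3)).imp (fun h : 𝔯 = 𝔭 => h ▸ h4) ?_⟩
    rintro rfl
    have := bu hV h4 ha0 (Q2 𝔭 hm 𝔯 ((hab 𝔯).2 (Or.inr rfl)) hn hne.symm)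
    rw [map_sub, map_intCast] at this
    exact ⟨h4, this⟩
  obtain ⟨x, y, z, hf, hxy, -, hyz, -⟩ := hR.1.2.2.2.2.1
  obtain ⟨e₁, h1, g1⟩ := k2 x (by rw [hf]; ring)
  obtain ⟨e₂, h2', g2⟩ := k2 y (by rw [hf]; ring)
  obtain ⟨e₃, h3, g3⟩ := k2 z (by rw [hf]; ring)
  have k3 : O.valuation (fc (a : ℂ)) < 1 := by
    obtain ⟨O', hB⟩ := hV.1.2.1 L e₁ 𝔭
    have h4 := fce hc e₁
    have h5 := thO hPr hc hB
    have h6 := intCast_mem O' a
    have h7 : (p : ℤ) ∣ fc a := by_contra fun h => by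
      have h8 := vint hp (ov hV hB hp.ne_zero hm) h
      have h9 : ((fc a : ℤ) : ℂ) =
          (a * a + a * e₁ θ + e₁ θ * e₁ θ - 4 * (a + e₁ θ) - 160) * (a - e₁ θ) := by
        unfold fc at h4 ⊢
        push_cast
        linear_combination h4
      rw [h9, map_mul] at h8
      exact (mul_lt_one_of_nonneg_of_lt_one_right (le1.1 (sub_mem (sub_mem (add_mem (add_mem
        (mul_mem h6 h6) (mul_mem h6 h5)) (mul_mem h5 h5)) (mul_mem (ofNat_mem O' 4)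
        (add_mem h6 h5))) (ofNat_mem O' 160))) zero_le (k1 e₁ O' hB)).ne h8
    obtain ⟨b, hb⟩ := h7
    have h8 : fc (a : ℂ) = b * p := by
      have := mfc (Int.castRingHom ℂ) a
      rw [hb] at this
      simpa [mul_comm] using this.symm
    rw [h8, map_mul]
    exact mul_lt_one_of_nonneg_of_lt_one_right (le1.1 (intCast_mem O b)) zero_le (nu.1 hO)
  have k4 : ∀ e e' : L →+* ℂ, Below e O 𝔭 → Below e' O 𝔭 → e' θ = e θ := fun e e' h h' =>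
    near (fce hc e) (fce hc e') (thO hPr hc h) (vfd hV hPr hc hp h2 h11 hm h)
      (by simpa using Valuation.map_sub_lt _ (k1 e O h) (k1 e' O h'))
  rcases g2 with g2 | g2
  · exact ⟨e₂, e₁, g2, (g1.resolve_left fun g => hxy (h1 ▸ h2' ▸ k4 _ _ g2 g)).1,
      h1 ▸ h2' ▸ hxy.symm⟩
  rcases g1 with g1 | g1
  · exact ⟨e₁, e₂, g1, g2.1, h1 ▸ h2' ▸ hxy⟩
  rcases g3 with g3 | g3
  · exact ⟨e₃, e₂, g3, g2.1, h3 ▸ h2' ▸ hyz.symm⟩
  rw [hf, map_mul, map_mul, g1.2, g2.2, g3.2] at k3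
  simp at k3

/-- An automorphism that fixes two roots fixes the points of order two. -/
theorem fix2 (hR : RStmt) {φ : G} {x y : ℂ} (hx : fc x = 0) (hy : fc y = 0) (hne : y ≠ x)
    (h1 : φ x = x) (h2 : φ y = y) (T : Pt) (hT : 2 • T = 0) : φ • T = T := by
  rcases (hR.1.2.2.2.1 T).1 hT with rfl | ⟨h3, h4⟩
  · exact (smul_eq_zero' φ 0).2 rfl
  refine act_ext (smul_eq_zero' φ T) ?_ (by rw [yc_smul, h3, map_zero])
  have hq : x ^ 2 + x * y + y ^ 2 - 4 * (x + y) - 160 = 0 := by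
    apply mul_left_cancel₀ (sub_ne_zero.2 hne)
    unfold fc at hx hy
    linear_combination hy - hx
  have h5 : (xc T - x) * (xc T - y) * (xc T - (4 - x - y)) = 0 := by
    unfold fc at hx h4
    linear_combination h4 - hx - (xc T - x) * hq
  simp only [mul_eq_zero, sub_eq_zero] at h5
  rw [xc_smul]
  rcases h5 with (h | h) | h <;> simp [h, h1, h2, map_ofNat]

theorem partC2 (hV : VStmt) (hR : RStmt) (hPr : PrStmt) (hc : Cub θ) {α : L} {ξ : G → Pt}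
    (hα : α ≠ 0) (hN : IsSquare (Algebra.norm ℚ α)) (hξ : Coc ξ) (hK : Kum θ α ξ) {p : ℕ}
    {σ φ : G} {u : ℂ} (hp : p.Prime) (h2 : p ≠ 2) (h11 : p ≠ 11) (hr : nr p = 1) (hO : Ov O p)
    (hσ : Frob O 1 σ) (hφ : Frob O p φ) (hu : u ^ 2 = GF.pst p) (hσu : σ u = -u) :
    (sv p α = 0 ↔ ξ σ = 0) ∧ (fv p α = 0 ↔ ξ (φ * φ) = 0) := by
  classical
  obtain ⟨-, -, P3, P4, -⟩ := hPr L θ hc
  obtain ⟨Q1, -, -, Q4, -⟩ := P3 p hp h2 h11
  obtain ⟨𝔭, 𝔮, hne, hab, n1, n2⟩ := Q4 hr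
  obtain ⟨e, e', hB, hB', hee⟩ := roots hV hR hPr hc hp h2 h11 hO hne hab n1
  have hm := (hab 𝔭).2 (Or.inl rfl)
  have hm' := (hab 𝔮).2 (Or.inr rfl)
  have hA : ab L p = {𝔭, 𝔮} := Finset.ext fun 𝔯 => by simp [hab]
  have hev : Even (og 𝔭 α) := by
    have h := (P4 p α hp hα).2 hN
    rw [hA, Finset.sum_pair hne, n1, n2, Nat.log_pow hp.one_lt,
      show Nat.log p p = 1 by simpa using Nat.log_pow hp.one_lt 1, Int.even_add] at h
    simpa using h.2 (even_two_mul _)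
  obtain ⟨s, hs⟩ := rt2 (e α)
  constructor
  · obtain ⟨s', hs'⟩ := rt2 (e' α)
    have hsf : Squarefree (GF.pst p) := by
      rw [← Int.squarefree_natAbs]
      simpa [GF.pst, Int.natAbs_mul, Int.natAbs_pow] using hp.squarefree
    have hd : (p : ℤ) ∣ GF.pst p := dvd_mul_left _ _
    obtain ⟨a1, a2⟩ := partA1 hV hPr hc hp h2 h11 hm hB hα hs hσ hu hsf hd hσu
    obtain ⟨a3, a4⟩ := partA1 hV hPr hc hp h2 h11 hm' hB' hα hs' hσ hu hsf hd hσu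
    have a5 := wl0.1 ((hK e s σ hs a1).1 (a2.2 hev))
    rw [sv, hA, Finset.sum_pair hne, ZMod.intCast_eq_zero_iff_even.2 hev, zero_add,
      ZMod.intCast_eq_zero_iff_even, ← a4, hK e' s' σ hs' a3, wl0]
    exact ⟨fun h => h.elim id fun h => a5.resolve_right fun h' => hee (h'.symm.trans h), Or.inl⟩
  · obtain ⟨a1, a2⟩ := partA2 hV hPr hc hp h2 h11 hm hB hα hs (n1.symm ▸ hφ) hev
    obtain ⟨hl1, ho2, -⟩ := Q1 𝔭 hm
    have hF : (ab L p).filter (fun 𝔯 => nm 𝔯 = p) = {𝔭} := Finset.ext fun 𝔯 => by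
      rw [Finset.mem_filter, hab, Finset.mem_singleton]
      refine ⟨fun h => h.1.resolve_right ?_, fun h => ⟨Or.inl h, h ▸ n1⟩⟩
      rintro rfl
      have := hp.one_lt
      nlinarith [h.2, n2]
    have hα' := (map_ne_zero (emb 𝔭)).2 hα
    have a3 : fv p α = 0 ↔ LSq 𝔭 α := by
      rw [fv, hF, Finset.sum_singleton, hq, (isLoc_wv 𝔭).hs_of_unr hα' ((isLoc_wv 𝔭).unr_of_odd
        (by rw [← map_ofNat (emb 𝔭) 2, ord_emb, ho2]) hα' (by rwa [ord_emb]))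
        ((map_ne_zero _).2 (by exact_mod_cast hp.ne_zero)), ord_emb, hl1, LSq]
      split_ifs with h <;> simp [h]
    have hT := hξ.two φ
    have a4 : ξ (φ * φ) = 0 ↔ φ • ξ φ = ξ φ := by
      rw [hξ.mul, add_eq_zero_iff_neg_eq, neg_eq_of_add_eq_zero_left ((two_nsmul _).symm.trans hT),
        eq_comm]
    rw [a3, ← a2, hK e s φ hs a1, wl0, a4]
    obtain ⟨-, T, t1, t2⟩ := ((hR.2 p O hp h2 h11 hO).2.2.2.2.2.2.2 φ hφ).2.1.1 hr
    rcases (hR.1.2.2.2.1 _).1 hT with h | ⟨h3, h4⟩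
    · exact iff_of_true (Or.inl h) (by rw [h, smul_eq_zero'])
    refine ⟨fun h => h.elim (fun h => by rw [h, smul_eq_zero']) fun h => act_ext (smul_eq_zero' _ _)
      (by rw [xc_smul, h, a1]) (by rw [yc_smul, h3, map_zero]), fun h => Or.inr ?_⟩
    by_contra h5
    exact t2 (fix2 hR (fce hc e) h4 h5 a1 (by rw [← xc_smul, h]) T t1)

end Link1

open Link1 in
theorem link1_thm (hV : VStmt) (hR : RStmt) (hPr : PrStmt) : Link1Stmt := fun _ _ _ _ hc =>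
  ⟨fun _ _ _ _ _ _ hl h2 h11 hm hB hα hs =>
    ⟨fun _ _ _ hσ hu hsf hd hσu => partA1 hV hPr hc hl h2 h11 hm hB hα hs hσ hu hsf hd hσu,
      fun _ hφ he => partA2 hV hPr hc hl h2 h11 hm hB hα hs hφ he⟩,
    fun _ _ _ _ hl hO hu hsf hd => partB hV hl hO hu hsf hd,
    fun _ _ hα hN hξ hK => ⟨fun _ hv h2 h11 hU _ hm => partC1 hV hR hPr hc hα hξ hK hv h2 h11 hU hm,
      fun _ _ _ _ _ hp h2 h11 hr hO hσ hφ hu hσu =>
        partC2 hV hR hPr hc hα hN hξ hK hp h2 h11 hr hO hσ hφ hu hσu⟩⟩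

end Pool.Agent.Lib.MP_d6ddbd_nt.K11
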