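import Pool.Agent.Lib.MP_d6ddbd_nt.K11.Stmt

/-!
The local conditions at `2` and `11` for a class whose cocycle is unramified there.
-/

set_option autoImplicit false

open NumberField IsDedekindDomain
open Pool.Agent.Lib.MP_02f36d_nt (xc yc)
open Pool.Agent.Stark (Pr og pw ord_mul ord_div ord_pow ord_one ord_neg ord_inv mem_pw_iff)

noncomputable section

namespace Pool.Agent.Lib.MP_d6ddbd_nt.K11

namespace Link2

variable {F : Type} [Field F] [NumberField F]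

/-- The algebraic numbers that are fixed by the inertia group over `e F`. -/
def Fx (e : F →+* ℂ) (O : ValuationSubring ℂ) : Subfield ℂ where
  carrier := {x | IsAlgebraic ℚ x ∧ ∀ σ : G, Frob O 1 σ → (∀ y, σ (e y) = e y) → σ x = x}
  mul_mem' a b := ⟨a.1.mul b.1, fun σ h h' => by rw [map_mul, a.2 σ h h', b.2 σ h h']⟩
  one_mem' := ⟨isAlgebraic_one, fun σ _ _ => map_one σ⟩
  add_mem' a b := ⟨a.1.add b.1, fun σ h h' => by rw [map_add, a.2 σ h h', b.2 σ h h']⟩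
  zero_mem' := ⟨isAlgebraic_zero, fun σ _ _ => map_zero σ⟩
  neg_mem' a := ⟨a.1.neg, fun σ h h' => by rw [map_neg, a.2 σ h h']⟩
  inv_mem' _ a := ⟨a.1.inv, fun σ h h' => by rw [map_inv₀, a.2 σ h h']⟩

variable {e : F →+* ℂ} {O : ValuationSubring ℂ} {𝔭 : Pr F} {v : ℕ}

theorem alg (e : F →+* ℂ) (y : F) : IsAlgebraic ℚ (e y) :=
  (Algebra.IsAlgebraic.isAlgebraic y).algHom e.toRatAlgHom

theorem mem (y : F) : e y ∈ Fx e O := ⟨alg e y, fun _ _ h => h y⟩

theorem v3 (hV : VStmt) (hv : v.Prime) (hO : Ov O v) {x : ℂ} (h : x ∈ Fx e O) (h0 : x ≠ 0) :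
    ∃ y : F, y ≠ 0 ∧ O.valuation x = O.valuation (e y) := by
  obtain ⟨y, a, b, c⟩ := hV.2.2.1 F e v O x hv hO h.1 h0 h.2
  rw [O.mem_nonunits_iff, not_lt] at c
  have := le_antisymm ((O.valuation_le_one_iff _).2 b) c
  rw [map_div₀, div_eq_one_iff_eq (by simpa using a)] at this
  exact ⟨y, a, this⟩

theorem le (h : Below e O 𝔭) {a b : F} (ha : a ≠ 0) (hb : b ≠ 0) :
    O.valuation (e a) ≤ O.valuation (e b) ↔ og 𝔭 b ≤ og 𝔭 a := by
  have := h _ (div_ne_zero ha hb)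
  rw [← O.valuation_le_one_iff, map_div₀, map_div₀, div_le_one₀ (zero_lt_iff.2 (by simpa using hb)),
    og, ord_div ha hb, sub_nonneg] at this
  exact this

theorem lt (h : Below e O 𝔭) {a b : F} (ha : a ≠ 0) (hb : b ≠ 0) :
    O.valuation (e a) < O.valuation (e b) ↔ og 𝔭 b < og 𝔭 a := by
  rw [← not_le, le h hb ha, not_le]

theorem eq (h : Below e O 𝔭) {a b : F} (ha : a ≠ 0) (hb : b ≠ 0) :
    O.valuation (e a) = O.valuation (e b) ↔ og 𝔭 a = og 𝔭 b := by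
  rw [le_antisymm_iff, le h ha hb, le h hb ha, le_antisymm_iff, and_comm]

theorem lt1 (h : Below e O 𝔭) {a : F} (ha : 0 < og 𝔭 a) : O.valuation (e a) < 1 := by
  have a0 : a ≠ 0 := by
    rintro rfl
    simp [og] at ha
  simpa using (lt h a0 one_ne_zero).2 (by simpa [og] using ha)

theorem par (hV : VStmt) (hv : v.Prime) (hO : Ov O v) (h : Below e O 𝔭) {α b : F} {g γ : ℂ}
    (hα : α ≠ 0) (hb : b ≠ 0) (hg : g ∈ Fx e O) (e1 : e α = g ^ 2 * γ)
    (e2 : O.valuation γ = O.valuation (e b)) : Even (og 𝔭 α - og 𝔭 b) := by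
  have g0 : g ≠ 0 := by
    rintro rfl
    simp [hα] at e1
  obtain ⟨y, y0, hy⟩ := v3 hV hv hO hg g0
  have : og 𝔭 α = og 𝔭 (y ^ 2 * b) := (eq h hα (by simp [y0, hb])).1 (by
    rw [e1, map_mul, map_mul, map_mul, map_pow, map_pow, map_pow, hy, e2])
  rw [this, og, ord_mul (pow_ne_zero 2 y0) hb, ord_pow]
  exact ⟨og 𝔭 y, by simp only [og]; push_cast; ring⟩

theorem res (h : nm 𝔭 = 2) {a : F} (ha : 𝔭.valuation F a = 1) : 𝔭.valuation F (a - 1) < 1 := by
  obtain ⟨b, hb⟩ := 𝔭.exists_valuation_sub_lt_of_integer ha.le 1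
  rw [Units.val_one] at hb
  rw [nm, Ideal.absNorm_apply, Submodule.cardQuot_apply, Nat.card_eq_two_iff' 0] at h
  have := 𝔭.isPrime
  have n : Ideal.Quotient.mk 𝔭.asIdeal b ≠ 0 := fun z => by
    have z' := (𝔭.valuation_lt_one_iff_mem (K := F) b).2 (Ideal.Quotient.eq_zero_iff_mem.1 z)
    have := Valuation.map_sub_lt _ z' hb
    rw [sub_sub_cancel, ha] at this
    exact this.false
  have z := (𝔭.valuation_lt_one_iff_mem (K := F) (b - 1)).2
    (Ideal.Quotient.eq.1 (h.unique n one_ne_zero))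
  have := Valuation.map_sub_lt _ z hb
  change 𝔭.valuation F (algebraMap _ F (b - 1) - _) < 1 at this
  rwa [map_sub (algebraMap _ F), map_one, sub_sub_sub_cancel_left] at this

variable {L : Type} [Field L] [NumberField L] {θ α : L} {ξ : G → Pt} {S : Pt}

theorem root (hθ : Cub θ) (e : L →+* ℂ) : fc (e θ) = 0 := by
  simpa [fc, map_ofNat] using congrArg e hθ.eq

theorem rat (hPr : PrStmt) (hθ : Cub θ) {𝔭 : Pr L} (hv : v.Prime) (h : 𝔭 ∈ ab L v) {c : ℚ}
    (hc : c ≠ 0) : og 𝔭 (v : L) ∣ og 𝔭 (c : L) := by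
  obtain ⟨-, l, hl, -, H⟩ := (hPr L θ hθ).2.2.2.2.1 𝔭
  obtain rfl : l = v := (Nat.prime_dvd_prime_iff_eq hl hv).1 ((H v hv.ne_zero).1 h)
  have a : ∀ n : ℕ, n ≠ 0 → og 𝔭 (l : L) ∣ og 𝔭 (n : L) := fun n hn => by
    obtain ⟨k, m, hm, rfl⟩ := Nat.exists_eq_pow_mul_and_not_dvd hn l hl.ne_one
    have m0 := right_ne_zero_of_mul hn
    have : og 𝔭 (m : L) = 0 := not_not.1 fun z => hm ((H m m0).1 (mem_ab.2 z))
    rw [Nat.cast_mul, Nat.cast_pow, og, og, ord_mul (by simp [hl.ne_zero]) (by simpa using m0),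
      ord_pow, ← og, ← og, this, add_zero]
    exact dvd_mul_left _ _
  have n0 := Rat.num_ne_zero.2 hc
  have b : og 𝔭 (c.num : L) = og 𝔭 (c.num.natAbs : L) := by
    rcases c.num.natAbs_eq with z | z
    · conv_lhs => rw [z, Int.cast_natCast]
    · conv_lhs => rw [z, Int.cast_neg, Int.cast_natCast, og, ord_neg]
      rfl
  rw [Rat.cast_def, og, og, ord_div (by simpa using hc) (by simp), ← og, ← og, ← og, b]
  exact (a _ (Int.natAbs_ne_zero.2 n0)).sub (a _ c.den_nz)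

theorem core (hR : RStmt) (hθ : Cub θ) (hK : Kum θ α ξ) (e : L →+* ℂ) (hS : AlgP S)
    (h : ∀ σ : G, Frob O 1 σ → σ • (2 • S) = 2 • S ∧ ξ σ = σ • S - S) :
    (∀ (F : Type) [Field F] [NumberField F] (e' : F →+* ℂ),
      xc (2 • S) ∈ Fx e' O ∧ yc (2 • S) ∈ Fx e' O) ∧
    ∃ g ∈ Fx e O, e α = g ^ 2 * gam (e θ) (2 • S) := by
  have a : AlgP (2 • S) := two_nsmul S ▸ hR.1.1.2.1 S S hS hS
  have b : ∀ (F : Type) [Field F] [NumberField F] (e' : F →+* ℂ),
      xc (2 • S) ∈ Fx e' O ∧ yc (2 • S) ∈ Fx e' O := fun F _ _ e' =>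
    ⟨⟨a.1, fun σ i _ => by rw [← xc_smul, (h σ i).1]⟩,
      a.2, fun σ i _ => by rw [← yc_smul, (h σ i).1]⟩
  refine ⟨b, ?_⟩
  obtain ⟨s, hs⟩ := IsAlgClosed.exists_pow_nat_eq (e α) two_pos
  obtain ⟨r, r0, hr, H⟩ := hR.1.2.2.2.2.2.2.2 (e θ) S (root hθ e)
  have c : gam (e θ) (2 • S) ∈ Fx e O := by
    unfold gam
    split_ifs
    · exact one_mem _
    · exact (show e (fd θ) = fd (e θ) by simp [fd, map_ofNat]) ▸ mem _
    · exact sub_mem (b L e).1 (mem θ)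
  refine ⟨s / r, ⟨(IsAlgebraic.of_pow two_pos (hs ▸ alg e α)).mul
    (IsAlgebraic.of_pow two_pos (hr ▸ c.1)).inv, fun σ i j => ?_⟩, by
      rw [div_pow, hs, hr, div_mul_cancel₀ _ (hr ▸ pow_ne_zero 2 r0)]⟩
  obtain ⟨k1, k2, k3⟩ := H σ 1 (j θ) (Or.inl rfl) (by rw [one_smul, (h σ i).1])
  rw [one_smul, ← (h σ i).2, ← hK e s σ hs (j θ)] at k2 k3
  rw [Int.cast_one, one_mul] at k3
  have k : σ r = r ↔ σ s = s := (em _).elim k2 k3
  have k4 : σ s = s ∨ σ s = -s := sq_eq_sq_iff_eq_or_eq_neg.1 (by rw [← map_pow, hs, j])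
  rw [map_div₀]
  by_cases z : σ s = s
  · rw [z, k.2 z]
  · rw [k4.resolve_left z, k1.resolve_left (mt k.1 z), neg_div_neg_eq]

theorem nat (O : ValuationSubring ℂ) (n : ℕ) : O.valuation (n : ℂ) ≤ 1 :=
  (O.valuation_le_one_iff _).2 (natCast_mem O n)

theorem near (hR : RStmt) {c : ℂ} (h : O.valuation (fc c) < 1) :
    ∃ r, fc r = 0 ∧ O.valuation (r - c) < 1 := by
  obtain ⟨a, b, d, H, -⟩ := hR.1.2.2.2.2.1
  by_contra! z
  have h1 := z a (by simp [H])
  have h2 := z b (by simp [H])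
  have h3 := z d (by simp [H])
  rw [Valuation.map_sub_swap] at h1 h2 h3
  rw [H, map_mul, map_mul] at h
  exact h.not_ge (one_le_mul (one_le_mul h1 h2) h3)

theorem eleven (hV : VStmt) (hR : RStmt) (hPr : PrStmt) (hθ : Cub θ) (hα : α ≠ 0)
    (hN : IsSquare (Algebra.norm ℚ α)) (hK : Kum θ α ξ) (hU : ∀ O, Ov O 11 → Unr O ξ) :
    ∀ 𝔭 ∈ ab L 11, Even (og 𝔭 α) := by
  have hp : Nat.Prime 11 := by norm_num
  obtain ⟨-, ⟨𝔭, 𝔮, ne, hab, n1, n2, -, o2, t1, t2⟩, -, hn, -, -, -, hemb, -⟩ := hPr L θ hθ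
  suffices H : Even (og 𝔭 α) ∨ Even (og 𝔮 α) by
    classical
    have := (hn 11 α hp hα).2 hN
    rw [show ab L 11 = {𝔭, 𝔮} from Finset.ext fun r => by simp [hab], Finset.sum_pair ne, n1, n2,
      show Nat.log 11 11 = 1 by norm_num, Nat.cast_one, one_mul, one_mul, Int.even_add] at this
    intro r hr
    rcases (hab r).1 hr with rfl | rfl <;> tauto
  obtain ⟨O, hO⟩ := hV.1.1 11 hp
  obtain ⟨S, hS, h⟩ := hU O hO
  have h11 : O.valuation (11 : ℂ) < 1 := by simpa using O.mem_nonunits_iff.1 hO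
  have emb : ∀ c : ℂ, O.valuation (fc c) < 1 → ∃ (e : L →+* ℂ), O.valuation (e θ - c) < 1 ∧
      ((Below e O 𝔭 ∧ O.valuation (e θ - 8) < 1) ∨ (Below e O 𝔮 ∧ O.valuation (e θ - 9) < 1)) :=
    fun c hc => by
      obtain ⟨r, r1, r2⟩ := near hR hc
      obtain ⟨e, rfl⟩ := hemb r r1
      obtain ⟨𝔯, a, b⟩ := hV.1.2.2.1 L e 11 O hp hO
      refine ⟨e, r2, ((hab 𝔯).1 ((mem_ab' hp.ne_zero).2 a)).imp ?_ ?_⟩ <;> rintro rfl
      · exact ⟨b, by simpa [map_ofNat] using lt1 b t1⟩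
      · exact ⟨b, by simpa [map_ofNat] using lt1 b t2⟩
  have no : ∀ z : ℂ, O.valuation (z - 8) < 1 → O.valuation (z - 9) < 1 → False := fun z a b => by
    have := Valuation.map_sub_lt _ a b
    rw [show z - 8 - (z - 9) = 1 by ring, map_one] at this
    exact this.false
  have m : ∀ n : ℕ, O.valuation (-(11 * n : ℂ)) < 1 := fun n => by
    rw [Valuation.map_neg, map_mul]
    exact mul_lt_one_of_lt_of_le h11 (nat O n)
  obtain ⟨e, a1, ⟨b1, -⟩ | ⟨-, b1⟩⟩ := emb 8 (by convert m 208 using 2; norm_num [fc])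
  swap
  · exact (no _ a1 b1).elim
  obtain ⟨e', a2, ⟨-, b2⟩ | ⟨b2, -⟩⟩ := emb 9 (by convert m 209 using 2; norm_num [fc])
  · exact (no _ b2 a2).elim
  obtain ⟨hx, g, hg, e1⟩ := core hR hθ hK e hS h
  obtain ⟨-, g', hg', e2⟩ := core hR hθ hK e' hS h
  have one : ∀ 𝔯 : Pr L, Even (og 𝔯 α - og 𝔯 1) → Even (og 𝔯 α) := fun 𝔯 => by simp [og]
  unfold gam at e1 e2
  by_cases z : 2 • S = 0
  · rw [if_pos z] at e1
    exact Or.inl (one _ (par hV hp hO b1 hα one_ne_zero hg e1 (by simp)))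
  rw [if_neg z] at e1 e2
  set x := xc (2 • S)
  rcases lt_or_ge (O.valuation (x - 9)) 1 with c | c
  · have u : O.valuation (x - e θ) = 1 := by
      rw [show x - e θ = 1 + (x - 9 - (e θ - 8)) by ring]
      exact Valuation.map_one_add_of_lt _ (Valuation.map_sub_lt _ c a1)
    rw [if_neg fun q => by simp [q] at u] at e1
    exact Or.inl (one _ (par hV hp hO b1 hα one_ne_zero hg e1 (by simpa using u)))
  · have u : O.valuation (x - e' θ) = O.valuation (x - 9) := by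
      rw [show x - e' θ = x - 9 - (e' θ - 9) by ring]
      exact Valuation.map_sub_eq_of_lt_left _ (a2.trans_le c)
    rw [if_neg fun q => (a2.trans_le c).ne (by rw [q])] at e2
    obtain ⟨y, y0, hy⟩ := v3 hV hp hO (sub_mem (hx ℚ (Rat.castHom ℂ)).1 (ofNat_mem _ 9))
      fun q => by simp [q] at c
    have k := par hV hp hO b2 hα (b := y) (by simpa using y0) hg' e2 (by simpa [u] using hy)
    have d := rat hPr hθ hp ((hab 𝔮).2 (Or.inr rfl)) y0
    rw [Nat.cast_ofNat, o2, ← even_iff_two_dvd] at d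
    exact Or.inr ((Int.even_sub.1 k).2 d)

section

variable {Γ : Type} [LinearOrderedCommGroupWithZero Γ] (w : Valuation ℂ Γ) {τ : Γ} {z z' : ℂ}

theorem q_mul (hτ : τ < 1) (a : w (z - 1) ≤ τ) (b : w (z' - 1) ≤ τ) : w (z * z' - 1) ≤ τ := by
  rw [show z * z' - 1 = (z - 1) * (z' - 1) + ((z - 1) + (z' - 1)) by ring]
  refine w.map_add_le ?_ (w.map_add_le a b)
  rw [map_mul]
  exact (mul_le_of_le_one_left' (a.trans hτ.le)).trans b

theorem q_one (a : w (z - 1) < 1) : w z = 1 := by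
  simpa using w.map_one_add_of_lt a

theorem q_inv (hτ : τ < 1) (a : w (z - 1) ≤ τ) : w (z⁻¹ - 1) ≤ τ := by
  have u := q_one w (a.trans_lt hτ)
  have z0 : z ≠ 0 := fun q => by simp [q] at u
  rw [show z⁻¹ - 1 = -(z - 1) / z by field_simp; ring, map_div₀, w.map_neg, u, div_one]
  exact a

end

theorem fin (hV : VStmt) (hO : Ov O 2) (h : Below e O 𝔭) (hn : nm 𝔭 = 2) {π a : F} (ha : a ≠ 0)
    (hπ : og 𝔭 π = 1) (h2 : 0 < og 𝔭 2) {g z : ℂ} (hg : g ∈ Fx e O) (e1 : e a = g ^ 2 * z)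
    (hz : O.valuation (z - 1) ≤ O.valuation (e π) ^ 2) :
    ∃ β : F, a * β ^ 2 - 1 ∈ pw (𝔭.valuation F) 2 := by
  have π0 : π ≠ 0 := by
    rintro rfl
    simp [og] at hπ
  have t1 : O.valuation (e π) < 1 := lt1 h (by omega)
  have t2 := pow_lt_one' t1 two_ne_zero
  have g0 : g ≠ 0 := by
    rintro rfl
    simp [ha] at e1
  obtain ⟨y, y0, hy⟩ := v3 hV Nat.prime_two hO hg g0
  have ey : e y ≠ 0 := by simpa using y0
  refine ⟨y⁻¹, mem_pw_iff.2 (or_iff_not_imp_left.2 fun n => ?_)⟩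
  have hu : g / e y ∈ Fx e O := div_mem hg (mem y)
  have e2 : e (a * y⁻¹ ^ 2) = (g / e y) ^ 2 * z := by
    rw [map_mul, map_pow, map_inv₀, e1]
    ring
  have u1 : O.valuation (g / e y) = 1 := by
    rw [map_div₀, hy, div_self (by simpa using y0)]
  generalize g / e y = u at hu e2 u1
  have b0 : a * y⁻¹ ^ 2 ≠ 0 := by simp [ha, y0]
  generalize a * y⁻¹ ^ 2 = b at n e2 b0
  have z1 := q_one _ (hz.trans_lt t2)
  have o : og 𝔭 b = 0 := by
    simpa [og] using (eq h b0 one_ne_zero).1 (by rw [e2, map_mul, map_pow, u1, z1]; simp)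
  have o1 : O.valuation (e b - 1) < 1 := by
    have := res hn (a := b) (by rw [Pool.Agent.Stark.val_eq_exp b0, ← og, o]; simp)
    rw [← map_one (𝔭.valuation F), Pool.Agent.Stark.val_lt_val n one_ne_zero, ord_one] at this
    simpa using lt1 h this
  have w2 : O.valuation (2 : ℂ) ≤ O.valuation (e π) := by
    simpa [map_ofNat] using (le h two_ne_zero π0).2 (by omega)
  have u2 : O.valuation (u - 1) < 1 := by
    by_contra! q
    have k : O.valuation ((u - 1) * (u - 1 + 2)) < 1 := by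
      have := q_mul _ (max_lt o1 t2) (le_max_left _ _) ((q_inv _ t2 hz).trans (le_max_right _ _))
      replace this := this.trans_lt (max_lt o1 t2)
      rw [e2, mul_inv_cancel_right₀ fun q => by simp [q] at z1] at this
      rwa [show (u - 1) * (u - 1 + 2) = u ^ 2 - 1 by ring]
    rw [map_mul, Valuation.map_add_eq_of_lt_left _ ((w2.trans_lt t1).trans_le q)] at k
    exact k.not_ge (one_le_mul q q)
  have u3 : O.valuation (u - 1) ≤ O.valuation (e π) := by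
    by_cases q : u - 1 = 0
    · simp [q]
    obtain ⟨c, c0, hc⟩ := v3 hV Nat.prime_two hO (sub_mem hu (one_mem _)) q
    rw [hc] at u2 ⊢
    have := (lt h c0 one_ne_zero).1 (by simpa using u2)
    rw [og, ord_one] at this
    exact (le h c0 π0).2 (by omega)
  have u4 : O.valuation (u ^ 2 - 1) ≤ O.valuation (e π) ^ 2 := by
    rw [show u ^ 2 - 1 = (u - 1) * (u - 1 + 2) by ring, map_mul, sq]
    exact mul_le_mul' u3 (Valuation.map_add_le _ u3 w2)
  have := (le h n (pow_ne_zero 2 π0)).1 (by simpa [e2] using q_mul _ t2 u4 hz)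
  rwa [og, ord_pow, ← og, hπ] at this

theorem two (hV : VStmt) (hR : RStmt) (hPr : PrStmt) (hθ : Cub θ) (hα : α ≠ 0)
    (hN : IsSquare (Algebra.norm ℚ α)) (hK : Kum θ α ξ) (hU : ∀ O, Ov O 2 → Unr O ξ) : At2 α := by
  have hp := Nat.prime_two
  obtain ⟨⟨ϑ, c1, c2, 𝔭, hab, n1, o2, o1⟩, -, -, hn, -, -, -, hemb, -⟩ := hPr L θ hθ
  intro 𝔯 hr
  obtain rfl : 𝔯 = 𝔭 := by simpa [hab] using hr
  have ev := (hn 2 α hp hα).2 hN
  rw [hab, Finset.sum_singleton, n1, show Nat.log 2 2 = 1 by norm_num, Nat.cast_one, one_mul] at ev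
  obtain ⟨r, r', r'', H, -⟩ := hR.1.2.2.2.2.1
  obtain ⟨e, -⟩ := hemb r (by simp [H])
  obtain ⟨O, b⟩ := hV.1.2.1 L e 𝔯
  have hO : Ov O 2 := O.mem_nonunits_iff.2 (by simpa [map_ofNat] using lt1 b (a := 2) (by omega))
  obtain ⟨S, hS, h⟩ := hU O hO
  obtain ⟨hx, g, hg, e1⟩ := core hR hθ hK e hS h
  have fi := fun (g z : ℂ) => fin (g := g) (z := z) hV hO b n1 hα o1 (by omega)
  have ϑ0 : ϑ ≠ 0 := by
    rintro rfl
    simp at c1
  have t1 : O.valuation (e ϑ) < 1 := lt1 b (by omega)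
  have w2 : O.valuation (2 : ℂ) = O.valuation (e ϑ) ^ 3 := by
    simpa [map_ofNat] using (eq b two_ne_zero (pow_ne_zero 3 ϑ0)).2
      (by rw [o2, og, ord_pow, ← og, o1]; rfl)
  have d1 : e ϑ ^ 3 - 2 * e ϑ ^ 2 + 2 = 0 := by simpa [map_ofNat] using congrArg e c1
  have d2 : e θ = 8 * e ϑ ^ 2 - 14 * e ϑ := by simp [c2, map_ofNat]
  have d3 := root hθ e
  have mπ : e ϑ ∈ Fx e O := mem ϑ
  have π0 : e ϑ ≠ 0 := by simpa using ϑ0
  have rv : ∀ c : ℚ, c ≠ 0 → ∃ k : ℤ, O.valuation (c : ℂ) = O.valuation (e ϑ) ^ (3 * k) ∧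
      og 𝔯 (c : L) = 3 * k := fun c c0 => by
    obtain ⟨k, hk⟩ := rat hPr hθ hp hr c0
    rw [Nat.cast_ofNat, o2] at hk
    refine ⟨k, ?_, hk⟩
    simpa using (eq b (a := c) (by simpa using c0) (zpow_ne_zero (3 * k) ϑ0)).2
      (by rw [hk, og, Pool.Agent.Stark.ord_zpow, ← og, o1, mul_one])
  set π := e ϑ
  set t := O.valuation π with ht
  have t0 : 0 < t := zero_lt_iff.2 (by simpa [ht] using π0)
  have t2 := pow_lt_one' t1 two_ne_zero
  have an : ∀ {i j : ℕ}, i ≤ j → t ^ j ≤ t ^ i := fun q => pow_le_pow_right_of_le_one' t1.le q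
  have an' : ∀ {i j : ℕ}, i < j → t ^ j < t ^ i := fun q => pow_lt_pow_right_of_lt_one₀ t0 t1 q
  have ev2 : ∀ n : ℕ, O.valuation (2 * n : ℂ) ≤ t ^ 2 := fun n => by
    rw [map_mul, w2]
    exact (mul_le_of_le_one_right' (nat O n)).trans (an (by norm_num))
  have q1 : O.valuation (1 - π ^ 2 - 1) ≤ t ^ 2 := by simp [ht]
  have p1 : 1 - π ^ 2 ≠ 0 := fun q => by simpa [q] using q_one _ (q1.trans_lt t2)
  obtain ⟨z₀, q0, d4⟩ : ∃ z₀, O.valuation (z₀ - 1) ≤ t ^ 2 ∧ e θ = -(π ^ 4 * z₀) := by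
    refine ⟨(4 * π - 7) * (1 - π ^ 2)⁻¹, q_mul _ t2 ?_ (q_inv _ t2 q1), ?_⟩
    · rw [show 4 * π - 7 - 1 = 2 * (2 : ℕ) * (π - (2 : ℕ)) by push_cast; ring, map_mul]
      exact (mul_le_of_le_one_right' (Valuation.map_sub_le _ t1.le (nat O 2))).trans (ev2 2)
    · rw [d2]
      field_simp
      linear_combination (4 * π - 7) * d1
  have w0 : O.valuation (e θ) = t ^ 4 := by
    rw [d4, Valuation.map_neg, map_mul, map_pow, q_one _ (q0.trans_lt t2), mul_one]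
  unfold gam at e1
  by_cases z : 2 • S = 0
  · rw [if_pos z] at e1
    exact fi g 1 hg e1 (by simp)
  rw [if_neg z] at e1
  have hy := hR.1.2.1 _ z
  set x := xc (2 • S)
  set y := yc (2 • S)
  have cs : O.valuation x ≤ t ^ 6 ∨ 1 ≤ O.valuation x ∨
      ∃ c : ℚ, c ≠ 0 ∧ O.valuation x = O.valuation (c : ℂ) ∧ O.valuation x = t ^ 3 ∧
        og 𝔯 (c : L) = 3 := by
    by_cases x0 : x = 0
    · simp [x0]
    obtain ⟨c, c0, hc⟩ := v3 hV hp hO (hx ℚ (Rat.castHom ℂ)).1 x0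
    obtain ⟨k, k1, k2⟩ := rv c c0
    replace hc : O.valuation x = O.valuation (c : ℂ) := hc
    rcases lt_trichotomy k 1 with q | rfl | q
    · exact Or.inr (Or.inl (by rw [hc, k1]; exact one_le_zpow_of_nonpos₀ t0 t1.le (by omega)))
    · exact Or.inr (Or.inr ⟨c, c0, hc, by rw [hc, k1, ← zpow_natCast]; rfl, k2⟩)
    · exact Or.inl (by
        rw [hc, k1, ← zpow_natCast]
        exact zpow_le_zpow_right_of_le_one₀ t0 t1.le (by omega))
  have ne : x ≠ e θ := fun q => by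
    rw [q, w0] at cs
    rcases cs with c | c | ⟨-, -, -, c, -⟩
    · exact (an' (by norm_num)).not_ge c
    · exact (pow_lt_one' t1 (by norm_num)).not_ge c
    · exact (an' (by norm_num)).ne c
  rw [if_neg ne] at e1
  rcases cs with c | c | ⟨c, c0, k1, k2, k3⟩
  · have θ0 : e θ ≠ 0 := fun q => (pow_pos t0 4).ne' (by rw [← w0, q, map_zero])
    refine fi (g * π ^ 2) (z₀ * (1 - x / e θ)) (mul_mem hg (pow_mem mπ 2)) ?_ (q_mul _ t2 q0 ?_)
    · rw [e1, show x - e θ = -e θ * (1 - x / e θ) by field_simp; ring]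
      nth_rewrite 1 [d4]
      ring
    · rw [sub_sub_cancel_left, Valuation.map_neg, map_div₀, w0, div_le_iff₀ (pow_pos t0 4),
        ← pow_add]
      exact c
  · have x0 : x ≠ 0 := fun q => by simp [q] at c
    have dv : ∀ a : ℂ, O.valuation a ≤ t ^ 2 → O.valuation (a / x) ≤ t ^ 2 := fun a q => by
      rw [map_div₀, div_le_iff₀ (zero_lt_one.trans_le c)]
      exact q.trans (le_mul_of_one_le_right' c)
    have θ2 : O.valuation (e θ) ≤ t ^ 2 := w0.trans_le (an (by norm_num))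
    have θ4 : O.valuation (e θ - 2 * (2 : ℕ)) ≤ t ^ 2 := Valuation.map_sub_le _ θ2 (ev2 2)
    have q3 : O.valuation (1 + (e θ - 2 * (2 : ℕ) + (e θ * (e θ - 2 * (2 : ℕ)) - 2 * (80 : ℕ)) / x)
        / x - 1) ≤ t ^ 2 := by
      rw [add_sub_cancel_left]
      refine dv _ (Valuation.map_add_le _ θ4 (dv _ (Valuation.map_sub_le _ ?_ (ev2 80))))
      rw [map_mul]
      exact (mul_le_of_le_one_left' (θ2.trans t2.le)).trans θ4
    have q4 := q_one _ (q3.trans_lt t2)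
    refine fi (g * (y / x)) _ (mul_mem hg (div_mem (hx L e).2 (hx L e).1)) ?_ (q_inv _ t2 q3)
    rw [eq_mul_inv_iff_mul_eq₀ ((map_ne_zero O.valuation).1 (q4.trans_ne one_ne_zero)), e1,
      mul_pow, div_pow, hy]
    simp only [fc] at d3 ⊢
    push_cast
    field_simp
    linear_combination (-g ^ 2) * d3
  · have := par hV hp hO b hα (b := c) (by simpa using c0) hg e1 (by
      rw [Valuation.map_sub_eq_of_lt_left _ (by rw [w0, k2]; exact an' (by norm_num)), k1]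
      simp)
    rw [k3, Int.even_sub, iff_true_intro ev, true_iff] at this
    exact absurd this (by decide)

end Link2

theorem link2_thm (hV : VStmt) (hR : RStmt) (hPr : PrStmt) : Link2Stmt :=
  fun _ _ _ _ hθ _ _ hα hN _ hK =>
    ⟨Link2.two hV hR hPr hθ hα hN hK, Link2.eleven hV hR hPr hθ hα hN hK⟩

end Pool.Agent.Lib.MP_d6ddbd_nt.K11
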