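import Pool.Agent.Lib.MP_d6ddbd_nt.K11.Stmt
import Pool.Agent.Lib.MP_ca56d1_nt.Loc

/-!
The coordinates at a prime that divides `d`.
-/

set_option autoImplicit false

open NumberField Finset Pool.Agent.Stark
open Pool.Agent.Stark.LocAux (pw_mul mem_of_le add_high hens)
open Pool.Agent.Stark.ComplAux (emb_mem_pw pw_mono mem_pw_zero pw_div)
open scoped Classical

noncomputable section

namespace Pool.Agent.Lib.MP_d6ddbd_nt.K11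

namespace LocD

variable {L : Type} [Field L] [NumberField L] {𝔭 𝔭' 𝔮 : Pr L} {a b c : L}

/-- The parity of the valuation. -/
def vv (𝔮 : Pr L) (a : L) : ZMod 2 := og 𝔮 a

theorem en (h : a ≠ 0) : emb 𝔮 a ≠ 0 := (map_ne_zero _).2 h

theorem hq_mul (ha : a ≠ 0) (hb : b ≠ 0) (hc : c ≠ 0) :
    hq 𝔮 (a * b) c = hq 𝔮 a c + hq 𝔮 b c := by
  rw [hq, map_mul]
  exact (isLoc_wv 𝔮).hs_mul_left (en ha) (en hb) (en hc)

theorem hq_comm (ha : a ≠ 0) (hb : b ≠ 0) : hq 𝔮 a b = hq 𝔮 b a :=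
  hs_comm (isLoc_wv 𝔮).two (en ha) (en hb)

theorem hq_neg (ha : a ≠ 0) : hq 𝔮 (-a) a = 0 := by
  rw [hq_comm (neg_ne_zero.2 ha) ha, hq, map_neg, hs_neg_self]

theorem hq_sq (ha : a ≠ 0) (b c : L) : hq 𝔮 (b * a ^ 2) c = hq 𝔮 b c := by
  rw [hq, map_mul, map_pow]
  exact hs_mul_sq_left _ _ (en ha)

theorem hq_self (ha : a ≠ 0) : hq 𝔮 a a = hq 𝔮 (-1) a := by
  have := hq_mul (𝔮 := 𝔮) (neg_ne_zero.2 one_ne_zero) (neg_ne_zero.2 ha) ha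
  rwa [neg_mul_neg, one_mul, hq_neg ha, add_zero] at this

theorem og_mul (ha : a ≠ 0) (hb : b ≠ 0) : og 𝔮 (a * b) = og 𝔮 a + og 𝔮 b := ord_mul ha hb

theorem vv_mul (ha : a ≠ 0) (hb : b ≠ 0) : vv 𝔮 (a * b) = vv 𝔮 a + vv 𝔮 b := by
  rw [vv, og_mul ha hb, Int.cast_add]
  rfl

theorem vv_zero : vv 𝔮 a = 0 ↔ Even (og 𝔮 a) := ZMod.intCast_eq_zero_iff_even

theorem vv_sq (ha : a ≠ 0) (hb : b ≠ 0) : vv 𝔮 (b * a ^ 2) = vv 𝔮 b := by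
  rw [vv_mul hb (pow_ne_zero 2 ha), sq, vv_mul ha ha, CharTwo.add_self_eq_zero, add_zero]

variable (h2 : og 𝔮 (2 : L) = 0)
include h2

theorem two : ord (wv 𝔮) 2 = 0 := by rw [← map_ofNat (emb 𝔮) 2, ord_emb, h2]

theorem hq_even (ha : a ≠ 0) (hb : b ≠ 0) (he : vv 𝔮 a = 0) : hq 𝔮 a b = nsq 𝔮 a * vv 𝔮 b := by
  rw [hq, (isLoc_wv 𝔮).hs_of_unr (en ha) ((isLoc_wv 𝔮).unr_of_odd (two h2) (en ha)
    (by rw [ord_emb]; exact vv_zero.1 he)) (en hb), nsq, LSq, ord_emb]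
  split_ifs <;> simp [vv]

theorem hq_nsq (ha : a ≠ 0) (hc : c ≠ 0) (h1 : vv 𝔮 c = 1) (he : vv 𝔮 a = 0) :
    nsq 𝔮 a = hq 𝔮 a c := by rw [hq_even h2 ha hc he, h1, mul_one]

theorem lsq (ha : a ≠ 0) (hc : c ≠ 0) (h1 : vv 𝔮 c = 1) :
    LSq 𝔮 a ↔ vv 𝔮 a = 0 ∧ hq 𝔮 a c = 0 := by
  refine ⟨fun h => ⟨?_, hs_of_isSquare_left (isLoc_wv 𝔮).two (en ha) h _⟩, fun h => ?_⟩
  · obtain ⟨r, hr⟩ := h
    have r0 : r ≠ 0 := left_ne_zero_of_mul (hr ▸ en ha)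
    rw [vv_zero, ← ord_emb, hr, ord_mul r0 r0]
    exact ⟨_, rfl⟩
  · by_contra e
    have := hq_nsq h2 ha hc h1 h.1
    rw [h.2, nsq, if_neg e] at this
    exact one_ne_zero this

theorem tame (ha : a ≠ 0) (hb : b ≠ 0) (hc : c ≠ 0) (h1 : vv 𝔮 c = 1) : hq 𝔮 a b =
    vv 𝔮 a * hq 𝔮 b c + hq 𝔮 a c * vv 𝔮 b + vv 𝔮 a * vv 𝔮 b * hq 𝔮 (-1) c := by
  rcases zmod2_cases (vv 𝔮 a) with e | e
  · rw [hq_even h2 ha hb e, hq_nsq h2 ha hc h1 e, e]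
    ring
  rcases zmod2_cases (vv 𝔮 b) with e' | e'
  · rw [hq_comm ha hb, hq_even h2 hb ha e', hq_nsq h2 hb hc h1 e', e']
    ring
  have k : vv 𝔮 (a * c) = 0 := by rw [vv_mul ha hc, e, h1]; rfl
  have := hq_even h2 (mul_ne_zero ha hc) hb k
  rw [hq_nsq h2 (mul_ne_zero ha hc) hc h1 k, hq_mul ha hc hb, hq_mul ha hc hc, hq_self hc,
    hq_comm hc hb, e'] at this
  rw [e, e']
  grind

theorem near (ha : a ≠ 0) (h : b - a ∈ pw (𝔮.valuation L) (og 𝔮 a + 1)) :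
    b ≠ 0 ∧ og 𝔮 b = og 𝔮 a ∧ ∀ c, hq 𝔮 b c = hq 𝔮 a c := by
  have k := add_high ha h
  rw [add_sub_cancel] at k
  refine ⟨k.1, k.2, fun c => hs_congr_left _ (en k.1) (en ha) ?_⟩
  have : IsSquare (emb 𝔮 (b / a)) := hens (isLoc_wv 𝔮) (by
    rw [two h2, ← map_one (emb 𝔮), ← map_sub, emb_mem_pw, div_sub_one ha]
    exact pw_div ha h)
  rw [← map_mul, show b * a = b / a * (a * a) by field_simp, map_mul, map_mul]
  exact this.mul ⟨_, rfl⟩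

omit h2

theorem og_rat (h : ∀ p : ℕ, p.Prime → og 𝔭 (p : L) = og 𝔮 (p : L)) (r : ℚ) :
    og 𝔭 (r : L) = og 𝔮 (r : L) := by
  have n : ∀ n : ℕ, og 𝔭 (n : L) = og 𝔮 (n : L) := fun n => by
    induction n using Nat.recOnMul with
    | zero => simp [og]
    | one => simp [og]
    | prime p hp => exact h p hp
    | mul a b ha hb =>
      rcases eq_or_ne a 0 with rfl | a0
      · simpa using ha
      rcases eq_or_ne b 0 with rfl | b0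
      · simpa using hb
      rw [Nat.cast_mul, og_mul (Nat.cast_ne_zero.2 a0) (Nat.cast_ne_zero.2 b0),
        og_mul (Nat.cast_ne_zero.2 a0) (Nat.cast_ne_zero.2 b0), ha, hb]
  have z : ∀ n : ℤ, og 𝔭 (n : L) = og 𝔮 (n : L) := fun m => by
    obtain ⟨k, rfl | rfl⟩ := m.eq_nat_or_neg <;> simpa [og] using n k
  rcases eq_or_ne r 0 with rfl | r0
  · simp [og]
  have := z r.num
  have := n r.den
  rw [Rat.cast_def, og, og, ord_div (by simpa using r0) (by simp),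
    ord_div (by simpa using r0) (by simp)]
  simp only [og] at *
  omega

variable {θ α : L} {d : ℤ} {l : ℕ}

variable (θ d l) in
/-- The facts on the primes above `l` that are used. -/
structure Cx : Prop where
  d0 : (d : L) ≠ 0
  ne : ∀ x : ℚ, (x : L) - θ ≠ 0
  nrm : ∀ x : ℚ, IsSquare (Algebra.norm ℚ (fc (x : L) * ((x : L) - θ)))
  eq : fc θ = 0
  two : ∀ {𝔮}, 𝔮 ∈ ab L l → og 𝔮 (2 : L) = 0
  one : ∀ {𝔮}, 𝔮 ∈ ab L l → og 𝔮 (d : L) = 1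
  fd1 : ∀ {𝔮}, 𝔮 ∈ ab L l → og 𝔮 (fd θ) = 0
  int : ∀ 𝔮, 0 ≤ og 𝔮 θ
  rat : ∀ {𝔭 𝔮}, 𝔭 ∈ ab L l → 𝔮 ∈ ab L l → ∀ r : ℚ, og 𝔭 (r : L) = og 𝔮 (r : L)
  xr1 : ∀ {𝔭}, 𝔭 ∈ ab L l → nm 𝔭 = l → 0 < og 𝔭 ((xr θ 𝔭 : L) - θ)
  xr0 : ∀ {𝔭 𝔮}, 𝔭 ∈ ab L l → 𝔮 ∈ ab L l → nm 𝔭 = l → 𝔮 ≠ 𝔭 → og 𝔮 ((xr θ 𝔭 : L) - θ) = 0
  pf : ∀ {α : L}, α ≠ 0 → IsSquare (Algebra.norm ℚ α) → ∀ {c : ℚ}, c ≠ 0 →
    ∑ 𝔭 ∈ ab L l, hq 𝔭 α (c : L) = 0

namespace Cx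

variable (H : Cx θ d l)
include H

theorem v1 (h : 𝔮 ∈ ab L l) : vv 𝔮 (d : L) = 1 := by rw [vv, H.one h]; rfl

theorem fd0 : fd θ ≠ 0 := fun e => H.ne (-12016 / 992) (by
  have := H.eq
  rw [fc] at this
  rw [fd] at e
  push_cast
  linear_combination (9 * this - (3 * θ - 4) * e) / 992)

theorem xne (x : ℤ) : (x : L) - θ ≠ 0 := by simpa using H.ne x

theorem pfd (h : α ≠ 0) (h' : IsSquare (Algebra.norm ℚ α)) : ∑ 𝔭 ∈ ab L l, hq 𝔭 α d = 0 := by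
  simpa using H.pf h h' (c := d) (by simpa using H.d0)

theorem lin (𝔮 : Pr L) (n m : ℤ) : n + m * θ ∈ pw (𝔮.valuation L) 0 :=
  have z : ∀ n : ℤ, (n : L) ∈ pw (𝔮.valuation L) 0 := fun n =>
    mem_of_le (by simpa [og] using og_nonneg 𝔮 (n : 𝓞 L))
  add_mem (z n) (pw_mul (z m) (mem_of_le (H.int 𝔮)) le_rfl)

theorem tr (h : 𝔭 ∈ ab L l) (h' : 𝔮 ∈ ab L l) {r : ℚ} {j : ℤ}
    (e : (r : L) ∈ pw (𝔭.valuation L) j) : (r : L) ∈ pw (𝔮.valuation L) j :=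
  mem_pw_iff.2 ((mem_pw_iff.1 e).imp id fun e => e.trans_eq (H.rat h h' r))

theorem gm0 (𝔭 𝔮 : Pr L) : gm θ d 𝔭 𝔮 ≠ 0 := by
  rw [gm]
  split_ifs
  exacts [H.fd0, mul_ne_zero H.d0 (H.xne _)]

theorem gm1 (h : 𝔭 ∈ ab L l) (h1 : nm 𝔭 = l) (h' : 𝔮 ∈ ab L l) :
    og 𝔮 (gm θ d 𝔭 𝔮) = if 𝔮 = 𝔭 then 0 else 1 := by
  rw [gm]
  split_ifs with e
  · exact H.fd1 h'
  · rw [og_mul H.d0 (H.xne _), H.one h', H.xr0 h h' h1 e, add_zero]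

/-- A rational number close to `θ` at `𝔭` gives the class `gm` at the other primes. -/
theorem away (h : 𝔭 ∈ ab L l) (h1 : nm 𝔭 = l) {X : ℚ} (hX : (X : L) - θ ∈ pw (𝔭.valuation L) 1)
    (h' : 𝔮 ∈ ab L l) (e : 𝔮 ≠ 𝔭) : og 𝔮 (d * ((X : L) - θ)) = 1 ∧
      ∀ c, hq 𝔮 (d * ((X : L) - θ)) c = hq 𝔮 (gm θ d 𝔭 𝔮) c := by
  have g := H.gm1 h h1 h'
  rw [if_neg e] at g
  refine g ▸ (near (H.two h') (H.gm0 𝔭 𝔮) ?_).2
  rw [g, gm, if_neg e, ← mul_sub, sub_sub_sub_cancel_right]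
  refine pw_mul (mem_of_le (H.one h').ge) ?_ le_rfl
  have := H.tr h h' (r := X - xr θ 𝔭) (j := 1) (by
    simpa using sub_mem hX (mem_of_le (H.xr1 h h1)))
  simpa using this

theorem exX (h : 𝔭 ∈ ab L l) (h1 : nm 𝔭 = l) :
    ∃ X : ℚ, (X : L) - θ - d * fd θ ∈ pw (𝔭.valuation L) 2 := by
  have e : (xr θ 𝔭 : L) - θ ∈ pw (𝔭.valuation L) 1 := mem_of_le (H.xr1 h h1)
  generalize xr θ 𝔭 = x at e
  have f : fd (x : L) - fd θ ∈ pw (𝔭.valuation L) 1 := by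
    convert pw_mul (l := 1) e (H.lin 𝔭 (3 * x - 8) 3) le_rfl using 1
    simp only [fd]
    push_cast
    ring
  obtain ⟨f0, f1, -⟩ := near (H.two h) H.fd0 (by rwa [H.fd1 h])
  refine ⟨x - fc (x : ℚ) / fd (x : ℚ) + d * fd (x : ℚ), ?_⟩
  convert add_mem (LocAux.pw_div (y := fd (x : L)) (l := 2) (pw_mul (pw_mul e e le_rfl)
    (H.lin 𝔭 (2 * x - 4) 1) le_rfl) (by rw [← og, f1, H.fd1 h]; rfl))
    (pw_mul (mem_of_le (H.one h).ge) f le_rfl) using 1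
  have := H.eq
  have c1 : ((fc (x : ℚ) : ℚ) : L) = fc (x : L) := by simp [fc]
  have c2 : ((fd (x : ℚ) : ℚ) : L) = fd (x : L) := by simp [fd]
  push_cast
  rw [c1, c2]
  field_simp
  simp only [fc, fd] at this ⊢
  linear_combination -this

/-- The point that realises the class `gm`, and the two relations between the symbols. -/
theorem key (h : 𝔭 ∈ ab L l) (h1 : nm 𝔭 = l) :
    (∃ X : ℚ, ∀ 𝔮 ∈ ab L l, vv 𝔮 (d * ((X : L) - θ)) = vv 𝔮 (gm θ d 𝔭 𝔮) ∧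
      hq 𝔮 (d * ((X : L) - θ)) d = hq 𝔮 (gm θ d 𝔭 𝔮) d) ∧
    (∀ r : ℚ, r ≠ 0 → ∑ 𝔮 ∈ (ab L l).erase 𝔭, hq 𝔮 (r : L) d = 0) ∧
    ∑ 𝔮 ∈ ab L l, hq 𝔮 (gm θ d 𝔭 𝔮) d = 0 := by
  obtain ⟨X, hX⟩ := H.exX h h1
  have o1 : og 𝔭 (d * fd θ) = 1 := by rw [og_mul H.d0 H.fd0, H.one h, H.fd1 h, add_zero]
  obtain ⟨x0, x1, x2⟩ := near (H.two h) (mul_ne_zero H.d0 H.fd0) (by rwa [o1])
  rw [o1] at x1
  have m1 : (X : L) - θ ∈ pw (𝔭.valuation L) 1 := mem_of_le x1.ge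
  obtain ⟨g0, g1, g2⟩ := near (H.two h) H.fd0 (b := fd θ + (X - θ) * (X - θ + (-4 + 3 * θ))) (by
    rw [H.fd1 h, add_sub_cancel_left]
    exact pw_mul m1 (add_mem (pw_mono zero_le_one m1) (by simpa using H.lin 𝔭 (-4) 3)) le_rfl)
  have e : fc (X : L) = (fd θ + (X - θ) * (X - θ + (-4 + 3 * θ))) * (X - θ) := by
    have := H.eq
    simp only [fc, fd] at this ⊢
    linear_combination this
  generalize fd θ + (X - θ) * (X - θ + (-4 + 3 * θ)) = g at g0 g1 g2 e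
  obtain ⟨r, hr⟩ : ∃ r : ℚ, fc (X : L) = r * d := ⟨fc X / d, by
    rw [Rat.cast_div, Rat.cast_intCast, div_mul_cancel₀ _ H.d0]
    simp [fc]⟩
  have f0 : fc (X : L) ≠ 0 := e ▸ mul_ne_zero g0 x0
  have r0 : (r : L) ≠ 0 := left_ne_zero_of_mul (hr ▸ f0)
  have r1 : ∀ 𝔮 ∈ ab L l, vv 𝔮 (r : L) = 0 := fun 𝔮 h' => by
    have := og_mul (𝔮 := 𝔭) r0 H.d0
    rw [← hr, e, og_mul g0 x0, g1, x1, H.fd1 h, H.one h] at this
    rw [vv, H.rat h' h, show og 𝔭 (r : L) = 0 by omega, Int.cast_zero]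
  have P : ∀ c : ℚ, c ≠ 0 → hq 𝔭 (fd θ) c +
      ∑ 𝔮 ∈ (ab L l).erase 𝔭, (hq 𝔮 (r : L) c + hq 𝔮 (gm θ d 𝔭 𝔮) c) = 0 := fun c c0 => by
    rw [← H.pf (mul_ne_zero f0 x0) (H.nrm X) c0, ← add_sum_erase _ _ h]
    congr 1
    · rw [e, mul_assoc, ← sq, hq_sq x0, g2]
    · refine sum_congr rfl fun 𝔮 h' => ?_
      rw [hr, mul_assoc, hq_mul r0 (mul_ne_zero H.d0 x0) (by simpa using c0),
        (H.away h h1 m1 (mem_of_mem_erase h') (ne_of_mem_erase h')).2]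
  have Q : ∀ c : ℚ, c ≠ 0 → vv 𝔭 (c : L) = 0 → ∑ 𝔮 ∈ (ab L l).erase 𝔭, hq 𝔮 (c : L) d = 0 :=
    fun c c0 c1 => by
    have c' : (c : L) ≠ 0 := by simpa using c0
    rw [← P c c0, hq_even (H.two h) H.fd0 c' (by rw [vv, H.fd1 h]; rfl), c1, mul_zero, zero_add]
    refine sum_congr rfl fun 𝔮 h' => ?_
    have k := mem_of_mem_erase h'
    have c2 : vv 𝔮 (c : L) = 0 := by rwa [vv, H.rat k h]
    rw [hq_even (H.two k) r0 c' (r1 𝔮 k), c2, mul_zero, zero_add, hq_comm (H.gm0 _ _) c',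
      hq_even (H.two k) c' (H.gm0 _ _) c2, hq_even (H.two k) c' H.d0 c2, H.v1 k, vv,
      H.gm1 h h1 k, if_neg (ne_of_mem_erase h'), Int.cast_one]
  refine ⟨⟨X, fun 𝔮 h' => ?_⟩, fun c c0 => ?_, ?_⟩
  · by_cases k : 𝔮 = 𝔭
    · subst k
      rw [vv_mul H.d0 x0, H.v1 h, vv, vv, x1, H.gm1 h h1 h, if_pos rfl, gm, if_pos rfl,
        hq_mul H.d0 x0 H.d0, x2, hq_mul H.d0 H.fd0 H.d0, ← add_assoc, CharTwo.add_self_eq_zero,
        zero_add]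
      exact ⟨rfl, rfl⟩
    · rw [vv, vv, H.gm1 h h1 h', if_neg k, (H.away h h1 m1 h' k).1, (H.away h h1 m1 h' k).2]
      exact ⟨rfl, rfl⟩
  · have c' : (c : L) ≠ 0 := by simpa using c0
    rcases zmod2_cases (vv 𝔭 (c : L)) with k | k
    · exact Q c c0 k
    · have := Q (c * -d) (mul_ne_zero c0 (by simpa using H.d0)) (by
        push_cast
        rw [vv_mul c' (neg_ne_zero.2 H.d0), k, vv, og, ord_neg, ← og, H.one h]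
        rfl)
      push_cast at this
      simpa only [hq_mul c' (neg_ne_zero.2 H.d0) H.d0, hq_neg H.d0, add_zero] using this
  · have := P d (by simpa using H.d0)
    rw [Rat.cast_intCast, sum_add_distrib, Q r (by simpa using r0) (r1 𝔭 h), zero_add] at this
    rw [← add_sum_erase _ _ h, gm, if_pos rfl, this]

theorem neg (h : 𝔭 ∈ ab L l) (h1 : nm 𝔭 = l) : ∑ 𝔮 ∈ (ab L l).erase 𝔭, hq 𝔮 (-1) (d : L) = 0 := by
  simpa using (H.key h h1).2.1 (-1) (by simp)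

theorem star (h : 𝔭 ∈ ab L l) (h1 : nm 𝔭 = l) :
    hq 𝔭 (fd θ) d = ∑ 𝔮 ∈ (ab L l).erase 𝔭, hq 𝔮 ((xr θ 𝔭 : L) - θ) d := by
  have := (H.key h h1).2.2
  rw [← add_sum_erase _ _ h, gm, if_pos rfl, sum_congr rfl fun 𝔮 h' => by
    rw [gm, if_neg (ne_of_mem_erase h'), hq_mul H.d0 (H.xne _) H.d0, hq_self H.d0],
    sum_add_distrib, H.neg h h1, zero_add] at this
  exact CharTwo.add_eq_zero.1 this

theorem club (h : 𝔭 ∈ ab L l) (h1 : nm 𝔭 = l) (h' : 𝔭' ∈ ab L l) (h1' : nm 𝔭' = l) (e : 𝔭 ≠ 𝔭') :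
    hq 𝔭' ((xr θ 𝔭 : L) - θ) d = hq 𝔭 (-1) (d : L) + hq 𝔭 ((xr θ 𝔭' : L) - θ) d := by
  have k : ∀ {𝔭 𝔭' : Pr L}, 𝔭 ∈ ab L l → nm 𝔭 = l → 𝔭' ∈ ab L l → nm 𝔭' = l → 𝔭 ≠ 𝔭' →
      (xr θ 𝔭 : L) - xr θ 𝔭' ≠ 0 ∧
      hq 𝔭' ((xr θ 𝔭 : L) - xr θ 𝔭') d = hq 𝔭' ((xr θ 𝔭 : L) - θ) d := fun h h1 h' h1' e =>
    (near (H.two h') (H.xne _) (by
      rw [H.xr0 h h' h1 e.symm, sub_sub_sub_cancel_left, ← neg_sub]
      exact neg_mem (mem_of_le (H.xr1 h' h1')))).imp id fun k => k.2 _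
  obtain ⟨k1, k2⟩ := k h h1 h' h1' e
  obtain ⟨k3, k4⟩ := k h' h1' h h1 e.symm
  have s : ∀ {𝔭 : Pr L}, 𝔭 ∈ ab L l → nm 𝔭 = l → ∀ r : ℚ, r ≠ 0 →
      ∑ 𝔮 ∈ ab L l, hq 𝔮 (r : L) d = hq 𝔭 (r : L) d := fun h h1 r r0 => by
    rw [← add_sum_erase _ _ h, (H.key h h1).2.1 r r0, add_zero]
  have r0 : (xr θ 𝔭 : ℚ) - xr θ 𝔭' ≠ 0 := fun z => k1 (by exact_mod_cast congrArg (Rat.cast : ℚ → L) z)
  have := (s h' h1' _ r0).symm.trans (s h h1 _ r0)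
  push_cast at this
  rw [← k2, ← k4, this, ← hq_mul (by simp) k3 H.d0, neg_one_mul, neg_sub]

variable (h0 : α ≠ 0) (hs : IsSquare (Algebra.norm ℚ α))
include h0 hs

theorem bv_eq (h : 𝔭 ∈ ab L l) (h1 : nm 𝔭 = l) : bv θ d 𝔭 α = hq 𝔭 α d +
    ∑ 𝔮 ∈ (ab L l).erase 𝔭, (vv 𝔭 α + vv 𝔮 α) * hq 𝔮 ((xr θ 𝔭 : L) - θ) d := by
  have := H.pfd h0 hs
  rw [← add_sum_erase _ _ h, CharTwo.add_eq_zero] at this
  rw [bv, h1, ← add_sum_erase _ _ h, gm, if_pos rfl, tame (H.two h) h0 H.fd0 H.d0 (H.v1 h),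
    show vv 𝔭 (fd θ) = 0 by rw [vv, H.fd1 h]; rfl, H.star h h1, mul_zero, mul_zero, zero_mul,
    add_zero, add_zero, this, mul_sum, ← sum_add_distrib, ← sum_add_distrib]
  refine sum_congr rfl fun 𝔮 h' => ?_
  have k := mem_of_mem_erase h'
  have z : vv 𝔮 ((xr θ 𝔭 : L) - θ) = 0 := by rw [vv, H.xr0 h k h1 (ne_of_mem_erase h')]; rfl
  rw [gm, if_neg (ne_of_mem_erase h'), hq_comm h0 (mul_ne_zero H.d0 (H.xne _)),
    hq_mul H.d0 (H.xne _) h0, hq_comm H.d0 h0, hq_even (H.two k) (H.xne _) h0 z,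
    hq_nsq (H.two k) (H.xne _) H.d0 (H.v1 k) z]
  ring

theorem bv_even (h : 𝔭 ∈ ab L l) (h1 : nm 𝔭 = l) (e : ∀ 𝔮 ∈ ab L l, Even (og 𝔮 α)) :
    bv θ d 𝔭 α = hq 𝔭 α d := by
  rw [H.bv_eq h0 hs h h1, sum_eq_zero fun 𝔮 h' => by
    rw [vv_zero.2 (e _ h), vv_zero.2 (e _ (mem_of_mem_erase h')), add_zero, zero_mul], add_zero]

omit h0 hs in
theorem vv_eq (h : 𝔭 ∈ ab L l) (h1 : nm 𝔭 = l) (e : ∀ 𝔮 ∈ ab L l, Even (og 𝔮 α) ↔ 𝔮 = 𝔭)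
    (h' : 𝔮 ∈ ab L l) : vv 𝔮 α = (if 𝔮 = 𝔭 then 0 else 1) ∧
      vv 𝔮 (gm θ d 𝔭 𝔮) = if 𝔮 = 𝔭 then 0 else 1 := by
  rw [vv, vv, H.gm1 h h1 h', ← vv]
  split_ifs with k
  · exact ⟨vv_zero.2 ((e _ h').2 k), rfl⟩
  · exact ⟨(zmod2_cases _).resolve_left fun z => k ((e _ h').1 (vv_zero.1 z)), rfl⟩

theorem bv_odd (h : 𝔭 ∈ ab L l) (h1 : nm 𝔭 = l) (h' : 𝔭' ∈ ab L l) (h1' : nm 𝔭' = l)
    (e : ∀ 𝔮 ∈ ab L l, Even (og 𝔮 α) ↔ 𝔮 = 𝔭') :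
    bv θ d 𝔭 α = hq 𝔭 α d + hq 𝔭 (gm θ d 𝔭' 𝔭) d := by
  rw [H.bv_eq h0 hs h h1, gm, (H.vv_eq h' h1' e h).1]
  congr 1
  split_ifs with k
  · subst k
    rw [H.star h h1]
    exact sum_congr rfl fun 𝔮 hq => by
      rw [(H.vv_eq h h1 e (mem_of_mem_erase hq)).1, if_neg (ne_of_mem_erase hq), zero_add, one_mul]
  · rw [sum_eq_single_of_mem 𝔭' (mem_erase.2 ⟨Ne.symm k, h'⟩) fun 𝔮 hq k' => by
      rw [(H.vv_eq h' h1' e (mem_of_mem_erase hq)).1, if_neg k', CharTwo.add_self_eq_zero, zero_mul],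
      (H.vv_eq h' h1' e h').1, if_pos rfl, add_zero, one_mul, H.club h h1 h' h1' k,
      hq_mul H.d0 (H.xne _) H.d0, hq_self H.d0]

theorem loc (P1 : (∀ 𝔮 ∈ ab L l, Even (og 𝔮 α)) ∨
      ∃ 𝔭 ∈ ab L l, nm 𝔭 = l ∧ ∀ 𝔮 ∈ ab L l, Even (og 𝔮 α) ↔ 𝔮 = 𝔭)
    (P2 : ∀ 𝔭 ∈ ab L l, ∀ 𝔮 ∈ ab L l, nm 𝔭 ≠ l → nm 𝔮 ≠ l → 𝔭 = 𝔮) (l0 : l ≠ 0) :
    LocS θ d l α ↔ ∀ 𝔭 ∈ ab L l, nm 𝔭 = l → bv θ d 𝔭 α = 0 := by
  have ls : ∀ {y : L}, y ≠ 0 → ∀ 𝔮 ∈ ab L l,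
      (LSq 𝔮 (α * y) ↔ vv 𝔮 α = vv 𝔮 y ∧ hq 𝔮 α d = hq 𝔮 y d) := fun y0 𝔮 h => by
    rw [lsq (H.two h) (mul_ne_zero h0 y0) H.d0 (H.v1 h), vv_mul h0 y0, hq_mul h0 y0 H.d0,
      CharTwo.add_eq_zero, CharTwo.add_eq_zero]
  refine ⟨fun ⟨x, z, y0, hy⟩ 𝔭 h h1 => ?_, fun hb => ?_⟩
  · replace hy := fun 𝔮 k => (ls y0 𝔮 k).1 (hy 𝔮 ((mem_ab' l0).1 k))
    obtain ⟨𝔭', h', h1', e'⟩ : ∃ 𝔭' ∈ ab L l, nm 𝔭' = l ∧ vv 𝔭' α = 0 := by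
      rcases P1 with e | ⟨𝔭', h', h1', e⟩
      exacts [⟨𝔭, h, h1, vv_zero.2 (e _ h)⟩, ⟨𝔭', h', h1', vv_zero.2 ((e _ h').2 rfl)⟩]
    have R : ∀ r : ℚ, r ≠ 0 → (∀ 𝔮 ∈ ab L l, vv 𝔮 α = vv 𝔮 (r : L) ∧ hq 𝔮 α d = hq 𝔮 (r : L) d) →
        bv θ d 𝔭 α = 0 := fun r r0 hr => by
      have := H.pfd h0 hs
      rw [← add_sum_erase _ _ h, sum_congr rfl fun 𝔮 k => (hr 𝔮 (mem_of_mem_erase k)).2,
        (H.key h h1).2.1 r r0, add_zero] at this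
      rw [H.bv_even h0 hs h h1 fun 𝔮 k => vv_zero.1 ?_, this]
      rw [(hr 𝔮 k).1, vv, H.rat k h', ← vv, ← (hr 𝔭' h').1, e']
    rcases eq_or_ne z 0 with rfl | z0
    · simp only [Rat.cast_zero, ne_eq, OfNat.ofNat_ne_zero, not_false_eq_true, zero_pow, mul_zero,
        zero_mul, sub_zero, Rat.cast_eq_zero] at y0 hy
      exact R x y0 hy
    have z1 : (z : L) ≠ 0 := by simpa using z0
    obtain ⟨X, hX⟩ : ∃ X : ℚ, (x : L) - d * (z : L) ^ 2 * θ = d * ((X : L) - θ) * (z : L) ^ 2 :=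
      ⟨x / (d * z ^ 2), by have := H.d0; push_cast; field_simp⟩
    have y1 := mul_ne_zero H.d0 (H.ne X)
    simp only [hX, vv_sq z1 y1, hq_sq z1] at hy
    by_cases o : (X : L) ∈ pw (𝔭'.valuation L) 0
    · have m : (X : L) - θ ∈ pw (𝔭'.valuation L) 1 := by
        have a := mem_pw_zero.1 (sub_mem o (mem_of_le (H.int 𝔭')))
        have b := (hy 𝔭' h').1
        rw [e', vv_mul H.d0 (H.ne X), H.v1 h'] at b
        refine mem_of_le (lt_of_le_of_ne a fun k => ?_)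
        rw [vv, og, ← k] at b
        exact absurd b (by decide)
      have a := fun 𝔮 k k' => H.away h' h1' m (𝔮 := 𝔮) k k'
      rw [H.bv_odd h0 hs h h1 h' h1' fun 𝔮 k => ⟨fun e => by_contra fun k' => ?_, fun e =>
        e ▸ vv_zero.1 e'⟩, CharTwo.add_eq_zero]
      · by_cases k : 𝔭 = 𝔭'
        · subst k
          have s := (H.pfd h0 hs).trans (H.key h h1).2.2.symm
          rwa [← add_sum_erase _ _ h, ← add_sum_erase _ _ h, sum_congr rfl fun 𝔮 k =>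
            (hy 𝔮 (mem_of_mem_erase k)).2.trans
              ((a 𝔮 (mem_of_mem_erase k) (ne_of_mem_erase k)).2 _), add_left_inj] at s
        · exact (hy 𝔭 h).2.trans ((a 𝔭 h k).2 _)
      · have b := (hy 𝔮 k).1
        rw [vv_zero.2 e, vv, (a 𝔮 k k').1] at b
        exact absurd b (by decide)
    · obtain ⟨X0, X1⟩ := LocAux.not_mem.1 o
      refine R (d * X) (by simpa using mul_ne_zero H.d0 X0) fun 𝔮 k => ?_
      obtain ⟨-, a, b⟩ := near (H.two k) X0 (b := X - θ) (by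
        rw [sub_sub_cancel_left, H.rat k h']
        exact neg_mem (pw_mono X1 (mem_of_le (H.int 𝔮))))
      push_cast
      rw [(hy 𝔮 k).1, (hy 𝔮 k).2, vv_mul H.d0 (H.ne X), vv_mul H.d0 X0, hq_mul H.d0 (H.ne X) H.d0,
        hq_mul H.d0 X0 H.d0, b, vv, vv, vv, a]
      exact ⟨rfl, rfl⟩
  · have Z : ∀ f : Pr L → ZMod 2, ∑ 𝔮 ∈ ab L l, f 𝔮 = 0 → (∀ 𝔭 ∈ ab L l, nm 𝔭 = l → f 𝔭 = 0) →
        ∀ 𝔮 ∈ ab L l, f 𝔮 = 0 := fun f s e 𝔮 k => by_contra fun n => n (by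
      rwa [sum_eq_single_of_mem 𝔮 k fun 𝔭 h k' => e 𝔭 h (by_contra fun n' =>
        k' (P2 𝔭 h 𝔮 k n' fun n'' => n (e 𝔮 k n'')))] at s)
    rcases P1 with e | ⟨𝔭', h', h1', e⟩
    · refine ⟨1, 0, by simp, fun 𝔮 k => ?_⟩
      replace k := (mem_ab' l0).2 k
      simpa using (lsq (H.two k) h0 H.d0 (H.v1 k)).2 ⟨vv_zero.2 (e 𝔮 k), Z _ (H.pfd h0 hs)
        (fun 𝔭 h h1 => (H.bv_even h0 hs h h1 e).symm.trans (hb 𝔭 h h1)) 𝔮 k⟩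
    · obtain ⟨⟨X, hX⟩, -, s⟩ := H.key h' h1'
      have y : ((d * X : ℚ) : L) - d * ((1 : ℚ) : L) ^ 2 * θ = d * ((X : L) - θ) := by
        push_cast
        ring
      refine ⟨d * X, 1, y ▸ mul_ne_zero H.d0 (H.ne X), fun 𝔮 k => ?_⟩
      replace k := (mem_ab' l0).2 k
      rw [y, ls (mul_ne_zero H.d0 (H.ne X)) 𝔮 k, (hX 𝔮 k).1, (hX 𝔮 k).2, (H.vv_eq h' h1' e k).1,
        (H.vv_eq h' h1' e k).2]
      exact ⟨rfl, CharTwo.add_eq_zero.1 (Z (fun 𝔮 => hq 𝔮 α d + hq 𝔮 (gm θ d 𝔭' 𝔮) d)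
        (by rw [sum_add_distrib, H.pfd h0 hs, s, add_zero])
        (fun 𝔭 h h1 => (H.bv_odd h0 hs h h1 h' h1' e).symm.trans (hb 𝔭 h h1)) 𝔮 k)⟩

end Cx

theorem av_eq (h1 : nm 𝔭 = l) : av 𝔭 α = ∑ 𝔮 ∈ (ab L l).erase 𝔭, vv 𝔮 α := by
  rw [av, h1]
  rfl

end LocD

open LocD in
theorem locd_thm (hPr : PrStmt) (hPF : PFStmt) : LocDStmt := by
  intro L _ _ θ hθ d l hd hl hld
  obtain ⟨-, -, p3, p4, p5, p6, -⟩ := hPr L θ hθ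
  have l2 : l ≠ 2 := by
    rintro rfl
    have := hd.m4
    omega
  have l11 : l ≠ 11 := by
    rintro rfl
    exact hd.n11 hld
  obtain ⟨q1, q2, t0, t1, t3, tt⟩ := p3 l hl l2 l11
  have dv : ∀ 𝔮 ∈ ab L l, ∀ n : ℕ, ¬ l ∣ n → og 𝔮 (n : L) = 0 := fun 𝔮 h n hn => by
    obtain ⟨-, l', h1, -, h2⟩ := p5 𝔮
    obtain rfl := (Nat.prime_dvd_prime_iff_eq h1 hl).1 ((h2 l hl.ne_zero).1 h)
    exact by_contra fun e => hn ((h2 n fun z => hn (z ▸ dvd_zero _)).1 (mem_ab.2 e))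
  have H : Cx θ d l :=
    { d0 := Int.cast_ne_zero.2 hd.sf.ne_zero
      ne := fun x => sub_ne_zero.2 (p6 x).1
      nrm := fun x => ⟨fc x ^ 2, by
        rw [map_mul, (p6 x).2, show fc (x : L) = algebraMap ℚ L (fc x) by simp [fc],
          Algebra.norm_algebraMap, hθ.rk]
        ring⟩
      eq := hθ.eq
      two := fun h => (q1 _ h).2.1
      one := fun {𝔮} h => by
        obtain ⟨e, rfl⟩ := hld
        have n : ¬ l ∣ e.natAbs := fun k => (Nat.prime_iff_prime_int.1 hl).not_unit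
          (hd.sf l (mul_dvd_mul_left _ (Int.natCast_dvd.2 k)))
        have := dv 𝔮 h _ n
        rw [Int.cast_mul, og_mul (by simpa using hl.ne_zero) (by
          simpa using fun z : e = 0 => n (by simp [z])), Int.cast_natCast, (q1 𝔮 h).1]
        obtain ⟨k, rfl | rfl⟩ := e.eq_nat_or_neg <;> simpa [og] using this
      fd1 := fun h => (q1 _ h).2.2.1
      int := fun 𝔮 => (p5 𝔮).1
      rat := fun {𝔭 𝔮} h h' => og_rat fun p hp => by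
        by_cases e : p = l
        · rw [e, (q1 𝔭 h).1, (q1 𝔮 h').1]
        · have n := mt (Nat.prime_dvd_prime_iff_eq hl hp).1 (Ne.symm e)
          rw [dv 𝔭 h p n, dv 𝔮 h' p n]
      xr1 := fun h => (q1 _ h).2.2.2.1.1
      xr0 := fun h h' => q2 _ h _ h'
      pf := fun h h' _ => hPF L θ hθ l _ _ hl h h' }
  have par : ∀ α : L, α ≠ 0 → IsSquare (Algebra.norm ℚ α) →
      ∑ 𝔮 ∈ ab L l, (Nat.log l (nm 𝔮) : ZMod 2) * vv 𝔮 α = 0 := fun α h h' => by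
    simpa [vv] using ZMod.intCast_eq_zero_iff_even.2 ((p4 l α hl h).2 h')
  have lg := Nat.log_pow hl.one_lt
  have l1 : Nat.log l l = 1 := by simpa using lg 1
  have np : ∀ k, k ≠ 1 → l ^ k ≠ l := fun k h e => h (by simpa [lg, l1] using congrArg (Nat.log l) e)
  have tm : ∀ {α α' : L}, α ≠ 0 → α' ≠ 0 → ∑ 𝔮 ∈ ab L l, hq 𝔮 α α' = ∑ 𝔮 ∈ ab L l,
      (vv 𝔮 α * hq 𝔮 α' d + hq 𝔮 α d * vv 𝔮 α' + vv 𝔮 α * vv 𝔮 α' * hq 𝔮 (-1) (d : L)) :=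
    fun h h' => sum_congr rfl fun 𝔮 k => tame (H.two k) h h' H.d0 (H.v1 k)
  refine ⟨fun α h0 hs 𝔭 h h1 => ⟨fun e => ?_, fun 𝔭' h' h1' e => ?_⟩, ?_⟩
  · rw [H.bv_even h0 hs h h1 e, hq_nsq (H.two h) h0 H.d0 (H.v1 h) (vv_zero.2 (e 𝔭 h))]
  · rw [H.bv_odd h0 hs h h1 h' h1' e, hq_nsq (H.two h) (mul_ne_zero h0 (H.gm0 _ _)) H.d0 (H.v1 h),
      hq_mul h0 (H.gm0 _ _) H.d0]
    rw [vv_mul h0 (H.gm0 _ _), (H.vv_eq h' h1' e h).1, (H.vv_eq h' h1' e h).2,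
      CharTwo.add_self_eq_zero]
  rcases tt with e | e | e
  · obtain ⟨𝔭, hA, n⟩ := t0 e
    have z : ∀ α : L, α ≠ 0 → IsSquare (Algebra.norm ℚ α) → vv 𝔭 α = 0 := fun α h h' => by
      have := par α h h'
      rwa [hA, sum_singleton, n, lg, show ((3 : ℕ) : ZMod 2) = 1 from rfl, one_mul] at this
    refine ⟨fun α α' h h' s s' => ?_, fun _ _ _ k => by omega, fun α h s => H.loc h s
      (Or.inl fun 𝔮 k => ?_) (fun 𝔮 k 𝔮' k' _ _ => ?_) hl.ne_zero⟩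
    · rw [tm h h', sum_filter, hA, sum_singleton, sum_singleton, z α h s, z α' h' s', n,
        if_neg (np 3 (by decide))]
      simp
    · rw [hA, mem_singleton] at k
      exact k ▸ vv_zero.1 (z α h s)
    · rw [hA, mem_singleton] at k k'
      rw [k, k']
  · obtain ⟨𝔭, 𝔮, ne, hA, n1, n2⟩ := t1 e
    have m1 := (hA 𝔭).2 (Or.inl rfl)
    have A : ab L l = {𝔭, 𝔮} := Finset.ext fun 𝔯 => by simp [hA]
    have E : (ab L l).erase 𝔭 = {𝔮} := by rw [A, erase_insert (by simpa using ne)]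
    have z : ∀ α : L, α ≠ 0 → IsSquare (Algebra.norm ℚ α) → vv 𝔭 α = 0 := fun α h h' => by
      have := par α h h'
      rwa [A, sum_pair ne, n1, n2, lg, l1, show ((2 : ℕ) : ZMod 2) = 0 from rfl, zero_mul, add_zero,
        Nat.cast_one, one_mul] at this
    refine ⟨fun α α' h h' s s' => ?_, fun _ _ _ k => by omega, fun α h s => H.loc h s ?_
      (fun 𝔯 k 𝔯' k' a a' => ?_) hl.ne_zero⟩
    · have a1 := H.pfd h s
      have a2 := H.pfd h' s'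
      have a3 := H.neg m1 n1
      rw [tm h h', sum_filter, A, sum_pair ne, sum_pair ne, if_pos n1, n2, if_neg (np 2 (by decide)),
        av_eq n1, av_eq n1, H.bv_eq h s m1 n1, H.bv_eq h' s' m1 n1]
      rw [A, sum_pair ne] at a1 a2
      simp only [E, sum_singleton, z α h s, z α' h' s'] at a3 ⊢
      grind
    · by_cases k : Even (og 𝔮 α)
      · refine Or.inl fun 𝔯 r => ?_
        rcases (hA 𝔯).1 r with rfl | rfl
        exacts [vv_zero.1 (z α h s), k]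
      · refine Or.inr ⟨𝔭, m1, n1, fun 𝔯 r => ?_⟩
        rcases (hA 𝔯).1 r with rfl | rfl
        exacts [iff_of_true (vv_zero.1 (z α h s)) rfl, iff_of_false k ne.symm]
    · rw [((hA 𝔯).1 k).resolve_left fun e => a (e ▸ n1),
        ((hA 𝔯').1 k').resolve_left fun e => a' (e ▸ n1)]
  · obtain ⟨hc, n⟩ := t3 e
    obtain ⟨𝔭, 𝔮, 𝔯, n1, n2, n3, A⟩ := card_eq_three.1 hc
    have m1 : 𝔭 ∈ ab L l := by simp [A]
    have m2 : 𝔮 ∈ ab L l := by simp [A]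
    have m3 : 𝔯 ∈ ab L l := by simp [A]
    have S : ∀ f : Pr L → ZMod 2, ∑ x ∈ ab L l, f x = f 𝔭 + f 𝔮 + f 𝔯 := fun f => by
      rw [A, sum_insert (by simp [n1, n2]), sum_pair n3, add_assoc]
    have E : ∀ f : Pr L → ZMod 2, ∀ x ∈ ab L l,
        ∑ y ∈ (ab L l).erase x, f y = f 𝔭 + f 𝔮 + f 𝔯 + f x := fun f x k => by
      rw [← S, ← add_sum_erase _ _ k, add_right_comm, CharTwo.add_self_eq_zero, zero_add]
    have z : ∀ α : L, α ≠ 0 → IsSquare (Algebra.norm ℚ α) → vv 𝔯 α = vv 𝔭 α + vv 𝔮 α :=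
      fun α h h' => by
      have := par α h h'
      rw [S, n _ m1, n _ m2, n _ m3, l1] at this
      grind
    have c1 := H.club m1 (n _ m1) m2 (n _ m2) n1
    have c2 := H.club m1 (n _ m1) m3 (n _ m3) n2
    have c3 := H.club m2 (n _ m2) m3 (n _ m3) n3
    have d1 := H.neg m1 (n _ m1)
    have d2 := H.neg m2 (n _ m2)
    rw [E _ _ m1] at d1
    rw [E _ _ m2] at d2
    have d3 : hq 𝔮 (-1) (d : L) = hq 𝔭 (-1) (d : L) := by grind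
    have d4 : hq 𝔯 (-1) (d : L) = hq 𝔭 (-1) (d : L) := by grind
    refine ⟨fun α α' h h' s s' => ?_, fun α h s _ => ?_, fun α h s => H.loc h s ?_
      (fun x k _ _ a _ => absurd (n x k) a) hl.ne_zero⟩
    · rw [tm h h', filter_true_of_mem n, S, S]
      simp only [av_eq (n _ m1), av_eq (n _ m2), av_eq (n _ m3), H.bv_eq h s m1 (n _ m1),
        H.bv_eq h s m2 (n _ m2), H.bv_eq h s m3 (n _ m3), H.bv_eq h' s' m1 (n _ m1),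
        H.bv_eq h' s' m2 (n _ m2), H.bv_eq h' s' m3 (n _ m3), E _ _ m1, E _ _ m2, E _ _ m3, c1, c2,
        c3, d3, d4, z α h s, z α' h' s']
      grind
    · have a1 := H.pfd h s
      rw [S] at a1
      simp only [S, av_eq (n _ m1), av_eq (n _ m2), av_eq (n _ m3), H.bv_eq h s m1 (n _ m1),
        H.bv_eq h s m2 (n _ m2), H.bv_eq h s m3 (n _ m3), E _ _ m1, E _ _ m2, E _ _ m3, c1, c2,
        c3, d3, d4, z α h s]
      constructor <;> grind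
    · have a := z α h s
      have M : ∀ x ∈ ab L l, x = 𝔭 ∨ x = 𝔮 ∨ x = 𝔯 := fun x k => by simpa [A] using k
      simp only [← vv_zero]
      rcases zmod2_cases (vv 𝔭 α) with b | b <;> rcases zmod2_cases (vv 𝔮 α) with b' | b' <;>
        rw [b, b'] at a
      · exact Or.inl fun x k => by rcases M x k with rfl | rfl | rfl <;> simp [*]
      · exact Or.inr ⟨𝔭, m1, n _ m1, fun x k => by
          rcases M x k with rfl | rfl | rfl <;> simp [a, b, b', n1.symm, n2.symm]⟩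
      · exact Or.inr ⟨𝔮, m2, n _ m2, fun x k => by
          rcases M x k with rfl | rfl | rfl <;> simp [a, b, b', n1, n3.symm]⟩
      · exact Or.inr ⟨𝔯, m3, n _ m3, fun x k => by
          rcases M x k with rfl | rfl | rfl <;> simp [a, b, b', n2, n3, CharTwo.add_self_eq_zero]⟩

end Pool.Agent.Lib.MP_d6ddbd_nt.K11
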