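import Pool.Agent.Lib.MP_d6ddbd_nt.K11.Stmt
import Pool.Agent.Lib.MP_ca56d1_nt.Loc

/-!
A two-converse theorem for the quadratic twists of `X₀(11)`: the assembly.
-/

set_option autoImplicit false

open NumberField
open Pool.Agent.Stark (Pr og hq LSq pw SqCl cl cl_eq_cl cl_eq_zero isLoc_wv emb)

noncomputable section

namespace Pool.Agent.Lib.MP_d6ddbd_nt.K11

namespace Main

open Classical in
/-- The exponents of the coordinates. -/
def kk (q : ℕ) (d : ℤ) (r l : ℕ) : ℕ :=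
  if l.Prime ∧ (l : ℤ) ∣ d then 1 else if l = r then 3 * tt d + 4
    else if Kol q d l then tt d + 3 else 0

variable {q r : ℕ} {d : ℤ}

theorem kk_d {l : ℕ} (h : l.Prime) (h' : (l : ℤ) ∣ d) : kk q d r l = 1 := if_pos ⟨h, h'⟩

theorem kk_r (h : RD q d r) : kk q d r r = 3 * tt d + 4 := by
  rw [kk, if_neg fun e => h.nd e.2, if_pos rfl]

theorem kk_kol (h : RD q d r) {p : ℕ} (hp : Kol q d p) : kk q d r p = tt d + 3 := by
  have : p ≠ r := fun e => by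
    have h1 := h.ty
    rw [← e, hp.ty] at h1
    exact one_ne_zero h1
  rw [kk, if_neg fun e => hp.nd e.2, if_neg this, if_pos hp]

theorem kk_le (l : ℕ) : kk q d r l ≤ 3 * tt d + 4 := by
  rw [kk]
  split_ifs <;> omega

theorem ne_two {p n : ℕ} (h : 2 ^ (n + 1) ∣ p + 1) : p ≠ 2 := by
  rintro rfl
  have : 2 ∣ 2 + 1 := (dvd_pow_self 2 (Nat.succ_ne_zero n)).trans h
  omega

theorem d_ne_two (h : Fam d) {l : ℕ} (hl : (l : ℤ) ∣ d) : l ≠ 2 := by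
  rintro rfl
  have := h.m4
  omega

theorem adm (hq : QD q d) (h : RD q d r) : Adm q (kk q d r) := fun l hl => by
  by_cases h1 : l.Prime ∧ (l : ℤ) ∣ d
  · have h2 := d_ne_two hq.fam h1.2
    have h3 := h1.1.eq_two_or_odd.resolve_left h2
    rw [kk_d h1.1 h1.2]
    refine ⟨h1.1, h2, ?_, ?_, fun _ => by omega, fun _ => by omega⟩
    · rintro rfl
      exact hq.fam.n11 h1.2
    · rintro rfl
      exact hq.nd h1.2
  by_cases h2 : l = r
  · subst h2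
    rw [kk_r h]
    exact ⟨h.pr, ne_two h.dv, h.n11, h.nq, fun e => absurd e h.inert, fun _ => h.dv⟩
  by_cases h3 : Kol q d l
  · rw [kk_kol h h3]
    exact ⟨h3.pr, ne_two h3.dv, h3.n11, h3.nq, fun e => absurd e h3.inert, fun _ => h3.dv⟩
  · exact absurd (by rw [kk, if_neg h1, if_neg h2, if_neg h3]) hl

theorem exists_ks (hX : XStmt) (hO : OddStmt) (hP : PStmt) (hK : KStmt) (hA : AuxStmt)
    (hq : QD q d) : ∃ r M ξ, RD q d r ∧ KS q d r M ξ := by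
  obtain ⟨Pp, a, t0, hx⟩ := hX
  have h1 : ∀ l : ℕ, ∃ π, l.Prime → (l : ℤ) ∣ d → Gen q l π := fun l => by
    by_cases h : l.Prime ∧ (l : ℤ) ∣ d
    · obtain ⟨π, hπ⟩ := hO q l hq.qf h.1 (d_ne_two hq.fam h.2)
        (by rintro rfl; exact hq.nd h.2) (hq.spl l h.1 h.2)
      exact ⟨π, fun _ _ => hπ⟩
    · exact ⟨0, fun h1 h2 => absurd ⟨h1, h2⟩ h⟩
  choose π hπ using h1
  obtain ⟨r, O, hr, hO, h2⟩ := hA q d π hq hπ
  obtain ⟨S, ρ, ν, j, hs⟩ := hP Pp a t0 hx q (kk q d r) hq.qf (adm hq hr)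
  obtain ⟨M, ξ, h3⟩ := hK q d r (kk q d r) a S ρ ν j hq hr (fun l => kk_d) (kk_r hr)
    (fun p => kk_kol hr) kk_le hs fun l hl hd => by
      have h4 := fun i hi => hs.val l r (π l) i O (by rw [kk_d hl hd]; omega) (hq.spl l hl hd)
        (by rw [kk_r hr]; omega) hr.inert hi (hπ l hl hd) hO
      have h5 := h4 1 (by rw [kk_r hr]; omega)
      have h6 := h4 2 (by rw [kk_r hr]; omega)
      refine ⟨fun e => ?_, fun e => ?_⟩
      · have := mt h5.1 ((h2 l hl hd).1 e)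
        omega
      · have h7 := h5.2 ((h2 l hl hd).2 e).1
        have h8 := mt h6.1 ((h2 l hl hd).2 e).2
        omega
  exact ⟨r, M, ξ, hr, h3⟩

variable {L : Type} [Field L] [NumberField L] {θ : L}

theorem selC_one (θ : L) (d : ℤ) : SelC θ d 1 :=
  ⟨one_ne_zero, by simp, fun _ _ => ⟨1, 0, by simp, fun 𝔭 _ => by simp [LSq]⟩⟩

theorem fv_congr {p : ℕ} (hp : p ≠ 0) {x y : L} (hx : x ≠ 0) (hy : y ≠ 0) (h : cl x = cl y) :
    fv p x = fv p y := by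
  refine Finset.sum_congr rfl fun 𝔭 _ => ?_
  obtain ⟨t, ht⟩ := (cl_eq_cl hx hy).1 h
  have hx' : emb 𝔭 x ≠ 0 := (map_ne_zero _).2 hx
  have hy' : emb 𝔭 y ≠ 0 := (map_ne_zero _).2 hy
  have hp' : emb 𝔭 (p : L) ≠ 0 := (map_ne_zero _).2 (by exact_mod_cast hp)
  have ht' : emb 𝔭 t ≠ 0 := fun e => by
    have := congrArg (emb 𝔭) ht
    rw [map_mul, map_mul, e, mul_zero] at this
    exact mul_ne_zero hx' hy' this
  have h1 := (isLoc_wv 𝔭).hs_mul_left hx' hy' hp'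
  have h2 := (isLoc_wv 𝔭).hs_mul_left ht' ht' hp'
  rw [← map_mul, ht, map_mul, h2] at h1
  have h3 : ∀ a b c : ZMod 2, a + a = b + c → b = c := by decide
  exact h3 _ _ _ h1

theorem wc_mono {B B' : Finset ℕ} {α : L} (h : Wc d B α) (hB : B ⊆ B') : Wc d B' α :=
  ⟨h.ne, h.sq, h.two, fun p h1 h2 h3 => h.ev p h1 h2 fun e => h3 (hB e)⟩

theorem core (hX : XStmt) (hO : OddStmt) (hP : PStmt) (hK : KStmt) (hA : AuxStmt) (hL : LStmt)
    (hC : CKStmt) (hS : AsmStmt) (hF : FinStmt) (hθ : Cub θ) (hq : QD q d)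
    (h : ∀ x : L, SelC θ d x → fv q x = 0 → IsSquare x) :
    ∃ β : L, Wc d {q} β ∧ (∀ 𝔭 ∈ D1 L d, bv θ d 𝔭 β = 0) ∧ ¬ IsSquare β ∧
      (sv q β = 0 → SelC θ d β) ∧
      (jacobiSym (-11) d.natAbs = -1 → (Tw d).Infinite ∧ sv q β = 0) ∧
      (jacobiSym (-11) d.natAbs ≠ -1 → sv q β = 0 → fv q β = 0) := by
  obtain ⟨r, M, ξ, hr, hk⟩ := exists_ks hX hO hP hK hA hq
  obtain ⟨α, hl, hu⟩ := hC L θ hθ q d r M ξ hq hr hk
  obtain ⟨h1, h2⟩ := hS L θ hθ q d M α hq hl hk.le h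
  obtain ⟨S, χ, hb⟩ := hk.bot h1
  have h0 : Kn q d ∅ := fun _ e => absurd e (Finset.notMem_empty _)
  have h3 : Wc d {q} (α ∅ 0) := by simpa using hl.mem ∅ 0 h0
  obtain ⟨h4, -, h5⟩ := hL L θ hθ d hq.fam
  have hq2 : q ≠ 2 := by have := hq.qf.big; omega
  have hq11 : q ≠ 11 := by have := hq.qf.big; omega
  have h6 := h5 {q} fun p hp => by
    rw [Finset.mem_singleton.1 hp]
    exact ⟨hq.qf.pr, hq2, hq11, hq.nd, hq.ty⟩
  obtain ⟨h7, h8⟩ := hF L θ hθ q d (α ∅ 0) (ξ ∅ 0) S χ hq h3.ne h3.sq h2 (hk.coc ∅ 0 h0) hu hb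
  refine ⟨α ∅ 0, h3, hl.b0 ∅ h0, h2, fun e => (h4 _).2 ⟨?_, hl.b0 ∅ h0⟩, h7, h8⟩
  simpa using (h6.2.1 _ h3).2.2.1 q (Finset.mem_singleton_self q) e

theorem jac (h : Fam d) : jacobiSym (-11) d.natAbs = 1 ∨ jacobiSym (-11) d.natAbs = -1 := by
  refine jacobiSym.eq_one_or_neg_one ?_
  have h1 : Nat.Coprime 11 d.natAbs := (Nat.Prime.coprime_iff_not_dvd (by norm_num)).2 fun e =>
    h.n11 (Int.natCast_dvd.2 e)
  exact h1

end Main

open Main in
theorem main_thm (hX : XStmt) (hO : OddStmt) (hP : PStmt) (hK : KStmt) (hA : AuxStmt) (hL : LStmt)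
    (hC : CKStmt) (hS : AsmStmt) (hF : FinStmt) (hH : ChebStmt) (hN : NoStmt) : MainStmt := by
  intro L _ _ θ hθ d hd
  obtain ⟨h4, -, h5⟩ := hL L θ hθ d hd
  let o : {c : SqCl L // ∃ α, SelC θ d α ∧ cl α = c} := ⟨cl 1, 1, selC_one θ d, rfl⟩
  have ho : cl (1 : L) = 0 := (cl_eq_zero one_ne_zero).2 IsSquare.one
  refine ⟨fun h => ?_, fun h => ?_⟩
  · obtain ⟨⟨_, α, hα, rfl⟩, h1, h2⟩ := (Nat.card_eq_two_iff' o).1 h
    have h3 : ¬ IsSquare α := fun e => h1 (Subtype.ext (((cl_eq_zero hα.1).2 e).trans ho.symm))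
    obtain ⟨hw, hb⟩ := (h4 α).1 hα
    obtain ⟨q, hq, hf⟩ := (hH L θ hθ d hd).1 α hw
    have hf := hf h3
    have h6 : ∀ x : L, SelC θ d x → ¬ IsSquare x → fv q x = 1 := fun x hx e => by
      have : cl x = cl α := congrArg Subtype.val (h2 ⟨cl x, x, hx, rfl⟩ fun e' =>
        e ((cl_eq_zero hx.1).1 ((congrArg Subtype.val e').trans ho)))
      rw [fv_congr hq.qf.pr.ne_zero hx.1 hα.1 this, hf]
    obtain ⟨β, b1, b2, b3, b4, b5, b6⟩ := core hX hO hP hK hA hL hC hS hF hθ hq fun x hx e =>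
      by_contra fun e' => zero_ne_one (e.symm.trans (h6 x hx e'))
    have hq2 : q ≠ 2 := by have := hq.qf.big; omega
    have hq11 : q ≠ 11 := by have := hq.qf.big; omega
    have h7 := h5 {q} fun p hp => by
      rw [Finset.mem_singleton.1 hp]
      exact ⟨hq.qf.pr, hq2, hq11, hq.nd, hq.ty⟩
    have h8 := (h7.1 β α b1 (wc_mono hw (Finset.empty_subset _))).2
    have h9 : sv q α = 0 := ((h5 ∅ fun _ e => absurd e (Finset.notMem_empty _)).2.1 α hw).2.2.2 q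
      hq.qf.pr hq.nd (Finset.notMem_empty _)
    rw [Finset.sum_eq_zero fun 𝔭 h𝔭 => by rw [hb 𝔭 h𝔭, b2 𝔭 h𝔭]; simp, Finset.sum_singleton,
      hf, h9] at h8
    have h10 : sv q β = 0 := by simpa using h8
    have h11 : jacobiSym (-11) d.natAbs = -1 := by_contra fun e =>
      zero_ne_one ((b6 e h10).symm.trans (h6 β (b4 h10) b3))
    exact ⟨(b5 h11).1, h11⟩
  · have h1 : ∀ x : L, SelC θ d x → IsSquare x := fun x hx => by
      have := (Nat.card_eq_one_iff_unique.1 h).1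
      exact (cl_eq_zero hx.1).1 ((congrArg Subtype.val
        (Subsingleton.elim (⟨cl x, x, hx, rfl⟩ : {c : SqCl L // ∃ α, SelC θ d α ∧ cl α = c}) o)).trans
          ho)
    refine ⟨hN L θ hθ d hd.sf.ne_zero h1, ?_⟩
    obtain ⟨q, hq, -⟩ := (hH L θ hθ d hd).1 1 ((h4 1).1 (selC_one θ d)).1
    obtain ⟨β, -, -, b3, b4, b5, -⟩ := core hX hO hP hK hA hL hC hS hF hθ hq fun x hx _ => h1 x hx
    exact (jac hd).resolve_right fun e => b3 (h1 β (b4 (b5 e).2))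

end Pool.Agent.Lib.MP_d6ddbd_nt.K11
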