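import Pool.Agent.Lib.MP_d6ddbd_nt.K11.StG

/-!
Models with good or multiplicative reduction of a curve with a given invariant.
-/

set_option autoImplicit false

open WeierstrassCurve Polynomial
open Pool.Agent.Lib.MP_02f36d_nt

noncomputable section

namespace Pool.Agent.Lib.MP_d6ddbd_nt.K11

namespace Model

theorem root1 {j : ℂ} (h : IsAlgebraic ℚ j) :
    ∃ a : ℂ, IsAlgebraic ℚ a ∧ a ^ 3 * (a ^ 3 - 24) ^ 3 = j * (a ^ 3 - 27) := by
  have : IsAlgClosed (algebraicClosure ℚ ℂ) :=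
    (algebraicClosure.isAlgClosure ℚ ℂ).isAlgClosed
  let j' : algebraicClosure ℚ ℂ := ⟨j, mem_algebraicClosure_iff.2 h⟩
  obtain ⟨a, ha⟩ := IsAlgClosed.exists_root
    (X ^ 3 * (X ^ 3 - 24) ^ 3 - C j' * (X ^ 3 - 27) : (algebraicClosure ℚ ℂ)[X]) (by
      have : (X ^ 3 * (X ^ 3 - 24) ^ 3 - C j' * (X ^ 3 - 27) :
          (algebraicClosure ℚ ℂ)[X]).degree = 12 := by compute_degree!
      rw [this]; decide)
  refine ⟨a, mem_algebraicClosure_iff.1 a.2, ?_⟩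
  have := congrArg (algebraMap (algebraicClosure ℚ ℂ) ℂ) ha
  simp only [eval_sub, eval_mul, eval_pow, eval_X, eval_C, eval_ofNat, map_sub, map_mul, map_pow,
    map_ofNat,
    map_zero] at this
  exact sub_eq_zero.1 this

theorem root2 {j : ℂ} (h : IsAlgebraic ℚ j) :
    ∃ a : ℂ, IsAlgebraic ℚ a ∧ 256 * (a ^ 2 - a + 1) ^ 3 = j * (a ^ 2 * (a - 1) ^ 2) := by
  have : IsAlgClosed (algebraicClosure ℚ ℂ) :=
    (algebraicClosure.isAlgClosure ℚ ℂ).isAlgClosed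
  let j' : algebraicClosure ℚ ℂ := ⟨j / 256, mem_algebraicClosure_iff.2 (h.mul (by
    simpa using (isAlgebraic_algebraMap (A := ℂ) (256 : ℚ)).inv))⟩
  obtain ⟨a, ha⟩ := IsAlgClosed.exists_root
    ((X ^ 2 - X + 1) ^ 3 - C j' * (X ^ 2 * (X - 1) ^ 2) : (algebraicClosure ℚ ℂ)[X]) (by
      have : ((X ^ 2 - X + 1) ^ 3 - C j' * (X ^ 2 * (X - 1) ^ 2) :
          (algebraicClosure ℚ ℂ)[X]).degree = 6 := by compute_degree!
      rw [this]; decide)
  refine ⟨a, mem_algebraicClosure_iff.1 a.2, ?_⟩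
  have := congrArg (algebraMap (algebraicClosure ℚ ℂ) ℂ) ha
  simp only [eval_sub, eval_mul, eval_pow, eval_X, eval_C, eval_add, eval_one, map_sub, map_mul,
    map_pow, map_add, map_one, map_zero] at this
  change ((a : ℂ) ^ 2 - a + 1) ^ 3 - j / 256 * (a ^ 2 * (a - 1) ^ 2) = 0 at this
  linear_combination 256 * this

section
variable {R : Type} [CommRing R]

theorem deu_Δ (a : R) : (⟨a, 0, 1, 0, 0⟩ : WeierstrassCurve R).Δ = a ^ 3 - 27 := by
  simp only [Δ, b₂, b₄, b₆, b₈]; ring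

theorem deu_c (a : R) : (⟨a, 0, 1, 0, 0⟩ : WeierstrassCurve R).c₄ = a * (a ^ 3 - 24) := by
  simp only [c₄, b₂, b₄]; ring

theorem leg_Δ (a : R) :
    (⟨0, -(1 + a), 0, a, 0⟩ : WeierstrassCurve R).Δ = 16 * (a ^ 2 * (a - 1) ^ 2) := by
  simp only [Δ, b₂, b₄, b₆, b₈]; ring

theorem leg_c (a : R) :
    (⟨0, -(1 + a), 0, a, 0⟩ : WeierstrassCurve R).c₄ = 16 * (a ^ 2 - a + 1) := by
  simp only [c₄, b₂, b₄]; ring

theorem nod_Δ (t : R) :
    (⟨1, 0, 0, -36 * t, -t⟩ : WeierstrassCurve R).Δ = t * (1 + 1728 * t) ^ 2 := by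
  simp only [Δ, b₂, b₄, b₆, b₈]; ring

theorem nod_c (t : R) : (⟨1, 0, 0, -36 * t, -t⟩ : WeierstrassCurve R).c₄ = 1 + 1728 * t := by
  simp only [c₄, b₂, b₄]; ring

end

variable {k : Type} [Field k] {p : Place ℂ k} {j : ℂ}

/-- The conclusion in the case of good reduction. -/
def Good (p : Place ℂ k) (j : ℂ) : Prop :=
  ∃ (W : Affine ℂ) (U : Affine k), AlgW W ∧ W.c₄ ^ 3 = j * W.Δ ∧ SpW p W U ∧ U.Δ ≠ 0

theorem deuring (h : IsAlgebraic ℚ j) (hj : j ∈ p.A) (h3 : (3 : k) ≠ 0) : Good p j := by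
  obtain ⟨a, ha, e⟩ := root1 h
  have sj := sp_of_mem hj
  have ma : a ∈ p.A := by
    by_contra h0
    have a0 : a ≠ 0 := fun e => h0 (e ▸ zero_mem _)
    have t := sp_inv_of_notMem h0
    have := ((sp_one.sub ((sp_ofNat 24).mul (t.pow 3))).pow 3).eq
      (sj.mul ((t.pow 9).sub ((sp_ofNat 27).mul (t.pow 12)))) (by
        field_simp
        linear_combination e)
    simp at this
  have sa := sp_of_mem ma
  refine ⟨⟨a, 0, 1, 0, 0⟩, ⟨_, 0, 1, 0, 0⟩,
    ⟨ha, isAlgebraic_zero, isAlgebraic_one, isAlgebraic_zero, isAlgebraic_zero⟩, ?_,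
    ⟨sa, sp_zero, sp_one, sp_zero, sp_zero⟩, fun h0 => ?_⟩
  · rw [deu_Δ, deu_c, mul_pow, e]
  · rw [deu_Δ] at h0
    have := ((sa.pow 3).mul (((sa.pow 3).sub (sp_ofNat 24)).pow 3)).eq
      (sj.mul ((sa.pow 3).sub (sp_ofNat 27))) e
    rw [h0, sub_eq_zero.1 h0, mul_zero] at this
    exact pow_ne_zero 6 h3 (by linear_combination this)

theorem legendre (h : IsAlgebraic ℚ j) (hj : j ∈ p.A) (h2 : (2 : k) ≠ 0) : Good p j := by
  obtain ⟨a, ha, e⟩ := root2 h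
  have sj := sp_of_mem hj
  have ma : a ∈ p.A := by
    by_contra h0
    have a0 : a ≠ 0 := fun e => h0 (e ▸ zero_mem _)
    have t := sp_inv_of_notMem h0
    have := ((sp_ofNat 256).mul (((sp_one.sub t).add (t.pow 2)).pow 3)).eq
      (sj.mul ((t.pow 2).mul ((sp_one.sub t).pow 2))) (by
        field_simp
        linear_combination e)
    exact pow_ne_zero 8 h2 (by linear_combination this)
  have sa := sp_of_mem ma
  refine ⟨⟨0, -(1 + a), 0, a, 0⟩, ⟨0, -(1 + _), 0, _, 0⟩,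
    ⟨isAlgebraic_zero, (isAlgebraic_one.add ha).neg, isAlgebraic_zero, ha, isAlgebraic_zero⟩, ?_,
    ⟨sp_zero, (sp_one.add sa).neg, sp_zero, sa, sp_zero⟩, fun h0 => ?_⟩
  · rw [leg_Δ, leg_c]
    linear_combination 16 * e
  · rw [leg_Δ] at h0
    have h1 := (mul_eq_zero.1 h0).resolve_left fun h16 =>
      pow_ne_zero 4 h2 (by linear_combination h16)
    have := ((sp_ofNat 256).mul ((((sa.pow 2).sub sa).add sp_one).pow 3)).eq
      (sj.mul ((sa.pow 2).mul ((sa.sub sp_one).pow 2))) e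
    rw [h1, mul_zero] at this
    rw [← mul_pow, pow_eq_zero_iff two_ne_zero] at h1
    generalize p.ρ ⟨a, ma⟩ = x at this h1
    have e1 : x ^ 2 - x + 1 = 1 := by linear_combination h1
    rw [e1] at this
    exact pow_ne_zero 8 h2 (by linear_combination this)

end Model

open Model in
theorem model_thm : ModelStmt := by
  intro k _ p j h
  by_cases hj : j ∈ p.A
  · have : Good p j := by
      by_cases h2 : (2 : k) = 0
      · exact deuring h hj fun h3 => one_ne_zero (α := k) (by linear_combination h3 - h2)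
      · exact legendre h hj h2
    obtain ⟨W, U, h1, h2, h3, h4⟩ := this
    have h5 := h3.Δ.ne_zero h4
    have h6 : W.c₄ ^ 3 / W.Δ = j := by rw [h2, mul_div_cancel_right₀ _ h5]
    exact ⟨W, U, h1, h5, h6, h3, fun _ => ⟨h4, h6 ▸ (h3.c₄.pow 3).div h3.Δ h4⟩,
      fun h => (h hj).elim⟩
  · have m : (1728 : ℂ) ∈ p.A := (sp_ofNat (p := p) 1728).mem
    have h1 : j - 1728 ∉ p.A := fun e => hj (by simpa using add_mem e m)
    have h2 : j - 1728 ≠ 0 := fun e => h1 (e ▸ zero_mem _)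
    have h3 : j ≠ 0 := fun e => hj (e ▸ zero_mem _)
    have t := sp_inv_of_notMem h1
    have a : IsAlgebraic ℚ (j - 1728)⁻¹ :=
      (h.sub (by simpa using isAlgebraic_algebraMap (A := ℂ) (1728 : ℚ))).inv
    have e : 1 + 1728 * (j - 1728)⁻¹ = j / (j - 1728) := by field_simp; ring
    refine ⟨⟨1, 0, 0, -36 * (j - 1728)⁻¹, -(j - 1728)⁻¹⟩, ⟨1, 0, 0, -36 * 0, -0⟩,
      ⟨isAlgebraic_one, isAlgebraic_zero, isAlgebraic_zero,
        IsAlgebraic.mul (by simpa using isAlgebraic_algebraMap (A := ℂ) (-36 : ℚ)) a, a.neg⟩,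
      ?_, ?_, ⟨sp_one, sp_zero, sp_zero, (sp_ofNat 36).neg.mul t, t.neg⟩,
      fun h => (hj h).elim, fun _ => ⟨?_, ?_⟩⟩
    · rw [nod_Δ, e]
      exact mul_ne_zero (inv_ne_zero h2) (pow_ne_zero _ (div_ne_zero h3 h2))
    · rw [nod_Δ, nod_c, e]
      field_simp
    · rw [nod_Δ, zero_mul]
    · rw [nod_c, mul_zero, add_zero]
      exact one_ne_zero

end Pool.Agent.Lib.MP_d6ddbd_nt.K11
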