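import Pool.Agent.Lib.MP_d6ddbd_nt.K11.Stmt

/-! Descent: a trivial Selmer group forces finitely many rational points. -/

set_option autoImplicit false

open NumberField Height
open Pool.Agent.Stark (Pr LSq emb)

noncomputable section

namespace Pool.Agent.Lib.MP_d6ddbd_nt.K11

namespace No

/-- An injective self map that contracts heights forces finiteness. -/
theorem fin_of_inj {U : Set ℚ} {C : ℝ} (s : ℚ → ℚ) (hs : Set.MapsTo s U U) (hi : Set.InjOn s U)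
    (hh : ∀ u ∈ U, C + 4 * logHeight₁ (s u) ≤ logHeight₁ u) : U.Finite := by
  let B : ℕ → Set ℚ := fun k => {u ∈ U | logHeight₁ u ≤ |C| + 1 + k}
  have hB : ∀ k, (B k).Finite := fun k =>
    (Northcott.finite_le (h := (logHeight₁ : ℚ → ℝ)) (|C| + 1 + k)).subset fun u hu => hu.2
  have h1 : ∀ k, B (k + 1) = B k := by
    intro k
    symm
    refine Set.eq_of_subset_of_ncard_le (fun u hu => ⟨hu.1, ?_⟩) ?_ (hB _)
    · have := hu.2
      push_cast; linarith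
    · refine Set.ncard_le_ncard_of_injOn s (fun u hu => ⟨hs hu.1, ?_⟩)
        (hi.mono fun u hu => hu.1) (hB _)
      have a1 := hu.2
      have a2 := hh u hu.1
      have a3 := neg_abs_le C
      have a4 := abs_nonneg C
      have a5 : (0 : ℝ) ≤ k := Nat.cast_nonneg k
      push_cast at a1
      linarith
  have h2 : ∀ k, B k = B 0 := by
    intro k
    induction k with
    | zero => rfl
    | succ k ih => rw [h1, ih]
  refine (hB 0).subset fun u hu => ?_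
  obtain ⟨k, hk⟩ := exists_nat_ge (logHeight₁ u)
  rw [← h2 k]
  exact ⟨hu, by linarith [abs_nonneg C]⟩

/-- The first coordinate of the double. -/
def dl (x : ℚ) : ℚ := (x ^ 4 + 320 * x ^ 2 + 10112 * x + 5376) / (4 * fc x)

open MvPolynomial in
/-- A binary cubic form. -/
def cub (a b c e : ℚ) : MvPolynomial (Fin 2) ℚ :=
  C a * X 1 ^ 3 + C b * (X 0 * X 1 ^ 2) + C c * (X 0 ^ 2 * X 1) + C e * X 0 ^ 3

open MvPolynomial in
theorem cub_hom (a b c e : ℚ) : (cub a b c e).IsHomogeneous 3 :=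
  ((((isHomogeneous_X_pow _ 3).C_mul _).add
    (((isHomogeneous_X _ _).mul (isHomogeneous_X_pow _ 2)).C_mul _)).add
    (((isHomogeneous_X_pow _ 2).mul (isHomogeneous_X _ _)).C_mul _)).add
    ((isHomogeneous_X_pow _ 3).C_mul _)

open MvPolynomial in
theorem ht_dl : ∃ C : ℝ, ∀ x : ℚ, C + 4 * logHeight₁ x ≤ logHeight₁ (dl x) := by
  let q : Fin 2 × Fin 2 → MvPolynomial (Fin 2) ℚ := fun ij =>
    !![cub (-176585856 / 161051) (-20461696 / 161051) (-346000 / 161051) 1,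
        cub (-187762176 / 161051) (-351161088 / 161051) (-7422656 / 161051) (86500 / 161051);
      cub (-41 / 2576816) (-1 / 5153632) (3 / 41229056) 0,
        cub (-2213 / 10307264) (-25 / 5153632) (-1 / 41229056) (-3 / 164916224)] ij.1 ij.2
  have hq : ∀ ij, (q ij).IsHomogeneous 3 := by
    rintro ⟨i, j⟩
    fin_cases i <;> fin_cases j <;> exact cub_hom _ _ _ _
  obtain ⟨C0, h⟩ := logHeight_eval_ge' (N := 4) hq
  refine ⟨C0, fun x => ?_⟩
  have := h ![C (x ^ 4 + 320 * x ^ 2 + 10112 * x + 5376), C (4 * fc x)] (x := ![x, 1]) (by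
    intro k
    fin_cases k <;> simp [q, cub, fc, Fin.sum_univ_two] <;> ring)
  rw [logHeight₁_eq_logHeight, dl, logHeight₁_div_eq_logHeight]
  have e : (fun j => eval ![x, 1] (![C (x ^ 4 + 320 * x ^ 2 + 10112 * x + 5376),
      C (4 * fc x)] j)) = ![x ^ 4 + 320 * x ^ 2 + 10112 * x + 5376, 4 * fc x] := by
    ext j
    fin_cases j <;> exact eval_C _
  rw [e] at this
  exact_mod_cast this

variable {L : Type} [Field L] [NumberField L] {θ : L}

theorem indep (hθ : Cub θ) (h : ∀ α : L, ∃ a b c : ℚ, α = a + b * θ + c * θ ^ 2) {a b c : ℚ}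
    (e : (a : L) + b * θ + c * θ ^ 2 = 0) : a = 0 ∧ b = 0 ∧ c = 0 := by
  have h1 : LinearIndependent ℚ ![1, θ, θ ^ 2] :=
    linearIndependent_of_top_le_span_of_card_eq_finrank (fun α _ => by
      obtain ⟨a, b, c, rfl⟩ := h α
      refine (Submodule.mem_span_range_iff_exists_fun ℚ).2 ⟨![a, b, c], ?_⟩
      simp [Fin.sum_univ_three, Algebra.smul_def]) (by rw [hθ.rk]; rfl)
  have h2 := Fintype.linearIndependent_iff.1 h1 ![a, b, c] (by
    simpa [Fin.sum_univ_three, Algebra.smul_def] using e)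
  exact ⟨h2 0, h2 1, h2 2⟩

theorem half (hθ : Cub θ) (h : ∀ α : L, ∃ a b c : ℚ, α = a + b * θ + c * θ ^ 2)
    (h0 : ∀ x : ℚ, fc x ≠ 0) {d x : ℚ} (hd : d ≠ 0) (hs : IsSquare ((d : L) * ((x : L) - θ))) :
    ∃ u v : ℚ, d * v ^ 2 = fc u ∧ dl u = x := by
  obtain ⟨β, hβ⟩ := hs
  obtain ⟨A, B, C, rfl⟩ := h β
  have t := hθ.eq
  have hC : C ≠ 0 := by
    rintro rfl
    obtain ⟨-, e1, e2⟩ := indep hθ h (a := A ^ 2 - d * x) (b := 2 * A * B + d) (c := B ^ 2) (by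
      push_cast at hβ ⊢
      linear_combination -hβ)
    rw [pow_eq_zero_iff two_ne_zero] at e2
    exact hd (by rw [← e1, e2]; ring)
  obtain ⟨u, rfl⟩ : ∃ u : ℚ, B = C * (u - 4) := ⟨B / C + 4, by field_simp; ring⟩
  obtain ⟨m, hm⟩ : ∃ m : ℚ, m = A - u * (C * (u - 4)) + 160 * C := ⟨_, rfl⟩
  obtain ⟨n, hn⟩ : ∃ n : ℚ, n = 1264 * C - u * A := ⟨_, rfl⟩
  have e0 : ((A : L) + (C * (u - 4) : ℚ) * θ + C * θ ^ 2) * (θ - u) = m * θ + n := by
    rw [hm, hn]
    push_cast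
    linear_combination (C : L) * t
  obtain ⟨e1, e2, e3⟩ := indep hθ h (a := n ^ 2 - d * x * u ^ 2 + 1264 * d)
    (b := 2 * m * n + d * (u ^ 2 + 2 * x * u) + 160 * d) (c := m ^ 2 - d * (x + 2 * u) + 4 * d) (by
      have e4 : (d : L) * (x - θ) * (θ - u) ^ 2 = (m * θ + n) ^ 2 := by
        rw [hβ, ← e0]
        ring
      push_cast
      linear_combination -e4 - (d : L) * t)
  have e5 : d * fc u = (m * u + n) ^ 2 := by
    rw [fc]
    linear_combination -e1 - u * e2 - u ^ 2 * e3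
  have e6 : d * fd u = 2 * m * (m * u + n) := by
    rw [fd]
    linear_combination -e2 - 2 * u * e3
  refine ⟨u, (m * u + n) / d, ?_, ?_⟩
  · field_simp
    linear_combination -e5
  · have e7 : d * fd u ^ 2 = 4 * m ^ 2 * fc u := mul_left_cancel₀ hd (by
      linear_combination (d * fd u + 2 * m * (m * u + n)) * e6 - 4 * m ^ 2 * e5)
    rw [dl, div_eq_iff (mul_ne_zero four_ne_zero (h0 u))]
    refine mul_left_cancel₀ hd ?_
    rw [fd] at e7
    have e8 : fc u = u ^ 3 - 4 * u ^ 2 - 160 * u - 1264 := rfl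
    linear_combination e7 + 4 * fc u * e3 + d * (8 * u - 16) * e8

end No

open No in
theorem no_thm (hPr : PrStmt) : NoStmt := by
  intro L _ _ θ hθ d hd hS
  obtain ⟨-, -, -, -, -, h1, h2, -⟩ := hPr L θ hθ
  have hd' : (d : ℚ) ≠ 0 := Int.cast_ne_zero.2 hd
  have h0 : ∀ x : ℚ, fc x ≠ 0 := fun x => by
    rw [← (h1 x).2]
    exact Algebra.norm_ne_zero_iff.2 (sub_ne_zero.2 (h1 x).1)
  let U : Set ℚ := {x | ∃ y : ℚ, (d : ℚ) * y ^ 2 = fc x}
  have key : ∀ x ∈ U, ∃ u ∈ U, dl u = x := by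
    rintro x ⟨y, hy⟩
    have n : (((d : ℚ) : L) * ((x : L) - θ)) ≠ 0 :=
      mul_ne_zero (by exact_mod_cast hd) (sub_ne_zero.2 (h1 x).1)
    have e : (((d * x : ℚ) : L) - d * ((1 : ℚ) : L) ^ 2 * θ) = ((d : ℚ) : L) * ((x : L) - θ) := by
      push_cast
      ring
    have e0 : IsSquare (Algebra.norm ℚ (((d : ℚ) : L) * ((x : L) - θ))) := ⟨d ^ 2 * y, by
      rw [map_mul, (h1 x).2, ← hy, show ((d : ℚ) : L) = algebraMap ℚ L d from rfl,
        Algebra.norm_algebraMap, hθ.rk]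
      ring⟩
    obtain ⟨u, v, e1, e2⟩ := half hθ h2 h0 hd' (hS _ ⟨n, e0, fun p _ =>
      ⟨d * x, 1, e ▸ n, fun 𝔭 _ => ⟨emb 𝔭 (((d : ℚ) : L) * ((x : L) - θ)), by rw [e, map_mul]⟩⟩⟩)
    exact ⟨u, ⟨v, e1⟩, e2⟩
  choose! s hs using key
  obtain ⟨C, hC⟩ := ht_dl
  have hU : U.Finite := fin_of_inj (C := C) s (fun u hu => (hs u hu).1)
    (fun u hu v hv e => by rw [← (hs u hu).2, e, (hs v hv).2])
    (fun u hu => by have := hC (s u); rwa [(hs u hu).2] at this)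
  have hY : ∀ x : ℚ, {P : ℚ × ℚ | P ∈ Tw d ∧ P.1 = x}.Finite := by
    intro x
    rcases Set.eq_empty_or_nonempty {P : ℚ × ℚ | P ∈ Tw d ∧ P.1 = x} with
      h | ⟨⟨x', y⟩, hy, rfl⟩
    · rw [h]; exact Set.finite_empty
    · refine (Set.toFinite {(x', y), (x', -y)}).subset ?_
      rintro ⟨_, z⟩ ⟨hz, rfl⟩
      have h1 : (d : ℚ) * z ^ 2 = d * y ^ 2 := hz.trans (Eq.symm hy)
      rcases sq_eq_sq_iff_eq_or_eq_neg.1 (mul_left_cancel₀ hd' h1) with rfl | rfl <;> simp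
  refine (hU.biUnion fun x _ => hY x).subset ?_
  rintro ⟨x, y⟩ hx
  simp only [Set.mem_iUnion]
  exact ⟨x, ⟨y, hx⟩, hx, rfl⟩

end Pool.Agent.Lib.MP_d6ddbd_nt.K11
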