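import Pool.Agent.Lib.MP_d6ddbd_nt.K11.StP

/-!
The Heegner system.
-/

set_option autoImplicit false

noncomputable section

namespace Pool.Agent.Lib.MP_d6ddbd_nt.K11

namespace PAsm

open Classical

theorem odd_val {u : ℤ} (hu : Odd u) {i K : ℕ} (hi : i ≤ K) (x : ZMod (2 ^ K)) :
    2 ^ i ∣ (u * x).val ↔ 2 ^ i ∣ x.val := by
  have a : ∀ y : ZMod (2 ^ K), 2 ^ i ∣ y.val ↔
      ZMod.castHom (pow_dvd_pow 2 hi) (ZMod (2 ^ i)) y = 0 := fun y => by
    rw [ZMod.castHom_apply, ZMod.cast_eq_val, ZMod.natCast_eq_zero_iff]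
  have b : IsUnit (u : ZMod (2 ^ i)) := (ZMod.coe_int_isUnit_iff_isCoprime _ _).2 (by
    push_cast
    exact (Int.isCoprime_two_left.2 hu).pow_left)
  rw [a, a, map_mul, map_intCast, b.mul_right_eq_zero]

theorem sub {k : ℕ → ℕ} {l : ℕ} (h : k l = 0) (x y : ZMod (2 ^ k l)) : x = y := by
  revert x y
  rw [h]
  exact fun x y => Subsingleton.elim (α := ZMod 1) x y

section

variable {M : Type} [AddCommGroup M] (m a : ℤ) (t u v : M)

theorem z1 : m • 5 • a • t = a • m • 5 • t := by module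

theorem z2 : m • 5 • (a • t - u - v) = a • m • 5 • t - m • 5 • u - m • 5 • v := by module

theorem z3 (h : 5 • t = 0) : m • 5 • (t - u) = -(m • (5 • u : M)) := by
  rw [smul_sub 5, h, zero_sub, smul_neg]

theorem z4 {ι : Type} (s : Finset ι) (f : ι → ℤ) : (∑ i ∈ s, f i) • t = ∑ i ∈ s, f i • t :=
  Finset.sum_smul

theorem z5 : m • 5 • t - m • 5 • u = m • 5 • (t - u) := by module

end

theorem sm (σ : G) (m : ℤ) (z : Pt) : σ • m • 5 • z = m • 5 • σ • z :=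
  (map_zsmul (DistribSMul.toAddMonoidHom Pt σ) m _).trans
    (congrArg _ (map_nsmul (DistribSMul.toAddMonoidHom Pt σ) 5 z))

variable {q : ℕ} [Fact (q % 4 = 3)] {k : ℕ → ℕ} (g : ∀ l, Pic q l → ZMod (2 ^ k l))
  (s : ∀ n, Finset (Pic q n)) (P : ∀ n, Pic q n → Pt)

/-- The coordinates of a class. -/
def gv {n : ℕ} (x : Pic q n) : A k := fun l => g l (res l x)

/-- The weighted sum of the points of conductor `n`. -/
def T (n : ℕ) : (A k → ℤ) →+ Pt :=
  AddMonoidHom.mk' (fun Φ => ∑ x ∈ s n, Φ (gv g x) • P n x) fun _ _ => by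
    simp only [Pi.add_apply, add_zsmul, Finset.sum_add_distrib]

theorem T_eq (n : ℕ) (Φ : A k → ℤ) : T g s P n Φ = ∑ x ∈ s n, Φ (gv g x) • P n x := rfl

variable {g s P} (hg : ∀ l x y, g l (x * y) = g l x + g l y) {n : ℕ} (hs : ∀ x, x ∈ s n)
  {c : Finset ℕ} {Φ : A k → ℤ}

include hg

theorem g_inv (l : ℕ) (x : Pic q l) : g l x⁻¹ = -g l x := by
  have a : g l 1 = 0 := by simpa using hg l 1 1
  rw [eq_neg_iff_add_eq_zero, ← hg, inv_mul_cancel, a]

include hs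

theorem shift (hΦ : Dep c Φ) (u : Pic q n) (w : A k) (h : ∀ l ∈ c, gv g u l = w l) :
    ∑ x ∈ s n, Φ (gv g x) • P n (u * x) = T g s P n fun z => Φ (z - w) :=
  Finset.sum_equiv (Equiv.mulLeft u) (by simp [hs]) fun x _ => congrArg (· • _)
    (hΦ _ _ fun l hl => by simp [gv, ← h l hl, hg])

theorem flip (hΦ : Dep c Φ) (u : Pic q n) (w : A k) (h : ∀ l ∈ c, gv g u l = w l) :
    ∑ x ∈ s n, Φ (gv g x) • P n (u * x⁻¹) = T g s P n fun z => Φ (w - z) :=
  Finset.sum_equiv ((Equiv.inv _).trans (Equiv.mulLeft u)) (by simp [hs]) fun x _ =>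
    congrArg (· • _) (hΦ _ _ fun l hl => by simp [gv, ← h l hl, hg, g_inv hg])

omit hg in
theorem fib (m : ℕ) (f : Pic q m → Pt) :
    ∑ y ∈ s m, f y = ∑ x ∈ s n, ∑ y ∈ (s m).filter fun y => res n y = x, f y :=
  (Finset.sum_fiberwise_of_maps_to (fun _ _ => hs _) f).symm

omit hg in
theorem push (hΦ : Dep c Φ) (hc : ∀ l ∈ c, l ∣ n) (l : ℕ) : T g s P (l * n) Φ =
    ∑ x ∈ s n, Φ (gv g x) • ∑ y ∈ (s (l * n)).filter fun y => res n y = x, P _ y := by
  rw [T_eq, fib hs]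
  refine Finset.sum_congr rfl fun x _ => ?_
  rw [Finset.smul_sum]
  refine Finset.sum_congr rfl fun y hy => congrArg (· • _) (hΦ _ _ fun l' hl => ?_)
  rw [← (Finset.mem_filter.1 hy).2, gv, gv, res_res (dvd_mul_left n l) (hc l' hl)]

omit hg hs in
theorem cnt {p m : ℕ} (hs' : ∀ y, y ∈ s (p * n)) (hΦ : Dep (insert p c) Φ) (hc : ∀ l ∈ c, l ∣ n)
    (hp : p ∉ c) (x : Pic q n) (h : ∀ a,
      Nat.card {y : Pic q (p * n) // res n y = x ∧ g p (res p y) = a} = m) :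
    ∑ y ∈ (s (p * n)).filter fun y => res n y = x, Φ (gv g y) =
      m * ∑ a, Φ (Function.update (gv g x) p a) := by
  rw [← Finset.sum_fiberwise_of_maps_to (t := Finset.univ) (g := fun y => g p (res p y))
    (fun _ _ => Finset.mem_univ _), Finset.mul_sum]
  refine Finset.sum_congr rfl fun a _ => ?_
  rw [← h a, Nat.subtype_card (((s (p * n)).filter fun y => res n y = x).filter
    fun y => g p (res p y) = a) (by simp [hs']), ← nsmul_eq_mul]
  refine Finset.sum_eq_card_nsmul fun y hy => hΦ _ _ fun l hl => ?_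
  simp only [Finset.mem_filter] at hy
  rcases Finset.mem_insert.1 hl with rfl | hl
  · rw [Function.update_self, gv, hy.2]
  · rw [Function.update_of_ne (ne_of_mem_of_not_mem hl hp), ← hy.1.2, gv, gv,
      res_res (dvd_mul_left n p) (hc l hl)]

end PAsm

open PAsm Classical in
theorem p_thm (hR : RStmt) (hPic : PicStmt) (hKer : KerStmt) (hCo : CoStmt) (hFib : FibStmt)
    (hGal : GalStmt) (hHk : HkStmt) (hPLoc : PLocStmt) (hBase : BaseStmt) : PStmt := by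
  intro Pp a t0 hX q k hq hk
  have := Fact.mk hq.m4
  replace hPic := (hPic q hq.pr hq.big).2
  replace hKer := hKer q hq.pr hq.big
  have h11 : Nat.Prime 11 := by norm_num
  have q11 : 11 ≠ q := by have := hq.big; omega
  have rt := (hKer 1 one_ne_zero).2.2.2.2.1
  obtain ⟨b, hb⟩ := (rt 11 h11 (by norm_num)).1 hq.s11
  have hb' := ((hKer 1 one_ne_zero).2.2.2.2.2 11 b h11 q11 (by norm_num) hb).1
  choose! r hr using fun l h h' => (rt l h h').1
  have ex : ∀ l, ∃ (g : Pic q l → ZMod (2 ^ k l)) (dl : ℂ → ZMod (2 ^ k l)),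
      k l ≠ 0 → Co l (k l) g dl := fun l => by
    by_cases h : k l = 0
    · exact ⟨0, 0, fun z => (z h).elim⟩
    · obtain ⟨a1, a2, -, a4, a5, a6⟩ := hk l h
      exact (hCo q hq.pr hq.big l (k l) a1 a2 a4 h a5 a6).imp fun _ h => h.imp fun _ h _ => h
  choose g dl hC using ex
  have cs : ∀ {l} {x y : ZMod (2 ^ k l)}, (k l ≠ 0 → x = y) → x = y := fun {l x y} h =>
    (_root_.em (k l = 0)).elim (fun z => sub z x y) h
  have hg : ∀ l x y, g l (x * y) = g l x + g l y := fun l x y => cs fun h => (hC l h).g_mul x y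
  have pl := fun l (h : k l ≠ 0) =>
    hPLoc q hq.pr hq.big l (k l) _ _ (hk l h).1 (hk l h).2.1 (hk l h).2.2.2.1 h (hC l h)
  have ex : ∀ n, ∃ s : Finset (Pic q n), n ≠ 0 → ∀ x, x ∈ s := fun n => by
    by_cases h : n = 0
    · exact ⟨∅, fun z => (z h).elim⟩
    · have := (hPic n h).1
      exact ⟨Set.finite_univ.toFinset, fun _ x => by simp⟩
  choose s hs using ex
  have n0 : ∀ {c}, Cd k c → ∏ l ∈ c, l ≠ 0 := fun h =>
    Finset.prod_ne_zero_iff.2 fun l hl => (hk l (h l hl)).1.ne_zero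
  have nd : ∀ {c l}, Cd k c → l.Prime → l ∉ c → ¬ l ∣ ∏ l ∈ c, l := fun {c l} h hl hc z => by
    obtain ⟨l', a1, a2⟩ := (Prime.dvd_finsetProd_iff hl.prime _).1 z
    exact hc ((Nat.prime_dvd_prime_iff_eq hl (hk l' (h l' a1)).1).1 a2 ▸ a1)
  have n11 : ∀ {c}, Cd k c → ¬ 11 ∣ ∏ l ∈ c, l := fun h =>
    nd h h11 fun z => (hk 11 (h 11 z)).2.2.1 rfl
  have dv : ∀ c : Finset ℕ, ∀ l ∈ c, l ∣ ∏ l ∈ c, l := fun c l hl => Finset.dvd_prod_of_mem _ hl
  have gal := fun c (h : Cd k c) => hGal Pp a t0 hX q hq.pr hq.big b _ hb (n0 h) (n11 h)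
  have hk' := fun c l (h : Cd k c) (hl : k l ≠ 0) (hc : l ∉ c) x =>
    hHk Pp a t0 hX q hq.pr hq.big b _ l hb (n0 h) (n11 h) (hk l hl).1 (hk l hl).2.1
      (hk l hl).2.2.1 (hk l hl).2.2.2.1 (nd h (hk l hl).1 hc) x
      ((s (l * ∏ l ∈ c, l)).filter fun y => res _ y = x) fun y => by
        simp [hs _ (mul_ne_zero (hk l hl).1.ne_zero (n0 h))]
  refine ⟨fun c => T g s (fun _ x => 5 • hp Pp b x) (∏ l ∈ c, l), fun σ l => g l (ar q l σ),
    fun l => g l (lam q l 11 (1 - b)), fun v l => g l (lam q l v (r v)), fun c Φ h => ?_,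
    fun σ τ h h' => funext fun l => cs fun z => ?_, fun σ h => funext fun l => cs fun z => ?_,
    fun c Φ σ h hΦ hσ => ?_, fun c Φ h hΦ => ?_, fun c Φ l h hΦ hl hc sp => ?_,
    fun c Φ l h hΦ hl hc sp => ?_, fun c Φ p O φ h hΦ hl hc sp hO hφ => ?_,
    fun v O σ l h1 h2 h3 h4 h5 => cs fun z => (pl l z).1 v O σ h1 h5.symm h2 h3 h4,
    fun l O φ l' hl sp hO hφ ne => ?_, fun σ l s h hl => (pl l hl).2.1 σ s h,
    fun l hl => ((pl l hl).2.2 11 _ h11 (by norm_num) (hk l hl).2.2.1.symm q11 hb').1,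
    fun l p π i O hl sp hp sp' hi hπ hO => ?_, fun O hO => ?_, hX.es⟩
  · let H : AddSubgroup Pt := ⟨⟨⟨{P | AlgP P}, fun {x y} => hR.1.1.2.1 x y⟩, hR.1.1.1⟩,
      fun {x} => hR.1.1.2.2.1 x⟩
    exact H.sum_mem fun x _ => H.zsmul_mem (H.nsmul_mem (gal c h x).2.1 5) _
  · exact (congrArg _ (((hPic l (hk l z).1.ne_zero).2.2.2 σ h).2.1 τ h')).trans (hg l _ _)
  · exact (congrArg _ ((hPic l (hk l z).1.ne_zero).2.2.2 σ h).2.2.1).trans (g_inv hg l _)
  · rw [← shift hg (hs _ (n0 h)) hΦ (ar q _ σ) _ fun l hl =>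
      congrArg (g l) (((hPic _ (n0 h)).2.2.2 σ hσ).2.2.2 l (dv c l hl)), T_eq, Finset.smul_sum]
    exact Finset.sum_congr rfl fun x _ => by rw [sm, (gal c h x).2.2.1 σ hσ]
  · rw [← PAsm.flip hg (hs _ (n0 h)) hΦ (lam q _ 11 (1 - b)) _ fun l hl => congrArg (g l)
      (((hKer _ (n0 h)).2.2.2.2.2 11 _ h11 q11 (n11 h) hb').2.2.2.2.2.2 l (dv c l hl)).2, T_eq,
      Finset.smul_sum, ← Finset.sum_neg_distrib]
    exact Finset.sum_congr rfl fun x _ => by
      rw [sm, (gal c h x).2.2.2.1, z3 _ _ _ hX.five]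
  · rw [Finset.prod_insert hc, push (hs _ (n0 h)) hΦ (dv c), T_eq, Finset.smul_sum]
    exact Finset.sum_congr rfl fun x _ => by
      rw [← Finset.smul_sum, ((hk' c l h hl hc x).1 sp).1, z1]
  · have r1 := hr l (hk l hl).1 (hk l hl).2.1 sp
    have r2 : ∀ l' ∈ c, gv g (lam q (∏ l ∈ c, l) l (r l)) l' = g l' (lam q l' l (r l)) :=
      fun l' hl' => congrArg (g l') (((hKer _ (n0 h)).2.2.2.2.2 l _ (hk l hl).1 (hk l hl).2.2.2.1
        (nd h (hk l hl).1 hc) r1).2.2.2.2.2.2 l' (dv c l' hl')).2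
    have r3 := shift (P := fun _ x => 5 • hp Pp b x) hg (hs _ (n0 h)) hΦ (lam q _ l (r l))⁻¹
      (-fun l' => g l' (lam q l' l (r l))) fun l' hl' => by
        rw [Pi.neg_apply, ← r2 l' hl', gv, gv, map_inv, g_inv hg]
    simp only [sub_neg_eq_add] at r3
    rw [Finset.prod_insert hc, push (hs _ (n0 h)) hΦ (dv c), ← shift hg (hs _ (n0 h)) hΦ _ _ r2,
      ← r3, T_eq, Finset.smul_sum, ← Finset.sum_sub_distrib, ← Finset.sum_sub_distrib]
    exact Finset.sum_congr rfl fun x _ => by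
      rw [← Finset.smul_sum, (hk' c l h hl hc x).2 _ r1, z2]
  · rw [Finset.prod_insert hc, T_eq, T_eq, fib (hs _ (n0 h)), Finset.smul_sum,
      ← Finset.sum_sub_distrib]
    refine (E1 O).sum_mem fun x _ => ?_
    rw [← cnt (hs _ (mul_ne_zero (hk p hl).1.ne_zero (n0 h))) hΦ (dv c) hc x
      (hFib q hq.pr hq.big _ p _ _ _ (n0 h) (hk p hl).1 (hk p hl).2.1 (hk p hl).2.2.2.1
        (nd h (hk p hl).1 hc) sp ((hk p hl).2.2.2.2.2 sp) (hC p hl) x), sm, z4,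
      ← Finset.sum_sub_distrib]
    refine (E1 O).sum_mem fun y hy => ?_
    rw [z5]
    exact (E1 O).zsmul_mem ((E1 O).nsmul_mem (((hk' c p h hl hc x).1 sp).2 O φ hO hφ y hy) 5) _
  · by_cases z : k l' = 0
    · exact ⟨1, odd_one, sub z _ _⟩
    · exact ((pl l' z).2.2 l _ (hk l hl).1 (hk l hl).2.1 ne.symm (hk l hl).2.2.2.1
        (hr l (hk l hl).1 (hk l hl).2.1 sp)).2.1 O φ hO hφ
  · obtain ⟨c1, u, hu, e⟩ := ((pl p hp).2.2 l _ (hk l hl).1 (hk l hl).2.1 (fun z => sp' (z ▸ sp))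
      (hk l hl).2.2.2.1 (hr l (hk l hl).1 (hk l hl).2.1 sp)).2.2 π hπ
    rw [← (hC p hp).val π i O sp' c1 hi hO, ← odd_val hu hi (dl p π), ← e]
  · rw [Finset.prod_empty, T_eq]
    simpa only [one_zsmul] using hBase Pp a t0 hX q hq.pr hq.big b _ O hb (hs 1 one_ne_zero) hO

end Pool.Agent.Lib.MP_d6ddbd_nt.K11
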