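import Pool.Agent.Lib.MP_d6ddbd_nt.K11.Stmt
import Pool.Agent.Lib.MP_ca56d1_nt.Recip

/-! The projection formula for the Hilbert symbols of the cubic field. -/

set_option autoImplicit false

open NumberField IsDedekindDomain Polynomial
open Pool.Agent.Stark Pool.Agent.Stark.ComplAux

noncomputable section

namespace Pool.Agent.Lib.MP_d6ddbd_nt.K11

namespace PF

/-- A quadratic polynomial with integer coefficients. -/
def gq {R : Type*} [CommRing R] (a b c : ℤ) (t : R) : R := a + b * t + c * t ^ 2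

/-- The norm form. -/
def nf (a b c : ℤ) : ℤ :=
  a ^ 3 + 4 * a ^ 2 * b + 336 * a ^ 2 * c - 160 * a * b ^ 2 - 4432 * a * b * c + 15488 * a * c ^ 2 +
    1264 * b ^ 3 + 5056 * b ^ 2 * c - 202240 * b * c ^ 2 + 1597696 * c ^ 3

theorem gq_map {R S : Type*} [CommRing R] [CommRing S] (f : R →+* S) (a b c : ℤ) (t : R) :
    f (gq a b c t) = gq a b c (f t) := by simp [gq]

theorem fc_map {R S : Type*} [CommRing R] [CommRing S] (f : R →+* S) (t : R) :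
    f (fc t) = fc (f t) := by simp [fc, map_ofNat]

section

variable {K : Type*} [Field K]

/-- The relations between the roots and the coefficients. -/
def Vi (r s t : K) : Prop := r + s + t = 4 ∧ r * s + r * t + s * t = -160 ∧ r * s * t = 1264

theorem Vi.prod {r s t : K} (h : Vi r s t) (a b c : ℤ) :
    gq a b c r * gq a b c s * gq a b c t = nf a b c := by
  obtain ⟨h1, h2, h3⟩ := h
  have : gq a b c r * gq a b c s * gq a b c t = a ^ 3 + (r + s + t) * a ^ 2 * b +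
      ((r + s + t) ^ 2 - 2 * (r * s + r * t + s * t)) * a ^ 2 * c +
      (r * s + r * t + s * t) * a * b ^ 2 +
      ((r + s + t) * (r * s + r * t + s * t) - 3 * (r * s * t)) * a * b * c +
      ((r * s + r * t + s * t) ^ 2 - 2 * (r + s + t) * (r * s * t)) * a * c ^ 2 +
      r * s * t * b ^ 3 + (r + s + t) * (r * s * t) * b ^ 2 * c +
      (r * s + r * t + s * t) * (r * s * t) * b * c ^ 2 + (r * s * t) ^ 2 * c ^ 3 := by
    simp only [gq]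
    ring
  rw [this, h1, h2, h3, nf]
  push_cast
  ring

theorem vi {r s t : K} (hr : fc r = 0) (hs : fc s = 0) (ht : fc t = 0) (a : r ≠ s) (b : r ≠ t)
    (c : s ≠ t) : Vi r s t := by
  simp only [fc] at hr hs ht
  have e1 : r ^ 2 + r * s + s ^ 2 - 4 * (r + s) - 160 = 0 :=
    mul_left_cancel₀ (sub_ne_zero.2 a) (by linear_combination hr - hs)
  have e2 : r ^ 2 + r * t + t ^ 2 - 4 * (r + t) - 160 = 0 :=
    mul_left_cancel₀ (sub_ne_zero.2 b) (by linear_combination hr - ht)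
  have e3 : r + s + t = 4 := mul_left_cancel₀ (sub_ne_zero.2 c) (by linear_combination e1 - e2)
  exact ⟨e3, by linear_combination (r + s) * e3 - e1,
    by linear_combination hr + r * s * e3 - r * e1⟩

theorem three [IsAlgClosed K] {r : K} (hr : fc r = 0) : ∃ s t, Vi r s t := by
  obtain ⟨s, hs⟩ := IsAlgClosed.exists_root (X ^ 2 + C (r - 4) * X + C (r ^ 2 - 4 * r - 160) : K[X])
    (by rw [show Polynomial.degree _ = 2 by compute_degree!]; decide)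
  simp only [IsRoot, eval_add, eval_mul, eval_C, eval_pow, eval_X] at hs
  simp only [fc] at hr
  exact ⟨s, 4 - r - s, by ring, by linear_combination -hs, by linear_combination hr - r * hs⟩

theorem roots : ∃ r s t : ℂ, fc r = 0 ∧ fc s = 0 ∧ fc t = 0 ∧ r ≠ s ∧ r ≠ t ∧ s ≠ t := by
  obtain ⟨r, hr⟩ := IsAlgClosed.exists_root (X ^ 3 - C 4 * X ^ 2 - C 160 * X - C 1264 : ℂ[X])
    (by rw [show Polynomial.degree _ = 3 by compute_degree!]; decide)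
  simp only [IsRoot, eval_sub, eval_mul, eval_C, eval_pow, eval_X] at hr
  obtain ⟨s, t, h1, h2, h3⟩ := three (r := r) hr
  have k : ∀ x y : ℂ, 2 * x + y = 4 → x ^ 2 + 2 * x * y = -160 → x ^ 2 * y = 1264 → False :=
    fun x y a b c => by
      have p : 3 * x ^ 2 - 8 * x - 160 = 0 := by linear_combination 2 * x * a - b
      have u : 62 * x + 751 = 0 := by
        linear_combination (-9 / 16) * (x ^ 2 * a - x * b + c) + (3 * x - 4) / 16 * p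
      have : (1449459 : ℂ) = 0 := by linear_combination 3844 * p - (186 * x - 2749) * u
      norm_num at this
  refine ⟨r, s, t, hr, ?_, ?_, ?_, ?_, ?_⟩
  · rw [fc]; linear_combination s ^ 2 * h1 - s * h2 + h3
  · rw [fc]; linear_combination t ^ 2 * h1 - t * h2 + h3
  · rintro rfl
    exact k r t (by linear_combination h1) (by linear_combination h2) (by linear_combination h3)
  · rintro rfl
    exact k r s (by linear_combination h1) (by linear_combination h2) (by linear_combination h3)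
  · rintro rfl
    exact k s r (by linear_combination h1) (by linear_combination h2) (by linear_combination h3)

theorem close {w : Valuation K (WithZero (Multiplicative ℤ))} (H : IsLoc w) {x y : K} (hx : x ≠ 0)
    (h : y - x ∈ pw w (2 * ord w (2 : K) + 1 + ord w x)) : ∃ r, r ≠ 0 ∧ y = x * r ^ 2 := by
  have h1 : y / x - 1 ∈ pw w (2 * ord w (2 : K) + 1) := by
    rw [div_sub_one hx]
    exact LocAux.pw_div h le_rfl
  obtain ⟨r, hr⟩ := LocAux.hens H h1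
  refine ⟨r, ?_, by rw [sq, ← hr, mul_div_cancel₀ _ hx]⟩
  rintro rfl
  rw [hr, mul_zero, zero_sub] at h1
  have := LocAux.two_nonneg (w := w) (k := K)
  exact LocAux.one_not_mem (LocAux.anti (by omega) (neg_mem_iff.1 h1))

end

variable {L : Type} [Field L] [NumberField L]

theorem og_zero {𝔭 : Pr L} {a : 𝓞 L} (h : a ∉ 𝔭.asIdeal) : (a : L) ≠ 0 ∧ og 𝔭 (a : L) = 0 := by
  have a0 : a ≠ 0 := fun e => h (e ▸ zero_mem _)
  have := (og_pos_iff 𝔭 a0).not.2 h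
  have := og_nonneg 𝔭 a
  exact ⟨by simpa using a0, by omega⟩

theorem emb_int (𝔭 : Pr L) (a : 𝓞 L) : emb 𝔭 (a : L) ∈ pw (wv 𝔭) 1 ↔ a ∈ 𝔭.asIdeal := by
  rw [emb_mem_pw, ← pow_one 𝔭.asIdeal, ← int_mem_pw]
  rfl

theorem lsq_iff {𝔭 : Pr L} (h2 : og 𝔭 (2 : L) = 0) {a : 𝓞 L} (h : a ∉ 𝔭.asIdeal) :
    LSq 𝔭 (a : L) ↔ IsSquare (Ideal.Quotient.mk 𝔭.asIdeal a) := by
  classical
  have co : ∀ b : 𝓞 L, ((a - b * b : 𝓞 L) : L) = a - b * b := fun b => by simp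
  refine ⟨fun ⟨y, hy⟩ => ?_, fun ⟨b, hb⟩ => ?_⟩
  · have y0 : y ≠ 0 := by
      rintro rfl
      exact (og_zero h).1 (by simpa using hy)
    have y1 : y ∈ pw (wv 𝔭) 0 := by
      have := ord_mul (w := wv 𝔭) y0 y0
      rw [← hy, ord_emb, (og_zero h).2] at this
      exact mem_pw_zero.2 (by omega)
    obtain ⟨z, h1, h3⟩ := approx_strong {𝔭} (Pi.single 𝔭 y) 1
    have h1 := h1 𝔭 (Finset.mem_singleton_self _)
    rw [Pi.single_eq_same] at h1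
    have z1 : emb 𝔭 z ∈ pw (wv 𝔭) 0 := by
      simpa using add_mem (LocAux.anti zero_le_one h1) y1
    obtain ⟨b, rfl⟩ := exists_int_of_og (x := z) fun q => by
      by_cases e : q = 𝔭
      · rw [e, ← ord_emb]; exact mem_pw_zero.1 z1
      · exact h3 q (by simpa using e)
    refine ⟨Ideal.Quotient.mk _ b, ?_⟩
    rw [← map_mul, Ideal.Quotient.eq, ← emb_int, co, map_sub, map_mul, hy]
    convert neg_mem (LocAux.pw_mul h1 (add_mem z1 y1) (l := 1) le_rfl) using 1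
    ring
  · obtain ⟨b, rfl⟩ := Ideal.Quotient.mk_surjective b
    rw [← map_mul, Ideal.Quotient.eq] at hb
    have b0 := og_zero (a := b) fun e => h (by
      simpa using add_mem hb (𝔭.asIdeal.mul_mem_left b e))
    have b1 : emb 𝔭 (b : L) ≠ 0 := (_root_.map_ne_zero _).2 b0.1
    rw [← emb_int, co, map_sub, map_mul] at hb
    obtain ⟨r, -, e⟩ := close (isLoc_wv 𝔭) (mul_ne_zero b1 b1) (y := emb 𝔭 (a : L)) (by
      rwa [ord_mul b1 b1, ← map_ofNat (emb 𝔭) 2, ord_emb, ord_emb, h2, b0.2])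
    exact ⟨emb 𝔭 b * r, by rw [e]; ring⟩

theorem res {𝔭 : Pr L} (l : ℕ) [Fact l.Prime] (hl : l ≠ 2) (h : (l : 𝓞 L) ∈ 𝔭.asIdeal)
    (h2 : og 𝔭 (2 : L) = 0) : ∃ φ : 𝓞 L →+* AlgebraicClosure (ZMod l),
      (∀ x, φ x = 0 ↔ x ∈ 𝔭.asIdeal) ∧ (∀ x, φ x ^ nm 𝔭 = φ x) ∧
      ∀ a ∉ 𝔭.asIdeal, φ a ^ (nm 𝔭 / 2) = (-1) ^ (nsq 𝔭 (a : L)).val := by
  have := 𝔭.isMaximal
  let _ := Ideal.Quotient.field 𝔭.asIdeal
  have : Finite (𝓞 L ⧸ 𝔭.asIdeal) := Ideal.finiteQuotientOfFreeOfNeBot _ 𝔭.ne_bot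
  let _ := Fintype.ofFinite (𝓞 L ⧸ 𝔭.asIdeal)
  have : CharP (𝓞 L ⧸ 𝔭.asIdeal) l := (CharP.charP_iff_prime_eq_zero Fact.out).2 (by
    rw [← map_natCast (Ideal.Quotient.mk 𝔭.asIdeal), Ideal.Quotient.eq_zero_iff_mem]; exact h)
  let _ := ZMod.algebra (𝓞 L ⧸ 𝔭.asIdeal) l
  have : Module.Finite (ZMod l) (𝓞 L ⧸ 𝔭.asIdeal) := Module.Finite.of_finite
  let ψ : (𝓞 L ⧸ 𝔭.asIdeal) →ₐ[ZMod l] AlgebraicClosure (ZMod l) := IsAlgClosed.lift
  have c : nm 𝔭 = Fintype.card (𝓞 L ⧸ 𝔭.asIdeal) := by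
    rw [nm, Ideal.absNorm_apply, Submodule.cardQuot_apply, Nat.card_eq_fintype_card]
  have r : ringChar (𝓞 L ⧸ 𝔭.asIdeal) ≠ 2 := by rwa [ringChar.eq _ l]
  refine ⟨ψ.toRingHom.comp (Ideal.Quotient.mk _), fun x => ?_, fun x => ?_, fun a ha => ?_⟩
  · rw [RingHom.comp_apply, map_eq_zero, Ideal.Quotient.eq_zero_iff_mem]
  · rw [RingHom.comp_apply, ← map_pow, c, FiniteField.pow_card]
  have a0 := Ideal.Quotient.eq_zero_iff_mem.not.2 ha
  rw [RingHom.comp_apply, ← map_pow, c, nsq, lsq_iff h2 ha, FiniteField.isSquare_iff r a0]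
  split_ifs with e
  · simp [e]
  · rw [(FiniteField.pow_dichotomy r a0).resolve_left e]
    simp [ZMod.val_one]

theorem good (hPr : PrStmt) {θ : L} (hθ : Cub θ) {a b c n : ℤ} (hn : nf a b c = n ^ 2) {l : ℕ}
    (hl : l.Prime) (h2 : l ≠ 2) (h11 : l ≠ 11) (hd : ¬ (l : ℤ) ∣ n) :
    (∀ 𝔭 ∈ ab L l, og 𝔭 (gq a b c θ) = 0) ∧ ∑ 𝔭 ∈ ab L l, nsq 𝔭 (gq a b c θ) = 0 := by
  classical
  obtain ⟨-, -, h3, -, h5, h6, -⟩ := hPr L θ hθ
  obtain ⟨p1, p2, p3, p4, p5, p6⟩ := h3 l hl h2 h11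
  clear h3
  have := Fact.mk hl
  obtain ⟨ϑ, rfl⟩ := exists_int_of_og fun q => (h5 q).1
  have e0 : gq a b c (ϑ : L) = (gq a b c ϑ : 𝓞 L) := (gq_map (algebraMap (𝓞 L) L) a b c ϑ).symm
  have r0 : fc ϑ = 0 := (map_eq_zero_iff _ (RingOfIntegers.coe_injective (K := L))).1
    ((fc_map _ ϑ).trans hθ.eq)
  have n0 : (n : AlgebraicClosure (ZMod l)) ≠ 0 := (CharP.intCast_eq_zero_iff _ l n).not.2 hd
  have ex : ∀ 𝔭 ∈ ab L l, ∃ t : AlgebraicClosure (ZMod l), fc t = 0 ∧ t ^ nm 𝔭 = t ∧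
      (∀ x : ℤ, 0 < og 𝔭 ((x : L) - ϑ) ↔ t = x) ∧ og 𝔭 (gq a b c (ϑ : L)) = 0 ∧
      gq a b c t ^ (nm 𝔭 / 2) = (-1) ^ (nsq 𝔭 (gq a b c (ϑ : L))).val := fun 𝔭 h => by
    obtain ⟨φ, f1, f2, f3⟩ := res l h2 ((mem_ab' hl.ne_zero).1 h) (p1 𝔭 h).2.1
    have r1 : fc (φ ϑ) = 0 := by rw [← fc_map, r0, map_zero]
    have m0 : gq a b c ϑ ∉ 𝔭.asIdeal := fun e => by
      obtain ⟨s, t, v⟩ := three r1
      have := v.prod a b c
      rw [← gq_map, (f1 _).2 e, hn, zero_mul, zero_mul, Int.cast_pow] at this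
      exact pow_ne_zero 2 n0 this.symm
    refine ⟨φ ϑ, r1, f2 _, fun x => ?_, e0 ▸ (og_zero m0).2, by rw [← gq_map, f3 _ m0, e0]⟩
    have x0 : (x : 𝓞 L) - ϑ ≠ 0 := fun e => (h6 x).1 (by
      rw [← sub_eq_zero.1 e]; simp)
    rw [show (x : L) - ϑ = ((x - ϑ : 𝓞 L) : L) by simp, og_pos_iff _ x0, ← f1, map_sub,
      map_intCast, sub_eq_zero, eq_comm]
  choose! τ r1 f2 d0 m0 f3 using ex
  refine ⟨m0, ?_⟩
  have r2 : ∀ {t : AlgebraicClosure (ZMod l)}, fc t = 0 → fc (t ^ l) = 0 := fun h => by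
    rw [← frobenius_def, ← fc_map, h, map_zero]
  have g2 : ∀ t : AlgebraicClosure (ZMod l), gq a b c (t ^ l) = gq a b c t ^ l := fun t =>
    (gq_map (frobenius _ l) a b c t).symm
  have i2 : ∀ {s t : AlgebraicClosure (ZMod l)}, s ^ l = t ^ l → s = t := fun e =>
    (frobenius _ l).injective e
  have i3 : ∀ x : ℤ, (x : AlgebraicClosure (ZMod l)) ^ l = x := map_intCast (frobenius _ l)
  have d1 : ∀ 𝔭 ∈ ab L l, nm 𝔭 = l → τ 𝔭 = xr (ϑ : L) 𝔭 := fun 𝔭 h e =>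
    (d0 𝔭 h _).1 ((p1 𝔭 h).2.2.2.1.1 e)
  have d2 : ∀ 𝔭 ∈ ab L l, ∀ j, 1 < j → nm 𝔭 = l ^ j → τ 𝔭 ≠ τ 𝔭 ^ l := fun 𝔭 h j hj e z => by
    obtain ⟨x, hx⟩ := (mem_bot_iff_intCast l _).1 ((Subfield.mem_bot_iff_pow_eq_self _ l).2 z.symm)
    have := Classical.epsilon_spec (p := fun x : ℤ => (x : L) - ϑ ∈ pw (𝔭.valuation L) 1)
      ⟨x, LocAux.mem_of_le ((d0 𝔭 h x).2 hx.symm)⟩
    refine (Nat.pow_lt_pow_right hl.one_lt hj).ne' (e.symm.trans (Eq.trans ?_ (pow_one l).symm))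
    refine (p1 𝔭 h).2.2.2.1.2 ((mem_pw_iff.1 this).resolve_left fun z => ?_)
    exact (h6 (xr (ϑ : L) 𝔭)).1 ((Rat.cast_intCast _).trans (sub_eq_zero.1 z))
  have d3 : ∀ 𝔭 ∈ ab L l, ∀ 𝔮 ∈ ab L l, nm 𝔭 = l → 𝔮 ≠ 𝔭 → τ 𝔭 ≠ τ 𝔮 :=
    fun 𝔭 h 𝔮 h' e z y => (p2 𝔭 h 𝔮 h' e z).not_gt ((d0 𝔮 h' _).2 (y.symm.trans (d1 𝔭 h e)))
  obtain ⟨k, hk⟩ := hl.odd_of_ne_two h2
  have k1 : l / 2 = k := by omega
  have k2 : l ^ 2 / 2 = (1 + l) * k := by
    rw [show l ^ 2 = 2 * ((1 + l) * k) + 1 by rw [hk]; ring]; omega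
  have k3 : l ^ 3 / 2 = (1 + l + l * l) * k := by
    rw [show l ^ 3 = 2 * ((1 + l + l * l) * k) + 1 by rw [hk]; ring]; omega
  have fin : ∀ {r s t : AlgebraicClosure (ZMod l)}, Vi r s t →
      (gq a b c r * gq a b c s * gq a b c t) ^ k = 1 := fun v => by
    rw [v.prod, hn, Int.cast_pow, ← pow_mul]
    exact mul_right_cancel₀ n0 (by rw [← pow_succ, ← hk, i3, one_mul])
  have key : ∏ 𝔭 ∈ ab L l, gq a b c (τ 𝔭) ^ (nm 𝔭 / 2) = 1 := by
    rcases p6 with e | e | e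
    · obtain ⟨𝔭, e1, e2⟩ := p3 e
      have h : 𝔭 ∈ ab L l := e1 ▸ Finset.mem_singleton_self _
      have u := d2 𝔭 h 3 (by norm_num) e2
      have v := fin (vi (r1 𝔭 h) (r2 (r1 𝔭 h)) (r2 (r2 (r1 𝔭 h))) u
        (fun z => u ((f2 𝔭 h).symm.trans (by rw [e2, pow_succ, pow_mul, sq, pow_mul, ← z])))
        fun z => u (i2 z))
      rw [e1, Finset.prod_singleton, e2, k3, ← v, g2, g2, g2]
      ring
    · obtain ⟨𝔭, 𝔮, e1, e2, e3, e4⟩ := p4 e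
      have h := (e2 𝔭).2 (Or.inl rfl)
      have h' := (e2 𝔮).2 (Or.inr rfl)
      have u := d3 𝔭 h 𝔮 h' e3 e1.symm
      have v := fin (vi (r1 𝔭 h) (r1 𝔮 h') (r2 (r1 𝔮 h')) u
        (fun z => u (i2 (by rw [← z, d1 𝔭 h e3, i3]))) (d2 𝔮 h' 2 one_lt_two e4))
      rw [show ab L l = {𝔭, 𝔮} from Finset.ext fun r => by simp [e2], Finset.prod_pair e1, e3, e4,
        k1, k2, ← v, g2]
      ring
    · obtain ⟨e1, e2⟩ := p5 e
      obtain ⟨x, y, z, xy, xz, yz, e3⟩ := Finset.card_eq_three.1 e1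
      have hx : x ∈ ab L l := by simp [e3]
      have hy : y ∈ ab L l := by simp [e3]
      have hz : z ∈ ab L l := by simp [e3]
      have v := fin (vi (r1 x hx) (r1 y hy) (r1 z hz) (d3 x hx y hy (e2 x hx) xy.symm)
        (d3 x hx z hz (e2 x hx) xz.symm) (d3 y hy z hz (e2 y hy) yz.symm))
      rw [e3, Finset.prod_insert (by simp [xy, xz]), Finset.prod_pair yz, e2 x hx, e2 y hy, e2 z hz,
        k1, ← v]
      ring
  have := Fact.mk (lt_of_le_of_ne hl.two_le h2.symm)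
  rw [Finset.prod_congr rfl f3, Finset.prod_pow_eq_pow_sum,
    neg_one_pow_eq_one_iff_even (CharP.neg_one_ne_one _ l)] at key
  simpa using ZMod.natCast_eq_zero_iff_even.2 key

theorem og_intCast (𝔭 : Pr L) (x : ℤ) : og 𝔭 ((x.natAbs : ℕ) : L) = og 𝔭 (x : L) := by
  rw [← Int.cast_natCast, og, og]
  rcases Int.natAbs_eq x with e | e
  · rw [← e]
  · rw [← ord_neg, ← Int.cast_neg, ← e]

theorem near {𝔭 : Pr L} {m N : ℕ} (hm : m ≠ 0) (h : 𝔭 ∈ ab L m) {x y : ℤ} (hx : x ≠ 0)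
    (hN : 2 * og 𝔭 (2 : L) + 1 + og 𝔭 (x : L) ≤ N) (hd : (m : ℤ) ^ N ∣ y - x) (α : L) :
    y ≠ 0 ∧ hq 𝔭 α (y : L) = hq 𝔭 α (x : L) := by
  have x0 : emb 𝔭 (x : L) ≠ 0 := (_root_.map_ne_zero _).2 (Int.cast_ne_zero.2 hx)
  obtain ⟨z, hz⟩ := hd
  have h1 : ((y - x : ℤ) : 𝓞 L) ∈ 𝔭.asIdeal ^ N := by
    rw [hz]
    push_cast
    exact Ideal.mul_mem_right _ _ (Ideal.pow_mem_pow ((mem_ab' hm).1 h) N)
  obtain ⟨r, r0, e⟩ := close (isLoc_wv 𝔭) x0 (y := emb 𝔭 (y : L)) (by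
    rw [← map_ofNat (emb 𝔭) 2, ord_emb, ord_emb, ← map_sub, emb_mem_pw]
    simpa using LocAux.anti hN ((int_mem_pw 𝔭 _ N).2 h1))
  refine ⟨?_, by rw [hq, e, hs_mul_sq_right _ _ r0, hq]⟩
  rintro rfl
  exact mul_ne_zero x0 (pow_ne_zero 2 r0) (by simpa using e.symm)

theorem core (hPr : PrStmt) {θ : L} (hθ : Cub θ) {a b c n : ℤ} (hn : nf a b c = n ^ 2) (n0 : n ≠ 0)
    (α0 : gq a b c θ ≠ 0) (hp : ∀ e : L →+* ℝ, 0 < e (gq a b c θ)) {l : ℕ} (hl : l.Prime) {x : ℤ}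
    (hx : x ≠ 0) : ∑ 𝔭 ∈ ab L l, hq 𝔭 (gq a b c θ) (x : L) = 0 := by
  classical
  obtain ⟨-, -, h3, -, h5, -⟩ := hPr L θ hθ
  obtain ⟨j, m, hm, em⟩ := Nat.exists_eq_pow_mul_and_not_dvd
    (mul_ne_zero (by norm_num : 22 ≠ 0) (Int.natAbs_ne_zero.2 n0)) l hl.ne_one
  have m0 : m ≠ 0 := fun e => hm (e ▸ dvd_zero l)
  have gd : ∀ p : ℕ, p.Prime → p ≠ l → ¬ p ∣ m → p ≠ 2 ∧ p ≠ 11 ∧ ¬ (p : ℤ) ∣ n := fun p hp a b => by
    have : ¬ p ∣ 22 * n.natAbs := fun d => ((Nat.Prime.dvd_mul hp).1 (em ▸ d)).elim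
      (fun d => a ((Nat.prime_dvd_prime_iff_eq hp hl).1 (hp.dvd_of_dvd_pow d))) b
    refine ⟨?_, ?_, fun d => this ((Int.natCast_dvd.1 d).mul_left _)⟩ <;> rintro rfl <;>
      exact this (Dvd.dvd.mul_right (by norm_num) _)
  obtain ⟨M, M0, hM⟩ := RecipAux.exists_bound (ab L l ∪ ab L m)
    fun 𝔭 => 2 * og 𝔭 (2 : L) + 1 + |og 𝔭 (x : L)|
  lift M to ℕ using M0
  obtain ⟨u, v, huv⟩ : IsCoprime ((l : ℤ) ^ M) ((m : ℤ) ^ M) :=
    (Nat.isCoprime_iff_coprime.2 ((Nat.Prime.coprime_iff_not_dvd hl).2 hm)).pow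
  obtain ⟨y, hy⟩ : ∃ y, y = x * (v * m ^ M) + u * l ^ M := ⟨_, rfl⟩
  have a1 := fun 𝔭 (h : 𝔭 ∈ ab L l) => near hl.ne_zero h hx (N := M) (y := y)
    (by linarith [le_abs_self (og 𝔭 (x : L)), (abs_le.1 (hM 𝔭 (Finset.mem_union_left _ h))).2])
    ⟨u * (1 - x), by linear_combination hy + x * huv⟩ (gq a b c θ)
  have a2 := fun 𝔭 (h : 𝔭 ∈ ab L m) => near m0 h one_ne_zero (N := M) (y := y)
    (by
      have := (abs_le.1 (hM 𝔭 (Finset.mem_union_right _ h))).2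
      rw [Int.cast_one, og, og, ord_one]
      rw [og] at this
      linarith [abs_nonneg (og 𝔭 (x : L))])
    ⟨v * (x - 1), by linear_combination hy + huv⟩ (gq a b c θ)
  by_cases y0 : y = 0
  · exact Finset.sum_eq_zero fun 𝔭 h => absurd y0 (a1 𝔭 h).1
  have y1 : (y : L) ≠ 0 := Int.cast_ne_zero.2 y0
  have y2 := Int.natAbs_ne_zero.2 y0
  have z0 : l * m * y.natAbs ≠ 0 := mul_ne_zero (mul_ne_zero hl.ne_zero m0) y2
  have oth : ∀ p : ℕ, p.Prime → p ≠ l → ∑ 𝔭 ∈ ab L p, hq 𝔭 (gq a b c θ) (y : L) = 0 :=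
    fun p hp e => by
      by_cases d : p ∣ m
      · refine Finset.sum_eq_zero fun 𝔭 h => ?_
        obtain ⟨-, q, -, -, hq⟩ := h5 𝔭
        rw [(a2 𝔭 ((hq m m0).2 (((hq p hp.ne_zero).1 h).trans d))).2]
        exact hs_of_isSquare_right _ (by simp)
      obtain ⟨g1, g2, g3⟩ := gd p hp e d
      obtain ⟨s1, s2⟩ := good hPr hθ hn hp g1 g2 g3
      obtain ⟨i, w, hw, ew⟩ := Nat.exists_eq_pow_mul_and_not_dvd y2 p hp.ne_one
      have w0 : w ≠ 0 := fun e => hw (e ▸ dvd_zero p)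
      rw [← mul_zero (i : ZMod 2), ← s2, Finset.mul_sum]
      refine Finset.sum_congr rfl fun 𝔭 h => ?_
      obtain ⟨t1, t2, -⟩ := (h3 p hp g1 g2).1 𝔭 h
      have o1 : og 𝔭 (w : L) = 0 := by
        obtain ⟨-, q, q1, -, hq⟩ := h5 𝔭
        by_contra z
        exact hw ((Nat.prime_dvd_prime_iff_eq q1 hp).1 ((hq p hp.ne_zero).1 h) ▸
          (hq w w0).1 (mem_ab.2 z))
      have o2 : og 𝔭 (y : L) = i := by
        rw [← og_intCast, ew, Nat.cast_mul, Nat.cast_pow, og,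
          ord_mul (pow_ne_zero _ (Nat.cast_ne_zero.2 hp.ne_zero)) (Nat.cast_ne_zero.2 w0), ord_pow]
        rw [og] at t1 o1
        rw [t1, o1, mul_one, add_zero]
      have β0 : emb 𝔭 (gq a b c θ) ≠ 0 := (_root_.map_ne_zero _).2 α0
      rw [hq, (isLoc_wv 𝔭).hs_of_unr β0 ((isLoc_wv 𝔭).unr_of_odd
        (by rw [← map_ofNat (emb 𝔭) 2, ord_emb, t2]) β0 (by rw [ord_emb, s1 𝔭 h]; simp))
        ((_root_.map_ne_zero _).2 y1), ord_emb, o2, nsq, LSq]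
      split_ifs <;> simp
  have R := reciprocity α0 y1 ((l * m * y.natAbs).primeFactors.biUnion (ab L)) fun 𝔭 h => by
    obtain ⟨-, q, q1, q2, hq⟩ := h5 𝔭
    have d : ¬ q ∣ l * m * y.natAbs := fun d =>
      h (Finset.mem_biUnion.2 ⟨q, Nat.mem_primeFactors.2 ⟨q1, d, z0⟩, q2⟩)
    obtain ⟨g1, g2, g3⟩ := gd q q1 (fun e => d (e ▸ ((dvd_refl q).mul_right _).mul_right _))
      fun e => d ((e.mul_left _).mul_right _)
    refine hq_eq_zero 𝔭 ((h3 q q1 g1 g2).1 𝔭 q2).2.1 α0 y1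
      (by rw [(good hPr hθ hn q1 g1 g2 g3).1 𝔭 q2]; simp) ?_
    rw [← og_intCast, not_not.1 (mem_ab.not.1 ((hq _ y2).not.2 fun e => d (e.mul_left _)))]
    simp
  rw [Finset.sum_eq_zero fun e _ => hs_of_isSquare_left two_ne_zero (hp e).ne'
      ⟨√(e (gq a b c θ)), (Real.mul_self_sqrt (hp e).le).symm⟩ _, zero_add,
    Finset.sum_biUnion, Finset.sum_eq_single_of_mem l
      (Nat.mem_primeFactors.2 ⟨hl, ((dvd_refl l).mul_right _).mul_right _, z0⟩)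
      fun p hp e => oth p (Nat.prime_of_mem_primeFactors hp) e] at R
  · exact (Finset.sum_congr rfl fun 𝔭 h => (a1 𝔭 h).2.symm).trans R
  · intro p hp p' hp' e
    have b1 := Nat.prime_of_mem_primeFactors hp
    have b2 := Nat.prime_of_mem_primeFactors hp'
    refine Finset.disjoint_left.2 fun 𝔭 h h' => e ?_
    obtain ⟨-, q, q1, -, hq⟩ := h5 𝔭
    exact ((Nat.prime_dvd_prime_iff_eq q1 b1).1 ((hq p b1.ne_zero).1 h)).symm.trans
      ((Nat.prime_dvd_prime_iff_eq q1 b2).1 ((hq p' b2.ne_zero).1 h'))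

end PF

open PF in
theorem pf_thm (hPr : PrStmt) : PFStmt := fun L _ _ θ hθ l α c hl α0 hN c0 => by
  obtain ⟨-, -, -, -, -, -, h7, h8, h9, e, he, hp⟩ := hPr L θ hθ
  obtain ⟨a₁, a₂, a₃, hα⟩ := h7 α
  obtain ⟨D, D0, b₁, b₂, b₃, hb⟩ : ∃ D : ℚ, D ≠ 0 ∧ ∃ b₁ b₂ b₃ : ℤ,
      gq b₁ b₂ b₃ θ = α * (D : L) ^ 2 := by
    refine ⟨a₁.den * a₂.den * a₃.den, by positivity,
      a₁.num * a₁.den * (a₂.den * a₃.den) ^ 2, a₂.num * a₂.den * (a₁.den * a₃.den) ^ 2,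
      a₃.num * a₃.den * (a₁.den * a₂.den) ^ 2, ?_⟩
    have k : ∀ q : ℚ, (q.num : L) = q * q.den := fun q => by exact_mod_cast (Rat.mul_den_eq_num q).symm
    rw [gq, hα]
    push_cast
    rw [k, k, k]
    ring
  have D1 : (D : L) ≠ 0 := Rat.cast_ne_zero.2 D0
  obtain ⟨r, s, t, hr, hs, ht, rs, rt, st⟩ := roots
  have v := (vi hr hs ht rs rt st).prod b₁ b₂ b₃
  obtain ⟨e₁, rfl⟩ := h8 r hr
  obtain ⟨e₂, rfl⟩ := h8 s hs
  obtain ⟨e₃, rfl⟩ := h8 t ht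
  have N : (nf b₁ b₂ b₃ : ℚ) = Algebra.norm ℚ α * (D ^ 3) ^ 2 := by
    refine Rat.cast_injective (α := ℂ) ?_
    rw [← gq_map, ← gq_map, ← gq_map, hb] at v
    simp only [map_mul, map_pow, map_ratCast] at v
    push_cast
    rw [h9 α e₁ e₂ e₃ rs rt st, ← v]
    ring
  obtain ⟨n, hn⟩ := Rat.isSquare_intCast_iff.1 (N ▸ hN.mul (IsSquare.sq _))
  have n0 : n ≠ 0 := by
    rintro rfl
    rw [hn] at N
    exact (show α = 0 ∨ D = 0 by simpa using N.symm).elim α0 D0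
  have := core hPr hθ (hn.trans (sq n).symm) n0 (hb ▸ mul_ne_zero α0 (pow_ne_zero 2 D1))
    (fun e' => by
      rw [he e', hb, map_mul, map_pow]
      exact mul_pos (hp α α0 hN) (sq_pos_of_ne_zero ((_root_.map_ne_zero _).2 D1))) hl
    (mul_ne_zero (Rat.num_ne_zero.2 c0) (Int.natCast_ne_zero.2 c.den_nz))
  refine (Finset.sum_congr rfl fun 𝔭 _ => ?_).trans this
  have k : ((c.num * c.den : ℤ) : L) = c * (c.den : L) ^ 2 := by
    have : (c.num : L) = c * c.den := by exact_mod_cast (Rat.mul_den_eq_num c).symm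
    rw [Int.cast_mul, this]
    push_cast
    ring
  rw [hb, k, hq, hq, map_mul, map_mul, map_pow, map_pow,
    hs_mul_sq_left _ _ ((_root_.map_ne_zero _).2 D1),
    hs_mul_sq_right _ _ ((_root_.map_ne_zero _).2 (Nat.cast_ne_zero.2 c.den_nz))]

end Pool.Agent.Lib.MP_d6ddbd_nt.K11
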