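import Pool.Agent.Lib.MP_d6ddbd_nt.K11.StP

/-!
Heegner points on `X₀(11)`: the coordinates of inertia and Frobenius elements and of primes.
-/

set_option autoImplicit false

open Pointwise
open Pool.Agent.Lib.MP_9177b7_ag.CM (IsLat sp Conj jL bar hyp smul_mul_left smul_mul_right
  smul_le_smul mem_sp left_mem_sp right_mem_sp mem_smul_iff mem_bar bar_bar bar_mul bar_smul
  bar_ord conj_omega isLat_ord int_of_im)
open Pool.Agent.Lib.MP_9177b7_ag.CM.Idl (mem_O zmul cl_O cl_of_eq not_cop one_not_mem sm_le_sp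
  sp_le_sp)

noncomputable section

namespace Pool.Agent.Lib.MP_d6ddbd_nt.K11

namespace PLoc

theorem odd_inv {k : ℕ} (hk : k ≠ 0) {u : ℤ} (hu : Odd u) :
    ∃ w : ℤ, Odd w ∧ (w : ZMod (2 ^ k)) * u = 1 := by
  obtain ⟨a, b, e⟩ := (Int.isCoprime_two_right.2 hu).pow_right (n := k)
  refine ⟨a, ?_, ?_⟩
  · have : Odd (a * u) := by
      obtain ⟨j, rfl⟩ := Nat.exists_eq_succ_of_ne_zero hk
      exact ⟨-(b * 2 ^ j), by rw [pow_succ] at e; linear_combination e⟩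
    exact (Int.odd_mul.1 this).1
  · have := congrArg (Int.cast : ℤ → ZMod (2 ^ k)) e
    push_cast at this
    have h0 : (2 : ZMod (2 ^ k)) ^ k = 0 := by exact_mod_cast ZMod.natCast_self (2 ^ k)
    rwa [h0, mul_zero, add_zero] at this

theorem even_mul {k : ℕ} (hk : k ≠ 0) {u : ℤ} (hu : Odd u) (x : ZMod (2 ^ k)) :
    Even ((u : ZMod (2 ^ k)) * x).val ↔ Even x.val := by
  have h : ∀ y : ZMod (2 ^ k), Even y.val ↔ ZMod.castHom (dvd_pow_self 2 hk) (ZMod 2) y = 0 :=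
    fun y => by rw [← ZMod.natCast_eq_zero_iff_even, ZMod.natCast_val, ZMod.castHom_apply]
  rw [h, h, map_mul, map_intCast, ZMod.intCast_eq_one_iff_odd.2 hu, one_mul]

theorem nrm {ω : ℂ} {n : ℤ} (hω : ω ^ 2 = (1 : ℤ) * ω - n) (him : ω.im ≠ 0) (a b : ℤ) :
    Complex.normSq (a + b * ω) = ((a ^ 2 + a * b + n * b ^ 2 : ℤ) : ℝ) := by
  have h := Complex.mul_conj (a + b * ω)
  rw [map_add, map_mul, map_intCast, map_intCast, conj_omega hω him] at h
  apply Complex.ofReal_injective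
  rw [← h]
  push_cast at hω ⊢
  linear_combination -(b : ℂ) ^ 2 * hω

theorem frob_pow (hV : VStmt) {O : ValuationSubring ℂ} {Q : ℕ} {σ : G} (h : Frob O Q σ)
    (hQ : Q ≠ 0) (n : ℕ) : Frob O (Q ^ n) (σ ^ n) := by
  induction n with
  | zero => exact fun x _ hx => ⟨hx, by simp⟩
  | succ n ih =>
    rw [pow_succ, pow_succ]
    exact hV.2.1.1 O _ _ _ _ ih h (pow_ne_zero _ hQ)

theorem pow_fix {σ : G} {x : ℂ} (h : σ x = x) (n : ℕ) : (σ ^ n) x = x := by
  induction n with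
  | zero => rfl
  | succ n ih => rw [pow_succ, RingAut.mul_apply, h, ih]

theorem pow_neg {σ : G} {x : ℂ} (h : σ x = -x) {n : ℕ} (hn : Odd n) : (σ ^ n) x = -x := by
  obtain ⟨m, rfl⟩ := hn
  have h2 : (σ ^ 2) x = x := by rw [pow_two, RingAut.mul_apply, h, map_neg, h, neg_neg]
  rw [pow_succ', RingAut.mul_apply, pow_mul, pow_fix h2, h]

variable {q : ℕ} [hq : Fact (q % 4 = 3)]

theorem hom : om q ^ 2 = (1 : ℤ) * om q - (((q + 1) / 4 : ℕ) : ℤ) := by
  simpa using om_sq hq.out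

theorem him : (om q).im ≠ 0 := (om_im (by have := hq.out; omega)).ne'

theorem OK_mul : OK q * OK q = OK q := by simpa [Oc_one] using Oc_mul_self hq.out 1

theorem bar_OK : bar (OK q) = OK q := bar_ord hom him

theorem mul_mem {x y : ℂ} (hx : x ∈ OK q) (hy : y ∈ OK q) : x * y ∈ OK q :=
  OK_mul (q := q) ▸ Submodule.mul_mem_mul hx hy

theorem conj_mem {x : ℂ} (hx : x ∈ OK q) : starRingEnd ℂ x ∈ OK q :=
  mem_bar.1 (by rwa [bar_OK])

omit hq in
theorem pid_one (v : ℕ) (r : ℤ) : pid q 1 v r = sp v (om q - r) := by simp [pid]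

theorem smul_bar (π : ℂ) : π • OK q * bar (π • OK q) = (Complex.normSq π : ℂ) • OK q := by
  rw [bar_smul, bar_OK, smul_mul_left, smul_mul_right, OK_mul, smul_smul, Complex.mul_conj]

omit hq in
theorem Oc_le_OK (c : ℕ) : Oc q c ≤ OK q := Oc_one q ▸ Oc_le (one_dvd c)

theorem OK_mul_Oc (c : ℕ) : OK q * Oc q c = OK q := by
  simpa [Oc_one] using Oc_mul hq.out (one_dvd c)

theorem step {v m : ℕ} (hv : v ≠ 0) {P P' I : Submodule ℤ ℂ} (h1 : P * P' = (v : ℂ) • OK q)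
    (h2 : bar P = P') (hI : OK q * I = I) (hb : I * bar I = ((v : ℂ) ^ (m + 1)) • OK q)
    (hle : I ≤ P) : ∃ I' : Submodule ℤ ℂ, I' ≤ OK q ∧ OK q * I' = I' ∧
      I' * bar I' = ((v : ℂ) ^ m) • OK q ∧ P * I' = I := by
  have h0 : (v : ℂ) ≠ 0 := by exact_mod_cast hv
  refine ⟨(v : ℂ)⁻¹ • (P' * I), ?_, ?_, ?_, ?_⟩
  · have := smul_le_smul (v : ℂ)⁻¹ (mul_le_mul_right hle P')
    rwa [mul_comm P' P, h1, smul_smul, inv_mul_cancel₀ h0, one_smul] at this
  · rw [smul_mul_right, mul_left_comm, hI]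
  · rw [bar_smul, bar_mul, ← h2, bar_bar, h2, smul_mul_left, smul_mul_right, mul_mul_mul_comm,
      mul_comm P' P, h1, hb, smul_mul_left, smul_mul_right, OK_mul, smul_smul, smul_smul,
      smul_smul, map_inv₀, map_natCast]
    congr 1
    field_simp
    ring
  · rw [smul_mul_right, ← mul_assoc, h1, smul_mul_left, hI, smul_smul, inv_mul_cancel₀ h0,
      one_smul]

theorem le_pid {v m : ℕ} {r : ℤ} (hv : v.Prime) (hr : Rt q v r) {I : Submodule ℤ ℂ}
    (hle : I ≤ OK q) (hI : OK q * I = I) (hb : I * bar I = ((v : ℂ) ^ (m + 1)) • OK q) :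
    I ≤ pid q 1 v r ∨ I ≤ pid q 1 v (1 - r) := by
  rw [pid_one, pid_one]
  rcases not_cop hom hv (cl_of_eq hI) hle (by
    rintro ⟨x, hx, o, ho, e⟩
    have hx' : x * starRingEnd ℂ x ∈ I * bar I :=
      Submodule.mul_mem_mul hx (mem_bar.2 (by simpa using hx))
    obtain ⟨y, hy, e1⟩ := mem_smul_iff.1 (hb ▸ hx')
    have e' : starRingEnd ℂ x + v * starRingEnd ℂ o = 1 := by
      simpa using congrArg (starRingEnd ℂ) e
    refine one_not_mem (him (q := q)) hv.one_lt.ne' r (sm_le_sp v r (mem_smul_iff.2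
      ⟨(((v : ℤ) ^ m : ℤ) : ℂ) * y + o * starRingEnd ℂ x + starRingEnd ℂ o,
        Submodule.add_mem _ (Submodule.add_mem _ (zmul _ hy) (mul_mem ho (conj_mem (hle hx))))
          (conj_mem ho), ?_⟩))
    push_cast
    linear_combination e1 + starRingEnd ℂ x * e + e') with h | ⟨s, hs, h⟩
  · exact Or.inl (h.trans (sm_le_sp v r))
  · have : (v : ℤ) ∣ (r - s) * (1 - r - s) := by
      have := hs.sub hr
      rwa [show ∀ n : ℤ, s ^ 2 - 1 * s + n - (r ^ 2 - r + n) = (r - s) * (1 - r - s) from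
        fun n => by ring] at this
    exact ((Nat.prime_iff_prime_int.1 hv).dvd_or_dvd this).imp (fun e => h.trans (sp_le_sp e))
      fun e => h.trans (sp_le_sp e)

section ker

variable (hKer : KerStmt) (hp : q.Prime) (h44 : 44 < q)
include hKer hp h44

theorem fac {c v : ℕ} {r : ℤ} (hc : c ≠ 0) (hv : v.Prime) (hvq : v ≠ q) (hvc : ¬ v ∣ c)
    (hr : Rt q v r) (m : ℕ) : ∀ I : Submodule ℤ ℂ, I ≤ OK q → OK q * I = I →
      I * bar I = ((v : ℂ) ^ m) • OK q →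
      ∃ u : ℤ, Even (u + m) ∧ ∃ J, Cl (lam q c v r ^ u) J ∧ J ≤ Oc q c ∧ OK q * J = I := by
  induction m with
  | zero =>
    intro I hle hI hb
    rw [pow_zero, one_smul] at hb
    refine ⟨0, by simp, Oc q c, by simpa using cl_one, le_rfl, (OK_mul_Oc c).trans
      (le_antisymm ?_ hle)⟩
    have : bar I ≤ OK q := bar_OK (q := q) ▸ Submodule.map_mono hle
    calc OK q = I * bar I := hb.symm
      _ ≤ I * OK q := mul_le_mul_right this I
      _ = I := by rw [mul_comm, hI]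
  | succ m ih =>
    intro I hle hI hb
    have key : ∀ (s : ℤ) (ε : ℤ), Odd ε → Rt q v s → lam q c v s = lam q c v r ^ ε →
        I ≤ pid q 1 v s → ∃ u : ℤ, Even (u + (m + 1 : ℕ)) ∧
          ∃ J, Cl (lam q c v r ^ u) J ∧ J ≤ Oc q c ∧ OK q * J = I := by
      intro s ε hε hs e h
      obtain ⟨-, -, -, a1, a2, -⟩ := (hKer q hp h44 1 one_ne_zero).2.2.2.2.2 v s hv hvq
        (fun h => hv.one_lt.ne' (Nat.dvd_one.1 h)) hs
      obtain ⟨-, b1, b2, -, -, -, b3⟩ := (hKer q hp h44 c hc).2.2.2.2.2 v s hv hvq hvc hs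
      rw [Oc_one] at a2
      obtain ⟨I', c1, c2, c3, c4⟩ := step hv.ne_zero a2 a1 hI hb h
      obtain ⟨u, d1, J, d2, d3, d4⟩ := ih I' c1 c2 c3
      refine ⟨ε + u, ?_, pid q c v s * J, ?_, ?_, ?_⟩
      · have := hε.add_one.add d1
        rwa [show ε + 1 + (u + m) = ε + u + (m + 1 : ℕ) by push_cast; ring] at this
      · rw [zpow_add, ← e]
        exact b1.mul d2
      · exact (mul_le_mul' b2 d3).trans (Oc_mul_self hq.out c).le
      · have := (b3 1 (one_dvd c)).1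
        rw [Oc_one] at this
        rw [← c4, ← this, ← d4, mul_mul_mul_comm, OK_mul]
    obtain ⟨a1, -, -, -, -, a2, -⟩ := (hKer q hp h44 c hc).2.2.2.2.2 v r hv hvq hvc hr
    rcases le_pid hv hr hle hI hb with h | h
    · exact key r 1 odd_one hr (zpow_one _).symm h
    · exact key (1 - r) (-1) odd_neg_one a1 (a2.trans (zpow_neg_one _).symm) h

omit hKer hp h44 hq in
theorem cop_pow {c v m : ℕ} (hv : v.Prime) (hvc : ¬ v ∣ c) {π : ℂ} (hπ : π ∈ OK q)
    (hn : Complex.normSq π = (v : ℝ) ^ m) : Cop q c π :=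
  ⟨hπ, (v : ℤ) ^ m, by rw [hn]; push_cast; rfl,
    (Nat.isCoprime_iff_coprime.2 (hv.coprime_iff_not_dvd.2 hvc)).pow_left⟩

theorem kp_eq {c v m : ℕ} {r : ℤ} (hc : c ≠ 0) (hv : v.Prime) (hvq : v ≠ q) (hvc : ¬ v ∣ c)
    (hr : Rt q v r) {π : ℂ} (hπ : π ∈ OK q) (hn : Complex.normSq π = (v : ℝ) ^ m) (hm : Odd m) :
    ∃ u : ℤ, Odd u ∧ kp q c π = lam q c v r ^ u := by
  obtain ⟨u, h1, J, h2, h3, h4⟩ := fac hKer hp h44 hc hv hvq hvc hr m (π • OK q)
    (fun z hz => by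
      obtain ⟨y, hy, rfl⟩ := mem_smul_iff.1 hz
      exact mul_mem hπ hy)
    (by rw [smul_mul_right, OK_mul]) (by rw [smul_bar, hn]; push_cast; rfl)
  have h5 := ((hKer q hp h44 c hc).2.1 π (cop_pow hv hvc hπ hn)).2.2.2.2.2.2 _ J h2 h3 h4
  refine ⟨-u, ?_, by rw [zpow_neg, eq_inv_of_mul_eq_one_right h5]⟩
  have := h1.sub_odd (by exact_mod_cast hm : Odd (m : ℤ))
  rw [add_sub_cancel_right] at this
  exact this.neg

theorem exists_gen (hPic : PicStmt) {v : ℕ} {r : ℤ} (hv : v.Prime) (hvq : v ≠ q)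
    (hr : Rt q v r) : ∃ π, Gen q v π := by
  obtain ⟨-, a1, a2, a3, a4, -⟩ := (hKer q hp h44 1 one_ne_zero).2.2.2.2.2 v r hv hvq
    (fun h => hv.one_lt.ne' (Nat.dvd_one.1 h)) hr
  rw [Oc_one] at a2 a4
  have h0 : (0 : ℝ) < v := by exact_mod_cast hv.pos
  have h1 : ∀ n : ℕ, ∃ J, Cl (lam q 1 v r ^ n) J ∧ J ≤ OK q ∧
      J * bar J = ((v : ℂ) ^ n) • OK q := by
    intro n
    induction n with
    | zero => exact ⟨Oc q 1, by simpa using cl_one, (Oc_one q).le, by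
        rw [Oc_one, bar_OK, OK_mul, pow_zero, one_smul]⟩
    | succ n ih =>
      obtain ⟨J, b1, b2, b3⟩ := ih
      refine ⟨pid q 1 v r * J, by rw [pow_succ']; exact a1.mul b1,
        (mul_le_mul' a2 b2).trans OK_mul.le, ?_⟩
      rw [bar_mul, mul_mul_mul_comm, a3, a4, b3, smul_mul_left, smul_mul_right, OK_mul, smul_smul,
        pow_succ']
  have h2 : ∀ n : ℕ, Odd n → ∀ π ∈ OK q, Complex.normSq π = (v : ℝ) ^ n → ∃ π, Gen q v π := by
    intro n
    induction n using Nat.strong_induction_on with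
    | _ n ih =>
      intro hn π hπ e
      by_cases h : π ∈ (v : ℂ) • OK q
      · obtain ⟨β, hβ, rfl⟩ := mem_smul_iff.1 h
        rw [map_mul, Complex.normSq_natCast] at e
        obtain ⟨j, rfl⟩ := hn
        rcases j with _ | j
        · obtain ⟨a, b, rfl⟩ := mem_O.1 hβ
          rw [nrm hom him, mul_assoc, mul_zero, zero_add, pow_one, mul_eq_left₀ h0.ne'] at e
          have e' : (v : ℤ) ∣ 1 := ⟨_, by exact_mod_cast e.symm⟩
          exact absurd (Int.natCast_dvd_natCast.1 e') fun h => hv.one_lt.ne' (Nat.dvd_one.1 h)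
        · refine ih (2 * j + 1) (by omega) ⟨j, rfl⟩ β hβ (mul_left_cancel₀
            (mul_pos h0 h0).ne' (e.trans ?_))
          ring
      · exact ⟨π, hπ, h, n, hn, e⟩
  obtain ⟨J, b1, b2, b3⟩ := h1 (hh q)
  rw [hh, pow_card_eq_one'] at b1
  obtain ⟨π, c1, rfl⟩ := cl_one.exists_smul b1
  rw [Oc_one] at b2 b3
  rw [smul_bar] at b3
  have h3 : ((v : ℂ) ^ hh q) ≠ 0 := pow_ne_zero _ (by exact_mod_cast hv.ne_zero)
  refine h2 (hh q) (hPic q hp h44).1 π (b2 (mem_smul_iff.2 ⟨1, left_mem_sp _ _, mul_one π⟩)) ?_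
  rcases ((hPic q hp h44).2 1 one_ne_zero).2.2.1 (((v : ℂ) ^ hh q)⁻¹ * Complex.normSq π) (by
    rw [Oc_one, mul_smul, b3, smul_smul, inv_mul_cancel₀ h3, one_smul]) with e | e
  · rw [inv_mul_eq_one₀ h3] at e
    exact_mod_cast e.symm
  · rw [inv_mul_eq_iff_eq_mul₀ h3] at e
    have e' : Complex.normSq π = (v : ℝ) ^ hh q * -1 := by exact_mod_cast e
    have := Complex.normSq_nonneg π
    have := pow_pos h0 (hh q)
    linarith

end ker

section pic

variable (hPic : PicStmt) (hp : q.Prime) (h44 : 44 < q)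
include hPic hp h44

theorem ar_pow {c : ℕ} (hc : c ≠ 0) {σ : G} (hσ : σ (om q) = om q) (n : ℕ) :
    ar q c (σ ^ n) = ar q c σ ^ n := by
  have h := ((hPic q hp h44).2 c hc).2.2.2
  induction n with
  | zero =>
    have := (h 1 rfl).2.1 1 rfl
    rw [mul_one] at this
    simpa using this
  | succ n ih => rw [pow_succ, pow_succ, (h _ (pow_fix hσ n)).2.1 σ hσ, ih]

theorem frob_kp (hV : VStmt) (hG1 : G1Stmt) (hKer : KerStmt) {l v n : ℕ} (hl : l.Prime)
    (hv : v.Prime) (hvl : v ≠ l) {O : ValuationSubring ℂ} {σ : G} (hO : Ov O v)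
    (hF : Frob O (v ^ n) σ) (hσ : σ (om q) = om q) :
    ∃ π ∈ OK q, Complex.normSq π = (v : ℝ) ^ (n * hh q) ∧ ar q l σ ^ hh q = kp q l π := by
  have hF' := frob_pow hV hF (pow_ne_zero _ hv.ne_zero) (hh q)
  rw [← pow_mul] at hF'
  have hσ' := pow_fix hσ (hh q)
  have hvl' : ¬ v ∣ l := fun h => hvl ((Nat.prime_dvd_prime_iff_eq hv hl).1 h)
  obtain ⟨M, hM⟩ := hyp.exists_conj ((σ ^ hh q : G) : ℂ →+* ℂ) (isLat_ord (him (q := q)))
  have h1 := (((hPic q hp h44).2 1 one_ne_zero).2.2.2 _ hσ').1 1 _ M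
    (Oc_one q ▸ cl_one : Cl (1 : Pic q 1) (OK q)) hM
  rw [ar_pow hPic hp h44 one_ne_zero hσ, hh, pow_card_eq_one', mul_one] at h1
  obtain ⟨μ, h2, rfl⟩ := cl_one.exists_smul h1
  rw [Oc_one] at hM
  obtain ⟨π, h3, h4, h5⟩ := hG1 q v _ O _ μ hp h44 hq.out hv hO hF' hσ' h2 hM
  refine ⟨π, h3, h4, ?_⟩
  obtain ⟨-, b1, b2, -⟩ := (hKer q hp h44 l hl.ne_zero).2.1 π (cop_pow hv hvl' h3 h4)
  have h6 := h5 l (Oc q l) hvl' (fun z hz => by
    obtain ⟨y, hy, rfl⟩ := mem_smul_iff.1 hz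
    obtain ⟨a, b, rfl⟩ := mem_O.1 hy
    exact mem_O.2 ⟨l * a, b, by push_cast; ring⟩) (Oc_le_OK l)
  rw [b2] at h6
  have h7 := (((hPic q hp h44).2 l hl.ne_zero).2.2.2 _ hσ').1 1 _ _ cl_one h6
  rw [mul_one, ar_pow hPic hp h44 hl.ne_zero hσ] at h7
  exact h7.unique (b1.smul h2)

theorem genus {l : ℕ} (hl : l.Prime) (hl2 : l ≠ 2) {τ : G} (hτ : τ (om q) = om q) {π s : ℂ}
    {n : ℤ} (hπ : π ∈ OK q) (hn : Complex.normSq π = n) (hc : Cl (ar q l τ) (Lp q l π))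
    (hs : s ^ 2 = GF.pst l) : ∃ ε : ℤ, ε ^ 2 = 1 ∧ τ s = ε * s ∧ jacobiSym n l = ε := by
  have := Fact.mk hl
  obtain ⟨-, P1, -, P2⟩ := (hPic q hp h44).2 l hl.ne_zero
  have hl0 : (l : ℝ) ≠ 0 := by exact_mod_cast hl.ne_zero
  have hi : ((l : ℂ) * om q).im ≠ 0 := by simpa using ⟨hl.ne_zero, him⟩
  have hA : GF.ar 1 (om q) ≠ 0 := by simpa [GF.ar] using him
  have hA' : GF.ar 1 (l * om q) = l * GF.ar 1 (om q) := by simp [GF.ar, abs_mul]
  obtain ⟨ε, a1, a2, a3⟩ := GF.rel (δ := 2 * (l * GF.ar 1 (om q))) (com_sq hq.out l) hi hl2 hs τ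
    (by rw [map_mul, map_natCast, hτ])
  refine ⟨ε, a1, a2, ?_⟩
  obtain ⟨b1, -, -, -, b2⟩ := P1 _ _ (cl_one (q := q) (c := l))
  obtain ⟨c1, -, -, -, c2⟩ := P1 _ _ hc
  obtain ⟨M, hM⟩ := hyp.exists_conj (τ : ℂ →+* ℂ) b1
  have h1 := (P2 τ hτ).1 1 _ M cl_one hM
  rw [mul_one] at h1
  obtain ⟨μ, h2, rfl⟩ := hc.exists_smul h1
  obtain ⟨m, ⟨u, w, α, e1, -, e2, e3⟩, e4⟩ := (a3 _ _ b1 ((b2 _).2 (right_mem_sp _ _)) c1
    ((c2 _).2 (right_mem_sp _ _)) (hM.jL.trans (hyp.jL_smul _ h2))).1 1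
    ⟨1, l * om q, 1, rfl, by rw [hA']; exact mul_ne_zero hl0 hA, left_mem_sp _ _, by
      rw [hA']; simp⟩
  have hne : ¬ om q • Lp q l π ≤ Lp q l π := fun h => by
    obtain ⟨a, b, e⟩ := mem_O.1 ((c2 _).1 h)
    have := (int_of_im (him (q := q)) (a := a) (b := b * l - 1)
      (by push_cast; linear_combination e)).2
    have e' : (l : ℤ) ∣ 1 := ⟨b, by linarith⟩
    exact hl.one_lt.ne' (Nat.dvd_one.1 (Int.natCast_dvd_natCast.1 e'))
  have ho : om q • OK q ≤ OK q := fun z hz => by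
    obtain ⟨y, hy, rfl⟩ := mem_smul_iff.1 hz
    exact mul_mem (right_mem_sp _ _) hy
  obtain ⟨x, y, x', y', f1, f2, -, f3⟩ := GF.index hl (isLat_ord (him (q := q)))
    (X := Lp q l π) (lt_of_le_of_ne le_sup_right fun e => hne (by
      rw [← e, smul_comm]
      exact smul_le_smul _ ho))
    (lt_of_le_of_ne (sup_le ((Submodule.span_singleton_le_iff_mem _ _).2 hπ) fun z hz => by
      obtain ⟨y, hy, rfl⟩ := mem_smul_iff.1 hz
      exact_mod_cast zmul (l : ℤ) hy) fun e => hne (by rw [e]; exact ho))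
  rw [GF.ar_eq f1 hA] at f3
  rw [GF.ar_eq (f2.symm.trans e1) (by rw [f3]; exact mul_ne_zero hl0 hA), f3] at e3
  have e5 : Complex.normSq α = m :=
    mul_right_cancel₀ (mul_ne_zero two_ne_zero (mul_ne_zero hl0 hA)) (by linear_combination e3)
  obtain ⟨z, hz, z', hz', rfl⟩ := Submodule.mem_sup.1 e2
  obtain ⟨a, rfl⟩ := Submodule.mem_span_singleton.1 hz
  obtain ⟨β, hβ, rfl⟩ := mem_smul_iff.1 hz'
  obtain ⟨p₁, p₂, rfl⟩ := mem_O.1 hπ
  obtain ⟨r₁, r₂, rfl⟩ := mem_O.1 hβ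
  rw [show a • ((p₁ : ℂ) + p₂ * om q) + l * (r₁ + r₂ * om q) =
    (a * p₁ + l * r₁ : ℤ) + (a * p₂ + l * r₂ : ℤ) * om q by push_cast; ring, nrm hom him] at e5
  rw [nrm hom him] at hn
  have e6 : legendreSym l m = legendreSym l (n * a ^ 2) := by
    rw [← Int.cast_injective e5, ← Int.cast_injective hn]
    simp only [legendreSym]
    congr 1
    generalize (((q + 1) / 4 : ℕ) : ℤ) = N
    push_cast
    rw [ZMod.natCast_self]
    ring
  rw [e6, legendreSym.at_one, mul_one, legendreSym.mul] at e4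
  by_cases ha : (a : ZMod l) = 0
  · rw [(legendreSym.eq_zero_iff l (a ^ 2)).2 (by push_cast; rw [ha]; simp), mul_zero] at e4
    rw [← e4] at a1
    simp at a1
  · rw [legendreSym.sq_one' l ha, mul_one] at e4
    rw [← jacobiSym.legendreSym.to_jacobiSym, e4]

end pic

section co

variable {l k : ℕ} {g : Pic q l → ZMod (2 ^ k)} {dl : ℂ → ZMod (2 ^ k)} (C : Co l k g dl)
include C

theorem g_zpow (x : Pic q l) (u : ℤ) : g (x ^ u) = u * g x := by
  let f : Pic q l →* Multiplicative (ZMod (2 ^ k)) :=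
    MonoidHom.mk' (fun x => Multiplicative.ofAdd (g x)) fun x y => by rw [C.g_mul, ofAdd_add]
  have := congrArg Multiplicative.toAdd (map_zpow f x u)
  simpa [f] using this

end co

end PLoc

open PLoc

theorem odd_thm (hPic : PicStmt) (hKer : KerStmt) : OddStmt := by
  intro q l Q hl h2 hq hs
  have := Fact.mk Q.m4
  obtain ⟨r, hr⟩ := ((hKer q Q.pr Q.big 1 one_ne_zero).2.2.2.2.1 l hl h2).1 hs
  exact exists_gen hKer Q.pr Q.big hPic hl hq hr

theorem ploc_thm (hV : VStmt) (hG1 : G1Stmt) (hPic : PicStmt) (hKer : KerStmt) : PLocStmt := by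
  intro q hq hp h44 l k g dl hl hl2 hlq hk C
  have hodd := (hPic q hp h44).1
  have hodd' : Odd (hh q : ℤ) := by exact_mod_cast hodd
  obtain ⟨w, w1, w2⟩ := odd_inv hk hodd'
  obtain ⟨K1, K2, K3, -, K4, -⟩ := hKer q hp h44 l hl.ne_zero
  refine ⟨fun v O σ hv hvl hO hF hσ => ?_, fun σ s hσ hs => ?_, fun v r hv hv2 hvl hvq hr => ?_⟩
  · obtain ⟨π, h1, h2, h3⟩ := frob_kp hPic hp h44 hV hG1 hKer (n := 0) hl hv hvl hO hF hσ
    have hc := cop_pow hv (fun h => hvl ((Nat.prime_dvd_prime_iff_eq hv hl).1 h)) h1 h2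
    rw [C.g_eq _ π hc h3]
    obtain ⟨a, b, rfl⟩ := mem_O.1 h1
    rw [nrm hom him, zero_mul, pow_zero] at h2
    have h4 : a ^ 2 + a * b + (((q + 1) / 4 : ℕ) : ℤ) * b ^ 2 = 1 := by exact_mod_cast h2
    have h5 : 11 ≤ (((q + 1) / 4 : ℕ) : ℤ) := by omega
    have h6 : b = 0 := by
      by_contra h
      have : 0 < b ^ 2 := by positivity
      nlinarith [sq_nonneg (2 * a + b)]
    exact C.dl_int _ a hc (by simp [h6])
  · obtain ⟨π, hc, e⟩ := (K3 (ar q l σ ^ hh q)).1 (by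
      rw [map_pow, ((((hPic q hp h44).2 l hl.ne_zero).2.2.2 σ hσ).2.2.2 1 (one_dvd l)), hh,
        pow_card_eq_one'])
    obtain ⟨h1, n, h2, h3⟩ := id hc
    rw [C.g_eq _ π hc e, C.par π n hc h2]
    obtain ⟨ε, a1, a2, a3⟩ := genus hPic hp h44 hl hl2 (pow_fix hσ (hh q)) h1 h2
      (by rw [ar_pow hPic hp h44 hl.ne_zero hσ, e]; exact (K2 π hc).2.1) hs
    have h0 : s ≠ 0 := by
      rintro rfl
      have : (GF.pst l : ℂ) = 0 := by rw [← hs]; simp
      simp [GF.pst, hl.ne_zero] at this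
    rw [a3]
    refine ⟨fun h => ?_, fun h => ?_⟩
    · rw [pow_fix h] at a2
      exact_mod_cast (mul_right_cancel₀ h0 ((one_mul s).trans a2)).symm
    · have : σ s ^ 2 = s ^ 2 := by rw [← map_pow, hs, map_intCast]
      refine (sq_eq_sq_iff_eq_or_eq_neg.1 this).resolve_right fun h' => h0 ?_
      rw [pow_neg h' hodd, h] at a2
      push_cast at a2
      linear_combination -a2 / 2
  · have hvl' : ¬ v ∣ l := fun h => hvl ((Nat.prime_dvd_prime_iff_eq hv hl).1 h)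
    have h3 : ∀ π, Gen q v π →
        Cop q l π ∧ ∃ u : ℤ, Odd u ∧ g (lam q l v r) = u * dl π := by
      rintro π ⟨h1, -, m, hm, h2⟩
      have hc := cop_pow hv hvl' h1 h2
      obtain ⟨u, u1, u2⟩ := kp_eq hKer hp h44 hl.ne_zero hv hvq hvl' hr h1 h2 hm
      obtain ⟨u', u3, u4⟩ := odd_inv hk u1
      have := ((hPic q hp h44).2 l hl.ne_zero).1
      have h4 : ∀ n : ℕ, Cop q l (π ^ (n + 1)) ∧ kp q l (π ^ (n + 1)) = kp q l π ^ (n + 1) ∧
          dl (π ^ (n + 1)) = (n + 1 : ℕ) * dl π := by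
        intro n
        induction n with
        | zero => simpa using hc
        | succ n ih =>
          rw [pow_succ π]
          refine ⟨K1 _ _ ih.1 hc, by rw [(K2 _ ih.1).2.2.2.1 π hc, ih.2.1, ← pow_succ], ?_⟩
          rw [C.dl_mul _ _ ih.1 hc, ih.2.2]
          push_cast
          ring
      obtain ⟨n, hn⟩ := Nat.exists_eq_succ_of_ne_zero hodd.pos.ne'
      obtain ⟨b1, b2, b3⟩ := h4 n
      have h5 := C.g_eq (kp q l π) _ b1 (by rw [b2, hn])
      rw [b3, u2, g_zpow C, ← Nat.succ_eq_add_one, ← hn] at h5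
      refine ⟨hc, u' * hh q, u3.mul hodd', ?_⟩
      push_cast
      rw [mul_assoc, ← h5, ← mul_assoc, u4, one_mul]
    refine ⟨?_, fun O φ hO hF => ?_, h3⟩
    · obtain ⟨π, hπ⟩ := exists_gen hKer hp h44 hPic hv hvq hr
      obtain ⟨hc, u, u1, u2⟩ := h3 π hπ
      obtain ⟨-, -, m, hm, h2⟩ := hπ
      rw [u2, even_mul hk u1, C.par π ((v : ℤ) ^ m) hc (by rw [h2]; push_cast; rfl),
        jacobiSym.pow_left]
      rcases jacobiSym.trichotomy v l with e | e | e <;> rw [e]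
      · rw [zero_pow hm.pos.ne']
      · rw [one_pow]
      · rw [hm.neg_one_pow]
    · have hφ := (hV.2.1.2.2.2.2.2.2.2.1 q v O φ hp hq.out hv hv2 hvq hO hF).2
        ((K4 v hv hv2).2 ⟨r, hr⟩)
      obtain ⟨π, h1, h2, e⟩ := frob_kp hPic hp h44 hV hG1 hKer (n := 1) hl hv hvl hO
        (by rwa [pow_one]) hφ
      rw [one_mul] at h2
      obtain ⟨u, u1, u2⟩ := kp_eq hKer hp h44 hl.ne_zero hv hvq hvl' hr h1 h2 hodd
      have h5 := congrArg g (e.trans u2)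
      rw [← zpow_natCast, g_zpow C, g_zpow C] at h5
      refine ⟨w * u, w1.mul u1, ?_⟩
      push_cast
      rw [mul_assoc, ← h5, ← mul_assoc, w2, one_mul]

end Pool.Agent.Lib.MP_d6ddbd_nt.K11
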