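import Pool.Agent.Lib.MP_d6ddbd_nt.K11.StP

/-!
Class groups of orders and the Galois action on them.
-/

set_option autoImplicit false

open Pointwise
open Pool.Agent.Lib.MP_9177b7_ag.CM (IsLat sp Conj jL g2 g3 bar hyp Jset mem_sp mem_smul_iff
  smul_mul_left smul_mul_right isLat_ord ord_mul_eq_iff int_of_im bar_ord bar_mul sp_mul conj_omega)

noncomputable section

namespace Pool.Agent.Lib.MP_d6ddbd_nt.K11

namespace Pic

variable {q c : ℕ} [hq : Fact (q % 4 = 3)]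

theorem q_ne : q ≠ 0 := by
  have := hq.out
  omega

theorem cim (hc : c ≠ 0) : ((c : ℂ) * om q).im ≠ 0 := by
  have := (om_im (q_ne (q := q))).ne'
  simpa [hc] using this

theorem isLat (hc : c ≠ 0) {L : Submodule ℤ ℂ} (h : Ivt q c L) : IsLat L := by
  obtain ⟨h1, B, hB⟩ := h
  obtain ⟨σ, -, h2⟩ := hyp.cm_surj (com_sq hq.out c) (cim hc) L B hB h1
  have := (h2 _ (isLat_ord (cim hc)) (Oc_mul_self hq.out c)).1
  rwa [mul_comm, show sp 1 ((c : ℂ) * om q) * L = L from h1] at this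

omit hq in
theorem le_iff {L : Submodule ℤ ℂ} (h : Ivt q c L) (μ : ℂ) : μ • L ≤ L ↔ μ ∈ Oc q c := by
  obtain ⟨h1, B, hB⟩ := h
  constructor
  · intro h
    have : μ • Oc q c ≤ Oc q c := by
      rw [← hB, ← smul_mul_left]
      exact mul_le_mul_left h B
    exact this (mem_smul_iff.2 ⟨1, one_mem_Oc q c, mul_one μ⟩)
  · intro h z hz
    obtain ⟨y, hy, rfl⟩ := mem_smul_iff.1 hz
    exact h1 ▸ Submodule.mul_mem_mul h hy

theorem unit (hb : 44 < q) {μ : ℂ} (h : μ • Oc q c = Oc q c) : μ = 1 ∨ μ = -1 := by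
  have le : Oc q c ≤ sp 1 (om q) := (Oc_le (one_dvd c)).trans (Oc_one q).le
  obtain ⟨ν, hν, e⟩ := mem_smul_iff.1 (h.ge (one_mem_Oc q c))
  obtain ⟨a, b, rfl⟩ := mem_sp.1 (le (h.le (mem_smul_iff.2 ⟨1, one_mem_Oc q c, mul_one μ⟩)))
  obtain ⟨a', b', rfl⟩ := mem_sp.1 (le hν)
  have hN : (2 : ℤ) ≤ ((q + 1) / 4 : ℕ) := by
    have : 2 ≤ (q + 1) / 4 := by omega
    exact_mod_cast this
  have hω := om_sq hq.out
  generalize (((q + 1) / 4 : ℕ) : ℤ) = N at hN hω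
  obtain ⟨e1, e2⟩ := int_of_im (om_im (q_ne (q := q))).ne' (a := a * a' - N * b * b' - 1)
    (b := a * b' + a' * b + b * b') (by push_cast; linear_combination e - b * b' * hω)
  have e3 : (a ^ 2 + a * b + N * b ^ 2) * (a' ^ 2 + a' * b' + N * b' ^ 2) = 1 := by
    linear_combination (a * a' - N * b * b' + 1) * e1 +
      (a * a' - N * b * b' + N * (a * b' + a' * b + b * b')) * e2
  have e4 : a ^ 2 + a * b + N * b ^ 2 ≤ 1 := by
    rcases Int.eq_one_or_neg_one_of_mul_eq_one e3 with k | k <;> omega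
  obtain rfl : b = 0 := by
    by_contra h0
    have : 1 ≤ b ^ 2 := by have := sq_pos_of_ne_zero h0; omega
    nlinarith [sq_nonneg (2 * a + b)]
  have e5 : a * a' = 1 := by linear_combination e1
  rcases Int.eq_one_or_neg_one_of_mul_eq_one e5 with rfl | rfl <;> simp

theorem aut (hb : 44 < q) (hc : c ≠ 0) {L : Submodule ℤ ℂ} (h : Ivt q c L) {ζ : ℂ} (h0 : ζ ≠ 0)
    (h2 : (ζ ^ 4)⁻¹ * g2 L = g2 L) (h3 : (ζ ^ 6)⁻¹ * g3 L = g3 L) : ζ ^ 2 = 1 := by
  have hL := isLat hc h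
  have e : L = ζ • L := hyp.conj_unique (σ := RingHom.id ℂ) ⟨hL, hL, rfl, rfl⟩
    ⟨hL, hyp.isLat_smul hL h0, by rw [hyp.g2_smul _ h0, h2]; rfl,
      by rw [hyp.g3_smul _ h0, h3]; rfl⟩
  obtain ⟨-, B, hB⟩ := h
  rcases unit (c := c) hb (μ := ζ) (by rw [← hB, ← smul_mul_left, ← e]) with rfl | rfl <;> simp

theorem g2_ne (hb : 44 < q) (hc : c ≠ 0) {L : Submodule ℤ ℂ} (h : Ivt q c L) : g2 L ≠ 0 := by
  intro h2
  obtain ⟨ζ, hζ⟩ : ∃ ζ : ℂ, ζ ^ 2 = -ζ - 1 := by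
    obtain ⟨r, hr⟩ := IsAlgClosed.exists_pow_nat_eq (-3 : ℂ) two_pos
    exact ⟨(r - 1) / 2, by linear_combination hr / 4⟩
  have := aut hb hc h (ζ := ζ) (by rintro rfl; simp at hζ) (by simp [h2]) (by
    rw [show ζ ^ 6 = 1 by linear_combination (ζ ^ 3 + 1) * (ζ - 1) * hζ]
    simp)
  have k : (3 : ℂ) = 0 := by linear_combination (2 - ζ) * hζ + (ζ - 1) * this
  norm_num at k

theorem g3_ne (hb : 44 < q) (hc : c ≠ 0) {L : Submodule ℤ ℂ} (h : Ivt q c L) : g3 L ≠ 0 := by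
  intro h3
  have := aut hb hc h (ζ := Complex.I) Complex.I_ne_zero (by simp) (by simp [h3])
  rw [Complex.I_sq] at this
  norm_num at this

theorem bar_Oc (hc : c ≠ 0) : bar (Oc q c) = Oc q c := bar_ord (com_sq hq.out c) (cim hc)

theorem cl_bar (hc : c ≠ 0) {x : Pic q c} {L : Submodule ℤ ℂ} (h : Cl x L) : Cl x⁻¹ (bar L) := by
  obtain ⟨h1, B, hB⟩ := h.inv
  obtain ⟨μ, h0, e⟩ := hyp.mul_bar (com_sq hq.out c) (cim hc) hB h1
  obtain ⟨y, hy⟩ := Ivt.cl (q := q) (c := c) (L := bar L)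
    ⟨by rw [← bar_Oc hc, ← bar_mul, h1], bar B, by rw [← bar_mul, hB, bar_Oc hc]⟩
  have k := h.mul hy
  rw [e] at k
  rwa [inv_eq_of_mul_eq_one_right (k.unique (cl_smul_one h0))]

theorem cl_jL (hc : c ≠ 0) {x : Pic q c} {L M : Submodule ℤ ℂ} (h : Cl x L) (hM : IsLat M)
    (e : jL L = jL M) : Cl x M := by
  obtain ⟨μ, h0, rfl⟩ := hyp.eq_smul_of_jL_eq (isLat hc h.inv) hM e
  exact h.smul h0

theorem mem_J (hc : c ≠ 0) {L : Submodule ℤ ℂ} (h : Ivt q c L) : jL L ∈ Jset (c * om q) :=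
  ⟨L, isLat hc h, ord_mul_eq_iff.1 h.1, rfl⟩

theorem fin (hc : c ≠ 0) : Finite (Pic q c) := by
  have := (hyp.finite_Jset (cim (q := q) hc)).to_subtype
  refine Finite.of_injective (β := Jset (c * om q))
    (fun x => ⟨_, mem_J hc (cl_out x).inv⟩) fun x y e => ?_
  exact (cl_jL hc (cl_out x) (isLat hc (cl_out y).inv) (congrArg Subtype.val e)).unique (cl_out y)

theorem odd (hp : q.Prime) : Odd (hh q) := by
  have := fin (q := q) one_ne_zero
  by_contra h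
  obtain ⟨x, hx⟩ := exists_prime_orderOf_dvd_card' (G := Pic q 1) 2
    (even_iff_two_dvd.1 (Nat.not_odd_iff_even.1 h))
  have h2 : x⁻¹ = x := inv_eq_of_mul_eq_one_right (by rw [← sq, ← hx, pow_orderOf_eq_one])
  have hL := isLat one_ne_zero (cl_out x).inv
  have k := cl_bar one_ne_zero (cl_out x)
  rw [h2] at k
  obtain ⟨μ, h0, e⟩ := (cl_out x).exists_smul k
  have hJ := mem_J one_ne_zero (cl_out x).inv
  rw [Nat.cast_one, one_mul] at hJ
  have e' := unique_real (om_sq hq.out) (om_im q_ne) (by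
    have h4 := hq.out
    rw [show 4 * (((q + 1) / 4 : ℕ) : ℤ) - 1 = q by omega]
    exact Nat.prime_iff_prime_int.1 hp) hJ (by rw [← hyp.jL_bar hL, e, hyp.jL_smul _ h0])
  have : x = 1 := (cl_out x).unique (cl_jL one_ne_zero cl_one hL (by rw [Oc_one, e']; rfl))
  rw [this, orderOf_one] at hx
  omega

theorem act (hc : c ≠ 0) {σ : G} (hσ : σ (om q) = om q) (x : Pic q c) (L L' : Submodule ℤ ℂ) :
    Cl x L → Conj (σ : ℂ →+* ℂ) L L' → Cl (ar q c σ * x) L' := by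
  refine Classical.epsilon_spec (p := fun a => ∀ (x : Pic q c) L L', Cl x L →
    Conj (σ : ℂ →+* ℂ) L L' → Cl (a * x) L') ?_ x L L'
  obtain ⟨A, B, -, -, h3, h4, h5⟩ := hyp.cm_of_aut (com_sq hq.out c) (cim hc) σ (by simp [hσ])
  obtain ⟨a, ha⟩ := Ivt.cl (q := q) (c := c) ⟨h4, B, h3⟩
  exact ⟨a, fun x L L' h h' => cl_jL hc (ha.mul h) h'.2.1
    ((h5 L h'.1 h.inv.1).2.symm.trans h'.jL)⟩

theorem act_one (hc : c ≠ 0) {σ : G} (hσ : σ (om q) = om q) {L : Submodule ℤ ℂ}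
    (h : Conj (σ : ℂ →+* ℂ) (Oc q c) L) : Cl (ar q c σ) L := by
  simpa using act hc hσ 1 _ L cl_one h

omit hq in
theorem comp {σ τ : G} {L M N : Submodule ℤ ℂ} (h : Conj (σ : ℂ →+* ℂ) M N)
    (h' : Conj (τ : ℂ →+* ℂ) L M) : Conj ((σ * τ : G) : ℂ →+* ℂ) L N :=
  ⟨h'.1, h.2.1, (congrArg σ h'.2.2.1).trans h.2.2.1, (congrArg σ h'.2.2.2).trans h.2.2.2⟩

end Pic

open Pic in
theorem pic_thm : PicStmt := by
  intro q hq hp hb
  refine ⟨odd hp, fun c hc => ⟨fin hc, fun x L h => ⟨isLat hc h.inv, Pic.g2_ne hb hc h.inv,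
    Pic.g3_ne hb hc h.inv, cl_bar hc h, le_iff h.inv⟩, fun μ => unit hb, fun σ hσ => ?_⟩⟩
  have hO : IsLat (Oc q c) := isLat_ord (cim hc)
  obtain ⟨L, hL⟩ := hyp.exists_conj (σ : ℂ →+* ℂ) hO
  refine ⟨act hc hσ, fun τ hτ => ?_, ?_, fun c' h' => ?_⟩
  · obtain ⟨M, hM⟩ := hyp.exists_conj (τ : ℂ →+* ℂ) hO
    obtain ⟨N, hN⟩ := hyp.exists_conj (σ : ℂ →+* ℂ) hM.2.1
    exact (act_one hc (σ := σ * τ) ((congrArg σ hτ).trans hσ) (comp hN hM)).unique
      (act hc hσ _ _ _ (act_one hc hτ hM) hN)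
  · have e : cj (om q) = 1 - om q := by
      simpa using conj_omega (om' (om_sq hq.out)) (om_im q_ne).ne'
    have k : Conj (cj : ℂ →+* ℂ) (Oc q c) (Oc q c) := by
      have := hyp.conj_bar hO
      rwa [bar_Oc hc] at this
    refine (act_one hc ?_ (comp (comp (σ := cj) (hyp.conj_bar hL.2.1) hL) k)).unique
      (cl_bar hc (act_one hc hσ hL))
    change cj (σ (cj (om q))) = _
    rw [e, map_sub, map_one, hσ, map_sub, map_one, e, sub_sub_cancel]
  · have hc' : c' ≠ 0 := ne_zero_of_dvd_ne_zero hc h'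
    obtain ⟨M, hM⟩ := hyp.exists_conj (σ : ℂ →+* ℂ) (isLat_ord (cim (q := q) hc'))
    have h0 : (c' : ℂ) * om q ≠ 0 := fun e => cim (q := q) hc' (by rw [e]; rfl)
    have k := hyp.conj_sup hL (hyp.conj_smul hL h0) (N := M) (by
      have := Oc_mul hq.out h'
      rw [Oc, sp_mul, one_smul] at this
      rw [this]
      exact hM)
    have k' := (act_one hc hσ hL).res h'
    rw [Oc, sp_mul, one_smul] at k'
    refine k'.unique ?_
    have := act_one hc' hσ hM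
    rw [k] at this
    simpa [hσ] using this

end Pool.Agent.Lib.MP_d6ddbd_nt.K11
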