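import Pool.Agent.Lib.MP_d6ddbd_nt.K11.Stmt
import Pool.Agent.Lib.MP_d6ddbd_nt.Gal

/-!
The points of the curve: algebraic points, halves, points of order two, Kummer classes.
-/

set_option autoImplicit false
set_option maxSynthPendingDepth 3

open Polynomial WeierstrassCurve
open Pool.Agent.Lib.MP_02f36d_nt (xc yc pt_ext eqn xc_neg yc_neg eq_or_neg_of_xc add_coords
  add_eq_zero_of_coords)

noncomputable section

namespace Pool.Agent.Lib.MP_d6ddbd_nt.K11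

namespace R1

lemma xc0 : xc (0 : Pt) = 0 := rfl

lemma yc0 : yc (0 : Pt) = 0 := rfl

lemma a1 : EE.a₁ = 0 := rfl
lemma a2 : EE.a₂ = -4 := rfl
lemma a3 : EE.a₃ = 0 := rfl
lemma a4 : EE.a₄ = -160 := rfl
lemma a6 : EE.a₆ = -1264 := rfl

lemma eq1 {P : Pt} (h : P ≠ 0) : yc P ^ 2 = fc (xc P) := by
  have := eqn h
  simp only [a1, a2, a3, a4, a6, fc] at this ⊢
  linear_combination this

lemma fd_ne {x : ℂ} (h : fc x = 0) : fd x ≠ 0 := fun h' => by
  simp only [fc, fd] at h h'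
  have u : 62 * x + 751 = 0 := by linear_combination ((3 * x - 4) * h' - 9 * h) / 16
  have v : (1449459 : ℂ) = 0 := by
    linear_combination 3844 * h' - (3 * (62 * x + 751) - 5002) * u
  norm_num at v

lemma map_fc (σ : G) (x : ℂ) : σ (fc x) = fc (σ x) := by simp [fc, map_ofNat]

lemma map_fd (σ : G) (x : ℂ) : σ (fd x) = fd (σ x) := by simp [fd, map_ofNat]

lemma negY (x y : ℂ) : EE.negY x y = -y := by simp [EE, Affine.negY]

lemma ycn {P : Pt} (h : P ≠ 0) : yc (-P) = -yc P := by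
  rw [yc_neg h]; simp [a1, a3]

lemma pt_spec {x y : ℂ} (h : y ^ 2 = fc x) :
    pt x y ≠ 0 ∧ xc (pt x y) = x ∧ yc (pt x y) = y := by
  have hn : EE.Nonsingular x y := by
    rw [Affine.nonsingular_iff', Affine.equation_iff]
    refine ⟨by simp only [EE, fc] at h ⊢; linear_combination h, ?_⟩
    by_cases hy : y = 0
    · have := fd_ne (x := x) (by rw [← h, hy]; ring)
      refine Or.inl fun e => this ?_
      simp only [EE, fd] at e ⊢
      linear_combination -e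
    · refine Or.inr fun e => hy ?_
      simp only [EE] at e
      linear_combination e / 2
  rw [pt, dif_pos hn]
  exact ⟨Affine.Point.some_ne_zero _, rfl, rfl⟩

lemma dbl {P : Pt} (h : P ≠ 0) (hy : yc P ≠ 0) :
    2 • P ≠ 0 ∧ xc (2 • P) * (4 * yc P ^ 2) = fd (xc P) ^ 2 + (4 - 2 * xc P) * (4 * yc P ^ 2) := by
  have hy' : yc P ≠ EE.negY (xc P) (yc P) := fun e => hy (by
    rw [negY] at e; linear_combination e / 2)
  obtain ⟨h1, h2, -⟩ := add_coords h h fun e => hy' e.2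
  rw [two_nsmul]
  refine ⟨h1, ?_⟩
  rw [h2, Affine.slope_of_Y_ne rfl hy', Affine.addX, negY]
  simp only [a1, a2, a4, fd]
  have : yc P - -yc P = 2 * yc P := by ring
  rw [this]
  field_simp
  ring

lemma two_iff (T : Pt) : 2 • T = 0 ↔ T = 0 ∨ (yc T = 0 ∧ fc (xc T) = 0) := by
  by_cases h : T = 0
  · simp [h]
  refine ⟨fun e => Or.inr ?_, fun e => ?_⟩
  · have hy : yc T = 0 := by_contra fun hy => (dbl h hy).1 e
    exact ⟨hy, by rw [← eq1 h, hy]; ring⟩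
  · have hy := (e.resolve_left h).1
    rw [two_nsmul]
    exact add_eq_zero_of_coords h h rfl (by rw [negY, hy, neg_zero])

lemma add_T {P T : Pt} (hP : P ≠ 0) (hT : T ≠ 0) (hy : yc T = 0) (hx : xc P ≠ xc T) :
    P + T ≠ 0 ∧ xc (P + T) = xc T + fd (xc T) / (xc P - xc T) ∧
      yc (P + T) = -yc P * fd (xc T) / (xc P - xc T) ^ 2 := by
  obtain ⟨h1, h2, h3⟩ := add_coords hP hT fun e => hx e.1
  have e1 := eq1 hP
  have e2 := eq1 hT
  rw [hy] at e2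
  have hx' : xc P - xc T ≠ 0 := sub_ne_zero.2 hx
  have k : EE.addX (xc P) (xc T) (EE.slope (xc P) (xc T) (yc P) (yc T)) =
      xc T + fd (xc T) / (xc P - xc T) := by
    rw [Affine.slope_of_X_ne hx, Affine.addX, hy]
    simp only [a1, a2, fd, fc] at e1 e2 ⊢
    field_simp
    linear_combination e1 - e2
  refine ⟨h1, h2.trans k, ?_⟩
  rw [h3, Affine.addY, Affine.negAddY, k, negY, Affine.slope_of_X_ne hx, hy]
  field_simp
  ring

lemma two_roots {a b : ℂ} (ha : fc a = 0) (hb : fc b = 0) (h : a ≠ b) :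
    a ^ 2 + a * b + b ^ 2 - 4 * (a + b) - 160 = 0 := by
  refine mul_left_cancel₀ (sub_ne_zero.2 h) ?_
  simp only [fc] at ha hb
  linear_combination ha - hb

lemma fd_eq {a b : ℂ} (ha : fc a = 0) (hb : fc b = 0) (h : a ≠ b) :
    fd a = (a - b) * (2 * a + b - 4) := by
  rw [fd]
  linear_combination two_roots ha hb h

lemma fc_eq {a b : ℂ} (ha : fc a = 0) (hb : fc b = 0) (h : a ≠ b) (x : ℂ) :
    fc x = (x - a) * (x - b) * (x - (4 - a - b)) := by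
  have := two_roots ha hb h
  simp only [fc] at ha ⊢
  linear_combination ha + (x - a) * this

lemma add_TT {T T' : Pt} (h : T ≠ 0) (h' : T' ≠ 0) (e : 2 • T = 0) (e' : 2 • T' = 0)
    (hx : xc T ≠ xc T') : T + T' ≠ 0 ∧ xc (T + T') = 4 - xc T - xc T' ∧ yc (T + T') = 0 := by
  obtain ⟨y1, f1⟩ := ((two_iff T).1 e).resolve_left h
  obtain ⟨y2, f2⟩ := ((two_iff T').1 e').resolve_left h'
  obtain ⟨h1, h2, h3⟩ := add_T h h' y2 hx
  have hx' : xc T - xc T' ≠ 0 := sub_ne_zero.2 hx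
  refine ⟨h1, ?_, by rw [h3, y1]; simp⟩
  rw [h2, fd_eq f2 f1 hx.symm]
  field_simp
  ring

lemma wl0 (e : ℂ) : wl e 0 = 0 := by simp [wl]

lemma wl_eq {e : ℂ} {T : Pt} (h : xc T = e) : wl e T = 0 := by simp [wl, h]

lemma wl_ne {e : ℂ} {T : Pt} (h0 : T ≠ 0) (h : xc T ≠ e) : wl e T = 1 := by simp [wl, h, h0]

lemma wl_iff {e : ℂ} {T : Pt} : wl e T = 0 ↔ T = 0 ∨ xc T = e := by
  unfold wl
  split_ifs with h
  · simp [h]
  · simp [h]

lemma wl_add (e : ℂ) (T T' : Pt) (he : fc e = 0) (h : 2 • T = 0) (h' : 2 • T' = 0) :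
    wl e (T + T') = wl e T + wl e T' := by
  by_cases h0 : T = 0
  · simp [h0, wl0]
  by_cases h0' : T' = 0
  · simp [h0', wl0]
  obtain ⟨y1, f1⟩ := ((two_iff T).1 h).resolve_left h0
  obtain ⟨y2, f2⟩ := ((two_iff T').1 h').resolve_left h0'
  by_cases hx : xc T = xc T'
  · obtain rfl : T = T' := pt_ext h0 h0' hx (y1.trans y2.symm)
    rw [← two_nsmul, h, wl0, CharTwo.add_self_eq_zero]
  obtain ⟨h1, h2, -⟩ := add_TT h0 h0' h h' hx
  have n1 : xc (T + T') ≠ xc T := fun k => fd_ne f1 (by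
    rw [fd_eq f1 f2 hx]; rw [h2] at k; linear_combination (xc T' - xc T) * k)
  have n2 : xc (T + T') ≠ xc T' := fun k => fd_ne f2 (by
    rw [fd_eq f2 f1 (Ne.symm hx)]; rw [h2] at k; linear_combination (xc T - xc T') * k)
  rw [fc_eq f1 f2 hx, ← h2, mul_eq_zero, mul_eq_zero, sub_eq_zero, sub_eq_zero, sub_eq_zero] at he
  rcases he with (rfl | rfl) | rfl
  · rw [wl_ne h1 n1, wl_eq rfl, wl_ne h0' (Ne.symm hx), zero_add]
  · rw [wl_ne h1 n2, wl_ne h0 hx, wl_eq rfl, add_zero]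
  · rw [wl_eq rfl, wl_ne h0 n1.symm, wl_ne h0' n2.symm]; rfl

lemma wl_smul (e : ℂ) (σ : G) (T : Pt) : wl (σ e) (σ • T) = wl e T := by
  simp only [wl, smul_eq_zero', xc_smul, EmbeddingLike.apply_eq_iff_eq]

/-- The square root of `x(2 P) - e`. -/
def hh (e : ℂ) (P : Pt) : ℂ := ((xc P - e) ^ 2 - fd e) / (2 * yc P)

lemma hh_sq {e : ℂ} {P : Pt} (he : fc e = 0) (h : P ≠ 0) (hy : yc P ≠ 0) :
    hh e P ^ 2 = xc (2 • P) - e := by
  have h1 := (dbl h hy).2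
  have h2 := eq1 h
  rw [hh, div_pow, div_eq_iff (by simpa using hy)]
  simp only [fc, fd] at he h1 h2 ⊢
  linear_combination (-1) * h1 - 4 * (4 - 2 * xc P - e) * h2 + (8 * xc P + 8 * e - 16 - 4 * e) * he

lemma hh_smul (e : ℂ) (σ : G) (P : Pt) : σ (hh e P) = hh (σ e) (σ • P) := by
  simp [hh, xc_smul, yc_smul, map_fd, map_ofNat]

lemma hh_neg (e : ℂ) {P : Pt} (h : P ≠ 0) : hh e (-P) = -hh e P := by
  rw [hh, hh, xc_neg, ycn h, mul_neg, div_neg]

lemma xc_ne {P T : Pt} (h : P ≠ 0) (hy : yc P ≠ 0) (f : fc (xc T) = 0) : xc P ≠ xc T :=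
  fun k => hy (by rw [← k, ← eq1 h] at f; simpa using f)

lemma key1 {e : ℂ} {P T : Pt} (he : fc e = 0) (h : P ≠ 0) (hy : yc P ≠ 0) (hT : 2 • T = 0) :
    (wl e T = 0 → hh e (P + T) = hh e P) ∧ (wl e T ≠ 0 → hh e (P + T) = -hh e P) := by
  by_cases h0 : T = 0
  · simp [h0, wl0]
  obtain ⟨y1, f1⟩ := ((two_iff T).1 hT).resolve_left h0
  have hx := xc_ne h hy f1
  have hx' : xc P - xc T ≠ 0 := sub_ne_zero.2 hx
  obtain ⟨-, h2, h3⟩ := add_T h h0 y1 hx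
  have n1 := fd_ne f1
  rw [Ne, wl_iff]
  refine ⟨fun k => ?_, fun k => ?_⟩
  · obtain rfl := k.resolve_left h0
    rw [hh, hh, h2, h3]
    field_simp
    ring
  · have k' : xc T ≠ e := fun a => k (Or.inr a)
    have n2 := n1
    rw [fd_eq f1 he k'] at n2
    have n3 := left_ne_zero_of_mul n2
    have n4 := right_ne_zero_of_mul n2
    have n5 : fd e = (e - xc T) * (e - xc T + (2 * xc T + e - 4)) := by
      rw [fd_eq he f1 k'.symm]; ring
    rw [hh, hh, h2, h3, fd_eq f1 he k', n5]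
    have n6 : e = (2 * xc T + e - 4) + 4 - 2 * xc T := by ring
    generalize 2 * xc T + e - 4 = u at *
    field_simp
    rw [n6]
    ring

lemma key2 {e : ℂ} {P T : Pt} (he : fc e = 0) (h : P ≠ 0) (hy : yc P ≠ 0) (hT : 2 • T = 0)
    (hs : (xc P - e) ^ 2 = fd e) : (wl e T = 0 → xc (P + T) - e = xc P - e) ∧
      (wl e T ≠ 0 → xc (P + T) - e = -(xc P - e)) := by
  by_cases h0 : T = 0
  · simp [h0, wl0]
  obtain ⟨y1, f1⟩ := ((two_iff T).1 hT).resolve_left h0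
  have hx := xc_ne h hy f1
  have hx' : xc P - xc T ≠ 0 := sub_ne_zero.2 hx
  obtain ⟨-, h2, -⟩ := add_T h h0 y1 hx
  rw [Ne, wl_iff]
  refine ⟨fun k => ?_, fun k => ?_⟩
  · obtain rfl := k.resolve_left h0
    rw [h2, ← hs]
    field_simp
    ring
  · have k' : xc T ≠ e := fun a => k (Or.inr a)
    rw [fd_eq he f1 k'.symm] at hs
    rw [h2, fd_eq f1 he k']
    field_simp
    linear_combination hs

lemma sgn {a b : ℂ} {w : ZMod 2} (hb : b ≠ 0) (h : (w = 0 → a = b) ∧ (w ≠ 0 → a = -b)) :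
    (a = b ∨ a = -b) ∧ (a = b ↔ w = 0) := by
  by_cases hw : w = 0
  · exact ⟨Or.inl (h.1 hw), fun _ => hw, h.1⟩
  · refine ⟨Or.inr (h.2 hw), fun k => absurd ?_ hb, fun k => absurd k hw⟩
    linear_combination (h.2 hw - k) / 2

lemma kum (e : ℂ) (S : Pt) (he : fc e = 0) : ∃ h : ℂ, h ≠ 0 ∧ h ^ 2 = gam e (2 • S) ∧
    ∀ (σ : G) (ε : ℤ), σ e = e → (ε = 1 ∨ ε = -1) → σ • (2 • S) = ε • (2 • S) →
      (σ h = h ∨ σ h = -h) ∧
      (wl e (2 • S) = 0 → (σ h = h ↔ wl e (σ • S - ε • S) = 0)) ∧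
      (wl e (2 • S) ≠ 0 → (σ h = ε * h ↔ wl e (σ • S - ε • S) = 0)) := by
  have two : ∀ (σ : G) (ε : ℤ), σ • (2 • S) = ε • (2 • S) → 2 • (σ • S - ε • S) = 0 :=
    fun σ ε k => by rw [smul_sub, ← smul_comm, ← smul_comm ε, k, sub_self]
  by_cases h2 : 2 • S = 0
  · refine ⟨1, one_ne_zero, by simp [gam, h2], fun σ ε hσ hε _ => ⟨Or.inl (map_one σ), fun _ => ?_,
      fun k => absurd (by rw [h2, wl0]) k⟩⟩
    have a : -(ε • S) = S := by
      rcases hε with rfl | rfl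
      · rw [one_smul, neg_eq_iff_add_eq_zero, ← two_nsmul, h2]
      · simp
    have b := wl_smul e σ S
    rw [hσ] at b
    rw [sub_eq_add_neg, a, wl_add e _ _ he (by rw [← smul_comm, h2, smul_zero]) h2, b,
      CharTwo.add_self_eq_zero]
    simp
  have h0 : S ≠ 0 := fun k => h2 (by rw [k, smul_zero])
  have hy : yc S ≠ 0 := fun k => h2 ((two_iff S).2 (Or.inr ⟨k, by rw [← eq1 h0, k]; ring⟩))
  have hs := hh_sq he h0 hy
  have sg : ∀ ε : ℤ, ε = 1 ∨ ε = -1 →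
      ε • S ≠ 0 ∧ yc (ε • S) ≠ 0 ∧ xc (ε • S) = xc S ∧ hh e (ε • S) = ε * hh e S := by
    rintro ε (rfl | rfl)
    · simp [h0, hy]
    · simp [h0, hy, ycn h0, xc_neg, hh_neg e h0]
  by_cases hx : xc (2 • S) = e
  · have k1 : (xc S - e) ^ 2 = fd e := by
      rw [hx, sub_self, sq_eq_zero_iff, hh, div_eq_zero_iff] at hs
      exact sub_eq_zero.1 (hs.resolve_right (by simpa using hy))
    have k2 : xc S - e ≠ 0 := fun k => fd_ne he (by rw [← k1, k]; ring)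
    refine ⟨xc S - e, k2, by simp [gam, h2, hx, k1], fun σ ε hσ hε k => ?_⟩
    obtain ⟨s1, s2, s3, -⟩ := sg ε hε
    have := key2 he s1 s2 (two σ ε k) (by rw [s3, k1])
    rw [add_sub_cancel, s3, xc_smul] at this
    rw [map_sub, hσ]
    exact ⟨(sgn k2 this).1, fun _ => (sgn k2 this).2, fun a => absurd (wl_eq hx) a⟩
  · have k2 : hh e S ≠ 0 := fun k => hx (by rw [k] at hs; linear_combination -hs)
    refine ⟨hh e S, k2, by simp [gam, h2, hx, hs], fun σ ε hσ hε k => ?_⟩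
    obtain ⟨s1, s2, -, s4⟩ := sg ε hε
    have := key1 he s1 s2 (two σ ε k)
    rw [add_sub_cancel, s4] at this
    have k3 : (ε : ℂ) * hh e S ≠ 0 := by rcases hε with rfl | rfl <;> simpa using k2
    rw [hh_smul, hσ]
    refine ⟨?_, fun a => absurd a (by rw [wl_ne h2 hx]; decide), fun _ => (sgn k3 this).2⟩
    rcases hε with rfl | rfl
    · simpa using (sgn k3 this).1
    · simpa using (sgn k3 this).1.symm

/-- The algebraic numbers. -/
abbrev KK : IntermediateField ℚ ℂ := algebraicClosure ℚ ℂ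

lemma algP {P : Pt} : AlgP P ↔ xc P ∈ KK ∧ yc P ∈ KK := by
  rw [AlgP, mem_algebraicClosure_iff, mem_algebraicClosure_iff]

lemma alg4 {x a b c d : ℂ} (ha : a ∈ KK) (hb : b ∈ KK) (hc : c ∈ KK) (hd : d ∈ KK)
    (h : x ^ 4 + a * x ^ 3 + b * x ^ 2 + c * x + d = 0) : x ∈ KK := by
  have : IsIntegral KK x := ⟨X ^ 4 + C ⟨a, ha⟩ * X ^ 3 + C ⟨b, hb⟩ * X ^ 2 + C ⟨c, hc⟩ * X +
    C ⟨d, hd⟩, by monicity!, by simpa using h⟩
  have _ : Algebra.IsAlgebraic ℚ KK := algebraicClosure.isAlgebraic ℚ ℂ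
  exact mem_algebraicClosure_iff.2 (this.isAlgebraic.restrictScalars ℚ)

lemma ex4 (a b c d : ℂ) : ∃ x : ℂ, x ^ 4 + a * x ^ 3 + b * x ^ 2 + c * x + d = 0 := by
  have h : (X ^ 4 + C a * X ^ 3 + C b * X ^ 2 + C c * X + C d : ℂ[X]).degree = 4 := by
    compute_degree!
  obtain ⟨x, hx⟩ := IsAlgClosed.exists_root _ (by rw [h]; decide)
  exact ⟨x, by simpa using hx⟩

lemma alg_add (P Q : Pt) (hP : AlgP P) (hQ : AlgP Q) : AlgP (P + Q) := by
  by_cases h : P = 0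
  · rwa [h, zero_add]
  by_cases h' : Q = 0
  · rwa [h', add_zero]
  by_cases k : xc P = xc Q ∧ yc P = EE.negY (xc Q) (yc Q)
  · rw [add_eq_zero_of_coords h h' k.1 k.2]
    exact ⟨isAlgebraic_zero, isAlgebraic_zero⟩
  obtain ⟨-, h2, h3⟩ := add_coords h h' k
  rw [algP] at hP hQ ⊢
  obtain ⟨p1, p2⟩ := hP
  obtain ⟨q1, q2⟩ := hQ
  have s : EE.slope (xc P) (xc Q) (yc P) (yc Q) ∈ KK := by
    rw [Affine.slope, negY, negY]
    simp only [a1, a2, a4]
    split_ifs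
    · exact zero_mem _
    · exact div_mem (sub_mem (add_mem (add_mem (mul_mem (ofNat_mem _ 3) (pow_mem p1 2))
        (mul_mem (mul_mem (ofNat_mem _ 2) (neg_mem (ofNat_mem _ 4))) p1))
        (neg_mem (ofNat_mem _ 160))) (mul_mem (zero_mem _) p2)) (sub_mem p2 (neg_mem p2))
    · exact div_mem (sub_mem p2 q2) (sub_mem p1 q1)
  have a : EE.addX (xc P) (xc Q) (EE.slope (xc P) (xc Q) (yc P) (yc Q)) ∈ KK :=
    sub_mem (sub_mem (sub_mem (add_mem (pow_mem s 2) (mul_mem (zero_mem _) s))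
      (neg_mem (ofNat_mem _ 4))) p1) q1
  rw [h2, h3, Affine.addY, negY, Affine.negAddY]
  exact ⟨a, neg_mem (add_mem (mul_mem s (sub_mem a p1)) p2)⟩

lemma alg_half (P : Pt) (hP : AlgP (2 • P)) : AlgP P := by
  by_cases h : P = 0
  · rwa [h, smul_zero, ← h] at hP
  have e := eq1 h
  have hx : xc P ∈ KK := by
    by_cases hy : yc P = 0
    · refine alg4 (neg_mem (ofNat_mem _ 4)) (neg_mem (ofNat_mem _ 160))
        (neg_mem (ofNat_mem _ 1264)) (zero_mem _) ?_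
      rw [hy, fc] at e
      linear_combination -xc P * e
    · have p := (algP.1 hP).1
      have d := (dbl h hy).2
      refine alg4 (mul_mem (neg_mem (ofNat_mem _ 4)) p)
        (add_mem (ofNat_mem _ 320) (mul_mem (ofNat_mem _ 16) p))
        (add_mem (ofNat_mem _ 10112) (mul_mem (ofNat_mem _ 640) p))
        (add_mem (ofNat_mem _ 5376) (mul_mem (ofNat_mem _ 5056) p)) ?_
      rw [e, fc, fd] at d
      linear_combination -d
  refine ⟨mem_algebraicClosure_iff.1 hx, IsAlgebraic.of_pow two_pos ?_⟩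
  rw [e, fc]
  exact mem_algebraicClosure_iff.1 (sub_mem (sub_mem (sub_mem (pow_mem hx 3)
    (mul_mem (ofNat_mem _ 4) (pow_mem hx 2))) (mul_mem (ofNat_mem _ 160) hx)) (ofNat_mem _ 1264))

lemma ex_half (P : Pt) : ∃ S : Pt, 2 • S = P := by
  by_cases h : P = 0
  · exact ⟨0, by rw [h, smul_zero]⟩
  obtain ⟨x, hx⟩ := ex4 (-4 * xc P) (320 + 16 * xc P) (10112 + 640 * xc P) (5376 + 5056 * xc P)
  obtain ⟨y, hy⟩ := IsAlgClosed.exists_pow_nat_eq (fc x) two_pos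
  have k : fd x ^ 2 + (4 - 2 * x - xc P) * (4 * y ^ 2) = 0 := by
    rw [hy, fc, fd]; linear_combination hx
  have y0 : y ≠ 0 := fun e => fd_ne (x := x) (by rw [← hy, e]; ring)
    (by rw [e] at k; simpa using k)
  obtain ⟨p0, p1, p2⟩ := pt_spec hy
  obtain ⟨d0, d1⟩ := dbl p0 (by rwa [p2])
  rw [p1, p2] at d1
  have e : xc (2 • pt x y) = xc P :=
    mul_right_cancel₀ (b := 4 * y ^ 2) (by simpa using y0) (by linear_combination d1 + k)
  rcases eq_or_neg_of_xc d0 h e with a | a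
  · exact ⟨_, a⟩
  · exact ⟨-pt x y, by rw [smul_neg, a, neg_neg]⟩

lemma real_root : ∃ r : ℝ, 17 ≤ r ∧ r ≤ 18 ∧ fc r = 0 := by
  have c : Continuous (fc : ℝ → ℝ) := by unfold fc; fun_prop
  obtain ⟨r, h1, h2⟩ := intermediate_value_Icc (show (17 : ℝ) ≤ 18 by norm_num) c.continuousOn
    (show (0 : ℝ) ∈ Set.Icc (fc 17) (fc 18) by norm_num [fc])
  exact ⟨r, h1.1, h1.2, h2⟩

lemma moved {e : ℂ} (he : fc e = 0) : ∃ σ : G, σ e ≠ e := by
  by_contra h
  push Not at h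
  have h1 := mem_of_fix (x := 0) (y := e) isIntegral_zero fun σ _ => h σ
  rw [IntermediateField.adjoin_zero, IntermediateField.mem_bot] at h1
  obtain ⟨q, rfl⟩ := h1
  have h2 : fc q = 0 := by
    simp only [fc, eq_ratCast] at he ⊢
    exact_mod_cast he
  have h3 : IsIntegral ℤ q := ⟨X ^ 3 - C 4 * X ^ 2 - C 160 * X - C 1264, by monicity!, by
    simpa [fc] using h2⟩
  obtain ⟨z, rfl⟩ := IsIntegrallyClosed.isIntegral_iff.1 h3
  have h4 : fc z = 0 := by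
    simp only [fc, eq_intCast] at h2 ⊢
    exact_mod_cast h2
  have h5 : fc (z : ZMod 3) = 0 := by
    have := congrArg (Int.cast : ℤ → ZMod 3) h4
    simpa [fc] using this
  generalize (z : ZMod 3) = w at h5
  revert w
  decide

lemma roots : ∃ e₁ e₂ e₃ : ℂ, (∀ x, fc x = (x - e₁) * (x - e₂) * (x - e₃)) ∧ e₁ ≠ e₂ ∧ e₁ ≠ e₃ ∧
    e₂ ≠ e₃ ∧ cj e₁ = e₁ ∧ cj e₂ = e₃ ∧ cj e₃ = e₂ ∧ e₃ = 4 - e₁ - e₂ := by
  obtain ⟨r, h1, -, h2⟩ := real_root
  have h3 : 0 < 3 * r ^ 2 - 8 * r - 656 := by nlinarith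
  have h4 := Real.sqrt_pos.2 h3
  have h5 := Real.sq_sqrt h3.le
  generalize √(3 * r ^ 2 - 8 * r - 656) = s at h4 h5
  have h6 : (s : ℂ) ^ 2 = 3 * r ^ 2 - 8 * r - 656 := by exact_mod_cast h5
  have h7 : (r : ℂ) ^ 3 - 4 * r ^ 2 - 160 * r - 1264 = 0 := by exact_mod_cast h2
  refine ⟨r, (4 - r + s * Complex.I) / 2, (4 - r - s * Complex.I) / 2, fun x => ?_, fun k => ?_,
    fun k => ?_, fun k => ?_, by simp, by simp [map_ofNat, sub_eq_add_neg],
    by simp [map_ofNat], by ring⟩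
  · rw [fc]
    linear_combination h7 - (x - r) / 4 * h6 + (x - r) * s ^ 2 / 4 * Complex.I_sq
  · have := congrArg Complex.im k
    simp at this
    linarith
  · have := congrArg Complex.im k
    simp at this
    linarith
  · have := congrArg Complex.im k
    simp at this
    linarith

lemma three : ∃ e₁ e₂ e₃ : ℂ, (∀ x, fc x = (x - e₁) * (x - e₂) * (x - e₃)) ∧ e₁ ≠ e₂ ∧ e₁ ≠ e₃ ∧
    e₂ ≠ e₃ ∧ cj e₁ = e₁ ∧ cj e₂ = e₃ ∧ pt e₁ 0 + pt e₂ 0 = pt e₃ 0 ∧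
    (∃ ω : G, ω e₁ = e₂ ∧ ω e₂ = e₃ ∧ ω e₃ = e₁) ∧
    ∀ T : Pt, 2 • T = 0 → wl e₁ T + wl e₂ T + wl e₃ T = 0 := by
  obtain ⟨a, b, c, h, n1, n2, n3, c1, c2, c3, s⟩ := roots
  have rt : ∀ x, fc x = 0 → x = a ∨ x = b ∨ x = c := fun x hx => by
    rwa [h, mul_eq_zero, mul_eq_zero, sub_eq_zero, sub_eq_zero, sub_eq_zero, or_assoc] at hx
  have ha : fc a = 0 := by rw [h]; ring
  have hb : fc b = 0 := by rw [h]; ring
  have hc : fc c = 0 := by rw [h]; ring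
  have p : ∀ x, fc x = 0 → pt x 0 ≠ 0 ∧ xc (pt x 0) = x ∧ yc (pt x 0) = 0 := fun x hx =>
    pt_spec (by rw [hx]; ring)
  have p2 : ∀ x, fc x = 0 → 2 • pt x 0 = 0 := fun x hx =>
    (two_iff _).2 (Or.inr ⟨(p x hx).2.2, by rwa [(p x hx).2.1]⟩)
  have mv : ∀ (σ : G) x, fc x = 0 → fc (σ x) = 0 := fun σ x hx => by rw [← map_fc, hx, map_zero]
  refine ⟨a, b, c, h, n1, n2, n3, c1, c2, ?_, ?_, fun T hT => ?_⟩
  · obtain ⟨k1, k2, k3⟩ := add_TT (p a ha).1 (p b hb).1 (p2 a ha) (p2 b hb)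
      (by rwa [(p a ha).2.1, (p b hb).2.1])
    refine pt_ext k1 (p c hc).1 ?_ (k3.trans (p c hc).2.2.symm)
    rw [k2, (p a ha).2.1, (p b hb).2.1, (p c hc).2.1, s]
  · obtain ⟨σ, hσ⟩ : ∃ σ : G, σ a = b := by
      obtain ⟨σ, hσ⟩ := moved ha
      rcases (rt _ (mv σ a ha)).resolve_left hσ with k | k
      · exact ⟨σ, k⟩
      · exact ⟨cj * σ, by rw [RingAut.mul_apply, k, c3]⟩
    have hs : σ c = 4 - b - σ b := by rw [s, map_sub, map_sub, hσ, map_ofNat]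
    rcases rt _ (mv σ b hb) with k | k | k
    · refine ⟨σ * cj, by rw [RingAut.mul_apply, c1, hσ], ?_, by rw [RingAut.mul_apply, c3, k]⟩
      rw [RingAut.mul_apply, c2, hs, k, s]
      ring
    · exact absurd (σ.injective (hσ.trans k.symm)) n1
    · refine ⟨σ, hσ, k, ?_⟩
      rw [hs, k, s]
      ring
  · by_cases h0 : T = 0
    · simp [h0, wl0]
    rcases rt _ (((two_iff T).1 hT).resolve_left h0).2 with rfl | rfl | rfl
    · rw [wl_eq rfl, wl_ne h0 n1, wl_ne h0 n2]; rfl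
    · rw [wl_eq rfl, wl_ne h0 n1.symm, wl_ne h0 n3]; rfl
    · rw [wl_eq rfl, wl_ne h0 n2.symm, wl_ne h0 n3.symm]; rfl

end R1

open R1 in
theorem r1_thm : R1Stmt := by
  refine ⟨⟨⟨isAlgebraic_zero, isAlgebraic_zero⟩, alg_add, fun P h => ?_, fun σ P h => ?_, alg_half,
    ex_half⟩, fun P => eq1, fun x y => pt_spec, two_iff, three, wl_add, wl_smul, kum⟩
  · by_cases h0 : P = 0
    · rwa [h0, neg_zero, ← h0]
    · exact ⟨by rw [xc_neg]; exact h.1, by rw [ycn h0]; exact h.2.neg⟩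
  · exact ⟨by rw [xc_smul]; exact h.1.algHom (σ : ℂ →+* ℂ).toRatAlgHom,
      by rw [yc_smul]; exact h.2.algHom (σ : ℂ →+* ℂ).toRatAlgHom⟩

end Pool.Agent.Lib.MP_d6ddbd_nt.K11
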