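import Pool.Agent.Lib.MP_d6ddbd_nt.K11.Stmt
import Pool.Agent.Lib.MP_02f36d_nt.Place

/-!
Reduction of points at a place of good reduction, and the type of a prime.
-/

set_option autoImplicit false

open Polynomial WeierstrassCurve IsLocalRing
open Pool.Agent.Lib.MP_02f36d_nt
open scoped Classical

noncomputable section

namespace Pool.Agent.Lib.MP_d6ddbd_nt.K11

namespace R2

section

variable {A : Type} [AddCommGroup A] {T₁ T₂ T₃ : A}

theorem third (h : ∀ T : A, 2 • T = 0 ↔ T = 0 ∨ T = T₁ ∨ T = T₂ ∨ T = T₃) (s : T₁ + T₂ = T₃)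
    {a b c : A} (ha : 2 • a = 0) (hb : 2 • b = 0) (hc : 2 • c = 0) (a0 : a ≠ 0) (b0 : b ≠ 0)
    (c0 : c ≠ 0) (ab : a ≠ b) (ac : a ≠ c) (bc : b ≠ c) : a + b = c := by
  have h1 := (h T₁).2 (by simp)
  have h2 := (h T₂).2 (by simp)
  rw [two_nsmul] at h1 h2
  have e1 : T₁ + (T₁ + T₂) = T₂ := by rw [← add_assoc, h1, zero_add]
  have e2 : T₂ + (T₁ + T₂) = T₁ := by rw [add_left_comm, h2, add_zero]
  subst s
  rcases (h a).1 ha with rfl | rfl | rfl | rfl <;> rcases (h b).1 hb with rfl | rfl | rfl | rfl <;>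
    rcases (h c).1 hc with rfl | rfl | rfl | rfl <;>
    first
      | contradiction
      | rfl
      | exact add_comm _ _
      | exact e1
      | exact e2
      | exact (add_comm _ _).trans e1
      | exact (add_comm _ _).trans e2

/-- The three types of automorphisms of a group of type `(2, 2)`. -/
theorem types (h : ∀ T : A, 2 • T = 0 ↔ T = 0 ∨ T = T₁ ∨ T = T₂ ∨ T = T₃) (s : T₁ + T₂ = T₃)
    (n1 : T₁ ≠ 0) (n2 : T₂ ≠ 0) (n3 : T₃ ≠ 0) (d1 : T₁ ≠ T₂) (d2 : T₁ ≠ T₃) (d3 : T₂ ≠ T₃)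
    (f : A →+ A) (i : Function.Injective f) (n : ℕ)
    (hn : n = {T : A | 2 • T = 0 ∧ T ≠ 0 ∧ f T = T}.ncard) :
    (n = 0 ∨ n = 1 ∨ n = 3) ∧ (n = 3 ↔ ∀ T : A, 2 • T = 0 → f T = T) ∧
    (n = 1 ↔ (∀ T : A, 2 • T = 0 → f (f T) = T) ∧ ∃ T : A, 2 • T = 0 ∧ f T ≠ T) ∧
    (n = 0 ↔ ∀ T : A, 2 • T = 0 → f (f T) + f T + T = 0) := by
  have f2 : ∀ {T : A}, 2 • T = 0 → 2 • f T = 0 := fun e => by rw [← map_nsmul, e, map_zero]
  have f0 : ∀ {T : A}, T ≠ 0 → f T ≠ 0 := fun e => (map_ne_zero_iff f i).2 e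
  have dbl : ∀ {T : A}, 2 • T = 0 → T + T = 0 := fun e => by rwa [two_nsmul] at e
  have t1 := (h T₁).2 (by simp)
  have AC : (∀ T : A, 2 • T = 0 → f T = T) → ¬∀ T : A, 2 • T = 0 → f (f T) + f T + T = 0 :=
    fun a c => n1 (by simpa only [a T₁ t1, dbl t1, zero_add] using c T₁ t1)
  have BC : (∀ T : A, 2 • T = 0 → f (f T) = T) → ¬∀ T : A, 2 • T = 0 → f (f T) + f T + T = 0 :=
    fun a c => f0 n1 (by
      have := c T₁ t1
      rwa [a T₁ t1, add_right_comm, dbl t1, zero_add] at this)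
  by_cases hA : ∀ T : A, 2 • T = 0 → f T = T
  · have : n = 3 := hn.trans (Set.ncard_eq_three.2 ⟨T₁, T₂, T₃, d1, d2, d3, Set.ext fun T =>
      ⟨fun m => ((h T).1 m.1).resolve_left m.2.1, fun m => by
        have := (h T).2 (Or.inr m)
        refine ⟨this, ?_, hA T this⟩
        rcases m with rfl | rfl | rfl <;> assumption⟩⟩)
    subst this
    exact ⟨by simp, iff_of_true rfl hA, iff_of_false (by simp) fun ⟨_, T, a, b⟩ => b (hA T a),
      iff_of_false (by simp) (AC hA)⟩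
  have hA' := hA
  push Not at hA'
  obtain ⟨S, S2, Sf⟩ := hA'
  have S0 : S ≠ 0 := fun e => Sf (by rw [e, map_zero])
  by_cases hB : ∃ T : A, 2 • T = 0 ∧ T ≠ 0 ∧ f T = T
  · obtain ⟨T, T2, T0, Tf⟩ := hB
    have : n = 1 := hn.trans (Set.ncard_eq_one.2 ⟨T, Set.ext fun T' => ⟨fun m => by
      by_contra e
      refine Sf ?_
      rw [← third h s m.1 T2 S2 m.2.1 T0 S0 e (fun e => Sf (e ▸ m.2.2)) fun e => Sf (e ▸ Tf),
        map_add, m.2.2, Tf], fun m => m ▸ ⟨T2, T0, Tf⟩⟩⟩)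
    subst this
    have B : ∀ P : A, 2 • P = 0 → f (f P) = P := fun P P2 => by
      by_cases e : f P = P
      · rw [e, e]
      have P0 : P ≠ 0 := fun z => e (by rw [z, map_zero])
      have TP : T ≠ P := fun z => e (z ▸ Tf)
      have := third h s T2 P2 (f2 P2) T0 P0 (f0 P0) TP (fun z => TP (i (Tf.trans z))) (Ne.symm e)
      rw [← this, map_add, Tf, ← this, ← add_assoc, dbl T2, zero_add]
    exact ⟨by simp, iff_of_false (by simp) hA, iff_of_true rfl ⟨B, S, S2, Sf⟩,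
      iff_of_false (by simp) (BC B)⟩
  · have : n = 0 := hn.trans ((congrArg Set.ncard
      (Set.eq_empty_of_forall_notMem fun T m => hB ⟨T, m⟩)).trans (Set.ncard_empty _))
    subst this
    have C : ∀ P : A, 2 • P = 0 → f (f P) + f P + P = 0 := fun P P2 => by
      by_cases P0 : P = 0
      · simp [P0]
      have a : f P ≠ P := fun e => hB ⟨P, P2, P0, e⟩
      have b : f (f P) ≠ P := fun e => hB ⟨f P + P, by rw [smul_add, f2 P2, P2, add_zero],
        fun z => a (by rw [← add_zero (f P), ← dbl P2, ← add_assoc, z, zero_add]),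
        by rw [map_add, e, add_comm]⟩
      rw [third h s (f2 (f2 P2)) (f2 P2) P2 (f0 (f0 P0)) (f0 P0) P0 (fun e => a (i e)) b a, dbl P2]
    exact ⟨by simp, iff_of_false (by simp) hA, iff_of_false (by simp) fun e => BC e.1 C,
      iff_of_true rfl C⟩

end

theorem closed (O : ValuationSubring ℂ) : IsAlgClosed (ResidueField O) := by
  refine IsAlgClosed.of_exists_root _ fun f hf hirr => ?_
  obtain ⟨g, hg1, hg2, hg3⟩ := lifts_and_degree_eq_and_monic
    (map_surjective (residue O) residue_surjective f) hf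
  obtain ⟨x, hx⟩ := IsAlgClosed.exists_root (g.map (algebraMap O ℂ)) (by
    rw [hg3.degree_map, hg2]
    exact (degree_pos_of_irreducible hirr).ne')
  obtain ⟨y, rfl⟩ := IsIntegrallyClosed.algebraMap_eq_of_integral (R := O) (K := ℂ) (x := x)
    ⟨g, hg3, by rw [← eval_map]; exact hx⟩
  refine ⟨residue O y, ?_⟩
  rw [IsRoot.def, eval_map, eval₂_at_apply, map_eq_zero_iff _ (IsFractionRing.injective O ℂ)] at hx
  rw [← hg1, eval_map, eval₂_at_apply, hx, map_zero]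

/-- The place of a valuation ring. -/
def pl (O : ValuationSubring ℂ) : Place ℂ (ResidueField O) :=
  ⟨O, residue O, fun x h => (residue_ne_zero_iff_isUnit x).1 h⟩

/-- The reduced curve. -/
def Ur (k : Type) [Field k] : Affine k := ⟨0, -4, 0, -160, -1264⟩

variable {O : ValuationSubring ℂ}

theorem sp0 {x : ℂ} : Sp (pl O) x 0 ↔ x ∈ O.nonunits := by
  rw [ValuationSubring.mem_nonunits_iff_exists_mem_maximalIdeal]
  exact exists_congr fun h => residue_eq_zero_iff _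

theorem spW : SpW (pl O) EE (Ur _) :=
  ⟨sp_zero, (sp_ofNat 4).neg, sp_zero, (sp_ofNat 160).neg, (sp_ofNat 1264).neg⟩

theorem delta (k : Type) [Field k] : (Ur k).Δ = -(2 ^ 12 * 11 ^ 5) := by
  simp only [Ur, WeierstrassCurve.Δ, b₂, b₄, b₆, b₈]
  norm_num

theorem spf {x : ℂ} {c : ResidueField O} (h : Sp (pl O) x c) : Sp (pl O) (fc x) (fc c) :=
  (((h.pow 3).sub ((sp_ofNat 4).mul (h.pow 2))).sub ((sp_ofNat 160).mul h)).sub (sp_ofNat 1264)

theorem root_mem {x : ℂ} (h : fc x = 0) : x ∈ O := by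
  by_contra hx
  have h1 := sp_inv_of_notMem (p := pl O) hx
  have x0 : x ≠ 0 := fun e => hx (e ▸ zero_mem _)
  have := (((sp_one.sub ((sp_ofNat 4).mul h1)).sub ((sp_ofNat 160).mul (h1.pow 2))).sub
    ((sp_ofNat 1264).mul (h1.pow 3))).eq sp_zero (by
      rw [fc] at h
      field_simp
      linear_combination h)
  simp at this

theorem root_alg {x : ℂ} (h : fc x = 0) : IsAlgebraic ℚ x := by
  refine ⟨X ^ 3 - C 4 * X ^ 2 - C 160 * X - C 1264, Monic.ne_zero (by monicity!), ?_⟩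
  simpa [fc] using h

theorem exR (h2 : (2 : ResidueField O) ≠ 0) (h11 : (11 : ResidueField O) ≠ 0) :
    ∃ r : Pt →+ (Ur (ResidueField O)).Point, (∀ P, Red (pl O) P (r P)) ∧
      ∀ P, P ∈ E1 O ↔ r P = 0 := by
  have := closed O
  have hU : (Ur (ResidueField O)).Δ ≠ 0 := by
    rw [delta]
    exact neg_ne_zero.2 (mul_ne_zero (pow_ne_zero _ h2) (pow_ne_zero _ h11))
  have hE : EE.Δ ≠ 0 := by
    rw [show EE = Ur ℂ from rfl, delta]
    norm_num
  have : ∀ P : Pt, ∃ q : (Ur (ResidueField O)).Point, Red (pl O) P q := fun P => by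
    by_cases a : P = 0 ∨ xc P ∉ O
    · exact ⟨0, Or.inl ⟨rfl, a⟩⟩
    push Not at a
    have b := sp_of_mem (p := pl O) a.2
    have c := sp_of_mem (spW.y_mem a.1 a.2)
    have ns := (Affine.equation_iff_nonsingular_of_Δ_ne_zero hU).1 (spW.equation a.1 b c)
    exact ⟨.some _ _ ns, Or.inr ⟨a.1, Affine.Point.some_ne_zero ns, b, c⟩⟩
  choose r hr using this
  let r' : Pt →+ (Ur (ResidueField O)).Point := AddMonoidHom.mk' r fun P Q => (hr _).unique
    (Red.add residue_surjective hE (sep_of_c4 (Or.inr hU)) spW (hr P) (hr Q))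
  refine ⟨r', hr, fun P => ⟨fun m => ?_, fun e => ?_⟩⟩
  · exact (AddSubgroup.closure_le r'.ker).2
      (fun Q q => (hr Q).unique (Or.inl ⟨rfl, Or.inr q⟩)) m
  · rcases Red.of_zero (e ▸ hr P : Red (pl O) P (0 : (Ur (ResidueField O)).Point)) with rfl | a
    · exact zero_mem _
    · exact AddSubgroup.subset_closure a

end R2

open R2 in
theorem r2_thm (hV1 : V1Stmt) (hV2 : V2Stmt) (hR1 : R1Stmt) : R2Stmt := by
  intro v O hv v2 v11 ho
  obtain ⟨⟨-, -, -, -, -, half⟩, -, hpt, tor, ⟨e₁, e₂, e₃, fac, d1, d2, d3, -, -, sum, -⟩, -⟩ := hR1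
  have := Fact.mk hv
  have : CharP (ResidueField O) v := (CharP.charP_iff_prime_eq_zero hv).2
    ((sp_nat v).unique (sp0.2 ho))
  have nz : ∀ l : ℕ, l.Prime → v ≠ l → (l : ResidueField O) ≠ 0 := fun l hl e z =>
    e ((Nat.prime_dvd_prime_iff_eq hv hl).1 ((CharP.cast_eq_zero_iff _ v l).1 z))
  have h2 : (2 : ResidueField O) ≠ 0 := by exact_mod_cast nz 2 Nat.prime_two v2
  obtain ⟨r, hr, ker⟩ := exR h2 (by exact_mod_cast nz 11 (by norm_num) v11)
  have c1 : ∀ P : Pt, P ∈ E1 O ↔ P = 0 ∨ xc P ∉ O := fun P => (ker P).trans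
    ⟨fun e => Red.of_zero (e ▸ hr P : Red (pl O) P (0 : (Ur (ResidueField O)).Point)),
      fun e => (hr P).unique (Or.inl ⟨rfl, e⟩)⟩
  have r0 : ∀ {P : Pt}, P ≠ 0 → xc P ∈ O → r P ≠ 0 := fun {P} a b e =>
    ((c1 P).1 ((ker P).2 e)).elim a fun c => c b
  have c2 : ∀ P Q : Pt, P ≠ 0 → Q ≠ 0 → xc Q ∈ O → yc Q ∈ O ∧ (P - Q ∈ E1 O ↔
      xc P - xc Q ∈ O.nonunits ∧ yc P - yc Q ∈ O.nonunits) := fun P Q p0 q0 m => by
    obtain ⟨-, a, b⟩ := (hr Q).of_ne (r0 q0 m)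
    refine ⟨b.mem, ?_⟩
    rw [ker, map_sub, sub_eq_zero, ← sp0, ← sp0]
    refine ⟨fun e => ?_, fun e => (hr P).unique (Or.inr ⟨p0, r0 q0 m, ?_, ?_⟩)⟩
    · obtain ⟨-, a', b'⟩ := (e ▸ hr P : Red (pl O) P (r Q)).of_ne (r0 q0 m)
      exact ⟨(a'.sub a).congr rfl (sub_self _), (b'.sub b).congr rfl (sub_self _)⟩
    · exact (e.1.add a).congr (sub_add_cancel _ _) (zero_add _)
    · exact (e.2.add b).congr (sub_add_cancel _ _) (zero_add _)
  have c4 : ∀ (Q : ℕ) (σ : G) P, Frob O Q σ → Q ≠ 0 → AlgP P → (σ • P ∈ E1 O ↔ P ∈ E1 O) :=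
    fun Q σ P f q a => by rw [c1, c1, smul_eq_zero', xc_smul, (hV2.2.1 O Q σ _ f q a.1).1]
  have L1 : ∀ {T : Pt}, 2 • T = 0 → T ≠ 0 → yc T = 0 ∧ fc (xc T) = 0 := fun {T} a b =>
    ((tor T).1 a).resolve_left b
  have c5 : ∀ (n : ℕ) (P : Pt), 2 ^ n • P = 0 → P ∈ E1 O → P = 0 := fun n => by
    induction n with
    | zero => simp +contextual
    | succ n ih =>
      intro P a b
      by_contra z
      exact ((c1 P).1 b).elim z fun m => m (root_mem (L1 (ih _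
        (by rw [← mul_smul, ← pow_succ, a]) (nsmul_mem b 2)) z).2)
  have L2 : ∀ {T T' : Pt} {c}, 2 • T = 0 → T ≠ 0 → 2 • T' = 0 → T' ≠ 0 → Sp (pl O) (xc T) c →
      Sp (pl O) (xc T') c → T = T' := fun {T T' c} a b a' b' s s' =>
    sub_eq_zero.1 (c5 1 _ (by rw [pow_one, nsmul_sub, a, a', sub_zero])
      ((c2 T T' b b' s'.mem).2.2 ⟨sp0.1 ((s.sub s').congr rfl (sub_self _)),
        by rw [(L1 a b).1, (L1 a' b').1, sub_zero]; exact zero_mem _⟩))
  have P0 : ∀ {e : ℂ}, fc e = 0 → 2 • pt e 0 = 0 ∧ pt e 0 ≠ 0 ∧ xc (pt e 0) = e := fun {e} h =>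
    have := hpt e 0 (by rw [h]; ring)
    ⟨(tor _).2 (Or.inr ⟨this.2.2, by rw [this.2.1, h]⟩), this.1, this.2.1⟩
  have f1 : fc e₁ = 0 := by rw [fac]; ring
  have f2 : fc e₂ = 0 := by rw [fac]; ring
  have f3 : fc e₃ = 0 := by rw [fac]; ring
  have L3 : ∀ {c : ResidueField O}, fc c = 0 → ∃ T : Pt, 2 • T = 0 ∧ T ≠ 0 ∧
      Sp (pl O) (xc T) c := fun {c} h => by
    obtain ⟨x, rfl⟩ := residue_surjective c
    have sx : Sp (pl O) (x : ℂ) (residue O x) := ⟨x.2, rfl⟩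
    have s1 := sp_of_mem (p := pl O) (root_mem f1)
    have s2 := sp_of_mem (p := pl O) (root_mem f2)
    have s3 := sp_of_mem (p := pl O) (root_mem f3)
    have := (spf sx).eq (((sx.sub s1).mul (sx.sub s2)).mul (sx.sub s3)) (fac _)
    rw [h, eq_comm, mul_eq_zero, mul_eq_zero, sub_eq_zero, sub_eq_zero, sub_eq_zero] at this
    rcases this with (e | e) | e
    · exact ⟨_, (P0 f1).1, (P0 f1).2.1, s1.congr (P0 f1).2.2.symm e.symm⟩
    · exact ⟨_, (P0 f2).1, (P0 f2).2.1, s2.congr (P0 f2).2.2.symm e.symm⟩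
    · exact ⟨_, (P0 f3).1, (P0 f3).2.1, s3.congr (P0 f3).2.2.symm e.symm⟩
  have dv : ∀ Q ∈ E1 O, ∃ S ∈ E1 O, 2 • S = Q := fun Q m => by
    obtain ⟨S, rfl⟩ := half Q
    by_cases z : r S = 0
    · exact ⟨S, (ker S).2 z, rfl⟩
    have a : r S + r S = 0 := by rw [← two_nsmul, ← map_nsmul, ← ker]; exact m
    have b : yc (r S) = 0 := by
      by_contra b
      exact (xc_two z (by simpa [Ur, h2] using b)).1 a
    have e : yc (r S) ^ 2 + 0 * xc (r S) * yc (r S) + 0 * yc (r S) =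
      xc (r S) ^ 3 + -4 * xc (r S) ^ 2 + -160 * xc (r S) + -1264 := eqn z
    rw [b] at e
    obtain ⟨T, t2, t0, s⟩ := L3 (c := xc (r S)) (by
      rw [fc]
      linear_combination -e)
    refine ⟨S - T, (ker _).2 ?_, by rw [nsmul_sub, t2, sub_zero]⟩
    rw [map_sub, sub_eq_zero]
    exact ((hr T).unique (Or.inr ⟨t0, z, s, sp_zero.congr (L1 t2 t0).1.symm b.symm⟩)).symm
  have tp : ∀ φ : G, Frob O v φ → _ := fun φ hφ => types (T₁ := pt e₁ 0) (T₂ := pt e₂ 0)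
    (T₃ := pt e₃ 0) (fun T => ⟨fun a => or_iff_not_imp_left.2 fun b => by
      obtain ⟨y, x⟩ := L1 a b
      have k : ∀ {e : ℂ}, fc e = 0 → xc T = e → T = pt e 0 := fun {e} h z =>
        pt_ext b (P0 h).2.1 (z.trans (P0 h).2.2.symm) (y.trans (L1 (P0 h).1 (P0 h).2.1).1.symm)
      rw [fac, mul_eq_zero, mul_eq_zero, sub_eq_zero, sub_eq_zero, sub_eq_zero] at x
      rcases x with (e | e) | e
      exacts [Or.inl (k f1 e), Or.inr (Or.inl (k f2 e)), Or.inr (Or.inr (k f3 e))], by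
      rintro (rfl | rfl | rfl | rfl)
      exacts [nsmul_zero _, (P0 f1).1, (P0 f2).1, (P0 f3).1]⟩) sum (P0 f1).2.1 (P0 f2).2.1
    (P0 f3).2.1 (fun e => d1 (by rw [← (P0 f1).2.2, e, (P0 f2).2.2]))
    (fun e => d2 (by rw [← (P0 f1).2.2, e, (P0 f3).2.2]))
    (fun e => d3 (by rw [← (P0 f2).2.2, e, (P0 f3).2.2]))
    (DistribSMul.toAddMonoidHom Pt φ) (MulAction.injective φ) (nr v) (by
      let ι := ZMod.castHom (dvd_refl v) (ResidueField O)
      have ιf : ∀ x, ι (fc x) = fc (ι x) := fun x => by simp only [fc, map_sub, map_mul, map_pow,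
        map_ofNat]
      have sx : ∀ {T : Pt}, 2 • T = 0 → T ≠ 0 → Sp (pl O) (xc T) (xc (r T)) := fun {T} a b =>
        ((hr T).of_ne (r0 b (root_mem (L1 a b).2))).2.1
      have L4 : ∀ {T : Pt} {c}, 2 • T = 0 → T ≠ 0 → Sp (pl O) (xc T) c →
          Sp (pl O) (xc (φ • T)) (c ^ v) := fun {T c} a b s => by
        rw [xc_smul]
        exact ((sp0.2 (hφ _ (root_alg (L1 a b).2) s.mem).2).add (s.pow v)).congr
          (sub_add_cancel _ _) (zero_add _)
      refine (Set.ncard_image_of_injective {x : ZMod v | fc x = 0} ι.injective).symm.trans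
        ((congrArg Set.ncard (Set.ext fun c => ⟨?_, ?_⟩)).trans (Set.InjOn.ncard_image
          (f := fun T => xc (r T)) fun T a T' b (e : xc (r T) = xc (r T')) =>
            L2 a.1 a.2.1 b.1 b.2.1 (sx a.1 a.2.1) (e ▸ sx b.1 b.2.1)))
      · rintro ⟨x, hx, rfl⟩
        obtain ⟨T, t2, t0, s⟩ := L3 (c := ι x) (by rw [← ιf, show fc x = 0 from hx, map_zero])
        refine ⟨T, ⟨t2, t0, L2 (by rw [← map_nsmul, t2, map_zero])
          (fun z => t0 ((smul_eq_zero' φ T).1 z)) t2 t0 ?_ s⟩, (sx t2 t0).unique s⟩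
        exact (L4 t2 t0 s).congr rfl (by rw [← map_pow, ZMod.pow_card])
      · rintro ⟨T, ⟨t2, t0, tf⟩, rfl⟩
        have s := sx t2 t0
        have e : xc (r T) ^ v = xc (r T) := (L4 t2 t0 s).eq s (congrArg xc tf)
        rw [← Subfield.mem_bot_iff_pow_eq_self, ← ZMod.fieldRange_castHom_eq_bot v] at e
        obtain ⟨x, hx⟩ := e
        refine ⟨x, ι.injective ?_, hx⟩
        rw [ιf, map_zero, show ι x = _ from hx]
        exact (spf s).eq sp_zero (L1 t2 t0).2)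
  refine ⟨c1, c2, fun σ P f a => ?_, c4, c5, fun n P m => ?_, ?_, fun φ hφ => (tp φ hφ).2⟩
  · by_cases z : P ∈ E1 O
    · exact sub_mem ((c4 1 σ P f one_ne_zero a).2 z) z
    have z' := z
    rw [c1, not_or, not_not] at z'
    have := c2 (σ • P) P (fun e => z'.1 ((smul_eq_zero' σ P).1 e)) z'.1 z'.2
    rw [this.2, xc_smul, yc_smul]
    exact ⟨by simpa using (f _ a.1 z'.2).2, by simpa using (f _ a.2 this.1).2⟩
  · have : ∀ (n : ℕ), ∀ Q ∈ E1 O, ∃ S ∈ E1 O, 2 ^ n • S = Q := fun n => by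
      induction n with
      | zero => exact fun Q q => ⟨Q, q, by simp⟩
      | succ n ih =>
        intro Q q
        obtain ⟨S, a, rfl⟩ := ih Q q
        obtain ⟨S', a', rfl⟩ := dv S a
        exact ⟨S', a', by rw [pow_succ, mul_smul]⟩
    obtain ⟨S, a, b⟩ := this n _ m
    exact ⟨P - S, by rw [nsmul_sub, b, sub_self], by simpa using a⟩
  · obtain ⟨φ, hφ⟩ := hV1.2.2.2.2 v O hv ho
    exact (tp φ hφ).1

end Pool.Agent.Lib.MP_d6ddbd_nt.K11
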