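import Pool.Agent.Lib.MP_d6ddbd_nt.K11.StG

/-!
Reduction of algebraic homomorphisms, integrality of singular moduli, algebraicity of torsion.
-/

set_option autoImplicit false

open Pointwise WeierstrassCurve Filter
open Pool.Agent.Lib.MP_02f36d_nt
open Pool.Agent.Lib.MP_9177b7_ag.CM (IsLat sp Conj jL g2 g3 hyp)

noncomputable section

namespace Pool.Agent.Lib.MP_d6ddbd_nt.K11

namespace Red

theorem desc (k : Type) [Field k] [DecidableEq k] [IsAlgClosed k] (p : Place ℂ k)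
    (hs : Function.Surjective p.ρ) (V₁ V₂ : Affine ℂ) (U₁ U₂ : Affine k) (m₁ : Mod p V₁ U₁)
    (m₂ : Mod p V₂ U₂) (f : V₁.Point →+ V₂.Point) (hf : IsAlg ⊤ f) :
    ∃ g : U₁.Point →+ U₂.Point, Alg0 g ∧ Desc p f g := by
  have e : (RingHom.id ℂ).range = ⊤ := RingHom.range_eq_top.2 Function.surjective_id
  obtain ⟨R, T, hR, hT⟩ := IsAlg.exists_spR (ι := RingHom.id ℂ) p (e ▸ hf)
  rw [R.map_id] at hR
  obtain ⟨g, d, hg⟩ := exists_red hs m₁.hΔ m₂.hΔ (sep_of_c4 m₁.ss) m₂.ss m₁.sp m₂.sp hR hT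
  exact ⟨g, hg.imp id fun h => h.isAlg_top, d⟩

theorem integral (hUni : UniStmt) (hModel : ModelStmt) (q : ℕ) (O : ValuationSubring ℂ)
    (Λ : Submodule ℤ ℂ) (hq : q % 4 = 3) (hL : IsLat Λ) (hΛ : om q • Λ ≤ Λ) :
    IsAlgebraic ℚ (jL Λ) ∧ jL Λ ∈ O := by
  classical
  have him := om_im (q := q) (by omega)
  have hsq := om_sq hq
  have ha : IsAlgebraic ℚ (jL Λ) :=
    hyp.isAlgebraic_of_mem_Jset (t := 1) (n := ((q + 1) / 4 : ℕ)) (ω := om q)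
      (by rw [hsq]; push_cast; ring) him.ne' ⟨Λ, hL, hΛ, rfl⟩
  refine ⟨ha, by_contra fun hj => ?_⟩
  have := isAlgClosed_residue O
  let p : Place ℂ (IsLocalRing.ResidueField O) := ⟨O, IsLocalRing.residue O, fun x hx =>
    (IsLocalRing.residue_ne_zero_iff_isUnit x).1 hx⟩
  have hs : Function.Surjective p.ρ := IsLocalRing.residue_surjective
  obtain ⟨W, U, -, h1, h2, h3, -, h4⟩ := hModel _ p _ ha
  obtain ⟨h5, h6⟩ := h4 hj
  obtain ⟨u, hu⟩ := hUni Λ W hL h1 h2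
  obtain ⟨f, f1, f2⟩ := hu.mul (om q) (fun e => by simp [e] at him) hΛ
  have m : Mod p W U := ⟨h1, h3, Or.inl h6⟩
  obtain ⟨g, g1, g2⟩ := desc _ p hs W W U U m m f f1
  obtain ⟨x, y, α, hn⟩ := exists_node' h5 h6
  obtain ⟨N, hN⟩ : ∃ N : ℤ, N = ((q + 1) / 4 : ℕ) := ⟨_, rfl⟩
  have hN1 : 1 ≤ N := by omega
  have key : ∀ a, g (g a) = g a - N • a := fun a => by
    obtain ⟨P, hP⟩ := exists_lift hs h1 h3 a
    obtain ⟨z, rfl⟩ := hu.surj P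
    have e : f (f (u z)) = f (u z) + -(N • u z) := by
      rw [f2, f2, ← map_zsmul, ← map_neg, ← map_add, ← mul_assoc, ← sq, hsq, ← hN, zsmul_eq_mul]
      congr 1
      ring
    have r := g2 _ _ (g2 _ _ hP)
    rw [e] at r
    rw [sub_eq_add_neg]
    exact r.unique ((g2 _ _ hP).add hs h1 hn.sep h3 ((hP.zsmul hs m N).neg h3))
  rcases g1 with rfl | g1
  · refine hn.zsmul_ne (n := N) (by omega) (AddMonoidHom.ext fun a => ?_)
    simpa using key a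
  · obtain ⟨n, h⟩ := hn.exists_zpow hn g1
    have e : n * n = n + -N := hn.zpow_inj fun a => by
      rw [zpow_mul, ← h, ← h, key, sub_eq_add_neg (g a), ← neg_zsmul, hn.tt_add, hn.tt_zsmul, h,
        zpow_add₀ (hn.tt_ne a)]
    nlinarith [sq_nonneg (2 * n - 1)]

theorem orbit {a : ℂ} (h : IsAlgebraic ℚ a) : (Set.range fun σ : G => σ a).Finite := by
  obtain ⟨f, f0, hf⟩ := h
  refine (f.rootSet_finite ℂ).subset ?_
  rintro _ ⟨σ, rfl⟩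
  refine Polynomial.mem_rootSet.2 ⟨f0, ?_⟩
  have := Polynomial.aeval_algHom_apply (σ : ℂ →+* ℂ).toRatAlgHom a f
  rw [hf, map_zero] at this
  exact this

theorem torsion (hV : VStmt) {W : Affine ℂ} (hW : AlgW W) {m : ℕ}
    (h : {P : W.Point | m • P = 0}.Finite) {P : W.Point} (hP : m • P = 0) :
    IsAlgebraic ℚ (xc P) ∧ IsAlgebraic ℚ (yc P) := by
  have h1 : (Set.range fun σ : G => W.map (σ : ℂ →+* ℂ)).Finite := by
    refine (((orbit hW.1).prod ((orbit hW.2.1).prod ((orbit hW.2.2.1).prod ((orbit hW.2.2.2.1).prod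
      (orbit hW.2.2.2.2))))).image fun a => (⟨a.1, a.2.1, a.2.2.1, a.2.2.2.1, a.2.2.2.2⟩ :
        Affine ℂ)).subset ?_
    rintro _ ⟨σ, rfl⟩
    exact ⟨(σ W.a₁, σ W.a₂, σ W.a₃, σ W.a₄, σ W.a₆),
      ⟨⟨σ, rfl⟩, ⟨σ, rfl⟩, ⟨σ, rfl⟩, ⟨σ, rfl⟩, ⟨σ, rfl⟩⟩, rfl⟩
  have h2 : ∀ W' ∈ Set.range fun σ : G => W.map (σ : ℂ →+* ℂ),
      {Q : Affine.Point W' | m • Q = 0}.Finite := by
    rintro _ ⟨σ, rfl⟩
    refine (h.image (ptMap (σ : ℂ →+* ℂ) rfl)).subset fun Q hQ => ?_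
    obtain ⟨Q, rfl⟩ := ptMap_surjective (j := (σ : ℂ →+* ℂ)) (V := W) rfl σ.surjective Q
    exact ⟨Q, ptMap_injective (j := (σ : ℂ →+* ℂ)) rfl (by rw [map_nsmul, map_zero]; exact hQ), rfl⟩
  have h3 : ∀ σ : G, m • ptMap (σ : ℂ →+* ℂ) (V := W) rfl P = 0 := fun σ => by
    rw [← map_nsmul, hP, map_zero]
  refine ⟨hV.2.2.2.2.1 _ ((h1.biUnion' fun W' hW' => (h2 W' hW').image xc).subset ?_),
    hV.2.2.2.2.1 _ ((h1.biUnion' fun W' hW' => (h2 W' hW').image yc).subset ?_)⟩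
  · rintro _ ⟨σ, rfl⟩
    exact Set.mem_iUnion₂.2 ⟨_, ⟨σ, rfl⟩, _, h3 σ, xc_ptMap rfl P⟩
  · rintro _ ⟨σ, rfl⟩
    exact Set.mem_iUnion₂.2 ⟨_, ⟨σ, rfl⟩, _, h3 σ, yc_ptMap rfl P⟩

end Red

theorem red_thm (hV : VStmt) (hUni : UniStmt) (hModel : ModelStmt) : RedStmt := by
  refine ⟨Red.desc, Red.integral hUni hModel, fun Λ W u m z _ hW hu hm hz => ?_⟩
  have e : ∀ z, m • u z = u (m * z) := fun z => by rw [← map_nsmul, nsmul_eq_mul]
  obtain ⟨f, f1, f2⟩ := hu.mul m (Nat.cast_ne_zero.2 hm) (by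
    rintro _ ⟨y, hy, rfl⟩
    simpa using Λ.smul_mem (m : ℤ) hy)
  refine Red.torsion hV hW (m := m) ((eventually_cofinite.1 f1.ne).subset fun P hP => ?_)
    (by rw [e, hu.ker]; exact hz)
  obtain ⟨z, rfl⟩ := hu.surj P
  exact not_not.2 (by rw [f2, ← e]; exact hP)

end Pool.Agent.Lib.MP_d6ddbd_nt.K11
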