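import Pool.Agent.Lib.MP_d6ddbd_nt.K11.StG

/-!
Reduction is injective on torsion of order prime to the residue characteristic: for a point `P`
with non-integral abscissa, `x(P) / x(n P)` specialises to `n ^ 2`.
-/

set_option autoImplicit false

open WeierstrassCurve Polynomial
open Pool.Agent.Lib.MP_02f36d_nt

namespace Pool.Agent.Lib.MP_d6ddbd_nt.K11

namespace Tor

variable {L k : Type} [Field L] [Field k] {p : Place L k} {V : Affine L} {U : Affine k}
  {P Q : V.Point} {a c : k}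

/-- The quotient of the abscissae specialises to `c`. -/
def Uu (p : Place L k) (P Q : V.Point) (c : k) : Prop :=
  (Q = 0 ∨ xc Q ≠ 0) ∧ Sp p (xc P / xc Q) c

theorem x_ne (h : xc P ∉ p.A) : xc P ≠ 0 := fun e => h (e ▸ zero_mem _)

theorem p_ne (h : xc P ∉ p.A) : P ≠ 0 := fun e => x_ne h (by rw [e]; rfl)

theorem uu_zero : Uu p P 0 0 := ⟨Or.inl rfl, sp_zero.congr (div_zero _).symm rfl⟩

theorem uu_one (h : xc P ∉ p.A) : Uu p P P 1 :=
  ⟨Or.inr (x_ne h), sp_one.congr (div_self (x_ne h)).symm rfl⟩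

theorem Uu.unique (h : Uu p P Q c) (h' : Uu p P Q a) : c = a := h.2.unique h'.2

theorem b8 (h : SpW p V U) : Sp p V.b₈ U.b₈ :=
  (((((h.h1.pow 2).mul h.h6).add (((sp_ofNat 4).mul h.h2).mul h.h6)).sub
    ((h.h1.mul h.h3).mul h.h4)).add (h.h2.mul (h.h3.pow 2))).sub (h.h4.pow 2)

variable [DecidableEq L]

theorem Uu.neg (h : Uu p P Q c) : Uu p P (-Q) c := by
  rw [Uu, xc_neg, neg_eq_zero]
  exact h

theorem uu_two (s : SpW p V U) (h : xc P ∉ p.A) : Uu p P (P + P) 4 := by
  have t := sp_inv_of_notMem h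
  have x0 := x_ne h
  have N := (((sp_ofNat 4).add (s.b₂.mul t)).add (((sp_ofNat 2).mul s.b₄).mul (t.pow 2))).add
    (s.b₆.mul (t.pow 3))
  have D := ((sp_one.sub (s.b₄.mul (t.pow 2))).sub (((sp_ofNat 2).mul s.b₆).mul (t.pow 3))).sub
    ((b8 s).mul (t.pow 4))
  by_cases z : 2 * yc P + V.a₁ * xc P + V.a₃ = 0
  · have ev := eval_Psi V (nonsing (p_ne h)).1
    simp only [Ψ₂Sq, eval_add, eval_mul, eval_C, eval_pow, eval_X, z] at ev
    have e := N.eq sp_zero (by field_simp; linear_combination ev)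
    have : P = -P := pt_ext (p_ne h) (neg_ne_zero.2 (p_ne h)) (xc_neg P).symm
      (by rw [yc_neg (p_ne h)]; linear_combination z)
    rw [eq_neg_iff_add_eq_zero.1 this, show (4 : k) = 0 by linear_combination e]
    exact uu_zero
  · have e := (xc_two (p_ne h) z).2
    have D0 := D.ne_zero (by simp)
    have n : xc (P + P) ≠ 0 := fun w => D0 (by
      rw [w] at e
      field_simp
      linear_combination -e)
    refine ⟨Or.inr n, (N.div D (by simp)).congr ?_ (by simp)⟩
    rw [div_eq_div_iff D0 n]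
    field_simp
    linear_combination e

theorem step (s : SpW p V U) (h : xc P ∉ p.A) (h1 : Uu p P (Q - P) a) (h2 : Uu p P Q c) :
    Uu p P (Q + P) (2 * c + 2 - a) := by
  by_cases q0 : Q = 0
  · subst q0
    rw [zero_sub] at h1
    rw [zero_add, h2.unique uu_zero, h1.unique (uu_one h).neg]
    convert uu_one h
    norm_num
  by_cases hx : xc Q = xc P
  · rcases eq_or_neg_of_xc q0 (p_ne h) hx with rfl | rfl
    · rw [sub_self] at h1
      rw [h2.unique (uu_one h), h1.unique uu_zero]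
      convert uu_two s h
      norm_num
    · rw [sub_eq_add_neg, ← neg_add] at h1
      rw [neg_add_cancel, h2.unique (uu_one h).neg, h1.unique (uu_two s h).neg]
      convert uu_zero
      norm_num
  obtain ⟨-, -, e1, e2⟩ := sum_prod q0 (p_ne h) hx
  have t := sp_inv_of_notMem h
  have x0 := x_ne h
  have y0 := h2.1.resolve_left q0
  have u := h2.2
  have N := ((((sp_ofNat 2).mul (u.add sp_one)).add (s.b₂.mul (u.mul t))).add
    (s.b₄.mul (((u.add sp_one).mul u).mul (t.pow 2)))).add (s.b₆.mul ((u.pow 2).mul (t.pow 3)))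
  have D := ((sp_one.sub (s.b₄.mul (u.mul (t.pow 2)))).sub
    (s.b₆.mul (((u.add sp_one).mul u).mul (t.pow 3)))).sub ((b8 s).mul ((u.pow 2).mul (t.pow 4)))
  have D0 := D.ne_zero (by simp)
  have n : xc (Q + P) * xc (Q - P) ≠ 0 := fun w => D0 (by
    rw [w] at e1
    field_simp
    linear_combination -e1)
  have n1 := left_ne_zero_of_mul n
  have n2 := right_ne_zero_of_mul n
  refine ⟨Or.inr n1, ((N.div D (by simp)).sub h1.2).congr ?_ (by simp; ring)⟩
  rw [sub_eq_iff_eq_add, div_add_div _ _ n1 n2, div_eq_div_iff D0 n]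
  field_simp
  linear_combination (xc (Q + P) + xc (Q - P)) * e1 - xc (Q + P) * xc (Q - P) * e2

theorem uu_nsmul (s : SpW p V U) (h : xc P ∉ p.A) (n : ℕ) :
    Uu p P (n • P) (n ^ 2) ∧ Uu p P ((n + 1) • P) ((n + 1) ^ 2) := by
  induction n with
  | zero => simpa using ⟨uu_zero, uu_one h⟩
  | succ n ih =>
    refine ⟨by simpa using ih.2, ?_⟩
    rw [succ_nsmul]
    convert step s h (Q := (n + 1) • P) (a := (n : k) ^ 2)
      (by rw [succ_nsmul, add_sub_cancel_right]; exact ih.1) ih.2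
    push_cast
    ring

end Tor

theorem tor_thm : TorStmt := fun _ _ _ _ _ _ _ _ _ _ s m _ hm h r =>
  r.of_zero.resolve_right fun hx =>
    pow_ne_zero 2 hm ((h ▸ (Tor.uu_nsmul s hx m).1).unique Tor.uu_zero)

end Pool.Agent.Lib.MP_d6ddbd_nt.K11
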