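import Pool.Agent.Lib.MP_d6ddbd_nt.K11.Stmt
import Pool.Agent.Lib.MP_ca56d1_nt.Loc
import Pool.Agent.Lib.MP_ca56d1_nt.Recip

/-!
The local structure of the cubic field at `2`.
-/

set_option autoImplicit false

open NumberField Pool.Agent.Stark Pool.Agent.Stark.LocAux

namespace Pool.Agent.Lib.MP_d6ddbd_nt.K11

namespace Two

variable {k : Type*} [Field k] {w : Valuation k (WithZero (Multiplicative ℤ))} {n : ℤ}
  {a a' c π : k}

variable (w) in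
/-- `a` is a square times a unit that is congruent to one modulo the `n`-th power of the prime. -/
def U (n : ℤ) (a : k) : Prop := ∃ b, a * b ^ 2 - 1 ∈ pw w n

theorem unit (hn : 1 ≤ n) (h : a - 1 ∈ pw w n) : a ≠ 0 ∧ ord w a = 0 := by
  simpa using one_add (anti hn h)

theorem int_mem (m : ℤ) : (m : k) ∈ pw w 0 := by
  simpa using zsmul_mem (one_mem (w := w)) m

theorem cg (h : a ∈ pw w n) (e : a' = a) : a' ∈ pw w n := e ▸ h

theorem U.of (h : a - 1 ∈ pw w n) : U w n a := ⟨1, by simpa using h⟩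

theorem U.anti {m : ℤ} (h : U w n a) (hm : m ≤ n) : U w m a := h.imp fun _ => LocAux.anti hm

theorem U.mul (hn : 0 ≤ n) (h : U w n a) (h' : U w n a') : U w n (a * a') := by
  obtain ⟨b, hb⟩ := h
  obtain ⟨b', hb'⟩ := h'
  exact ⟨b * b', by convert add_mem (add_mem hb hb') (pw_mul hb hb' (by omega)) using 1; ring⟩

theorem U.sq (h : U w n (a * c ^ 2)) : U w n a :=
  h.elim fun b hb => ⟨c * b, by convert hb using 2; ring⟩

theorem U.sq' (h : U w n a) (hc : c ≠ 0) : U w n (a * c ^ 2) :=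
  h.elim fun b hb => ⟨b / c, by convert hb using 2; field_simp⟩

theorem U.ex (hn : 1 ≤ n) (h : U w n a) :
    ∃ b, b ≠ 0 ∧ a ≠ 0 ∧ ord w a + 2 * ord w b = 0 ∧ a * b ^ 2 - 1 ∈ pw w n := by
  obtain ⟨b, hb⟩ := h
  obtain ⟨h0, h1⟩ := unit hn hb
  have a0 := left_ne_zero_of_mul h0
  rw [ord_mul a0 (right_ne_zero_of_mul h0), ord_pow] at h1
  exact ⟨b, fun e => h0 (by simp [e]), a0, by simpa using h1, hb⟩

theorem U.add (hn : 1 ≤ n) (h : U w n a) (h' : a' ∈ pw w (ord w a + n)) : U w n (a + a') := by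
  obtain ⟨b, -, -, e, hb⟩ := h.ex hn
  refine ⟨b, ?_⟩
  convert add_mem hb (pw_mul h' (mem_of_le (x := b ^ 2) le_rfl) (by rw [ord_pow]; omega)) using 1
  ring

/-- The hypotheses on the local field. -/
structure H (w : Valuation k (WithZero (Multiplicative ℤ))) (π : k) : Prop where
  L : IsLoc w
  rc : rc w = 2
  o2 : ord w (2 : k) = 3
  p0 : π ≠ 0
  o1 : ord w π = 1
  eq : π ^ 3 - 2 * π ^ 2 + 2 = 0

variable (h : H w π)
include h

theorem H.key {x y : k} (hx : x ∈ pw w n) (hy : y ∈ pw w n) (hx' : x ∉ pw w (n + 1))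
    (hy' : y ∉ pw w (n + 1)) : x + y ∈ pw w (n + 1) := by
  have := h.L.relIndex_pw n 1
  rw [h.rc, pow_one] at this
  exact (AddSubgroup.add_mem_iff_of_index_two this (a := ⟨x, hx⟩) (b := ⟨y, hy⟩)).2
    (iff_of_false hx' hy')

theorem H.step (hn : 1 ≤ n) (ha : U w n a) (hc : c - 1 ∈ pw w n) (hc' : c - 1 ∉ pw w (n + 1)) :
    U w (n + 1) a ∨ U w (n + 1) (a * c) := by
  obtain ⟨b, hb⟩ := ha
  refine (em _).imp (fun e => ⟨b, e⟩) fun e => ⟨b, ?_⟩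
  convert add_mem (h.key hb hc e hc') (pw_mul hb hc (by omega)) using 1
  ring

theorem H.one (a0 : a ≠ 0) (ha : Even (ord w a)) : U w 1 a := by
  obtain ⟨m, hm⟩ := ha
  have e := pow_ne_zero 2 (zpow_ne_zero (-m) h.p0)
  have o : ord w (a * (π ^ (-m)) ^ 2) = 0 := by
    rw [ord_mul a0 e, ord_pow, ord_zpow, h.o1, hm]
    ring
  exact ⟨π ^ (-m), by
    simpa [sub_eq_add_neg] using h.key (n := 0) (mem_of_le o.ge) (neg_mem one_mem)
      (not_mem.2 ⟨mul_ne_zero a0 e, by omega⟩) fun e => one_not_mem (neg_mem_iff.1 e)⟩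

theorem H.two : (2 : k) ∈ pw w 3 := mem_of_le h.o2.ge

theorem H.pp (m : ℕ) : π ^ m ∈ pw w m ∧ π ^ m ∉ pw w (m + 1) := by
  have : ord w (π ^ m) = m := by rw [ord_pow, h.o1, mul_one]
  exact ⟨mem_of_le this.ge, not_mem.2 ⟨pow_ne_zero _ h.p0, by omega⟩⟩

theorem H.up (m : ℕ) (hm : m = 1 ∨ m = 2) (ha : U w (2 * m) a) : U w (2 * m + 1) a := by
  have e : (1 + π ^ m) ^ 2 - 1 = π ^ (2 * m) + 2 * π ^ m := by ring
  have t : 2 * π ^ m ∈ pw w (2 * m + 1) := pw_mul h.two (h.pp m).1 (by omega)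
  have p := h.pp (2 * m)
  push_cast at p
  exact (h.step (by omega) ha (e ▸ add_mem p.1 (anti (by omega) t))
    (e ▸ fun q => p.2 ((AddSubgroup.add_mem_cancel_right _ t).1 q))).elim id U.sq

theorem H.sq7 (ha : U w 7 a) : IsSquare a := by
  obtain ⟨b, b0, -, -, hb⟩ := ha.ex (by norm_num)
  obtain ⟨r, hr⟩ := hens h.L (x := a * b ^ 2) (by rwa [h.o2])
  exact ⟨r / b, by field_simp; linear_combination hr⟩

theorem H.hs0 (ha : U w 3 a) (ha' : U w 5 a') : hs a a' = 0 := by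
  obtain ⟨b, b0, -, -, hb⟩ := ha.ex (by norm_num)
  obtain ⟨b', b0', -, -, hb'⟩ := ha'.ex (by norm_num)
  rw [← hs_mul_sq_left _ _ b0, ← hs_mul_sq_right _ _ b0']
  generalize a * b ^ 2 = s at hb
  generalize a' * b' ^ 2 = t at hb'
  have z : (t - 1) / 2 ∈ pw w 2 := pw_div hb' (by rw [h.o2]; norm_num)
  obtain ⟨u0, u1⟩ := one_add (anti one_le_two z)
  obtain ⟨r, hr⟩ := h.sq7 (a := t + s * ((t - 1) / 2) ^ 2) ⟨1 / (1 + (t - 1) / 2), by
    convert pw_div (l := 7) (y := (1 + (t - 1) / 2) ^ 2) (pw_mul hb (pw_mul (l := 4) z z le_rfl)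
      le_rfl) (by rw [ord_pow, u1]; norm_num) using 1
    obtain ⟨z, rfl⟩ : ∃ z, t = 2 * z + 1 := ⟨(t - 1) / 2, by have := h.L.two; field_simp; ring⟩
    rw [add_sub_cancel_right, mul_div_cancel_left₀ _ h.L.two] at *
    field_simp
    ring⟩
  exact hs_eq_zero.2 ⟨r, (t - 1) / 2, by linear_combination hr⟩

theorem H.neg : (-1 : k) - 1 ∈ pw w 3 ∧ (-1 : k) - 1 ∉ pw w (3 + 1) := by
  rw [show (-1 : k) - 1 = -2 by norm_num, neg_mem_iff, neg_mem_iff]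
  exact ⟨h.two, not_mem.2 ⟨h.L.two, by rw [h.o2]; norm_num⟩⟩

theorem H.five (h1 : hs (-1 : k) (-1) = 1) (ha : U w 2 a) (e : hs a (-1) = 0) : U w 5 a := by
  obtain ⟨-, -, a0, -⟩ := ha.ex one_le_two
  have m : (-1 : k) ≠ 0 := by simp
  refine (h.step (by norm_num) (h.up 1 (.inl rfl) ha) h.neg.1 h.neg.2).elim (h.up 2 (.inr rfl))
    fun q => ?_
  have := h.hs0 (.of h.neg.1) (h.up 2 (.inr rfl) q)
  rw [h.L.hs_mul_right m a0 m, h1, hs_comm h.L.two m a0, e] at this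
  exact absurd this (by decide)

theorem H.six (ha : U w 6 a) (e : hs a 2 = 0) : IsSquare a := by
  obtain ⟨-, -, a0, -⟩ := ha.ex (by norm_num)
  obtain ⟨t, m, ht, hm, -, d0, d1, d2, d3⟩ := h.L.exists_aniso
  have m6 : -(2 * 2 * m) ∈ pw w 6 :=
    neg_mem (pw_mul (pw_mul (l := 6) h.two h.two le_rfl) hm le_rfl)
  have t2 := add_high d0 (y := 2 * 2 * m) (anti (by omega) (neg_mem_iff.1 m6))
  rw [show t ^ 2 - 4 * m + 2 * 2 * m = t ^ 2 by ring, d1] at t2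
  have t0 : t ≠ 0 := fun e => t2.1 (by simp [e])
  have c6 : (t ^ 2 - 4 * m) * t⁻¹ ^ 2 - 1 ∈ pw w 6 := by
    convert pw_div (l := 6) (y := t ^ 2) m6 (by omega) using 1
    field_simp
    ring
  refine (h.step (by norm_num) ha c6 fun q => d2 (h.sq7 ⟨_, q⟩)).elim h.sq7 fun q => ?_
  have := hs_congr_left 2 a0 d0 (h.sq7 (U.sq (mul_assoc a _ _ ▸ q)))
  rw [e, h.L.hs_of_unr d0 d3 h.L.two, if_neg d2, h.o2] at this
  exact absurd this (by decide)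

theorem H.odd (s : ℤ) : ((2 * s + 1 : ℤ) : k) - 1 ∈ pw w 3 := by
  simpa using pw_mul h.two (int_mem s) le_rfl

theorem H.rat [CharZero k] {x : ℚ} (hx : x ≠ 0) :
    ∃ v : ℤ, ord w (x : k) = 3 * v ∧ (Even v → U w 2 (x : k)) := by
  obtain ⟨m, y, hy, e⟩ := WfDvdMonoid.max_power_factor
    (mul_ne_zero (Rat.num_ne_zero.2 hx) (Int.natCast_ne_zero.2 x.den_nz)) Int.prime_two.irreducible
  obtain ⟨l, z, hz, e'⟩ := WfDvdMonoid.max_power_factor (Int.natCast_ne_zero.2 x.den_nz)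
    Int.prime_two.irreducible
  obtain ⟨y, rfl⟩ := Int.not_even_iff_odd.1 (even_iff_two_dvd.not.2 hy)
  obtain ⟨z, rfl⟩ := Int.not_even_iff_odd.1 (even_iff_two_dvd.not.2 hz)
  obtain ⟨y0, y1⟩ := unit (by norm_num) (h.odd y)
  obtain ⟨z0, z1⟩ := unit (by norm_num) (h.odd z)
  have d0 : (x.den : k) ≠ 0 := Nat.cast_ne_zero.2 x.den_nz
  have e1 : (x : k) * x.den ^ 2 = 2 ^ m * (2 * y + 1 : ℤ) := by
    rw [pow_two, ← mul_assoc, Rat.cast_def, div_mul_cancel₀ _ d0]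
    exact_mod_cast e
  have e2 : (x.den : k) = 2 ^ l * (2 * z + 1 : ℤ) := by exact_mod_cast e'
  have o1 := congrArg (ord w) e1
  have o2 := congrArg (ord w) e2
  rw [ord_mul (pow_ne_zero _ h.L.two) z0, ord_pow, h.o2, z1] at o2
  rw [ord_mul (pow_ne_zero _ h.L.two) y0, ord_mul (Rat.cast_ne_zero.2 hx) (pow_ne_zero _ d0),
    ord_pow, ord_pow, h.o2, y1, o2] at o1
  refine ⟨m - 2 * l, by push_cast at o1; omega, fun ⟨j, hj⟩ => U.sq (c := x.den) ?_⟩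
  obtain ⟨i, rfl⟩ : ∃ i, m = i * 2 := ⟨m / 2, by omega⟩
  rw [e1, mul_comm, pow_mul]
  exact ((U.of (h.odd y)).anti (by norm_num)).sq' (pow_ne_zero _ h.L.two)

theorem H.th (j : ℤ) : ord w (-((2 * j + 1 : ℤ) * (8 * π ^ 2 - 14 * π))) = 4 ∧
    U w 2 (-((2 * j + 1 : ℤ) * (8 * π ^ 2 - 14 * π))) := by
  have p := (h.pp 1).1
  have u : (2 * j + 1 : ℤ) * (7 - 4 * π) - 1 ∈ pw w 3 := by
    refine cg (pw_mul h.two (sub_mem (int_mem (7 * j + 3))
      (pw_mul (int_mem (4 * j + 2)) p (by norm_num))) le_rfl) ?_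
    push_cast
    ring
  rw [show -((2 * j + 1 : ℤ) * (8 * π ^ 2 - 14 * π)) = 2 * π * ((2 * j + 1 : ℤ) * (7 - 4 * π)) by
    ring]
  refine ⟨?_, U.mul (by norm_num) ⟨(π ^ 2 - 1) / π ^ 2, ?_⟩ ((U.of u).anti (by norm_num))⟩
  · rw [ord_mul (mul_ne_zero h.L.two h.p0) (unit (by norm_num) u).1, ord_mul h.L.two h.p0,
      (unit (by norm_num) u).2, h.o1, h.o2]
    rfl
  · refine cg (sub_mem (h.pp 2).1 (anti (by norm_num) h.two)) ?_
    have := h.p0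
    field_simp
    linear_combination (1 - π ^ 2) * h.eq

theorem H.pt [CharZero k] (j : ℤ) (x z : ℚ)
    (h0 : (x : k) - (2 * j + 1 : ℤ) * (z : k) ^ 2 * (8 * π ^ 2 - 14 * π) ≠ 0)
    (he : Even (ord w ((x : k) - (2 * j + 1 : ℤ) * (z : k) ^ 2 * (8 * π ^ 2 - 14 * π)))) :
    U w 2 ((x : k) - (2 * j + 1 : ℤ) * (z : k) ^ 2 * (8 * π ^ 2 - 14 * π)) := by
  obtain ⟨b1, b2⟩ := h.th j
  rw [show (x : k) - (2 * j + 1 : ℤ) * (z : k) ^ 2 * (8 * π ^ 2 - 14 * π) =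
    x + -((2 * j + 1 : ℤ) * (8 * π ^ 2 - 14 * π)) * (z : k) ^ 2 by ring] at *
  generalize -(((2 * j + 1 : ℤ) : k) * (8 * π ^ 2 - 14 * π)) = b at *
  by_cases hx : x = 0
  · rw [hx, Rat.cast_zero, zero_add] at h0 ⊢
    exact b2.sq' fun e => h0 (by simp [e])
  obtain ⟨v, v1, v2⟩ := h.rat hx
  have ev : ∀ {v : ℤ}, Even (3 * v) → Even v := fun e => (Int.even_mul.1 e).resolve_left (by decide)
  by_cases hz : z = 0
  · simp only [hz, Rat.cast_zero, zero_pow two_ne_zero, mul_zero, add_zero] at *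
    exact v2 (ev (v1 ▸ he))
  obtain ⟨u, u1, -⟩ := h.rat hz
  have z0 : (z : k) ≠ 0 := Rat.cast_ne_zero.2 hz
  have o : ord w (b * (z : k) ^ 2) = 6 * u + 4 := by
    rw [ord_mul (fun e => by simp [e] at b1) (pow_ne_zero _ z0), ord_pow, b1, u1]
    ring
  rcases lt_or_ge (3 * v) (6 * u + 4) with l | l
  · rw [(add_high (Rat.cast_ne_zero.2 hx) (mem_of_le (by omega))).2, v1] at he
    obtain ⟨i, rfl⟩ := ev he
    exact (v2 ⟨i, rfl⟩).add one_le_two (mem_of_le (by omega))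
  · rw [add_comm]
    exact (b2.sq' z0).add one_le_two (mem_of_le (by omega))

theorem H.ex (j : ℤ) (ha : U w 5 a) (e : hs a 2 = 0) :
    IsSquare a ∨ IsSquare (a * (5 - (2 * j + 1 : ℤ) * (8 * π ^ 2 - 14 * π))) := by
  obtain ⟨-, -, a0, -⟩ := ha.ex (by norm_num)
  have p := (h.pp 1).1
  have r : 5 - (2 * j + 1 : ℤ) * (8 * π ^ 2 - 14 * π) - ((1 + π ^ 2) ^ 2 - 2 * π ^ 2) ∈ pw w 7 := by
    refine cg (pw_mul (pw_mul (l := 6) h.two h.two le_rfl) (sub_mem (add_mem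
      (anti (by norm_num) h.two) (pw_mul (l := 1) (int_mem (7 * j + 4)) p le_rfl))
      (pw_mul (int_mem (4 * j + 3)) (h.pp 2).1 (by norm_num))) le_rfl) ?_
    push_cast
    linear_combination (-π - 2) * h.eq
  generalize 5 - ((2 * j + 1 : ℤ) : k) * (8 * π ^ 2 - 14 * π) = g at r ⊢
  obtain ⟨u0, u1⟩ := one_add (w := w) (anti one_le_two (h.pp 2).1)
  have o : ord w ((1 + π ^ 2) ^ 2) = 0 := by rw [ord_pow, u1, mul_zero]
  have t : -(2 * π ^ 2 : k) ∈ pw w 5 ∧ -(2 * π ^ 2 : k) ∉ pw w (5 + 1) := by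
    have : ord w (-(2 * π ^ 2 : k)) = 5 := by
      rw [ord_neg, ord_mul h.L.two (pow_ne_zero _ h.p0), ord_pow, h.o1, h.o2]
      rfl
    exact ⟨mem_of_le this.ge, not_mem.2 ⟨fun e => by simp [e] at this, this.trans_lt (by omega)⟩⟩
  have e1 : g * (1 + π ^ 2)⁻¹ ^ 2 - 1 =
      (-(2 * π ^ 2) + (g - ((1 + π ^ 2) ^ 2 - 2 * π ^ 2))) / (1 + π ^ 2) ^ 2 := by
    field_simp
    ring
  have c5 : g * (1 + π ^ 2)⁻¹ ^ 2 - 1 ∈ pw w 5 :=
    e1 ▸ pw_div (add_mem t.1 (anti (by norm_num) r)) (by omega)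
  have g0 : g ≠ 0 := left_ne_zero_of_mul (unit (by norm_num) c5).1
  refine (h.step (by norm_num) ha c5 fun q => t.2 ?_).imp (h.six · e) fun q =>
    h.six (U.sq (mul_assoc a _ _ ▸ q)) ?_
  · rw [e1, pw_div_iff (pow_ne_zero _ u0) o] at q
    exact (AddSubgroup.add_mem_cancel_right _ (anti (by norm_num) r)).1 q
  obtain ⟨s0, s1⟩ := add_high (w := w) (pow_ne_zero 2 u0) (anti (by omega) t.1)
  rw [← sub_eq_add_neg] at s0 s1
  rw [h.L.hs_mul_left a0 g0 h.L.two, e, zero_add, hs_comm h.L.two g0 h.L.two,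
    hs_congr_right 2 g0 s0, hs_norm]
  refine h.sq7 ⟨((1 + π ^ 2) ^ 2 - 2 * π ^ 2)⁻¹, ?_⟩
  refine cg (pw_div (l := 7) (y := (1 + π ^ 2) ^ 2 - 2 * π ^ 2) r (by omega)) ?_
  generalize (1 + π ^ 2) ^ 2 - 2 * π ^ 2 = s at s0
  field_simp

omit h in
theorem glob {L : Type} [Field L] [NumberField L] {𝔭 : Pr L} (e : ab L 2 = {𝔭}) (α : L) :
    At2 α ↔ U (wv 𝔭) 2 (emb 𝔭 α) := by
  simp only [At2, e, Finset.mem_singleton, forall_eq, ← ComplAux.emb_mem_pw, map_sub, map_mul,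
    map_pow, map_one]
  refine ⟨fun ⟨β, hβ⟩ => ⟨_, hβ⟩, fun u => ?_⟩
  obtain ⟨b, b0, -, -, hb⟩ := u.ex one_le_two
  obtain ⟨β, hβ⟩ := exists_approx 𝔭 b (ord (wv 𝔭) b + 2)
  have t := ComplAux.pw_div b0 hβ
  have t2 := add_mem (add_mem t t) (pw_mul t t (by norm_num))
  refine ⟨β, cg (add_mem (add_mem hb t2) (pw_mul hb t2 (by norm_num))) ?_⟩
  field_simp
  ring

end Two

open Two in
theorem two_thm (hPr : PrStmt) (hPF : PFStmt) : TwoStmt := by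
  intro L _ _ θ hθ
  obtain ⟨⟨ϑ, e1, e2, 𝔭, e3, e4, e5, e6⟩, -, -, hN, -, -, -, -, -, φ, hφ, -⟩ := hPr L θ hθ
  have t2 : emb 𝔭 2 = 2 := map_ofNat _ 2
  have h : H (wv 𝔭) (emb 𝔭 ϑ) := ⟨isLoc_wv 𝔭, (rc_wv 𝔭).trans e4, by rw [← t2, ord_emb, e5],
    (map_ne_zero _).2 fun e => by simp [e, og] at e6, (ord_emb _ _).trans e6,
    by simpa [t2] using congrArg (emb 𝔭) e1⟩
  have : CharZero (Kc 𝔭) := charZero_of_injective_ringHom (emb 𝔭).injective
  have n0 : ∀ {α : L}, α ≠ 0 → emb 𝔭 α ≠ 0 := (map_ne_zero _).2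
  have pf : ∀ {α : L}, α ≠ 0 → IsSquare (Algebra.norm ℚ α) → ∀ c : ℚ, c ≠ 0 →
      hs (emb 𝔭 α) c = 0 := fun a0 a1 c c0 => by
    simpa [e3, hq] using hPF L θ hθ 2 _ c Nat.prime_two a0 a1 c0
  have m1 : hs (-1 : Kc 𝔭) (-1) = 1 := by
    have m : (-1 : L) ≠ 0 := by simp
    have := reciprocity m m (ab L 2) fun q hq => hq_eq_zero q (by simpa [mem_ab] using hq) m m
      (by simp [og]) (by simp [og])
    rw [Fintype.sum_eq_single φ fun ψ e => absurd (hφ ψ) e, e3, Finset.sum_singleton, hq,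
      map_neg, map_one, map_neg, map_one, hs_real (by simp) (by simp), if_pos (by simp)] at this
    exact (zmod2_cases _).resolve_left fun e => by simp [e] at this
  have five : ∀ {α : L}, α ≠ 0 → IsSquare (Algebra.norm ℚ α) → At2 α → U (wv 𝔭) 5 (emb 𝔭 α) :=
    fun a0 a1 a2 => h.five m1 ((glob e3 _).1 a2) (by simpa using pf a0 a1 (-1) (by simp))
  have pm : ∀ 𝔮 : Pr L, ((2 : ℕ) : 𝓞 L) ∈ 𝔮.asIdeal ↔ 𝔮 = 𝔭 := fun 𝔮 => by
    rw [← mem_ab' two_ne_zero, e3, Finset.mem_singleton]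
  simp only [e3, Finset.mem_singleton, forall_eq]
  refine ⟨fun α α' _ _ a b => ?_, fun α α' a0 b0 ⟨a, b⟩ a' b' => ?_, fun α a => ?_,
    fun α α' a0 b0 a1 b1 a b => h.hs0 ((five a0 a1 a).anti (by norm_num)) (five b0 b1 b),
    fun d α hd a0 a1 => ?_⟩
  · rw [glob e3] at *
    exact map_mul (emb 𝔭) α α' ▸ a.mul (by norm_num) b
  · rw [glob e3] at *
    rw [← ord_emb] at a b
    obtain ⟨c, hc⟩ := h.one (n0 b0) b
    refine ((h.step le_rfl (h.one (n0 a0) a) hc fun e => b' ⟨c, e⟩).resolve_left a').elim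
      fun x hx => ⟨c * x, cg hx ?_⟩
    rw [map_mul]
    ring
  · obtain ⟨b, -, -, e, -⟩ := ((glob e3 _).1 a).ex one_le_two
    exact ⟨-ord (wv 𝔭) b, by rw [← ord_emb]; omega⟩
  obtain ⟨j, rfl⟩ : ∃ j, d = 2 * j + 1 := ⟨d / 2, by omega⟩
  have em : ∀ x z : ℚ, emb 𝔭 ((x : L) - (2 * j + 1 : ℤ) * (z : L) ^ 2 * θ) =
      x - (2 * j + 1 : ℤ) * (z : Kc 𝔭) ^ 2 * (8 * emb 𝔭 ϑ ^ 2 - 14 * emb 𝔭 ϑ) := fun x z => by
    simp only [e2, map_sub, map_mul, map_pow, map_ratCast, map_intCast, map_ofNat]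
  simp only [LocS, pm, forall_eq, LSq, map_mul]
  constructor
  · rintro ⟨x, z, g0, r, hr⟩
    have ev := (hN 2 α Nat.prime_two a0).2 a1
    rw [e3, Finset.sum_singleton, e4, ← ord_emb, show Nat.log 2 2 = 1 by norm_num] at ev
    replace g0 := n0 g0
    have r0 : r ≠ 0 := fun e => mul_ne_zero (n0 a0) g0 (by rw [hr, e, mul_zero])
    have o := congrArg (ord (wv 𝔭)) hr
    rw [ord_mul (n0 a0) g0, ord_mul r0 r0] at o
    rw [em] at g0 hr o
    have := (h.pt j x z g0 (by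
      obtain ⟨i, hi⟩ : Even (ord (wv 𝔭) (emb 𝔭 α)) := by simpa using ev
      exact ⟨ord (wv 𝔭) r - i, by omega⟩)).sq' (div_ne_zero r0 g0)
    rw [glob e3]
    convert this using 1
    generalize (x : Kc 𝔭) - _ = g at *
    field_simp
    linear_combination hr
  · intro a
    have th : og 𝔭 ((2 * j + 1 : ℤ) * θ) = 4 := by
      simpa [← ord_emb, e2, map_ofNat] using (h.th j).1
    rcases h.ex j (five a0 a1 a) (by simpa using pf a0 a1 2 two_ne_zero) with s | s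
    · exact ⟨1, 0, by simp, by simpa using s⟩
    · refine ⟨5, 1, fun e => ?_, by rw [em]; simpa using s⟩
      have := (unit (by norm_num) (h.odd 2)).2
      rw [← map_intCast (emb 𝔭), ord_emb] at this
      rw [← show ((2 * 2 + 1 : ℤ) : L) = (2 * j + 1 : ℤ) * θ by
        push_cast at e ⊢; linear_combination e, this] at th
      omega

end Pool.Agent.Lib.MP_d6ddbd_nt.K11
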