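import Pool.Agent.Lib.MP_d6ddbd_nt.K11.StG

/-!
Uniformisations, isogenies and their conjugates.
-/

set_option autoImplicit false

open Pointwise WeierstrassCurve Filter Topology Polynomial
open Pool.Agent.Lib.MP_02f36d_nt
open Pool.Agent.Lib.MP_9177b7_ag.CM (IsLat Conj jL g2 g3 dis hyp mem_smul_iff smul_le_smul)

noncomputable section

namespace Pool.Agent.Lib.MP_d6ddbd_nt.K11

namespace UniA

/-- The curve of a lattice. -/
abbrev W0 (L : Submodule ℤ ℂ) : Affine ℂ := ⟨0, 0, 0, -g2 L / 4, -g3 L / 4⟩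

/-- The standard uniformisation. -/
structure St (L : Submodule ℤ ℂ) (u : ℂ →+ (W0 L).Point) : Prop where
  lat : IsLat L
  dis : (W0 L).Δ ≠ 0
  surj : Function.Surjective u
  ker : ∀ z, u z = 0 ↔ z ∈ L
  val : ∀ z, z ∉ L → xc (u z) = wp L z ∧ yc (u z) = deriv (wp L) z / 2

variable {L N L' N' : Submodule ℤ ℂ} {c z : ℂ} {A B : ℂ[X]}

theorem exSt (h : UnifStmt) (hL : IsLat L) : ∃ u, St L u := by
  obtain ⟨a, u, b, c, d⟩ := h L _ hL rfl
  exact ⟨u, hL, a, b, c, d⟩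

theorem wp_diff (hL : IsLat L) (hz : z ∉ L) : HasDerivAt (wp L) (deriv (wp L) z) z := by
  obtain ⟨P, rfl⟩ := hL
  exact (P.analyticOnNhd_weierstrassP z hz).differentiableAt.hasDerivAt

theorem rel_deriv (hL : IsLat L) (hN : IsLat N) (h : L ≤ N)
    (r : ∀ z, z ∉ N → B.eval (wp L z) * wp N z = A.eval (wp L z)) (hz : z ∉ N) :
    B.eval (wp L z) ^ 2 * deriv (wp N) z =
      (derivative A * B - A * derivative B).eval (wp L z) * deriv (wp L) z := by
  have a := wp_diff hL fun e => hz (h e)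
  have e : ∀ᶠ w in 𝓝 z, w ∉ N := by
    obtain ⟨P, rfl⟩ := hN
    exact P.isClosed_lattice.isOpen_compl.mem_nhds hz
  have := ((((B.hasDerivAt _).comp z a).mul (wp_diff hN hz)).congr_of_eventuallyEq
    (e.mono fun w hw => (r w hw).symm)).unique ((A.hasDerivAt _).comp z a)
  simp only [eval_sub, eval_mul, ← r z hz, Function.comp] at this ⊢
  linear_combination B.eval (wp L z) * this

theorem deriv_smul (hc : c ≠ 0) (z : ℂ) :
    deriv (wp (c • L)) (c * z) = (c ^ 3)⁻¹ * deriv (wp L) z := by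
  have := deriv_comp_mul_left c (wp (c • L)) z
  simp only [wp_smul L hc, deriv_const_mul_field', smul_eq_mul] at this
  field_simp at this ⊢
  linear_combination -this

/-- The formulas of an isogeny. -/
def RM (A B : ℂ[X]) (c : ℂ) : RatMap ℂ :=
  ⟨A, 0, C (c ^ 2) * B, 0, derivative A * B - A * derivative B, C (c ^ 3) * B ^ 2⟩

theorem RM_map (σ : ℂ →+* ℂ) : (RM A B c).map σ = RM (A.map σ) (B.map σ) (σ c) := by
  simp [RM, RatMap.map]

theorem rep {u : ℂ →+ (W0 L).Point} {v : ℂ →+ (W0 (c • N)).Point} (hu : St L u)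
    (hv : St (c • N) v) (hN : IsLat N) (hc : c ≠ 0) (h : L ≤ N) (hB : B ≠ 0)
    (r : ∀ z, z ∉ N → B.eval (wp L z) * wp N z = A.eval (wp L z)) :
    ∃ f : (W0 L).Point →+ (W0 (c • N)).Point, Rep (RM A B c) f ∧ ∀ z, f (u z) = v (c * z) := by
  have m : ∀ z, c * z ∈ c • N ↔ z ∈ N := fun z =>
    mem_smul_iff.trans ⟨fun ⟨y, a, e⟩ => mul_left_cancel₀ hc e ▸ a, fun a => ⟨z, a, rfl⟩⟩
  obtain ⟨f, hf⟩ : ∃ f : (W0 L).Point →+ (W0 (c • N)).Point, ∀ z, f (u z) = v (c * z) :=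
    ⟨_, u.liftOfRightInverse_comp_apply _ (Function.rightInverse_surjInv hu.surj)
      ⟨v.comp (AddMonoidHom.mulLeft c), fun z a => (hv.ker _).2 ((m z).2 (h ((hu.ker z).1 a)))⟩⟩
  have fin : (wp L '' N).Finite := by
    obtain ⟨P, rfl⟩ := hu.lat
    obtain ⟨Q, rfl⟩ := hN
    exact MP_9177b7_ag.CM.Rat.finite_vals P Q h
  have e : ∀ᶠ P in cofinite, f P ≠ 0 ∧ xc (f P) = A.eval (xc P) / (c ^ 2 * B.eval (xc P)) ∧
      yc (f P) = (derivative A * B - A * derivative B).eval (xc P) * yc P /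
        (c ^ 3 * B.eval (xc P) ^ 2) := by
    filter_upwards [ev_ne_zero _, ev_eval_xc_ne _ hB,
      (tendsto_xc _).eventually fin.eventually_cofinite_notMem] with P a b d
    obtain ⟨z, rfl⟩ := hu.surj P
    obtain ⟨x, y⟩ := hu.val z (mt (hu.ker z).2 a)
    have n : z ∉ N := fun e => d ⟨z, e, x.symm⟩
    obtain ⟨x', y'⟩ := hv.val _ (mt (m z).1 n)
    rw [x] at b
    rw [hf, x', y', x, y, wp_smul _ hc, deriv_smul hc, ← r z n]
    refine ⟨mt (hv.ker _).1 (mt (m z).1 n), by field_simp, ?_⟩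
    field_simp
    linear_combination rel_deriv hu.lat hN h r n
  refine ⟨f, ⟨e.mono fun P a => a.1, ⟨mul_ne_zero (C_ne_zero.2 (pow_ne_zero _ hc)) hB,
    e.mono fun P a => ?_⟩, mul_ne_zero (C_ne_zero.2 (pow_ne_zero _ hc)) (pow_ne_zero _ hB),
    e.mono fun P a => ?_⟩, hf⟩
  · simp [RM, a.2.1]
  · simp [RM, a.2.2]

theorem le_inv (hc : c ≠ 0) (h : c • L ≤ N) : L ≤ c⁻¹ • N := by
  simpa only [inv_smul_smul₀ hc] using smul_le_smul c⁻¹ h

theorem exRel (hL : IsLat L) (hN : IsLat N) (h : L ≤ N) : ∃ A B : ℂ[X], B ≠ 0 ∧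
    ∀ z, z ∉ N → B.eval (wp L z) * wp N z = A.eval (wp L z) := by
  obtain ⟨P, rfl⟩ := hL
  obtain ⟨Q, rfl⟩ := hN
  exact MP_9177b7_ag.CM.rat P Q h

theorem iso {u : ℂ →+ (W0 L).Point} {v : ℂ →+ (W0 N).Point} (hu : St L u) (hv : St N v)
    (hc : c ≠ 0) (h : c • L ≤ N) :
    ∃ f : (W0 L).Point →+ (W0 N).Point, IsAlg ⊤ f ∧ ∀ z, f (u z) = v (c * z) := by
  have l := hyp.isLat_smul hv.lat (inv_ne_zero hc)
  obtain ⟨A, B, hB, r⟩ := exRel hu.lat l (le_inv hc h)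
  replace h := le_inv hc h
  obtain ⟨M, rfl⟩ : ∃ M, N = c • M := ⟨_, (smul_inv_smul₀ hc N).symm⟩
  rw [inv_smul_smul₀ hc] at l r h
  exact (rep hu hv l hc h hB r).imp fun f a => ⟨a.1.isAlg_top, a.2⟩

theorem W0_map {σ : ℂ →+* ℂ} (h : Conj σ L L') : (W0 L).map σ = W0 L' := by
  ext <;> simp [← h.2.2.1, ← h.2.2.2, map_ofNat]

theorem conj {σ : ℂ →+* ℂ} {u : ℂ →+ (W0 L).Point} {v : ℂ →+ (W0 N).Point}
    {u' : ℂ →+ (W0 L').Point} {v' : ℂ →+ (W0 N').Point} (hu : St L u) (hv : St N v)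
    (hu' : St L' u') (hv' : St N' v') (h1 : Conj σ L L') (h2 : Conj σ N N') (hc : c ≠ 0)
    (h : c • L ≤ N) {z w : ℂ} (e : ptMap σ (W0_map h1) (u z) = u' w) :
    ptMap σ (W0_map h2) (v (c * z)) = v' (σ c * w) := by
  have hc' : σ c ≠ 0 := (map_ne_zero σ).2 hc
  have h3 := hyp.conj_smul h2 (inv_ne_zero hc)
  replace h := le_inv hc h
  obtain ⟨M, rfl⟩ : ∃ M, N = c • M := ⟨_, (smul_inv_smul₀ hc N).symm⟩
  obtain ⟨M', rfl⟩ : ∃ M, N' = σ c • M := ⟨_, (smul_inv_smul₀ hc' N').symm⟩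
  rw [map_inv₀, inv_smul_smul₀ hc', inv_smul_smul₀ hc] at h3
  rw [inv_smul_smul₀ hc] at h
  obtain ⟨A, B, hB, r⟩ := exRel h1.1 h3.1 h
  have h' := hyp.conj_mono h1 h3 h
  obtain ⟨f, a, hf⟩ := rep hu hv h3.1 hc h hB r
  obtain ⟨f', a', hf'⟩ := rep (A := A.map σ) hu' hv' h3.2.1 hc' h'
    ((Polynomial.map_ne_zero_iff σ.injective).2 hB) fun z hz => by
      obtain ⟨P, rfl⟩ := h1.1
      obtain ⟨P', rfl⟩ := h3.1
      obtain ⟨Q, rfl⟩ := h1.2.1
      obtain ⟨Q', rfl⟩ := h3.2.1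
      exact sub_eq_zero.1 (rel_transfer h1 h3 r z (fun e => hz (h' e)) hz)
  have := infinite_pt (sep_of_c4 (Or.inr hu.dis))
  rw [← hf, ← hf', ← e]
  exact (a.conj _ _ (RM_map σ ▸ a') _).symm

theorem uni0 (hU : UnifStmt) {u : ℂ →+ (W0 L).Point} (hu : St L u) : Uni L (W0 L) u := by
  refine ⟨hu.surj, hu.ker, fun α a h => iso hu hu a h, fun σ μ W' e hμ h => ?_⟩
  obtain rfl : W' = W0 (μ • L) := e.symm.trans (W0_map h)
  obtain ⟨u', hu'⟩ := exSt hU h.2.1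
  obtain ⟨c, a, hc⟩ := iso hu' hu (inv_ne_zero hμ) (inv_smul_smul₀ hμ L).le
  obtain ⟨c', a', hc'⟩ := iso hu hu' hμ le_rfl
  have k : ∀ {P z}, c P = u z → P = u' (μ * z) := fun {P z} b => by
    obtain ⟨w, rfl⟩ := hu'.surj P
    rw [← hc', ← b, hc, hc', mul_inv_cancel_left₀ hμ]
  refine ⟨c, c', a, a', fun P => ?_, fun α z z' b s d => ?_, fun M M' z z' b s d => ?_⟩
  · obtain ⟨z, rfl⟩ := hu.surj P
    rw [hc', hc, inv_mul_cancel_left₀ hμ]
  · rcases eq_or_ne α 0 with rfl | n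
    · simp
    rw [conj hu hu hu' hu' h h n b (k d), hc, RingHom.coe_coe, s, mul_left_comm α,
      inv_mul_cancel_left₀ hμ]
  · obtain ⟨v, hv⟩ := exSt hU s.1
    obtain ⟨v', hv'⟩ := exSt hU s.2.1
    have := conj hu hv hu' hv' h s one_ne_zero (by rwa [one_smul]) (k d)
    rw [map_one, one_mul, one_mul] at this
    rw [← hv.ker, ← hv'.ker, ← this, map_eq_zero_iff _ (ptMap_injective _)]

theorem transport {W V : Affine ℂ} {u : ℂ →+ V.Point} (hu : Uni L V u) (hW : W.Δ ≠ 0)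
    (hV : V.Δ ≠ 0) {C : VariableChange ℂ} (h : C • W = V) : ∃ v, Uni L W v := by
  have inf : ∀ (X : Affine ℂ) (σ : ℂ →+* ℂ), X.Δ ≠ 0 → Infinite (X.map σ).Point := fun X σ a =>
    infinite_pt (sep_of_c4 (Or.inr (by simpa using a)))
  have alg : ∀ {X Y : Affine ℂ} {D : VariableChange ℂ} [Infinite Y.Point] (a : D • X = Y),
      IsAlg ⊤ (vcMap a) := fun a => isAlg_vcMap (over_top _) a trivial trivial trivial trivial
  have inj : ∀ {X Y : Affine ℂ} {D : VariableChange ℂ} [Infinite Y.Point] (a : D • X = Y),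
      Function.Injective (vcMap a) := fun a =>
    (injective_iff_map_eq_zero _).2 fun _ b => by_contra fun c => (vcMap_spec a c).1 b
  have := infinite_pt (sep_of_c4 (Or.inr hW))
  have := infinite_pt (sep_of_c4 (Or.inr hV))
  have h' : C⁻¹ • V = W := by rw [← h, inv_smul_smul]
  have i1 := vcMap_inv h h'
  have i2 : ∀ P, vcMap h' (vcMap h P) = P := fun P => inj h (i1 _)
  refine ⟨(vcMap h).comp u, (Function.RightInverse.surjective i1).comp hu.surj, fun z => ?_,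
    fun α a b => ?_, fun σ μ W' e hμ b => ?_⟩
  · rw [AddMonoidHom.comp_apply, map_eq_zero_iff _ (inj h), hu.ker]
  · obtain ⟨f, c, d⟩ := hu.mul α a b
    exact ⟨(vcMap h).comp (f.comp (vcMap h')), (alg h).comp (over_top _)
      (c.comp (over_top _) (alg h')), fun z => by simp only [AddMonoidHom.comp_apply, i2, d]⟩
  subst e
  obtain ⟨c, c', a1, a2, a3, a4, a5⟩ := hu.gal σ μ _ rfl hμ b
  have := inf W σ hW
  have := inf V σ hV
  have g : C.map (σ : ℂ →+* ℂ) • W.map σ = V.map (σ : ℂ →+* ℂ) := by rw [map_variableChange, h]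
  have g' : (C.map (σ : ℂ →+* ℂ))⁻¹ • V.map σ = W.map (σ : ℂ →+* ℂ) := by rw [← g, inv_smul_smul]
  have j2 : ∀ P, vcMap g' (vcMap g P) = P := fun P => inj g (vcMap_inv g g' _)
  have k : ∀ P, vcMap g' (ptMap (σ : ℂ →+* ℂ) rfl (vcMap h P)) = ptMap (σ : ℂ →+* ℂ) rfl P :=
    fun P => by rw [ptMap_vcMap h g rfl rfl, j2]
  refine ⟨(vcMap h).comp (c.comp (vcMap g')), (vcMap g).comp (c'.comp (vcMap h')),
    (alg h).comp (over_top _) (a1.comp (over_top _) (alg g')),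
    (alg g).comp (over_top _) (a2.comp (over_top _) (alg h')), fun P => ?_, ?_, ?_⟩ <;>
    simp only [AddMonoidHom.comp_apply, j2, a3, i1, k, (inj h).eq_iff]
  exacts [a4, a5]

end UniA

open UniA in
theorem uni_thm (hUnif : UnifStmt) : UniStmt := fun L W hL hW e => by
  obtain ⟨u, hu⟩ := exSt hUnif hL
  have : W.IsElliptic := ⟨hW.isUnit⟩
  have : (W0 L).IsElliptic := ⟨hu.dis.isUnit⟩
  obtain ⟨C, h⟩ := exists_variableChange_of_j_eq W (W0 L) (by
    have a : (W0 L).Δ = dis L := by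
      simp only [Δ, b₂, b₄, b₆, b₈, dis]
      ring
    have b : (W0 L).c₄ = 12 * g2 L := by
      simp only [c₄, b₂, b₄]
      ring
    simp only [j, Units.val_inv_eq_inv_val, coe_Δ', a, b, ← div_eq_inv_mul, e, jL]
    ring)
  exact transport (uni0 hUnif hu) hW hu.dis h

end Pool.Agent.Lib.MP_d6ddbd_nt.K11
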