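import Pool.Agent.Lib.MP_d6ddbd_nt.K11.Stmt

/-!
The uniformisation of an elliptic curve by the Weierstrass function.
-/

set_option autoImplicit false

open Filter Topology
open Pool.Agent.Lib.MP_02f36d_nt (xc yc pt_ext eqn add_coords xc_neg yc_neg)
open Pool.Agent.Lib.MP_9177b7_ag.CM (IsLat g2 g3 hyp)
open Pool.Agent.Lib.MP_0c15f2_nt

noncomputable section

namespace Pool.Agent.Lib.MP_d6ddbd_nt.K11

namespace Unif

variable (P : PeriodPair)

/-- The curve of a lattice. -/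
abbrev WW : WeierstrassCurve.Affine ℂ := ⟨0, 0, 0, -P.g₂ / 4, -P.g₃ / 4⟩

theorem disc : (WW P).Δ ≠ 0 := by
  have h : P.g₂ ^ 3 - 27 * P.g₃ ^ 2 ≠ 0 := hyp.dis_ne_zero ⟨P, rfl⟩
  convert h using 1
  simp only [WeierstrassCurve.Δ, WeierstrassCurve.b₂, WeierstrassCurve.b₄, WeierstrassCurve.b₆,
    WeierstrassCurve.b₈]
  ring

theorem nons {z : ℂ} (hz : z ∉ P.lattice) :
    (WW P).Nonsingular (P.weierstrassP z) (P.derivWeierstrassP z / 2) := by
  rw [← WeierstrassCurve.Affine.equation_iff_nonsingular_of_Δ_ne_zero (disc P),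
    WeierstrassCurve.Affine.equation_iff]
  linear_combination (1 / 4 : ℂ) * P.derivWeierstrassP_sq z hz

open Classical in
/-- The point with parameter `z`. -/
def uf (z : ℂ) : (WW P).Point := if h : z ∈ P.lattice then 0 else .some _ _ (nons P h)

variable {P}

theorem uf_mem {z : ℂ} (h : z ∈ P.lattice) : uf P z = 0 := dif_pos h

theorem uf_not {z : ℂ} (h : z ∉ P.lattice) :
    uf P z ≠ 0 ∧ xc (uf P z) = P.weierstrassP z ∧ yc (uf P z) = P.derivWeierstrassP z / 2 := by
  rw [uf, dif_neg h]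
  exact ⟨WeierstrassCurve.Affine.Point.some_ne_zero _, rfl, rfl⟩

theorem add_gen {s t : ℂ} (ht : t ∉ P.lattice) (h1 : s + t ∉ P.lattice) (h2 : s - t ∉ P.lattice) :
    uf P (s + t) = uf P s + uf P t := by
  obtain ⟨b0, b1, b2⟩ := uf_not ht
  obtain ⟨c0, c1, c2⟩ := uf_not h1
  by_cases hs : s ∈ P.lattice
  · rw [uf_mem hs, zero_add]
    refine pt_ext c0 b0 ?_ ?_
    · rw [c1, b1, add_comm, wp_add hs]
    · rw [c2, b2, add_comm, wp'_add hs]
  obtain ⟨a0, a1, a2⟩ := uf_not hs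
  have n : P.weierstrassP s ≠ P.weierstrassP t := fun e =>
    (MP_0c15f2_nt.wp_inj hs ht e).elim h2 h1
  obtain ⟨d0, d1, d2⟩ := add_coords a0 b0 fun e => n (a1.symm.trans (e.1.trans b1))
  have e1 := fs hs ht h1
  have e2 := fs_deriv hs ht h1
  have e3 := fs_one hs ht h1
  generalize wzeta P (s + t) - wzeta P s - wzeta P t = l at e1 e2 e3
  have e4 : (WW P).slope (P.weierstrassP s) (P.weierstrassP t) (P.derivWeierstrassP s / 2)
      (P.derivWeierstrassP t / 2) = l := by
    rw [WeierstrassCurve.Affine.slope_of_X_ne n, div_eq_iff (sub_ne_zero.2 n)]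
    linear_combination (-1 / 2 : ℂ) * e3
  rw [a1, a2, b1, b2, e4] at d1 d2
  refine pt_ext c0 d0 ?_ ?_
  · rw [c1, d1, WeierstrassCurve.Affine.addX]
    linear_combination -e1
  · rw [c2, d2]
    simp only [WeierstrassCurve.Affine.addY, WeierstrassCurve.Affine.negY,
      WeierstrassCurve.Affine.negAddY, WeierstrassCurve.Affine.addX]
    linear_combination (-1 / 2 : ℂ) * e2 + l * e1

theorem gen (P : PeriodPair) (s : Finset ℂ) : ∃ t : ℂ, ∀ a ∈ s, t + a ∉ P.lattice := by
  by_contra h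
  push Not at h
  refine not_countable_complex ((s.countable_toSet.biUnion fun a _ =>
    (countable_lattice P).preimage (add_left_injective a)).mono fun t _ => ?_)
  obtain ⟨a, ha, e⟩ := h t
  exact Set.mem_biUnion ha e

theorem uf_add (s t : ℂ) : uf P (s + t) = uf P s + uf P t := by
  obtain ⟨w, h⟩ := gen P {0, t, s + t, t - s, -t, -(s + t)}
  have h0 : w ∉ P.lattice := by simpa using h 0 (by simp)
  have k : ∀ a b : ℂ, w + a ∉ P.lattice → b = w + a ∨ b = -(w + a) → b ∉ P.lattice := by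
    rintro a b e (rfl | rfl)
    exacts [e, neg_notMem e]
  have e1 := add_gen (s := s + t) h0 (k _ _ (h (s + t) (by simp)) (.inl (by ring)))
    (k _ _ (h (-(s + t)) (by simp)) (.inr (by ring)))
  have e2 := add_gen (s := t) h0 (k _ _ (h t (by simp)) (.inl (by ring)))
    (k _ _ (h (-t) (by simp)) (.inr (by ring)))
  have e3 := add_gen (s := s) (t := t + w) (k _ _ (h t (by simp)) (.inl (by ring)))
    (k _ _ (h (s + t) (by simp)) (.inl (by ring))) (k _ _ (h (t - s) (by simp)) (.inr (by ring)))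
  rw [← add_assoc, e1, e2, ← add_assoc] at e3
  exact add_right_cancel e3

theorem wp_surj (P : PeriodPair) (c : ℂ) : ∃ z, z ∉ P.lattice ∧ P.weierstrassP z = c := by
  by_contra h
  push Not at h
  have hE := P.analyticAt_weierstrassPExcept 0
  have hu : AnalyticAt ℂ (fun z => z ^ 2 / (1 + z ^ 2 * (P.weierstrassPExcept 0 z - c))) 0 :=
    AnalyticAt.div (by fun_prop) (by fun_prop) (by simp)
  have hG : ∀ᶠ z in 𝓝[≠] 0, (P.weierstrassP z - c)⁻¹ =
      z ^ 2 / (1 + z ^ 2 * (P.weierstrassPExcept 0 z - c)) := by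
    filter_upwards [self_mem_nhdsWithin] with z hz
    have hz' : z ≠ 0 := hz
    rw [← inv_div, MP_0c15f2_nt.wp_eq P z]
    congr 1
    field_simp
    ring
  have key := zero_of_removable (L := P) (S := P.lattice)
    (G := fun z => (P.weierstrassP z - c)⁻¹) (ev_notMem P) P.isClosed_lattice
    (fun l hl z => P.lattice.add_mem_iff_left hl) (fun l hl z _ => by rw [wp_add hl])
    (fun z hz => ((analyticAt_wp hz).sub analyticAt_const).inv (sub_ne_zero.2 (h z hz)))
    (fun t ht => ⟨-t, P.lattice.neg_mem ht, by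
      rw [add_neg_cancel]; exact ⟨_, hu, hG.mono fun z h => by simpa using h⟩⟩)
    ⟨_, hu.continuousAt, by simp, hG⟩
  exact inv_ne_zero (sub_ne_zero.2 (h _ P.ω₁_div_two_notMem_lattice))
    (key _ P.ω₁_div_two_notMem_lattice)

theorem uf_surj : Function.Surjective (uf P) := by
  intro Q
  by_cases hQ : Q = 0
  · exact ⟨0, (uf_mem (zero_mem _)).trans hQ.symm⟩
  obtain ⟨z, hz, e⟩ := wp_surj P (xc Q)
  have h : yc Q ^ 2 = (P.derivWeierstrassP z / 2) ^ 2 := by
    have h1 := eqn hQ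
    have h2 := P.derivWeierstrassP_sq z hz
    rw [e] at h2
    linear_combination h1 - (1 / 4 : ℂ) * h2
  rcases sq_eq_sq_iff_eq_or_eq_neg.1 h with h | h
  · obtain ⟨a0, a1, a2⟩ := uf_not hz
    exact ⟨z, pt_ext a0 hQ (a1.trans e) (a2.trans h.symm)⟩
  · obtain ⟨a0, a1, a2⟩ := uf_not (neg_notMem hz)
    exact ⟨-z, pt_ext a0 hQ (by rw [a1, P.weierstrassP_neg, e])
      (by rw [a2, P.derivWeierstrassP_neg, h, neg_div])⟩

end Unif

open Unif in
theorem unif_thm : UnifStmt := by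
  rintro _ _ ⟨P, rfl⟩ rfl
  refine ⟨disc P, AddMonoidHom.mk' (uf P) uf_add, uf_surj,
    fun z => ⟨fun h => by_contra fun hz => (uf_not hz).1 h, uf_mem⟩, fun z hz => ?_⟩
  rw [wp_eq, P.deriv_weierstrassP]
  exact (uf_not hz).2

end Pool.Agent.Lib.MP_d6ddbd_nt.K11
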