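import Pool.Agent.Lib.MP_d6ddbd_nt.K11.Stmt

/-!
Existence of places and of Frobenius elements.
-/

set_option autoImplicit false

open NumberField IsDedekindDomain
open Pool.Agent.Stark (Pr og)
open Pool.Agent.Lib.MP_9177b7_ag

noncomputable section

namespace Pool.Agent.Lib.MP_d6ddbd_nt.K11

namespace V1

variable {F : Type} [Field F] [NumberField F] {e : F →+* ℂ} {O : ValuationSubring ℂ} {𝔭 : Pr F}

theorem og_iff (𝔭 : Pr F) {x : F} (hx : x ≠ 0) : 0 ≤ og 𝔭 x ↔ 𝔭.valuation F x ≤ 1 := by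
  rw [Pool.Agent.Stark.val_eq_exp hx, ← WithZero.exp_zero, WithZero.exp_le_exp, og]
  omega

theorem og_inv (𝔭 : Pr F) (x : F) : og 𝔭 x⁻¹ = -og 𝔭 x := Pool.Agent.Stark.ord_inv x

omit [NumberField F] in
theorem int_mem (e : F →+* ℂ) (O : ValuationSubring ℂ) (a : 𝓞 F) : e a ∈ O := by
  have h1 : IsIntegral ℤ (e a) := a.isIntegral_coe.map e.toIntAlgHom
  obtain ⟨y, hy⟩ := IsIntegrallyClosed.isIntegral_iff.1 (h1.tower_top (A := O))
  exact hy ▸ y.2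

theorem unit (h : ∀ a ∈ 𝔭.asIdeal, e a ∈ O.nonunits) {a : 𝓞 F} (ha : a ∉ 𝔭.asIdeal) :
    O.valuation (e a) = 1 := by
  obtain ⟨b, c, hc, h1⟩ := 𝔭.isMaximal.exists_inv ha
  have h2 : e b * e a + e c = 1 := by
    simpa using congrArg (e.comp (algebraMap (𝓞 F) F)) h1
  refine le_antisymm ((O.valuation_le_one_iff _).2 (int_mem e O a)) (not_lt.1 fun h3 => ?_)
  have h4 : O.valuation (e b * e a) < 1 := by
    rw [map_mul]
    exact (mul_le_of_le_one_left' ((O.valuation_le_one_iff _).2 (int_mem e O b))).trans_lt h3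
  have h5 := O.valuation.map_add_lt h4 (h c hc)
  rw [h2, map_one] at h5
  exact lt_irrefl _ h5

theorem below (h : ∀ a ∈ 𝔭.asIdeal, e a ∈ O.nonunits) : Below e O 𝔭 := by
  have key : ∀ x : F, 𝔭.valuation F x ≤ 1 → ∃ n : 𝓞 F, O.valuation (e x) = O.valuation (e n) ∧
      𝔭.valuation F x = 𝔭.valuation F n := fun x hx => by
    obtain ⟨n, d, hd⟩ := 𝔭.exists_primeCompl_mul_eq_of_integer x hx
    have h1 : 𝔭.valuation F (d : 𝓞 F) = 1 := le_antisymm (𝔭.valuation_le_one _)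
      (not_lt.1 fun h2 => d.2 ((𝔭.valuation_lt_one_iff_mem _).1 h2))
    have hd' : x * ((d : 𝓞 F) : F) = n := hd
    refine ⟨n, ?_, ?_⟩
    · rw [← hd', map_mul, map_mul, unit h d.2, mul_one]
    · rw [← hd', map_mul, h1, mul_one]
  intro x hx
  rw [og_iff 𝔭 hx]
  refine ⟨fun h1 => not_lt.1 fun h2 => ?_, fun h1 => ?_⟩
  · have h3 : 𝔭.valuation F x⁻¹ < 1 := by
      rw [map_inv₀]
      exact inv_lt_one_of_one_lt₀ h2
    obtain ⟨n, n1, n2⟩ := key _ h3.le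
    have h4 : (e x)⁻¹ ∈ O.nonunits := by
      rw [O.mem_nonunits_iff, ← map_inv₀, n1]
      exact h n ((𝔭.valuation_lt_one_iff_mem _).1 (n2 ▸ h3))
    exact (O.inv_mem_nonunits_iff.1 h4).elim ((map_ne_zero e).2 hx) fun h5 => h5 h1
  · obtain ⟨n, n1, -⟩ := key _ h1
    rw [← O.valuation_le_one_iff, n1, O.valuation_le_one_iff]
    exact int_mem e O n

theorem nonu (h : Below e O 𝔭) {x : F} (hx : x ≠ 0) : e x ∈ O.nonunits ↔ 0 < og 𝔭 x := by
  rw [O.mem_nonunits_iff_or, or_iff_right ((map_ne_zero e).2 hx), ← map_inv₀,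
    h _ (inv_ne_zero hx), og_inv]
  omega

theorem ex_place (e : F →+* ℂ) (𝔭 : Pr F) : ∃ O, Below e O 𝔭 := by
  let f : 𝓞 F →+* ℂ := e.comp (algebraMap (𝓞 F) F)
  have hf : Function.Bijective f.rangeRestrict :=
    ⟨fun a b h => (e.injective.comp RingOfIntegers.coe_injective) (congrArg Subtype.val h),
      f.rangeRestrict_surjective⟩
  obtain ⟨O, -, h⟩ := Ideal.image_subset_nonunits_valuationSubring (𝔭.asIdeal.map f.rangeRestrict)
    fun h => 𝔭.isPrime.ne_top (by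
      rw [← Ideal.comap_map_of_bijective f.rangeRestrict hf (I := 𝔭.asIdeal), h, Ideal.comap_top])
  exact ⟨O, below fun a ha => h ⟨_, Ideal.mem_map_of_mem _ ha, rfl⟩⟩

theorem ex_prime (e : F →+* ℂ) {v : ℕ} (hv : v.Prime) (h : Ov O v) :
    ∃ 𝔭 : Pr F, (v : 𝓞 F) ∈ 𝔭.asIdeal ∧ ∀ a ∈ 𝔭.asIdeal, e a ∈ O.nonunits := by
  let f : 𝓞 F →+* O := (e.comp (algebraMap (𝓞 F) F)).codRestrict O (int_mem e O)
  have h1 : ∀ a, a ∈ (IsLocalRing.maximalIdeal O).comap f ↔ e a ∈ O.nonunits := fun a =>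
    ValuationSubring.coe_mem_nonunits_iff.symm
  have h2 : (v : 𝓞 F) ∈ (IsLocalRing.maximalIdeal O).comap f := (h1 _).2 (by simpa [Ov] using h)
  exact ⟨⟨(IsLocalRing.maximalIdeal O).comap f, Ideal.comap_isPrime _ _,
    fun h3 => hv.ne_zero (by simpa [h3] using h2)⟩, h2, fun a ha => (h1 a).1 ha⟩

theorem fin_frob [IsGalois ℚ F] (e : F →+* ℂ) {v : ℕ} (hv : v.Prime) (h : Ov O v) :
    ∃ σ : F ≃ₐ[ℚ] F, ∀ x : F, e x ∈ O → e (σ x) ∈ O ∧ e (σ x) - e x ^ v ∈ O.nonunits := by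
  have : Fact v.Prime := ⟨hv⟩
  obtain ⟨𝔭, h1, h2⟩ := ex_prime e hv h
  have := 𝔭.isPrime
  have : Finite (𝓞 F ⧸ 𝔭.asIdeal) := Ideal.finiteQuotientOfFreeOfNeBot _ 𝔭.ne_bot
  obtain ⟨σ, hσ⟩ := IsArithFrobAt.exists_of_isInvariant ℤ (F ≃ₐ[ℚ] F) 𝔭.asIdeal
  have h3 : Ideal.span {(v : ℤ)} = 𝔭.asIdeal.under ℤ :=
    (inferInstance : (Ideal.span {(v : ℤ)}).IsMaximal).eq_of_le (Ideal.IsPrime.ne_top')
      ((Ideal.span_singleton_le_iff_mem _).2 (by simpa using h1))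
  have h4 : ∀ a : 𝓞 F, O.valuation (e (σ a) - e a ^ v) < 1 := fun a => by
    have := hσ a
    rw [← h3, Int.card_ideal_quot] at this
    have h5 := h2 _ this
    simp only [map_sub, map_pow] at h5
    exact h5
  refine ⟨σ, fun x hx => ?_⟩
  by_cases h0 : x = 0
  · simp [h0, hv.ne_zero]
  obtain ⟨n, d, hd⟩ := 𝔭.exists_primeCompl_mul_eq_of_integer x
    ((og_iff 𝔭 h0).1 ((below h2 x h0).1 hx))
  have hd' : x * ((d : 𝓞 F) : F) = n := hd
  have d1 : O.valuation (e (d : 𝓞 F) ^ v) = 1 := by rw [map_pow, unit h2 d.2, one_pow]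
  have d2 : O.valuation (e (σ (d : 𝓞 F))) = 1 := by
    rw [← d1]
    exact O.valuation.map_eq_of_sub_lt (d1.symm ▸ h4 d)
  have x1 : O.valuation (e x ^ v) ≤ 1 := (O.valuation_le_one_iff _).2 (pow_mem hx v)
  have e1 : (e (σ x) - e x ^ v) * e (σ (d : 𝓞 F)) =
      (e (σ n) - e n ^ v) - e x ^ v * (e (σ (d : 𝓞 F)) - e (d : 𝓞 F) ^ v) := by
    rw [← hd', map_mul, map_mul, map_mul]
    ring
  have e2 : O.valuation (e (σ x) - e x ^ v) < 1 := by
    rw [← mul_one (O.valuation _), ← d2, ← map_mul, e1, d2]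
    refine O.valuation.map_sub_lt (h4 n) ?_
    rw [map_mul]
    exact (mul_le_of_le_one_left' x1).trans_lt (h4 d)
  refine ⟨(O.valuation_le_one_iff _).1 ?_, e2⟩
  rw [← sub_add_cancel (e (σ x)) (e x ^ v)]
  exact O.valuation.map_add_le e2.le x1

theorem fin_lev {v : ℕ} (hv : v.Prime) (h : Ov O v) (J : Finset ℂ) : ∃ σ : G, ∀ x ∈ J,
    IsAlgebraic ℚ x → x ∈ O → σ x ∈ O ∧ σ x - x ^ v ∈ O.nonunits := by
  obtain ⟨K, _, _, _, j, hj⟩ := CM.Frob.exists_field {x | x ∈ J ∧ IsAlgebraic ℚ x}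
    (J.finite_toSet.subset fun _ hx => hx.1) fun _ hx => hx.2
  obtain ⟨σ₀, hσ₀⟩ := fin_frob j hv h
  have : Countable K := Countable.of_equiv _ (Module.finBasis ℚ K).equivFun.toEquiv.symm
  obtain ⟨σ, hσ⟩ := CM.ext K j (j.comp (σ₀ : K →+* K)) j.injective
    (j.injective.comp σ₀.injective)
  refine ⟨σ, fun x hx ha hO => ?_⟩
  obtain ⟨y, rfl⟩ := hj x ⟨hx, ha⟩
  rw [hσ]
  exact hσ₀ y hO

/-- The limit of automorphisms along an ultrafilter. -/
theorem lim {ι : Type} (U : Ultrafilter ι) (Φ : ι → G) :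
    ∃ σ : G, ∀ x : ℂ, IsAlgebraic ℚ x → ∀ᶠ i in (U : Filter ι), Φ i x = σ x := by
  let K := algebraicClosure ℚ ℂ
  have h1 : ∀ x : K, ∃ y, ∀ᶠ i in (U : Filter ι), Φ i x = y := fun x => by
    obtain ⟨p, p0, hp⟩ := mem_algebraicClosure_iff.1 x.2
    obtain ⟨y, -, hy⟩ := (Ultrafilter.eventually_exists_mem_iff (f := U)
      (P := fun y i => Φ i x = y) (p.rootSet_finite ℂ)).1 (Filter.Eventually.of_forall fun i =>
        ⟨_, Polynomial.mem_rootSet.2 ⟨p0, by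
          have := Polynomial.aeval_algHom_apply (Φ i).toRingHom.toRatAlgHom (x : ℂ) p
          rw [hp, map_zero] at this
          exact this⟩, rfl⟩)
    exact ⟨y, hy⟩
  choose g hg using h1
  let g' : K →+* ℂ :=
    { toFun := g
      map_one' := by
        obtain ⟨i, h⟩ := (hg 1).exists
        rw [← h]
        exact map_one (Φ i)
      map_zero' := by
        obtain ⟨i, h⟩ := (hg 0).exists
        rw [← h]
        exact map_zero (Φ i)
      map_mul' := fun x y => by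
        obtain ⟨i, h1, h2, h3⟩ := ((hg x).and ((hg y).and (hg (x * y)))).exists
        rw [← h1, ← h2, ← h3]
        exact map_mul (Φ i) _ _
      map_add' := fun x y => by
        obtain ⟨i, h1, h2, h3⟩ := ((hg x).and ((hg y).and (hg (x + y)))).exists
        rw [← h1, ← h2, ← h3]
        exact map_add (Φ i) _ _ }
  have : Countable K := ((Algebraic.countable ℚ ℂ).mono
    fun x (hx : x ∈ K) => mem_algebraicClosure_iff.1 hx).to_subtype
  obtain ⟨σ, hσ⟩ := CM.ext K K.val.toRingHom g' K.val.injective g'.injective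
  refine ⟨σ, fun x hx => ?_⟩
  have h2 : σ x = g ⟨x, mem_algebraicClosure_iff.2 hx⟩ := hσ ⟨x, _⟩
  rw [h2]
  exact hg ⟨x, _⟩

theorem frob {v : ℕ} (hv : v.Prime) (h : Ov O v) : ∃ φ : G, Frob O v φ := by
  choose Φ hΦ using fin_lev hv h
  obtain ⟨σ, hσ⟩ := lim (Ultrafilter.of Filter.atTop) Φ
  refine ⟨σ, fun x ha hx => ?_⟩
  obtain ⟨J, h1, h2⟩ := ((hσ x ha).and ((Filter.eventually_ge_atTop ({x} : Finset ℂ)).filter_mono
    (Ultrafilter.of_le _))).exists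
  rw [← h1]
  exact hΦ J x (h2 (Finset.mem_singleton_self x)) ha hx

end V1

theorem v1_thm : V1Stmt := by
  refine ⟨fun v hv => ?_, fun F _ _ e 𝔭 => V1.ex_place e 𝔭, fun F _ _ e v O hv h => ?_,
    fun F _ _ e O 𝔭 h x hx => V1.nonu h hx, fun v O hv h => V1.frob hv h⟩
  · obtain ⟨-, Q, h1, h2, -⟩ := @CM.Frob.exists_frob ℚ _ _ (IsGalois.self ℚ) _ hv
    have h0 : (v : 𝓞 ℚ) ≠ 0 := Nat.cast_ne_zero.2 hv.ne_zero
    let 𝔭 : Pr ℚ := ⟨Q, h1, fun e => h0 (by simpa [e] using h2)⟩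
    obtain ⟨O, hO⟩ := V1.ex_place (algebraMap ℚ ℂ) 𝔭
    refine ⟨O, ?_⟩
    have := (V1.nonu hO (x := (v : 𝓞 ℚ)) (Nat.cast_ne_zero.2 hv.ne_zero)).2
      ((Pool.Agent.Stark.og_pos_iff 𝔭 h0).2 h2)
    simpa [Ov] using this
  · obtain ⟨𝔭, h1, h2⟩ := V1.ex_prime e hv h
    exact ⟨𝔭, h1, V1.below h2⟩

end Pool.Agent.Lib.MP_d6ddbd_nt.K11
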