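import Pool.Agent.Lib.MP_d6ddbd_nt.K11.Stmt

/-!
Calculus of Frobenius elements.
-/

set_option autoImplicit false

noncomputable section

namespace Pool.Agent.Lib.MP_d6ddbd_nt.K11

namespace V2

variable {O : ValuationSubring ℂ} {x y : ℂ}

theorem mul_nu (hx : x ∈ O) (hy : y ∈ O.nonunits) : x * y ∈ O.nonunits := by
  rw [ValuationSubring.mem_nonunits_iff] at hy ⊢
  rw [map_mul]
  exact (mul_le_of_le_one_left' ((O.valuation_le_one_iff x).2 hx)).trans_lt hy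

theorem nu_of_mul (h : x * y ∈ O.nonunits) (hx : x ∉ O.nonunits) : y ∈ O.nonunits := by
  rw [ValuationSubring.mem_nonunits_iff] at h hx ⊢
  rw [map_mul] at h
  exact (le_mul_of_one_le_left' (not_lt.1 hx)).trans_lt h

theorem one_not : (1 : ℂ) ∉ O.nonunits := by
  rw [ValuationSubring.mem_nonunits_iff, map_one]
  exact lt_irrefl _

theorem nu_of_pow {n : ℕ} (h : x ^ n ∈ O.nonunits) : x ∈ O.nonunits := by
  by_contra hx
  induction n with
  | zero => exact one_not (by rwa [pow_zero] at h)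
  | succ n ih => exact ih (nu_of_mul (by rwa [pow_succ'] at h) hx)

theorem pow_nu {n : ℕ} (hn : n ≠ 0) (h : x ∈ O.nonunits) : x ^ n ∈ O.nonunits := by
  obtain ⟨m, rfl⟩ := Nat.exists_eq_succ_of_ne_zero hn
  rw [pow_succ]
  exact mul_nu (pow_mem (ValuationSubring.nonunits_subset h) m) h

theorem pow_sub (hx : x ∈ O) (hy : y ∈ O) (h : x - y ∈ O.nonunits) (n : ℕ) :
    x ^ n - y ^ n ∈ O.nonunits := by
  induction n with
  | zero => simp
  | succ n ih =>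
    have : x ^ (n + 1) - y ^ (n + 1) = x * (x ^ n - y ^ n) + y ^ n * (x - y) := by ring
    rw [this]
    exact add_mem (mul_nu hx ih) (mul_nu (pow_mem hy n) h)

theorem mem_of_pow {n : ℕ} (hn : n ≠ 0) (h : x ^ n ∈ O) : x ∈ O := by
  by_contra hx
  have h0 : x ≠ 0 := fun e => hx (e ▸ zero_mem _)
  have h1 := mul_nu h (pow_nu hn (O.inv_mem_nonunits_iff.2 (Or.inr hx)))
  rw [← mul_pow, mul_inv_cancel₀ h0, one_pow] at h1
  exact one_not h1

theorem alg (σ : G) (h : IsAlgebraic ℚ x) : IsAlgebraic ℚ (σ x) :=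
  h.algHom σ.toRingHom.toRatAlgHom

theorem int_not {l : ℕ} (hl : l.Prime) (h : Ov O l) {c : ℤ} (hc : ¬ (l : ℤ) ∣ c) :
    (c : ℂ) ∉ O.nonunits := fun h' => by
  obtain ⟨a, b, e⟩ := (Nat.prime_iff_prime_int.1 hl).irreducible.coprime_iff_not_dvd.2 hc
  have h1 := add_mem (mul_nu (intCast_mem O a) h) (mul_nu (intCast_mem O b) h')
  have h2 : (a : ℂ) * l + b * c = 1 := by exact_mod_cast e
  exact one_not (h2 ▸ h1)

theorem comap_nu (f : ℂ →+* ℂ) : x ∈ (O.comap f).nonunits ↔ f x ∈ O.nonunits := by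
  rw [ValuationSubring.mem_nonunits_iff_or, ValuationSubring.mem_nonunits_iff_or,
    ValuationSubring.mem_comap, map_inv₀, map_eq_zero]

theorem c1 {Q Q' : ℕ} {σ τ : G} (h : Frob O Q σ) (h' : Frob O Q' τ) : Frob O (Q * Q') (σ * τ) :=
  fun x hx hO => by
    obtain ⟨a1, a2⟩ := h' x hx hO
    obtain ⟨b1, b2⟩ := h _ (alg τ hx) a1
    refine ⟨b1, ?_⟩
    have := add_mem b2 (pow_sub a1 (pow_mem hO Q') a2 Q)
    rwa [sub_add_sub_cancel, ← pow_mul, mul_comm] at this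

theorem c2 {Q : ℕ} {σ : G} (h : Frob O Q σ) (hQ : Q ≠ 0) (hx : IsAlgebraic ℚ x) :
    (σ x ∈ O ↔ x ∈ O) ∧ (σ x ∈ O.nonunits ↔ x ∈ O.nonunits) := by
  have h1 : ∀ y, IsAlgebraic ℚ y → y ∈ O.nonunits → σ y ∈ O.nonunits := fun y hy hO => by
    have := add_mem (h y hy (ValuationSubring.nonunits_subset hO)).2 (pow_nu hQ hO)
    rwa [sub_add_cancel] at this
  refine ⟨⟨fun a => by_contra fun b => ?_, fun a => (h x hx a).1⟩,
    fun a => by_contra fun b => ?_, h1 x hx⟩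
  · have h2 := h1 _ hx.inv (O.inv_mem_nonunits_iff.2 (Or.inr b))
    rw [map_inv₀, O.inv_mem_nonunits_iff, map_eq_zero] at h2
    exact h2.elim (fun e => b (e ▸ zero_mem _)) fun e => e a
  · rw [ValuationSubring.mem_nonunits_iff_or, not_or, not_not] at b
    rw [ValuationSubring.mem_nonunits_iff_or, map_eq_zero, ← map_inv₀] at a
    exact a.elim b.1 fun e => e (h _ hx.inv b.2).1

theorem sub_of_pow {v : ℕ} (hv : v.Prime) (h : Ov O v) (n : ℕ) (hx : x ∈ O) (hy : y ∈ O)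
    (e : x ^ v ^ n - y ^ v ^ n ∈ O.nonunits) : x - y ∈ O.nonunits := by
  have : Fact v.Prime := ⟨hv⟩
  have h1 : ∀ a : O, IsLocalRing.residue O a = 0 ↔ (a : ℂ) ∈ O.nonunits := fun a => by
    rw [IsLocalRing.residue_eq_zero_iff, ValuationSubring.coe_mem_nonunits_iff]
  have : CharP (IsLocalRing.ResidueField O) v := (CharP.charP_iff_prime_eq_zero hv).2 (by
    rw [← map_natCast (IsLocalRing.residue O), h1]
    exact h)
  have h2 := (h1 (⟨x, hx⟩ ^ v ^ n - ⟨y, hy⟩ ^ v ^ n)).2 e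
  rw [map_sub, map_pow, map_pow, ← sub_pow_char_pow, ← map_sub] at h2
  exact (h1 _).1 (pow_eq_zero_iff (pow_ne_zero n hv.ne_zero) |>.1 h2)

theorem c3 {v n : ℕ} {σ τ : G} (hv : v.Prime) (hO : Ov O v) (h : Frob O (v ^ n) σ)
    (h' : Frob O (v ^ n) τ) : Frob O 1 (σ⁻¹ * τ) := fun x hx m => by
  have a0 := alg (σ⁻¹ * τ) hx
  have e : σ ((σ⁻¹ * τ) x) = τ x := σ.apply_symm_apply _
  obtain ⟨a1, a2⟩ := h' x hx m
  have a3 := (c2 h (pow_ne_zero n hv.ne_zero) a0).1.1 (e ▸ a1)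
  have a4 := sub_mem a2 (e ▸ (h _ a0 a3).2)
  rw [sub_sub_sub_cancel_left] at a4
  exact ⟨a3, by rw [pow_one]; exact sub_of_pow hv hO n a3 m a4⟩

theorem c4 {Q : ℕ} {σ : G} (g : G) (h : Frob O Q σ) :
    Frob (O.comap (g⁻¹ : G).toRingHom) Q (g * σ * g⁻¹) := fun x hx m => by
  obtain ⟨a1, a2⟩ := h _ (alg g⁻¹ hx) m
  have e : (g⁻¹ : G).toRingHom ((g * σ * g⁻¹) x) = σ ((g⁻¹ : G) x) := g.symm_apply_apply _
  refine ⟨ValuationSubring.mem_comap.2 (e ▸ a1), (comap_nu _).2 ?_⟩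
  rw [map_sub, map_pow, e]
  exact a2

theorem c6 {σ : G} (h : Frob O 1 σ) (hx : IsAlgebraic ℚ x) (m : x ∈ O) (e : σ x = x ∨ σ x = y)
    (hy : x - y ∉ O.nonunits) : σ x = x := e.elim id fun e => by
  have := neg_mem (h x hx m).2
  rw [e, pow_one, neg_sub] at this
  exact absurd this hy

theorem alg_of_sq {s : ℂ} {c : ℤ} (h : s ^ 2 = c) : IsAlgebraic ℚ s :=
  IsAlgebraic.of_pow two_pos (h ▸ isAlgebraic_intCast c)

theorem sq_cases (σ : G) {s : ℂ} {c : ℤ} (h : s ^ 2 = c) : σ s = s ∨ σ s = -s :=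
  sq_eq_sq_iff_eq_or_eq_neg.1 (by rw [← map_pow, h, map_intCast])

theorem om_sq (q : ℕ) : (2 * om q - 1) ^ 2 = ((-q : ℤ) : ℂ) := by
  have h : ((Real.sqrt q : ℝ) : ℂ) ^ 2 = q := by
    rw [← Complex.ofReal_pow, Real.sq_sqrt (Nat.cast_nonneg q), Complex.ofReal_natCast]
  rw [om]
  push_cast
  linear_combination ((Real.sqrt q : ℝ) : ℂ) ^ 2 * Complex.I_sq - h

theorem om_iff (σ : G) (q : ℕ) : σ (om q) = om q ↔ σ (2 * om q - 1) = 2 * om q - 1 := by
  rw [map_sub, map_mul, map_ofNat, map_one, sub_left_inj, mul_right_inj' two_ne_zero]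

theorem not_dvd {q v : ℕ} (hq : q.Prime) (hv : v.Prime) (h : v ≠ q) : ¬ (v : ℤ) ∣ -q := fun e =>
  h ((Nat.prime_dvd_prime_iff_eq hv hq).1 (Int.natCast_dvd_natCast.1 (dvd_neg.1 e)))

theorem c7 {q v : ℕ} {σ : G} (hq : q.Prime) (h4 : q % 4 = 3) (hv : v.Prime) (h : v ≠ q)
    (hO : Ov O v) (hσ : Frob O 1 σ) : σ (om q) = om q := by
  have h1 := om_sq q
  obtain ⟨m, hm⟩ : ∃ m : ℕ, q + 1 = 4 * m := ⟨(q + 1) / 4, by omega⟩
  have h2 : (q : ℂ) + 1 = 4 * m := by exact_mod_cast hm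
  have h3 : om q * (1 - om q) = m := by
    push_cast at h1
    linear_combination (-1 / 4 : ℂ) * h1 + (1 / 4 : ℂ) * h2
  have h5 : om q ∈ O := by
    by_contra b
    have h0 : om q ≠ 0 := fun e => b (e ▸ zero_mem _)
    have a1 := O.inv_mem_nonunits_iff.2 (Or.inr b)
    have a2 := sub_mem a1 (mul_nu (natCast_mem O m) (pow_nu two_ne_zero a1))
    have a3 : (om q)⁻¹ - m * (om q)⁻¹ ^ 2 = 1 := by
      rw [← h3]
      field_simp
      ring
    exact one_not (a3 ▸ a2)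
  have h6 : IsAlgebraic ℚ (om q) := by
    have : om q = ((2 * om q - 1) + 1) * (2 : ℂ)⁻¹ := by ring
    rw [this]
    exact ((alg_of_sq h1).add isAlgebraic_one).mul (isAlgebraic_natCast 2).inv
  refine c6 (y := 1 - om q) hσ h6 h5 ((sq_cases σ h1).imp (om_iff σ q).2 fun e => ?_) fun e => ?_
  · rw [map_sub, map_mul, map_ofNat, map_one] at e
    linear_combination (1 / 2 : ℂ) * e
  · refine int_not hv hO (not_dvd hq hv h) ?_
    have : om q - (1 - om q) = 2 * om q - 1 := by ring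
    rw [← h1, ← this]
    exact pow_nu two_ne_zero e

theorem c9 {l : ℕ} {φ : G} {s : ℂ} {c : ℤ} (hl : l.Prime) (h2 : l ≠ 2) (hc : ¬ (l : ℤ) ∣ c)
    (hO : Ov O l) (h : Frob O l φ) (e : s ^ 2 = c) : φ s = jacobiSym c l * s := by
  have : Fact l.Prime := ⟨hl⟩
  have a1 : s ∈ O := mem_of_pow two_ne_zero (e ▸ intCast_mem O c)
  have a2 : s ∉ O.nonunits := fun b => int_not hl hO hc (e ▸ pow_nu two_ne_zero b)
  have a3 : (c : ZMod l) ≠ 0 := fun b => hc ((ZMod.intCast_zmod_eq_zero_iff_dvd c l).1 b)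
  obtain ⟨k, hk⟩ : (l : ℤ) ∣ c ^ (l / 2) - legendreSym l c := by
    rw [← ZMod.intCast_zmod_eq_zero_iff_dvd]
    push_cast
    rw [legendreSym.eq_pow, sub_self]
  have a4 : (c : ℂ) ^ (l / 2) - (legendreSym l c : ℤ) = l * k := by exact_mod_cast hk
  have a5 : s ^ l = s * (c : ℂ) ^ (l / 2) := by
    rw [← e, ← pow_mul, ← pow_succ']
    congr 1
    have := hl.eq_two_or_odd.resolve_left h2
    omega
  have a6 : φ s - (legendreSym l c : ℤ) * s ∈ O.nonunits := by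
    have := add_mem (h s (alg_of_sq e) a1).2 (mul_nu (mul_mem a1 (intCast_mem O k)) hO)
    rwa [show φ s - s ^ l + s * k * l = φ s - (legendreSym l c : ℤ) * s by
      rw [a5]; linear_combination (-s) * a4] at this
  have a7 : s * 2 ∉ O.nonunits := fun b => int_not hl hO (c := 2)
    (fun d => h2 ((Nat.prime_dvd_prime_iff_eq hl Nat.prime_two).1 (by exact_mod_cast d)))
    (by exact_mod_cast nu_of_mul b a2)
  rw [← jacobiSym.legendreSym.to_jacobiSym]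
  rcases legendreSym.eq_one_or_neg_one l a3 with b | b <;> rcases sq_cases φ e with d | d <;>
    rw [b, d] at a6 ⊢
  · simp
  · exact absurd (by have := neg_mem a6; rwa [show -(-s - ((1 : ℤ) : ℂ) * s) = s * 2 by
      push_cast; ring] at this) a7
  · exact absurd (by rwa [show s - ((-1 : ℤ) : ℂ) * s = s * 2 by push_cast; ring] at a6) a7
  · simp

theorem c8 {q l : ℕ} {φ : G} (hq : q.Prime) (hl : l.Prime) (h2 : l ≠ 2) (h : l ≠ q) (hO : Ov O l)
    (hφ : Frob O l φ) : φ (om q) = om q ↔ Spl q l := by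
  have : Fact l.Prime := ⟨hl⟩
  have a1 := not_dvd hq hl h
  have a3 : ((-q : ℤ) : ZMod l) ≠ 0 := fun b => a1 ((ZMod.intCast_zmod_eq_zero_iff_dvd _ l).1 b)
  have a4 : 2 * om q - 1 ≠ 0 := fun b => by
    have := om_sq q
    rw [b, zero_pow two_ne_zero, eq_comm, Int.cast_eq_zero] at this
    exact a1 (this ▸ dvd_zero _)
  have a5 := legendreSym.eq_one_iff l a3
  rw [Int.cast_neg, Int.cast_natCast] at a5
  rw [om_iff, c9 hl h2 a1 hO hφ (om_sq q), ← jacobiSym.legendreSym.to_jacobiSym,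
    mul_eq_right₀ a4, Int.cast_eq_one, a5, Spl]

end V2

open V2 in
theorem v2_thm : V2Stmt :=
  ⟨fun _ _ _ _ _ h h' _ => c1 h h', fun _ _ _ _ h hQ hx => c2 h hQ hx,
    fun _ _ _ _ _ hv hO h h' => c3 hv hO h h', fun _ _ _ g h => c4 g h,
    fun _ _ g h => (comap_nu _).2 (by rw [map_natCast]; exact h),
    fun _ _ _ _ h hx m e hy => c6 h hx m e hy,
    fun _ _ _ _ hq h4 hv h hO hσ => c7 hq h4 hv h hO hσ,
    fun _ _ _ _ hq _ hl h2 h hO hφ => c8 hq hl h2 h hO hφ,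
    fun _ _ _ _ _ hl h2 hc hO h e => c9 hl h2 hc hO h e⟩

end Pool.Agent.Lib.MP_d6ddbd_nt.K11
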