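import Pool.Agent.Lib.MP_d6ddbd_nt.K11.Stmt
import Pool.Agent.Lib.MP_ca56d1_nt.Split

/-!
Numbers that are fixed by inertia.
-/

set_option autoImplicit false

open NumberField IsDedekindDomain Pointwise
open Pool.Agent.Stark
open scoped IntermediateField

noncomputable section

namespace Pool.Agent.Lib.MP_d6ddbd_nt.K11

namespace V3

theorem card (K : Type) {N : Type} [Field K] [NumberField K] [Field N] [NumberField N]
    [Algebra K N] [IsGalois K N] (P : Pr N) :
    Nat.card (P.asIdeal.inertia Gal(N/K)) = eI K P := by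
  have := SplitAux.lies (F := K) P
  have := P.isPrime
  have := (below K P).isMaximal
  have : Finite (𝓞 K ⧸ (below K P).asIdeal) :=
    Ideal.finiteQuotientOfFreeOfNeBot _ (below K P).ne_bot
  rw [Ideal.card_inertia_eq_ramificationIdxIn (below K P).asIdeal,
    Ideal.ramificationIdxIn_eq_ramificationIdx _ P.asIdeal Gal(N/K), eI]

/-- The statement at a finite level. -/
theorem fin {F N : Type} [Field F] [NumberField F] [Field N] [NumberField N] [Algebra F N]
    [IsGalois F N] (P : Pr N) (x : N) (h : ∀ τ ∈ P.asIdeal.inertia Gal(N/F), τ x = x) :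
    ∃ y : F, y ≠ 0 ∧ og P (algebraMap F N y) = og P x := by
  have e : eI F⟮x⟯ P = eI F P := by
    rw [← card, ← card]
    refine Nat.card_eq_of_bijective (fun τ => ⟨τ.1.restrictScalars F, τ.2⟩)
      ⟨fun a b e => Subtype.ext (AlgEquiv.restrictScalars_injective F (congrArg Subtype.val e)),
        fun τ => ⟨⟨AlgEquiv.ofRingEquiv (f := τ.1.toRingEquiv) fun y =>
          (IntermediateField.forall_mem_adjoin_smul_eq_self_iff F (S := {x}) τ.1).2
            (fun z hz => by rw [Set.mem_singleton_iff.1 hz]; exact h _ τ.2) _ y.2, τ.2⟩, rfl⟩⟩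
  obtain ⟨π, hπ⟩ := (below F P).valuation_exists_uniformizer F
  have h0 : π ≠ 0 := fun h => WithZero.exp_ne_zero (by rw [← hπ, h, map_zero])
  have h1 := og_algebraMap P (IntermediateField.AdjoinSimple.gen F x)
  rw [IntermediateField.AdjoinSimple.algebraMap_gen] at h1
  refine ⟨π ^ og (below F⟮x⟯ P) (IntermediateField.AdjoinSimple.gen F x), zpow_ne_zero _ h0, ?_⟩
  rw [og_algebraMap, h1, e, og, ord_zpow, ord, hπ]
  simp

/-- Inertia lifts. -/
theorem lift {F N Ω : Type} [Field F] [Field N] [Field Ω] [Algebra F N] [Algebra N Ω]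
    [Algebra F Ω] [IsScalarTower F N Ω] [IsGalois F Ω] (𝔓 : Ideal (𝓞 Ω)) [𝔓.IsPrime]
    (τ : Gal(N/F)) (h : τ ∈ (𝔓.under (𝓞 N)).inertia Gal(N/F)) :
    ∃ σ ∈ 𝔓.inertia Gal(Ω/F), ∀ y : N, σ (algebraMap N Ω y) = algebraMap N Ω (τ y) := by
  have : IsGalois N Ω := IsGalois.tower_top_of_isGalois F N Ω
  let _ : TopologicalSpace (𝓞 Ω) := ⊥
  have : DiscreteTopology (𝓞 Ω) := ⟨rfl⟩
  have : ContinuousSMul Gal(Ω/N) (𝓞 Ω) := continuousSMul_iff_stabilizer_isOpen.2 fun x => by
    convert stabilizer_isOpen_of_isIntegral (K := N) (x : Ω) using 2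
    ext g
    exact RingOfIntegers.ext_iff
  have hf : ∀ (g : Gal(Ω/N)) (a : 𝓞 N),
      g • algebraMap (𝓞 N) (𝓞 Ω) a = algebraMap (𝓞 N) (𝓞 Ω) a :=
    fun g a => RingOfIntegers.ext (g.commutes a)
  have : SMulCommClass Gal(Ω/N) (𝓞 N) (𝓞 Ω) := ⟨fun g a x => by
    rw [Algebra.smul_def, Algebra.smul_def, smul_mul', hf]⟩
  have : Algebra.IsInvariant (𝓞 N) (𝓞 Ω) Gal(Ω/N) := ⟨fun x hx => by
    obtain ⟨a, ha⟩ := (InfiniteGalois.mem_range_algebraMap_iff_fixed (k := N) (x : Ω)).2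
      fun g => congrArg RingOfIntegers.val (hx g)
    exact ⟨⟨a, (isIntegral_algebraMap_iff (algebraMap N Ω).injective).1
      (ha ▸ RingOfIntegers.isIntegral_coe x)⟩, RingOfIntegers.ext ha⟩⟩
  let t : Gal(Ω/F) := τ.liftNormal Ω
  have ht : ∀ a : 𝓞 N, t • algebraMap (𝓞 N) (𝓞 Ω) a = algebraMap (𝓞 N) (𝓞 Ω) (τ • a) :=
    fun a => RingOfIntegers.ext (τ.liftNormal_commutes Ω a)
  obtain ⟨g, hg⟩ := Algebra.IsInvariant.exists_smul_of_under_eq_of_profinite (A := 𝓞 N)
    (G := Gal(Ω/N)) 𝔓 (t⁻¹ • 𝔓) (Ideal.ext fun a => by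
      rw [Ideal.mem_under, Ideal.mem_under, Ideal.mem_inv_pointwise_smul_iff, ht,
        ← Ideal.mem_under, ← Ideal.mem_under]
      exact ⟨fun e => by simpa using add_mem (h a) e, fun e => by simpa using sub_mem e (h a)⟩)
  have hg' : (t * g.restrictScalars F) • 𝔓 = 𝔓 := by
    rw [mul_smul, show g.restrictScalars F • 𝔓 = g • 𝔓 from rfl, ← hg, smul_inv_smul]
  obtain ⟨k, hk⟩ := Ideal.Quotient.stabilizerHom_surjective_of_profinite (G := Gal(Ω/N))
    (𝔓.under (𝓞 N)) 𝔓 (AlgEquiv.ofRingEquiv (f := Ideal.quotientEquiv 𝔓 𝔓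
      (MulSemiringAction.toRingEquiv _ (𝓞 Ω) (t * g.restrictScalars F)) hg'.symm) fun y => by
        obtain ⟨y, rfl⟩ := Ideal.Quotient.mk_surjective y
        refine Ideal.Quotient.eq.2 ?_
        show t • g • algebraMap (𝓞 N) (𝓞 Ω) y - algebraMap (𝓞 N) (𝓞 Ω) y ∈ 𝔓
        rw [hf, ht, ← map_sub]
        exact h y)
  refine ⟨t * g.restrictScalars F * (k.1.restrictScalars F)⁻¹, fun z => ?_, fun y => ?_⟩
  · have : Ideal.Quotient.mk 𝔓 (k.1 • k.1⁻¹ • z) =
        Ideal.Quotient.mk 𝔓 ((t * g.restrictScalars F) • k.1⁻¹ • z) :=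
      AlgEquiv.congr_fun hk (Ideal.Quotient.mk 𝔓 (k.1⁻¹ • z))
    rw [smul_inv_smul] at this
    exact Ideal.Quotient.eq.1 this.symm
  · show t (g (k.1.symm (algebraMap N Ω y))) = _
    rw [k.1.symm.commutes, g.commutes]
    exact τ.liftNormal_commutes Ω y

theorem int_mem (O : ValuationSubring ℂ) {z : ℂ} (h : IsIntegral ℤ z) : z ∈ O := by
  obtain ⟨y, rfl⟩ := IsIntegrallyClosed.isIntegral_iff.1 (h.tower_top (A := O))
  exact y.2

/-- The prime of the integers of `K` that is defined by a place. -/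
def pr {K : Type} [Field K] (j : K →+* ℂ) (O : ValuationSubring ℂ) : Ideal (𝓞 K) :=
  (IsLocalRing.maximalIdeal O).comap ((j.comp (algebraMap (𝓞 K) K)).codRestrict O
    fun z => int_mem O (map_isIntegral_int j z.isIntegral_coe))

instance {K : Type} [Field K] (j : K →+* ℂ) (O : ValuationSubring ℂ) : (pr j O).IsPrime :=
  Ideal.comap_isPrime _ _

theorem mem_pr {K : Type} [Field K] {j : K →+* ℂ} {O : ValuationSubring ℂ} {z : 𝓞 K} :
    z ∈ pr j O ↔ j z ∈ O.nonunits :=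
  (ValuationSubring.coe_mem_nonunits_iff (A := O)).symm

theorem below_eq (hV1 : V1Stmt) {K : Type} [Field K] [NumberField K] {j : K →+* ℂ} {O} {P : Pr K}
    (h : Below j O P) : P.asIdeal = pr j O := Ideal.ext fun z => by
  rcases eq_or_ne z 0 with rfl | h0
  · simp
  · rw [mem_pr, hV1.2.2.2.1 K j O P h z (by simpa using h0), og_pos_iff P h0]

end V3

open V3 in
theorem v3_thm (hV1 : V1Stmt) : V3Stmt := by
  intro F _ _ e v O x hv hO hx hx0 h
  let _ := e.toAlgebra
  let Ω := algebraicClosure F ℂ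
  have alg : ∀ z : ℂ, IsAlgebraic ℚ z → z ∈ Ω := fun z hz =>
    mem_algebraicClosure_iff.2 (hz.tower_top F)
  have : IsGalois F Ω := {}
  have : Countable F := Countable.of_equiv _ (Module.finBasis ℚ F).equivFun.toEquiv.symm
  have : Countable Ω := Cardinal.mk_le_aleph0_iff.1
    ((Algebra.IsAlgebraic.cardinalMk_le_max F Ω).trans (max_le Cardinal.mk_le_aleph0 le_rfl))
  have fr : ∀ z : Ω, (z : ℂ) ∈ O → ∃ a b : 𝓞 Ω, z * b = a ∧ b ∉ pr Ω.val.toRingHom O :=
    fun z hz => by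
      have : FiniteDimensional F F⟮z⟯ :=
        IntermediateField.adjoin.finiteDimensional (Algebra.IsIntegral.isIntegral z)
      have : NumberField F⟮z⟯ := NumberField.of_module_finite F _
      obtain ⟨P, -, hP⟩ := hV1.2.2.1 F⟮z⟯ (Ω.val.toRingHom.comp F⟮z⟯.val.toRingHom) v O hv hO
      obtain ⟨n, d, hd⟩ := P.exists_primeCompl_mul_eq_of_integer
        (IntermediateField.AdjoinSimple.gen F z)
        (mem_pw.1 (mem_pw_iff.2 (or_iff_not_imp_left.2 fun h0 => (hP _ h0).1 hz)))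
      refine ⟨algebraMap _ _ n, algebraMap _ _ d.1, congrArg Subtype.val hd, fun h' => d.2 ?_⟩
      exact (below_eq hV1 hP).ge (mem_pr.2 (mem_pr.1 h' :))
  let N := FiniteGaloisIntermediateField.adjoin F {(⟨x, alg x hx⟩ : Ω)}
  have : NumberField N := NumberField.of_module_finite F _
  let j : N →+* ℂ := Ω.val.toRingHom.comp N.val.toRingHom
  obtain ⟨P, -, hP⟩ := hV1.2.2.1 N j v O hv hO
  let x' : N := ⟨⟨x, alg x hx⟩, FiniteGaloisIntermediateField.subset_adjoin F _ rfl⟩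
  obtain ⟨y, hy, e1⟩ := fin (F := F) P x' fun τ hτ => by
    obtain ⟨σ, hσ, e2⟩ := V3.lift (pr Ω.val.toRingHom O) τ (by
      rw [below_eq hV1 hP] at hτ
      exact fun a => mem_pr.2 (mem_pr.1 (hτ a) :))
    obtain ⟨s, hs⟩ := Pool.Agent.Lib.MP_9177b7_ag.CM.ext Ω Ω.val.toRingHom
      (Ω.val.toRingHom.comp σ.toRingEquiv.toRingHom) (RingHom.injective _) (RingHom.injective _)
    have hs : ∀ z : Ω, s z = σ z := hs
    refine j.injective (((congrArg Subtype.val (e2 x')).symm.trans (hs _).symm).trans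
      (h s (fun z hz hz' => ?_) fun y => (hs (algebraMap F Ω y)).trans
        (congrArg Subtype.val (σ.commutes y))))
    obtain ⟨a, b, hab, hb⟩ := fr ⟨z, alg z hz⟩ hz'
    have h1 : s (a : Ω) - (a : Ω) ∈ O.nonunits := by rw [hs]; exact mem_pr.1 (hσ a)
    have h2 : s (b : Ω) - (b : Ω) ∈ O.nonunits := by rw [hs]; exact mem_pr.1 (hσ b)
    have h3 : ((b : Ω) : ℂ) ∉ O.nonunits := fun h => hb (mem_pr.2 h)
    have h4 : z * (b : Ω) = (a : Ω) := congrArg Subtype.val hab
    rw [← h4, map_mul] at h1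
    generalize ((b : Ω) : ℂ) = β at *
    rw [ValuationSubring.mem_nonunits_iff] at h1 h2 h3
    have h5 : 1 ≤ O.valuation (s β) := not_lt.1 fun h => h3 (by
      simpa using O.valuation.map_sub_lt h h2)
    have h6 : O.valuation (s z - z) < 1 := by
      refine lt_of_le_of_lt (le_mul_of_one_le_right' h5) ?_
      rw [← map_mul, show (s z - z) * s β = (s z * s β - z * β) - z * (s β - β) by ring]
      refine O.valuation.map_sub_lt h1 ?_
      rw [map_mul]
      exact mul_lt_one_of_nonneg_of_lt_one_right ((O.valuation_le_one_iff z).2 hz') zero_le h2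
    rw [pow_one, ValuationSubring.mem_nonunits_iff]
    exact ⟨by simpa using O.add_mem _ _ ((O.valuation_le_one_iff _).1 h6.le) hz', h6⟩
  have h0 : x' ≠ 0 := fun e => hx0 (congrArg j e |>.trans (map_zero j))
  have h1 : algebraMap F N y ≠ 0 := by simpa using hy
  have h2 : og P (x' / algebraMap F N y) = 0 := by rw [og, ord_div h0 h1]; exact sub_eq_zero.2 e1.symm
  have h3 : j (x' / algebraMap F N y) = x / e y := map_div₀ j _ _
  refine ⟨y, hy, h3 ▸ (hP _ (div_ne_zero h0 h1)).2 h2.ge, fun h4 => ?_⟩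
  exact h2.not_gt ((hV1.2.2.2.1 N j O P hP _ (div_ne_zero h0 h1)).1 (h3 ▸ h4))

end Pool.Agent.Lib.MP_d6ddbd_nt.K11
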