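import Pool.Agent.Lib.MP_d6ddbd_nt.K11.A
import Pool.Agent.Lib.MP_d6ddbd_nt.K11.Asm
import Pool.Agent.Lib.MP_d6ddbd_nt.K11.AuxR
import Pool.Agent.Lib.MP_d6ddbd_nt.K11.Base
import Pool.Agent.Lib.MP_d6ddbd_nt.K11.CK
import Pool.Agent.Lib.MP_d6ddbd_nt.K11.Cheb
import Pool.Agent.Lib.MP_d6ddbd_nt.K11.Co
import Pool.Agent.Lib.MP_d6ddbd_nt.K11.Comm
import Pool.Agent.Lib.MP_d6ddbd_nt.K11.Eleven
import Pool.Agent.Lib.MP_d6ddbd_nt.K11.End1
import Pool.Agent.Lib.MP_d6ddbd_nt.K11.End2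
import Pool.Agent.Lib.MP_d6ddbd_nt.K11.Fib
import Pool.Agent.Lib.MP_d6ddbd_nt.K11.Fin
import Pool.Agent.Lib.MP_d6ddbd_nt.K11.G1
import Pool.Agent.Lib.MP_d6ddbd_nt.K11.G2
import Pool.Agent.Lib.MP_d6ddbd_nt.K11.Gal
import Pool.Agent.Lib.MP_d6ddbd_nt.K11.Good
import Pool.Agent.Lib.MP_d6ddbd_nt.K11.Hk
import Pool.Agent.Lib.MP_d6ddbd_nt.K11.K
import Pool.Agent.Lib.MP_d6ddbd_nt.K11.Ker
import Pool.Agent.Lib.MP_d6ddbd_nt.K11.Kum
import Pool.Agent.Lib.MP_d6ddbd_nt.K11.L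
import Pool.Agent.Lib.MP_d6ddbd_nt.K11.Link1
import Pool.Agent.Lib.MP_d6ddbd_nt.K11.Link2
import Pool.Agent.Lib.MP_d6ddbd_nt.K11.LocD
import Pool.Agent.Lib.MP_d6ddbd_nt.K11.Main
import Pool.Agent.Lib.MP_d6ddbd_nt.K11.Model
import Pool.Agent.Lib.MP_d6ddbd_nt.K11.No
import Pool.Agent.Lib.MP_d6ddbd_nt.K11.PAsm
import Pool.Agent.Lib.MP_d6ddbd_nt.K11.PF
import Pool.Agent.Lib.MP_d6ddbd_nt.K11.PLoc
import Pool.Agent.Lib.MP_d6ddbd_nt.K11.Pic
import Pool.Agent.Lib.MP_d6ddbd_nt.K11.Pr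
import Pool.Agent.Lib.MP_d6ddbd_nt.K11.R1
import Pool.Agent.Lib.MP_d6ddbd_nt.K11.R2
import Pool.Agent.Lib.MP_d6ddbd_nt.K11.Red
import Pool.Agent.Lib.MP_d6ddbd_nt.K11.Tor
import Pool.Agent.Lib.MP_d6ddbd_nt.K11.Two
import Pool.Agent.Lib.MP_d6ddbd_nt.K11.Uni
import Pool.Agent.Lib.MP_d6ddbd_nt.K11.Unif
import Pool.Agent.Lib.MP_d6ddbd_nt.K11.V1
import Pool.Agent.Lib.MP_d6ddbd_nt.K11.V2
import Pool.Agent.Lib.MP_d6ddbd_nt.K11.V3
import Pool.Agent.Lib.MP_d6ddbd_nt.K11.V4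

/-!
A two-converse theorem for the quadratic twists of `X₀(11)`: everything except the modular
parametrisation.
-/

set_option autoImplicit false

namespace Pool.Agent.Lib.MP_d6ddbd_nt.K11

theorem vAll : VStmt := ⟨v1_thm, v2_thm, v3_thm v1_thm, v4_thm v1_thm⟩

theorem rAll : RStmt := ⟨r1_thm, r2_thm v1_thm v2_thm r1_thm⟩

theorem uniAll : UniStmt := uni_thm unif_thm

theorem redAll : RedStmt := red_thm vAll uniAll model_thm

theorem end2All : End2Stmt := end2_thm end1_thm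

theorem g1All : G1Stmt := g1_thm vAll uniAll model_thm redAll tor_thm end1_thm end2All

theorem g2All : G2Stmt := g2_thm uniAll model_thm redAll end2All

theorem kerAll : KerStmt := ker_thm pic_thm

theorem galAll : GalStmt := gal_thm vAll pic_thm kerAll

theorem pAll : PStmt :=
  p_thm rAll pic_thm kerAll (co_thm kerAll) (fib_thm pic_thm kerAll) galAll
    (hk_thm vAll pic_thm kerAll galAll) (ploc_thm vAll g1All pic_thm kerAll)
    (base_thm vAll rAll g2All pic_thm galAll)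

theorem pfAll : PFStmt := pf_thm pr_thm

theorem locdAll : LocDStmt := locd_thm pr_thm pfAll

theorem lAll : LStmt :=
  l_thm pr_thm pfAll (two_thm pr_thm pfAll) (eleven_thm pr_thm pfAll) (good_thm pr_thm pfAll)
    locdAll

theorem kumAll : KumStmt := kum_thm vAll rAll pr_thm

theorem link1All : Link1Stmt := link1_thm vAll rAll pr_thm

theorem chebAll : ChebStmt := cheb_thm vAll rAll pr_thm link1All (comm_thm vAll rAll pr_thm)

theorem main_of_x (hX : XStmt) : MainStmt :=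
  main_thm hX (odd_thm pic_thm kerAll) pAll (k_thm vAll rAll) (aux_thm vAll rAll) lAll
    (ck_thm vAll rAll pr_thm kumAll link1All (link2_thm vAll rAll pr_thm) locdAll)
    (asm_thm a_thm lAll chebAll) (fin_thm vAll rAll kumAll link1All) chebAll (no_thm pr_thm)

end Pool.Agent.Lib.MP_d6ddbd_nt.K11
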