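import Pool.Agent.Lib.MP_d6ddbd_nt.K11.Stmt
import Pool.Agent.Lib.MP_ca56d1_nt.Loc

/-!
The choice of primes: auxiliary lemmas.
-/

set_option autoImplicit false

open NumberField IsDedekindDomain Pointwise
open Pool.Agent.Lib.MP_02f36d_nt (xc yc)
open Pool.Agent.Stark (Pr og hq LSq pw SqCl cl)

noncomputable section

namespace Pool.Agent.Lib.MP_d6ddbd_nt.K11

namespace Cheb

/-- Numbers on which any two automorphisms commute. -/
def Ab (x : ℂ) : Prop := ∀ σ τ : G, σ (τ x) = τ (σ x)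

theorem Ab.fix {x : ℂ} (hx : Ab x) {g : G} (hg : g ∈ commutator G) (ρ : G) : g (ρ x) = ρ x := by
  have key : ∀ σ τ ρ : G, σ (τ (ρ x)) = τ (σ (ρ x)) := fun σ τ ρ => by
    have h1 : σ (τ (ρ x)) = ρ (σ (τ x)) := hx (σ * τ) ρ
    have h2 : τ (σ (ρ x)) = ρ (τ (σ x)) := hx (τ * σ) ρ
    rw [h1, h2, hx σ τ]
  let K : Subgroup G :=
    { carrier := {g | ∀ ρ : G, g (ρ x) = ρ x}
      mul_mem' := fun {a b} ha hb ρ => by
        show a (b (ρ x)) = ρ x
        rw [hb ρ, ha ρ]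
      one_mem' := fun _ => rfl
      inv_mem' := fun {a} ha ρ => (RingEquiv.symm_apply_eq a).2 (ha ρ).symm }
  have hK : commutator G ≤ K := Subgroup.commutator_le.2 fun a _ b _ ρ => by
    have h1 : a (b ((a⁻¹ * b⁻¹ * ρ) x)) = b (a ((a⁻¹ * b⁻¹ * ρ) x)) := key a b _
    have h2 : b (a ((a⁻¹ * b⁻¹ * ρ) x)) = (b * a * (a⁻¹ * b⁻¹ * ρ)) x := rfl
    have h3 : b * a * (a⁻¹ * b⁻¹ * ρ) = ρ := by group
    rw [h2, h3] at h1
    exact h1
  exact hK hg ρ

theorem sq_cases {x : ℂ} {c : ℤ} (h : x ^ 2 = c) (σ : G) : σ x = x ∨ σ x = -x := by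
  refine sq_eq_sq_iff_eq_or_eq_neg.1 ?_
  rw [← map_pow, h, map_intCast]

theorem ab_sq {x : ℂ} {c : ℤ} (h : x ^ 2 = c) : Ab x := fun σ τ => by
  rcases sq_cases h σ with h1 | h1 <;> rcases sq_cases h τ with h2 | h2 <;>
    simp only [h1, h2, map_neg]

theorem alg_sq {x : ℂ} {c : ℤ} (h : x ^ 2 = c) : IsAlgebraic ℚ x :=
  IsAlgebraic.of_pow (n := 2) (by norm_num) (by rw [h]; exact isAlgebraic_intCast c)

theorem ab_root {ζ : ℂ} {n : ℕ} (hn : n ≠ 0) (h : IsPrimitiveRoot ζ n) : Ab ζ := fun σ τ => by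
  have : NeZero n := ⟨hn⟩
  have h1 : ∀ σ : G, ∃ i, ζ ^ i = σ ζ := fun σ => by
    obtain ⟨i, -, hi⟩ := h.eq_pow_of_pow_eq_one (ξ := σ ζ) (by rw [← map_pow, h.pow_eq_one, map_one])
    exact ⟨i, hi⟩
  obtain ⟨i, hi⟩ := h1 σ
  obtain ⟨j, hj⟩ := h1 τ
  rw [← hi, ← hj, map_pow, map_pow, ← hi, ← hj, ← pow_mul, ← pow_mul, mul_comm]

theorem om_eq (q : ℕ) (σ : G) : σ (om q) = (1 + σ (2 * om q - 1)) / 2 := by
  rw [map_sub, map_mul, map_one, map_ofNat]; ring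

theorem om_sqz (q : ℕ) : (2 * om q - 1) ^ 2 = ((-q : ℤ) : ℂ) := by
  rw [om_sq']; simp

theorem pow_even {σ : G} {x : ℂ} (h : σ (σ x) = x) {a : ℕ} (ha : Even a) : (σ ^ a) x = x := by
  obtain ⟨k, rfl⟩ := ha
  induction k with
  | zero => rfl
  | succ k ih =>
    have : k + 1 + (k + 1) = k + k + 1 + 1 := by ring
    rw [this, pow_succ, pow_succ]
    show (σ ^ (k + k)) (σ (σ x)) = x
    rw [h, ih]

theorem pow_odd {σ : G} {x : ℂ} (h : σ (σ x) = x) {a : ℕ} (ha : Odd a) : (σ ^ a) x = σ x := by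
  obtain ⟨k, rfl⟩ := ha
  rw [pow_succ']
  show σ ((σ ^ (2 * k)) x) = σ x
  rw [pow_even h (even_two_mul k)]

theorem pow_fix {σ : G} {x : ℂ} (h : σ x = x) (a : ℕ) : (σ ^ a) x = x := by
  induction a with
  | zero => rfl
  | succ k ih =>
    rw [pow_succ]
    show (σ ^ k) (σ x) = x
    rw [h, ih]

theorem tors (hR : R1Stmt) (n : ℕ) :
    {T : Pt | 2 ^ n • T = 0}.Finite ∧ ∀ T : Pt, 2 ^ n • T = 0 → AlgP T := by
  obtain ⟨⟨a0, -, -, -, ah, hh⟩, -, hpt, h2, ⟨e₁, e₂, e₃, hf, -⟩, -⟩ := hR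
  have hE : {T : Pt | 2 • T = 0}.Finite := by
    refine (Set.toFinite ({0, pt e₁ 0, pt e₂ 0, pt e₃ 0} : Set Pt)).subset fun T hT => ?_
    by_cases h0 : T = 0
    · simp [h0]
    obtain ⟨hy, hx⟩ := ((h2 T).1 hT).resolve_left h0
    have h3 : T = pt (xc T) 0 := by
      obtain ⟨b1, b2, b3⟩ := hpt (xc T) 0 (by rw [hx]; ring)
      exact act_ext (by simp [h0, b1]) b2.symm (hy.trans b3.symm)
    rw [hf, mul_eq_zero, mul_eq_zero, sub_eq_zero, sub_eq_zero, sub_eq_zero] at hx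
    rcases hx with (hx | hx) | hx <;> rw [hx] at h3 <;> simp [← h3]
  induction n with
  | zero =>
    refine ⟨(Set.finite_singleton (0 : Pt)).subset fun T hT => by simpa using hT, fun T hT => ?_⟩
    have : T = 0 := by simpa using hT
    rw [this]; exact a0
  | succ n ih =>
    have e : ∀ T : Pt, 2 ^ (n + 1) • T = 2 ^ n • (2 • T) := fun T => by rw [pow_succ, mul_smul]
    refine ⟨?_, fun T hT => ah T (ih.2 _ ((e T).symm.trans hT))⟩
    choose h hh using hh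
    refine ((ih.1.prod hE).image fun x => h x.1 + x.2).subset fun T hT => ?_
    refine ⟨(2 • T, T - h (2 • T)), ⟨(e T).symm.trans hT, ?_⟩, by simp⟩
    show 2 • (T - h (2 • T)) = 0
    rw [nsmul_sub, hh, sub_self]

theorem res0 (O : ValuationSubring ℂ) (a : O) :
    (a : ℂ) ∈ O.nonunits ↔ IsLocalRing.residue O a = 0 := by
  rw [ValuationSubring.coe_mem_nonunits_iff, IsLocalRing.residue_eq_zero_iff]

theorem charP {O : ValuationSubring ℂ} {p : ℕ} (hp : p.Prime) (h : Ov O p) :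
    CharP (IsLocalRing.ResidueField O) p := by
  have : Fact p.Prime := ⟨hp⟩
  refine (CharP.charP_iff_prime_eq_zero hp).2 ?_
  have := (res0 O (p : O)).1 h
  simpa using this

theorem root_mem (O : ValuationSubring ℂ) {ζ : ℂ} {n : ℕ} (hn : n ≠ 0) (h : ζ ^ n = 1) : ζ ∈ O := by
  have h1 : O.valuation ζ ^ n = 1 := by rw [← map_pow, h, map_one]
  exact (O.valuation_le_one_iff ζ).1 ((pow_le_one_iff_of_nonneg zero_le hn).1 h1.le)

theorem dvd_of_frob {O : ValuationSubring ℂ} {p k : ℕ} {φ : G} {ζ : ℂ} (hp : p.Prime) (h2 : p ≠ 2)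
    (hO : Ov O p) (hφ : Frob O p φ) (hζ : IsPrimitiveRoot ζ (2 ^ k)) (h : φ ζ * ζ = 1) :
    2 ^ k ∣ p + 1 := by
  have hn : 2 ^ k ≠ 0 := by positivity
  have := charP hp hO
  have hz := root_mem O hn hζ.pow_eq_one
  have ha : IsAlgebraic ℚ ζ := IsAlgebraic.of_pow (n := 2 ^ k) (by positivity)
    (by rw [hζ.pow_eq_one]; exact isAlgebraic_one)
  obtain ⟨h1, h3⟩ := hφ ζ ha hz
  let z : O := ⟨ζ, hz⟩
  let y : O := ⟨φ ζ, h1⟩
  have h4 : IsLocalRing.residue O (y - z ^ p) = 0 := (res0 O _).1 h3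
  have h5 : y * z = 1 := Subtype.ext h
  have h6 : IsLocalRing.residue O (z ^ (p + 1)) = 1 := by
    rw [map_sub, sub_eq_zero] at h4
    rw [pow_succ, map_mul, ← h4, ← map_mul, h5, map_one]
  by_contra hd
  have h7 : z ^ (p + 1) - 1 ≠ 0 := fun h => hd ((hζ.pow_eq_one_iff_dvd _).1
    (congrArg Subtype.val (sub_eq_zero.1 h)))
  have h8 : (z ^ (p + 1)) ^ 2 ^ k = 1 := by
    rw [← pow_mul, mul_comm, pow_mul]
    have : z ^ 2 ^ k = 1 := Subtype.ext hζ.pow_eq_one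
    rw [this, one_pow]
  have h9 := geom_sum_mul (z ^ (p + 1)) (2 ^ k)
  rw [h8, sub_self, mul_eq_zero] at h9
  have h10 := congrArg (IsLocalRing.residue O) (h9.resolve_right h7)
  simp only [map_sum, map_pow (IsLocalRing.residue O) (z ^ (p + 1)), h6, one_pow, Finset.sum_const,
    Finset.card_range, nsmul_eq_mul, mul_one, map_zero] at h10
  have h11 := (CharP.cast_eq_zero_iff _ p _).1 h10
  exact h2 ((Nat.prime_dvd_prime_iff_eq hp Nat.prime_two).1 (hp.dvd_of_dvd_pow h11))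

theorem exists_int {O : ValuationSubring ℂ} {p : ℕ} {φ : G} {t : ℂ} (hp : p.Prime)
    (hO : Ov O p) (hφ : Frob O p φ) (ha : IsAlgebraic ℚ t) (ht : t ∈ O) (h : φ t = t) :
    ∃ n : ℤ, (n : ℂ) - t ∈ O.nonunits := by
  have : Fact p.Prime := ⟨hp⟩
  have := charP hp hO
  obtain ⟨-, h3⟩ := hφ t ha ht
  rw [h] at h3
  let z : O := ⟨t, ht⟩
  have h4 : IsLocalRing.residue O (z - z ^ p) = 0 := (res0 O _).1 h3
  rw [map_sub, sub_eq_zero, map_pow] at h4
  obtain ⟨n, hn⟩ := (mem_bot_iff_intCast p _).1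
    ((Subfield.mem_bot_iff_pow_eq_self _ p).2 h4.symm)
  refine ⟨n, (res0 O ((n : O) - z)).2 ?_⟩
  rw [map_sub, map_intCast, hn, sub_self]

theorem spl_of {q l : ℕ} (hq : q % 4 = 3) (hl : l.Prime) (h2 : l ≠ 2) (h : jacobiSym l q = 1) :
    Spl q l := by
  have : Fact l.Prime := ⟨hl⟩
  have ho : Odd l := hl.odd_of_ne_two h2
  have hq' : Odd q := Nat.odd_iff.2 (by omega)
  have h1 : jacobiSym (-(q : ℤ)) l = 1 := by
    rw [jacobiSym.neg _ ho]
    rcases Nat.odd_mod_four_iff.1 (Nat.odd_iff.1 ho) with h4 | h4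
    · rw [ZMod.χ₄_nat_one_mod_four h4, ← jacobiSym.quadratic_reciprocity_one_mod_four h4 hq', h,
        one_mul]
    · rw [jacobiSym.quadratic_reciprocity_three_mod_four h4 hq] at h
      rw [ZMod.χ₄_nat_three_mod_four h4]
      linear_combination h
  have := ZMod.isSquare_of_jacobiSym_eq_one h1
  simpa [Spl] using this

open Classical in
theorem hq_unr {L : Type} [Field L] [NumberField L] (𝔭 : Pr L) (h2 : og 𝔭 (2 : L) = 0) {α y : L}
    (hα : α ≠ 0) (he : Even (og 𝔭 α)) (hy : og 𝔭 y = 1) :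
    hq 𝔭 α y = if LSq 𝔭 α then 0 else 1 := by
  have hL := Pool.Agent.Stark.isLoc_wv 𝔭
  have hy0 : y ≠ 0 := by rintro rfl; simp [og] at hy
  have h3 : Pool.Agent.Stark.emb 𝔭 α ≠ 0 := (map_ne_zero _).2 hα
  rw [hq, hL.hs_of_unr h3 (hL.unr_of_odd (by rw [← h2, ← Pool.Agent.Stark.ord_emb, map_ofNat]) h3
    (by rwa [Pool.Agent.Stark.ord_emb])) ((map_ne_zero _).2 hy0), Pool.Agent.Stark.ord_emb, hy]
  unfold LSq
  split_ifs <;> simp

end Cheb

end Pool.Agent.Lib.MP_d6ddbd_nt.K11
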