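import Mathlib

/-! Congruences for integer binomial coefficients. -/

set_option autoImplicit false

namespace Pool.Agent.Lib.MP_d6ddbd_nt.K11.KK

open Finset

theorem fact_mul_choose (u : ℤ) (b : ℕ) :
    (b.factorial : ℤ) * Ring.choose u b = (descPochhammer ℤ b).eval u := by
  have h := Ring.descPochhammer_eq_factorial_smul_choose u b
  rw [nsmul_eq_mul] at h
  rw [← h, Polynomial.eval_eq_smeval]

theorem fact_two (b : ℕ) : ∃ i o : ℕ, i ≤ b ∧ Odd o ∧ b.factorial = 2 ^ i * o := by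
  obtain ⟨i, o, ho, h⟩ := Nat.exists_eq_two_pow_mul_odd (Nat.factorial_ne_zero b)
  refine ⟨i, o, ?_, ho, h⟩
  rcases Nat.eq_zero_or_pos b with rfl | hb
  · have : 2 ^ i ∣ 1 := ⟨o, by simpa using h⟩
    have h2 := Nat.le_of_dvd one_pos this
    by_contra hi
    have : 2 ^ 1 ≤ 2 ^ i := Nat.pow_le_pow_right (by norm_num) (by omega)
    omega
  · have h1 := Nat.emultiplicity_two_factorial_lt hb.ne'
    have h2 : (i : ℕ∞) ≤ emultiplicity 2 b.factorial :=
      le_emultiplicity_of_pow_dvd ⟨o, h⟩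
    have := lt_of_le_of_lt h2 h1
    exact_mod_cast this.le

theorem choose_dvd {u v : ℤ} {b N k : ℕ} (h : (2 : ℤ) ^ k ∣ u - v) (hk : N + b ≤ k) :
    (2 : ℤ) ^ N ∣ Ring.choose u b - Ring.choose v b := by
  obtain ⟨i, o, hi, ho, hf⟩ := fact_two b
  have h1 : u - v ∣ (b.factorial : ℤ) * (Ring.choose u b - Ring.choose v b) := by
    rw [mul_sub, fact_mul_choose, fact_mul_choose]
    exact Polynomial.sub_dvd_eval_sub u v _
  have h2 : (2 : ℤ) ^ (i + N) ∣ (b.factorial : ℤ) * (Ring.choose u b - Ring.choose v b) :=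
    ((pow_dvd_pow 2 (by omega)).trans h).trans h1
  rw [hf, pow_add] at h2
  push_cast at h2
  rw [mul_assoc, mul_dvd_mul_iff_left (by positivity)] at h2
  have hc : IsCoprime ((2 : ℤ) ^ N) (o : ℤ) := by
    apply IsCoprime.pow_left
    obtain ⟨c, rfl⟩ := ho
    exact ⟨-c, 1, by push_cast; ring⟩
  exact hc.dvd_of_dvd_mul_left h2

theorem choose_add (x J : ℤ) (b : ℕ) :
    Ring.choose (x + J) b = ∑ i ∈ range (b + 1), Ring.choose J i * Ring.choose x (b - i) := by
  rw [add_comm x J, Ring.add_choose_eq b (Commute.all _ _),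
    Finset.Nat.sum_antidiagonal_eq_sum_range_succ_mk]

/-- The shift of a binomial test function. -/
theorem choose_shift {u x J : ℤ} {b N k : ℕ} (h : (2 : ℤ) ^ k ∣ u - (x + J)) (hk : N + b ≤ k) :
    (2 : ℤ) ^ N ∣ Ring.choose u b -
      ∑ i ∈ range (b + 1), Ring.choose J i * Ring.choose x (b - i) := by
  rw [← choose_add]; exact choose_dvd h hk

/-- The reflection of a binomial test function. -/
theorem choose_refl {u x c : ℤ} {b N k : ℕ} (h : (2 : ℤ) ^ k ∣ u - (c - x)) (hk : N + b ≤ k) :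
    (2 : ℤ) ^ N ∣ Ring.choose u b - (-1) ^ b *
      ∑ i ∈ range (b + 1), Ring.choose ((b : ℤ) - 1 - c) i * Ring.choose x (b - i) := by
  rw [← choose_add]
  have h1 : Ring.choose (c - x) b = (-1) ^ b * Ring.choose (x + ((b : ℤ) - 1 - c)) b := by
    have := Ring.choose_neg (x - c) b
    rw [neg_sub] at this
    rw [this, Units.smul_def, smul_eq_mul, Int.coe_negOnePow_natCast]
    congr 2; ring
  rw [← h1]; exact choose_dvd h hk

theorem choose_two (J : ℤ) : 2 * Ring.choose J 2 = J * (J - 1) := by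
  have := fact_mul_choose J 2
  simp [descPochhammer_succ_right] at this
  simpa using this

theorem choose_two_odd {J : ℤ} (h : ∃ u, Odd u ∧ J = 2 * u) : Odd (Ring.choose J 2) := by
  obtain ⟨u, hu, rfl⟩ := h
  have := choose_two (2 * u)
  have h2 : Ring.choose (2 * u) 2 = u * (2 * u - 1) := by linarith
  rw [h2]
  exact hu.mul ⟨u - 1, by ring⟩

end Pool.Agent.Lib.MP_d6ddbd_nt.K11.KK
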