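import Mathlib
import Pool.Agent.Lib.MP_d6ddbd_nt.K11.KBin

/-! Abstract Heegner systems on test functions: the shift lemma. -/

set_option autoImplicit false

namespace Pool.Agent.Lib.MP_d6ddbd_nt.K11.KK

open Finset

/-- Coordinates: one at the auxiliary prime and one at every Kolyvagin prime. -/
abbrev Co (P : Type*) (k m : ℕ) := ZMod (2 ^ k) × (P → ZMod (2 ^ m))

section

variable {G E P : Type*} [Group G] [AddCommGroup E] [DistribMulAction G E] [DecidableEq P]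
  {k m : ℕ}

/-- The test function depends only on the coordinates in `n`. -/
def Dep (n : Finset P) (f : Co P k m → ℤ) : Prop :=
  ∀ x y : Co P k m, x.1 = y.1 → (∀ p ∈ n, x.2 p = y.2 p) → f x = f y

/-- `g` acts as the sign `e` and the translation by `c`. -/
def Sh (Y : Finset P → (Co P k m → ℤ) →+ E) (g : G) (e : ℤ) (c : Co P k m) : Prop :=
  ∀ n f, Dep n f → g • Y n f = e • Y n (fun x => f (x + c))

/-- `g` acts as the sign `e` and the reflection through `c`. -/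
def Rf (Y : Finset P → (Co P k m → ℤ) →+ E) (g : G) (e : ℤ) (c : Co P k m) : Prop :=
  ∀ n f, Dep n f → g • Y n f = e • Y n (fun x => f (c - x))

end

/-- The global part of a Heegner system. -/
structure Sys (G E P : Type*) [Group G] [AddCommGroup E] [DistribMulAction G E] [DecidableEq P]
    (k m : ℕ) where
  A : AddSubgroup E
  stab : ∀ (g : G) x, x ∈ A → g • x ∈ A
  tf : ∀ x ∈ A, (2 : ℤ) • x = 0 → x = 0
  Y : Finset P → (Co P k m → ℤ) →+ E
  mem : ∀ n f, Y n f ∈ A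
  a : P → ℤ
  norm : ∀ n p, p ∉ n → ∀ f, Dep n f → Y (insert p n) f = a p • Y n f
  a4 : ∀ p, (4 : ℤ) ∣ a p
  act : ∀ g : G, ∃ e c, (e = 1 ∨ e = -1) ∧ (Sh Y g e c ∨ Rf Y g e c)

variable {G E P : Type*} [Group G] [AddCommGroup E] [DistribMulAction G E] [DecidableEq P]
  {k m : ℕ}

/-- Binomial test function. -/
def ph (b : ℕ) (x : ZMod (2 ^ k)) : ℤ := Ring.choose (x.val : ℤ) b

/-- Derivative test function. -/
def ps (n : Finset P) (y : P → ZMod (2 ^ m)) : ℤ := ∏ p ∈ n, ((y p).val : ℤ)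

/-- The product test function. -/
def tf2 (u : ZMod (2 ^ k) → ℤ) (n : Finset P) (x : Co P k m) : ℤ := u x.1 * ps n x.2

omit [DecidableEq P] in
theorem dep_tf2 (u : ZMod (2 ^ k) → ℤ) (n : Finset P) : Dep n (tf2 (m := m) u n) := by
  intro x y h1 h2
  simp only [tf2, ps, h1]
  congr 1
  exact Finset.prod_congr rfl fun p hp => by rw [h2 p hp]

omit [DecidableEq P] in
theorem Dep.mono {n n' : Finset P} {f : Co P k m → ℤ} (h : Dep n f) (hn : n ⊆ n') : Dep n' f :=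
  fun x y h1 h2 => h x y h1 fun p hp => h2 p (hn hp)

theorem val_add_dvd {N : ℕ} [NeZero N] (x c : ZMod N) (J : ℤ) (h : (J : ZMod N) = c) :
    (N : ℤ) ∣ ((x + c).val : ℤ) - (x.val + J) := by
  rw [← ZMod.intCast_zmod_eq_zero_iff_dvd]
  push_cast
  simp [h]

theorem val_sub_dvd {N : ℕ} [NeZero N] (x c : ZMod N) :
    (N : ℤ) ∣ ((c - x).val : ℤ) - (c.val - x.val) := by
  rw [← ZMod.intCast_zmod_eq_zero_iff_dvd]
  push_cast
  simp

namespace Sys

variable (H : Sys G E P k m)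

/-- The subgroup `2 ^ s A`. -/
def D (s : ℕ) : AddSubgroup E where
  carrier := {x | ∃ u ∈ H.A, x = (2 : ℤ) ^ s • u}
  zero_mem' := ⟨0, H.A.zero_mem, by simp⟩
  add_mem' := by
    rintro _ _ ⟨u, hu, rfl⟩ ⟨v, hv, rfl⟩
    exact ⟨u + v, H.A.add_mem hu hv, by rw [smul_add]⟩
  neg_mem' := by
    rintro _ ⟨u, hu, rfl⟩
    exact ⟨-u, H.A.neg_mem hu, by rw [smul_neg]⟩

theorem mem_D {s : ℕ} {x : E} : x ∈ H.D s ↔ ∃ u ∈ H.A, x = (2 : ℤ) ^ s • u := Iff.rfl

theorem D_anti {s s' : ℕ} (h : s ≤ s') {x : E} (hx : x ∈ H.D s') : x ∈ H.D s := by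
  obtain ⟨u, hu, rfl⟩ := hx
  obtain ⟨i, rfl⟩ := Nat.exists_eq_add_of_le h
  exact ⟨(2 : ℤ) ^ i • u, H.A.zsmul_mem hu _, by rw [pow_add, mul_smul]⟩

theorem D_zero {x : E} (hx : x ∈ H.A) : x ∈ H.D 0 := ⟨x, hx, by simp⟩

theorem D_le {s : ℕ} {x : E} (hx : x ∈ H.D s) : x ∈ H.A := by
  obtain ⟨u, hu, rfl⟩ := hx
  exact H.A.zsmul_mem hu _

theorem D_smul {s i : ℕ} {c : ℤ} (hc : (2 : ℤ) ^ i ∣ c) {x : E} (hx : x ∈ H.D s) :
    c • x ∈ H.D (s + i) := by
  obtain ⟨u, hu, rfl⟩ := hx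
  obtain ⟨c, rfl⟩ := hc
  refine ⟨c • u, H.A.zsmul_mem hu _, ?_⟩
  rw [smul_smul, smul_smul]; congr 1; ring

theorem tf_pow (s : ℕ) {x : E} (hx : x ∈ H.A) (h : (2 : ℤ) ^ s • x = 0) : x = 0 := by
  induction s with
  | zero => simpa using h
  | succ s ih =>
    apply ih
    apply H.tf _ (H.A.zsmul_mem hx _)
    rw [smul_smul, ← pow_succ', h]

theorem cancel (s : ℕ) {x y : E} (hx : x ∈ H.A) (hy : y ∈ H.A)
    (h : (2 : ℤ) ^ s • x = (2 : ℤ) ^ s • y) : x = y := by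
  rw [← sub_eq_zero]
  apply H.tf_pow s (H.A.sub_mem hx hy)
  rw [smul_sub, h, sub_self]

theorem D_cancel {s i : ℕ} {x : E} (hx : x ∈ H.A) (h : (2 : ℤ) ^ s • x ∈ H.D (s + i)) :
    x ∈ H.D i := by
  obtain ⟨u, hu, h⟩ := h
  refine ⟨u, hu, H.cancel s hx (H.A.zsmul_mem hu _) ?_⟩
  rw [h, pow_add, mul_smul]

theorem Y_mem_D {N : ℕ} (n : Finset P) {f : Co P k m → ℤ} (h : ∀ x, (2 : ℤ) ^ N ∣ f x) :
    H.Y n f ∈ H.D N := by
  choose u hu using h
  refine ⟨H.Y n u, H.mem n u, ?_⟩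
  rw [← map_zsmul]
  congr 1
  funext x
  simp [hu x]

theorem Y_congr {N : ℕ} (n : Finset P) {f f' : Co P k m → ℤ}
    (h : ∀ x, (2 : ℤ) ^ N ∣ f x - f' x) : H.Y n f - H.Y n f' ∈ H.D N := by
  rw [← map_sub]; exact H.Y_mem_D n h

theorem norm_iter (t : Finset P) {f : Co P k m → ℤ} (hf : Dep t f) (u : Finset P)
    (hu : Disjoint u t) : H.Y (u ∪ t) f = (∏ p ∈ u, H.a p) • H.Y t f := by
  induction u using Finset.induction_on with
  | empty => simp
  | insert p u hp ih =>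
    rw [Finset.disjoint_insert_left] at hu
    rw [Finset.insert_union, H.norm _ p (by simp [hp, hu.1]) f (hf.mono subset_union_right),
      ih hu.2, Finset.prod_insert hp, mul_smul]

/-- Shifting the coordinates at the Kolyvagin primes. -/
theorem shiftP (u : ZMod (2 ^ k) → ℤ) {s : ℕ} (hu : ∀ t, H.Y t (tf2 u t) ∈ H.D s)
    (n : Finset P) (j : P → ℤ) :
    H.Y n (fun x => u x.1 * ∏ p ∈ n, (((x.2 p).val : ℤ) + j p)) - H.Y n (tf2 u n) ∈
      H.D (s + 2) := by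
  have h1 : (fun x : Co P k m => u x.1 * ∏ p ∈ n, (((x.2 p).val : ℤ) + j p)) =
      ∑ t ∈ n.powerset, (∏ p ∈ n \ t, j p) • tf2 u t := by
    funext x
    rw [Finset.prod_add, Finset.mul_sum, Finset.sum_apply]
    refine Finset.sum_congr rfl fun t _ => ?_
    simp only [Pi.smul_apply, smul_eq_mul, tf2, ps]; ring
  rw [h1, map_sum, ← Finset.add_sum_erase _ _ (Finset.mem_powerset_self n)]
  simp only [sdiff_self, Finset.bot_eq_empty, Finset.prod_empty, one_smul, add_sub_cancel_left]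
  refine AddSubgroup.sum_mem _ fun t ht => ?_
  rw [Finset.mem_erase, Finset.mem_powerset] at ht
  rw [map_zsmul]
  apply AddSubgroup.zsmul_mem
  have h2 := H.norm_iter t (dep_tf2 u t) (n \ t) sdiff_disjoint
  rw [Finset.sdiff_union_of_subset ht.2] at h2
  rw [h2]
  apply H.D_smul _ (hu t)
  obtain ⟨p, hp⟩ : (n \ t).Nonempty := by
    rw [Finset.sdiff_nonempty]
    exact fun h => ht.1 (Finset.Subset.antisymm ht.2 h)
  exact (by simpa using H.a4 p : (2 : ℤ) ^ 2 ∣ H.a p).trans (Finset.dvd_prod_of_mem _ hp)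

/-- The points `Q(n, b)`. -/
def Q (n : Finset P) (b : ℕ) : E := H.Y n (tf2 (ph b) n)

theorem Q_mem (n : Finset P) (b : ℕ) : H.Q n b ∈ H.A := H.mem _ _

/-- A triangular combination of the points `Q(n, b - i)`. -/
def QS (n : Finset P) (b : ℕ) (J : ℤ) : E :=
  ∑ i ∈ range (b + 1), Ring.choose J i • H.Q n (b - i)

theorem QS_eq (n : Finset P) (b : ℕ) (J : ℤ) :
    H.QS n b J = H.Y n (tf2 (fun z => ∑ i ∈ range (b + 1), Ring.choose J i * ph (b - i) z) n) := by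
  unfold QS Q
  simp_rw [← map_zsmul]
  rw [← map_sum]
  congr 1
  funext x
  simp only [Finset.sum_apply, Pi.smul_apply, smul_eq_mul, tf2, Finset.sum_mul, mul_assoc]

theorem core_shift {s b : ℕ} (hs : ∀ t i, i ≤ b → H.Q t i ∈ H.D s)
    (n : Finset P) (J e : ℤ) (j : P → ℤ) (f : Co P k m → ℤ)
    (hf : ∀ x, (2 : ℤ) ^ (s + 2) ∣ f x - e *
      ((∑ i ∈ range (b + 1), Ring.choose J i * ph (b - i) x.1) *
        ∏ p ∈ n, (((x.2 p).val : ℤ) + j p))) :
    H.Y n f - e • H.QS n b J ∈ H.D (s + 2) := by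
  obtain ⟨u, hu⟩ : ∃ u : ZMod (2 ^ k) → ℤ,
      u = fun z => ∑ i ∈ range (b + 1), Ring.choose J i * ph (b - i) z := ⟨_, rfl⟩
  have h0 : ∀ t, H.QS t b J = H.Y t (tf2 u t) := fun t => by rw [hu, H.QS_eq]
  have h1 : ∀ t, H.Y t (tf2 u t) ∈ H.D s := by
    intro t
    rw [← h0]
    exact AddSubgroup.sum_mem _ fun i _ => AddSubgroup.zsmul_mem _ (hs t _ (Nat.sub_le _ _)) _
  have h2 := (H.D (s + 2)).zsmul_mem (H.shiftP u h1 n j) e
  have h3 := H.Y_congr (N := s + 2) n (f := f)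
    (f' := e • fun x => u x.1 * ∏ p ∈ n, (((x.2 p).val : ℤ) + j p)) (by
      intro x
      rw [Pi.smul_apply, smul_eq_mul, hu]
      exact hf x)
  rw [map_zsmul] at h3
  rw [h0]
  have h4 := (H.D (s + 2)).add_mem h3 h2
  rw [smul_sub, sub_add_sub_cancel] at h4
  exact h4

omit [DecidableEq P] in
theorem prod_dvd {N : ℤ} (n : Finset P) {u v : P → ℤ} (h : ∀ p, N ∣ u p - v p) :
    N ∣ ∏ p ∈ n, u p - ∏ p ∈ n, v p := by
  have : ∏ p ∈ n, v p ≡ ∏ p ∈ n, u p [ZMOD N] :=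
    Int.ModEq.prod fun p _ => (Int.modEq_iff_dvd.2 (h p))
  exact Int.modEq_iff_dvd.1 this

theorem mul_dvd {N a b c d : ℤ} (h1 : N ∣ a - c) (h2 : N ∣ b - d) : N ∣ a * b - c * d := by
  have : a * b - c * d = (a - c) * b + c * (b - d) := by ring
  rw [this]
  exact dvd_add (h1.mul_right _) (h2.mul_left _)

/-- The shift lemma for a translation. -/
theorem sh_Q {g : G} {e : ℤ} {c : Co P k m} (h : Sh H.Y g e c) {J : ℤ}
    (hJ : (J : ZMod (2 ^ k)) = c.1) {s b : ℕ} (hs : ∀ t i, i ≤ b → H.Q t i ∈ H.D s)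
    (hk : s + 2 + b ≤ k) (hm : s + 2 ≤ m) (n : Finset P) :
    g • H.Q n b - e • H.QS n b J ∈ H.D (s + 2) := by
  have h1 := H.core_shift hs n J 1 (fun p => ((c.2 p).val : ℤ))
    (fun x => tf2 (ph b) n (x + c)) (by
      intro x
      rw [one_mul]
      apply mul_dvd
      · apply choose_shift (k := k) _ hk
        simpa using val_add_dvd x.1 c.1 J hJ
      · apply prod_dvd
        intro p
        refine (pow_dvd_pow 2 hm).trans ?_
        simpa using val_add_dvd (x.2 p) (c.2 p) ((c.2 p).val : ℤ) (by simp))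
  rw [Q, h n _ (dep_tf2 _ _), ← smul_sub]
  rw [one_smul] at h1
  exact AddSubgroup.zsmul_mem _ h1 _

/-- The shift lemma for a reflection. -/
theorem rf_Q {g : G} {e : ℤ} {c : Co P k m} (h : Rf H.Y g e c)
    {s b : ℕ} (hs : ∀ t i, i ≤ b → H.Q t i ∈ H.D s)
    (hk : s + 2 + b ≤ k) (hm : s + 2 ≤ m) (n : Finset P) :
    g • H.Q n b - (e * (-1) ^ (b + n.card)) • H.QS n b ((b : ℤ) - 1 - c.1.val) ∈ H.D (s + 2) := by
  have h1 := H.core_shift hs n ((b : ℤ) - 1 - c.1.val) ((-1) ^ (b + n.card))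
    (fun p => -((c.2 p).val : ℤ)) (fun x => tf2 (ph b) n (c - x)) (by
      intro x
      have e1 : ∀ u v : ℤ, (-1 : ℤ) ^ (b + n.card) * (u * v) =
          ((-1) ^ b * u) * ((-1) ^ n.card * v) := fun u v => by rw [pow_add]; ring
      rw [e1]
      apply mul_dvd
      · apply choose_refl (k := k) _ hk
        simpa using val_sub_dvd x.1 c.1
      · rw [← Finset.prod_const, ← Finset.prod_mul_distrib]
        apply prod_dvd
        intro p
        refine (pow_dvd_pow 2 hm).trans ?_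
        have := val_sub_dvd (x.2 p) (c.2 p)
        push_cast at this
        have e2 : -1 * (((x.2 p).val : ℤ) + -((c.2 p).val : ℤ)) =
          ((c.2 p).val : ℤ) - ((x.2 p).val : ℤ) := by ring
        rw [e2]
        exact this)
  rw [Q, h n _ (dep_tf2 _ _), mul_smul, ← smul_sub]
  exact AddSubgroup.zsmul_mem _ h1 _

end Sys

end Pool.Agent.Lib.MP_d6ddbd_nt.K11.KK
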