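import Mathlib
import Pool.Agent.Lib.MP_d6ddbd_nt.K11.KSys

/-! The cocycles attached to the leading forms. -/

set_option autoImplicit false

namespace Pool.Agent.Lib.MP_d6ddbd_nt.K11.KK

open Finset

variable {G E P : Type*} [Group G] [AddCommGroup E] [DistribMulAction G E] [DecidableEq P]
  {k m : ℕ}

theorem gz (g : G) (c : ℤ) (x : E) : g • (c • x) = c • (g • x) :=
  map_zsmul (DistribSMul.toAddMonoidHom E g) c x

namespace Sys

variable (H : Sys G E P k m)

open Classical in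
/-- The half inside `A`. -/
noncomputable def hf (x : E) : E :=
  if h : ∃ u ∈ H.A, x = (2 : ℤ) • u then Classical.choose h else 0

theorem hf_eq {x u : E} (hu : u ∈ H.A) (h : x = (2 : ℤ) • u) : H.hf x = u := by
  have h' : ∃ u ∈ H.A, x = (2 : ℤ) • u := ⟨u, hu, h⟩
  rw [hf, dif_pos h']
  obtain ⟨h1, h2⟩ := Classical.choose_spec h'
  apply H.cancel 1 h1 hu
  rw [pow_one, ← h2, h]

/-- The cocycle of a half point. -/
noncomputable def coc (S : E) (g : G) : E :=
  g • S - S - H.hf (g • ((2 : ℤ) • S) - (2 : ℤ) • S)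

/-- The double of `S` lies in `A` and is invariant modulo `2 A`. -/
def Inv (S : E) : Prop :=
  (2 : ℤ) • S ∈ H.A ∧ ∀ g : G, g • ((2 : ℤ) • S) - (2 : ℤ) • S ∈ H.D 1

theorem coc_eq {S u : E} {g : G} (hu : u ∈ H.A)
    (h : g • ((2 : ℤ) • S) - (2 : ℤ) • S = (2 : ℤ) • u) : H.coc S g = g • S - S - u := by
  rw [coc, H.hf_eq hu h]

theorem inv_zero : H.Inv 0 := ⟨by simp, fun g => by simp⟩

theorem coc_zero (g : G) : H.coc 0 g = 0 := by
  rw [H.coc_eq (u := 0) H.A.zero_mem (by simp)]; simp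

variable {H}

theorem Inv.ex {S : E} (h : H.Inv S) (g : G) :
    ∃ u ∈ H.A, g • ((2 : ℤ) • S) - (2 : ℤ) • S = (2 : ℤ) • u ∧ H.coc S g = g • S - S - u := by
  obtain ⟨u, hu, h1⟩ := h.2 g
  rw [pow_one] at h1
  exact ⟨u, hu, h1, H.coc_eq hu h1⟩

theorem Inv.two {S : E} (h : H.Inv S) (g : G) : (2 : ℤ) • H.coc S g = 0 := by
  obtain ⟨u, -, h1, h2⟩ := h.ex g
  rw [gz] at h1
  rw [h2]
  generalize g • S = y at *
  linear_combination (norm := module) h1

theorem Inv.mul {S : E} (h : H.Inv S) (g g' : G) :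
    H.coc S (g * g') = H.coc S g + g • H.coc S g' := by
  obtain ⟨u, hu, h1, h2⟩ := h.ex g
  obtain ⟨u', hu', h1', h2'⟩ := h.ex g'
  have h3 : (g * g') • ((2 : ℤ) • S) - (2 : ℤ) • S = (2 : ℤ) • (u + g • u') := by
    have := congrArg (g • ·) h1'
    simp only [smul_sub, gz] at this h1 ⊢
    rw [mul_smul]
    generalize g • g' • S = y at *
    generalize g • S = y' at *
    generalize g • u' = y'' at *
    linear_combination (norm := module) this + h1
  rw [H.coc_eq (H.A.add_mem hu (H.stab g _ hu')) h3, h2, h2', smul_sub, smul_sub, mul_smul]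
  abel

variable (H)

theorem coc_fix {S : E} {g : G} (h : g • ((2 : ℤ) • S) = (2 : ℤ) • S) :
    H.coc S g = g • S - S := by
  rw [H.coc_eq (u := 0) H.A.zero_mem (by simp [h]), sub_zero]

theorem coc_stab {S : E} {g : G} (h : g • S = S) : H.coc S g = 0 := by
  rw [H.coc_fix (by rw [gz, h]), h, sub_self]

theorem coc_neg {S : E} {g : G} (hS : (2 : ℤ) • S ∈ H.A)
    (h : g • ((2 : ℤ) • S) = -((2 : ℤ) • S)) : H.coc S g = g • S + S := by
  rw [H.coc_eq (u := -((2 : ℤ) • S)) (H.A.neg_mem hS) (by rw [h]; module)]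
  generalize g • S = y
  module

/-- `Q(n, b - i)`, zero for a negative index. -/
def Qm (n : Finset P) (b i : ℕ) : E := if i ≤ b then H.Q n (b - i) else 0

theorem Qm_zero (n : Finset P) (b : ℕ) : H.Qm n b 0 = H.Q n b := by simp [Qm]

theorem Qm_add (n : Finset P) (b i : ℕ) : H.Qm n (b + i) i = H.Q n b := by simp [Qm]

theorem QS_three (n : Finset P) (b : ℕ) (J : ℤ) {s : ℕ} (h : ∀ i, 3 ≤ i → H.Qm n b i ∈ H.D s) :
    H.QS n b J - (H.Q n b + J • H.Qm n b 1 + Ring.choose J 2 • H.Qm n b 2) ∈ H.D s := by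
  have h1 : H.QS n b J = ∑ i ∈ range (b + 3), Ring.choose J i • H.Qm n b i := by
    unfold QS
    rw [← Finset.sum_subset (s₁ := range (b + 1)) (s₂ := range (b + 3)) (by simp)]
    · refine Finset.sum_congr rfl fun i hi => ?_
      rw [Qm, if_pos (by simpa [Nat.lt_succ_iff] using hi)]
    · intro i _ hi
      rw [Qm, if_neg (by simpa [Nat.lt_succ_iff] using hi), smul_zero]
  rw [h1, Finset.sum_range_succ', Finset.sum_range_succ', Finset.sum_range_succ']
  simp only [zero_add, Ring.choose_zero_right, Ring.choose_one_right, one_smul, Qm_zero,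
    Nat.reduceAdd]
  have h2 : ∑ i ∈ range b, Ring.choose J (i + 1 + 1 + 1) • H.Qm n b (i + 1 + 1 + 1) ∈ H.D s :=
    AddSubgroup.sum_mem _ fun i _ => AddSubgroup.zsmul_mem _ (h _ (by omega)) _
  have e : ∀ a x y z : E, a + z + y + x - (x + y + z) = a := fun a x y z => by abel
  rw [e]
  exact h2

/-- All the forms vanish to weighted order `M`. -/
structure Lev (M : ℕ) : Prop where
  hM : ∀ n b, H.Q n b ∈ H.D ((M - b + 1) / 2)
  hk : M + 4 ≤ k
  hm : (M + 1) / 2 + 2 ≤ m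

variable {H} {M : ℕ}

theorem Lev.Qm_mem (L : H.Lev M) (n : Finset P) (b i : ℕ) {s : ℕ} (hs : s ≤ (M + i - b + 1) / 2) :
    H.Qm n b i ∈ H.D s := by
  unfold Qm
  split_ifs with h
  · exact H.D_anti (by omega) (L.hM n (b - i))
  · exact AddSubgroup.zero_mem _

theorem Lev.low (L : H.Lev M) (b : ℕ) (t : Finset P) (i : ℕ) (hi : i ≤ b) :
    H.Q t i ∈ H.D ((M - b + 1) / 2) :=
  H.D_anti (by omega) (L.hM t i)

/-- The three term shift relation. -/
theorem Lev.sh3 (L : H.Lev M) {g : G} {e : ℤ} {c : Co P k m} (h : Sh H.Y g e c) {J : ℤ}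
    (hJ : (J : ZMod (2 ^ k)) = c.1) (n : Finset P) {b s : ℕ} (hb : b ≤ M + 2)
    (hs : s ≤ (M + 3 - b + 1) / 2) (hs2 : s ≤ (M - b + 1) / 2 + 2) :
    g • H.Q n b - e • (H.Q n b + J • H.Qm n b 1 + Ring.choose J 2 • H.Qm n b 2) ∈ H.D s := by
  have h1 := H.D_anti hs2 (H.sh_Q h hJ (L.low b) (by have := L.hk; omega)
    (by have := L.hm; omega) n)
  have h2 := (H.D s).zsmul_mem
    (H.QS_three n b J (s := s) fun i hi => L.Qm_mem n b i (by omega)) e
  have h3 := (H.D s).add_mem h1 h2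
  rwa [smul_sub, sub_add_sub_cancel] at h3

theorem Lev.inv_Q (L : H.Lev M) (g : G) (n : Finset P) {b s : ℕ} (hb : b + 2 * s = M) :
    ∃ e : ℤ, (e = 1 ∨ e = -1) ∧ g • H.Q n b - e • H.Q n b ∈ H.D (s + 1) := by
  have key : ∀ (e J : ℤ), g • H.Q n b - e • H.QS n b J ∈ H.D ((M - b + 1) / 2 + 2) →
      g • H.Q n b - e • H.Q n b ∈ H.D (s + 1) := by
    intro e J h
    have h1 := H.D_anti (s := s + 1) (by omega) h
    have h2 := H.QS_three n b J (s := s + 1) fun i hi => L.Qm_mem n b i (by omega)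
    have h3 := (H.D (s + 1)).zsmul_mem (L.Qm_mem n b 1 (s := s + 1) (by omega)) J
    have h4 := (H.D (s + 1)).zsmul_mem (L.Qm_mem n b 2 (s := s + 1) (by omega)) (Ring.choose J 2)
    have h5 := (H.D (s + 1)).add_mem h1 ((H.D (s + 1)).zsmul_mem
      ((H.D (s + 1)).add_mem h2 ((H.D (s + 1)).add_mem h3 h4)) e)
    have e1 : ∀ a q x y z : E, a - e • q + e • (q - (x + y + z) + (y + z)) = a - e • x :=
      fun a q x y z => by module
    rwa [e1] at h5
  obtain ⟨e, c, he, h | h⟩ := H.act g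
  · exact ⟨e, he, key e (c.1.val : ℤ) (H.sh_Q h (by simp) (L.low b) (by have := L.hk; omega)
      (by have := L.hm; omega) n)⟩
  · refine ⟨e * (-1) ^ (b + n.card), ?_, key _ _ (H.rf_Q h (L.low b) (by have := L.hk; omega)
      (by have := L.hm; omega) n)⟩
    rcases neg_one_pow_eq_or ℤ (b + n.card) with h1 | h1 <;> rcases he with rfl | rfl <;> simp [h1]

theorem Lev.inv (L : H.Lev M) {n : Finset P} {b s : ℕ} (hb : b + 2 * s = M) {S : E}
    (hS : (2 : ℤ) • S ∈ H.A) (hQ : (2 : ℤ) ^ s • (2 : ℤ) • S = H.Q n b) : H.Inv S := by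
  refine ⟨hS, fun g => ?_⟩
  obtain ⟨e, he, h⟩ := L.inv_Q g n hb
  rw [← hQ, gz g ((2 : ℤ) ^ s), smul_comm e, ← smul_sub] at h
  have h1 := H.D_cancel (H.A.sub_mem (H.stab g _ hS) (H.A.zsmul_mem hS e)) h
  rcases he with rfl | rfl
  · rwa [one_smul] at h1
  · have h2 : (2 : ℤ) ^ 1 • (2 : ℤ) • S ∈ H.D 1 := ⟨_, hS, rfl⟩
    have h3 := (H.D 1).sub_mem h1 h2
    have e1 : ∀ a x : E, a - (-1 : ℤ) • x - (2 : ℤ) ^ 1 • x = a - x := fun a x => by module
    rwa [e1] at h3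

end Sys

end Pool.Agent.Lib.MP_d6ddbd_nt.K11.KK
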