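import Mathlib
import Pool.Agent.Lib.MP_d6ddbd_nt.K11.KCoc

/-! The local relations at a prime that divides the twisting number. -/

set_option autoImplicit false

namespace Pool.Agent.Lib.MP_d6ddbd_nt.K11.KK

open Finset

/-- Reduction at a place, with an inertia element and a Frobenius element. -/
structure Loc (G E Eb : Type*) [Group G] [AddCommGroup E] [DistribMulAction G E]
    [AddCommGroup Eb] where
  red : E →+ Eb
  F : Eb →+ Eb
  σ : G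
  φ : G
  hF : ∀ x, red (φ • x) = F (red x)
  hσ : ∀ x, red (σ • x) = red x
  inj : ∀ v, (2 : ℤ) • v = 0 → red v = 0 → v = 0
  sur : ∀ x, (2 : ℤ) • red x = 0 → ∃ v, (2 : ℤ) • v = 0 ∧ red v = red x

theorem odd_smul {E : Type*} [AddCommGroup E] {J : ℤ} (h : Odd J) {y : E}
    (hy : (2 : ℤ) • y = 0) : J • y = y := by
  obtain ⟨c, rfl⟩ := h
  linear_combination (norm := module) c • hy

theorem even_smul {E : Type*} [AddCommGroup E] {J : ℤ} (h : Even J) {y : E}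
    (hy : (2 : ℤ) • y = 0) : J • y = 0 := by
  obtain ⟨c, rfl⟩ := h
  linear_combination (norm := module) c • hy

theorem sgn_odd {e : ℤ} (h : e = 1 ∨ e = -1) : Odd e := by
  rcases h with rfl | rfl
  · exact odd_one
  · exact odd_neg_one

variable {G E P Eb : Type*} [Group G] [AddCommGroup E] [DistribMulAction G E] [DecidableEq P]
  [AddCommGroup Eb] {k m : ℕ}

theorem Loc.eq_of_red (w : Loc G E Eb) {u v : E} (hu : (2 : ℤ) • u = 0) (hv : (2 : ℤ) • v = 0)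
    (h : w.red u = w.red v) : u = v := by
  rw [← sub_eq_zero]
  apply w.inj
  · rw [smul_sub, hu, hv, sub_self]
  · rw [map_sub, h, sub_self]

theorem two_g (g : G) {v : E} (h : (2 : ℤ) • v = 0) : (2 : ℤ) • g • v = 0 := by
  rw [← gz, h, smul_zero]

omit [DecidableEq P] in
theorem Dep.shift {n : Finset P} {f : Co P k m → ℤ} (h : Dep n f) (c : Co P k m) :
    Dep n (fun x => f (x + c)) := by
  intro x y h1 h2
  apply h
  · simp [h1]
  · intro p hp; simp [h2 p hp]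

omit [DecidableEq P] in
theorem Dep.refl {n : Finset P} {f : Co P k m → ℤ} (h : Dep n f) (c : Co P k m) :
    Dep n (fun x => f (c - x)) := by
  intro x y h1 h2
  apply h
  · simp [h1]
  · intro p hp; simp [h2 p hp]

namespace Sys

variable (H : Sys G E P k m)

/-- The points of `A` on which `σ` acts as `-1`. -/
def B (σ : G) : AddSubgroup E where
  carrier := {x | x ∈ H.A ∧ σ • x = -x}
  zero_mem' := ⟨H.A.zero_mem, by simp⟩
  add_mem' := fun {x y} hx hy => ⟨H.A.add_mem hx.1 hy.1, by rw [smul_add, hx.2, hy.2, neg_add]⟩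
  neg_mem' := fun {x} hx => ⟨H.A.neg_mem hx.1, by rw [smul_neg, hx.2]⟩

theorem B_cancel {σ : G} (s : ℕ) {x : E} (hx : x ∈ H.A) (h : (2 : ℤ) ^ s • x ∈ H.B σ) :
    x ∈ H.B σ := by
  refine ⟨hx, H.cancel s (H.stab σ x hx) (H.A.neg_mem hx) ?_⟩
  rw [← gz, h.2, smul_neg]

/-- The hypotheses at a prime that divides the twisting number. -/
structure AtD (w : Loc G E Eb) (n : Finset P) (η J : ℤ) : Prop where
  neg : ∀ f, Dep n f → w.σ • H.Y n f = -H.Y n f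
  sgn : η = 1 ∨ η = -1
  sh : ∃ c, Sh H.Y w.φ η c ∧ (J : ZMod (2 ^ k)) = c.1

variable {H} {w : Loc G E Eb} {n : Finset P} {η J : ℤ} {M : ℕ}

theorem B_red {x : E} (hx : x ∈ H.B w.σ) : (2 : ℤ) • w.red x = 0 := by
  have h := w.hσ x
  rw [hx.2, map_neg] at h
  linear_combination (norm := module) -h

theorem AtD.Q_B (h : H.AtD w n η J) (b : ℕ) : H.Q n b ∈ H.B w.σ :=
  ⟨H.Q_mem n b, h.neg _ (dep_tf2 _ _)⟩

theorem AtD.Qm_B (h : H.AtD w n η J) (b i : ℕ) : H.Qm n b i ∈ H.B w.σ := by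
  unfold Qm
  split_ifs
  · exact h.Q_B _
  · exact AddSubgroup.zero_mem _

theorem AtD.phi_B (h : H.AtD w n η J) (b : ℕ) : w.φ • H.Q n b ∈ H.B w.σ := by
  obtain ⟨c, hc, -⟩ := h.sh
  rw [Q, hc n _ (dep_tf2 _ _)]
  have : H.Y n (fun x => tf2 (ph b) n (x + c)) ∈ H.B w.σ :=
    ⟨H.mem _ _, h.neg _ ((dep_tf2 _ _).shift c)⟩
  exact AddSubgroup.zsmul_mem _ this _

theorem AtD.rel3 (h : H.AtD w n η J) (L : H.Lev M) {b s i : ℕ} (hb : b ≤ M + 2)
    (hs : s + i ≤ (M + 3 - b + 1) / 2) (hs2 : s + i ≤ (M - b + 1) / 2 + 2) {R0 R1 R2 : E}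
    (h0 : R0 ∈ H.A) (h1 : R1 ∈ H.A) (h2 : R2 ∈ H.A) (e0 : (2 : ℤ) ^ s • R0 = H.Q n b)
    (e1 : (2 : ℤ) ^ s • R1 = H.Qm n b 1) (e2 : (2 : ℤ) ^ s • R2 = H.Qm n b 2) :
    ∃ u ∈ H.B w.σ, w.φ • R0 - η • (R0 + J • R1 + Ring.choose J 2 • R2) = (2 : ℤ) ^ i • u := by
  obtain ⟨c, hc, hJ⟩ := h.sh
  have h3 := L.sh3 hc hJ n hb hs hs2
  have hB : w.φ • H.Q n b - η • (H.Q n b + J • H.Qm n b 1 + Ring.choose J 2 • H.Qm n b 2) ∈
      H.B w.σ := AddSubgroup.sub_mem _ (h.phi_B b) (AddSubgroup.zsmul_mem _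
    (AddSubgroup.add_mem _ (AddSubgroup.add_mem _ (h.Q_B b)
      (AddSubgroup.zsmul_mem _ (h.Qm_B b 1) _)) (AddSubgroup.zsmul_mem _ (h.Qm_B b 2) _)) _)
  have e : w.φ • H.Q n b - η • (H.Q n b + J • H.Qm n b 1 + Ring.choose J 2 • H.Qm n b 2) =
      (2 : ℤ) ^ s • (w.φ • R0 - η • (R0 + J • R1 + Ring.choose J 2 • R2)) := by
    rw [← e0, ← e1, ← e2, gz]
    generalize w.φ • R0 = y
    module
  rw [e] at h3 hB
  have hA : w.φ • R0 - η • (R0 + J • R1 + Ring.choose J 2 • R2) ∈ H.A :=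
    H.A.sub_mem (H.stab _ _ h0) (H.A.zsmul_mem (H.A.add_mem (H.A.add_mem h0
      (H.A.zsmul_mem h1 _)) (H.A.zsmul_mem h2 _)) _)
  obtain ⟨u, hu, e3⟩ := H.D_cancel hA h3
  refine ⟨u, H.B_cancel i hu ?_, e3⟩
  rw [← e3]
  exact H.B_cancel s hA hB

theorem AtD.red3 (h : H.AtD w n η J) (L : H.Lev M) {b s : ℕ} (hb : b ≤ M + 2)
    (hs : s + 1 ≤ (M + 3 - b + 1) / 2) (hs2 : s + 1 ≤ (M - b + 1) / 2 + 2) {R0 R1 R2 : E}
    (h0 : R0 ∈ H.A) (h1 : R1 ∈ H.A) (h2 : R2 ∈ H.A) (e0 : (2 : ℤ) ^ s • R0 = H.Q n b)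
    (e1 : (2 : ℤ) ^ s • R1 = H.Qm n b 1) (e2 : (2 : ℤ) ^ s • R2 = H.Qm n b 2) :
    w.F (w.red R0) = w.red R0 + J • w.red R1 + Ring.choose J 2 • w.red R2 := by
  obtain ⟨u, hu, e⟩ := h.rel3 L hb hs hs2 h0 h1 h2 e0 e1 e2
  have b0 : R0 ∈ H.B w.σ := H.B_cancel s h0 (e0 ▸ h.Q_B b)
  have b1 : R1 ∈ H.B w.σ := H.B_cancel s h1 (e1 ▸ h.Qm_B b 1)
  have b2 : R2 ∈ H.B w.σ := H.B_cancel s h2 (e2 ▸ h.Qm_B b 2)
  have b3 : R0 + J • R1 + Ring.choose J 2 • R2 ∈ H.B w.σ :=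
    AddSubgroup.add_mem _ (AddSubgroup.add_mem _ b0 (AddSubgroup.zsmul_mem _ b1 _))
      (AddSubgroup.zsmul_mem _ b2 _)
  have e' := congrArg w.red e
  rw [map_sub, map_zsmul, map_zsmul, odd_smul (sgn_odd h.sgn) (B_red b3), w.hF, pow_one,
    B_red hu, sub_eq_zero] at e'
  rw [e', map_add, map_add, map_zsmul, map_zsmul]

theorem coc_B {S : E} (hS : (2 : ℤ) • S ∈ H.B w.σ) :
    (2 : ℤ) • H.coc S w.σ = 0 ∧ w.red (H.coc S w.σ) = w.red ((2 : ℤ) • S) := by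
  rw [H.coc_neg hS.1 hS.2]
  constructor
  · rw [smul_add, ← gz, hS.2, neg_add_cancel]
  · rw [map_add, w.hσ, map_zsmul, two_zsmul]

theorem fix_of_B (h1 : ∀ v : E, (2 : ℤ) • v = 0 → w.φ • v = v) {x : E} (hx : x ∈ H.B w.σ) :
    w.F (w.red x) = w.red x := by
  obtain ⟨v, hv, e⟩ := w.sur x (B_red hx)
  rw [← e, ← w.hF, h1 v hv]

theorem fix2_of_B (h1 : ∀ v : E, (2 : ℤ) • v = 0 → w.φ • w.φ • v = v) {x : E}
    (hx : x ∈ H.B w.σ) : w.F (w.F (w.red x)) = w.red x := by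
  obtain ⟨v, hv, e⟩ := w.sur x (B_red hx)
  rw [← e, ← w.hF, ← w.hF, h1 v hv]

theorem AtD.top_red (h : H.AtD w n η J) (L : H.Lev M)
    (ty : ((∀ v : E, (2 : ℤ) • v = 0 → w.φ • v = v) ∧ ∃ u, Odd u ∧ J = 2 * u) ∨
      ((∀ v : E, (2 : ℤ) • v = 0 → w.φ • w.φ • v = v) ∧ Odd J)) : w.red (H.Q n M) = 0 := by
  have q1 : H.Qm n (M + 2) 1 = H.Q n (M + 1) := H.Qm_add n (M + 1) 1
  have r2 := h.red3 L (b := M + 2) (s := 0) le_rfl (by omega) (by omega) (H.Q_mem n (M + 2))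
    (H.Q_mem n (M + 1)) (H.Q_mem n M) (by simp) (by simp [q1]) (by simp [H.Qm_add])
  have t0 := B_red (h.Q_B M)
  have t1 := B_red (h.Q_B (M + 1))
  have t2 := B_red (h.Q_B (M + 2))
  rcases ty with ⟨h1, hJ⟩ | ⟨h1, hJ⟩
  · rw [fix_of_B h1 (h.Q_B _), odd_smul (choose_two_odd hJ) t0,
      even_smul (by obtain ⟨u, -, rfl⟩ := hJ; exact even_two_mul u) t1] at r2
    simpa using r2
  · obtain ⟨R2, hR2, e2⟩ := L.Qm_mem n (M + 1) 2 (s := 1) (by omega)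
    obtain ⟨R3, hR3, e3⟩ := L.Qm_mem n M 1 (s := 1) (by omega)
    obtain ⟨R4, hR4, e4⟩ := L.Qm_mem n M 2 (s := 1) (by omega)
    have z : ∀ {R : E} {b i : ℕ}, R ∈ H.A → H.Qm n b i = (2 : ℤ) ^ 1 • R →
        w.red (H.Qm n b i) = 0 := by
      intro R b i hR e
      rw [e, map_zsmul, pow_one]
      exact B_red (H.B_cancel 1 hR (e ▸ h.Qm_B b i))
    have r1 := h.red3 L (b := M + 1) (s := 0) (by omega) (by omega) (by omega) (H.Q_mem n (M + 1))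
      (H.Q_mem n M) (h.Qm_B (M + 1) 2).1 (by simp) (by simp [H.Qm_add]) (by simp)
    have r0 := h.red3 L (b := M) (s := 0) (by omega) (by omega) (by omega) (H.Q_mem n M)
      (h.Qm_B M 1).1 (h.Qm_B M 2).1 (by simp) (by simp) (by simp)
    rw [z hR2 e2, odd_smul hJ t0] at r1
    rw [z hR3 e3, z hR4 e4] at r0
    rw [odd_smul hJ t1] at r2
    have r3 := congrArg w.F r2
    rw [fix2_of_B h1 (h.Q_B _), map_add, map_add, map_zsmul, r2, r1, r0] at r3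
    linear_combination (norm := module) -r3 - t1 - Ring.choose J 2 • t0

theorem AtD.top (h : H.AtD w n η J) (L : H.Lev M)
    (ty : ((∀ v : E, (2 : ℤ) • v = 0 → w.φ • v = v) ∧ ∃ u, Odd u ∧ J = 2 * u) ∨
      ((∀ v : E, (2 : ℤ) • v = 0 → w.φ • w.φ • v = v) ∧ Odd J))
    {S : E} (hS : (2 : ℤ) • S = H.Q n M) : H.coc S w.σ = 0 := by
  obtain ⟨h1, h2⟩ := coc_B (w := w) (S := S) (hS ▸ h.Q_B M)
  apply w.inj _ h1
  rw [h2, hS, h.top_red L ty]

theorem AtD.main (h : H.AtD w n η J) (L : H.Lev M) {b s : ℕ} (hb : b + 2 * s = M) {S S2 v4 : E}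
    (hS : (2 : ℤ) • S ∈ H.A) (eS : (2 : ℤ) ^ s • (2 : ℤ) • S = H.Q n b)
    (hS2 : (2 : ℤ) • S2 ∈ H.A) (eS2 : (2 : ℤ) ^ (s + 1) • (2 : ℤ) • S2 = H.Qm n b 2)
    (h4 : (2 : ℤ) • v4 = H.coc S w.σ) {Z : E} (hZ : H.coc S w.φ = w.φ • v4 - η • v4 + Z) :
    (2 : ℤ) • Z = 0 ∧
    ((∀ v : E, (2 : ℤ) • v = 0 → w.φ • v = v) → (∃ u, Odd u ∧ J = 2 * u) → Z = H.coc S2 w.σ) ∧
    ((∀ v : E, (2 : ℤ) • v = 0 → w.φ • w.φ • v = v) → Odd J → w.φ • Z - Z = H.coc S2 w.σ) := by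
  obtain ⟨R1, hR1, e1⟩ := L.Qm_mem n b 1 (s := s + 1) (by omega)
  have b0 : (2 : ℤ) • S ∈ H.B w.σ := H.B_cancel s hS (eS ▸ h.Q_B b)
  have b1 : R1 ∈ H.B w.σ := H.B_cancel (s + 1) hR1 (e1 ▸ h.Qm_B b 1)
  have b2 : (2 : ℤ) • S2 ∈ H.B w.σ := H.B_cancel (s + 1) hS2 (eS2 ▸ h.Qm_B b 2)
  obtain ⟨a1, a2⟩ := coc_B b0
  obtain ⟨c1, c2⟩ := coc_B b2
  obtain ⟨u, hu, e⟩ := h.rel3 L (b := b) (s := s) (i := 2) (by omega) (by omega) (by omega) hS
    (H.A.zsmul_mem hR1 2) (H.A.zsmul_mem hS2 2) eS (by rw [e1, pow_succ, mul_smul])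
    (by rw [← eS2, pow_succ, mul_smul])
  obtain ⟨ε, hε⟩ := sgn_odd h.sgn
  -- the half
  have hX : J • R1 + Ring.choose J 2 • (2 : ℤ) • S2 ∈ H.B w.σ :=
    AddSubgroup.add_mem _ (AddSubgroup.zsmul_mem _ b1 _) (AddSubgroup.zsmul_mem _ b2 _)
  obtain ⟨X, hXe⟩ : ∃ X, X = J • R1 + Ring.choose J 2 • (2 : ℤ) • S2 := ⟨_, rfl⟩
  rw [← hXe] at hX
  have e5 : w.φ • (2 : ℤ) • S - (2 : ℤ) • S =
      (2 : ℤ) • (ε • (2 : ℤ) • S + η • X + (2 : ℤ) • u) := by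
    rw [hXe]
    generalize w.φ • (2 : ℤ) • S = y at e ⊢
    subst hε
    linear_combination (norm := module) e
  have e6 := H.coc_eq (H.A.add_mem (H.A.add_mem (H.A.zsmul_mem hS ε) (H.A.zsmul_mem hX.1 η))
    (H.A.zsmul_mem hu.1 2)) e5
  have inv := L.inv hb hS eS
  have tX := B_red hX
  have tu := B_red hu
  have tR := B_red b0
  -- the value at inertia is fixed by Frobenius
  have fR : w.F (w.red ((2 : ℤ) • S)) = w.red ((2 : ℤ) • S) := by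
    have := congrArg w.red e5
    rw [map_sub, w.hF, map_zsmul w.red 2 (_ + _), map_add, map_add, map_zsmul w.red ε,
      map_zsmul w.red η, map_zsmul w.red 2 u] at this
    linear_combination (norm := module) this + ε • tR + η • tX + (2 : ℤ) • tu
  have fa : w.φ • H.coc S w.σ = H.coc S w.σ :=
    w.eq_of_red (two_g _ a1) a1 (by rw [w.hF, a2, fR])
  have hZ2 : (2 : ℤ) • Z = 0 := by
    have t1 := inv.two w.φ
    have t2 : (2 : ℤ) • w.φ • v4 = (2 : ℤ) • v4 := by rw [← gz, h4, fa]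
    rw [hZ] at t1
    rw [← h4] at a1
    generalize w.φ • v4 = y at t1 t2
    subst hε
    linear_combination (norm := module) t1 - t2 + ε • a1
  obtain ⟨v, hv, ev⟩ := w.sur (S - v4) (by
    rw [← map_zsmul, smul_sub, h4, map_sub, a2, sub_self])
  have tv : (2 : ℤ) • w.red v = 0 := by rw [← map_zsmul, hv, map_zero]
  have rZ : w.red Z = w.F (w.red v) - w.red v + w.red X := by
    have t1 := congrArg w.red (hZ.symm.trans e6)
    have t2 := congrArg w.F ev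
    simp only [map_add, map_sub, map_zsmul, w.hF] at t1 t2 ev
    subst hε
    linear_combination (norm := module) t1 - t2 + (2 * ε + 1) • ev - ε • tv - (ε + 1) • tX - tu
  have t1 := B_red b1
  have t2 := B_red b2
  rw [hXe, map_add, map_zsmul, map_zsmul w.red (Ring.choose J 2)] at rZ
  refine ⟨hZ2, fun h1 hJ => ?_, fun h1 hJ => ?_⟩
  · apply w.eq_of_red hZ2 c1
    rw [rZ, ← w.hF, h1 v hv, c2, odd_smul (choose_two_odd hJ) t2,
      even_smul (by obtain ⟨u, -, rfl⟩ := hJ; exact even_two_mul u) t1]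
    simp
  · apply w.eq_of_red (by rw [smul_sub, two_g _ hZ2, hZ2, sub_self]) c1
    have tFv : (2 : ℤ) • w.F (w.red v) = 0 := by rw [← map_zsmul, tv, map_zero]
    have FF : w.F (w.F (w.red v)) = w.red v := by rw [← w.hF, ← w.hF, h1 v hv]
    have r1 : w.F (w.red R1) = w.red R1 + w.red ((2 : ℤ) • S2) := by
      rcases b with _ | b
      · have z1 : R1 = 0 := H.tf_pow (s + 1) hR1 (by rw [← e1]; simp [Qm])
        have z2 : (2 : ℤ) • S2 = 0 := H.tf_pow (s + 1) hS2 (by rw [eS2]; simp [Qm])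
        simp [z1, z2]
      · obtain ⟨R3, hR3, e3⟩ := L.Qm_mem n b 2 (s := s + 2) (by omega)
        have q2 : H.Qm n (b + 1) 2 = H.Qm n b 1 := by
          unfold Qm
          simp
        have b3 : R3 ∈ H.B w.σ := H.B_cancel (s + 2) hR3 (e3 ▸ h.Qm_B b 2)
        have := h.red3 L (b := b) (s := s + 1) (by omega) (by omega) (by omega) hR1 hS2
          (H.A.zsmul_mem hR3 2) (by rw [← e1, H.Qm_add]) (by rw [eS2, q2])
          (by rw [e3, pow_succ _ (s + 1), mul_smul])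
        rw [this, odd_smul hJ t2, map_zsmul w.red 2 R3, B_red b3]
        simp
    have r2 : w.F (w.red ((2 : ℤ) • S2)) = w.red ((2 : ℤ) • S2) := by
      have := congrArg w.F r1
      rw [fix2_of_B h1 b1, map_add, r1] at this
      linear_combination (norm := module) -this - t2
    rw [map_sub, w.hF, rZ, c2, odd_smul hJ t1, map_add, map_add, map_sub, map_zsmul, FF, r1, r2]
    linear_combination (norm := module) tv - tFv

end Sys

end Pool.Agent.Lib.MP_d6ddbd_nt.K11.KK
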