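import Mathlib
import Pool.Agent.Lib.MP_d6ddbd_nt.K11.KD

/-! The local relations at a Kolyvagin prime. -/

set_option autoImplicit false

namespace Pool.Agent.Lib.MP_d6ddbd_nt.K11.KK

open Finset

theorem sum_val (N : ℕ) [NeZero N] : (∑ z : ZMod N, (z.val : ℤ)) * 2 = N * (N - 1) := by
  obtain ⟨n, rfl⟩ := Nat.exists_eq_succ_of_ne_zero (NeZero.ne N)
  have h1 : ∑ z : ZMod (n + 1), (z.val : ℤ) = ∑ i ∈ range (n + 1), (i : ℤ) :=
    Fin.sum_univ_eq_sum_range (fun i => (i : ℤ)) (n + 1)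
  have h2 := Finset.sum_range_id_mul_two (n + 1)
  rw [h1]
  have h3 := congrArg (Nat.cast : ℕ → ℤ) h2
  push_cast at h3 ⊢
  simpa using h3

theorem sum_val_even {m : ℕ} (hm : 2 ≤ m) : ∃ c : ℤ, ∑ z : ZMod (2 ^ m), (z.val : ℤ) = 2 * c := by
  obtain ⟨i, rfl⟩ := Nat.exists_eq_add_of_le hm
  have h := sum_val (2 ^ (2 + i))
  refine ⟨2 ^ i * (2 ^ (2 + i) - 1), ?_⟩
  push_cast at h
  have e : (2 : ℤ) ^ (2 + i) = 4 * 2 ^ i := by ring
  apply mul_left_cancel₀ (two_ne_zero (α := ℤ))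
  linear_combination h + (2 ^ (2 + i) - 1) * e

theorem carry (m : ℕ) (j : ZMod (2 ^ m)) : ∃ ε : ZMod (2 ^ m) → ℤ,
    (∀ z, ((z + j).val : ℤ) = z.val + j.val - 2 ^ m * ε z) ∧ ∑ z, ε z = j.val := by
  have h : ∀ z : ZMod (2 ^ m), ∃ c : ℤ, ((z + j).val : ℤ) = z.val + j.val - 2 ^ m * c := by
    intro z
    obtain ⟨c, hc⟩ := val_add_dvd z j (j.val : ℤ) (by simp)
    push_cast at hc
    exact ⟨-c, by linear_combination hc⟩
  choose ε hε using h
  refine ⟨ε, hε, ?_⟩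
  have h1 : ∑ z : ZMod (2 ^ m), ((z + j).val : ℤ) = ∑ z : ZMod (2 ^ m), (z.val : ℤ) :=
    Equiv.sum_comp (Equiv.addRight j) (fun z => (z.val : ℤ))
  simp only [hε, Finset.sum_sub_distrib, Finset.sum_add_distrib, Finset.sum_const,
    Finset.card_univ, ZMod.card, ← Finset.mul_sum, nsmul_eq_mul] at h1
  push_cast at h1
  have h2 : (2 : ℤ) ^ m * (∑ z, ε z) = 2 ^ m * j.val := by linear_combination -h1
  exact mul_left_cancel₀ (by positivity) h2

variable {G E P Eb : Type*} [Group G] [AddCommGroup E] [DistribMulAction G E] [DecidableEq P]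
  [AddCommGroup Eb] {k m : ℕ}

namespace Sys

variable (H : Sys G E P k m)

/-- The hypotheses at a Kolyvagin prime. -/
structure AtP (w : Loc G E Eb) (n : Finset P) (p : P) (l u : ℤ) : Prop where
  nm : p ∉ n
  hu : u * 2 ^ m = l + 1
  am : (2 : ℤ) ^ m ∣ H.a p
  sh : ∃ c, Sh H.Y w.σ 1 c ∧ c.1 = 0 ∧ (∀ p' ∈ n, c.2 p' = 0) ∧ Odd (c.2 p).val
  rf : ∀ n' f, Dep n' f → w.φ • w.φ • H.Y n' f = H.Y n' f
  es : ∀ x, H.a p • w.F (w.red x) = w.F (w.F (w.red x)) + l • w.red x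
  cong : ∀ (g : Co P k m → ℤ) (ω : ZMod (2 ^ m) → ℤ), Dep n g →
    w.red (H.Y (insert p n) fun x => g x * ω (x.2 p)) = (u * ∑ z, ω z) • w.F (w.red (H.Y n g))

variable {H} {w : Loc G E Eb} {n : Finset P} {p : P} {l u : ℤ} {M : ℕ}

theorem tf2_insert (hp : p ∉ n) (v : ZMod (2 ^ k) → ℤ) (x : Co P k m) :
    tf2 v (insert p n) x = tf2 v n x * ((x.2 p).val : ℤ) := by
  simp only [tf2, ps, Finset.prod_insert hp]; ring

theorem AtP.fix (h : H.AtP w n p l u) {n' : Finset P} {b s : ℕ} {R : E} (hR : R ∈ H.A)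
    (e : (2 : ℤ) ^ s • R = H.Q n' b) : w.φ • w.φ • R = R := by
  apply H.cancel s (H.stab _ _ (H.stab _ _ hR)) hR
  rw [← gz, ← gz, e]
  exact h.rf _ _ (dep_tf2 _ _)

theorem AtP.main (h : H.AtP w n p l u) (L : H.Lev M) {b s : ℕ} (hb : b + 2 * s = M) {S S' : E}
    (hS : (2 : ℤ) • S ∈ H.A) (eS : (2 : ℤ) ^ s • (2 : ℤ) • S = H.Q n b)
    (hS' : (2 : ℤ) • S' ∈ H.A) (eS' : (2 : ℤ) ^ s • (2 : ℤ) • S' = H.Q (insert p n) b) :
    w.φ • H.coc S' w.σ = H.coc S (w.φ * w.φ) ∧ H.coc S' (w.φ * w.φ) = 0 := by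
  have inv := L.inv hb hS eS
  have inv' := L.inv hb hS' eS'
  obtain ⟨i, hi⟩ : ∃ i, m = s + 1 + (i + 1) := ⟨m - s - 2, by have := L.hm; omega⟩
  have f1 := h.fix hS eS
  have f2 := h.fix hS' eS'
  have c1 : H.coc S (w.φ * w.φ) = w.φ • w.φ • S - S := by
    rw [H.coc_fix (by rw [mul_smul, f1]), mul_smul]
  have c2 : H.coc S' (w.φ * w.φ) = w.φ • w.φ • S' - S' := by
    rw [H.coc_fix (by rw [mul_smul, f2]), mul_smul]
  obtain ⟨a', ha'⟩ := h.am
  have hu := h.hu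
  have pw : (2 : ℤ) ^ m = 2 ^ s * 2 * (2 ^ i * 2) := by
    conv_lhs => rw [hi]
    ring
  rw [pw] at ha' hu
  have rQ : w.red (H.Q n b) = (2 ^ s * 2 : ℤ) • w.red S := by
    rw [← eS, map_zsmul, map_zsmul, mul_smul]
  constructor
  · obtain ⟨c, hc, c0, cn, co⟩ := h.sh
    obtain ⟨ε, hε, sε⟩ := carry m (c.2 p)
    obtain ⟨J, hJ⟩ : ∃ J : ℤ, J = ((c.2 p).val : ℤ) := ⟨_, rfl⟩
    rw [← hJ] at hε sε
    have oJ : Odd J := by rw [hJ]; exact_mod_cast co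
    obtain ⟨Z, hZ⟩ : ∃ Z, Z = H.Y (insert p n) fun x => tf2 (ph b) n x * ε (x.2 p) := ⟨_, rfl⟩
    have hZA : Z ∈ H.A := hZ ▸ H.mem _ _
    have e1 : (fun x : Co P k m => tf2 (ph b) (insert p n) (x + c)) =
        tf2 (ph b) (insert p n) + J • tf2 (ph b) n -
          (2 : ℤ) ^ m • fun x => tf2 (ph b) n x * ε (x.2 p) := by
      funext x
      have e0 : tf2 (ph b) n (x + c) = tf2 (ph b) n x :=
        dep_tf2 _ _ _ _ (by simp [c0]) (fun p' hp' => by simp [cn p' hp'])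
      simp only [Pi.add_apply, Pi.sub_apply, Pi.smul_apply, smul_eq_mul, tf2_insert h.nm, e0,
        Prod.snd_add, hε]
      ring
    have e2 : w.σ • H.Q (insert p n) b =
        H.Q (insert p n) b + J • H.a p • H.Q n b - (2 : ℤ) ^ m • Z := by
      rw [Q, hc _ _ (dep_tf2 _ _), one_smul, e1, map_sub, map_add, map_zsmul, map_zsmul,
        H.norm n p h.nm _ (dep_tf2 _ _), ← hZ]
      rfl
    have hA : (J * (2 ^ s * (2 ^ i * 2) * a')) • (2 : ℤ) • S - (2 ^ i * 2 : ℤ) • Z ∈ H.A :=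
      H.A.sub_mem (H.A.zsmul_mem hS _) (H.A.zsmul_mem hZA _)
    have e3 : w.σ • (2 : ℤ) • S' - (2 : ℤ) • S' =
        (2 : ℤ) • ((J * (2 ^ s * (2 ^ i * 2) * a')) • (2 : ℤ) • S - (2 ^ i * 2 : ℤ) • Z) := by
      apply H.cancel s (H.A.sub_mem (H.stab _ _ hS') hS') (H.A.zsmul_mem hA _)
      rw [smul_sub, ← gz, eS', e2, ← eS, ha', pw]
      module
    have e4 := congrArg w.red (H.coc_eq hA e3)
    have rZ : w.red Z = (u * J) • w.F (w.red (H.Q n b)) := by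
      rw [hZ, h.cong _ _ (dep_tf2 _ _), sε]; rfl
    rw [rQ, map_zsmul] at rZ
    simp only [map_sub, map_zsmul, w.hσ, rZ] at e4
    have t := inv.two (w.φ * w.φ)
    apply w.eq_of_red (two_g _ (inv'.two _)) t
    have ol : Odd (J * l) := oJ.mul ⟨u * (2 ^ s * (2 ^ i * 2)) - 1, by linear_combination -hu⟩
    have t2 : (2 : ℤ) • w.red (H.coc S (w.φ * w.φ)) = 0 := by rw [← map_zsmul, t, map_zero]
    rw [← odd_smul ol t2, w.hF, e4, c1]
    have es := h.es S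
    rw [ha'] at es
    simp only [map_sub, map_zsmul, w.hF, sub_self, map_zero]
    have hl : l = u * (2 ^ s * 2 * (2 ^ i * 2)) - 1 := by linear_combination -hu
    subst hl
    linear_combination (norm := module) -J • es
  · obtain ⟨c, hc⟩ := sum_val_even (m := m) (by omega)
    have r1 : w.red (H.Q (insert p n) b) = (u * (2 * c)) • w.F (w.red (H.Q n b)) := by
      rw [← hc, Q, funext (tf2_insert h.nm (ph b))]
      exact h.cong _ (fun z => (z.val : ℤ)) (dep_tf2 _ _)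
    rw [rQ, ← eS', map_zsmul, map_zsmul, map_zsmul] at r1
    obtain ⟨t, ht⟩ : ∃ t, t = S' - (u * c) • w.φ • (2 : ℤ) • S := ⟨_, rfl⟩
    have r2 : (2 ^ s * 2 : ℤ) • w.red t = 0 := by
      rw [ht, map_sub, map_zsmul, w.hF, map_zsmul, map_zsmul]
      linear_combination (norm := module) r1
    have r3 : (2 ^ s * 2 : ℤ) • w.F (w.red t) = 0 := by rw [← map_zsmul, r2, map_zero]
    have es := h.es t
    rw [ha'] at es
    have r4 : w.F (w.F (w.red t)) = w.red t := by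
      have hl : l = u * (2 ^ s * 2 * (2 ^ i * 2)) - 1 := by linear_combination -hu
      subst hl
      linear_combination (norm := module) -es + (2 ^ i * 2 * a') • r3 - (u * (2 ^ i * 2)) • r2
    apply w.inj _ (inv'.two _)
    rw [c2]
    have e5 : S' = t + (u * c) • w.φ • (2 : ℤ) • S := by rw [ht, sub_add_cancel]
    have e6 : w.φ • w.φ • w.φ • (2 : ℤ) • S = w.φ • (2 : ℤ) • S := by rw [f1]
    rw [e5, smul_add, smul_add, gz _ (u * c), gz _ (u * c), e6, add_sub_add_right_eq_sub, map_sub,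
      w.hF, w.hF, r4, sub_self]

end Sys

end Pool.Agent.Lib.MP_d6ddbd_nt.K11.KK
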