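import Mathlib
import Pool.Agent.Lib.MP_d6ddbd_nt.K11.KP

/-! The order of vanishing modulo two, and the choice of the level. -/

set_option autoImplicit false

namespace Pool.Agent.Lib.MP_d6ddbd_nt.K11.KK

open Finset Polynomial

/-- The shift operator on functions modulo two. -/
def Eop (N : ℕ) : Module.End (ZMod 2) (ZMod N → ZMod 2) :=
  LinearMap.funLeft (ZMod 2) (ZMod 2) (· + 1)

theorem Eop_pow {N : ℕ} (i : ℕ) (f : ZMod N → ZMod 2) (x : ZMod N) :
    (Eop N ^ i) f x = f (x + i) := by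
  induction i generalizing x with
  | zero => simp
  | succ i ih =>
    rw [pow_succ', Module.End.mul_apply]
    change (Eop N ^ i) f (x + 1) = _
    rw [ih]; congr 1; push_cast; ring

theorem aeval_one {N : ℕ} (q : (ZMod 2)[X]) :
    aeval (Eop N) q (1 : ZMod N → ZMod 2) = q.eval 1 • (1 : ZMod N → ZMod 2) := by
  induction q using Polynomial.induction_on' with
  | add p q hp hq => rw [map_add, LinearMap.add_apply, hp, hq, eval_add, add_smul]
  | monomial i c =>
    rw [aeval_monomial, Module.End.mul_apply, eval_monomial, one_pow, mul_one]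
    have : (Eop N ^ i) (1 : ZMod N → ZMod 2) = 1 := funext fun x => by rw [Eop_pow]; rfl
    rw [this, Module.algebraMap_end_apply]

/-- The `b`-th difference of `f` is odd everywhere. -/
def Tp {N : ℕ} (b : ℕ) (f : ZMod N → ℤ) : Prop :=
  aeval (Eop N) ((X - 1 : (ZMod 2)[X]) ^ b) (fun x => (f x : ZMod 2)) = 1

theorem Tp.odd {N : ℕ} {f : ZMod N → ℤ} (h : Tp 0 f) (x : ZMod N) : (2 : ℤ) ∣ f x - 1 := by
  have := congrFun h x
  simp only [pow_zero, map_one, Module.End.one_apply, Pi.one_apply] at this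
  have h2 := (ZMod.intCast_zmod_eq_zero_iff_dvd (f x - 1) 2).1 (by push_cast; rw [this, sub_self])
  exact_mod_cast h2

theorem Tp.of_op {N : ℕ} {b e : ℕ} {f f' : ZMod N → ℤ} (h : Tp (b + e) f) (q : (ZMod 2)[X])
    (hq : q.eval 1 = 1) (hf : (fun x => (f' x : ZMod 2)) =
      aeval (Eop N) (q * (X - 1) ^ e) (fun x => (f x : ZMod 2))) : Tp b f' := by
  unfold Tp at h ⊢
  rw [hf, ← Module.End.mul_apply, ← map_mul]
  have : ((X - 1 : (ZMod 2)[X]) ^ b) * (q * (X - 1) ^ e) = q * (X - 1) ^ (b + e) := by ring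
  rw [this, map_mul, Module.End.mul_apply, h, aeval_one, hq, one_smul]

theorem Tp_ph {k : ℕ} (b : ℕ) (hb : b + 1 ≤ k) : Tp b (ph (k := k) b) := by
  induction b with
  | zero =>
    funext x
    simp [ph]
  | succ b ih =>
    have h := ih (by omega)
    unfold Tp at h ⊢
    rw [pow_succ, map_mul, Module.End.mul_apply, ← h]
    congr 1
    funext x
    have h1 : (2 : ℤ) ^ 1 ∣ Ring.choose (((x + 1).val : ℕ) : ℤ) (b + 1) -
        Ring.choose ((x.val : ℤ) + 1) (b + 1) := by
      apply choose_dvd (k := k) _ (by omega)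
      simpa using val_add_dvd x 1 1 (by simp)
    rw [Ring.choose_succ_succ, pow_one] at h1
    have h2 := (ZMod.intCast_zmod_eq_zero_iff_dvd _ 2).2 (by exact_mod_cast h1)
    push_cast at h2
    simp only [map_sub, aeval_X, map_one, LinearMap.sub_apply, Module.End.one_apply, Pi.sub_apply]
    change ((ph (b + 1) (x + 1) : ℤ) : ZMod 2) - _ = _
    simp only [ph]
    linear_combination h2

theorem Tp.step {N : ℕ} [NeZero N] {b e : ℕ} {f : ZMod N → ℤ} (h : Tp (b + e) f) {a : ℤ}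
    {j : ZMod N} (hc : (e = 0 ∧ Odd a) ∨ (e = 2 ∧ Even a ∧ j.val % 2 = 1) ∨
      (e = 4 ∧ Even a ∧ j.val % 4 = 2)) :
    Tp b (fun x => a * f x - f (x - j) - f (x + j)) := by
  have t2 : (2 : ZMod 2) = 0 := rfl
  have key : (fun x => ((a * f x - f (x - j) - f (x + j) : ℤ) : ZMod 2)) =
      aeval (Eop N) (C (a : ZMod 2) - X ^ (-j).val - X ^ j.val) (fun x => (f x : ZMod 2)) := by
    funext x
    simp only [map_sub, map_pow, aeval_X, aeval_C, LinearMap.sub_apply, Pi.sub_apply, Eop_pow,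
      Module.algebraMap_end_apply, Pi.smul_apply, smul_eq_mul, ZMod.natCast_zmod_val]
    push_cast
    rw [← sub_eq_add_neg]
  have key2 : Even a → (fun x => ((a * f x - f (x - j) - f (x + j) : ℤ) : ZMod 2)) =
      aeval (Eop N) (X ^ (-j).val * (X ^ j.val - 1) ^ 2 : (ZMod 2)[X])
        (fun x => (f x : ZMod 2)) := by
    intro ha
    have e1 : (X ^ (-j).val * (X ^ j.val - 1) ^ 2 : (ZMod 2)[X]) =
        X ^ ((-j).val + j.val + j.val) - C 2 * X ^ ((-j).val + j.val) + X ^ (-j).val := by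
      rw [C_ofNat]; ring
    have e2 : (a : ZMod 2) = 0 := (ZMod.intCast_zmod_eq_zero_iff_dvd a 2).2 (by
      exact_mod_cast ha.two_dvd)
    rw [e1, t2, map_zero, zero_mul, sub_zero]
    funext x
    simp only [map_add, map_pow, aeval_X, LinearMap.add_apply, Pi.add_apply, Eop_pow]
    push_cast
    simp only [ZMod.natCast_zmod_val, e2, neg_add_cancel, zero_add, ← sub_eq_add_neg]
    linear_combination (-(f (x - j) : ZMod 2) - (f (x + j) : ZMod 2)) * t2
  rcases hc with ⟨rfl, ha⟩ | ⟨rfl, ha, hj⟩ | ⟨rfl, ha, hj⟩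
  · refine h.of_op (C (a : ZMod 2) - X ^ (-j).val - X ^ j.val) ?_ (by rw [key]; simp)
    obtain ⟨c, rfl⟩ := ha
    simp only [eval_sub, eval_C, eval_pow, eval_X, one_pow]
    push_cast
    linear_combination ((c : ZMod 2) - 1) * t2
  · refine h.of_op (X ^ (-j).val * (∑ i ∈ range j.val, X ^ i) ^ 2) ?_ ?_
    · obtain ⟨c, hc⟩ : ∃ c, j.val = 2 * c + 1 := ⟨j.val / 2, by omega⟩
      simp only [eval_mul, eval_pow, eval_X, one_pow, eval_finsetSum, Finset.sum_const,
        card_range, nsmul_eq_mul, hc]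
      push_cast
      rw [t2]; ring
    · rw [key2 ha, ← geom_sum_mul, mul_pow, mul_assoc]
  · obtain ⟨c, hc⟩ : ∃ c, j.val = (2 * c + 1) * 2 := ⟨j.val / 4, by omega⟩
    refine h.of_op (X ^ (-j).val * (∑ i ∈ range (2 * c + 1), X ^ i) ^ 4) ?_ ?_
    · simp only [eval_mul, eval_pow, eval_X, one_pow, eval_finsetSum, Finset.sum_const,
        card_range, nsmul_eq_mul]
      push_cast
      rw [t2]; ring
    · rw [key2 ha]
      congr 2
      have e3 : (X ^ j.val - 1 : (ZMod 2)[X]) = (X ^ (2 * c + 1) - 1) ^ 2 := by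
        have t3 : (2 : (ZMod 2)[X]) = 0 := by rw [← C_ofNat, t2, map_zero]
        rw [hc, pow_mul]
        linear_combination (X ^ (2 * c + 1) - 1) * t3
      rw [e3, ← geom_sum_mul]
      ring

variable {G E P : Type*} [Group G] [AddCommGroup E] [DistribMulAction G E] [DecidableEq P]
  {k m : ℕ}

theorem Sys.exists_lev (H : Sys G E P k m) {e : ℕ} (he : H.Q ∅ e ∉ H.D 1) (hk : e + 4 ≤ k)
    (hm : (e + 1) / 2 + 2 ≤ m) :
    ∃ M ≤ e, H.Lev M ∧ ∃ n b s, b + 2 * s = M ∧ H.Q n b ∉ H.D (s + 1) := by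
  classical
  have hex : ∃ j, ¬ ∀ n b, H.Q n b ∈ H.D ((j + 1 - b + 1) / 2) :=
    ⟨e, fun h => he (by simpa using h ∅ e)⟩
  have h1 := Nat.find_spec hex
  have h2 : Nat.find hex ≤ e := Nat.find_min' hex fun h => he (by simpa using h ∅ e)
  have h3 : ∀ n b, H.Q n b ∈ H.D ((Nat.find hex - b + 1) / 2) := by
    rcases h0 : Nat.find hex with _ | j
    · intro n b
      simpa using H.D_zero (H.Q_mem n b)
    · have := Nat.find_min hex (m := j) (by omega)
      simpa using this
  generalize Nat.find hex = M at h1 h2 h3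
  refine ⟨M, h2, ⟨h3, by omega, by omega⟩, ?_⟩
  push Not at h1
  obtain ⟨n, b, hb⟩ := h1
  have h4 : (M - b + 1) / 2 < (M + 1 - b + 1) / 2 := by
    by_contra h
    exact hb (H.D_anti (by omega) (h3 n b))
  refine ⟨n, b, (M - b) / 2, by omega, fun h => hb (H.D_anti (by omega) h)⟩

end Pool.Agent.Lib.MP_d6ddbd_nt.K11.KK
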