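import Pool.Agent.Lib.MP_d6ddbd_nt.K11.Stmt
import Pool.Agent.Lib.MP_d6ddbd_nt.K11.KBase

/-! Algebraic points, the group over the quadratic field and the genus character. -/

set_option autoImplicit false

open Pool.Agent.Lib.MP_02f36d_nt (xc yc)

noncomputable section

namespace Pool.Agent.Lib.MP_d6ddbd_nt.K11.KK

open Finset

/-- The group of algebraic points. -/
def AlgS (hR : R1Stmt) : AddSubgroup Pt where
  carrier := {P | AlgP P}
  zero_mem' := hR.1.1
  add_mem' := fun {P Q} hP hQ => hR.1.2.1 P Q hP hQ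
  neg_mem' := fun {P} hP => hR.1.2.2.1 P hP

instance (hR : R1Stmt) : SMul G (AlgS hR) := ⟨fun σ P => ⟨σ • P.1, hR.1.2.2.2.1 σ P.1 P.2⟩⟩

theorem coe_sm {hR : R1Stmt} (σ : G) (P : AlgS hR) : ((σ • P : AlgS hR) : Pt) = σ • (P : Pt) := rfl

instance (hR : R1Stmt) : DistribMulAction G (AlgS hR) where
  one_smul P := Subtype.ext (one_smul G P.1)
  mul_smul σ τ P := Subtype.ext (mul_smul σ τ P.1)
  smul_zero σ := Subtype.ext (smul_zero σ)
  smul_add σ P Q := Subtype.ext (smul_add σ P.1 Q.1)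

theorem two_iff {hR : R1Stmt} (P : AlgS hR) : (2 : ℤ) • P = 0 ↔ 2 • (P : Pt) = 0 := by
  rw [Subtype.ext_iff, two_zsmul, two_nsmul]; rfl

theorem coe_two {hR : R1Stmt} (P : AlgS hR) : (((2 : ℤ) • P : AlgS hR) : Pt) = 2 • (P : Pt) := by
  rw [two_zsmul, two_nsmul]; rfl

theorem alg_of_two (hR : R1Stmt) {T : Pt} (h : 2 • T = 0) : T ∈ AlgS hR :=
  hR.1.2.2.2.2.1 T (h ▸ hR.1.1)

theorem exists_half {hR : R1Stmt} (P : AlgS hR) : ∃ S : AlgS hR, (2 : ℤ) • S = P := by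
  obtain ⟨S, hS⟩ := hR.1.2.2.2.2.2 P.1
  exact ⟨⟨S, hR.1.2.2.2.2.1 S (hS ▸ P.2)⟩, Subtype.ext (by rw [coe_two]; exact hS)⟩

/-! ### The quadratic field -/

theorem cj_om (q : ℕ) : cj (om q) = 1 - om q := by
  simp only [cj_apply, om, map_div₀, map_add, map_one, map_mul, Complex.conj_I,
    Complex.conj_ofReal, map_ofNat]
  ring

theorem om_or (q : ℕ) (σ : G) : σ (om q) = om q ∨ σ (om q) = 1 - om q := by
  have h := congrArg σ (om_sq' q)
  simp only [map_pow, map_sub, map_mul, map_ofNat, map_one, map_neg, map_natCast] at h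
  rw [← om_sq' q] at h
  rcases sq_eq_sq_iff_eq_or_eq_neg.1 h with e | e
  · left; linear_combination e / 2
  · right; linear_combination e / 2

theorem mul_ap (σ τ : G) (x : ℂ) : (σ * τ) x = σ (τ x) := rfl

theorem not_GK {q : ℕ} {σ : G} (h : σ (om q) ≠ om q) : (σ * cj) (om q) = om q := by
  rw [mul_ap, cj_om, map_sub, map_one, (om_or q σ).resolve_left h]; ring

theorem cj_not {q : ℕ} (hq : q ≠ 0) : cj (om q) ≠ om q := by
  intro h
  have h1 := congrArg Complex.im h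
  have h2 := om_im hq
  rw [cj_apply, Complex.conj_im] at h1
  linarith

theorem GK_inv {q : ℕ} {σ : G} (h : σ (om q) = om q) : σ⁻¹ (om q) = om q := by
  have : σ⁻¹ (σ (om q)) = om q := by rw [← mul_ap, inv_mul_cancel]; rfl
  rwa [h] at this

theorem GK_sq (q : ℕ) (σ : G) : (σ * σ) (om q) = om q := by
  rw [mul_ap]
  rcases om_or q σ with h | h
  · rw [h, h]
  · rw [h, map_sub, map_one, h]; ring

theorem GK_pow {q : ℕ} {σ : G} (h : σ (om q) = om q) (n : ℕ) : (σ ^ n) (om q) = om q := by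
  induction n with
  | zero => rfl
  | succ n ih => rw [pow_succ, mul_ap, h, ih]

section HSl

variable {q : ℕ} {k : ℕ → ℕ} {a : ℕ → ℤ} {S : Finset ℕ → (A k → ℤ) →+ Pt} {ρ : G → A k}
  {ν : A k} {j : ℕ → A k}

theorem rho_one (h : HS q k a S ρ ν j) : ρ 1 = 0 := by
  have := h.rho_mul 1 1 rfl rfl
  simpa using this

theorem rho_pow (h : HS q k a S ρ ν j) {σ : G} (hσ : σ (om q) = om q) (n : ℕ) :
    ρ (σ ^ n) = n • ρ σ := by
  induction n with
  | zero => simpa using rho_one h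
  | succ n ih => rw [pow_succ, h.rho_mul _ _ (GK_pow hσ n) hσ, ih, succ_nsmul]

theorem rho_conj (h : HS q k a S ρ ν j) {σ : G} (hσ : σ (om q) = om q) (h0 : ρ σ = 0) (g : G) :
    (g⁻¹ * σ * g) (om q) = om q ∧ ρ (g⁻¹ * σ * g) = 0 := by
  have key : ∀ g : G, g (om q) = om q → (g⁻¹ * σ * g) (om q) = om q ∧ ρ (g⁻¹ * σ * g) = 0 := by
    intro g hg
    have h1 : (g⁻¹ * σ) (om q) = om q := by rw [mul_ap, hσ, GK_inv hg]
    refine ⟨by rw [mul_ap, hg, h1], ?_⟩
    rw [h.rho_mul _ _ h1 hg, h.rho_mul _ _ (GK_inv hg) hσ, h0, add_zero,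
      ← h.rho_mul _ _ (GK_inv hg) hg, inv_mul_cancel, rho_one h]
  by_cases hg : g (om q) = om q
  · exact key g hg
  · obtain ⟨h1, h2⟩ := key _ (not_GK hg)
    have ci : cj⁻¹ = cj := inv_eq_of_mul_eq_one_right cj_mul_cj
    have e : g⁻¹ * σ * g = cj * ((g * cj)⁻¹ * σ * (g * cj)) * cj := by
      rw [mul_inv_rev, ci]
      simp only [← mul_assoc, cj_mul_cj, one_mul]
      rw [mul_assoc _ cj cj, cj_mul_cj, mul_one]
    rw [e, h.rho_cj _ h1, h2, neg_zero]
    refine ⟨?_, rfl⟩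
    rw [mul_ap, mul_ap, cj_om, map_sub, map_one, h1, map_sub, map_one, cj_om]; ring

theorem kdep_refl {c : Finset ℕ} {Φ : A k → ℤ} (h : K11.Dep c Φ) (x : A k) :
    K11.Dep c fun g => Φ (x - g) :=
  fun g g' hg => h _ _ fun l hl => by simp [hg l hl]

theorem kdep_sub {c : Finset ℕ} {Φ : A k → ℤ} (h : K11.Dep c Φ) (x : A k) :
    K11.Dep c fun g => Φ (g - x) :=
  fun g g' hg => h _ _ fun l hl => by simp [hg l hl]

theorem act_not (h : HS q k a S ρ ν j) {c : Finset ℕ} {Φ : A k → ℤ} (hc : Cd k c)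
    (hΦ : K11.Dep c Φ) {σ : G} (hσ : σ (om q) ≠ om q) :
    σ • S c Φ = -S c fun g => Φ (ν + ρ (σ * cj) - g) := by
  have e : σ = σ * cj * cj := by rw [mul_assoc, cj_mul_cj, mul_one]
  conv_lhs => rw [e]
  rw [mul_smul, h.conj c Φ hc hΦ, smul_neg, h.act c _ _ hc (kdep_refl hΦ ν) (not_GK hσ)]
  congr 2
  funext g
  congr 1
  abel

theorem exists_om (hR : R1Stmt) (h : HS q k a S ρ ν j) {N : ℕ} (hN : ∀ l, k l ≤ N) :
    ∃ ω : G, ω (om q) = om q ∧ ρ ω = 0 ∧ ∀ T : Pt, 2 • T = 0 → ω • T = T → T = 0 := by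
  obtain ⟨e₁, e₂, e₃, hf, h12, h13, h23, -, -, -, ⟨ω, w1, w2, w3⟩, -⟩ := hR.2.2.2.2.1
  have key : ∀ n : ℕ, (ω ^ (3 * n + 1)) e₁ = e₂ ∧ (ω ^ (3 * n + 1)) e₂ = e₃ ∧
      (ω ^ (3 * n + 1)) e₃ = e₁ := by
    intro n
    induction n with
    | zero => simpa using ⟨w1, w2, w3⟩
    | succ n ih =>
      have e : ω ^ (3 * (n + 1) + 1) = ω ^ (3 * n + 1) * (ω * ω * ω) := by
        rw [← pow_three', ← pow_add]; congr 1
      rw [e]
      simp only [mul_ap, w1, w2, w3]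
      exact ih
  obtain ⟨n, hn⟩ : ∃ n, 2 * (2 ^ N * (2 * 2 ^ N)) = 3 * n + 1 := by
    have : 4 ^ (N + 1) % 3 = 1 := by rw [Nat.pow_mod]; simp
    refine ⟨4 ^ (N + 1) / 3, ?_⟩
    have e : 2 * (2 ^ N * (2 * 2 ^ N)) = 4 ^ (N + 1) := by
      rw [show (4 : ℕ) = 2 * 2 from rfl, mul_pow]; ring
    omega
  have e : ω ^ (3 * n + 1) = (ω * ω) ^ (2 ^ N * (2 * 2 ^ N)) := by
    rw [← hn, pow_mul, pow_two]
  refine ⟨ω ^ (3 * n + 1), e ▸ GK_pow (GK_sq q ω) _, ?_, fun T hT hω => ?_⟩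
  · rw [e, rho_pow h (GK_sq q ω)]
    funext l
    obtain ⟨i, hi⟩ := Nat.exists_eq_add_of_le (hN l)
    have z : ((2 ^ k l : ℕ) : ZMod (2 ^ k l)) = 0 := ZMod.natCast_self _
    rw [Pi.smul_apply, nsmul_eq_mul, hi, pow_add, mul_assoc, Nat.cast_mul, z]
    simp
  · rcases (hR.2.2.2.1 T).1 hT with h0 | ⟨-, h0⟩
    · exact h0
    · exfalso
      have hx := xc_smul (ω ^ (3 * n + 1)) T
      rw [hω] at hx
      obtain ⟨k1, k2, k3⟩ := key n
      rw [hf, mul_eq_zero, mul_eq_zero, sub_eq_zero, sub_eq_zero, sub_eq_zero] at h0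
      rcases h0 with (h0 | h0) | h0 <;> rw [h0] at hx
      · exact h12 (hx.trans k1)
      · exact h23 (hx.trans k2)
      · exact h13 (hx.trans k3).symm

end HSl

/-! ### The genus character -/

/-- The sign of a class modulo a power of two. -/
def sg {N : ℕ} (x : ZMod N) : ℤ := (-1) ^ x.val

theorem sg_add {i : ℕ} (hi : i ≠ 0) (x y : ZMod (2 ^ i)) : sg (x + y) = sg x * sg y := by
  unfold sg
  rw [← pow_add, ZMod.val_add, neg_one_pow_eq_pow_mod_two, neg_one_pow_eq_pow_mod_two (_ + _),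
    Nat.mod_mod_of_dvd _ (dvd_pow_self 2 hi)]

theorem sg_sq {N : ℕ} (x : ZMod N) : sg x * sg x = 1 := by
  unfold sg
  rw [← pow_add, ← two_mul, pow_mul]; simp

theorem sg_or {N : ℕ} (x : ZMod N) : sg x = 1 ∨ sg x = -1 := neg_one_pow_eq_or ℤ _

theorem sg_sub {i : ℕ} (hi : i ≠ 0) (x y : ZMod (2 ^ i)) : sg (x - y) = sg x * sg y := by
  have h := sg_add hi (x - y) y
  rw [sub_add_cancel] at h
  rw [h, mul_assoc, sg_sq, mul_one]

theorem sg_eq_one {N : ℕ} (x : ZMod N) : sg x = 1 ↔ Even x.val :=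
  neg_one_pow_eq_one_iff_even (by norm_num)

/-- The quadratic character attached to the primes in `D`. -/
def chi {k : ℕ → ℕ} (D : Finset ℕ) (g : A k) : ℤ := ∏ l ∈ D, sg (g l)

theorem chi_sub {k : ℕ → ℕ} {D : Finset ℕ} (hD : Cd k D) (g g' : A k) :
    chi D (g - g') = chi D g * chi D g' := by
  unfold chi
  rw [← Finset.prod_mul_distrib]
  exact Finset.prod_congr rfl fun l hl => sg_sub (hD l hl) _ _

theorem chi_or {k : ℕ → ℕ} (D : Finset ℕ) (g : A k) : chi D g = 1 ∨ chi D g = -1 := by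
  unfold chi
  induction D using Finset.induction_on with
  | empty => simp
  | insert l D hl ih =>
    rw [Finset.prod_insert hl]
    rcases ih with h | h <;> rcases sg_or (g l) with h' | h' <;> simp [h, h']

theorem pst_mod {l : ℕ} (hl : l % 2 = 1) : GF.pst l % 4 = 1 ∧ (GF.pst l).natAbs = l := by
  unfold GF.pst
  rcases Nat.even_or_odd (l / 2) with h | h
  · rw [h.neg_one_pow]
    obtain ⟨c, hc⟩ := h
    constructor <;> omega
  · rw [h.neg_one_pow]
    obtain ⟨c, hc⟩ := h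
    constructor <;> omega

theorem fam_odd {d : ℤ} (hd : Fam d) {l : ℕ} (hl : l.Prime) (h : (l : ℤ) ∣ d) : l ≠ 2 := by
  rintro rfl
  have := hd.m4
  omega

theorem mem_D {d : ℤ} (hd : Fam d) {l : ℕ} :
    l ∈ d.natAbs.primeFactors ↔ l.Prime ∧ (l : ℤ) ∣ d := by
  rw [Nat.mem_primeFactors, Int.natCast_dvd]
  have := hd.sf.ne_zero
  simp [this]

theorem prod_pst {d : ℤ} (hd : Fam d) : ∏ l ∈ d.natAbs.primeFactors, GF.pst l = d := by
  have h1 : ∀ D : Finset ℕ, (∀ l ∈ D, l % 2 = 1) →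
      (∏ l ∈ D, GF.pst l) % 4 = 1 ∧ (∏ l ∈ D, GF.pst l).natAbs = ∏ l ∈ D, l := by
    intro D
    induction D using Finset.induction_on with
    | empty => simp
    | insert l D hl ih =>
      intro h
      obtain ⟨i1, i2⟩ := ih fun x hx => h x (Finset.mem_insert_of_mem hx)
      obtain ⟨p1, p2⟩ := pst_mod (h l (Finset.mem_insert_self _ _))
      rw [Finset.prod_insert hl, Finset.prod_insert hl, Int.mul_emod, i1, p1, Int.natAbs_mul,
        i2, p2]
      simp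
  obtain ⟨h2, h3⟩ := h1 d.natAbs.primeFactors fun l hl => by
    obtain ⟨p1, p2⟩ := (mem_D hd).1 hl
    exact p1.eq_two_or_odd.resolve_left (fam_odd hd p1 p2)
  rw [Nat.prod_primeFactors_of_squarefree (Int.squarefree_natAbs.2 hd.sf)] at h3
  have := hd.m4
  omega

theorem chi_rho {q : ℕ} {k : ℕ → ℕ} {a : ℕ → ℤ} {S : Finset ℕ → (A k → ℤ) →+ Pt} {ρ : G → A k}
    {ν : A k} {j : ℕ → A k} (h : HS q k a S ρ ν j) {σ : G} (hσ : σ (om q) = om q) {d : ℤ}
    (hd : Fam d) (hD : Cd k d.natAbs.primeFactors) {s : ℂ} (hs : s ^ 2 = d) :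
    σ s = chi d.natAbs.primeFactors (ρ σ) * s := by
  have h1 : ∀ D : Finset ℕ, Cd k D → ∃ t : ℂ, t ^ 2 = (∏ l ∈ D, GF.pst l : ℤ) ∧
      σ t = chi D (ρ σ) * t := by
    intro D
    induction D using Finset.induction_on with
    | empty => exact fun _ => ⟨1, by simp, by simp [chi]⟩
    | insert l D hl ih =>
      intro hc
      obtain ⟨t, t1, t2⟩ := ih fun x hx => hc x (Finset.mem_insert_of_mem hx)
      obtain ⟨u, hu⟩ := IsAlgClosed.exists_pow_nat_eq (GF.pst l : ℂ) two_pos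
      have g1 := h.gen σ l u hσ (hc l (Finset.mem_insert_self _ _)) hu
      have g2 : σ u = sg (ρ σ l) * u := by
        have : σ u ^ 2 = u ^ 2 := by rw [← map_pow, hu, map_intCast]
        rcases sg_or (ρ σ l) with e | e
        · rw [e, g1.2 ((sg_eq_one _).1 e)]; simp
        · rcases sq_eq_sq_iff_eq_or_eq_neg.1 this with e' | e'
          · rw [(sg_eq_one _).2 (g1.1 e')] at e
            omega
          · rw [e, e']; simp
      refine ⟨u * t, ?_, ?_⟩
      · rw [mul_pow, hu, t1, Finset.prod_insert hl]; push_cast; ring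
      · rw [map_mul, g2, t2, chi, chi, Finset.prod_insert hl]; push_cast; ring
  obtain ⟨t, t1, t2⟩ := h1 _ hD
  rw [prod_pst hd, ← hs] at t1
  rcases sq_eq_sq_iff_eq_or_eq_neg.1 t1 with e | e
  · rwa [e] at t2
  · rw [e, map_neg] at t2
    linear_combination -t2

theorem chi_nu {q : ℕ} {k : ℕ → ℕ} {a : ℕ → ℤ} {S : Finset ℕ → (A k → ℤ) →+ Pt} {ρ : G → A k}
    {ν : A k} {j : ℕ → A k} (h : HS q k a S ρ ν j) {d : ℤ}
    (hd : Fam d) (hD : Cd k d.natAbs.primeFactors) :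
    chi d.natAbs.primeFactors ν = jacobiSym 11 d.natAbs := by
  have h1 : ∀ D : Finset ℕ, Cd k D → (∀ l ∈ D, l.Prime ∧ l ≠ 11) →
      chi D ν = jacobiSym 11 (∏ l ∈ D, l) := by
    intro D
    induction D using Finset.induction_on with
    | empty => simp [chi]
    | insert l D hl ih =>
      intro hc hp
      have i1 := ih (fun x hx => hc x (Finset.mem_insert_of_mem hx))
        fun x hx => hp x (Finset.mem_insert_of_mem hx)
      obtain ⟨p1, p2⟩ := hp l (Finset.mem_insert_self _ _)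
      rw [Finset.prod_insert hl, jacobiSym.mul_right' _ p1.ne_zero (Finset.prod_ne_zero_iff.2
        fun x hx => (hp x (Finset.mem_insert_of_mem hx)).1.ne_zero), ← i1, chi, chi,
        Finset.prod_insert hl]
      congr 1
      have g1 := h.nu l (hc l (Finset.mem_insert_self _ _))
      rw [← sg_eq_one] at g1
      have g2 : jacobiSym 11 l = 1 ∨ jacobiSym 11 l = -1 := by
        apply jacobiSym.eq_one_or_neg_one
        have : Nat.Coprime 11 l := (Nat.coprime_primes (by norm_num) p1).2 (Ne.symm p2)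
        exact (Int.gcd_natCast_natCast 11 l).trans this
      rcases sg_or (ν l) with e | e <;> rcases g2 with e' | e' <;> simp_all
  have := h1 _ hD fun l hl => by
    obtain ⟨p1, p2⟩ := (mem_D hd).1 hl
    exact ⟨p1, fun e => hd.n11 (by simpa [e] using p2)⟩
  rwa [Nat.prod_primeFactors_of_squarefree (Int.squarefree_natAbs.2 hd.sf)] at this

end Pool.Agent.Lib.MP_d6ddbd_nt.K11.KK
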