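import Pool.Agent.Lib.MP_d6ddbd_nt.K11.Stmt
import Pool.Agent.Lib.MP_d6ddbd_nt.Gal
import Pool.Agent.Lib.MP_d6ddbd_nt.GF.Cheb

/-!
The density theorem of Frobenius for places of `ℂ`, finite orbits, fixed fields and quadratic
characters.
-/

set_option autoImplicit false

open NumberField IsDedekindDomain Polynomial Filter
open Pool.Agent.Lib.MP_9177b7_ag.CM (hyp)
open Pool.Agent.Stark (Pr og og_nonneg og_pos_iff)
open Pool.Agent.Shared.FrobeniusDensity (eventually_notMem)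

noncomputable section

namespace Pool.Agent.Lib.MP_d6ddbd_nt.K11

namespace V4

theorem res {K : Type} [Field K] [NumberField K] [IsGalois ℚ K] (j : K →+* ℂ) (σ : G) :
    ∃ σ₀ : K ≃ₐ[ℚ] K, ∀ y, j (σ₀ y) = σ (j y) := by
  let _inst := j.toAlgebra
  have : IsScalarTower ℚ K ℂ := IsScalarTower.of_algebraMap_eq' (Subsingleton.elim _ _)
  let σ' : ℂ ≃ₐ[ℚ] ℂ := { σ with commutes' := fun q => by simp }
  exact ⟨σ'.restrictNormal K, fun y => AlgEquiv.restrictNormal_commutes σ' K y⟩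

theorem res_pow {K : Type} [Field K] [NumberField K] (j : K →+* ℂ) {a : K ≃ₐ[ℚ] K} {b : G}
    (h : ∀ y, j (a y) = b (j y)) (k : ℕ) (y : K) : j ((a ^ k) y) = (b ^ k) (j y) := by
  induction k with
  | zero => rfl
  | succ k ih =>
    rw [pow_succ', pow_succ', AlgEquiv.mul_apply, h, ih]; rfl

theorem sep (K : Type) [Field K] [NumberField K] : ∀ᶠ p : ℕ in atTop, ∀ g g' : K ≃ₐ[ℚ] K,
    p.Prime → ∀ P : Ideal (𝓞 K), P.IsPrime → (p : 𝓞 K) ∈ P → (∀ x, g • x - g' • x ∈ P) →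
      g = g' := by
  rw [eventually_all]
  intro g
  rw [eventually_all]
  intro g'
  by_cases hg : g = g'
  · exact Eventually.of_forall fun _ _ _ _ _ _ => hg
  obtain ⟨x, hx⟩ : ∃ x : 𝓞 K, g • x - g' • x ≠ 0 := by
    by_contra h
    push Not at h
    refine hg (AlgEquiv.ext fun y => ?_)
    exact LinearMap.congr_fun ((integralBasis K).ext (f₁ := g.toLinearMap) (f₂ := g'.toLinearMap)
      fun i => by
        rw [integralBasis_apply]
        exact congrArg (fun z : 𝓞 K => (z : K)) (sub_eq_zero.1 (h _))) y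
  filter_upwards [eventually_notMem hx] with p hp hpp P hP h1 h2
  exact absurd (h2 x) (hp hpp P hP h1)

theorem dens (hV1 : V1Stmt) (J : Finset ℂ) (σ : G) (N : ℕ) (ha : ∀ x ∈ J, IsAlgebraic ℚ x) :
    ∃ (l : ℕ) (O : ValuationSubring ℂ) (φ : G) (a b : ℕ), l.Prime ∧ N < l ∧ Ov O l ∧ Frob O l φ ∧
      ∀ n : ℕ, ∀ x ∈ J, (φ ^ n) x = (σ ^ (a * n)) x ∧ (σ ^ n) x = (φ ^ (b * n)) x := by
  obtain ⟨-, hb, -, hn, hf⟩ := hV1
  obtain ⟨K, _, _, _, j, hj⟩ := MP_9177b7_ag.CM.Frob.exists_field J J.finite_toSet ha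
  obtain ⟨σ₀, hσ₀⟩ := res j σ
  obtain ⟨B, hB⟩ := eventually_atTop.1 (sep K)
  obtain ⟨l, φ₀, hl, hlN, ⟨Q, hQ, hlQ, hφ₀⟩, hz⟩ :=
    GF.exists_frob_gen K σ₀ (max N B).factorial (Nat.factorial_ne_zero _)
  rw [hl.dvd_factorial, not_le, max_lt_iff] at hlN
  have hl0 : (l : 𝓞 K) ≠ 0 := Nat.cast_ne_zero.2 hl.ne_zero
  let 𝔭 : Pr K := ⟨Q, hQ, fun h => hl0 (by simpa [h] using hlQ)⟩
  obtain ⟨O, hO⟩ := hb K j 𝔭
  have key : ∀ x : 𝓞 K, j x ∈ O.nonunits ↔ x ∈ Q := fun x => by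
    by_cases hx : x = 0
    · simp [hx]
    · rw [hn K j O 𝔭 hO _ (by simpa using hx), og_pos_iff 𝔭 hx]
  have hOv : Ov O l := by simpa [Ov] using (key l).2 hlQ
  obtain ⟨φ, hφ⟩ := hf l O hl hOv
  obtain ⟨φ₁, hφ₁⟩ := res j φ
  obtain rfl : φ₁ = φ₀ := hB l hlN.2.le _ _ hl Q hQ hlQ fun x => by
    have h1 : j x ∈ O := by
      by_cases hx : x = 0
      · simp [hx]
      · exact (hO _ (by simpa using hx)).2 (og_nonneg 𝔭 x)
    have h2 := (hφ (j x) ((Algebra.IsAlgebraic.isAlgebraic (R := ℚ) (x : K)).algHom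
      j.toRatAlgHom) h1).2
    rw [← hφ₁, ← map_pow, ← map_sub] at h2
    have h3 : φ₁ • x - x ^ l ∈ Q := (key _).1 h2
    simpa using Q.sub_mem h3 (hφ₀ x)
  obtain ⟨a, ha'⟩ := (Submonoid.mem_powers_iff _ _).1
    (mem_powers_iff_mem_zpowers.2 (hz ▸ Subgroup.mem_zpowers φ₁ : φ₁ ∈ Subgroup.zpowers σ₀))
  obtain ⟨b, hb'⟩ := (Submonoid.mem_powers_iff _ _).1
    (mem_powers_iff_mem_zpowers.2 (hz ▸ Subgroup.mem_zpowers σ₀ : σ₀ ∈ Subgroup.zpowers φ₁))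
  refine ⟨l, O, φ, a, b, hl, hlN.1, hOv, hφ, fun n x hx => ?_⟩
  obtain ⟨z, rfl⟩ := hj x hx
  constructor
  · rw [← res_pow j hφ₁, ← res_pow j hσ₀, pow_mul, ha']
  · rw [← res_pow j hφ₁, ← res_pow j hσ₀, pow_mul, hb']

theorem shift {K : Type} [Field K] [Algebra K ℂ] [Countable K] {x : ℂ} (h : Transcendental K x)
    (c : K) : ∃ σ : G, (∀ k : K, σ (algebraMap K ℂ k) = algebraMap K ℂ k) ∧
      σ x = x + algebraMap K ℂ c := by
  have t2 : Transcendental K (x + algebraMap K ℂ c) := fun ha =>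
    h (by simpa using ha.sub (isAlgebraic_algebraMap c))
  have := countable_poly K
  obtain ⟨σ, hσ⟩ := hyp.ext _ (aeval x : K[X] →ₐ[K] ℂ).toRingHom
    (aeval (x + algebraMap K ℂ c)).toRingHom
    (transcendental_iff_injective.1 h) (transcendental_iff_injective.1 t2)
  exact ⟨σ, fun k => by simpa using hσ (C k), by simpa using hσ X⟩

theorem alg (x : ℂ) (h : (Set.range fun σ : G => σ x).Finite) : IsAlgebraic ℚ x := by
  by_contra ht
  refine Set.infinite_of_injective_forall_mem (f := fun c : ℚ => x + algebraMap ℚ ℂ c)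
    (fun a b e => (algebraMap ℚ ℂ).injective (add_left_cancel e)) (fun c => ?_) h
  obtain ⟨σ, -, hσ⟩ := shift ht c
  exact ⟨σ, hσ⟩

theorem fix (F : Type) [Field F] [NumberField F] (e : F →+* ℂ) (x : ℂ)
    (h : ∀ σ : G, (∀ y, σ (e y) = e y) → σ x = x) : ∃ y, e y = x := by
  let _inst := e.toAlgebra
  have : Countable F := Finsupp.Countable.of_moduleFinite (R := ℚ)
  by_cases hy : IsIntegral F x
  · have h1 : ((minpoly F x).aroots ℂ).toFinset ⊆ {x} := fun z hz => by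
      obtain ⟨σ, h2, rfl⟩ := orb hy (mem_aroots.1 (Multiset.mem_toFinset.1 hz)).2
      simp [h σ h2]
    have h2 := Finset.card_le_card h1
    rw [card_roots hy, Finset.card_singleton] at h2
    exact minpoly.natDegree_eq_one_iff.1 (le_antisymm h2 (minpoly.natDegree_pos hy))
  · obtain ⟨σ, h1, h2⟩ := shift (K := F) (fun ha => hy ha.isIntegral) 1
    simp [h σ h1] at h2

theorem conj (F : Type) [Field F] [NumberField F] (e e' : F →+* ℂ) :
    ∃ σ : G, ∀ y, σ (e y) = e' y := by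
  have : Countable F := Finsupp.Countable.of_moduleFinite (R := ℚ)
  exact hyp.ext F e e' e.injective e'.injective

theorem quad (F : Type) [Field F] [NumberField F] (e : F →+* ℂ) (χ : G → ZMod 2) (J : Finset ℂ)
    (ha : ∀ x ∈ J, IsAlgebraic ℚ x)
    (hm : ∀ σ τ : G, (∀ y, σ (e y) = e y) → (∀ y, τ (e y) = e y) → χ (σ * τ) = χ σ + χ τ)
    (hJ : ∀ σ : G, (∀ y, σ (e y) = e y) → (∀ x ∈ J, σ x = x) → χ σ = 0) :
    ∃ (a : F) (s : ℂ), a ≠ 0 ∧ s ^ 2 = e a ∧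
      ∀ σ : G, (∀ y, σ (e y) = e y) → (σ s = s ↔ χ σ = 0) := by
  by_cases h0 : ∀ σ : G, (∀ y, σ (e y) = e y) → χ σ = 0
  · exact ⟨1, 1, one_ne_zero, by simp, fun σ hσ => by simp [h0 σ hσ]⟩
  push Not at h0
  obtain ⟨g, hg, hg1⟩ := h0
  have two : ∀ a b : ZMod 2, a ≠ 0 → b ≠ 0 → a + b = 0 := by decide
  have mul : ∀ σ τ : G, (∀ y, σ (e y) = e y) → (∀ y, τ (e y) = e y) →
      ∀ y, (σ * τ) (e y) = e y := fun σ τ h1 h2 y => by
    rw [RingAut.mul_apply, h2, h1]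
  have can : ∀ (σ : G) (z : ℂ), σ (σ⁻¹ z) = z := fun σ z => σ.apply_symm_apply z
  have inv : ∀ σ : G, (∀ y, σ (e y) = e y) → ∀ y, σ⁻¹ (e y) = e y := fun σ h y =>
    σ.injective (by rw [can, h])
  have χ1 : χ 1 = 0 := hJ 1 (fun _ => rfl) fun _ _ => rfl
  have χi : ∀ σ : G, (∀ y, σ (e y) = e y) → χ σ⁻¹ = χ σ := fun σ h => by
    have h1 := hm σ σ⁻¹ h (inv σ h)
    rw [mul_inv_cancel, χ1] at h1
    revert h1
    generalize χ σ = a
    generalize χ σ⁻¹ = b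
    revert a b
    decide
  obtain ⟨K, _, _, _, j, hj⟩ := MP_9177b7_ag.CM.Frob.exists_field J J.finite_toSet ha
  let Γ : Subgroup (K ≃ₐ[ℚ] K) :=
    { carrier := {τ | ∃ σ : G, (∀ y, σ (e y) = e y) ∧ χ σ = 0 ∧ ∀ z, j (τ z) = σ (j z)}
      one_mem' := ⟨1, fun _ => rfl, χ1, fun _ => rfl⟩
      mul_mem' := by
        rintro a b ⟨σ, h1, h2, h3⟩ ⟨τ, h4, h5, h6⟩
        exact ⟨σ * τ, mul σ τ h1 h4, by rw [hm σ τ h1 h4, h2, h5, add_zero], fun z => by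
          rw [AlgEquiv.mul_apply, h3, h6]; rfl⟩
      inv_mem' := by
        rintro a ⟨σ, h1, h2, h3⟩
        exact ⟨σ⁻¹, inv σ h1, by rw [χi σ h1, h2], fun z => σ.injective (by
          rw [can, ← h3]; exact congrArg j (a.apply_symm_apply z))⟩ }
  obtain ⟨g₀, hg₀⟩ := res j g
  have hn : g₀ ∉ Γ := by
    rintro ⟨σ, h1, h2, h3⟩
    have h4 := hJ (g⁻¹ * σ) (mul _ _ (inv g hg) h1) fun x hx => by
      obtain ⟨z, rfl⟩ := hj x hx
      exact g.injective (by rw [RingAut.mul_apply, can, ← h3, hg₀])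
    rw [hm _ _ (inv g hg) h1, χi g hg, h2, add_zero] at h4
    exact hg1 h4
  rw [← IntermediateField.fixingSubgroup_fixedField Γ,
    IntermediateField.mem_fixingSubgroup_iff] at hn
  push Not at hn
  obtain ⟨y, hy, hgy⟩ := hn
  have f0 : ∀ σ : G, (∀ y, σ (e y) = e y) → χ σ = 0 → σ (j y) = j y := fun σ h1 h2 => by
    obtain ⟨τ, hτ⟩ := res j σ
    rw [← hτ, (IntermediateField.mem_fixedField_iff Γ y).1 hy τ ⟨σ, h1, h2, hτ⟩]
  have s0 : j y - g (j y) ≠ 0 := fun h => hgy (j.injective (by rw [hg₀, ← sub_eq_zero.1 h]))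
  have f1 : ∀ σ : G, (∀ y, σ (e y) = e y) → χ σ = 0 → σ (j y - g (j y)) = j y - g (j y) :=
    fun σ h1 h2 => by
      have h3 := f0 (g⁻¹ * (σ * g)) (mul _ _ (inv g hg) (mul _ _ h1 hg)) (by
        rw [hm _ _ (inv g hg) (mul _ _ h1 hg), hm _ _ h1 hg, χi g hg, h2, zero_add,
          two _ _ hg1 hg1])
      have h4 := congrArg g h3
      rw [RingAut.mul_apply, can, RingAut.mul_apply] at h4
      rw [map_sub, f0 σ h1 h2, h4]
  have f2 : ∀ σ : G, (∀ y, σ (e y) = e y) → χ σ ≠ 0 → σ (j y - g (j y)) = -(j y - g (j y)) :=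
    fun σ h1 h2 => by
      have h3 := f0 (σ * g) (mul _ _ h1 hg) (by rw [hm _ _ h1 hg, two _ _ h2 hg1])
      have h4 := congrArg g (f0 (g⁻¹ * σ) (mul _ _ (inv g hg) h1) (by
        rw [hm _ _ (inv g hg) h1, χi g hg, two _ _ hg1 h2]))
      rw [RingAut.mul_apply, can] at h4
      rw [RingAut.mul_apply] at h3
      rw [map_sub, h3, h4, neg_sub]
  obtain ⟨a, ha'⟩ := fix F e ((j y - g (j y)) ^ 2) fun σ hσ => by
    rw [map_pow]
    by_cases h : χ σ = 0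
    · rw [f1 σ hσ h]
    · rw [f2 σ hσ h, neg_sq]
  refine ⟨a, _, fun h => pow_ne_zero 2 s0 (by rw [← ha', h, map_zero]), ha'.symm,
    fun σ hσ => ⟨fun h => by_contra fun h' => s0 ?_, f1 σ hσ⟩⟩
  rw [f2 σ hσ h'] at h
  linear_combination -h / 2

end V4

theorem v4_thm (hV1 : V1Stmt) : V4Stmt :=
  ⟨fun J σ N h => V4.dens hV1 J σ N h, V4.alg, V4.fix, V4.conj, V4.quad⟩

end Pool.Agent.Lib.MP_d6ddbd_nt.K11
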