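import Pool.Agent.Lib.MP_d6ddbd_nt.K11.Stmt
import Pool.Agent.Lib.MP_d6ddbd_nt.G.Comp

/-!
A two-converse theorem for the quadratic twists of `X₀(11)`: the final form.
-/

set_option autoImplicit false

open NumberField IsDedekindDomain Polynomial
open Pool.Agent.Stark (Pr LSq SqCl cl)

noncomputable section

namespace Pool.Agent.Lib.MP_d6ddbd_nt.K11

/-- The final statement. -/
def FinalStmt : Prop := ∃ A : ℤ → Option Bool, Computable A ∧
    (∀ (d : ℤ) (b : Bool), A d = some b →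
      ({P : ℚ × ℚ | (d : ℚ) * P.2 ^ 2 = P.1 ^ 3 - 4 * P.1 ^ 2 - 160 * P.1 - 1264}.Infinite ↔
        b = true)) ∧
    ∀ (L : Type) [Field L] [NumberField L] (θ : L), Module.finrank ℚ L = 3 →
      θ ^ 3 - 4 * θ ^ 2 - 160 * θ - 1264 = 0 →
      ∀ d : ℤ, Squarefree d → d % 4 = 1 → ¬ (11 : ℤ) ∣ d →
      ∀ Sel : Set (Lˣ ⧸ (powMonoidHom 2 : Lˣ →* Lˣ).range),
        Sel = QuotientGroup.mk '' {α : Lˣ | IsSquare (Algebra.norm ℚ (α : L)) ∧
          ∀ p : ℕ, p.Prime → ∃ x z : ℚ, (x : L) - d * (z : L) ^ 2 * θ ≠ 0 ∧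
            ∀ v : HeightOneSpectrum (𝓞 L), (p : 𝓞 L) ∈ v.asIdeal →
              IsSquare (algebraMap L (v.adicCompletion L)
                (α * ((x : L) - d * (z : L) ^ 2 * θ)))} →
        (Sel.ncard = 2 → A d = some true) ∧ (Sel.ncard = 1 → A d = some false)

namespace Final

/-- The cubic. -/
def ff : ℚ[X] := X ^ 3 - 4 * X ^ 2 - 160 * X - 1264

theorem ff_deg : ff.natDegree = 3 := by
  unfold ff
  compute_degree!

theorem ff_monic : ff.Monic := by
  unfold ff
  monicity!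

theorem no_root (x : ℚ) : x ^ 3 - 4 * x ^ 2 - 160 * x - 1264 ≠ 0 := fun h => by
  have h1 : IsIntegral ℤ x := ⟨X ^ 3 - 4 * X ^ 2 - 160 * X - 1264, by monicity!, by
    simpa [eval₂_sub, eval₂_mul, eval₂_pow, map_ofNat] using h⟩
  obtain ⟨n, rfl⟩ := IsIntegrallyClosed.isIntegral_iff.1 h1
  have h2 : n ^ 3 - 4 * n ^ 2 - 160 * n - 1264 = 0 := by
    simp only [eq_intCast] at h
    exact_mod_cast h
  have h3 := congrArg (Int.cast : ℤ → ZMod 3) h2
  push_cast at h3
  generalize (n : ZMod 3) = y at h3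
  revert y
  decide

theorem ff_irr : Irreducible ff := by
  refine irreducible_of_degree_le_three_of_not_isRoot (by rw [ff_deg]; decide) fun x h => ?_
  exact no_root x (by simpa [ff] using h)

instance : Fact (Irreducible ff) := ⟨ff_irr⟩

theorem exists_cub : ∃ (L : Type) (_ : Field L) (_ : NumberField L) (θ : L), Cub θ := by
  have hf := (AdjoinRoot.powerBasis ff_irr.ne_zero).finite
  have hc : CharZero (AdjoinRoot ff) := algebraRat.charZero _
  refine ⟨AdjoinRoot ff, inferInstance, ⟨⟩, AdjoinRoot.root ff, ?_, ?_⟩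
  · have := (AdjoinRoot.powerBasis ff_irr.ne_zero).finrank
    rw [AdjoinRoot.powerBasis_dim, ff_deg] at this
    convert this
  · have h : ∀ y : AdjoinRoot ff, eval₂ (AdjoinRoot.of ff) y ff =
        y ^ 3 - 4 * y ^ 2 - 160 * y - 1264 := fun y => by
      conv_lhs => arg 3; unfold ff
      simp only [eval₂_sub, eval₂_mul, eval₂_pow, eval₂_X, eval₂_ofNat]
    exact (h _).symm.trans (AdjoinRoot.eval₂_root ff)

theorem famP : PrimrecPred Fam := by
  have h1 : PrimrecPred fun d : ℤ => (d < 0 ∧ d.natAbs % 4 = 3) ∨ (0 < d ∧ d.natAbs % 4 = 1) :=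
    (G.Cp.negP.and (Primrec.eq.comp (Primrec.nat_mod.comp G.Cp.absP (Primrec.const 4))
      (Primrec.const 3))).or (G.Cp.posP.and (Primrec.eq.comp
        (Primrec.nat_mod.comp G.Cp.absP (Primrec.const 4)) (Primrec.const 1)))
  refine ((G.Cp.sqf.comp G.Cp.absP).and (h1.and
    (G.Cp.dvd (Primrec.const 11) G.Cp.absP).not)).of_eq fun d => ⟨fun h => ⟨?_, ?_, ?_⟩, fun h =>
      ⟨Int.squarefree_natAbs.2 h.sf, ?_, fun e => h.n11 (Int.natCast_dvd.2 e)⟩⟩
  · exact Int.squarefree_natAbs.1 h.1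
  · have := h.2.1
    omega
  · exact fun e => h.2.2 (Int.natCast_dvd.1 e)
  · have := h.m4
    omega

theorem card_eq {L : Type} [Field L] [NumberField L] (θ : L) (d : ℤ) :
    ((QuotientGroup.mk : Lˣ → Lˣ ⧸ (powMonoidHom 2 : Lˣ →* Lˣ).range) ''
      {α : Lˣ | IsSquare (Algebra.norm ℚ (α : L)) ∧
          ∀ p : ℕ, p.Prime → ∃ x z : ℚ, (x : L) - d * (z : L) ^ 2 * θ ≠ 0 ∧
            ∀ v : HeightOneSpectrum (𝓞 L), (p : 𝓞 L) ∈ v.asIdeal →
              IsSquare (algebraMap L (v.adicCompletion L)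
                (α * ((x : L) - d * (z : L) ^ 2 * θ)))}).ncard = selN θ d := by
  refine Nat.card_congr (Equiv.subtypeEquiv (Additive.ofMul (α := Lˣ ⧸ _)) fun c => ⟨?_, ?_⟩)
  · rintro ⟨α, hα, rfl⟩
    refine ⟨α, ⟨α.ne_zero, hα⟩, ?_⟩
    rw [cl, dif_neg α.ne_zero, Units.mk0_val]
    rfl
  · rintro ⟨α, hα, e⟩
    rw [cl, dif_neg hα.1] at e
    exact ⟨Units.mk0 α hα.1, hα.2, Additive.ofMul.injective e⟩

end Final

open Final in
theorem final_thm (hM : MainStmt) (hC : CompStmt) : FinalStmt := by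
  classical
  obtain ⟨c, hc, h⟩ := hC
  obtain ⟨L, _, _, θ, hθ⟩ := exists_cub
  have h1 : Primrec fun x : ℤ × ℕ => if Fam x.1 ∧ x.2 = 2 then some true
      else if Fam x.1 ∧ x.2 = 1 then some false else none :=
    Primrec.ite ((famP.comp Primrec.fst).and (Primrec.eq.comp Primrec.snd (Primrec.const 2)))
      (Primrec.const _) (Primrec.ite ((famP.comp Primrec.fst).and
        (Primrec.eq.comp Primrec.snd (Primrec.const 1))) (Primrec.const _) (Primrec.const _))
  refine ⟨_, h1.to_comp.comp (Computable.pair Computable.id hc), fun d b hb => ?_,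
    fun L' _ _ θ' r e d s m n Sel hS => ?_⟩
  · dsimp only [id] at hb
    split_ifs at hb with a a'
    · obtain rfl := Option.some.inj hb
      exact iff_of_true ((hM L θ hθ d a.1).1 ((h L θ hθ d a.1).symm.trans a.2)).1 rfl
    · obtain rfl := Option.some.inj hb
      exact iff_of_false ((hM L θ hθ d a'.1).2 ((h L θ hθ d a'.1).symm.trans a'.2)).1.not_infinite
        (by simp)
  · have f : Fam d := ⟨s, m, n⟩
    rw [hS, card_eq, ← h L' θ' ⟨r, e⟩ d f]
    dsimp only [id]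
    exact ⟨fun a => if_pos ⟨f, a⟩, fun a => by rw [if_neg (by omega), if_pos ⟨f, a⟩]⟩

end Pool.Agent.Lib.MP_d6ddbd_nt.K11
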