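import Pool.Agent.Lib.MP_d6ddbd_nt.K11.Comp3
import Pool.Agent.Lib.MP_215a10_lc.Dec.Check1

/-! The order of the Selmer group is computable. -/

set_option autoImplicit false

open NumberField
open Pool.Agent.Stark Pool.Agent.Sand.Check

noncomputable section

namespace Pool.Agent.Lib.MP_d6ddbd_nt.K11

namespace Comp

section

variable {α : Type} [Primcodable α]

attribute [local fun_prop] PR.zadd

@[fun_prop] theorem zsub {f g : α → ℤ} (hf : PR f) (hg : PR g) : PR fun a => f a - g a :=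
  (hf.zadd hg.neg).of_eq fun _ => (sub_eq_add_neg _ _).symm

@[fun_prop] theorem zpow {f : α → ℤ} (hf : PR f) (n : ℕ) : PR fun a => f a ^ n := by
  induction n with
  | zero => exact (PR.const 1).of_eq fun _ => (pow_zero _).symm
  | succ n ih => exact (ih.mul hf).of_eq fun _ => (pow_succ _ _).symm

@[fun_prop] theorem nabs {f : α → ℤ} (hf : PR f) : PR fun a => (f a).natAbs := prim_natAbs.comp hf

@[fun_prop] theorem ndvd {f g : α → ℕ} (hf : PR f) (hg : PR g) : PP fun a => f a ∣ g a :=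
  PP.of_iff (Primrec.eq.comp (Primrec.nat_mod.comp hg hf) (Primrec.const 0))
    fun _ => Nat.dvd_iff_mod_eq_zero.symm

@[fun_prop] theorem zdvd {f g : α → ℤ} (hf : PR f) (hg : PR g) : PP fun a => f a ∣ g a :=
  (ndvd (nabs hf) (nabs hg)).of_iff fun _ => Int.natAbs_dvd_natAbs

@[fun_prop] theorem prime {f : α → ℕ} (hf : PR f) : PP fun a => (f a).Prime :=
  ((PP.nlt (PR.const 1) hf).and (PP.all (p := fun a m => m ∣ f a → m = 1) hf.range
    (PP.imp (by fun_prop) (by fun_prop)))).of_iff fun a => by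
      simp only [Nat.prime_def_lt, List.mem_range]
      rfl

@[fun_prop] theorem evP {t : α → T3} {y : α → ℤ} (ht : PR t) (hy : PR y) :
    PR fun a => ev (t a) (y a) := by
  simp only [ev, Int.cast_id]
  fun_prop

@[fun_prop] theorem gcP {y : α → ℤ} (hy : PR y) : PR fun a => gc (y a) := by
  unfold gc
  fun_prop

@[fun_prop] theorem xyP {y : α → ℤ} (hy : PR y) : PR fun a => xy (y a) := by
  unfold xy
  fun_prop

@[fun_prop] theorem fdP {y : α → ℤ} (hy : PR y) : PR fun a => fd (y a) := by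
  unfold fd
  fun_prop

@[fun_prop] theorem nrmP {t : α → T3} (ht : PR t) : PR fun a => nrm (t a) := by
  simp only [nrm, adj]
  fun_prop

theorem famP : PP Fam := by
  have h : PP fun d : ℤ => (d ≠ 0 ∧ ∀ k ∈ List.range (d.natAbs + 1), k * k ∣ d.natAbs → k = 1) ∧
      4 ∣ d - 1 ∧ ¬ 11 ∣ d :=
    (PP.and (by fun_prop) (PP.all (by fun_prop) (PP.imp (by fun_prop) (by fun_prop)))).and
      (by fun_prop)
  refine h.of_iff fun d => ⟨fun ⟨⟨a, b⟩, c, e⟩ => ⟨Int.squarefree_natAbs.1 fun k hk =>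
    Nat.isUnit_iff.2 (b k (List.mem_range.2 (Nat.lt_succ_of_le (Nat.le_of_dvd (by omega)
      ((dvd_mul_right k k).trans hk)))) hk), by omega, e⟩, fun F => ⟨⟨F.sf.ne_zero, fun k _ hk =>
    Nat.isUnit_iff.1 (Int.squarefree_natAbs.2 F.sf k hk)⟩, by have := F.m4; omega, F.n11⟩⟩

theorem patP : PP fun w : ℤ × ℕ × ℕ => Pat w.1 w.2.1 w.2.2 := by
  unfold Pat
  fun_prop

theorem ndP : PP fun w : (ℤ × ℕ × ℕ) × T3 => Nd w.1.2.1 w.1.2.2 w.2 := by
  simp only [Nd, sh]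
  fun_prop

theorem critP : PP fun w : (ℤ × ℕ × ℕ) × T3 => Crit w.1.1 w.1.2.1 w.1.2.2 w.2 :=
  PP.all (by fun_prop) (PP.imp (by fun_prop) (PP.imp (by fun_prop) (PP.all (by fun_prop)
    (PP.imp (by fun_prop) ((PP.imp (by fun_prop) (PP.ex (by fun_prop) (by fun_prop))).and
      ((PP.imp (by fun_prop) (PP.imp (by fun_prop) (PP.ex (by fun_prop) (by fun_prop)))).and
        (PP.imp (by fun_prop) (PP.imp (by fun_prop) (PP.ex (by fun_prop) (by fun_prop))))))))))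

theorem count {p : α → ℕ → Prop} [∀ a, DecidablePred (p a)]
    (h : ComputablePred fun w : α × ℕ => p w.1 w.2) {f : α → ℕ} (hf : Computable f) :
    Computable fun a => Nat.count (p a) (f a) := by
  have h1 : Computable₂ fun (a : α) (y : ℕ × ℕ) => y.2 + bif decide (p a y.1) then 1 else 0 :=
    Primrec.nat_add.to_comp.comp (Computable.snd.comp .snd) (Computable.cond
      (h.decide.comp (Computable.pair .fst (Computable.fst.comp .snd))) (.const 1) (.const 0))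
  refine (Computable.nat_rec hf (.const 0) h1).of_eq fun a => ?_
  induction f a with
  | zero => rfl
  | succ k ih => rw [Nat.count_succ, ← ih, ← Bool.cond_decide]

end

/-- The patterns of the Selmer classes. -/
def Ok (w : ℤ × ℕ × ℕ) : Prop :=
  (Fam w.1 ∧ Pat w.1 w.2.1 w.2.2) ∧ ∃ t, Nd w.2.1 w.2.2 t ∧ Crit w.1 w.2.1 w.2.2 t

variable {L : Type} [Field L] [NumberField L] {θ ϑ : L} {n y : ℕ} {d : ℤ} {t : T3}

theorem selC_of {α β : L} (h : SelC θ d α) (h0 : β ≠ 0) (e : cl β = cl α) : SelC θ d β := by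
  obtain ⟨s, s0, rfl⟩ := exists_sq_of_cl h0 h.1 e
  refine ⟨h0, by rw [map_mul, map_pow]; exact h.2.1.mul (IsSquare.sq _), fun p hp => ?_⟩
  obtain ⟨x, z, a, b⟩ := h.2.2 p hp
  exact ⟨x, z, a, fun 𝔭 m => by rw [mul_right_comm, lsq_mul s0]; exact b 𝔭 m⟩

theorem Ctx.same (C : Ctx θ ϑ) (hT : TwoStmt) (F : Fam d) (P : Pat d n y) (N : Nd n y t) {α : L}
    (h0 : α ≠ 0) (hn : IsSquare (Algebra.norm ℚ α)) (h2 : At2 α)
    (h : ∀ 𝔮 ∉ ab L 2, Even (og 𝔮 α - pf ϑ n y 𝔮)) : cl (ev t ϑ) = cl α := by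
  obtain ⟨a, b, c, e⟩ := C.sound F P N
  have f := (hT L θ C.cub).1 _ _ a h0 c h2
  refine (cl_eq_cl a h0).2 (C.triv (mul_ne_zero a h0) (by rw [map_mul]; exact b.mul hn) f
    fun 𝔭 => ?_)
  by_cases m : 𝔭 ∈ ab L 2
  · exact (hT L θ C.cub).2.2.1 _ f 𝔭 m
  · have := h 𝔭 m
    rw [SUnitAux.og_mul _ a h0, e 𝔭 m]
    grind

theorem Ctx.ok (C : Ctx θ ϑ) (hT : TwoStmt) (hD : LocDStmt) (hL : LStmt) (F : Fam d)
    (P : Pat d n y) (N : Nd n y t) : Ok (d, n, y) ↔ Crit d n y t := by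
  refine ⟨fun ⟨_, s, a, b⟩ => ?_, fun h => ⟨⟨F, P⟩, t, N, h⟩⟩
  obtain ⟨c, e, f, g⟩ := C.sound F P a
  exact (C.crit hT hD hL F P N).1 (selC_of ((C.crit hT hD hL F P a).2 b) (C.sound F P N).1
    (C.same hT F P N c e f fun 𝔮 m => by simp [g 𝔮 m]))

theorem Ctx.comp (C : Ctx θ ϑ) (hT : TwoStmt) (hD : LocDStmt) (hL : LStmt) : ComputablePred Ok := by
  have h : PP fun w : ℤ × ℕ × ℕ => Fam w.1 ∧ Pat w.1 w.2.1 w.2.2 :=
    (famP.comp (by fun_prop)).and patP
  refine ComputablePred.computable_iff_re_compl_re'.2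
    ⟨(h.re.and (RE.ex (ndP.and critP).re)).toREPred,
      ((h.not.re.or (RE.ex (P := fun w t => Nd w.2.1 w.2.2 t ∧ ¬ Crit w.1 w.2.1 w.2.2 t)
        (ndP.and critP.not).re)).of_iff fun w => ⟨?_, fun a => ?_⟩).toREPred⟩
  · rintro (a | ⟨t, a, b⟩) c
    · exact a c.1
    · exact b ((C.ok hT hD hL c.1.1 c.1.2 a).1 c)
  · refine or_iff_not_imp_left.2 fun b => ?_
    obtain ⟨F, P⟩ := not_not.1 b
    obtain ⟨t, N⟩ := C.exist hT F P
    exact ⟨t, N, fun c => a ((C.ok hT hD hL F P N).2 c)⟩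

theorem Ctx.card (C : Ctx θ ϑ) (hT : TwoStmt) (hD : LocDStmt) (hL : LStmt) (F : Fam d) :
    Nat.card {i : ℕ // Ok (d, i.unpair)} = selN θ d := by
  refine Nat.card_congr (Equiv.ofBijective (fun i => ⟨cl (ev i.2.2.choose ϑ), _,
    (C.crit hT hD hL F i.2.1.2 i.2.2.choose_spec.1).2 i.2.2.choose_spec.2, rfl⟩)
    ⟨fun i j e => ?_, ?_⟩)
  · obtain ⟨a, -, -, b⟩ := C.sound F i.2.1.2 i.2.2.choose_spec.1
    obtain ⟨a', -, -, b'⟩ := C.sound F j.2.1.2 j.2.2.choose_spec.1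
    obtain ⟨s, s0, hs⟩ := exists_sq_of_cl a a' (congrArg Subtype.val e)
    have := C.patinj F i.2.1.2 j.2.1.2 fun 𝔮 m => by
      have c := b 𝔮 m
      rw [hs, SUnitAux.og_mul _ a' (pow_ne_zero 2 s0), SUnitAux.og_sq, b' 𝔮 m] at c
      unfold pf at c ⊢
      split_ifs at c ⊢ <;> omega
    exact Subtype.ext (Nat.pairEquiv.symm.injective (Prod.ext this.1 this.2))
  · rintro ⟨_, α, h, rfl⟩
    have W := (((hL L θ C.cub d F).1 α).1 h).1
    obtain ⟨n, y, P, e⟩ := C.patt F W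
    obtain ⟨t, N⟩ := C.exist hT F P
    have o : Ok (d, (n.pair y).unpair) := by
      rw [Nat.unpair_pair]
      exact ⟨⟨F, P⟩, t, N, (C.crit hT hD hL F P N).1
        (selC_of h (C.sound F P N).1 (C.same hT F P N W.ne W.sq W.two e))⟩
    exact ⟨⟨_, o⟩, Subtype.ext (C.same hT F o.1.2 o.2.choose_spec.1 W.ne W.sq W.two
      (by simpa using e))⟩

end Comp

open K11.Comp in
theorem comp_thm (hPr : PrStmt) (hTwo : TwoStmt) (hLocD : LocDStmt) (hL : LStmt) : CompStmt := by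
  classical
  by_cases h : ∃ (L : Type) (_ : Field L) (_ : NumberField L) (θ : L), Cub θ
  swap
  · exact ⟨fun _ => 0, Computable.const 0, fun L _ _ θ c => absurd ⟨L, _, _, θ, c⟩ h⟩
  obtain ⟨L₀, _, _, θ₀, c₀⟩ := h
  obtain ⟨ϑ₀, C₀⟩ := ctx hPr c₀
  have h1 : ComputablePred fun w : ℤ × ℕ => Ok (w.1, w.2.unpair) :=
    ⟨inferInstance, (C₀.comp hTwo hLocD hL).decide.comp
      (Computable.pair .fst (Primrec.unpair.to_comp.comp .snd))⟩
  refine ⟨_, count (p := fun d i => Ok (d, i.unpair)) h1 (f := fun d => (d.natAbs + 1) * (d.natAbs + 1))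
    (Primrec.to_comp (show PR _ by fun_prop)), fun L _ _ θ c d F => ?_⟩
  obtain ⟨ϑ, C⟩ := ctx hPr c
  rw [← C.card hTwo hLocD hL F, Nat.count_eq_card_filter_range, ← Nat.card_eq_finsetCard]
  refine Nat.card_congr (Equiv.subtypeEquivRight fun i => ?_)
  rw [Finset.mem_filter, Finset.mem_range, and_iff_right_iff_imp]
  intro o
  have a := Nat.le_of_dvd (by simpa using F.sf.ne_zero) (Int.natCast_dvd.1 o.1.2.1)
  have b := o.1.2.2.1
  have e := Nat.pair_lt_max_add_one_sq i.unpair.1 i.unpair.2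
  rw [Nat.pair_unpair, max_eq_left b.le, sq] at e
  exact e.trans_le (Nat.mul_self_le_mul_self (Nat.succ_le_succ a))

end Pool.Agent.Lib.MP_d6ddbd_nt.K11
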