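import Pool.Agent.Lib.MP_d6ddbd_nt.E11.ES

/-!
The modular parametrisation of `X₀(11)`: all the properties.
-/

set_option autoImplicit false

open UpperHalfPlane Pointwise
open Pool.Agent.Lib.MP_02f36d_nt (xc yc)
open Pool.Agent.Lib.MP_d6ddbd_nt.E11

noncomputable section

namespace Pool.Agent.Lib.MP_d6ddbd_nt.K11

namespace XH

variable {l : ℕ} {O : ValuationSubring ℂ} {φ : G} {z : ℍ}

theorem rd_frob (h : Frob O l φ) {x : ℂ} (hx : IsAlgebraic ℚ x) (hO : x ∈ O) :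
    rd O (φ x) = rd O x ^ l := by
  rw [(rd_eq (h x hx hO).1 (pow_mem hO l)).2 (h x hx hO).2, rd, rd, dif_pos hO,
    dif_pos (pow_mem hO l), ← map_pow]
  rfl

theorem yy_int (hR : R2Stmt) (hl : l.Prime) (h2 : l ≠ 2) (h11 : l ≠ 11) (hO : Ov O l)
    (hx : XX z ∈ O) : YY z ∈ O := by
  have := ((hR l O hl h2 h11 hO).2.1 _ _ (phi_spec z).1 (phi_spec z).1
    (by rwa [(phi_spec z).2.1])).1
  rwa [(phi_spec z).2.2] at this

theorem nb_int (hR : R2Stmt) (hl : l.Prime) (h2 : l ≠ 2) (h11 : l ≠ 11) (hO : Ov O l)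
    (hx : XX z ∈ O) (i : Option (Fin l)) : XX (nz l z i) ∈ O := by
  refine mem_of_prod (fun i => XX (nz l z i)) (fun T => ?_) i
  have h1 : _ ∈ O := O.nonunits_le (cong hl h2 h11 hO T 0 hx (yy_int hR hl h2 h11 hO hx))
  have h3 := MulMemClass.mul_mem (sub_mem T.2 (pow_mem hx l)) (sub_mem (pow_mem T.2 l) hx)
  simpa [hl.ne_zero] using add_mem h1 h3

theorem rel (hV : V2Stmt) (hR : RStmt) (hl : l.Prime) (h2 : l ≠ 2) (h11 : l ≠ 11) (hO : Ov O l)
    (hφ : Frob O l φ) (ha : AlgP (phi z)) (hx : XX z ∈ O) :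
    Multiset.Rel (fun P Q => P - Q ∈ E1 O) (Finset.univ.val.map fun i => phi (nz l z i))
      ((φ • phi z) ::ₘ Multiset.replicate l (φ⁻¹ • phi z)) := by
  have hy := yy_int hR.2 hl h2 h11 hO hx
  have hi := nb_int hR.2 hl h2 h11 hO hx
  have hj := fun i => yy_int hR.2 hl h2 h11 hO (hi i)
  obtain ⟨p0, p1, p2⟩ := phi_spec z
  have hb := hR.1.1.2.2.2.1 φ⁻¹ _ ha
  have e : ∀ x : ℂ, φ (φ⁻¹ x) = x := fun x => φ.apply_symm_apply x
  rw [AlgP, xc_smul, yc_smul, p1, p2] at hb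
  rw [AlgP, p1, p2] at ha
  have x1 : φ⁻¹ (XX z) ∈ O := (hV.2.1 O l φ _ hφ hl.ne_zero hb.1).1.1 (by rwa [e])
  have y1 : φ⁻¹ (YY z) ∈ O := (hV.2.1 O l φ _ hφ hl.ne_zero hb.2).1.1 (by rwa [e])
  have x2 := rd_frob hφ hb.1 x1
  have y2 := rd_frob hφ hb.2 y1
  rw [e] at x2 y2
  have := res_infinite O
  have := rs_char hl hO
  have := Fact.mk hl
  have key := multiset_eq
    ((Finset.univ.val.map fun i => phi (nz l z i)).map fun P => (rd O (xc P), rd O (yc P)))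
    (((φ • phi z) ::ₘ Multiset.replicate l (φ⁻¹ • phi z)).map fun P => (rd O (xc P), rd O (yc P)))
    fun T u => by
      obtain ⟨T, rfl⟩ := IsLocalRing.residue_surjective T
      obtain ⟨u, rfl⟩ := IsLocalRing.residue_surjective u
      have h1 := cong hl h2 h11 hO T u hx hy
      have h3 := (rs_eq (a := ∏ i, (T - ⟨_, hi i⟩ - u * ⟨_, hj i⟩))
        (b := (T - ⟨_, hx⟩ ^ l - u * ⟨_, hy⟩ ^ l) * (T ^ l - ⟨_, hx⟩ - u ^ l * ⟨_, hy⟩))).2
        (by simpa using h1)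
      simp only [map_prod, map_sub, map_mul, map_pow, ← rd_coe] at h3
      simp only [Multiset.map_map, Multiset.map_cons, Multiset.map_replicate, Multiset.prod_cons,
        Multiset.prod_replicate, Function.comp_def, xc_smul, yc_smul, (phi_spec _).2.1,
        (phi_spec _).2.2, rd_frob hφ ha.1 hx, rd_frob hφ ha.2 hy, ← rd_coe, sub_pow_char, mul_pow,
        ← x2, ← y2]
      exact h3
  refine (Multiset.rel_map.1 (Multiset.rel_eq.2 key)).mono fun P hP Q hQ k => ?_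
  obtain ⟨i, -, rfl⟩ := Multiset.mem_map.1 hP
  have hQ' : Q ≠ 0 ∧ xc Q ∈ O := by
    rcases Multiset.mem_cons.1 hQ with rfl | k
    · exact ⟨fun k => p0 ((smul_eq_zero' _ _).1 k), by
        rw [xc_smul, p1]; exact (hφ _ ha.1 hx).1⟩
    · rw [Multiset.eq_of_mem_replicate k]
      exact ⟨fun k => p0 ((smul_eq_zero' _ _).1 k), by rwa [xc_smul, p1]⟩
  obtain ⟨k1, k2⟩ := (hR.2 l O hl h2 h11 hO).2.1 _ Q (phi_spec (nz l z i)).1 hQ'.1 hQ'.2
  exact k2.2 ⟨(rd_eq (by rw [(phi_spec _).2.1]; exact hi i) hQ'.2).1 (congrArg Prod.fst k),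
    (rd_eq (by rw [(phi_spec _).2.2]; exact hj i) k1).1 (congrArg Prod.snd k)⟩

theorem rel_sum {H : AddSubgroup Pt} {s t : Multiset Pt}
    (h : Multiset.Rel (fun P Q => P - Q ∈ H) s t) : s.sum - t.sum ∈ H := by
  induction h with
  | zero => simp
  | cons h _ ih =>
    rw [Multiset.sum_cons, Multiset.sum_cons, add_sub_add_comm]
    exact add_mem h ih

theorem mem_E1 (hx : XX z ∉ O) : phi z ∈ E1 O :=
  AddSubgroup.subset_closure (show xc (phi z) ∉ O by rwa [(phi_spec z).2.1])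

theorem act_add (σ : G) (P Q : Pt) : σ • (P + Q) = σ • P + σ • Q := by
  have := smul_add σ P Q
  exact this

theorem alg_three : AlgP (3 • t0) := by
  rw [AlgP, three_spec.2.1, three_spec.2.2]
  exact ⟨by exact_mod_cast isAlgebraic_intCast (R := ℚ) (A := ℂ) 20,
    by exact_mod_cast isAlgebraic_intCast (R := ℚ) (A := ℂ) (-44)⟩

theorem es (hV : V2Stmt) (hR : RStmt) (hl : l.Prime) (h2 : l ≠ 2) (h11 : l ≠ 11) (hO : Ov O l)
    (hφ : Frob O l φ) {a : ℤ} (ha : ∀ τ, ∑ i, phi (nz l τ i) = a • phi τ) (P : Pt) (hP : AlgP P) :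
    a • P - (φ • P + l • φ⁻¹ • P) ∈ E1 O := by
  have key : ∀ P : Pt, P ≠ 0 → P ≠ t0 → AlgP P → a • P - (φ • P + l • φ⁻¹ • P) ∈ E1 O := by
    intro P h0 h1 hP
    obtain ⟨z, rfl⟩ := phi_surj h0 h1
    by_cases hx : XX z ∈ O
    · have := rel_sum (rel hV hR hl h2 h11 hO hφ hP hx)
      rwa [Multiset.sum_cons, Multiset.sum_replicate, ← Finset.sum_eq_multiset_sum, ha] at this
    · have h3 := (hR.2 l O hl h2 h11 hO).2.2.2.1 l φ
      exact sub_mem (zsmul_mem (mem_E1 hx) a) (add_mem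
        ((h3 _ hφ hl.ne_zero hP).2 (mem_E1 hx)) (nsmul_mem
        ((h3 _ hφ hl.ne_zero (hR.1.1.2.2.2.1 φ⁻¹ _ hP)).1
          (by rw [smul_inv_smul]; exact mem_E1 hx)) l))
  by_cases h0 : P = 0
  · rw [h0, zsmul_zero, (smul_eq_zero' φ 0).2 rfl, (smul_eq_zero' φ⁻¹ 0).2 rfl,
      nsmul_zero, add_zero, sub_zero]
    exact zero_mem _
  by_cases h1 : P = t0
  · have h3 := key _ three_spec.1 (fun e => by
      have := three_spec.2.1
      rw [e, t0_spec.2.1] at this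
      norm_num at this) alg_three
    have e : P = 3 • t0 + 3 • t0 := by
      rw [h1, show 3 • t0 + 3 • t0 = 5 • t0 + t0 by abel, five, zero_add]
    have := add_mem h3 h3
    rw [e, act_add, act_add, zsmul_add, nsmul_add]
    convert this using 1
    abel
  · exact key P h0 h1 hP

theorem nb (hV : V2Stmt) (hR : RStmt) (hl : l.Prime) (h2 : l ≠ 2) (h11 : l ≠ 11) (hO : Ov O l)
    (hφ : Frob O l φ) (ha : AlgP (phi z)) (i : Option (Fin l)) :
    phi (nz l z i) - φ • phi z ∈ E1 O ∨ phi (nz l z i) - φ⁻¹ • phi z ∈ E1 O := by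
  by_cases hx : XX z ∈ O
  · obtain ⟨Q, hQ, k⟩ := Multiset.exists_mem_of_rel_of_mem (rel hV hR hl h2 h11 hO hφ ha hx)
      (Multiset.mem_map.2 ⟨i, Finset.mem_univ i, rfl⟩)
    rcases Multiset.mem_cons.1 hQ with rfl | e
    · exact Or.inl k
    · exact Or.inr (Multiset.eq_of_mem_replicate e ▸ k)
  · refine Or.inl (sub_mem (mem_E1 fun k => hx ?_)
      (((hR.2 l O hl h2 h11 hO).2.2.2.1 l φ _ hφ hl.ne_zero ha).2 (mem_E1 hx)))
    obtain ⟨j, δ, k1, k2⟩ := nb_symm hl h11 z i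
    have := nb_int hR.2 hl h2 h11 hO k j
    rwa [k2, inv_XX δ k1] at this

end XH

theorem x_thm (hU : UnifStmt) (hV : VStmt) (hR : RStmt) : XStmt := by
  choose! a ha using fun l : ℕ => hecke_phi (l := l) hU
  refine ⟨Pp, a, t0, fun L M c => pp_scale, fun σ L M L' M' h _ _ => pp_conj σ h,
    fun L M => pp_fricke, five, smul_t0, fun l L M s hl h11 h hs => ?_,
    fun l O φ L M L' hl h2 h11 hO hφ h hP hn => ?_,
    fun l O φ P hl h2 h11 hO hφ => XH.es hV.2.1 hR hl h2 h11 hO hφ (ha l hl h11) P,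
    fun v O L M L' M' => pp_jc hR.2⟩
  · obtain ⟨c, z, k⟩ := lv_pr h
    rw [sum_nb hl k hs, k.pp, ← ha l hl h11]
    exact Finset.sum_congr rfl fun i _ => (k.nb hl h11 i).pp
  · obtain ⟨c, z, k⟩ := lv_pr h
    obtain ⟨i, rfl⟩ := (nb_iff hl k).1 hn
    rw [k.pp] at hP
    rw [(k.nb hl h11 i).pp, k.pp]
    exact XH.nb hV.2.1 hR hl h2 h11 hO hφ hP i

end Pool.Agent.Lib.MP_d6ddbd_nt.K11
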