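import Pool.Agent.Lib.MP_d6ddbd_nt.K11.AllX
import Pool.Agent.Lib.MP_d6ddbd_nt.K11.Comp
import Pool.Agent.Lib.MP_d6ddbd_nt.K11.Final
import Pool.Agent.Lib.MP_d6ddbd_nt.K11.X

/-!
A two-converse theorem for the quadratic twists of `X₀(11)`: everything assembled.
-/

set_option autoImplicit false

namespace Pool.Agent.Lib.MP_d6ddbd_nt.K11

theorem xAll : XStmt := x_thm unif_thm vAll rAll

theorem mainAll : MainStmt := main_of_x xAll

theorem finalAll : FinalStmt :=
  final_thm mainAll (comp_thm pr_thm (two_thm pr_thm pfAll) locdAll lAll)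

end Pool.Agent.Lib.MP_d6ddbd_nt.K11
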