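import Pool.Agent.Lib.MP_d6ddbd_nt.K11.Stmt
import Pool.Agent.Lib.MP_d6ddbd_nt.Cm

/-!
Heegner points on `X₀(11)`: class groups of orders, coordinates, and the statements of the pieces.
-/

set_option autoImplicit false

open Pointwise
open Pool.Agent.Lib.MP_9177b7_ag.CM (IsLat sp Conj jL g2 g3 bar ord_mul_ord smul_mul_left
  smul_mul_right sp_le mem_sp left_mem_sp)

noncomputable section

namespace Pool.Agent.Lib.MP_d6ddbd_nt.K11

/-- The order of conductor `c`. -/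
def Oc (q c : ℕ) : Submodule ℤ ℂ := sp 1 (c * om q)

theorem Oc_one (q : ℕ) : Oc q 1 = OK q := by simp [Oc, OK]

theorem com_sq {q : ℕ} (hq : q % 4 = 3) (c : ℕ) : ((c : ℂ) * om q) ^ 2 =
    ((c : ℤ) : ℂ) * (c * om q) - (((c : ℤ) ^ 2 * ((q + 1) / 4 : ℕ) : ℤ) : ℂ) := by
  have := om_sq hq
  push_cast at this ⊢
  linear_combination (c : ℂ) ^ 2 * this

theorem Oc_mul_self {q : ℕ} (hq : q % 4 = 3) (c : ℕ) : Oc q c * Oc q c = Oc q c :=
  ord_mul_ord (com_sq hq c)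

theorem one_mem_Oc (q c : ℕ) : (1 : ℂ) ∈ Oc q c := left_mem_sp _ _

theorem Oc_le {q c c' : ℕ} (h : c' ∣ c) : Oc q c ≤ Oc q c' := by
  obtain ⟨e, rfl⟩ := h
  exact sp_le.2 ⟨one_mem_Oc _ _, mem_sp.2 ⟨0, e, by push_cast; ring⟩⟩

theorem Oc_mul {q c c' : ℕ} (hq : q % 4 = 3) (h : c' ∣ c) : Oc q c' * Oc q c = Oc q c' :=
  le_antisymm ((mul_le_mul_right (Oc_le h) _).trans (Oc_mul_self hq c').le) fun x hx => by
    simpa using Submodule.mul_mem_mul hx (one_mem_Oc q c)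

/-- Invertible modules over the order of conductor `c`. -/
def Ivt (q c : ℕ) (L : Submodule ℤ ℂ) : Prop := Oc q c * L = L ∧ ∃ B, L * B = Oc q c

/-- The group of invertible modules. -/
def IG (q c : ℕ) : Type := {L : Submodule ℤ ℂ // Ivt q c L}

/-- The element of the group given by an invertible module. -/
def IG.mk {q c : ℕ} (L : Submodule ℤ ℂ) (h : Ivt q c L) : IG q c := ⟨L, h⟩

variable {q c : ℕ} [hq : Fact (q % 4 = 3)]

instance : CommGroup (IG q c) where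
  mul L M := ⟨L.1 * M.1, by rw [← mul_assoc, L.2.1], by
    obtain ⟨B, hB⟩ := L.2.2
    obtain ⟨C, hC⟩ := M.2.2
    exact ⟨B * C, by rw [mul_mul_mul_comm, hB, hC, Oc_mul_self hq.out]⟩⟩
  mul_assoc L M N := Subtype.ext (mul_assoc L.1 M.1 N.1)
  one := ⟨Oc q c, Oc_mul_self hq.out c, Oc q c, Oc_mul_self hq.out c⟩
  one_mul L := Subtype.ext L.2.1
  mul_one L := Subtype.ext ((mul_comm L.1 _).trans L.2.1)
  inv L := ⟨Oc q c * L.2.2.choose, by rw [← mul_assoc, Oc_mul_self hq.out], L.1, by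
    rw [mul_assoc, mul_comm _ L.1, L.2.2.choose_spec, Oc_mul_self hq.out]⟩
  inv_mul_cancel L := Subtype.ext (show Oc q c * L.2.2.choose * L.1 = Oc q c by
    rw [mul_assoc, mul_comm _ L.1, L.2.2.choose_spec, Oc_mul_self hq.out])
  mul_comm L M := Subtype.ext (mul_comm L.1 M.1)

theorem IG.mul_val (L M : IG q c) : (L * M).1 = L.1 * M.1 := rfl

theorem IG.one_val : (1 : IG q c).1 = Oc q c := rfl

variable (q c) in
/-- Principal modules. -/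
def prin : Subgroup (IG q c) where
  carrier := {L | ∃ μ : ℂ, μ ≠ 0 ∧ L.1 = μ • Oc q c}
  mul_mem' := by
    rintro L M ⟨μ, h1, e1⟩ ⟨ν, h2, e2⟩
    exact ⟨μ * ν, mul_ne_zero h1 h2, by
      rw [IG.mul_val, e1, e2, smul_mul_left, smul_mul_right, Oc_mul_self hq.out, mul_smul]⟩
  one_mem' := ⟨1, one_ne_zero, (one_smul _ _).symm⟩
  inv_mem' := by
    rintro L ⟨μ, h1, e1⟩
    refine ⟨μ⁻¹, inv_ne_zero h1, ?_⟩
    have h : L.1 * L⁻¹.1 = Oc q c := congrArg Subtype.val (mul_inv_cancel L)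
    rw [e1, smul_mul_left, L⁻¹.2.1] at h
    rw [← h, smul_smul, inv_mul_cancel₀ h1, one_smul]

variable (q c) in
/-- The class group of the order of conductor `c`. -/
abbrev Pic : Type := IG q c ⧸ prin q c

/-- `L` is an invertible module in the class `x`. -/
def Cl (x : Pic q c) (L : Submodule ℤ ℂ) : Prop :=
  ∃ h : Ivt q c L, (QuotientGroup.mk (IG.mk L h) : Pic q c) = x

theorem Cl.inv {x : Pic q c} {L : Submodule ℤ ℂ} (h : Cl x L) : Ivt q c L := h.1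

theorem Cl.unique {x y : Pic q c} {L : Submodule ℤ ℂ} (h : Cl x L) (h' : Cl y L) : x = y :=
  h.2.symm.trans h'.2

theorem Ivt.cl {L : Submodule ℤ ℂ} (h : Ivt q c L) : ∃ x : Pic q c, Cl x L := ⟨_, h, rfl⟩

theorem cl_out (x : Pic q c) : Cl x x.out.1 := ⟨x.out.2, x.out_eq⟩

theorem cl_one : Cl (1 : Pic q c) (Oc q c) := ⟨(1 : IG q c).2, rfl⟩

theorem Cl.mul {x y : Pic q c} {L M : Submodule ℤ ℂ} (h : Cl x L) (h' : Cl y M) :
    Cl (x * y) (L * M) := by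
  obtain ⟨h, rfl⟩ := h
  obtain ⟨h', rfl⟩ := h'
  exact ⟨(IG.mk L h * IG.mk M h').2, rfl⟩

theorem cl_smul_one {μ : ℂ} (hμ : μ ≠ 0) : Cl (1 : Pic q c) (μ • Oc q c) :=
  ⟨⟨by rw [smul_mul_right, Oc_mul_self hq.out], μ⁻¹ • Oc q c, by
    rw [smul_mul_left, smul_mul_right, Oc_mul_self hq.out, smul_smul, mul_inv_cancel₀ hμ,
      one_smul]⟩, (QuotientGroup.eq_one_iff _).2 ⟨μ, hμ, rfl⟩⟩

theorem Cl.smul {x : Pic q c} {L : Submodule ℤ ℂ} (h : Cl x L) {μ : ℂ} (hμ : μ ≠ 0) :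
    Cl x (μ • L) := by
  have := (cl_smul_one hμ).mul h
  rwa [one_mul, smul_mul_left, h.inv.1] at this

theorem Cl.exists_smul {x : Pic q c} {L M : Submodule ℤ ℂ} (h : Cl x L) (h' : Cl x M) :
    ∃ μ : ℂ, μ ≠ 0 ∧ M = μ • L := by
  obtain ⟨h, rfl⟩ := h
  obtain ⟨h', e⟩ := h'
  obtain ⟨μ, h1, h2⟩ := QuotientGroup.eq.1 e.symm
  refine ⟨μ, h1, ?_⟩
  have h3 : L * ((IG.mk L h)⁻¹ * IG.mk M h').1 = M :=
    congrArg Subtype.val (mul_inv_cancel_left (IG.mk L h) (IG.mk M h'))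
  rw [h2, smul_mul_right, mul_comm, h.1] at h3
  exact h3.symm

/-- Extension of modules to a larger order. -/
def resI {c' : ℕ} (h : c' ∣ c) : IG q c →* IG q c' where
  toFun L := ⟨Oc q c' * L.1, by rw [← mul_assoc, Oc_mul_self hq.out], by
    obtain ⟨B, hB⟩ := L.2.2
    exact ⟨B, by rw [mul_assoc, hB, Oc_mul hq.out h]⟩⟩
  map_one' := Subtype.ext (Oc_mul hq.out h)
  map_mul' L M := Subtype.ext (show Oc q c' * (L.1 * M.1) = Oc q c' * L.1 * (Oc q c' * M.1) by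
    rw [mul_mul_mul_comm, Oc_mul_self hq.out])

open Classical in
/-- The map of class groups to a smaller conductor (trivial if `c'` does not divide `c`). -/
def res (c' : ℕ) : Pic q c →* Pic q c' :=
  if h : c' ∣ c then QuotientGroup.map _ _ (resI h) (by
    rintro L ⟨μ, h1, e⟩
    exact ⟨μ, h1, show Oc q c' * L.1 = _ by rw [e, smul_mul_right, Oc_mul hq.out h]⟩) else 1

theorem Cl.res {x : Pic q c} {L : Submodule ℤ ℂ} (h : Cl x L) {c' : ℕ} (hc : c' ∣ c) :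
    Cl (res c' x) (Oc q c' * L) := by
  obtain ⟨h, rfl⟩ := h
  exact ⟨(resI hc (IG.mk L h)).2, by rw [K11.res, dif_pos hc]; rfl⟩

theorem res_res {c' c'' : ℕ} (h : c' ∣ c) (h' : c'' ∣ c') (x : Pic q c) :
    res c'' (res c' x) = res c'' x := by
  have h1 := ((cl_out x).res h).res h'
  rw [← mul_assoc, Oc_mul hq.out h'] at h1
  exact h1.unique ((cl_out x).res (h'.trans h))

variable (q c) in
/-- The class of a module (junk value if it is not invertible). -/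
def cls (L : Submodule ℤ ℂ) : Pic q c := Classical.epsilon fun x => Cl x L

theorem Ivt.cls {L : Submodule ℤ ℂ} (h : Ivt q c L) : Cl (cls q c L) L :=
  Classical.epsilon_spec h.cl

variable (q c) in
/-- The class by which an automorphism that fixes `√-q` acts. -/
def ar (σ : G) : Pic q c := Classical.epsilon fun a =>
  ∀ (x : Pic q c) L L', Cl x L → Conj (σ : ℂ →+* ℂ) L L' → Cl (a * x) L'

variable (q) in
/-- The class number. -/
def hh : ℕ := Nat.card (Pic q 1)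

/-- Elements of the maximal order that are prime to `c`. -/
def Cop (q c : ℕ) (π : ℂ) : Prop :=
  π ∈ OK q ∧ ∃ n : ℤ, Complex.normSq π = n ∧ IsCoprime n (c : ℤ)

/-- The module `ℤ π + c 𝒪`. -/
def Lp (q c : ℕ) (π : ℂ) : Submodule ℤ ℂ := Submodule.span ℤ {π} ⊔ (c : ℂ) • OK q

variable (q c) in
/-- Its class. -/
def kp (π : ℂ) : Pic q c := cls q c (Lp q c π)

/-- `r` is a root modulo `l` of the polynomial of `om q`. -/
def Rt (q l : ℕ) (r : ℤ) : Prop := (l : ℤ) ∣ r ^ 2 - r + ((q + 1) / 4 : ℕ)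

/-- A prime of degree one of the order of conductor `c`. -/
def pid (q c l : ℕ) (r : ℤ) : Submodule ℤ ℂ := sp l (c * om q - (c * r : ℤ))

variable (q c) in
/-- Its class. -/
def lam (l : ℕ) (r : ℤ) : Pic q c := cls q c (pid q c l r)

/-- The level structure. -/
def lvl (q c : ℕ) (b : ℤ) (L : Submodule ℤ ℂ) : Submodule ℤ ℂ :=
  (11 : ℂ)⁻¹ • (pid q c 11 b * L)

/-- The Heegner point of a class. -/
def hp (Pp : Submodule ℤ ℂ → Submodule ℤ ℂ → Pt) (b : ℤ) (x : Pic q c) : Pt :=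
  Pp x.out.1 (lvl q c b x.out.1)

/-- The coordinate at the prime `l` and the discrete logarithm. -/
structure Co (l k : ℕ) (g : Pic q l → ZMod (2 ^ k)) (dl : ℂ → ZMod (2 ^ k)) : Prop where
  g_mul : ∀ x y, g (x * y) = g x + g y
  g_eq : ∀ x π, Cop q l π → x ^ hh q = kp q l π → g x = dl π
  dl_mul : ∀ π π', Cop q l π → Cop q l π' → dl (π * π') = dl π + dl π'
  dl_int : ∀ π (n : ℤ), Cop q l π → π - n ∈ (l : ℂ) • OK q → dl π = 0
  surj : ∀ a, ∃ π, Cop q l π ∧ dl π = a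
  par : ∀ π (n : ℤ), Cop q l π → Complex.normSq π = n → (Even (dl π).val ↔ jacobiSym n l = 1)
  val : ∀ π (i : ℕ) O, ¬ Spl q l → Cop q l π → i ≤ k → Ov O l →
    (2 ^ i ∣ (dl π).val ↔ (starRingEnd ℂ π / π) ^ ((l + 1) / 2 ^ i) - 1 ∈ O.nonunits)

/-- Class groups and the Galois action on them. -/
def PicStmt : Prop := ∀ (q : ℕ) [Fact (q % 4 = 3)], q.Prime → 44 < q → Odd (hh q) ∧
  ∀ c : ℕ, c ≠ 0 → Finite (Pic q c) ∧
    (∀ (x : Pic q c) L, Cl x L → IsLat L ∧ g2 L ≠ 0 ∧ g3 L ≠ 0 ∧ Cl x⁻¹ (bar L) ∧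
      ∀ μ : ℂ, μ • L ≤ L ↔ μ ∈ Oc q c) ∧
    (∀ μ : ℂ, μ • Oc q c = Oc q c → μ = 1 ∨ μ = -1) ∧
    ∀ σ : G, σ (om q) = om q →
      (∀ (x : Pic q c) L L', Cl x L → Conj (σ : ℂ →+* ℂ) L L' → Cl (ar q c σ * x) L') ∧
      (∀ τ : G, τ (om q) = om q → ar q c (σ * τ) = ar q c σ * ar q c τ) ∧
      ar q c (cj * σ * cj) = (ar q c σ)⁻¹ ∧ ∀ c', c' ∣ c → res c' (ar q c σ) = ar q c' σ

/-- The kernel of the map to the class group of the maximal order; primes of degree one. -/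
def KerStmt : Prop := ∀ (q : ℕ) [Fact (q % 4 = 3)], q.Prime → 44 < q → ∀ c : ℕ, c ≠ 0 →
  (∀ π π', Cop q c π → Cop q c π' → Cop q c (π * π')) ∧
  (∀ π, Cop q c π → Cop q c (starRingEnd ℂ π) ∧ Cl (kp q c π) (Lp q c π) ∧
    π • Oc q c ⊔ (c : ℂ) • OK q = Lp q c π ∧
    (∀ π', Cop q c π' → kp q c (π * π') = kp q c π * kp q c π') ∧
    (kp q c π = 1 ↔ ∃ n : ℤ, π - n ∈ (c : ℂ) • OK q) ∧
    (∀ c', c' ∣ c → Cop q c' π ∧ res c' (kp q c π) = kp q c' π) ∧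
    ∀ (x : Pic q c) I, Cl x I → I ≤ Oc q c → OK q * I = π • OK q → x * kp q c π = 1) ∧
  (∀ x : Pic q c, res 1 x = 1 ↔ ∃ π, Cop q c π ∧ x = kp q c π) ∧
  (∀ c', c' ∣ c → Function.Surjective (res c' : Pic q c → Pic q c')) ∧
  (∀ l : ℕ, l.Prime → l ≠ 2 → (Spl q l ↔ ∃ r, Rt q l r)) ∧
  ∀ (l : ℕ) (r : ℤ), l.Prime → l ≠ q → ¬ l ∣ c → Rt q l r → Rt q l (1 - r) ∧
    Cl (lam q c l r) (pid q c l r) ∧ pid q c l r ≤ Oc q c ∧
    bar (pid q c l r) = pid q c l (1 - r) ∧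
    pid q c l r * pid q c l (1 - r) = (l : ℂ) • Oc q c ∧ lam q c l (1 - r) = (lam q c l r)⁻¹ ∧
    ∀ c', c' ∣ c → Oc q c' * pid q c l r = pid q c' l r ∧ res c' (lam q c l r) = lam q c' l r

/-- Existence of the coordinates. -/
def CoStmt : Prop := ∀ (q : ℕ) [Fact (q % 4 = 3)], q.Prime → 44 < q → ∀ l k : ℕ, l.Prime → l ≠ 2 →
  l ≠ q → k ≠ 0 → (Spl q l → 2 ^ k ∣ l - 1) → (¬ Spl q l → 2 ^ k ∣ l + 1) →
  ∃ g dl, Co (q := q) l k g dl

/-- The coordinate is equidistributed on the fibres at an inert prime. -/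
def FibStmt : Prop := ∀ (q : ℕ) [Fact (q % 4 = 3)], q.Prime → 44 < q → ∀ (c p k : ℕ) g dl, c ≠ 0 →
  p.Prime → p ≠ 2 → p ≠ q → ¬ p ∣ c → ¬ Spl q p → 2 ^ k ∣ p + 1 → Co (q := q) p k g dl →
  ∀ (x : Pic q c) (a : ZMod (2 ^ k)),
    Nat.card {y : Pic q (p * c) // res c y = x ∧ g (res p y) = a} = (p + 1) / 2 ^ k

/-- The Galois action on Heegner points. -/
def GalStmt : Prop := ∀ Pp a t0, XI Pp a t0 → ∀ (q : ℕ) [Fact (q % 4 = 3)], q.Prime → 44 < q →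
  ∀ (b : ℤ) (c : ℕ), Rt q 11 b → c ≠ 0 → ¬ 11 ∣ c → ∀ x : Pic q c,
    (∀ L, Cl x L → Lv L (lvl q c b L) ∧ Pp L (lvl q c b L) = hp Pp b x) ∧ AlgP (hp Pp b x) ∧
    (∀ σ : G, σ (om q) = om q → σ • hp Pp b x = hp Pp b (ar q c σ * x)) ∧
    cj • hp Pp b x = t0 - hp Pp b (lam q c 11 (1 - b) * x⁻¹) ∧
    ∀ σ : G, σ (om q) ≠ om q → σ • σ • hp Pp b x = hp Pp b x

/-- Hecke operators on Heegner points. -/
def HkStmt : Prop := ∀ Pp a t0, XI Pp a t0 → ∀ (q : ℕ) [Fact (q % 4 = 3)], q.Prime → 44 < q →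
  ∀ (b : ℤ) (c l : ℕ), Rt q 11 b → c ≠ 0 → ¬ 11 ∣ c → l.Prime → l ≠ 2 → l ≠ 11 → l ≠ q → ¬ l ∣ c →
  ∀ (x : Pic q c) (s : Finset (Pic q (l * c))), (∀ y, y ∈ s ↔ res c y = x) →
    (¬ Spl q l → ∑ y ∈ s, hp Pp b y = a l • hp Pp b x ∧ ∀ O (φ : G), Ov O l → Frob O l φ →
      ∀ y ∈ s, hp Pp b y - φ • hp Pp b x ∈ E1 O) ∧
    ∀ r, Rt q l r → ∑ y ∈ s, hp Pp b y =
      a l • hp Pp b x - hp Pp b (lam q c l r * x) - hp Pp b ((lam q c l r)⁻¹ * x)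

/-- The coordinates of inertia and Frobenius elements and of primes. -/
def PLocStmt : Prop := ∀ (q : ℕ) [Fact (q % 4 = 3)], q.Prime → 44 < q → ∀ (l k : ℕ) g dl,
  l.Prime → l ≠ 2 → l ≠ q → k ≠ 0 → Co (q := q) l k g dl →
  (∀ (v : ℕ) O (σ : G), v.Prime → v ≠ l → Ov O v → Frob O 1 σ → σ (om q) = om q →
    g (ar q l σ) = 0) ∧
  (∀ (σ : G) (s : ℂ), σ (om q) = om q → s ^ 2 = GF.pst l → (σ s = s ↔ Even (g (ar q l σ)).val)) ∧
  ∀ (v : ℕ) (r : ℤ), v.Prime → v ≠ 2 → v ≠ l → v ≠ q → Rt q v r →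
    (Even (g (lam q l v r)).val ↔ jacobiSym v l = 1) ∧
    (∀ O (φ : G), Ov O v → Frob O v φ → ∃ u : ℤ, Odd u ∧ g (ar q l φ) = u * g (lam q l v r)) ∧
    ∀ π, Gen q v π → Cop q l π ∧ ∃ u : ℤ, Odd u ∧ g (lam q l v r) = u * dl π

/-- The trace of the Heegner points of conductor one does not reduce to the origin at `q`. -/
def BaseStmt : Prop := ∀ Pp a t0, XI Pp a t0 → ∀ (q : ℕ) [Fact (q % 4 = 3)], q.Prime → 44 < q →
  ∀ (b : ℤ) (s : Finset (Pic q 1)) O, Rt q 11 b → (∀ x, x ∈ s) → Ov O q →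
    ∑ x ∈ s, 5 • hp Pp b x ∉ E1 O

end Pool.Agent.Lib.MP_d6ddbd_nt.K11
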