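import Pool.Agent.Lib.MP_d6ddbd_nt.K11.Stmt
import Pool.Agent.Lib.MP_ca56d1_nt.SUnit
import Pool.Agent.Lib.MP_ca56d1_nt.Kum
import Pool.Agent.Lib.MP_ca56d1_nt.Loc

/-! The cubic field of discriminant `-44`: norm form, class number and units. -/

set_option autoImplicit false

open NumberField Module Matrix
open Pool.Agent.Stark Pool.Agent.Stark.LocAux

noncomputable section

namespace Pool.Agent.Lib.MP_d6ddbd_nt.K11.Comp

/-- Integer triples. -/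
abbrev T3 : Type := ℤ × ℤ × ℤ

/-- The value of a quadratic polynomial. -/
def ev {R : Type*} [CommRing R] (t : T3) (r : R) : R := t.1 + t.2.1 * r + t.2.2 * r ^ 2

/-- The adjugate. -/
def adj (t : T3) : T3 :=
  (t.1 * t.1 + 2 * t.1 * t.2.1 + 4 * t.1 * t.2.2 + 2 * t.2.1 * t.2.2 + 4 * t.2.2 * t.2.2,
    -(t.1 * t.2.1 + 2 * t.2.1 * t.2.1 + 4 * t.2.1 * t.2.2 + 2 * t.2.2 * t.2.2),
    t.2.1 * t.2.1 + 2 * t.2.1 * t.2.2 + -(t.1 * t.2.2))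

/-- The norm form. -/
def nrm (t : T3) : ℤ :=
  t.1 * (adj t).1 + -(2 * t.2.2 * (adj t).2.1) + -((2 * t.2.1 + 4 * t.2.2) * (adj t).2.2)

variable {L : Type} [Field L] [NumberField L] {θ ϑ : L}

/-- The facts on the cubic field that are used. -/
structure Ctx (θ ϑ : L) : Prop where
  cub : Cub θ
  rt : ϑ ^ 3 - 2 * ϑ ^ 2 + 2 = 0
  th : θ = 8 * ϑ ^ 2 - 14 * ϑ
  two : ∃ 𝔭 : Pr L, ab L 2 = {𝔭} ∧ nm 𝔭 = 2 ∧ og 𝔭 (2 : L) = 3 ∧ og 𝔭 ϑ = 1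
  good : ∀ l : ℕ, l.Prime → l ≠ 2 → l ≠ 11 →
    (∀ 𝔭 ∈ ab L l, og 𝔭 (l : L) = 1 ∧ og 𝔭 (2 : L) = 0 ∧ og 𝔭 (fd θ) = 0 ∧
      (nm 𝔭 = l ↔ 0 < og 𝔭 ((xr θ 𝔭 : L) - θ)) ∧ ((nm 𝔭).Prime ↔ nm 𝔭 = l)) ∧
    (∀ 𝔭 ∈ ab L l, ∀ 𝔮 ∈ ab L l, nm 𝔭 = l → 𝔮 ≠ 𝔭 → og 𝔮 ((xr θ 𝔭 : L) - θ) = 0) ∧
    (nr l = 0 → ∃ 𝔭, ab L l = {𝔭} ∧ nm 𝔭 = l ^ 3) ∧
    (nr l = 1 → ∃ 𝔭 𝔮, 𝔭 ≠ 𝔮 ∧ (∀ 𝔯, 𝔯 ∈ ab L l ↔ 𝔯 = 𝔭 ∨ 𝔯 = 𝔮) ∧ nm 𝔭 = l ∧ nm 𝔮 = l ^ 2) ∧
    (nr l = 3 → (ab L l).card = 3 ∧ ∀ 𝔭 ∈ ab L l, nm 𝔭 = l) ∧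
    (nr l = 0 ∨ nr l = 1 ∨ nr l = 3)
  nv : ∀ (l : ℕ) (α : L), l.Prime → α ≠ 0 →
    padicValRat l (Algebra.norm ℚ α) = ∑ 𝔭 ∈ ab L l, (Nat.log l (nm 𝔭) : ℤ) * og 𝔭 α ∧
    (IsSquare (Algebra.norm ℚ α) → Even (∑ 𝔭 ∈ ab L l, (Nat.log l (nm 𝔭) : ℤ) * og 𝔭 α))
  pr : ∀ 𝔭 : Pr L, 0 ≤ og 𝔭 θ ∧ ∃ l : ℕ, l.Prime ∧ 𝔭 ∈ ab L l ∧
    ∀ n : ℕ, n ≠ 0 → (𝔭 ∈ ab L n ↔ l ∣ n)
  ne : ∀ x : ℚ, (x : L) ≠ θ ∧ Algebra.norm ℚ ((x : L) - θ) = fc x
  span : ∀ α : L, ∃ a b c : ℚ, α = a + b * θ + c * θ ^ 2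
  real : ∃ e : L →+* ℝ, (∀ e' : L →+* ℝ, e' = e) ∧
    ∀ α : L, α ≠ 0 → IsSquare (Algebra.norm ℚ α) → 0 < e α

theorem ctx (hPr : PrStmt) (h : Cub θ) : ∃ ϑ, Ctx θ ϑ := by
  obtain ⟨⟨ϑ, a, b, c⟩, -, d, e, f, g, i, -, -, j⟩ := hPr L θ h
  exact ⟨ϑ, h, a, b, c, d, e, f, g, i, j⟩

theorem Ctx.mul_adj (C : Ctx θ ϑ) (t : T3) : ev t ϑ * ev (adj t) ϑ = (nrm t : ℤ) := by
  simp only [ev, nrm]
  generalize hu : adj t = u
  have h1 : u.1 * t.2.1 + u.2.1 * t.1 - 2 * u.2.2 * t.2.2 = 0 := by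
    rw [← hu]; simp only [adj]; ring
  have h2 : u.1 * t.2.2 + u.2.1 * (t.2.1 + 2 * t.2.2) + u.2.2 * (t.1 + 2 * t.2.1 + 4 * t.2.2) = 0 := by
    rw [← hu]; simp only [adj]; ring
  have h1' := congrArg (Int.cast : ℤ → L) h1
  have h2' := congrArg (Int.cast : ℤ → L) h2
  push_cast at h1' h2' ⊢
  linear_combination ϑ * h1' + ϑ ^ 2 * h2' +
    ((t.2.1 : L) * u.2.2 + t.2.2 * u.2.1 + t.2.2 * u.2.2 * (ϑ + 2)) * C.rt

theorem Ctx.bas (C : Ctx θ ϑ) : ∃ b : Basis (Fin 3) ℚ L, ⇑b = ![1, ϑ, ϑ ^ 2] := by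
  refine ⟨basisOfTopLeSpanOfCardEqFinrank _ (fun α _ => ?_) (by simp [C.cub.rk]),
    coe_basisOfTopLeSpanOfCardEqFinrank ..⟩
  obtain ⟨a, b, c, rfl⟩ := C.span α
  refine (Submodule.mem_span_range_iff_exists_fun _).2
    ⟨![a + 192 * c, -14 * b - 128 * c, 8 * b + 4 * c], ?_⟩
  simp only [Fin.sum_univ_three, cons_val, Algebra.smul_def, eq_ratCast, C.th]
  push_cast
  linear_combination -(c : L) * (64 * ϑ - 96) * C.rt

theorem Ctx.mat (C : Ctx θ ϑ) {b : Basis (Fin 3) ℚ L} (hb : ⇑b = ![1, ϑ, ϑ ^ 2]) (x y z : ℚ) :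
    Algebra.leftMulMatrix b (x + y * ϑ + z * ϑ ^ 2) =
      !![x, -2 * z, -2 * y - 4 * z; y, x, -2 * z; z, y + 2 * z, x + 2 * y + 4 * z] := by
  ext i j
  rw [Algebra.leftMulMatrix_eq_repr_mul]
  refine Eq.trans (congrArg (b.repr · i) ?_) (congrFun (b.repr_sum_self fun i =>
    !![x, -2 * z, -2 * y - 4 * z; y, x, -2 * z; z, y + 2 * z, x + 2 * y + 4 * z] i j) i)
  fin_cases j <;> simp [hb, Fin.sum_univ_three, Algebra.smul_def]
  · linear_combination (z : L) * C.rt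
  · linear_combination ((y : L) + z * (ϑ + 2)) * C.rt

theorem Ctx.norm (C : Ctx θ ϑ) (t : T3) : Algebra.norm ℚ (ev t ϑ) = nrm t := by
  obtain ⟨b, hb⟩ := C.bas
  have := C.mat hb t.1 t.2.1 t.2.2
  simp only [Rat.cast_intCast] at this
  rw [Algebra.norm_eq_matrix_det b, ev, this, det_fin_three]
  simp [nrm, adj]
  ring

theorem Ctx.inj (C : Ctx θ ϑ) {t : T3} (h : ev t ϑ = 0) : t = 0 := by
  obtain ⟨b, hb⟩ := C.bas
  have := Fintype.linearIndependent_iff.1 b.linearIndependent ![t.1, t.2.1, t.2.2] (by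
    simpa [hb, Fin.sum_univ_three, Algebra.smul_def, ev] using h)
  exact Prod.ext (by simpa using this 0) (Prod.ext (by simpa using this 1) (by simpa using this 2))

theorem Ctx.int (C : Ctx θ ϑ) : ∃ v : 𝓞 L, (v : L) = ϑ :=
  ⟨⟨ϑ, Polynomial.X ^ 3 - 2 * Polynomial.X ^ 2 + 2, by monicity!, by simpa using C.rt⟩, rfl⟩

theorem Ctx.disc (C : Ctx θ ϑ) :
    |discr L| ≤ 44 ∧ ∀ z : 𝓞 L, ∃ t : T3, 2 * (z : L) = ev t ϑ := by
  obtain ⟨b, hb⟩ := C.bas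
  obtain ⟨v, rfl⟩ := C.int
  let B := finBasisOfFinrankEq ℤ (𝓞 L) ((RingOfIntegers.rank L).trans C.cub.rk)
  have tr : ∀ x y z : ℚ, Algebra.trace ℚ L (x + y * v + z * v ^ 2) = 3 * x + 2 * y + 4 * z := by
    intro x y z
    rw [Algebra.trace_eq_matrix_trace b, C.mat hb, trace_fin_three]
    simp
    ring
  have h1 : Algebra.discr ℤ ![1, v, v ^ 2] = -44 := by
    have : Algebra.traceMatrix ℤ ![1, v, v ^ 2] = !![3, 2, 4; 2, 4, 2; 4, 2, 0] := by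
      ext i j
      refine Int.cast_injective (α := ℚ) ?_
      rw [Algebra.traceMatrix_apply, Algebra.traceForm_apply, Algebra.coe_trace_int]
      have a := tr 1 0 0
      have b := tr 0 1 0
      have c := tr 0 0 1
      have d := tr (-2) 0 2
      have e := tr (-4) (-2) 4
      rw [show ((-2 : ℚ) : L) + (0 : ℚ) * v + (2 : ℚ) * v ^ 2 = v * v ^ 2 by
        push_cast; linear_combination -C.rt] at d
      rw [show ((-4 : ℚ) : L) + (-2 : ℚ) * v + (4 : ℚ) * v ^ 2 = v ^ 2 * v ^ 2 by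
        push_cast; linear_combination -(v + 2) * C.rt] at e
      fin_cases i <;> fin_cases j <;> simp_all [mul_comm, ← sq] <;> norm_num
    rw [Algebra.discr_def, this, det_fin_three]
    simp
  have h2 := Algebra.discr_of_matrix_vecMul (A := ℤ) B (B.toMatrix ![1, v, v ^ 2])
  rw [B.toMatrix_map_vecMul, h1, discr_eq_discr] at h2
  generalize hP : B.toMatrix ![1, v, v ^ 2] = P at h2
  have h3 : P.det ≠ 0 := fun h => by simp [h] at h2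
  have h4 : P.det ^ 2 * |discr L| = 44 := by
    rw [← abs_of_nonneg (sq_nonneg P.det), ← abs_mul, ← h2]
    rfl
  have h5 : 0 < P.det ^ 2 := by positivity
  have h6 : 1 ≤ |discr L| := abs_pos.2 (discr_ne_zero L)
  refine ⟨by nlinarith, fun z => ?_⟩
  obtain ⟨c, hc⟩ : P.det ∣ 2 := by
    have a : P.det ≤ 6 := by nlinarith
    have b : -6 ≤ P.det := by nlinarith
    generalize P.det = m at *
    interval_cases m <;> first | decide | omega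
  have h7 : P.det • z = ∑ i, (P.adjugate *ᵥ B.repr z) i • ![1, v, v ^ 2] i := by
    refine B.ext_elem fun j => ?_
    have := congrFun (mulVec_mulVec (B.repr z) P P.adjugate) j
    rw [mul_adjugate, smul_mulVec, one_mulVec] at this
    rw [map_smul, map_sum, Finsupp.finsetSum_apply, Finsupp.smul_apply, ← Pi.smul_apply, ← this,
      mulVec, dotProduct]
    refine Finset.sum_congr rfl fun i _ => ?_
    rw [map_smul, Finsupp.smul_apply, ← B.toMatrix_apply, hP, smul_eq_mul, mul_comm]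
  generalize P.adjugate *ᵥ B.repr z = w at h7
  refine ⟨(c * w 0, c * w 1, c * w 2), ?_⟩
  have h8 := congrArg (algebraMap (𝓞 L) L) h7
  have h9 := congrArg (Int.cast : ℤ → L) hc
  simp [Fin.sum_univ_three] at h8 h9
  simp only [ev]
  push_cast
  linear_combination (c : L) * h8 + (z : L) * h9

theorem Ctx.plc (C : Ctx θ ϑ) :
    InfinitePlace.nrComplexPlaces L = 1 ∧ Fintype.card (InfinitePlace L) = 2 := by
  obtain ⟨e, he, -⟩ := C.real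
  have h1 : InfinitePlace.nrRealPlaces L = 1 :=
    card_realHom.symm.trans (Fintype.card_eq_one_iff.2 ⟨e, he⟩)
  have h2 := InfinitePlace.card_add_two_mul_card_eq_rank L
  have h3 := InfinitePlace.card_eq_nrRealPlaces_add_nrComplexPlaces L
  rw [C.cub.rk] at h2
  omega

theorem Ctx.prin (C : Ctx θ ϑ) (D : Dv L) : ∃ x : L, x ≠ 0 ∧ ∀ 𝔭, og 𝔭 x = D 𝔭 := by
  have h1 : IsPrincipalIdealRing (𝓞 L) := RingOfIntegers.isPrincipalIdealRing_of_abs_discr_lt (by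
    have a : ((|discr L| : ℤ) : ℝ) ≤ 44 := by exact_mod_cast C.disc.1
    have b := Real.pi_gt_three
    rw [C.plc.1, C.cub.rk]
    refine a.trans_lt ?_
    norm_num [Nat.factorial]
    nlinarith)
  have h2 : Stark.prin L = ⊤ :=
    AddSubgroup.index_eq_one.1 (index_prin.trans (classNumber_eq_one_iff.2 h1))
  obtain ⟨x, a, b⟩ := mem_prin.1 (h2 ▸ AddSubgroup.mem_top D)
  exact ⟨x, a, fun 𝔭 => by rw [← b, dv_apply]⟩

theorem res {k : Type*} [Field k] {w : Valuation k (WithZero (Multiplicative ℤ))}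
    (h : (rc w).Prime) {x : k} (hx : x ∈ pw w 0) : ∃ m : ℤ, x - m ∈ pw w 1 := by
  have := Fact.mk h
  have hc : Nat.card (pw w 0 ⧸ (pw w 1).addSubgroupOf (pw w 0)) = rc w := rfl
  let f := QuotientAddGroup.mk' ((pw w 1).addSubgroupOf (pw w 0))
  have h1 : f ⟨1, one_mem⟩ ≠ 0 := fun e =>
    one_not_mem (w := w) (AddSubgroup.mem_addSubgroupOf.1 ((QuotientAddGroup.eq_zero_iff _).1 e))
  obtain ⟨m, hm⟩ := AddSubgroup.mem_zmultiples_iff.1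
    (mem_zmultiples_of_prime_card hc h1 (g' := f ⟨x, hx⟩))
  rw [← map_zsmul, eq_comm, ← sub_eq_zero, ← map_sub] at hm
  exact ⟨m, by simpa [AddSubgroup.mem_addSubgroupOf] using (QuotientAddGroup.eq_zero_iff _).1 hm⟩

theorem resL {𝔭 : Pr L} (h : (nm 𝔭).Prime) {x : L} (hx : x ∈ pw (𝔭.valuation L) 0) :
    ∃ m : ℤ, x - m ∈ pw (𝔭.valuation L) 1 := by
  obtain ⟨m, hm⟩ := res (w := wv 𝔭) (by rwa [rc_wv]) ((ComplAux.emb_mem_pw 𝔭 x 0).2 hx)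
  exact ⟨m, (ComplAux.emb_mem_pw 𝔭 _ 1).1 (by simpa using hm)⟩

theorem Ctx.ev0 (C : Ctx θ ϑ) (𝔭 : Pr L) (t : T3) : ev t ϑ ∈ pw (𝔭.valuation L) 0 := by
  obtain ⟨v, rfl⟩ := C.int
  refine mem_of_le ?_
  simpa [ev, og] using og_nonneg 𝔭 (ev t v)

theorem int0 (𝔭 : Pr L) (m : ℤ) : (m : L) ∈ pw (𝔭.valuation L) 0 :=
  mem_of_le (by simpa [og] using og_nonneg 𝔭 (m : 𝓞 L))

theorem Ctx.int1 (C : Ctx θ ϑ) {𝔭 : Pr L} {l : ℕ} (hl : l.Prime) (h : 𝔭 ∈ ab L l) {m : ℤ} :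
    (m : L) ∈ pw (𝔭.valuation L) 1 ↔ (l : ℤ) ∣ m := by
  rcases eq_or_ne m 0 with rfl | h0
  · simp
  obtain ⟨-, p, hp, -, a⟩ := C.pr 𝔭
  obtain rfl := (Nat.prime_dvd_prime_iff_eq hp hl).1 ((a l hl.ne_zero).1 h)
  have b : og 𝔭 (m.natAbs : L) = ord (𝔭.valuation L) (m : L) := by
    rcases Int.natAbs_eq m with e | e <;> conv_rhs => rw [e]
    · simp [og]
    · simp [og]
  have c := (mem_pw_iff.1 (int0 𝔭 m)).resolve_left (by simpa using h0)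
  rw [Int.natCast_dvd, ← a _ (by simpa using h0), mem_ab, b, mem_pw_iff]
  simp only [Int.cast_eq_zero, h0, false_or]
  omega

theorem Ctx.at2 (C : Ctx θ ϑ) {𝔭 : Pr L} (h : ab L 2 = {𝔭}) (h2 : nm 𝔭 = 2) {α : L} (h0 : α ≠ 0)
    (hα : og 𝔭 α = 0) (H : At2 α) : α - 1 ∈ pw (𝔭.valuation L) 2 := by
  have m2 : 𝔭 ∈ ab L 2 := h ▸ Finset.mem_singleton_self _
  obtain ⟨β, hβ⟩ := H 𝔭 m2
  have a := one_add (anti (by norm_num) hβ)
  rw [add_sub_cancel] at a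
  have b0 : β ≠ 0 := by rintro rfl; simp at a
  have b1 : ord (𝔭.valuation L) β = 0 := by
    have := a.2
    rw [ord_mul h0 (pow_ne_zero 2 b0), ord_pow, ← og, hα] at this
    omega
  obtain ⟨m, hm⟩ := resL (h2 ▸ Nat.prime_two) (mem_of_le b1.ge)
  have t2 : (2 : L) ∈ pw (𝔭.valuation L) 1 := by
    simpa using (C.int1 Nat.prime_two m2 (m := 2)).2 (by simp)
  have c : β - 1 ∈ pw (𝔭.valuation L) 1 := by
    obtain ⟨k, rfl | rfl⟩ := Int.even_or_odd' m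
    · have := add_mem hm (pw_mul t2 (int0 𝔭 k) le_rfl)
      simp only [Int.cast_mul, Int.cast_ofNat, sub_add_cancel, mem_pw_iff, b0, b1] at this
      simp at this
    · convert add_mem hm (pw_mul t2 (int0 𝔭 k) le_rfl) using 1
      push_cast
      ring
  convert sub_mem hβ (pw_mul (mem_of_le (j := 0) hα.ge) (pw_mul c (add_mem c t2) le_rfl) le_rfl)
    using 1
  ring

theorem at2_sq {α s : L} (hs : s ≠ 0) (H : At2 α) : At2 (α * s ^ 2) := fun 𝔭 h =>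
  (H 𝔭 h).elim fun β hβ => ⟨β / s, by convert hβ using 2; field_simp⟩

theorem Ctx.eps (C : Ctx θ ϑ) : 1 - ϑ ≠ 0 ∧ Algebra.norm ℚ (1 - ϑ) = 1 ∧
    (∀ 𝔭, og 𝔭 (1 - ϑ) = 0) ∧ ¬ At2 (1 - ϑ) := by
  have e : 1 - ϑ = ev (1, -1, 0) ϑ := by simp [ev, sub_eq_add_neg]
  have a := C.mul_adj (1, -1, 0)
  have n : nrm (1, -1, 0) = 1 := by decide
  rw [n, Int.cast_one, ← e] at a
  have h0 := left_ne_zero_of_mul_eq_one a
  have h1 := right_ne_zero_of_mul_eq_one a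
  have b : ∀ 𝔭, og 𝔭 (1 - ϑ) = 0 := fun 𝔭 => by
    have p := congrArg (ord (𝔭.valuation L)) a
    have q := (mem_pw_iff.1 (e ▸ C.ev0 𝔭 _)).resolve_left h0
    have r := (mem_pw_iff.1 (C.ev0 𝔭 _)).resolve_left h1
    rw [ord_mul h0 h1, ord_one] at p
    rw [og]
    omega
  refine ⟨h0, by rw [e, C.norm, n, Int.cast_one], b, fun H => ?_⟩
  obtain ⟨𝔭, h, h2, -, h3⟩ := C.two
  have := C.at2 h h2 h0 (b 𝔭) H
  rw [sub_sub_cancel_left, neg_mem_iff, mem_pw_iff, ← og, h3] at this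
  rcases this with rfl | c
  · simp [og] at h3
  · omega

/-- An unramified class with square norm that satisfies the condition at `2` is trivial. -/
theorem Ctx.triv (C : Ctx θ ϑ) {α : L} (h0 : α ≠ 0) (hn : IsSquare (Algebra.norm ℚ α))
    (h2 : At2 α) (he : ∀ 𝔭, Even (og 𝔭 α)) : IsSquare α := by
  by_contra hs
  obtain ⟨e, -, pos⟩ := C.real
  obtain ⟨e0, e1, e2, e3⟩ := C.eps
  have h1 : Chr (∅ : Finset (Pr L)) = ⊥ := (Submodule.eq_bot_iff _).2 fun ψ h => funext fun q => by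
    obtain ⟨x, -, hx⟩ := C.prin (Finsupp.single q 1)
    rw [← SUnitAux.pair_single ψ q, ← show dv x = _ from Finsupp.ext hx]
    exact h.2 x
  have h3 := finrank_Sel (∅ : Finset (Pr L))
  rw [h1, finrank_bot, C.plc.2] at h3
  have := finite_Sel (∅ : Finset (Pr L))
  have m1 : (-1 : L) ≠ 0 := neg_ne_zero.2 one_ne_zero
  have pa := pos α h0 hn
  have pe := pos _ e0 (e1 ▸ IsSquare.one)
  have ng : ∀ x : L, e x < 0 → cl x ≠ 0 := fun x hx h => by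
    obtain ⟨r, rfl⟩ := (cl_eq_zero (by rintro rfl; simp at hx)).1 h
    exact hx.not_ge (by rw [map_mul]; exact mul_self_nonneg _)
  have a1 : At2 (1 : L) := fun 𝔭 _ => ⟨1, by simp⟩
  have h4 : LinearIndependent (ZMod 2) ![(⟨cl (-1), -1, ⟨m1, fun q _ => by simp [og]⟩, rfl⟩ :
      Sel (∅ : Finset (Pr L))), ⟨cl (1 - ϑ), _, ⟨e0, fun q _ => by simp [e2]⟩, rfl⟩,
      ⟨cl α, _, ⟨h0, fun q _ => he q⟩, rfl⟩] := by
    refine Fintype.linearIndependent_iff.2 fun g hg => ?_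
    have k := congrArg Subtype.val hg
    simp only [Fin.sum_univ_three, cons_val, Submodule.coe_add, Submodule.coe_smul,
      Submodule.coe_zero] at k
    suffices g 0 = 0 ∧ g 1 = 0 ∧ g 2 = 0 by
      intro i
      fin_cases i
      exacts [this.1, this.2.1, this.2.2]
    rcases zmod2_cases (g 0) with a | a <;> rcases zmod2_cases (g 1) with b | b <;>
      rcases zmod2_cases (g 2) with c | c <;>
      simp only [a, b, c, zero_smul, one_smul, zero_add, add_zero] at k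
    · exact ⟨a, b, c⟩
    · exact absurd ((cl_eq_zero h0).1 k) hs
    · obtain ⟨t, t0, ht⟩ := exists_sq_of_cl e0 one_ne_zero (k.trans cl_one.symm)
      exact absurd (ht ▸ at2_sq t0 a1) e3
    · obtain ⟨t, t0, ht⟩ := exists_sq_of_cl e0 h0
        ((cl_eq_cl e0 h0).2 ((cl_eq_zero (mul_ne_zero e0 h0)).1 ((cl_mul e0 h0).trans k)))
      exact absurd (ht ▸ at2_sq t0 h2) e3
    · exact absurd k (ng _ (by simp))
    · exact absurd ((cl_mul m1 h0).trans k) (ng _ (by simpa using pa))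
    · exact absurd ((cl_mul m1 e0).trans k) (ng _ (by simpa using pe))
    · rw [← cl_mul m1 e0, ← cl_mul (mul_ne_zero m1 e0) h0] at k
      exact absurd k (ng _ (by rw [map_mul, map_mul, map_neg, map_one]; nlinarith [mul_pos pa pe]))
  have := h4.fintype_card_le_finrank
  simp [h3] at this

end Pool.Agent.Lib.MP_d6ddbd_nt.K11.Comp
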