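import Pool.Agent.Lib.MP_d6ddbd_nt.K11.Defs
import Pool.Agent.Lib.MP_d6ddbd_nt.Tr

/-!
A two-converse theorem for the quadratic twists of `X₀(11)`: the statements of the blocks.
-/

set_option autoImplicit false

open NumberField IsDedekindDomain Pointwise
open Pool.Agent.Lib.MP_02f36d_nt (xc yc)
open Pool.Agent.Lib.MP_9177b7_ag.CM (IsLat sp Conj jL g2 g3)
open Pool.Agent.Stark (Pr og hq LSq pw SqCl cl)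

noncomputable section

namespace Pool.Agent.Lib.MP_d6ddbd_nt.K11

/-! ### A: linear algebra -/

def AStmt : Prop := ∀ (W U P : Type) [AddCommGroup W] [Module (ZMod 2) W] [AddCommGroup U]
  [Module (ZMod 2) U] [Module.Finite (ZMod 2) U] [DecidableEq P]
  (β : U →ₗ[ZMod 2] U →ₗ[ZMod 2] ZMod 2) (a b : W →ₗ[ZMod 2] U)
  (s f : P → W →ₗ[ZMod 2] ZMod 2) (sq fq : W →ₗ[ZMod 2] ZMod 2) (M : ℕ) (κ : Finset P → ℕ → W),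
  (∀ x, {p | s p x ≠ 0}.Finite) →
  (∀ x y (B : Finset P), (∀ p ∉ B, s p x = 0 ∧ s p y = 0) → β (a x) (b y) + β (b x) (a y) +
    (sq x * fq y + fq x * sq y) + ∑ p ∈ B, (s p x * f p y + f p x * s p y) = 0) →
  (∀ n : Finset P, Module.Finite (ZMod 2) (⨅ p ∉ n, LinearMap.ker (s p) : Submodule (ZMod 2) W) ∧
    Module.finrank (ZMod 2) U + 1 + n.card ≤
      Module.finrank (ZMod 2) (⨅ p ∉ n, LinearMap.ker (s p) : Submodule (ZMod 2) W)) →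
  (∀ (T : Finset W) (lam : W →ₗ[ZMod 2] ZMod 2) (B : Finset P),
    ∃ p ∉ B, ∀ x ∈ T, f p x = lam x) →
  (∀ x, (∀ p, s p x = 0) → sq x = 0 → fq x = 0 → b x = 0 → x = 0) →
  M ≤ Module.finrank (ZMod 2) U → (∀ n j, M < j → κ n j = 0) → (∃ n j, κ n j ≠ 0) →
  (∀ n, b (κ n 0) = 0) → (∀ n j, a (κ n j) = b (κ n (j + 1))) →
  (∀ n j, ∀ p ∉ n, s p (κ n j) = 0) → (∀ n j, ∀ p ∈ n, f p (κ n j) = 0) →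
  (∀ n j, ∀ p ∉ n, s p (κ (insert p n) j) = f p (κ n j)) →
  M = Module.finrank (ZMod 2) U ∧ κ ∅ 0 ≠ 0

/-! ### V: places, inertia, Frobenius -/

/-- Existence of places and of Frobenius elements. -/
def V1Stmt : Prop :=
  (∀ v : ℕ, v.Prime → ∃ O, Ov O v) ∧
  (∀ (F : Type) [Field F] [NumberField F] (e : F →+* ℂ) (𝔭 : Pr F), ∃ O, Below e O 𝔭) ∧
  (∀ (F : Type) [Field F] [NumberField F] (e : F →+* ℂ) (v : ℕ) O, v.Prime → Ov O v →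
    ∃ 𝔭 : Pr F, (v : 𝓞 F) ∈ 𝔭.asIdeal ∧ Below e O 𝔭) ∧
  (∀ (F : Type) [Field F] [NumberField F] (e : F →+* ℂ) O (𝔭 : Pr F), Below e O 𝔭 →
    ∀ x : F, x ≠ 0 → (e x ∈ O.nonunits ↔ 0 < og 𝔭 x)) ∧
  ∀ (v : ℕ) O, v.Prime → Ov O v → ∃ φ : G, Frob O v φ

/-- Calculus of Frobenius elements. -/
def V2Stmt : Prop :=
  (∀ O (Q Q' : ℕ) (σ τ : G), Frob O Q σ → Frob O Q' τ → Q ≠ 0 → Frob O (Q * Q') (σ * τ)) ∧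
  (∀ O (Q : ℕ) (σ : G) (x : ℂ), Frob O Q σ → Q ≠ 0 → IsAlgebraic ℚ x →
    (σ x ∈ O ↔ x ∈ O) ∧ (σ x ∈ O.nonunits ↔ x ∈ O.nonunits)) ∧
  (∀ O (v n : ℕ) (σ τ : G), v.Prime → Ov O v → Frob O (v ^ n) σ → Frob O (v ^ n) τ →
    Frob O 1 (σ⁻¹ * τ)) ∧
  (∀ O (Q : ℕ) (σ g : G), Frob O Q σ → Frob (O.comap (g⁻¹ : G).toRingHom) Q (g * σ * g⁻¹)) ∧
  (∀ O (v : ℕ) (g : G), Ov O v → Ov (O.comap g.toRingHom) v) ∧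
  (∀ O (σ : G) (x y : ℂ), Frob O 1 σ → IsAlgebraic ℚ x → x ∈ O → (σ x = x ∨ σ x = y) →
    x - y ∉ O.nonunits → σ x = x) ∧
  (∀ (q v : ℕ) O (σ : G), q.Prime → q % 4 = 3 → v.Prime → v ≠ q → Ov O v → Frob O 1 σ →
    σ (om q) = om q) ∧
  (∀ (q l : ℕ) O (φ : G), q.Prime → q % 4 = 3 → l.Prime → l ≠ 2 → l ≠ q → Ov O l → Frob O l φ →
    (φ (om q) = om q ↔ Spl q l)) ∧
  ∀ (l : ℕ) O (φ : G) (s : ℂ) (c : ℤ), l.Prime → l ≠ 2 → ¬ (l : ℤ) ∣ c → Ov O l → Frob O l φ →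
    s ^ 2 = c → φ s = jacobiSym c l * s

/-- A number that is fixed by inertia has the valuation of an element of the base field. -/
def V3Stmt : Prop :=
  ∀ (F : Type) [Field F] [NumberField F] (e : F →+* ℂ) (v : ℕ) O (x : ℂ), v.Prime → Ov O v →
    IsAlgebraic ℚ x → x ≠ 0 → (∀ σ : G, Frob O 1 σ → (∀ y, σ (e y) = e y) → σ x = x) →
    ∃ y : F, y ≠ 0 ∧ x / e y ∈ O ∧ x / e y ∉ O.nonunits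

/-- The density theorem of Frobenius, finite orbits, fixed fields and quadratic characters. -/
def V4Stmt : Prop :=
  (∀ (J : Finset ℂ) (σ : G) (N : ℕ), (∀ x ∈ J, IsAlgebraic ℚ x) →
    ∃ (l : ℕ) (O : ValuationSubring ℂ) (φ : G) (a b : ℕ), l.Prime ∧ N < l ∧ Ov O l ∧ Frob O l φ ∧
      ∀ n : ℕ, ∀ x ∈ J, (φ ^ n) x = (σ ^ (a * n)) x ∧ (σ ^ n) x = (φ ^ (b * n)) x) ∧
  (∀ x : ℂ, (Set.range fun σ : G => σ x).Finite → IsAlgebraic ℚ x) ∧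
  (∀ (F : Type) [Field F] [NumberField F] (e : F →+* ℂ) (x : ℂ),
    (∀ σ : G, (∀ y, σ (e y) = e y) → σ x = x) → ∃ y, e y = x) ∧
  (∀ (F : Type) [Field F] [NumberField F] (e e' : F →+* ℂ), ∃ σ : G, ∀ y, σ (e y) = e' y) ∧
  ∀ (F : Type) [Field F] [NumberField F] (e : F →+* ℂ) (χ : G → ZMod 2) (J : Finset ℂ),
    (∀ x ∈ J, IsAlgebraic ℚ x) →
    (∀ σ τ : G, (∀ y, σ (e y) = e y) → (∀ y, τ (e y) = e y) → χ (σ * τ) = χ σ + χ τ) →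
    (∀ σ : G, (∀ y, σ (e y) = e y) → (∀ x ∈ J, σ x = x) → χ σ = 0) →
    ∃ (a : F) (s : ℂ), a ≠ 0 ∧ s ^ 2 = e a ∧ ∀ σ : G, (∀ y, σ (e y) = e y) → (σ s = s ↔ χ σ = 0)

def VStmt : Prop := V1Stmt ∧ V2Stmt ∧ V3Stmt ∧ V4Stmt

/-! ### R: points of the curve -/

/-- Algebraic points, points of order two, halving. -/
def R1Stmt : Prop :=
  (AlgP 0 ∧ (∀ P Q, AlgP P → AlgP Q → AlgP (P + Q)) ∧ (∀ P, AlgP P → AlgP (-P)) ∧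
    (∀ (σ : G) P, AlgP P → AlgP (σ • P)) ∧ (∀ P, AlgP (2 • P) → AlgP P) ∧
    ∀ P : Pt, ∃ S : Pt, 2 • S = P) ∧
  (∀ P : Pt, P ≠ 0 → yc P ^ 2 = fc (xc P)) ∧
  (∀ x y : ℂ, y ^ 2 = fc x → pt x y ≠ 0 ∧ xc (pt x y) = x ∧ yc (pt x y) = y) ∧
  (∀ T : Pt, 2 • T = 0 ↔ T = 0 ∨ (yc T = 0 ∧ fc (xc T) = 0)) ∧
  (∃ e₁ e₂ e₃ : ℂ, (∀ x, fc x = (x - e₁) * (x - e₂) * (x - e₃)) ∧ e₁ ≠ e₂ ∧ e₁ ≠ e₃ ∧ e₂ ≠ e₃ ∧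
    cj e₁ = e₁ ∧ cj e₂ = e₃ ∧ pt e₁ 0 + pt e₂ 0 = pt e₃ 0 ∧
    (∃ ω : G, ω e₁ = e₂ ∧ ω e₂ = e₃ ∧ ω e₃ = e₁) ∧
    ∀ T : Pt, 2 • T = 0 → wl e₁ T + wl e₂ T + wl e₃ T = 0) ∧
  (∀ (e : ℂ) (T T' : Pt), fc e = 0 → 2 • T = 0 → 2 • T' = 0 → wl e (T + T') = wl e T + wl e T') ∧
  (∀ (e : ℂ) (σ : G) (T : Pt), wl (σ e) (σ • T) = wl e T) ∧
  ∀ (e : ℂ) (S : Pt), fc e = 0 → ∃ h : ℂ, h ≠ 0 ∧ h ^ 2 = gam e (2 • S) ∧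
    ∀ (σ : G) (ε : ℤ), σ e = e → (ε = 1 ∨ ε = -1) → σ • (2 • S) = ε • (2 • S) →
      (σ h = h ∨ σ h = -h) ∧
      (wl e (2 • S) = 0 → (σ h = h ↔ wl e (σ • S - ε • S) = 0)) ∧
      (wl e (2 • S) ≠ 0 → (σ h = ε * h ↔ wl e (σ • S - ε • S) = 0))

/-- Reduction at a place of good reduction, and the type of a prime. -/
def R2Stmt : Prop := ∀ (v : ℕ) O, v.Prime → v ≠ 2 → v ≠ 11 → Ov O v →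
  (∀ P : Pt, P ∈ E1 O ↔ P = 0 ∨ xc P ∉ O) ∧
  (∀ P Q : Pt, P ≠ 0 → Q ≠ 0 → xc Q ∈ O → yc Q ∈ O ∧ (P - Q ∈ E1 O ↔
    xc P - xc Q ∈ O.nonunits ∧ yc P - yc Q ∈ O.nonunits)) ∧
  (∀ (σ : G) P, Frob O 1 σ → AlgP P → σ • P - P ∈ E1 O) ∧
  (∀ (Q : ℕ) (σ : G) P, Frob O Q σ → Q ≠ 0 → AlgP P → (σ • P ∈ E1 O ↔ P ∈ E1 O)) ∧
  (∀ (n : ℕ) (P : Pt), 2 ^ n • P = 0 → P ∈ E1 O → P = 0) ∧
  (∀ (n : ℕ) (P : Pt), 2 ^ n • P ∈ E1 O → ∃ T : Pt, 2 ^ n • T = 0 ∧ P - T ∈ E1 O) ∧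
  (nr v = 0 ∨ nr v = 1 ∨ nr v = 3) ∧
  ∀ φ : G, Frob O v φ →
    (nr v = 3 ↔ ∀ T : Pt, 2 • T = 0 → φ • T = T) ∧
    (nr v = 1 ↔ (∀ T : Pt, 2 • T = 0 → φ • φ • T = T) ∧ ∃ T : Pt, 2 • T = 0 ∧ φ • T ≠ T) ∧
    (nr v = 0 ↔ ∀ T : Pt, 2 • T = 0 → φ • φ • T + φ • T + T = 0)

def RStmt : Prop := R1Stmt ∧ R2Stmt

/-! ### X and H: the modular parametrisation -/

/-- The uniformisation by the Weierstrass function. -/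
def UnifStmt : Prop := ∀ (L : Submodule ℤ ℂ) (W : WeierstrassCurve.Affine ℂ), IsLat L →
  W = ⟨0, 0, 0, -g2 L / 4, -g3 L / 4⟩ → W.Δ ≠ 0 ∧ ∃ u : ℂ →+ W.Point, Function.Surjective u ∧
    (∀ z, u z = 0 ↔ z ∈ L) ∧
    ∀ z, z ∉ L → xc (u z) = wp L z ∧ yc (u z) = deriv (wp L) z / 2

def XStmt : Prop := ∃ Pp a t0, XI Pp a t0

/-! ### G: complex multiplication at a place -/

/-- The local lemma of complex multiplication. -/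
def G1Stmt : Prop := ∀ (q v n : ℕ) O (σ : G) (μ : ℂ), q.Prime → 44 < q → q % 4 = 3 → v.Prime →
  Ov O v → Frob O (v ^ n) σ → σ (om q) = om q → μ ≠ 0 → Conj (σ : ℂ →+* ℂ) (OK q) (μ • OK q) →
  ∃ π ∈ OK q, Complex.normSq π = (v : ℝ) ^ n ∧ ∀ (m : ℕ) (L : Submodule ℤ ℂ), ¬ v ∣ m →
    (m : ℂ) • OK q ≤ L → L ≤ OK q → Conj (σ : ℂ →+* ℂ) L (μ • (π • L ⊔ (m : ℂ) • OK q))

/-- Two singular moduli that are distinct modulo `q`. -/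
def G2Stmt : Prop := ∀ (q : ℕ) O (L : Submodule ℤ ℂ), q.Prime → 44 < q → q % 4 = 3 → Ov O q →
  IsLat L → om q • L ≤ L → jL L - jL (OK 11) ∉ O.nonunits

/-! ### P: Heegner points -/

def OddStmt : Prop := ∀ q l : ℕ, QF q → l.Prime → l ≠ 2 → l ≠ q → Spl q l → ∃ π, Gen q l π

def PStmt : Prop := ∀ Pp a t0, XI Pp a t0 → ∀ (q : ℕ) (k : ℕ → ℕ), QF q → Adm q k →
  ∃ S ρ ν j, HS q k a S ρ ν j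

/-! ### K: leading forms -/

def KStmt : Prop := ∀ (q : ℕ) (d : ℤ) (r : ℕ) (k : ℕ → ℕ) a S ρ ν j, QD q d → RD q d r →
  (∀ l : ℕ, l.Prime → (l : ℤ) ∣ d → k l = 1) → k r = 3 * tt d + 4 →
  (∀ p, Kol q d p → k p = tt d + 3) → (∀ l, k l ≤ 3 * tt d + 4) → HS q k a S ρ ν j →
  (∀ l : ℕ, l.Prime → (l : ℤ) ∣ d →
    (nr l = 1 → (j l r).val % 2 = 1) ∧ (nr l = 3 → (j l r).val % 4 = 2)) →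
  ∃ M ξ, KS q d r M ξ

/-! ### L: the cubic field -/

/-- The primes of the cubic field. -/
def PrStmt : Prop := ∀ (L : Type) [Field L] [NumberField L] (θ : L), Cub θ →
  (∃ ϑ : L, ϑ ^ 3 - 2 * ϑ ^ 2 + 2 = 0 ∧ θ = 8 * ϑ ^ 2 - 14 * ϑ ∧
    ∃ 𝔭 : Pr L, ab L 2 = {𝔭} ∧ nm 𝔭 = 2 ∧ og 𝔭 (2 : L) = 3 ∧ og 𝔭 ϑ = 1) ∧
  (∃ 𝔭 𝔮 : Pr L, 𝔭 ≠ 𝔮 ∧ (∀ 𝔯, 𝔯 ∈ ab L 11 ↔ 𝔯 = 𝔭 ∨ 𝔯 = 𝔮) ∧ nm 𝔭 = 11 ∧ nm 𝔮 = 11 ∧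
    og 𝔭 (11 : L) = 1 ∧ og 𝔮 (11 : L) = 2 ∧ 0 < og 𝔭 (θ - 8) ∧ 0 < og 𝔮 (θ - 9)) ∧
  (∀ l : ℕ, l.Prime → l ≠ 2 → l ≠ 11 →
    (∀ 𝔭 ∈ ab L l, og 𝔭 (l : L) = 1 ∧ og 𝔭 (2 : L) = 0 ∧ og 𝔭 (fd θ) = 0 ∧
      (nm 𝔭 = l ↔ 0 < og 𝔭 ((xr θ 𝔭 : L) - θ)) ∧ ((nm 𝔭).Prime ↔ nm 𝔭 = l)) ∧
    (∀ 𝔭 ∈ ab L l, ∀ 𝔮 ∈ ab L l, nm 𝔭 = l → 𝔮 ≠ 𝔭 → og 𝔮 ((xr θ 𝔭 : L) - θ) = 0) ∧
    (nr l = 0 → ∃ 𝔭, ab L l = {𝔭} ∧ nm 𝔭 = l ^ 3) ∧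
    (nr l = 1 → ∃ 𝔭 𝔮, 𝔭 ≠ 𝔮 ∧ (∀ 𝔯, 𝔯 ∈ ab L l ↔ 𝔯 = 𝔭 ∨ 𝔯 = 𝔮) ∧ nm 𝔭 = l ∧ nm 𝔮 = l ^ 2) ∧
    (nr l = 3 → (ab L l).card = 3 ∧ ∀ 𝔭 ∈ ab L l, nm 𝔭 = l) ∧
    (nr l = 0 ∨ nr l = 1 ∨ nr l = 3)) ∧
  (∀ (l : ℕ) (α : L), l.Prime → α ≠ 0 →
    padicValRat l (Algebra.norm ℚ α) = ∑ 𝔭 ∈ ab L l, (Nat.log l (nm 𝔭) : ℤ) * og 𝔭 α ∧
    (IsSquare (Algebra.norm ℚ α) → Even (∑ 𝔭 ∈ ab L l, (Nat.log l (nm 𝔭) : ℤ) * og 𝔭 α))) ∧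
  (∀ 𝔭 : Pr L, 0 ≤ og 𝔭 θ ∧ ∃ l : ℕ, l.Prime ∧ 𝔭 ∈ ab L l ∧
    ∀ n : ℕ, n ≠ 0 → (𝔭 ∈ ab L n ↔ l ∣ n)) ∧
  (∀ x : ℚ, (x : L) ≠ θ ∧ Algebra.norm ℚ ((x : L) - θ) = fc x) ∧
  (∀ α : L, ∃ a b c : ℚ, α = a + b * θ + c * θ ^ 2) ∧
  (∀ x : ℂ, fc x = 0 → ∃ e : L →+* ℂ, e θ = x) ∧
  (∀ (α : L) (e₁ e₂ e₃ : L →+* ℂ), e₁ θ ≠ e₂ θ → e₁ θ ≠ e₃ θ → e₂ θ ≠ e₃ θ →
    ((Algebra.norm ℚ α : ℚ) : ℂ) = e₁ α * e₂ α * e₃ α) ∧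
  ∃ e : L →+* ℝ, (∀ e' : L →+* ℝ, e' = e) ∧
    ∀ α : L, α ≠ 0 → IsSquare (Algebra.norm ℚ α) → 0 < e α

/-- The projection formula. -/
def PFStmt : Prop := ∀ (L : Type) [Field L] [NumberField L] (θ : L), Cub θ →
  ∀ (l : ℕ) (α : L) (c : ℚ), l.Prime → α ≠ 0 → IsSquare (Algebra.norm ℚ α) → c ≠ 0 →
    ∑ 𝔭 ∈ ab L l, hq 𝔭 α (c : L) = 0

/-- The local structure at `2`. -/
def TwoStmt : Prop := ∀ (L : Type) [Field L] [NumberField L] (θ : L), Cub θ →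
  (∀ α α' : L, α ≠ 0 → α' ≠ 0 → At2 α → At2 α' → At2 (α * α')) ∧
  (∀ α α' : L, α ≠ 0 → α' ≠ 0 → (∀ 𝔭 ∈ ab L 2, Even (og 𝔭 α) ∧ Even (og 𝔭 α')) → ¬ At2 α →
    ¬ At2 α' → At2 (α * α')) ∧
  (∀ α : L, At2 α → ∀ 𝔭 ∈ ab L 2, Even (og 𝔭 α)) ∧
  (∀ α α' : L, α ≠ 0 → α' ≠ 0 → IsSquare (Algebra.norm ℚ α) → IsSquare (Algebra.norm ℚ α') →
    At2 α → At2 α' → ∀ 𝔭 ∈ ab L 2, hq 𝔭 α α' = 0) ∧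
  ∀ (d : ℤ) (α : L), d % 4 = 1 → α ≠ 0 → IsSquare (Algebra.norm ℚ α) →
    (LocS θ d 2 α ↔ At2 α)

/-- The local condition at `11`. -/
def ElevenStmt : Prop := ∀ (L : Type) [Field L] [NumberField L] (θ : L), Cub θ →
  ∀ (d : ℤ) (α : L), ¬ (11 : ℤ) ∣ d → α ≠ 0 → IsSquare (Algebra.norm ℚ α) →
    (LocS θ d 11 α ↔ ∀ 𝔭 ∈ ab L 11, Even (og 𝔭 α))

/-- The local condition at a good prime. -/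
def GoodStmt : Prop := ∀ (L : Type) [Field L] [NumberField L] (θ : L), Cub θ →
  ∀ (d : ℤ) (p : ℕ) (α : L), p.Prime → p ≠ 2 → p ≠ 11 → ¬ (p : ℤ) ∣ d → α ≠ 0 →
    IsSquare (Algebra.norm ℚ α) → (LocS θ d p α ↔ ∀ 𝔭 ∈ ab L p, Even (og 𝔭 α))

/-- The coordinates at a prime that divides `d`. -/
def LocDStmt : Prop := ∀ (L : Type) [Field L] [NumberField L] (θ : L), Cub θ →
  ∀ (d : ℤ) (l : ℕ), Fam d → l.Prime → (l : ℤ) ∣ d →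
    (∀ α : L, α ≠ 0 → IsSquare (Algebra.norm ℚ α) → ∀ 𝔭 ∈ ab L l, nm 𝔭 = l →
      ((∀ 𝔮 ∈ ab L l, Even (og 𝔮 α)) → bv θ d 𝔭 α = nsq 𝔭 α) ∧
      ∀ 𝔭' ∈ ab L l, nm 𝔭' = l → (∀ 𝔮 ∈ ab L l, Even (og 𝔮 α) ↔ 𝔮 = 𝔭') →
        bv θ d 𝔭 α = nsq 𝔭 (α * gm θ d 𝔭' 𝔭)) ∧
    (∀ α α' : L, α ≠ 0 → α' ≠ 0 → IsSquare (Algebra.norm ℚ α) → IsSquare (Algebra.norm ℚ α') →
      ∑ 𝔮 ∈ ab L l, hq 𝔮 α α' = ∑ 𝔭 ∈ (ab L l).filter fun 𝔭 => nm 𝔭 = l,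
        (av 𝔭 α * bv θ d 𝔭 α' + bv θ d 𝔭 α * av 𝔭 α')) ∧
    (∀ α : L, α ≠ 0 → IsSquare (Algebra.norm ℚ α) → nr l = 3 →
      ∑ 𝔭 ∈ ab L l, av 𝔭 α = 0 ∧ ∑ 𝔭 ∈ ab L l, bv θ d 𝔭 α = 0) ∧
    ∀ α : L, α ≠ 0 → IsSquare (Algebra.norm ℚ α) →
      (LocS θ d l α ↔ ∀ 𝔭 ∈ ab L l, nm 𝔭 = l → bv θ d 𝔭 α = 0)

/-- Reciprocity, dimension and the description of the Selmer group. -/
def LStmt : Prop := ∀ (L : Type) [Field L] [NumberField L] (θ : L), Cub θ →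
  ∀ (d : ℤ), Fam d →
    (∀ α : L, SelC θ d α ↔ Wc d ∅ α ∧ ∀ 𝔭 ∈ D1 L d, bv θ d 𝔭 α = 0) ∧
    Module.finrank (ZMod 2) (UU L d) = tt d ∧
    ∀ B : Finset ℕ, (∀ p ∈ B, p.Prime ∧ p ≠ 2 ∧ p ≠ 11 ∧ ¬ (p : ℤ) ∣ d ∧ nr p = 1) →
      (∀ α α' : L, Wc d B α → Wc d B α' → Wc d B (α * α') ∧
        ∑ 𝔭 ∈ D1 L d, (av 𝔭 α * bv θ d 𝔭 α' + bv θ d 𝔭 α * av 𝔭 α') +
          ∑ p ∈ B, (sv p α * fv p α' + fv p α * sv p α') = 0) ∧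
      (∀ α : L, Wc d B α → (fun 𝔭 : D1 L d => av 𝔭.1 α) ∈ UU L d ∧
        (fun 𝔭 : D1 L d => bv θ d 𝔭.1 α) ∈ UU L d ∧
        (∀ p ∈ B, sv p α = 0 → Wc d (B.erase p) α) ∧
        ∀ p : ℕ, p.Prime → ¬ (p : ℤ) ∣ d → p ∉ B → sv p α = 0) ∧
      Module.Finite (ZMod 2) (WS L d B) ∧ tt d + B.card ≤ Module.finrank (ZMod 2) (WS L d B)

/-! ### C: from cocycles to classes, and the choice of primes -/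

/-- Cocycles and square classes. -/
def KumStmt : Prop := ∀ (L : Type) [Field L] [NumberField L] (θ : L), Cub θ →
  (∀ ξ, Coc ξ → ∃ α : L, α ≠ 0 ∧ IsSquare (Algebra.norm ℚ α) ∧ Kum θ α ξ) ∧
  ∀ (α : L) ξ, α ≠ 0 → Coc ξ → Kum θ α ξ → (IsSquare α ↔ Cob ξ)

/-- Ramification and Frobenius values of a class, away from `d`. -/
def Link1Stmt : Prop := ∀ (L : Type) [Field L] [NumberField L] (θ : L), Cub θ →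
  (∀ (e : L →+* ℂ) O (𝔭 : Pr L) (l : ℕ) (α : L) (s : ℂ), l.Prime → l ≠ 2 → l ≠ 11 → 𝔭 ∈ ab L l →
    Below e O 𝔭 → α ≠ 0 → s ^ 2 = e α →
    (∀ (σ : G) (u : ℂ) (c : ℤ), Frob O 1 σ → u ^ 2 = c → Squarefree c → (l : ℤ) ∣ c → σ u = -u →
      σ (e θ) = e θ ∧ (σ s = s ↔ Even (og 𝔭 α))) ∧
    ∀ φ : G, Frob O (nm 𝔭) φ → Even (og 𝔭 α) → φ (e θ) = e θ ∧ (φ s = s ↔ LSq 𝔭 α)) ∧
  (∀ (l : ℕ) O (u : ℂ) (c : ℤ), l.Prime → Ov O l → u ^ 2 = c → Squarefree c → (l : ℤ) ∣ c →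
    ∃ σ : G, Frob O 1 σ ∧ σ u = -u) ∧
  ∀ (α : L) ξ, α ≠ 0 → IsSquare (Algebra.norm ℚ α) → Coc ξ → Kum θ α ξ →
    (∀ v : ℕ, v.Prime → v ≠ 2 → v ≠ 11 → (∀ O, Ov O v → Unr O ξ) → ∀ 𝔭 ∈ ab L v, Even (og 𝔭 α)) ∧
    ∀ (p : ℕ) O (σ φ : G) (u : ℂ), p.Prime → p ≠ 2 → p ≠ 11 → nr p = 1 → Ov O p → Frob O 1 σ →
      Frob O p φ → u ^ 2 = GF.pst p → σ u = -u →
      (sv p α = 0 ↔ ξ σ = 0) ∧ (fv p α = 0 ↔ ξ (φ * φ) = 0)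

/-- The conditions at `2` and `11`. -/
def Link2Stmt : Prop := ∀ (L : Type) [Field L] [NumberField L] (θ : L), Cub θ →
  ∀ (α : L) ξ, α ≠ 0 → IsSquare (Algebra.norm ℚ α) → Coc ξ → Kum θ α ξ →
    ((∀ O, Ov O 2 → Unr O ξ) → At2 α) ∧
    ((∀ O, Ov O 11 → Unr O ξ) → ∀ 𝔭 ∈ ab L 11, Even (og 𝔭 α))

/-- From the system of cocycles to the system of classes. -/
def CKStmt : Prop := ∀ (L : Type) [Field L] [NumberField L] (θ : L), Cub θ →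
  ∀ (q : ℕ) (d : ℤ) (r M : ℕ) ξ, QD q d → RD q d r → KS q d r M ξ →
    ∃ α : Finset ℕ → ℕ → L, KL θ q d M α ∧ Kum θ (α ∅ 0) (ξ ∅ 0)

/-- Lemma K. -/
def CommStmt : Prop := ∀ (L : Type) [Field L] [NumberField L] (θ : L), Cub θ →
  ∀ (α : L) (m : ℕ) (e : L →+* ℂ) (s : ℂ), α ≠ 0 → IsSquare (Algebra.norm ℚ α) →
    (∀ 𝔭 ∈ ab L 11, Even (og 𝔭 α)) → ¬ IsSquare α → s ^ 2 = e α →
    ∃ g ∈ commutator G, (∀ T : Pt, 2 ^ (m + 1) • T = 0 → g • T = T) ∧ g s = -s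

/-- The choice of `q` and of the Kolyvagin primes. -/
def ChebStmt : Prop := ∀ (L : Type) [Field L] [NumberField L] (θ : L), Cub θ → ∀ d : ℤ, Fam d →
  (∀ α : L, Wc d ∅ α → ∃ q, QD q d ∧ (¬ IsSquare α → fv q α = 1)) ∧
  ∀ (q : ℕ) (T : Finset L) (lam : SqCl L →ₗ[ZMod 2] ZMod 2) (N : ℕ), QD q d →
    (∀ α ∈ T, ∃ B : Finset ℕ, 11 ∉ B ∧ Wc d B α) →
    ∃ p, N < p ∧ Kol q d p ∧ ∀ α ∈ T, fv p α = lam (cl α)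

/-- The choice of `r`. -/
def AuxStmt : Prop := ∀ (q : ℕ) (d : ℤ) (π : ℕ → ℂ), QD q d →
  (∀ l : ℕ, l.Prime → (l : ℤ) ∣ d → Gen q l (π l)) →
  ∃ (r : ℕ) (O : ValuationSubring ℂ), RD q d r ∧ Ov O r ∧ ∀ l : ℕ, l.Prime → (l : ℤ) ∣ d →
    (nr l = 1 → (starRingEnd ℂ (π l) / π l) ^ ((r + 1) / 2 ^ 1) - 1 ∉ O.nonunits) ∧
    (nr l = 3 → (starRingEnd ℂ (π l) / π l) ^ ((r + 1) / 2 ^ 1) - 1 ∈ O.nonunits ∧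
      (starRingEnd ℂ (π l) / π l) ^ ((r + 1) / 2 ^ 2) - 1 ∉ O.nonunits)

/-! ### M: the end -/

/-- The bottom class. -/
def FinStmt : Prop := ∀ (L : Type) [Field L] [NumberField L] (θ : L), Cub θ →
  ∀ (q : ℕ) (d : ℤ) (α : L) ξ S χ, QD q d → α ≠ 0 → IsSquare (Algebra.norm ℚ α) → ¬ IsSquare α →
    Coc ξ → Kum θ α ξ → Bot q d ξ S χ →
    (jacobiSym (-11) d.natAbs = -1 → (Tw d).Infinite ∧ sv q α = 0) ∧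
    (jacobiSym (-11) d.natAbs ≠ -1 → sv q α = 0 → fv q α = 0)

/-- The linear algebra applied to the system of classes. -/
def AsmStmt : Prop := ∀ (L : Type) [Field L] [NumberField L] (θ : L), Cub θ →
  ∀ (q : ℕ) (d : ℤ) (M : ℕ) (α : Finset ℕ → ℕ → L), QD q d → KL θ q d M α → M ≤ tt d →
    (∀ x : L, SelC θ d x → fv q x = 0 → IsSquare x) → M = tt d ∧ ¬ IsSquare (α ∅ 0)

/-- Descent. -/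
def NoStmt : Prop := ∀ (L : Type) [Field L] [NumberField L] (θ : L), Cub θ → ∀ d : ℤ, d ≠ 0 →
  (∀ α : L, SelC θ d α → IsSquare α) → (Tw d).Finite

/-- The order of the Selmer group is computable. -/
def CompStmt : Prop := ∃ c : ℤ → ℕ, Computable c ∧
  ∀ (L : Type) [Field L] [NumberField L] (θ : L), Cub θ → ∀ d : ℤ, Fam d → c d = selN θ d

/-- The main theorem. -/
def MainStmt : Prop := ∀ (L : Type) [Field L] [NumberField L] (θ : L), Cub θ → ∀ d : ℤ, Fam d →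
  (selN θ d = 2 → (Tw d).Infinite ∧ jacobiSym (-11) d.natAbs = -1) ∧
  (selN θ d = 1 → (Tw d).Finite ∧ jacobiSym (-11) d.natAbs = 1)

end Pool.Agent.Lib.MP_d6ddbd_nt.K11
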