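import Mathlib
import Pool.Agent.Lib.MP_02f36d_nt.Maps
import Pool.Agent.Lib.MP_9177b7_ag.CM.Main
import Pool.Agent.Lib.MP_ca56d1_nt.Compl
import Pool.Agent.Lib.MP_d6ddbd_nt.GF.Gen

/-!
A two-converse theorem for the quadratic twists of `X₀(11)`: definitions.
-/

set_option autoImplicit false

open NumberField IsDedekindDomain Pointwise
open Pool.Agent.Lib.MP_02f36d_nt (xc yc ptMap xc_ptMap yc_ptMap ptMap_ne pt_ext)
open Pool.Agent.Lib.MP_9177b7_ag.CM (IsLat sp Conj jL g2 g3)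
open Pool.Agent.Stark (Pr og hq LSq pw SqCl cl og_finite)

noncomputable section

namespace Pool.Agent.Lib.MP_d6ddbd_nt.K11

/-! ### The curve and the Galois action -/

/-- The automorphisms of `ℂ`. -/
abbrev G : Type := RingAut ℂ

/-- Complex conjugation. -/
def cj : G := starRingAut

@[simp] theorem cj_apply (z : ℂ) : cj z = starRingEnd ℂ z := rfl

theorem cj_mul_cj : cj * cj = 1 := RingEquiv.ext fun z => Complex.conj_conj z

/-- The cubic of the curve. -/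
def fc {R : Type*} [CommRing R] (x : R) : R := x ^ 3 - 4 * x ^ 2 - 160 * x - 1264

/-- The derivative of the cubic. -/
def fd {R : Type*} [CommRing R] (x : R) : R := 3 * x ^ 2 - 8 * x - 160

/-- The curve `X₀(11)` in the form `Y ^ 2 = X ^ 3 - 4 X ^ 2 - 160 X - 1264`. -/
def EE : WeierstrassCurve.Affine ℂ := ⟨0, -4, 0, -160, -1264⟩

abbrev Pt : Type := EE.Point

theorem EE_map (σ : G) : EE.map (σ : ℂ →+* ℂ) = EE := by
  ext <;> simp [EE, map_ofNat]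

theorem act_ext {P Q : Pt} (h0 : P = 0 ↔ Q = 0) (hx : xc P = xc Q) (hy : yc P = yc Q) : P = Q := by
  by_cases h : P = 0
  · rw [h, h0.1 h]
  · exact pt_ext h (fun e => h (h0.2 e)) hx hy

theorem ptMap_eq_zero (σ : G) (P : Pt) : ptMap (σ : ℂ →+* ℂ) (EE_map σ) P = 0 ↔ P = 0 :=
  ⟨fun h => by_contra fun h0 => ptMap_ne _ h0 h, fun h => by rw [h, map_zero]⟩

instance : SMul G Pt := ⟨fun σ P => ptMap (σ : ℂ →+* ℂ) (EE_map σ) P⟩

theorem xc_smul (σ : G) (P : Pt) : xc (σ • P) = σ (xc P) := xc_ptMap (EE_map σ) P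

theorem yc_smul (σ : G) (P : Pt) : yc (σ • P) = σ (yc P) := yc_ptMap (EE_map σ) P

theorem smul_eq_zero' (σ : G) (P : Pt) : σ • P = 0 ↔ P = 0 := ptMap_eq_zero σ P

instance : DistribMulAction G Pt where
  one_smul P := act_ext (smul_eq_zero' 1 P) (xc_smul 1 P) (yc_smul 1 P)
  mul_smul σ τ P := act_ext (by simp only [smul_eq_zero']) (by simp only [xc_smul]; rfl)
    (by simp only [yc_smul]; rfl)
  smul_zero σ := (smul_eq_zero' σ 0).2 rfl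
  smul_add σ P Q := map_add (ptMap (σ : ℂ →+* ℂ) (EE_map σ)) P Q

open Classical in
/-- The point with the given coordinates, when they lie on the curve. -/
def pt (x y : ℂ) : Pt := if h : EE.Nonsingular x y then .some x y h else 0

/-- Points with algebraic coordinates. -/
def AlgP (P : Pt) : Prop := IsAlgebraic ℚ (xc P) ∧ IsAlgebraic ℚ (yc P)

open Classical in
/-- The Weil pairing of a point of order two with the point `(e, 0)`. -/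
def wl (e : ℂ) (T : Pt) : ZMod 2 := if T = 0 ∨ xc T = e then 0 else 1

open Classical in
/-- The component at the root `e` of the Kummer class of a point. -/
def gam (e : ℂ) (R : Pt) : ℂ := if R = 0 then 1 else if xc R = e then fd e else xc R - e

/-- The number of roots of the cubic modulo `l`. -/
def nr (l : ℕ) : ℕ := Nat.card {x : ZMod l // fc x = 0}

/-- The exponent `t(d)`. -/
def tt (d : ℤ) : ℕ := ∑ l ∈ d.natAbs.primeFactors, (nr l + 1) / 2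

/-! ### Places -/

/-- The place `O` lies over `l`. -/
def Ov (O : ValuationSubring ℂ) (l : ℕ) : Prop := (l : ℂ) ∈ O.nonunits

/-- `σ` induces `x ↦ x ^ Q` on the residues of algebraic numbers (`Q = 1`: inertia). -/
def Frob (O : ValuationSubring ℂ) (Q : ℕ) (σ : G) : Prop :=
  ∀ x : ℂ, IsAlgebraic ℚ x → x ∈ O → σ x ∈ O ∧ σ x - x ^ Q ∈ O.nonunits

/-- The points that reduce to the origin. -/
def E1 (O : ValuationSubring ℂ) : AddSubgroup Pt := AddSubgroup.closure {P | xc P ∉ O}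

/-- The prime `𝔭` of `F` is the one below `O` for the embedding `e`. -/
def Below {F : Type} [Field F] [NumberField F] (e : F →+* ℂ) (O : ValuationSubring ℂ)
    (𝔭 : Pr F) : Prop := ∀ x : F, x ≠ 0 → (e x ∈ O ↔ 0 ≤ og 𝔭 x)

/-- Continuous cocycles with values in the points of order two. -/
structure Coc (ξ : G → Pt) : Prop where
  two : ∀ σ, 2 • ξ σ = 0
  mul : ∀ σ τ, ξ (σ * τ) = ξ σ + σ • ξ τ
  fin : ∃ J : Finset ℂ, (∀ x ∈ J, IsAlgebraic ℚ x) ∧ ∀ σ : G, (∀ x ∈ J, σ x = x) → ξ σ = 0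

/-- Coboundaries. -/
def Cob (ξ : G → Pt) : Prop := ∃ T : Pt, 2 • T = 0 ∧ ∀ σ : G, ξ σ = σ • T - T

/-- On the inertia group of `O` the cocycle is the Kummer cocycle of an invariant point. -/
def Unr (O : ValuationSubring ℂ) (ξ : G → Pt) : Prop :=
  ∃ S : Pt, AlgP S ∧ ∀ σ : G, Frob O 1 σ → σ • (2 • S) = 2 • S ∧ ξ σ = σ • S - S

/-! ### The cubic field -/

section Cubic

variable {L : Type} [Field L] [NumberField L]

/-- `L` is the cubic field generated by a root `θ` of the cubic. -/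
structure Cub (θ : L) : Prop where
  rk : Module.finrank ℚ L = 3
  eq : θ ^ 3 - 4 * θ ^ 2 - 160 * θ - 1264 = 0

variable (L) in
/-- The primes that divide `n`. -/
def ab (n : ℕ) : Finset (Pr L) := (og_finite (n : L)).toFinset

theorem mem_ab {n : ℕ} {𝔭 : Pr L} : 𝔭 ∈ ab L n ↔ og 𝔭 (n : L) ≠ 0 := by simp [ab]

theorem mem_ab' {n : ℕ} (hn : n ≠ 0) {𝔭 : Pr L} : 𝔭 ∈ ab L n ↔ (n : 𝓞 L) ∈ 𝔭.asIdeal := by
  have h1 := Pool.Agent.Stark.og_pos_iff 𝔭 (x := (n : 𝓞 L)) (by exact_mod_cast hn)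
  have h2 := Pool.Agent.Stark.og_nonneg 𝔭 (n : 𝓞 L)
  have e : ((n : 𝓞 L) : L) = n := rfl
  rw [e] at h1 h2
  rw [mem_ab, ← h1]
  omega

/-- The norm of a prime. -/
abbrev nm (𝔭 : Pr L) : ℕ := Ideal.absNorm 𝔭.asIdeal

variable (L) in
/-- The primes of degree one that divide `d`. -/
def D1 (d : ℤ) : Finset (Pr L) := (ab L d.natAbs).filter fun 𝔭 => (nm 𝔭).Prime

open Classical in
/-- The indicator of the local non-squares. -/
def nsq (𝔭 : Pr L) (α : L) : ZMod 2 := if LSq 𝔭 α then 0 else 1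

/-- The singular part at `p`. -/
def sv (p : ℕ) (α : L) : ZMod 2 := ∑ 𝔮 ∈ ab L p, (og 𝔮 α : ZMod 2)

/-- The finite part at `p`. -/
def fv (p : ℕ) (α : L) : ZMod 2 := ∑ 𝔮 ∈ (ab L p).filter fun 𝔮 => nm 𝔮 = p, hq 𝔮 α p

/-- An integer congruent to `θ` modulo `𝔭`. -/
def xr (θ : L) (𝔭 : Pr L) : ℤ :=
  Classical.epsilon fun x : ℤ => (x : L) - θ ∈ pw (𝔭.valuation L) 1

open Classical in
/-- The ramified coordinate at a prime of degree one. -/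
def av (𝔭 : Pr L) (α : L) : ZMod 2 := ∑ 𝔮 ∈ (ab L (nm 𝔭)).erase 𝔭, (og 𝔮 α : ZMod 2)

open Classical in
/-- The component at `𝔮` of the Kummer class on the twist by `d` of the point of order two
attached to `𝔭`. -/
def gm (θ : L) (d : ℤ) (𝔭 𝔮 : Pr L) : L := if 𝔮 = 𝔭 then fd θ else d * (xr θ 𝔭 - θ)

/-- The local pairing with that class. -/
def bv (θ : L) (d : ℤ) (𝔭 : Pr L) (α : L) : ZMod 2 :=
  ∑ 𝔮 ∈ ab L (nm 𝔭), hq 𝔮 α (gm θ d 𝔭 𝔮)

/-- The condition at `2`. -/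
def At2 (α : L) : Prop := ∀ 𝔭 ∈ ab L 2, ∃ β : L, α * β ^ 2 - 1 ∈ pw (𝔭.valuation L) 2

/-- Classes with the Kummer condition at `2` and `11`, unramified outside `d` and `B`. -/
structure Wc (d : ℤ) (B : Finset ℕ) (α : L) : Prop where
  ne : α ≠ 0
  sq : IsSquare (Algebra.norm ℚ α)
  two : At2 α
  ev : ∀ p : ℕ, p.Prime → ¬ (p : ℤ) ∣ d → p ∉ B → ∀ 𝔭 ∈ ab L p, Even (og 𝔭 α)

variable (L) in
/-- The space of these classes. -/
def WS (d : ℤ) (B : Finset ℕ) : Submodule (ZMod 2) (SqCl L) :=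
  Submodule.span (ZMod 2) (cl '' {α : L | Wc d B α})

variable (L) in
/-- The target of the coordinates `av`, `bv`. -/
def UU (d : ℤ) : Submodule (ZMod 2) (D1 L d → ZMod 2) where
  carrier := {u | ∀ l : ℕ, nr l = 3 → ∑ 𝔭 : D1 L d, (if nm 𝔭.1 = l then u 𝔭 else 0) = 0}
  add_mem' := fun {u v} hu hv l hl => by
    have := congrArg₂ (· + ·) (hu l hl) (hv l hl)
    simp only [← Finset.sum_add_distrib, add_zero] at this
    exact Eq.trans (Finset.sum_congr rfl fun 𝔭 _ => by split_ifs <;> simp) this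
  zero_mem' := fun l _ => by simp
  smul_mem' := fun c u hu l hl => by
    have := congrArg (c * ·) (hu l hl)
    simp only [Finset.mul_sum, mul_zero] at this
    exact Eq.trans (Finset.sum_congr rfl fun 𝔭 _ => by split_ifs <;> simp) this

/-- `α` represents the class of the cocycle `ξ`. -/
def Kum (θ α : L) (ξ : G → Pt) : Prop :=
  ∀ (e : L →+* ℂ) (s : ℂ) (σ : G), s ^ 2 = e α → σ (e θ) = e θ → (σ s = s ↔ wl (e θ) (ξ σ) = 0)

/-- The two-covering of the twist by `d` attached to `α` has a point over `ℚ_p`. -/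
def LocS (θ : L) (d : ℤ) (p : ℕ) (α : L) : Prop :=
  ∃ x z : ℚ, (x : L) - d * (z : L) ^ 2 * θ ≠ 0 ∧ ∀ 𝔭 : Pr L, (p : 𝓞 L) ∈ 𝔭.asIdeal →
    LSq 𝔭 (α * ((x : L) - d * (z : L) ^ 2 * θ))

/-- `α` represents a class of the two-Selmer group of the twist by `d`. -/
def SelC (θ : L) (d : ℤ) (α : L) : Prop :=
  α ≠ 0 ∧ IsSquare (Algebra.norm ℚ α) ∧ ∀ p : ℕ, p.Prime → LocS θ d p α

/-- The order of the two-Selmer group of the twist by `d`. -/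
def selN (θ : L) (d : ℤ) : ℕ := Nat.card {c : SqCl L // ∃ α, SelC θ d α ∧ cl α = c}

end Cubic

/-- The rational points of the twist by `d`. -/
def Tw (d : ℤ) : Set (ℚ × ℚ) :=
  {P | (d : ℚ) * P.2 ^ 2 = P.1 ^ 3 - 4 * P.1 ^ 2 - 160 * P.1 - 1264}

/-! ### The imaginary quadratic field and the auxiliary primes -/

/-- The generator `(1 + √-q) / 2`. -/
def om (q : ℕ) : ℂ := (1 + Complex.I * Real.sqrt q) / 2

theorem om_im {q : ℕ} (hq : q ≠ 0) : 0 < (om q).im := by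
  have : 0 < Real.sqrt q := Real.sqrt_pos.2 (by positivity)
  simp [om]
  exact Nat.pos_of_ne_zero hq

theorem om_sq' (q : ℕ) : (2 * om q - 1) ^ 2 = -q := by
  have h : ((Real.sqrt q : ℝ) : ℂ) ^ 2 = q := by
    rw [← Complex.ofReal_pow, Real.sq_sqrt (by positivity)]; simp
  rw [om]
  linear_combination Complex.I ^ 2 * h + (q : ℂ) * Complex.I_sq

theorem om_sq {q : ℕ} (hq : q % 4 = 3) : om q ^ 2 = om q - (((q + 1) / 4 : ℕ) : ℤ) := by
  obtain ⟨n, hn⟩ : ∃ n, q + 1 = 4 * n := ⟨(q + 1) / 4, by omega⟩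
  have h1 : (q + 1) / 4 = n := by omega
  have h2 : (q : ℂ) + 1 = 4 * n := by exact_mod_cast hn
  rw [h1]
  push_cast
  linear_combination (om_sq' q) / 4 - h2 / 4

/-- The maximal order. -/
def OK (q : ℕ) : Submodule ℤ ℂ := sp 1 (om q)

/-- The odd prime `l ≠ q` splits in `ℚ(√-q)`. -/
def Spl (q l : ℕ) : Prop := IsSquare (-(q : ZMod l))

/-- The hypotheses on `q`. -/
structure QF (q : ℕ) : Prop where
  pr : q.Prime
  big : 44 < q
  m4 : q % 4 = 3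
  s11 : Spl q 11

/-- The family of twists. -/
structure Fam (d : ℤ) : Prop where
  sf : Squarefree d
  m4 : d % 4 = 1
  n11 : ¬ (11 : ℤ) ∣ d

/-- The hypotheses on `q` relative to `d`. -/
structure QD (q : ℕ) (d : ℤ) : Prop where
  fam : Fam d
  qf : QF q
  nd : ¬ (q : ℤ) ∣ d
  ty : nr q = 1
  spl : ∀ l : ℕ, l.Prime → (l : ℤ) ∣ d → Spl q l

/-- The hypotheses on the auxiliary prime `r`. -/
structure RD (q : ℕ) (d : ℤ) (r : ℕ) : Prop where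
  pr : r.Prime
  n11 : r ≠ 11
  nq : r ≠ q
  nd : ¬ (r : ℤ) ∣ d
  dv : 2 ^ (3 * tt d + 4) ∣ r + 1
  inert : ¬ Spl q r
  ty : nr r = 0

/-- Kolyvagin primes. -/
structure Kol (q : ℕ) (d : ℤ) (p : ℕ) : Prop where
  pr : p.Prime
  n11 : p ≠ 11
  nq : p ≠ q
  nd : ¬ (p : ℤ) ∣ d
  dv : 2 ^ (tt d + 3) ∣ p + 1
  inert : ¬ Spl q p
  ty : nr p = 1
  fr : ∃ (O : ValuationSubring ℂ) (φ : G), Ov O p ∧ Frob O p φ ∧
    ∀ T : Pt, 2 ^ (tt d + 3) • T = 0 → φ • φ • T = T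

/-- Finite sets of Kolyvagin primes. -/
def Kn (q : ℕ) (d : ℤ) (n : Finset ℕ) : Prop := ∀ p ∈ n, Kol q d p

/-- `π` generates an odd power of a prime above the split prime `l`. -/
def Gen (q l : ℕ) (π : ℂ) : Prop :=
  π ∈ OK q ∧ π ∉ (l : ℂ) • OK q ∧ ∃ h : ℕ, Odd h ∧ Complex.normSq π = (l : ℝ) ^ h

/-! ### Level structures and the Heegner system -/

/-- A lattice with a level structure of level `11`. -/
def Lv (L M : Submodule ℤ ℂ) : Prop := IsLat L ∧ L < M ∧ (11 : ℂ) • M < L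

/-- The sublattices of index `l`. -/
def Nb (l : ℕ) (L L' : Submodule ℤ ℂ) : Prop := (l : ℂ) • L < L' ∧ L' < L

/-- The properties of the modular parametrisation. -/
structure XI (Pp : Submodule ℤ ℂ → Submodule ℤ ℂ → Pt) (a : ℕ → ℤ) (t0 : Pt) : Prop where
  scale : ∀ L M (c : ℂ), Lv L M → c ≠ 0 → Pp (c • L) (c • M) = Pp L M
  conj : ∀ (σ : G) L M L' M', Lv L M → g2 L ≠ 0 → g3 L ≠ 0 → Conj (σ : ℂ →+* ℂ) L L' →
    Conj (σ : ℂ →+* ℂ) M M' → Pp L' M' = σ • Pp L M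
  fricke : ∀ L M, Lv L M → Pp M ((11 : ℂ)⁻¹ • L) = t0 - Pp L M
  five : 5 • t0 = 0
  rat : ∀ σ : G, σ • t0 = t0
  hecke : ∀ (l : ℕ) L M (s : Finset (Submodule ℤ ℂ)), l.Prime → l ≠ 11 → Lv L M →
    (∀ L', L' ∈ s ↔ Nb l L L') → ∑ L' ∈ s, Pp L' (L' ⊔ (l : ℂ) • M) = a l • Pp L M
  nb : ∀ (l : ℕ) O (φ : G) L M L', l.Prime → l ≠ 2 → l ≠ 11 → Ov O l → Frob O l φ → Lv L M →
    AlgP (Pp L M) → Nb l L L' → Pp L' (L' ⊔ (l : ℂ) • M) - φ • Pp L M ∈ E1 O ∨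
      Pp L' (L' ⊔ (l : ℂ) • M) - φ⁻¹ • Pp L M ∈ E1 O
  es : ∀ (l : ℕ) O (φ : G) (P : Pt), l.Prime → l ≠ 2 → l ≠ 11 → Ov O l → Frob O l φ → AlgP P →
    a l • P - (φ • P + l • φ⁻¹ • P) ∈ E1 O
  jc : ∀ (v : ℕ) O L M L' M', v.Prime → 44 < v → Ov O v → Lv L M → Lv L' M' →
    Pp L' M' = 3 • t0 → Pp L M - 3 • t0 ∈ E1 O → jL L - jL L' ∈ O.nonunits

/-- The group of coordinates. -/
abbrev A (k : ℕ → ℕ) : Type := ∀ l : ℕ, ZMod (2 ^ k l)

/-- Admissible exponents. -/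
def Adm (q : ℕ) (k : ℕ → ℕ) : Prop := ∀ l, k l ≠ 0 → l.Prime ∧ l ≠ 2 ∧ l ≠ 11 ∧ l ≠ q ∧
  (Spl q l → 2 ^ k l ∣ l - 1) ∧ (¬ Spl q l → 2 ^ k l ∣ l + 1)

/-- Admissible conductors. -/
def Cd (k : ℕ → ℕ) (c : Finset ℕ) : Prop := ∀ l ∈ c, k l ≠ 0

/-- `Φ` depends only on the coordinates in `c`. -/
def Dep {k : ℕ → ℕ} (c : Finset ℕ) (Φ : A k → ℤ) : Prop :=
  ∀ g g' : A k, (∀ l ∈ c, g l = g' l) → Φ g = Φ g'

/-- The Heegner system: `S c Φ` is the sum of the Heegner points of conductor `c` with the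
weights `Φ` of their coordinates. -/
structure HS (q : ℕ) (k : ℕ → ℕ) (a : ℕ → ℤ) (S : Finset ℕ → (A k → ℤ) →+ Pt) (ρ : G → A k)
    (ν : A k) (j : ℕ → A k) : Prop where
  alg : ∀ c Φ, Cd k c → AlgP (S c Φ)
  rho_mul : ∀ σ τ : G, σ (om q) = om q → τ (om q) = om q → ρ (σ * τ) = ρ σ + ρ τ
  rho_cj : ∀ σ : G, σ (om q) = om q → ρ (cj * σ * cj) = -ρ σ
  act : ∀ c Φ (σ : G), Cd k c → Dep c Φ → σ (om q) = om q →
    σ • S c Φ = S c fun g => Φ (g - ρ σ)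
  conj : ∀ c Φ, Cd k c → Dep c Φ → cj • S c Φ = -S c fun g => Φ (ν - g)
  inert : ∀ c Φ l, Cd k c → Dep c Φ → k l ≠ 0 → l ∉ c → ¬ Spl q l →
    S (insert l c) Φ = a l • S c Φ
  split : ∀ c Φ l, Cd k c → Dep c Φ → k l ≠ 0 → l ∉ c → Spl q l →
    S (insert l c) Φ = a l • S c Φ - S c (fun g => Φ (g - j l)) - S c fun g => Φ (g + j l)
  cong : ∀ c Φ p O (φ : G), Cd k c → Dep (insert p c) Φ → k p ≠ 0 → p ∉ c → ¬ Spl q p → Ov O p →
    Frob O p φ → S (insert p c) Φ - φ • S c (fun g => (((p + 1) / 2 ^ k p : ℕ) : ℤ) *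
      ∑ x : ZMod (2 ^ k p), Φ (Function.update g p x)) ∈ E1 O
  iner : ∀ (v : ℕ) O (σ : G) l, v.Prime → Ov O v → Frob O 1 σ → σ (om q) = om q → l ≠ v →
    ρ σ l = 0
  frob : ∀ l O (φ : G) l', k l ≠ 0 → Spl q l → Ov O l → Frob O l φ → l' ≠ l →
    ∃ u : ℤ, Odd u ∧ ρ φ l' = u * j l l'
  gen : ∀ (σ : G) l (s : ℂ), σ (om q) = om q → k l ≠ 0 → s ^ 2 = GF.pst l →
    (σ s = s ↔ Even (ρ σ l).val)
  nu : ∀ l, k l ≠ 0 → (Even (ν l).val ↔ jacobiSym 11 l = 1)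
  val : ∀ l r (π : ℂ) (i : ℕ) O, k l ≠ 0 → Spl q l → k r ≠ 0 → ¬ Spl q r → i ≤ k r → Gen q l π →
    Ov O r → (2 ^ i ∣ (j l r).val ↔ (starRingEnd ℂ π / π) ^ ((r + 1) / 2 ^ i) - 1 ∈ O.nonunits)
  base : ∀ O, Ov O q → S ∅ (fun _ => 1) ∉ E1 O
  es : ∀ (l : ℕ) O (φ : G) (P : Pt), l.Prime → l ≠ 2 → l ≠ 11 → Ov O l → Frob O l φ → AlgP P →
    a l • P - (φ • P + l • φ⁻¹ • P) ∈ E1 O

/-- The point behind the bottom class. -/
def Bot (q : ℕ) (d : ℤ) (ξ : G → Pt) (S : Pt) (χ : G → ℤ) : Prop :=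
  AlgP S ∧ (∀ σ, χ σ = 1 ∨ χ σ = -1) ∧
    (∀ (σ : G) (s : ℂ), s ^ 2 = d → σ (om q) = om q → σ s = χ σ * s) ∧
    χ cj = -jacobiSym 11 d.natAbs ∧
    ∀ σ : G, σ • (2 • S) = χ σ • (2 • S) ∧ ξ σ = σ • S - χ σ • S

/-- The system of cocycles. -/
structure KS (q : ℕ) (d : ℤ) (r M : ℕ) (ξ : Finset ℕ → ℕ → G → Pt) : Prop where
  le : M ≤ tt d
  top : ∀ n j σ, M < j → ξ n j σ = 0
  coc : ∀ n j, Kn q d n → Coc (ξ n j)
  ne : ∃ n j, Kn q d n ∧ ¬ Cob (ξ n j)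
  unr : ∀ n j (v : ℕ) O, Kn q d n → v.Prime → Ov O v → v ≠ q → v ≠ r → ¬ (v : ℤ) ∣ d → v ∉ n →
    Unr O (ξ n j)
  atd : ∀ n (l : ℕ) O (σ φ : G) (η : ℤ) (s : ℂ), Kn q d n → l.Prime → (l : ℤ) ∣ d → nr l ≠ 0 →
    Ov O l → Frob O 1 σ → Frob O l φ → s ^ 2 = d → σ s = -s → φ s = η * s →
    ∃ Z S : ℕ → Pt, (∀ j, 2 • Z j = 0 ∧ 2 • S j = ξ n j σ ∧
        ξ n j φ = φ • S j - η • S j + Z j) ∧
      (nr l = 3 → Z 0 = 0 ∧ ∀ j, Z (j + 1) = ξ n j σ) ∧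
      (nr l = 1 → φ • Z 0 = Z 0 ∧ ∀ j, φ • Z (j + 1) - Z (j + 1) = ξ n j σ)
  atp : ∀ n j p O (σ φ : G) (s : ℂ), Kn q d n → Kol q d p → p ∉ n → Ov O p → Frob O 1 σ →
    Frob O p φ → (∀ T : Pt, 2 ^ (tt d + 3) • T = 0 → φ • φ • T = T) → s ^ 2 = GF.pst p →
    σ s = -s → φ • ξ (insert p n) j σ = ξ n j (φ * φ) ∧ ξ (insert p n) j (φ * φ) = 0
  bot : M = tt d → ∃ S χ, Bot q d (ξ ∅ 0) S χ

/-- The system of classes in the cubic field. -/
structure KL {L : Type} [Field L] [NumberField L] (θ : L) (q : ℕ) (d : ℤ) (M : ℕ)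
    (α : Finset ℕ → ℕ → L) : Prop where
  mem : ∀ n j, Kn q d n → Wc d (insert q n) (α n j)
  top : ∀ n j, M < j → IsSquare (α n j)
  ne : ∃ n j, Kn q d n ∧ ¬ IsSquare (α n j)
  b0 : ∀ n, Kn q d n → ∀ 𝔭 ∈ D1 L d, bv θ d 𝔭 (α n 0) = 0
  ab : ∀ n j, Kn q d n → ∀ 𝔭 ∈ D1 L d, av 𝔭 (α n j) = bv θ d 𝔭 (α n (j + 1))
  fp : ∀ n j, Kn q d n → ∀ p ∈ n, fv p (α n j) = 0
  sp : ∀ n j p, Kn q d n → Kol q d p → p ∉ n → sv p (α (insert p n) j) = fv p (α n j)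

end Pool.Agent.Lib.MP_d6ddbd_nt.K11
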