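import Pool.Agent.Lib.MP_d6ddbd_nt.K11.Pr1

/-!
The primes of the cubic field of `X₀(11)`.
-/

set_option autoImplicit false

open NumberField IsDedekindDomain Polynomial
open Pool.Agent.Stark

noncomputable section

namespace Pool.Agent.Lib.MP_d6ddbd_nt.K11

namespace PrA

variable {L : Type} [Field L] [NumberField L]

omit [NumberField L] in
theorem coe_inj {x y : 𝓞 L} (h : (x : L) = y) : x = y := RingOfIntegers.coe_injective h

theorem og_zero_iff (q : Pr L) {x : 𝓞 L} (hx : x ≠ 0) : og q (x : L) = 0 ↔ x ∉ q.asIdeal := by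
  have := og_nonneg q x
  rw [← og_pos_iff q hx]
  omega

theorem og_eq_zero (q : Pr L) {x : 𝓞 L} (hx : x ∉ q.asIdeal) : og q (x : L) = 0 :=
  (og_zero_iff q fun e => hx (by rw [e]; exact q.asIdeal.zero_mem)).2 hx

theorem og_mul' (q : Pr L) {x y : 𝓞 L} (hx : x ≠ 0) (hy : y ≠ 0) :
    og q ((x * y : 𝓞 L) : L) = og q (x : L) + og q (y : L) := by
  simp only [RingOfIntegers.coe_eq_algebraMap, map_mul]
  exact ord_mul (by simpa using hx) (by simpa using hy)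

theorem exists_v {θ : L} (h : Cub θ) : ∃ v : 𝓞 L, v ^ 3 - 2 * v ^ 2 + 2 = 0 ∧
    θ = 8 * (v : L) ^ 2 - 14 * v ∧ ∀ n : ℤ, v - n ≠ 0 := by
  obtain ⟨ϑ, hϑ⟩ : ∃ ϑ : L, 242 * ϑ = 384 + θ - 2 * θ ^ 2 := ⟨_, mul_div_cancel₀ _ (by norm_num)⟩
  have h2 : θ = 8 * ϑ ^ 2 - 14 * ϑ := by
    have : (242 : L) ^ 2 * (θ - (8 * ϑ ^ 2 - 14 * ϑ)) = 0 := by
      linear_combination (-8 * (242 * ϑ + (384 + θ - 2 * θ ^ 2)) + 14 * 242) * hϑ +
        (-32 * θ - 96) * h.eq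
    exact sub_eq_zero.1 ((mul_eq_zero.1 this).resolve_left (by norm_num))
  have h1 : ϑ ^ 3 - 2 * ϑ ^ 2 + 2 = 0 := by
    have : (128 * ϑ - 192) * (ϑ ^ 3 - 2 * ϑ ^ 2 + 2) = 0 ∧
        (512 * ϑ ^ 3 - 1664 * ϑ ^ 2 + 1120 * ϑ - 632) * (ϑ ^ 3 - 2 * ϑ ^ 2 + 2) = 0 := by
      have e1 := h.eq
      rw [h2] at hϑ e1
      constructor
      · linear_combination hϑ
      · linear_combination e1
    linear_combination (-(4 * ϑ ^ 2 - 7 * ϑ - 7 / 4) * this.1 + this.2) / (-968)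
  have hi : IsIntegral ℤ ϑ := ⟨X ^ 3 - C 2 * X ^ 2 + C 2, by monicity!, by simpa using h1⟩
  refine ⟨⟨ϑ, hi⟩, coe_inj (by simpa [map_ofNat] using h1), h2, fun n e => ?_⟩
  have e1 : ϑ = n := by simpa using congrArg (fun x : 𝓞 L => (x : L)) (sub_eq_zero.1 e)
  exact ne_th h ((8 * n ^ 2 - 14 * n : ℤ) : ℚ) (by rw [h2, e1]; push_cast; rfl)

theorem at_two {θ : L} (h : Cub θ) : ∃ ϑ : L, ϑ ^ 3 - 2 * ϑ ^ 2 + 2 = 0 ∧
    θ = 8 * ϑ ^ 2 - 14 * ϑ ∧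
    ∃ 𝔭 : Pr L, ab L 2 = {𝔭} ∧ nm 𝔭 = 2 ∧ og 𝔭 (2 : L) = 3 ∧ og 𝔭 ϑ = 1 := by
  classical
  obtain ⟨v, hv, h1, h2⟩ := exists_v h
  have hv0 : v ≠ 0 := by simpa using h2 0
  have hv2 : v - 2 ≠ 0 := by simpa using h2 2
  have key : ∀ q ∈ ab L 2, 0 < og q (v : L) ∧ 2 * og q (v : L) < og q (2 : L) := fun q hq => by
    rw [mem_ab' two_ne_zero, Nat.cast_ofNat] at hq
    have a1 : v ∈ q.asIdeal := q.isPrime.mem_of_pow_mem 3 (by
      rw [show v ^ 3 = (v ^ 2 - 1) * 2 by linear_combination hv]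
      exact q.asIdeal.mul_mem_left _ hq)
    have a2 := (og_pos_iff q hv2).2 (q.asIdeal.sub_mem a1 hq)
    have a3 := og_mul' q (mul_ne_zero hv0 hv0) hv2
    rw [og_mul' q hv0 hv0, show v * v * (v - 2) = -2 by linear_combination hv] at a3
    have a4 : og q ((-2 : 𝓞 L) : L) = og q (2 : L) := by
      simp only [map_neg, map_ofNat]
      exact ord_neg _
    exact ⟨(og_pos_iff q hv0).2 a1, by omega⟩
  have hs := sum_ef (L := L) Nat.prime_two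
  rw [h.rk, Nat.cast_ofNat, Nat.cast_ofNat] at hs
  have k3 : ∀ q ∈ ab L 2, og q (2 : L) ≤ (Nat.log 2 (nm q) : ℤ) * og q (2 : L) := fun q hq =>
    le_mul_of_one_le_left (by have := key q hq; omega)
      (by exact_mod_cast (res_ab Nat.prime_two hq).1)
  refine ⟨v, by simpa [map_ofNat] using congrArg (fun x : 𝓞 L => (x : L)) hv, h1, ?_⟩
  rcases tri (fun q hq => by have := key q hq; have := k3 q hq; omega) hs with
    ⟨a, ha, hw⟩ | ⟨a, b, -, ha, hw, -⟩ | ⟨hc, hw⟩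
  · have hm : a ∈ ab L 2 := by simp [ha]
    have b1 := key a hm
    have b2 := k3 a hm
    have b3 : og a (2 : L) = 3 := by omega
    refine ⟨a, ha, ?_, b3, by omega⟩
    rw [b3] at hw
    rw [(res_ab Nat.prime_two hm).2.1, show Nat.log 2 (nm a) = 1 by omega, pow_one]
  · have hm : a ∈ ab L 2 := by simp [ha]
    have b1 := key a hm
    have b2 := k3 a hm
    omega
  · obtain ⟨a, hm⟩ := Finset.card_pos.1 (show 0 < (ab L 2).card by omega)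
    have b1 := key a hm
    have b2 := k3 a hm
    have := hw a hm
    omega

theorem not_mem {l : ℕ} (hl : l.Prime) {q : Pr L} (hq : q ∈ ab L l) {x : 𝓞 L} (n : ℤ)
    (hn : ¬ (l : ℤ) ∣ n) (h : x - n ∈ q.asIdeal) : x ∉ q.asIdeal := fun hx =>
  hn (((res_ab hl hq).2.2 n).1 (by simpa using q.asIdeal.sub_mem hx h))

theorem pos_of {θ : L} (h : Cub θ) (q : Pr L) (n : ℕ) {x : 𝓞 L} (hx : x ∈ q.asIdeal)
    (e : (x : L) = θ - n) : 0 < og q (θ - n) := by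
  rw [← e]
  refine (og_pos_iff q fun e0 => ne_th h n ?_).2 hx
  rw [e0] at e
  exact_mod_cast (sub_eq_zero.1 (e.symm.trans (map_zero _))).symm

theorem at_eleven {θ : L} (h : Cub θ) : ∃ 𝔭 𝔮 : Pr L, 𝔭 ≠ 𝔮 ∧
    (∀ 𝔯, 𝔯 ∈ ab L 11 ↔ 𝔯 = 𝔭 ∨ 𝔯 = 𝔮) ∧ nm 𝔭 = 11 ∧ nm 𝔮 = 11 ∧
    og 𝔭 (11 : L) = 1 ∧ og 𝔮 (11 : L) = 2 ∧ 0 < og 𝔭 (θ - 8) ∧ 0 < og 𝔮 (θ - 9) := by
  classical
  obtain ⟨v, hv, h1, h2⟩ := exists_v h
  have hl : Nat.Prime 11 := by norm_num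
  have hv3 : v - 3 ≠ 0 := by simpa using h2 3
  have hv5 : v - 5 ≠ 0 := by simpa using h2 5
  have e8 : (((v - 3) * (8 * v + 10) + 2 * 11 : 𝓞 L) : L) = θ - (8 : ℕ) := by
    simp only [map_add, map_mul, map_sub, map_ofNat, h1]
    push_cast
    ring
  have e9 : (((v - 5) * (8 * v + 26) + 11 * 11 : 𝓞 L) : L) = θ - (9 : ℕ) := by
    simp only [map_add, map_mul, map_sub, map_ofNat, h1]
    push_cast
    ring
  have m11 : ∀ q ∈ ab L 11, (11 : 𝓞 L) ∈ q.asIdeal := fun q hq => by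
    rwa [mem_ab' hl.ne_zero, Nat.cast_ofNat] at hq
  have fac : (v - 5) * (v - 5) * (v - 3) = 11 * -(v ^ 2 - 5 * v + 7) := by linear_combination hv
  have ev : ∀ q ∈ ab L 11, v - 5 ∈ q.asIdeal → Even (og q (11 : L)) := fun q hq h5 => by
    have a1 : v - 3 ∉ q.asIdeal := not_mem hl hq 2 (by decide) (by convert h5 using 1; push_cast; ring)
    have a2 : -(v ^ 2 - 5 * v + 7) ∉ q.asIdeal := not_mem hl hq (-7) (by decide) (by
      convert q.asIdeal.mul_mem_left (-v) h5 using 1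
      push_cast
      ring)
    have a3 := og_mul' q (mul_ne_zero hv5 hv5) hv3
    rw [og_mul' q hv5 hv5, fac, og_mul' q (by norm_num) fun e => a2 (by
      rw [e]; exact q.asIdeal.zero_mem), og_eq_zero q a1, og_eq_zero q a2] at a3
    simp only [map_ofNat, add_zero] at a3
    exact ⟨_, a3⟩
  have alt : ∀ q ∈ ab L 11, v - 5 ∈ q.asIdeal ∨ v - 3 ∈ q.asIdeal := fun q hq =>
    (q.isPrime.mem_or_mem (fac ▸ q.asIdeal.mul_mem_right _ (m11 q hq))).imp_left fun a =>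
      (q.isPrime.mem_or_mem a).elim id id
  have hne : ((v - 5) * (8 * v + 26) + 11 * 11 : 𝓞 L) ≠ 0 := fun e0 => ne_th h 9 (by
    rw [e0] at e9
    exact_mod_cast (sub_eq_zero.1 (e9.symm.trans (map_zero _))).symm)
  obtain ⟨𝔮, hq, hq9⟩ := exists_mem hl (neg_ne_zero.2 hne) (n := -2299) (by
    have := norm_sub h 9
    rw [RingOfIntegers.coe_eq_algebraMap, map_neg, ← RingOfIntegers.coe_eq_algebraMap, e9, neg_sub]
    norm_num [fc] at this ⊢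
    exact this) (by decide)
  rw [neg_mem_iff] at hq9
  have hq5 : v - 5 ∈ 𝔮.asIdeal := (alt 𝔮 hq).resolve_right fun a =>
    not_mem hl hq (-1) (by decide) (by
      convert 𝔮.asIdeal.add_mem (𝔮.asIdeal.mul_mem_right (8 * v + 10) a)
        (𝔮.asIdeal.mul_mem_left 2 (m11 𝔮 hq)) using 1
      push_cast
      ring) hq9
  have hs := sum_ef (L := L) hl
  rw [h.rk, Nat.cast_ofNat, Nat.cast_ofNat] at hs
  have k2 : ∀ q ∈ ab L 11, 0 < og q (11 : L) := fun q hq => by simpa using og_pos hq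
  have k4 : ∀ q ∈ ab L 11, 1 ≤ (Nat.log 11 (nm q) : ℤ) := fun q hq => by
    exact_mod_cast (res_ab hl hq).1
  have k3 : ∀ q ∈ ab L 11, og q (11 : L) ≤ (Nat.log 11 (nm q) : ℤ) * og q (11 : L) := fun q hq =>
    le_mul_of_one_le_left (k2 q hq).le (k4 q hq)
  have b1 := k2 𝔮 hq
  have b2 := k3 𝔮 hq
  obtain ⟨m, b3⟩ := ev 𝔮 hq hq5
  rcases tri (fun q hq => by have := k2 q hq; have := k3 q hq; omega) hs with
    ⟨a, ha, hw⟩ | ⟨a, b, hab, ha, hw, hw'⟩ | ⟨hc, hw⟩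
  · obtain rfl : 𝔮 = a := by simpa [ha] using hq
    rw [show og 𝔮 (11 : L) = 2 by omega] at hw
    omega
  · have hm : a ∈ ab L 11 := by simp [ha]
    have c1 := k2 a hm
    have c2 := k3 a hm
    have c3 : og a (11 : L) = 1 := by omega
    obtain rfl : 𝔮 = b := by
      refine (show 𝔮 = a ∨ 𝔮 = b by simpa [ha] using hq).resolve_left ?_
      rintro rfl
      omega
    have c4 : og 𝔮 (11 : L) = 2 := by omega
    rw [c3] at hw
    rw [c4] at hw'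
    have c5 : v - 3 ∈ a.asIdeal := (alt a hm).resolve_left fun a5 => by
      obtain ⟨m, hm⟩ := ev a hm a5
      omega
    refine ⟨a, 𝔮, hab, fun r => by simp [ha], ?_, ?_, c3, c4, ?_, ?_⟩
    · rw [(res_ab hl hm).2.1, show Nat.log 11 (nm a) = 1 by omega, pow_one]
    · rw [(res_ab hl hq).2.1, show Nat.log 11 (nm 𝔮) = 1 by omega, pow_one]
    · simpa using pos_of h a 8 (a.asIdeal.add_mem (a.asIdeal.mul_mem_right _ c5)
        (a.asIdeal.mul_mem_left _ (m11 a hm))) e8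
    · simpa using pos_of h 𝔮 9 hq9 e9
  · have := hw 𝔮 hq
    omega

/-! ### The other primes -/

theorem fc_t {t : 𝓞 L} (h : Cub (t : L)) : fc t = 0 :=
  coe_inj ((map_fc (algebraMap (𝓞 L) L) t).trans (h.eq.trans (map_zero _).symm))

theorem bez {t : 𝓞 L} (h : Cub (t : L)) :
    fd t * (-62 * t ^ 2 + 999 * t + 5612) = ((2 ^ 4 * 11 ^ 5 : ℕ) : ℤ) := by
  have := fc_t h
  unfold fc at this
  unfold fd
  push_cast
  linear_combination (-186 * t + 2749) * this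

theorem not_dvd {l : ℕ} (hl : l.Prime) (h2 : l ≠ 2) (h11 : l ≠ 11) :
    ¬ (l : ℤ) ∣ ((2 ^ 4 * 11 ^ 5 : ℕ) : ℤ) := by
  rw [Int.natCast_dvd_natCast, hl.dvd_mul]
  rintro (h | h)
  · exact h2 ((Nat.prime_dvd_prime_iff_eq hl Nat.prime_two).1 (hl.dvd_of_dvd_pow h))
  · exact h11 ((Nat.prime_dvd_prime_iff_eq hl (by norm_num)).1 (hl.dvd_of_dvd_pow h))

theorem fd_mem {t : 𝓞 L} (h : Cub (t : L)) : fd t ∈ conductor ℤ t := by
  have h0 : Algebra.adjoin ℚ {algebraMap (𝓞 L) L t} = ⊤ := adj h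
  have h1 : aeval t (derivative (minpoly ℤ t)) ∈ conductor ℤ t := by
    have h2 := conductor_mul_differentIdeal ℤ ℚ L t h0
    have h3 := Ideal.mem_span_singleton_self (aeval t (derivative (minpoly ℤ t)))
    rw [← h2] at h3
    exact Ideal.mul_le_left h3
  obtain ⟨Q, hQ⟩ : minpoly ℤ t ∣ PP ℤ := minpoly.isIntegrallyClosed_dvd
    (RingOfIntegers.isIntegral t) ((aeval_PP (R := ℤ) t).trans (fc_t h))
  have h4 := aeval_PP' (R := ℤ) t
  rw [hQ, derivative_mul, map_add, map_mul, map_mul, minpoly.aeval, zero_mul, add_zero] at h4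
  rw [← h4]
  exact Ideal.mul_mem_right _ _ h1

/-- Every integer of `L` is congruent to a rational integer modulo `(l, x - θ)`. -/
theorem cong {t : 𝓞 L} (h : Cub (t : L)) {l : ℕ} (hl : l.Prime) (h2 : l ≠ 2) (h11 : l ≠ 11)
    {I : Ideal (𝓞 L)} (hI : (l : 𝓞 L) ∈ I) {x : ℤ} (hx : x - t ∈ I) (α : 𝓞 L) :
    ∃ n : ℤ, α - n ∈ I := by
  obtain ⟨u, v, huv⟩ : IsCoprime (l : ℤ) ((2 ^ 4 * 11 ^ 5 : ℕ) : ℤ) :=
    (Nat.prime_iff_prime_int.1 hl).irreducible.coprime_iff_not_dvd.2 (not_dvd hl h2 h11)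
  have h1 := mem_conductor_iff.1 (fd_mem h) ((-62 * t ^ 2 + 999 * t + 5612) * α)
  rw [← mul_assoc, bez h, Algebra.adjoin_singleton_eq_range_aeval] at h1
  obtain ⟨p, hp⟩ := h1
  obtain ⟨c, hc⟩ := sub_dvd_eval_sub (x : 𝓞 L) t (p.map (algebraMap ℤ (𝓞 L)))
  rw [eval_map_algebraMap, eval_map_algebraMap, show aeval t p = _ from hp,
    ← eq_intCast (algebraMap ℤ (𝓞 L)) x, aeval_algebraMap_apply, eq_intCast, eq_intCast] at hc
  refine ⟨v * aeval x p, ?_⟩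
  convert I.sub_mem (I.mul_mem_left (u * α) hI) (I.mul_mem_right (v * c) hx) using 1
  have h3 := congrArg (Int.cast : ℤ → 𝓞 L) huv
  rw [Int.cast_add, Int.cast_mul, Int.cast_mul, Int.cast_natCast l, Int.cast_one] at h3
  rw [Int.cast_mul]
  linear_combination -α * h3 - v * hc

theorem deg_one {t : 𝓞 L} (h : Cub (t : L)) {l : ℕ} (hl : l.Prime) (h2 : l ≠ 2) (h11 : l ≠ 11)
    {q : Pr L} (hq : q ∈ ab L l) : nm q = l ↔ ∃ x : ℤ, x - t ∈ q.asIdeal := by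
  have := Fact.mk hl
  have := q.isMaximal
  have hq' := (mem_ab' hl.ne_zero).1 hq
  let _ := Ideal.Quotient.field q.asIdeal
  have : CharP (𝓞 L ⧸ q.asIdeal) l := (CharP.charP_iff_prime_eq_zero hl).2 (by
    rw [← map_natCast (Ideal.Quotient.mk q.asIdeal), Ideal.Quotient.eq_zero_iff_mem]
    exact hq')
  let φ := ZMod.castHom (dvd_refl l) (𝓞 L ⧸ q.asIdeal)
  have hc : nm q = Nat.card (𝓞 L ⧸ q.asIdeal) := rfl
  constructor
  · intro e
    have : Finite (𝓞 L ⧸ q.asIdeal) := Ideal.finiteQuotientOfFreeOfNeBot _ q.ne_bot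
    obtain ⟨z, hz⟩ := (φ.injective.bijective_of_nat_card_le
      (by rw [← hc, e, Nat.card_zmod])).2 (Ideal.Quotient.mk _ t)
    obtain ⟨x, rfl⟩ := ZMod.intCast_surjective z
    exact ⟨x, Ideal.Quotient.eq.1 (by rw [← hz, map_intCast, map_intCast])⟩
  · rintro ⟨x, hx⟩
    rw [hc, ← Nat.card_eq_of_bijective φ ⟨φ.injective, fun y => ?_⟩, Nat.card_zmod]
    obtain ⟨α, rfl⟩ := Ideal.Quotient.mk_surjective y
    obtain ⟨n, hn⟩ := cong h hl h2 h11 hq' hx α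
    exact ⟨n, by rw [Ideal.Quotient.eq.2 hn, map_intCast, map_intCast]⟩

theorem sub_ne {t : 𝓞 L} (h : Cub (t : L)) (x : ℤ) : (x : 𝓞 L) - t ≠ 0 := fun e =>
  ne_th h x (by simpa using congrArg (fun y : 𝓞 L => (y : L)) (sub_eq_zero.1 e))

theorem og_sub {t : 𝓞 L} (q : Pr L) (x : ℤ) : og q ((x : L) - t) = og q ((x - t : 𝓞 L) : L) := by
  simp

theorem xr_mem {t : 𝓞 L} {q : Pr L} (hx : ∃ x : ℤ, x - t ∈ q.asIdeal) :
    (xr (t : L) q : 𝓞 L) - t ∈ q.asIdeal := by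
  have key : ∀ x : ℤ, (x : L) - t ∈ pw (q.valuation L) 1 ↔ x - t ∈ q.asIdeal := fun x => by
    simpa using ComplAux.int_mem_pw q (x - t) 1
  exact (key _).1 (Classical.epsilon_spec (hx.imp fun x => (key x).2))

theorem fd_not {t : 𝓞 L} (h : Cub (t : L)) {l : ℕ} (hl : l.Prime) (h2 : l ≠ 2) (h11 : l ≠ 11)
    {q : Pr L} (hq : q ∈ ab L l) : fd t ∉ q.asIdeal := fun a =>
  not_dvd hl h2 h11 (((res_ab hl hq).2.2 _).1 (bez h ▸ q.asIdeal.mul_mem_right _ a))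

theorem fc_eq {t : 𝓞 L} (h : Cub (t : L)) (x : ℤ) :
    ((fc x : ℤ) : 𝓞 L) = (x - t) * (fd t + (x - t) * (x + 2 * t - 4)) := by
  have := fc_t h
  unfold fc at this ⊢
  unfold fd
  push_cast
  linear_combination this

theorem unram {t : 𝓞 L} (h : Cub (t : L)) {l : ℕ} (hl : l.Prime) (h2 : l ≠ 2) (h11 : l ≠ 11)
    {q : Pr L} (hq : q ∈ ab L l) : og q (l : L) = 1 := by
  by_contra he
  have h0 := og_pos hq
  obtain ⟨r1, r2, r3⟩ := res_ab hl hq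
  have h1 := Finset.single_le_sum (f := fun 𝔭 => (Nat.log l (nm 𝔭) : ℤ) * og 𝔭 (l : L))
    (fun 𝔭 hp => mul_nonneg (Nat.cast_nonneg _) (og_pos hp).le) hq
  rw [sum_ef hl, h.rk] at h1
  have h3 : Nat.log l (nm q) = 1 := by
    by_contra h4
    have h5 : (2 : ℤ) ≤ Nat.log l (nm q) := by omega
    have h6 : (2 : ℤ) ≤ og q (l : L) := by omega
    have := mul_le_mul h5 h6 (by norm_num) (by omega)
    omega
  rw [h3, pow_one] at r2
  obtain ⟨x, hx⟩ := (deg_one h hl h2 h11 hq).1 r2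
  have l2 : (l : 𝓞 L) ∈ q.asIdeal ^ 2 := (le_og_iff q (Nat.cast_ne_zero.2 hl.ne_zero) 2).1
    (show ((2 : ℕ) : ℤ) ≤ og q (l : L) by omega)
  have i2 : ∀ n : ℤ, (n : 𝓞 L) ∈ q.asIdeal → (n : 𝓞 L) ∈ q.asIdeal ^ 2 := fun n hn => by
    obtain ⟨c, rfl⟩ := (r3 n).1 hn
    push_cast
    exact Ideal.mul_mem_right _ _ l2
  have x2 : x - t ∈ q.asIdeal ^ 2 := by
    have a1 := i2 (fc x) (fc_eq h x ▸ q.asIdeal.mul_mem_right _ hx)
    rw [fc_eq h, mul_comm] at a1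
    have := q.isPrime
    refine (Ideal.IsPrime.mul_mem_pow q.asIdeal a1).resolve_left fun a => fd_not h hl h2 h11 hq ?_
    simpa using q.asIdeal.sub_mem a (q.asIdeal.mul_mem_right (x + 2 * t - 4) hx)
  obtain ⟨π, p1, p2⟩ := Ideal.exists_mem_pow_notMem_pow_succ q.asIdeal q.ne_bot q.isPrime.ne_top 1
  obtain ⟨n, hn⟩ := cong h hl h2 h11 l2 x2 π
  rw [pow_one] at p1
  have a2 := i2 n (by simpa using q.asIdeal.sub_mem p1 (Ideal.pow_le_self two_ne_zero hn))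
  exact p2 (by simpa using Ideal.add_mem _ hn a2)

theorem uniq {t : 𝓞 L} (h : Cub (t : L)) {l : ℕ} (hl : l.Prime) (h2 : l ≠ 2) (h11 : l ≠ 11)
    {p q : Pr L} (hp : p ∈ ab L l) (hq : q ∈ ab L l) {x : ℤ} (xp : x - t ∈ p.asIdeal)
    (xq : x - t ∈ q.asIdeal) : q = p := by
  refine (HeightOneSpectrum.ext (p.isMaximal.eq_of_le q.isPrime.ne_top fun α hα => ?_)).symm
  obtain ⟨n, n1, n2⟩ := cong h hl h2 h11 (I := p.asIdeal ⊓ q.asIdeal)
    ⟨(mem_ab' hl.ne_zero).1 hp, (mem_ab' hl.ne_zero).1 hq⟩ ⟨xp, xq⟩ α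
  have a := ((res_ab hl hq).2.2 n).2 (((res_ab hl hp).2.2 n).1
    (by simpa using p.asIdeal.sub_mem hα n1))
  simpa using q.asIdeal.add_mem n2 a

theorem nr_eq {t : 𝓞 L} (h : Cub (t : L)) {l : ℕ} (hl : l.Prime) (h2 : l ≠ 2) (h11 : l ≠ 11) :
    nr l = ((ab L l).filter fun q => nm q = l).card := by
  have hf : ∀ x : ℤ, fc (x : ZMod l) = 0 ↔ (l : ℤ) ∣ fc x := fun x => by
    rw [← ZMod.intCast_zmod_eq_zero_iff_dvd, ← eq_intCast (Int.castRingHom (ZMod l)) (fc x),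
      map_fc, eq_intCast]
  have hm : ∀ q : ((ab L l).filter fun q => nm q = l),
      q.1 ∈ ab L l ∧ (xr (t : L) q.1 : 𝓞 L) - t ∈ q.1.asIdeal := fun q =>
    ⟨(Finset.mem_filter.1 q.2).1, xr_mem ((deg_one h hl h2 h11 (Finset.mem_filter.1 q.2).1).1
      (Finset.mem_filter.1 q.2).2)⟩
  rw [← Nat.card_eq_finsetCard]
  refine (Nat.card_eq_of_bijective (fun q => (⟨(xr (t : L) q.1 : ZMod l), (hf _).2
    (((res_ab hl (hm q).1).2.2 _).1 (fc_eq h _ ▸ q.1.asIdeal.mul_mem_right _ (hm q).2))⟩ :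
      {x : ZMod l // fc x = 0})) ⟨fun p q e => ?_, fun z => ?_⟩).symm
  · have e1 := ((res_ab hl (hm q).1).2.2 _).2
      ((ZMod.intCast_eq_intCast_iff_dvd_sub _ _ _).1 (congrArg Subtype.val e))
    refine (Subtype.ext (uniq h hl h2 h11 (hm p).1 (hm q).1 (hm p).2 ?_)).symm
    convert q.1.asIdeal.sub_mem (hm q).2 e1 using 1
    push_cast
    ring
  · obtain ⟨x, hx⟩ := ZMod.intCast_surjective z.1
    obtain ⟨q, hq, xq⟩ := exists_mem hl (sub_ne h x) (n := fc x) (by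
      rw [← eq_intCast (Int.castRingHom ℚ) (fc x), map_fc, eq_intCast, ← norm_sub h]
      simp) ((hf x).1 (hx ▸ z.2))
    refine ⟨⟨q, Finset.mem_filter.2 ⟨hq, (deg_one h hl h2 h11 hq).2 ⟨x, xq⟩⟩⟩, Subtype.ext ?_⟩
    rw [← hx]
    refine (ZMod.intCast_eq_intCast_iff_dvd_sub _ _ _).2 (((res_ab hl hq).2.2 _).1 ?_)
    convert q.asIdeal.sub_mem xq (xr_mem ⟨x, xq⟩) using 1
    push_cast
    ring

theorem types {t : 𝓞 L} (h : Cub (t : L)) {l : ℕ} (hl : l.Prime) (h2 : l ≠ 2) (h11 : l ≠ 11) :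
    (nr l = 0 ∧ ∃ 𝔭, ab L l = {𝔭} ∧ nm 𝔭 = l ^ 3) ∨
    (nr l = 1 ∧ ∃ 𝔭 𝔮, 𝔭 ≠ 𝔮 ∧ (∀ 𝔯, 𝔯 ∈ ab L l ↔ 𝔯 = 𝔭 ∨ 𝔯 = 𝔮) ∧ nm 𝔭 = l ∧ nm 𝔮 = l ^ 2) ∨
    (nr l = 3 ∧ (ab L l).card = 3 ∧ ∀ 𝔭 ∈ ab L l, nm 𝔭 = l) := by
  classical
  have hs := sum_ef (L := L) hl
  rw [h.rk, Finset.sum_congr rfl fun q hq => by rw [unram h hl h2 h11 hq, mul_one]] at hs
  have hn : ∀ q ∈ ab L l, ∀ k : ℕ, (Nat.log l (nm q) : ℤ) = k → nm q = l ^ k := fun q hq k e => by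
    rw [(res_ab hl hq).2.1, show Nat.log l (nm q) = k by omega]
  have hk : ∀ k, 1 < k → l ^ k ≠ l := fun k hk => (lt_self_pow₀ hl.one_lt hk).ne'
  rw [nr_eq h hl h2 h11]
  rcases tri (fun q hq => by exact_mod_cast (res_ab hl hq).1) hs with
    ⟨a, ha, hw⟩ | ⟨a, b, hab, ha, hw, hw'⟩ | ⟨hc, hw⟩
  · have c := hn a (by simp [ha]) 3 hw
    exact Or.inl ⟨by simp [ha, c, hk], a, ha, c⟩
  · have c := hn a (by simp [ha]) 1 hw
    have c' := hn b (by simp [ha]) 2 hw'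
    rw [pow_one] at c
    refine Or.inr (Or.inl ⟨?_, a, b, hab, fun r => by simp [ha], c, c'⟩)
    rw [ha, Finset.filter_insert, if_pos c, Finset.filter_singleton, if_neg (c' ▸ hk 2 one_lt_two)]
    rfl
  · have c : ∀ q ∈ ab L l, nm q = l := fun q hq => (hn q hq 1 (hw q hq)).trans (pow_one l)
    exact Or.inr (Or.inr ⟨by rw [Finset.filter_true_of_mem c, hc], hc, c⟩)

end PrA

open PrA in
theorem pr_thm : PrStmt := by
  intro L _ _ θ h
  obtain ⟨t, rfl⟩ : ∃ t : 𝓞 L, (t : L) = θ := ⟨⟨θ, th_int h⟩, rfl⟩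
  refine ⟨at_two h, at_eleven h, fun l hl h2 h11 => ⟨fun q hq => ⟨unram h hl h2 h11 hq, ?_, ?_, ?_,
    ?_⟩, fun p hp q hq e hne => ?_, ?_⟩, fun l α hl hα => ⟨val_norm hl hα, val_even hl hα⟩,
    fun q => ⟨og_nonneg q t, res' q⟩, fun x => ⟨ne_th h x, norm_sub h x⟩, coords h,
    fun x hx => exists_emb h hx, norm_eq h, real_emb h⟩
  · simpa [map_ofNat] using og_eq_zero q (x := 2) (not_mem hl hq 2 (fun a => h2
      ((Nat.prime_dvd_prime_iff_eq hl Nat.prime_two).1 (by exact_mod_cast a))) (by simp))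
  · simpa [fd, map_ofNat] using og_eq_zero q (fd_not h hl h2 h11 hq)
  · rw [og_sub, og_pos_iff q (sub_ne h _), deg_one h hl h2 h11 hq]
    exact ⟨xr_mem, fun a => ⟨_, a⟩⟩
  · refine ⟨fun a => ?_, fun a => a ▸ hl⟩
    rw [(res_ab hl hq).2.1] at a ⊢
    rw [a.eq_one_of_pow, pow_one]
  · rw [og_sub]
    exact og_eq_zero q fun a => hne (uniq h hl h2 h11 hp hq
      (xr_mem ((deg_one h hl h2 h11 hp).1 e)) a)
  · rcases types h hl h2 h11 with ⟨a, b⟩ | ⟨a, b⟩ | ⟨a, b⟩ <;>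
      refine ⟨fun c => ?_, fun c => ?_, fun c => ?_, by omega⟩ <;> first | exact b | omega

end Pool.Agent.Lib.MP_d6ddbd_nt.K11
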