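import Pool.Agent.Lib.MP_d6ddbd_nt.K11.Stmt

/-!
From cocycles to classes: the coordinates at a prime that divides `d`.
-/

set_option autoImplicit false

open NumberField IsDedekindDomain Pointwise
open Pool.Agent.Lib.MP_02f36d_nt (xc yc)
open Pool.Agent.Stark (Pr og hq LSq pw ord_mul zmod2_ext)

noncomputable section

namespace Pool.Agent.Lib.MP_d6ddbd_nt.K11

namespace CK

variable {L : Type} [Field L] [NumberField L] {θ : L}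

theorem map_fd (e : L →+* ℂ) (x : L) : e (fd x) = fd (e x) := by simp [fd, map_ofNat]

theorem fc_emb (hθ : Cub θ) (e : L →+* ℂ) : fc (e θ) = 0 := by
  have h := congrArg e hθ.eq
  simpa [fc, map_ofNat] using h

theorem fd_ne {x : ℂ} (h : fc x = 0) : fd x ≠ 0 := fun h' => by
  unfold fc at h
  unfold fd at h'
  have h1 : x = -751 / 62 := by
    linear_combination (-9 / 992) * h + (3 * x - 4) / 992 * h'
  rw [h1] at h'
  norm_num at h'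

theorem fd_ne' (hθ : Cub θ) (e : L →+* ℂ) : fd θ ≠ 0 := fun h =>
  fd_ne (fc_emb hθ e) (by rw [← map_fd, h, map_zero])

theorem fd_eq {x y : ℂ} (hx : fc x = 0) (hy : fc y = 0) (h : x ≠ y) :
    fd x = (x - y) * (2 * x + y - 4) := by
  unfold fc at hx hy
  apply mul_left_cancel₀ (sub_ne_zero.2 h)
  unfold fd
  linear_combination hx - hy

theorem third {x y t : ℂ} (hx : fc x = 0) (hy : fc y = 0) (h : x ≠ y) (ht : fc t = 0) :
    t = x ∨ t = y ∨ t = 4 - x - y := by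
  unfold fc at hx hy ht
  have h1 : (x - y) * ((t - x) * ((t - y) * (t - (4 - x - y)))) = 0 := by
    linear_combination (x - y) * ht - (t - y) * hx + (t - x) * hy
  simpa only [mul_eq_zero, sub_eq_zero, h, false_or] using h1

theorem alg_emb (e : L →+* ℂ) (x : L) : IsAlgebraic ℚ (e x) :=
  (Algebra.IsAlgebraic.isAlgebraic (R := ℚ) x).algHom e.toRatAlgHom

theorem sgn {σ : G} {s : ℂ} (h : σ (s ^ 2) = s ^ 2) : σ s = s ∨ σ s = -s := by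
  rw [map_pow] at h
  exact sq_eq_sq_iff_eq_or_eq_neg.1 h

theorem ne_neg {s : ℂ} (hs : s ≠ 0) : -s ≠ s := fun h => hs (by linear_combination (-1 / 2) * h)

theorem sgn_mul {σ : G} {s t : ℂ} (hs : s ≠ 0) (ht : t ≠ 0) (h1 : σ s = s ∨ σ s = -s)
    (h2 : σ t = t ∨ σ t = -t) : σ (s * t) = s * t ↔ (σ s = s ↔ σ t = t) := by
  have a := ne_neg hs
  have b := ne_neg ht
  have c := ne_neg (mul_ne_zero hs ht)
  rw [map_mul]
  rcases h1 with h1 | h1 <;> rcases h2 with h2 | h2 <;> rw [h1, h2] <;> simp [a, b, c]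

theorem sgn_congr (hV : VStmt) {O : ValuationSubring ℂ} {Q : ℕ} {φ : G} {k h : ℂ}
    (hφ : Frob O Q φ) (hQ : Q ≠ 0) (hk : IsAlgebraic ℚ k) (hh : IsAlgebraic ℚ h)
    (h1 : k - h ∈ O.nonunits) (h2 : 2 * k ∉ O.nonunits) (hk' : φ k = k ∨ φ k = -k)
    (hh' : φ h = h ∨ φ h = -h) : φ k = k ↔ φ h = h := by
  have h3 := (hV.2.1.2.1 O Q φ (k - h) hφ hQ (hk.sub hh)).2.2 h1
  rw [map_sub] at h3
  constructor
  · intro a
    refine hh'.resolve_right fun b => h2 ?_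
    rw [a, b] at h3
    have := add_mem h1 h3
    rwa [show k - h + (k - -h) = 2 * k by ring] at this
  · intro b
    refine hk'.resolve_right fun a => h2 ?_
    rw [a, b] at h3
    have := sub_mem h1 h3
    rwa [show k - h - (-k - h) = 2 * k by ring] at this

theorem sgn_congr' (hV : VStmt) {O : ValuationSubring ℂ} {Q : ℕ} {φ : G} {k h : ℂ}
    (hφ : Frob O Q φ) (hQ : Q ≠ 0) (hk : IsAlgebraic ℚ k) (hh : IsAlgebraic ℚ h)
    (h1 : k ^ 2 - h ^ 2 ∈ O.nonunits) (h2 : O.valuation (k ^ 2) = 1) (h3 : O.valuation 2 = 1)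
    (hk' : φ k = k ∨ φ k = -k) (hh' : φ h = h ∨ φ h = -h) : φ k = k ↔ φ h = h := by
  have h4 : O.valuation k = 1 := by
    rw [map_pow] at h2
    exact (pow_eq_one_iff_of_nonneg zero_le two_ne_zero).1 h2
  have h5 : 2 * k ∉ O.nonunits := by
    rw [ValuationSubring.mem_nonunits_iff, map_mul, h3, h4, mul_one]
    exact lt_irrefl _
  have h6 : k - h ∈ O.nonunits ∨ k - -h ∈ O.nonunits := by
    by_contra hc
    simp only [ValuationSubring.mem_nonunits_iff, not_or, not_lt] at hc h1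
    rw [show k ^ 2 - h ^ 2 = (k - h) * (k - -h) by ring, map_mul] at h1
    exact absurd (one_le_mul hc.1 hc.2) (not_le.2 h1)
  rcases h6 with h6 | h6
  · exact sgn_congr hV hφ hQ hk hh h6 h5 hk' hh'
  · rw [sgn_congr hV hφ hQ hk hh.neg h6 h5 hk' (by simpa only [map_neg, neg_inj] using hh'),
      map_neg, neg_inj]

theorem val_one (hV : VStmt) {e : L →+* ℂ} {O : ValuationSubring ℂ} {𝔭 : Pr L}
    (he : Below e O 𝔭) {x : L} (hx : x ≠ 0) (h : og 𝔭 x = 0) : O.valuation (e x) = 1 := by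
  refine le_antisymm ((O.valuation_le_one_iff _).2 ((he x hx).2 h.ge)) (not_lt.1 fun hc => ?_)
  have := (hV.1.2.2.2.1 L e O 𝔭 he x hx).1 hc
  omega

theorem xr_ne (hPr : PrStmt) (hθ : Cub θ) (x : ℤ) : (x : L) - θ ≠ 0 := by
  have := ((hPr L θ hθ).2.2.2.2.2.1 x).1
  rw [Rat.cast_intCast] at this
  exact sub_ne_zero.2 this

theorem xr_mem (hV : VStmt) (hPr : PrStmt) (hθ : Cub θ) {l : ℕ} (hl : l.Prime) (h2 : l ≠ 2)
    (h11 : l ≠ 11) {𝔭 : Pr L} (hp : 𝔭 ∈ ab L l) (hn : nm 𝔭 = l) {e : L →+* ℂ}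
    {O : ValuationSubring ℂ} (he : Below e O 𝔭) : (xr θ 𝔭 : ℂ) - e θ ∈ O.nonunits := by
  have h := (hV.1.2.2.2.1 L e O 𝔭 he _ (xr_ne hPr hθ _)).2
    ((((hPr L θ hθ).2.2.1 l hl h2 h11).1 𝔭 hp).2.2.2.1.1 hn)
  rwa [map_sub, map_intCast] at h

/-- The primes below a place for two embeddings. -/
theorem below_iff (hV : VStmt) (hPr : PrStmt) (hθ : Cub θ) {l : ℕ} (hl : l.Prime) (h2 : l ≠ 2)
    (h11 : l ≠ 11) {𝔭 𝔮 : Pr L} (hp : 𝔭 ∈ ab L l) (hq : 𝔮 ∈ ab L l) (hn : nm 𝔭 = l)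
    {e f : L →+* ℂ} {O : ValuationSubring ℂ} (he : Below e O 𝔭) (hf : Below f O 𝔮) :
    𝔮 = 𝔭 ↔ f θ = e θ := by
  have hP := (hPr L θ hθ).2.2.1 l hl h2 h11
  have h1 := xr_mem hV hPr hθ hl h2 h11 hp hn he
  constructor
  · rintro rfl
    by_contra hc
    have h3 := xr_mem hV hPr hθ hl h2 h11 hp hn hf
    have h4 : e θ - f θ ∈ O.nonunits := by
      have := sub_mem h3 h1
      rwa [show (xr θ 𝔮 : ℂ) - f θ - ((xr θ 𝔮 : ℂ) - e θ) = e θ - f θ by ring] at this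
    have h0 : θ ≠ 0 := by
      rintro rfl
      have := hθ.eq
      norm_num at this
    have h5 := ((hPr L θ hθ).2.2.2.2.1 𝔮).1
    have h6 : 2 * e θ + f θ - 4 ∈ O :=
      sub_mem (add_mem (mul_mem (ofNat_mem O 2) ((he θ h0).2 h5)) ((hf θ h0).2 h5))
        (ofNat_mem O 4)
    have h7 := val_one hV he (fd_ne' hθ e) (hP.1 𝔮 hp).2.2.1
    rw [map_fd, fd_eq (fc_emb hθ e) (fc_emb hθ f) (Ne.symm hc), map_mul] at h7
    exact absurd h7 (ne_of_lt (mul_lt_one_of_lt_of_le h4 ((O.valuation_le_one_iff _).2 h6)))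
  · intro h
    by_contra hc
    have h3 := val_one hV hf (xr_ne hPr hθ _) (hP.2.1 𝔭 hp 𝔮 hq hn hc)
    rw [map_sub, map_intCast, h] at h3
    exact absurd h3 (ne_of_lt h1)

theorem exists_below (hV : VStmt) (hPr : PrStmt) (hθ : Cub θ) {l : ℕ} (hl : l.Prime)
    {O : ValuationSubring ℂ} (hO : Ov O l) {x : ℂ} (hx : fc x = 0) :
    ∃ (f : L →+* ℂ) (𝔮 : Pr L), f θ = x ∧ 𝔮 ∈ ab L l ∧ Below f O 𝔮 := by
  obtain ⟨f, hf⟩ := (hPr L θ hθ).2.2.2.2.2.2.2.1 x hx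
  obtain ⟨𝔮, h1, h2⟩ := hV.1.2.2.1 L f l O hl hO
  exact ⟨f, 𝔮, hf, (mem_ab' hl.ne_zero).2 h1, h2⟩

theorem roots (hR : RStmt) : ∃ e₁ e₂ e₃ : ℂ, fc e₁ = 0 ∧ fc e₂ = 0 ∧ fc e₃ = 0 ∧ e₁ ≠ e₂ ∧
    e₁ ≠ e₃ ∧ e₂ ≠ e₃ := by
  obtain ⟨e₁, e₂, e₃, h, h1, h2, h3, -⟩ := hR.1.2.2.2.2.1
  exact ⟨e₁, e₂, e₃, by simp [h], by simp [h], by simp [h], h1, h2, h3⟩

theorem sq_ne {l : ℕ} (hl : l.Prime) {n : ℕ} (hn : n ≠ 1) : l ^ n ≠ l := fun h =>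
  hn (Nat.pow_right_injective hl.two_le (h.trans (pow_one l).symm))

theorem nr_cases (hPr : PrStmt) (hθ : Cub θ) {l : ℕ} (hl : l.Prime) (h2 : l ≠ 2) (h11 : l ≠ 11)
    {𝔭 : Pr L} (hp : 𝔭 ∈ ab L l) (hn : nm 𝔭 = l) : nr l = 1 ∨ nr l = 3 := by
  have hP := (hPr L θ hθ).2.2.1 l hl h2 h11
  refine hP.2.2.2.2.2.resolve_left fun h => ?_
  obtain ⟨𝔮, h1, h3⟩ := hP.2.2.1 h
  rw [h1, Finset.mem_singleton] at hp
  exact sq_ne hl (by norm_num) (h3.symm.trans (hp ▸ hn))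

theorem pair (hPr : PrStmt) (hθ : Cub θ) {l : ℕ} (hl : l.Prime) (h2 : l ≠ 2) (h11 : l ≠ 11)
    {𝔭 : Pr L} (hp : 𝔭 ∈ ab L l) (hn : nm 𝔭 = l) (h : nr l = 1) :
    ∃ 𝔮, 𝔭 ≠ 𝔮 ∧ (∀ 𝔯, 𝔯 ∈ ab L l ↔ 𝔯 = 𝔭 ∨ 𝔯 = 𝔮) ∧ nm 𝔮 = l ^ 2 := by
  obtain ⟨𝔭', 𝔮, h1, h3, -, h4⟩ := ((hPr L θ hθ).2.2.1 l hl h2 h11).2.2.2.1 h
  rcases (h3 𝔭).1 hp with rfl | rfl
  · exact ⟨𝔮, h1, h3, h4⟩
  · exact absurd (h4.symm.trans hn) (sq_ne hl (by norm_num))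

/-- Every prime above `l` lies below the place for some embedding. -/
theorem exists_emb (hV : VStmt) (hR : RStmt) (hPr : PrStmt) (hθ : Cub θ) {l : ℕ} (hl : l.Prime)
    (h2 : l ≠ 2) (h11 : l ≠ 11) {𝔭 : Pr L} (hp : 𝔭 ∈ ab L l) (hn : nm 𝔭 = l) {e : L →+* ℂ}
    {O : ValuationSubring ℂ} (hO : Ov O l) (he : Below e O 𝔭) {𝔮 : Pr L} (hq : 𝔮 ∈ ab L l) :
    ∃ f : L →+* ℂ, Below f O 𝔮 := by
  classical
  obtain ⟨e₁, e₂, e₃, r1, r2, r3, n12, n13, n23⟩ := roots hR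
  obtain ⟨f₁, 𝔮₁, a1, b1, c1⟩ := exists_below hV hPr hθ hl hO r1
  obtain ⟨f₂, 𝔮₂, a2, b2, c2⟩ := exists_below hV hPr hθ hl hO r2
  obtain ⟨f₃, 𝔮₃, a3, b3, c3⟩ := exists_below hV hPr hθ hl hO r3
  rcases nr_cases hPr hθ hl h2 h11 hp hn with h | h
  · obtain ⟨𝔯, -, h3, -⟩ := pair hPr hθ hl h2 h11 hp hn h
    rcases (h3 𝔮).1 hq with rfl | rfl
    · exact ⟨e, he⟩
    · rcases (h3 𝔮₁).1 b1 with d1 | rfl
      · rcases (h3 𝔮₂).1 b2 with d2 | rfl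
        · have g1 := (below_iff hV hPr hθ hl h2 h11 hp b1 hn he c1).1 d1
          have g2 := (below_iff hV hPr hθ hl h2 h11 hp b2 hn he c2).1 d2
          exact absurd (a1.symm.trans (g1.trans (g2.symm.trans a2))) n12
        · exact ⟨f₂, c2⟩
      · exact ⟨f₁, c1⟩
  · obtain ⟨h3, h4⟩ := ((hPr L θ hθ).2.2.1 l hl h2 h11).2.2.2.2.1 h
    have d12 : 𝔮₁ ≠ 𝔮₂ := fun g => n12 (by
      rw [← a1, ← a2]; exact (below_iff hV hPr hθ hl h2 h11 b2 b1 (h4 _ b2) c2 c1).1 g)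
    have d13 : 𝔮₁ ≠ 𝔮₃ := fun g => n13 (by
      rw [← a1, ← a3]; exact (below_iff hV hPr hθ hl h2 h11 b3 b1 (h4 _ b3) c3 c1).1 g)
    have d23 : 𝔮₂ ≠ 𝔮₃ := fun g => n23 (by
      rw [← a2, ← a3]; exact (below_iff hV hPr hθ hl h2 h11 b3 b2 (h4 _ b3) c3 c2).1 g)
    have h5 : ({𝔮₁, 𝔮₂, 𝔮₃} : Finset (Pr L)) = ab L l := by
      refine Finset.eq_of_subset_of_card_le (fun x hx => ?_) ?_
      · simp only [Finset.mem_insert, Finset.mem_singleton] at hx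
        rcases hx with rfl | rfl | rfl <;> assumption
      · rw [h3, Finset.card_eq_three.2 ⟨𝔮₁, 𝔮₂, 𝔮₃, d12, d13, d23, rfl⟩]
    rw [← h5] at hq
    simp only [Finset.mem_insert, Finset.mem_singleton] at hq
    rcases hq with rfl | rfl | rfl
    exacts [⟨f₁, c1⟩, ⟨f₂, c2⟩, ⟨f₃, c3⟩]

theorem sz (σ : G) : σ • (0 : Pt) = 0 := (smul_eq_zero' σ 0).2 rfl

theorem wl_eq_zero {e : ℂ} {T : Pt} : wl e T = 0 ↔ T = 0 ∨ xc T = e := by
  unfold wl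
  split_ifs with h <;> simp [h]

theorem fix_two (hR : RStmt) {σ : G} {T : Pt} (hT : 2 • T = 0) (h : σ (xc T) = xc T) :
    σ • T = T := by
  rcases (hR.1.2.2.2.1 T).1 hT with rfl | ⟨h1, -⟩
  · exact sz σ
  · exact act_ext (smul_eq_zero' σ T) (by rw [xc_smul, h]) (by rw [yc_smul, h1, map_zero])

theorem eta_two {η : ℤ} (hη : η = 1 ∨ η = -1) {T : Pt} (hT : 2 • T = 0) : η • T = T := by
  rcases hη with rfl | rfl
  · exact one_zsmul T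
  · rw [neg_one_zsmul, neg_eq_iff_add_eq_zero, ← two_nsmul, hT]

theorem fix_iff (hR : RStmt) {φ : G} {e : ℂ} (he : fc e = 0) (hφ : φ e = e)
    (hn : ∃ T : Pt, 2 • T = 0 ∧ φ • T ≠ T) {Z : Pt} (hZ : 2 • Z = 0) :
    φ • Z = Z ↔ wl e Z = 0 := by
  rw [wl_eq_zero]
  constructor
  · intro h
    by_contra hc
    rw [not_or] at hc
    obtain ⟨T, hT, hT'⟩ := hn
    have h1 := (((hR.1.2.2.2.1 Z).1 hZ).resolve_left hc.1).2
    have h2 : φ (xc Z) = xc Z := by rw [← xc_smul, h]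
    have h3 := (((hR.1.2.2.2.1 T).1 hT).resolve_left fun h0 => hT' (by rw [h0, sz])).2
    refine hT' (fix_two hR hT ?_)
    rcases third h1 he hc.2 h3 with h4 | h4 | h4 <;> rw [h4]
    · exact h2
    · exact hφ
    · rw [map_sub, map_sub, map_ofNat, h2, hφ]
  · rintro (rfl | h)
    · exact sz φ
    · exact fix_two hR hZ (by rw [h, hφ])

theorem cast_eq_zero {n : ℤ} : (n : ZMod 2) = 0 ↔ Even n := by
  rw [ZMod.intCast_zmod_eq_zero_iff_dvd, even_iff_two_dvd]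
  rfl

theorem exists_sqrt (x : ℂ) : ∃ s : ℂ, s ^ 2 = x := IsAlgClosed.exists_pow_nat_eq x two_pos

end CK

end Pool.Agent.Lib.MP_d6ddbd_nt.K11
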