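import Pool.Agent.Lib.MP_d6ddbd_nt.K11.L1

/-!
The block `L`: reciprocity, dimension and the description of the Selmer group.
-/

set_option autoImplicit false
set_option linter.unusedSectionVars false

open NumberField IsDedekindDomain
open Pool.Agent.Stark hiding Unr

noncomputable section

namespace Pool.Agent.Lib.MP_d6ddbd_nt.K11

namespace L

variable (hPr : PrStmt) {L : Type} [Field L] [NumberField L] {θ : L} (hθ : Cub θ)

theorem ne_two {d : ℤ} (hd : Fam d) {l : ℕ} (h : (l : ℤ) ∣ d) : l ≠ 2 := by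
  rintro rfl
  have := hd.m4
  omega

theorem ne_el {d : ℤ} (hd : Fam d) {l : ℕ} (h : (l : ℤ) ∣ d) : l ≠ 11 := by
  rintro rfl
  exact hd.n11 h

theorem mem_pf {d : ℤ} (hd : Fam d) {l : ℕ} :
    l ∈ d.natAbs.primeFactors ↔ l.Prime ∧ (l : ℤ) ∣ d := by
  have : d.natAbs ≠ 0 := Int.natAbs_ne_zero.2 hd.sf.ne_zero
  simp [Nat.mem_primeFactors, Int.natCast_dvd, hd.sf.ne_zero]

include hPr hθ

theorem exists_ch (𝔭 : Pr L) : ∃ l : ℕ, l.Prime ∧ 𝔭 ∈ ab L l := by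
  obtain ⟨l, h1, h2, -⟩ := ((hPr L θ hθ).2.2.2.2.1 𝔭).2
  exact ⟨l, h1, h2⟩

theorem mem_ab_iff {l n : ℕ} (hl : l.Prime) {𝔭 : Pr L} (h : 𝔭 ∈ ab L l) (hn : n ≠ 0) :
    𝔭 ∈ ab L n ↔ l ∣ n := by
  obtain ⟨l', h1, -, h3⟩ := ((hPr L θ hθ).2.2.2.2.1 𝔭).2
  obtain rfl := (Nat.prime_dvd_prime_iff_eq h1 hl).1 ((h3 l hl.ne_zero).1 h)
  exact h3 n hn

theorem ch_eq {l l' : ℕ} (hl : l.Prime) (hl' : l'.Prime) {𝔭 : Pr L} (h : 𝔭 ∈ ab L l)
    (h' : 𝔭 ∈ ab L l') : l = l' :=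
  (Nat.prime_dvd_prime_iff_eq hl hl').1 ((mem_ab_iff hPr hθ hl h hl'.ne_zero).1 h')

theorem disj {T : Finset ℕ} (hT : ∀ l ∈ T, l.Prime) (g : ℕ → Finset (Pr L))
    (hg : ∀ l, g l ⊆ ab L l) : (T : Set ℕ).PairwiseDisjoint g := fun l hl l' hl' hne =>
  Finset.disjoint_left.2 fun _ h h' => hne (ch_eq hPr hθ (hT l hl) (hT l' hl') (hg l h) (hg l' h'))

theorem mem_D1 {d : ℤ} (hd : Fam d) {𝔭 : Pr L} :
    𝔭 ∈ D1 L d ↔ ∃ l : ℕ, l.Prime ∧ (l : ℤ) ∣ d ∧ 𝔭 ∈ ab L l ∧ nm 𝔭 = l := by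
  have h0 : d.natAbs ≠ 0 := Int.natAbs_ne_zero.2 hd.sf.ne_zero
  rw [D1, Finset.mem_filter]
  constructor
  · rintro ⟨h1, h2⟩
    obtain ⟨l, hl, h3⟩ := exists_ch hPr hθ 𝔭
    have h4 : (l : ℤ) ∣ d := Int.natCast_dvd.2 ((mem_ab_iff hPr hθ hl h3 h0).1 h1)
    exact ⟨l, hl, h4, h3, (((hPr L θ hθ).2.2.1 l hl (ne_two hd h4) (ne_el hd h4)).1 𝔭
      h3).2.2.2.2.1 h2⟩
  · rintro ⟨l, hl, h1, h2, h3⟩
    exact ⟨(mem_ab_iff hPr hθ hl h2 h0).2 (Int.natCast_dvd.1 h1), h3 ▸ hl⟩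

theorem sum_D1 {d : ℤ} (hd : Fam d) {M : Type*} [AddCommMonoid M] (f : Pr L → M) :
    ∑ 𝔭 ∈ D1 L d, f 𝔭 =
      ∑ l ∈ d.natAbs.primeFactors, ∑ 𝔭 ∈ (ab L l).filter fun 𝔭 => nm 𝔭 = l, f 𝔭 := by
  classical
  rw [← Finset.sum_biUnion (disj hPr hθ (fun l hl => Nat.prime_of_mem_primeFactors hl) _
    fun l => Finset.filter_subset _ _)]
  refine Finset.sum_congr (Finset.ext fun 𝔭 => ?_) fun _ _ => rfl
  simp only [mem_D1 hPr hθ hd, Finset.mem_biUnion, mem_pf hd, Finset.mem_filter, and_assoc]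

theorem type1 {p : ℕ} (hp : p.Prime) (h2 : p ≠ 2) (h11 : p ≠ 11) (h1 : nr p = 1) :
    ∃ 𝔭 𝔮 : Pr L, 𝔭 ∈ ab L p ∧ 𝔮 ∈ ab L p ∧ (∀ 𝔯 ∈ ab L p, 𝔯 = 𝔭 ∨ 𝔯 = 𝔮) ∧
      (ab L p).card = 2 ∧ ((ab L p).filter fun 𝔯 => nm 𝔯 = p) = {𝔭} ∧
      (∀ f : Pr L → ZMod 2, ∑ 𝔯 ∈ ab L p, f 𝔯 = f 𝔭 + f 𝔮) ∧
      ∀ α : L, α ≠ 0 → IsSquare (Algebra.norm ℚ α) → Even (og 𝔭 α) := by
  classical
  obtain ⟨𝔭, 𝔮, hne, h3, h4, h5⟩ := ((hPr L θ hθ).2.2.1 p hp h2 h11).2.2.2.1 h1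
  have e : ab L p = {𝔭, 𝔮} := Finset.ext fun 𝔯 => by simp [h3]
  have h6 : p ^ 2 ≠ p := by have := hp.two_le; nlinarith
  refine ⟨𝔭, 𝔮, (h3 _).2 (Or.inl rfl), (h3 _).2 (Or.inr rfl), fun 𝔯 h => (h3 _).1 h,
    by rw [e, Finset.card_pair hne], Finset.ext fun 𝔯 => ?_, fun f => by
      rw [e, Finset.sum_pair hne], fun α h0 hs => ?_⟩
  · rw [Finset.mem_filter, h3, Finset.mem_singleton]
    refine ⟨fun h => h.1.resolve_right fun h' => h6 ?_, fun h => ⟨Or.inl h, h ▸ h4⟩⟩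
    rw [← h5, ← h', h.2]
  · have h7 := ((hPr L θ hθ).2.2.2.1 p α hp h0).2 hs
    rw [e, Finset.sum_pair hne, h4, h5, Nat.log_pow hp.one_lt,
      show Nat.log p p = 1 by simpa using Nat.log_pow hp.one_lt 1] at h7
    obtain ⟨m, hm⟩ := h7
    exact ⟨m - og 𝔮 α, by push_cast at hm; omega⟩

theorem card_ab {l : ℕ} (hl : l.Prime) (h2 : l ≠ 2) (h11 : l ≠ 11) :
    (ab L l).card = (nr l + 1) / 2 + 1 ∧ ((ab L l).filter fun 𝔭 => nm 𝔭 = l).card =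
      (nr l + 1) / 2 + if nr l = 3 then 1 else 0 := by
  obtain ⟨-, -, h0, -, h3, h | h | h⟩ := (hPr L θ hθ).2.2.1 l hl h2 h11
  · obtain ⟨𝔭, e, hn⟩ := h0 h
    have h6 : l ^ 3 ≠ l := by
      have := Nat.pow_lt_pow_right hl.one_lt (show 1 < 3 by norm_num)
      rw [pow_one] at this
      omega
    rw [e, h, Finset.filter_singleton, if_neg (by rwa [hn])]
    simp
  · obtain ⟨𝔭, 𝔮, -, -, -, e1, e2, -⟩ := type1 hPr hθ hl h2 h11 h
    rw [e1, e2, h]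
    simp
  · rw [Finset.filter_true_of_mem (h3 h).2, (h3 h).1, h]
    simp

theorem rank_UU {d : ℤ} (hd : Fam d) : Module.finrank (ZMod 2) (UU L d) = tt d := by
  classical
  let T : Finset ℕ := d.natAbs.primeFactors.filter fun l => nr l = 3
  let φ : (D1 L d → ZMod 2) →ₗ[ZMod 2] (T → ZMod 2) :=
    { toFun := fun u l => ∑ 𝔭 : D1 L d, if nm 𝔭.1 = l.1 then u 𝔭 else 0
      map_add' := fun u v => funext fun l => by
        rw [Pi.add_apply, ← Finset.sum_add_distrib]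
        exact Finset.sum_congr rfl fun 𝔭 _ => by split_ifs <;> simp
      map_smul' := fun c u => funext fun l => by
        rw [Pi.smul_apply, Finset.smul_sum]
        exact Finset.sum_congr rfl fun 𝔭 _ => by split_ifs <;> simp }
  have hk : LinearMap.ker φ = UU L d := by
    ext u
    refine ⟨fun h l hl => ?_, fun h => funext fun l => h l.1 (Finset.mem_filter.1 l.2).2⟩
    by_cases hT : l ∈ T
    · exact congrFun h ⟨l, hT⟩
    · refine Finset.sum_eq_zero fun 𝔭 _ => if_neg fun e => hT ?_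
      obtain ⟨l', h1, h2, -, h4⟩ := (mem_D1 hPr hθ hd).1 𝔭.2
      obtain rfl := h4.symm.trans e
      exact Finset.mem_filter.2 ⟨(mem_pf hd).2 ⟨h1, h2⟩, hl⟩
  have hr : LinearMap.range φ = ⊤ := by
    refine Submodule.eq_top_iff'.2 fun v => ?_
    rw [pi_eq_sum_univ' v]
    refine Submodule.sum_mem _ fun l _ => Submodule.smul_mem _ _ ?_
    obtain ⟨h1, h2⟩ := Finset.mem_filter.1 l.2
    obtain ⟨h3, h4⟩ := (mem_pf hd).1 h1
    obtain ⟨h5, h6⟩ := ((hPr L θ hθ).2.2.1 l h3 (ne_two hd h4) (ne_el hd h4)).2.2.2.2.1 h2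
    obtain ⟨𝔭, h7⟩ := Finset.card_pos.1 (show 0 < (ab L l).card by omega)
    refine ⟨Pi.single ⟨𝔭, (mem_D1 hPr hθ hd).2 ⟨l, h3, h4, h7, h6 𝔭 h7⟩⟩ 1, funext fun l' => ?_⟩
    change ∑ 𝔮 : D1 L d, _ = _
    rw [Finset.sum_eq_single ⟨𝔭, (mem_D1 hPr hθ hd).2 ⟨l, h3, h4, h7, h6 𝔭 h7⟩⟩
      (fun 𝔮 _ hne => by rw [Pi.single_eq_of_ne hne, ite_self]) (by simp), Pi.single_eq_same,
      h6 𝔭 h7, Pi.single_apply]
    exact if_congr (Subtype.ext_iff.symm.trans eq_comm) rfl rfl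
  have h1 := φ.finrank_range_add_finrank_ker
  rw [hk, hr, finrank_top, Module.finrank_fintype_fun_eq_card, Module.finrank_fintype_fun_eq_card,
    Fintype.card_coe, Fintype.card_coe, Finset.card_eq_sum_ones (D1 L d), sum_D1 hPr hθ hd,
    Finset.sum_congr rfl fun l hl => (Finset.card_eq_sum_ones _).symm.trans
      (card_ab hPr hθ ((mem_pf hd).1 hl).1 (ne_two hd ((mem_pf hd).1 hl).2)
        (ne_el hd ((mem_pf hd).1 hl).2)).2, Finset.sum_add_distrib, ← Finset.card_filter] at h1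
  change T.card + _ = tt d + T.card at h1
  omega

theorem sum_nm {d : ℤ} (hd : Fam d) (f : Pr L → ZMod 2)
    (hf : ∀ l : ℕ, l.Prime → (l : ℤ) ∣ d → nr l = 3 → ∑ 𝔭 ∈ ab L l, f 𝔭 = 0) :
    (fun 𝔭 : D1 L d => f 𝔭.1) ∈ UU L d := by
  intro l hl
  rw [Finset.sum_coe_sort (D1 L d) fun 𝔭 => if nm 𝔭 = l then f 𝔭 else 0, sum_D1 hPr hθ hd]
  refine Finset.sum_eq_zero fun l' hl' => ?_
  obtain ⟨h3, h4⟩ := (mem_pf hd).1 hl'
  by_cases e : l' = l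
  · subst e
    have h6 := (((hPr L θ hθ).2.2.1 l' h3 (ne_two hd h4) (ne_el hd h4)).2.2.2.2.1 hl).2
    rw [Finset.filter_true_of_mem h6, Finset.sum_congr rfl fun 𝔭 h => if_pos (h6 𝔭 h)]
    exact hf l' h3 h4 hl
  · exact Finset.sum_eq_zero fun 𝔭 h => if_neg fun e' => e ((Finset.mem_filter.1 h).2.symm.trans e')

theorem pair1 (hPF : PFStmt) {p : ℕ} (hp : p.Prime) (h2 : p ≠ 2) (h11 : p ≠ 11) (h1 : nr p = 1)
    {α α' : L} (ha : α ≠ 0) (ha' : α' ≠ 0) (hs : IsSquare (Algebra.norm ℚ α))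
    (hs' : IsSquare (Algebra.norm ℚ α')) :
    ∑ 𝔮 ∈ ab L p, hq 𝔮 α α' = sv p α * fv p α' + fv p α * sv p α' := by
  obtain ⟨𝔭, 𝔮, m1, m2, -, -, e1, e2, e3⟩ := type1 hPr hθ hp h2 h11 h1
  obtain ⟨-, o1, -⟩ := ((hPr L θ hθ).2.2.1 p hp h2 h11).1 𝔭 m1
  obtain ⟨o2, o3, -⟩ := ((hPr L θ hθ).2.2.1 p hp h2 h11).1 𝔮 m2
  have hp0 : (p : ℚ) ≠ 0 := by exact_mod_cast hp.ne_zero
  have hp1 : (p : L) ≠ 0 := by exact_mod_cast hp.ne_zero
  have f1 := hPF L θ hθ p α p hp ha hs hp0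
  have f2 := hPF L θ hθ p α' p hp ha' hs' hp0
  have f3 := hPF L θ hθ p α (-1) hp ha hs (by norm_num)
  rw [e2, Rat.cast_natCast] at f1 f2
  rw [e2, Rat.cast_neg, Rat.cast_one, hq_eq_zero 𝔭 o1 ha (by norm_num) (e3 α ha hs)
    (by simp [og]), zero_add, hq, map_neg, map_one] at f3
  have t := tame (isLoc_wv 𝔮) (π := emb 𝔮 p) (a := emb 𝔮 α) (b := emb 𝔮 α')
    (by rw [← o3, ← ord_emb, map_ofNat]) ((map_ne_zero _).2 hp1) (by rw [ord_emb, o2])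
    ((map_ne_zero _).2 ha) ((map_ne_zero _).2 ha')
  rw [f3, ord_emb, ord_emb] at t
  rw [sv, sv, fv, fv, e1, e2, e2, e2, Finset.sum_singleton, Finset.sum_singleton,
    hq_eq_zero 𝔭 o1 ha ha' (e3 α ha hs) (e3 α' ha' hs'), cast_even (e3 α ha hs),
    cast_even (e3 α' ha' hs'), hq, t]
  change _ + (_ * hq 𝔮 α' p + _ * hq 𝔮 α p + _) = _
  generalize hq 𝔮 α' p = x1 at *
  generalize hq 𝔮 α p = x2 at *
  generalize hq 𝔭 α' p = x3 at *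
  generalize hq 𝔭 α p = x4 at *
  generalize (og 𝔮 α : ZMod 2) = x5
  generalize (og 𝔮 α' : ZMod 2) = x6
  revert f1 f2 x1 x2 x3 x4 x5 x6
  decide

theorem recip (hPF : PFStmt) (hTwo : TwoStmt) (hLocD : LocDStmt) {d : ℤ} (hd : Fam d)
    {B : Finset ℕ} (hB : ∀ p ∈ B, p.Prime ∧ p ≠ 2 ∧ p ≠ 11 ∧ ¬ (p : ℤ) ∣ d ∧ nr p = 1) {α α' : L}
    (h : Wc d B α) (h' : Wc d B α') :
    ∑ 𝔭 ∈ D1 L d, (av 𝔭 α * bv θ d 𝔭 α' + bv θ d 𝔭 α * av 𝔭 α') +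
      ∑ p ∈ B, (sv p α * fv p α' + fv p α * sv p α') = 0 := by
  classical
  have hdj : Disjoint d.natAbs.primeFactors B :=
    Finset.disjoint_left.2 fun l h1 h2 => (hB l h2).2.2.2.1 ((mem_pf hd).1 h1).2
  have h2 : 2 ∉ d.natAbs.primeFactors ∪ B := fun h1 => (Finset.mem_union.1 h1).elim
    (fun h1 => ne_two hd ((mem_pf hd).1 h1).2 rfl) fun h1 => (hB 2 h1).2.1 rfl
  have hT : ∀ l ∈ insert 2 (d.natAbs.primeFactors ∪ B), l.Prime := fun l hl => by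
    rcases Finset.mem_insert.1 hl with rfl | hl
    · exact Nat.prime_two
    · exact (Finset.mem_union.1 hl).elim (fun h1 => ((mem_pf hd).1 h1).1) fun h1 => (hB l h1).1
  have r := reciprocity h.ne h'.ne ((insert 2 (d.natAbs.primeFactors ∪ B)).biUnion (ab L))
    fun 𝔮 hq => by
      obtain ⟨l, hl, m⟩ := exists_ch hPr hθ 𝔮
      have n : l ∉ insert 2 (d.natAbs.primeFactors ∪ B) := fun n =>
        hq (Finset.mem_biUnion.2 ⟨l, n, m⟩)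
      simp only [Finset.mem_insert, Finset.mem_union, not_or, mem_pf hd] at n
      have n2 : 𝔮 ∉ ab L 2 := fun n2 => n.1 (ch_eq hPr hθ hl Nat.prime_two m n2)
      have n3 : ¬ (l : ℤ) ∣ d := fun n3 => n.2.1 ⟨hl, n3⟩
      exact hq_eq_zero 𝔮 (by simpa [mem_ab] using n2) h.ne h'.ne (h.ev l hl n3 n.2.2 𝔮 m)
        (h'.ev l hl n3 n.2.2 𝔮 m)
  obtain ⟨e, he1, he2⟩ := (hPr L θ hθ).2.2.2.2.2.2.2.2.2
  have r0 : ∑ φ : L →+* ℝ, hs (φ α) (φ α') = 0 := Finset.sum_eq_zero fun φ _ => by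
    rw [he1 φ, hs_real (he2 α h.ne h.sq).ne' (he2 α' h'.ne h'.sq).ne',
      if_neg fun n => (he2 α h.ne h.sq).not_gt n.1]
  rw [r0, zero_add, Finset.sum_biUnion (disj hPr hθ hT _ fun _ => subset_rfl), Finset.sum_insert h2,
    Finset.sum_union hdj,
    Finset.sum_eq_zero ((hTwo L θ hθ).2.2.2.1 α α' h.ne h'.ne h.sq h'.sq h.two h'.two),
    zero_add] at r
  rw [sum_D1 hPr hθ hd, ← r]
  congr 1
  · exact Finset.sum_congr rfl fun l hl => ((hLocD L θ hθ d l hd ((mem_pf hd).1 hl).1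
      ((mem_pf hd).1 hl).2).2.1 α α' h.ne h'.ne h.sq h'.sq).symm
  · exact Finset.sum_congr rfl fun p hp => (pair1 hPr hθ hPF (hB p hp).1 (hB p hp).2.1
      (hB p hp).2.2.1 (hB p hp).2.2.2.2 h.ne h'.ne h.sq h'.sq).symm

omit hPr hθ in
theorem at2_sq {α t : L} (h : At2 (α * (t * t))) : At2 α := fun 𝔭 m => by
  obtain ⟨β, hβ⟩ := h 𝔭 m
  exact ⟨t * β, by rwa [show α * (t * β) ^ 2 = α * (t * t) * β ^ 2 by ring]⟩

omit hPr hθ in
theorem at2_one {t : L} (ht : t ≠ 0) : At2 (t * t) := fun 𝔭 _ =>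
  ⟨t⁻¹, by rw [show t * t * t⁻¹ ^ 2 - 1 = 0 by field_simp; ring]; exact zero_mem _⟩

theorem rank_WS (hTwo : TwoStmt) {d : ℤ} (hd : Fam d) {B : Finset ℕ}
    (hB : ∀ p ∈ B, p.Prime ∧ p ≠ 2 ∧ p ≠ 11 ∧ ¬ (p : ℤ) ∣ d ∧ nr p = 1) :
    Module.Finite (ZMod 2) (WS L d B) ∧ tt d + B.card ≤ Module.finrank (ZMod 2) (WS L d B) := by
  classical
  have hdj : Disjoint d.natAbs.primeFactors B :=
    Finset.disjoint_left.2 fun l h1 h2 => (hB l h2).2.2.2.1 ((mem_pf hd).1 h1).2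
  let T := d.natAbs.primeFactors ∪ B
  have hT : ∀ l ∈ T, l.Prime ∧ l ≠ 2 ∧ l ≠ 11 := fun l hl => (Finset.mem_union.1 hl).elim
    (fun h1 => ⟨((mem_pf hd).1 h1).1, ne_two hd ((mem_pf hd).1 h1).2,
      ne_el hd ((mem_pf hd).1 h1).2⟩) fun h1 => ⟨(hB l h1).1, (hB l h1).2.1, (hB l h1).2.2.1⟩
  let S := T.biUnion (ab L)
  have hS : ∀ l : ℕ, l.Prime → l ∉ T → ∀ 𝔭 ∈ ab L l, 𝔭 ∉ S := fun l hl n 𝔭 m m' => by
    obtain ⟨l', h1, h2⟩ := Finset.mem_biUnion.1 m'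
    exact n (ch_eq hPr hθ hl (hT l' h1).1 m h2 ▸ h1)
  have hle : WS L d B ≤ Sel S := Submodule.span_le.2 (by
    rintro _ ⟨α, h, rfl⟩
    refine ⟨α, ⟨h.ne, fun 𝔮 n => ?_⟩, rfl⟩
    obtain ⟨l, hl, m⟩ := exists_ch hPr hθ 𝔮
    have n' : l ∉ T := fun n' => n (Finset.mem_biUnion.2 ⟨l, n', m⟩)
    exact h.ev l hl (fun h1 => n' (Finset.mem_union_left _ ((mem_pf hd).2 ⟨hl, h1⟩)))
      (fun h1 => n' (Finset.mem_union_right _ h1)) 𝔮 m)
  have := finite_Sel S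
  have hfin : Module.Finite (ZMod 2) (WS L d B) :=
    Module.Finite.of_injective (Submodule.inclusion hle) (Submodule.inclusion_injective hle)
  refine ⟨hfin, ?_⟩
  have hN : ∀ {x : L}, x ≠ 0 → Algebra.norm ℚ x ≠ 0 := fun hx => Algebra.norm_ne_zero_iff.2 hx
  have c2 : (1 + 1 : ZMod 2) = 0 := by decide
  have n2 : 2 ∉ T := fun h => (hT 2 h).2.1 rfl
  have key := rank_le S (V := (T → ZMod 2) × ZMod 2 × ZMod 2)
    (fun x => (fun l => (padicValRat l.1 (Algebra.norm ℚ x) : ZMod 2),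
      if 0 < Algebra.norm ℚ x then 0 else 1, if At2 x then 0 else 1))
    (fun x y hx hy => by
      refine Prod.ext (funext fun l => ?_) (Prod.ext ?_ ?_)
      · have := Fact.mk (hT l.1 l.2).1
        simp only [map_mul, padicValRat.mul (hN hx.1) (hN hy.1), Int.cast_add, Prod.fst_add,
          Pi.add_apply]
      · simp only [map_mul, Prod.snd_add, Prod.fst_add]
        rcases lt_or_gt_of_ne (hN hx.1) with h1 | h1 <;>
          rcases lt_or_gt_of_ne (hN hy.1) with h2 | h2 <;>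
          simp [h1, h2, h1.not_gt, h2.not_gt, mul_pos_iff, c2]
      · simp only [Prod.snd_add]
        obtain ⟨t1, t2, -⟩ := hTwo L θ hθ
        by_cases h1 : At2 x <;> by_cases h2 : At2 y
        · simp [h1, h2, t1 x y hx.1 hy.1 h1 h2]
        · rw [if_pos h1, if_neg h2, if_neg, zero_add]
          intro h3
          have := t1 _ _ hx.1 (mul_ne_zero hx.1 hy.1) h1 h3
          exact h2 (at2_sq (t := x) (by rwa [show y * (x * x) = x * (x * y) by ring]))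
        · rw [if_neg h1, if_pos h2, if_neg, add_zero]
          intro h3
          have := t1 _ _ hy.1 (mul_ne_zero hx.1 hy.1) h2 h3
          exact h1 (at2_sq (t := y) (by rwa [show x * (y * y) = y * (x * y) by ring]))
        · rw [if_neg h1, if_neg h2, c2, if_pos (t2 x y hx.1 hy.1 (fun 𝔭 m =>
            ⟨hx.2 𝔭 (hS 2 Nat.prime_two n2 𝔭 m), hy.2 𝔭 (hS 2 Nat.prime_two n2 𝔭 m)⟩) h1 h2)])
    (fun t ht => by
      refine Prod.ext (funext fun l => ?_) (Prod.ext ?_ ?_)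
      · have := Fact.mk (hT l.1 l.2).1
        simp only [map_mul, padicValRat.mul (hN ht) (hN ht)]
        exact cast_even ⟨_, rfl⟩
      · simp only [map_mul]
        exact if_pos (mul_self_pos.2 (hN ht))
      · exact if_pos (at2_one ht))
    (WS L d B) fun x hx h => by
      simp only [Prod.mk_eq_zero] at h
      obtain ⟨h1, h2, h3⟩ := h
      refine Submodule.subset_span ⟨x, ⟨hx.1, rat_sq (by_contra fun n => ?_) fun l hl => ?_,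
        by_contra fun n => ?_, fun p hp n1 n3 𝔭 m => hx.2 𝔭 (hS p hp (fun n => ?_) 𝔭 m)⟩, rfl⟩
      · rw [if_neg n] at h2
        exact one_ne_zero h2
      · by_cases n : l ∈ T
        · exact ZMod.intCast_eq_zero_iff_even.1 (congrFun h1 ⟨l, n⟩)
        · rw [((hPr L θ hθ).2.2.2.1 l x hl hx.1).1]
          exact Finset.even_sum _ fun 𝔭 m => (hx.2 𝔭 (hS l hl n 𝔭 m)).mul_left _
      · rw [if_neg n] at h3
        exact one_ne_zero h3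
      · exact (Finset.mem_union.1 n).elim (fun n => n1 ((mem_pf hd).1 n).2) n3
  have c1 : S.card = tt d + B.card + T.card := by
    rw [Finset.card_biUnion (disj hPr hθ (fun l hl => (hT l hl).1) _ fun _ => subset_rfl),
      Finset.sum_congr rfl fun l hl => (card_ab hPr hθ (hT l hl).1 (hT l hl).2.1 (hT l hl).2.2).1,
      Finset.sum_add_distrib, Finset.sum_union hdj, ← Finset.card_eq_sum_ones,
      Finset.card_eq_sum_ones B, tt]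
    congr 2
    exact Finset.sum_congr rfl fun p hp => by rw [(hB p hp).2.2.2.2]
  have c3 := two_le_card hθ.rk
  rw [Module.finrank_prod, Module.finrank_prod, Module.finrank_fintype_fun_eq_card,
    Module.finrank_self, Fintype.card_coe] at key
  omega

end L

open L in
theorem l_thm (hPr : PrStmt) (hPF : PFStmt) (hTwo : TwoStmt) (hEleven : ElevenStmt)
    (hGood : GoodStmt) (hLocD : LocDStmt) : LStmt := by
  intro L _ _ θ hθ d hd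
  refine ⟨fun α => ⟨fun ⟨h0, hs, h⟩ => ?_, fun ⟨h, hb⟩ => ⟨h.ne, h.sq, fun p hp => ?_⟩⟩,
    rank_UU hPr hθ hd, fun B hB => ⟨fun α α' h h' => ⟨⟨mul_ne_zero h.ne h'.ne, ?_,
      (hTwo L θ hθ).1 α α' h.ne h'.ne h.two h'.two, fun p hp n1 n2 𝔭 m => ?_⟩,
      recip hPr hθ hPF hTwo hLocD hd hB h h'⟩, fun α h => ⟨?_, ?_, fun p hp h0 => ?_,
      fun p hp n1 n2 => ?_⟩, rank_WS hPr hθ hTwo hd hB⟩⟩
  · have h2 := ((hTwo L θ hθ).2.2.2.2 d α hd.m4 h0 hs).1 (h 2 Nat.prime_two)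
    refine ⟨⟨h0, hs, h2, fun p hp n _ => ?_⟩, fun 𝔭 m => ?_⟩
    · by_cases e2 : p = 2
      · exact e2 ▸ (hTwo L θ hθ).2.2.1 α h2
      by_cases e11 : p = 11
      · exact e11 ▸ (hEleven L θ hθ d α hd.n11 h0 hs).1 (h 11 (by norm_num))
      · exact (hGood L θ hθ d p α hp e2 e11 n h0 hs).1 (h p hp)
    · obtain ⟨l, h1, h3, h4, h5⟩ := (mem_D1 hPr hθ hd).1 m
      exact ((hLocD L θ hθ d l hd h1 h3).2.2.2 α h0 hs).1 (h l h1) 𝔭 h4 h5
  · by_cases n : (p : ℤ) ∣ d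
    · exact ((hLocD L θ hθ d p hd hp n).2.2.2 α h.ne h.sq).2 fun 𝔭 h4 h5 =>
        hb 𝔭 ((mem_D1 hPr hθ hd).2 ⟨p, hp, n, h4, h5⟩)
    by_cases e2 : p = 2
    · exact e2 ▸ ((hTwo L θ hθ).2.2.2.2 d α hd.m4 h.ne h.sq).2 h.two
    have h1 := h.ev p hp n (Finset.notMem_empty p)
    by_cases e11 : p = 11
    · subst e11
      exact (hEleven L θ hθ d α hd.n11 h.ne h.sq).2 h1
    · exact (hGood L θ hθ d p α hp e2 e11 n h.ne h.sq).2 h1
  · rw [map_mul]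
    exact h.sq.mul h'.sq
  · rw [SUnitAux.og_mul 𝔭 h.ne h'.ne]
    exact (h.ev p hp n1 n2 𝔭 m).add (h'.ev p hp n1 n2 𝔭 m)
  · exact sum_nm hPr hθ hd (fun 𝔭 => av 𝔭 α) fun l h1 h2 h3 =>
      ((hLocD L θ hθ d l hd h1 h2).2.2.1 α h.ne h.sq h3).1
  · exact sum_nm hPr hθ hd (fun 𝔭 => bv θ d 𝔭 α) fun l h1 h2 h3 =>
      ((hLocD L θ hθ d l hd h1 h2).2.2.1 α h.ne h.sq h3).2
  · refine ⟨h.ne, h.sq, h.two, fun p' hp' n1 n2 => ?_⟩
    by_cases e : p' = p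
    · subst e
      obtain ⟨𝔭, 𝔮, -, -, e0, -, -, e2, e3⟩ :=
        type1 hPr hθ hp' (hB p' hp).2.1 (hB p' hp).2.2.1 (hB p' hp).2.2.2.2
      rw [sv, e2, cast_even (e3 α h.ne h.sq), zero_add] at h0
      intro 𝔯 m
      rcases e0 𝔯 m with rfl | rfl
      · exact e3 α h.ne h.sq
      · exact ZMod.intCast_eq_zero_iff_even.1 h0
    · exact h.ev p' hp' n1 fun m => n2 (Finset.mem_erase.2 ⟨e, m⟩)
  · exact Finset.sum_eq_zero fun 𝔭 m => cast_even (h.ev p hp n1 n2 𝔭 m)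

end Pool.Agent.Lib.MP_d6ddbd_nt.K11
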