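import Pool.Agent.Lib.MP_d6ddbd_nt.K11.A4
import Pool.Agent.Lib.MP_d6ddbd_nt.K11.Stmt

/-!
The linear algebra statement.
-/

namespace Pool.Agent.Lib.MP_d6ddbd_nt.K11

open Finset Filter Module LA

theorem a_thm : AStmt := by
  intro W U P _ _ _ _ _ _ β a b s f sq fq M κ h1 h2 h3 h4 h5 h6 h7 h8 h9 h10 h11 h12 h13
  let B := Module.finBasis (ZMod 2) U
  have hβ : ∀ u v, β u v = ∑ i, ∑ j, β (B i) (B j) • (B.coord i u * B.coord j v) := fun u v => by
    conv_lhs => rw [← B.sum_repr u, ← B.sum_repr v]
    simp only [map_sum, map_smul, LinearMap.sum_apply, LinearMap.smul_apply, smul_eq_mul, mul_sum,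
      Basis.coord_apply]
    rw [sum_comm]
    exact sum_congr rfl fun i _ => sum_congr rfl fun j _ => by ring
  have hZ : ∀ m, Zs s m = ⨅ p ∉ m, LinearMap.ker (s p) := fun m => by
    ext x
    simp [mem_Zs]
  let D : Dat W (Fin (finrank (ZMod 2) U)) P :=
    { s := s, f := f, sq := sq, fq := fq
      a i := (B.coord i).comp a
      b i := (B.coord i).comp b
      β i j := β (B i) (B j)
      recip x y := by
        filter_upwards [eventually_ge_atTop ((h1 x).toFinset ∪ (h1 y).toFinset)] with S hS
        rw [← h2 x y S fun p hp => by simpa using mt (@hS p) hp, hβ, hβ (b x)]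
        simp only [smul_add, sum_add_distrib, LinearMap.comp_apply]
        ring
      fin m := hZ m ▸ (h3 m).1
      dim m := by
        have := (h3 m).2
        rw [hZ, Fintype.card_fin]
        omega
      cheb x y hx hy m := by
        classical
        obtain ⟨l, hl⟩ : ∃ l : Dual (ZMod 2) W, l x ≠ 0 ∧ l y ≠ 0 := by
          obtain ⟨l, hl⟩ := Module.Projective.exists_dual_ne_zero (ZMod 2) hx
          obtain ⟨l', hl'⟩ := Module.Projective.exists_dual_ne_zero (ZMod 2) hy
          by_contra! h
          exact hl' (by simpa [h l hl] using h (l + l') (by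
            simpa [not_not.1 (mt (h l') hl')] using hl))
        obtain ⟨p, hp, e⟩ := h4 {x, y} l m
        exact ⟨p, hp, e x (by simp) ▸ hl.1, e y (by simp) ▸ hl.2⟩ }
  obtain ⟨u, hu⟩ := Dat.ex_u
  simpa using D.main0 hu κ M (by simpa using h6) h7 (fun n i => by simp [D, h9])
    (fun n j i => by simp [D, h10]) (fun n j p => by
      unfold Dat.g
      split_ifs with h
      exacts [h12 n j p h, h11 n j p h]) h13 h8 fun w e1 e2 e3 e4 =>
        h5 w e1 e3 e4 (B.ext_elem fun i => by simpa [D] using e2 i)

end Pool.Agent.Lib.MP_d6ddbd_nt.K11
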