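import Pool.Agent.Lib.MP_d6ddbd_nt.K11.A1

/-!
Extension of scalars from the field with two elements, and vectors of maximal minors.
-/

namespace Pool.Agent.Lib.MP_d6ddbd_nt.K11.LA

open Finset Filter Module TensorProduct

section Det

variable {K X ι : Type} [Field K] [AddCommGroup X] [Module K X] [Fintype ι] [DecidableEq ι]

/-- The determinant of the values of `μ` and the `ψ i` on the family `e`. -/
def Dm (ψ : ι → Dual K X) (e : Option ι → X) (μ : Dual K X) : K :=
  (Matrix.of fun (i : Option ι) j => (i.elim μ ψ) (e j)).det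

variable (ψ : ι → Dual K X) (e : Option ι → X)

theorem ex_del : ∃ Δ ∈ Submodule.span K (Set.range e), ∀ μ : Dual K X, μ Δ = Dm ψ e μ := by
  let M : Matrix (Option ι) (Option ι) K := Matrix.of fun i j => (i.elim 0 ψ) (e j)
  let L : (Option ι → K) →ₗ[K] K := (LinearMap.proj none).comp (Matrix.cramer M.transpose)
  refine ⟨∑ j, L (fun i => if j = i then 1 else 0) • e j, Submodule.sum_mem _ fun j _ =>
    Submodule.smul_mem _ _ (Submodule.subset_span ⟨j, rfl⟩), fun μ => ?_⟩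
  have h : L (fun j => μ (e j)) = Dm ψ e μ := by
    refine (Matrix.cramer_transpose_apply M _ none).trans (congrArg Matrix.det ?_)
    ext (_ | i) j <;> simp [M]
  rw [← h, L.pi_apply_eq_sum_univ, map_sum]
  simp [mul_comm]

theorem Dm_self (i : ι) : Dm ψ e (ψ i) = 0 :=
  Matrix.det_zero_of_row_eq (i := none) (j := some i) (by simp) rfl

theorem Dm_ne {μ : Dual K X} (he : LinearIndependent K e)
    (h : ∀ x ∈ Submodule.span K (Set.range e), (∀ i, ψ i x = 0) → μ x = 0 → x = 0) :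
    Dm ψ e μ ≠ 0 := fun h0 => by
  obtain ⟨c, c0, hc⟩ := Matrix.exists_mulVec_eq_zero_iff.2 h0
  have e1 : ∀ i : Option ι, (i.elim μ ψ) (∑ j, c j • e j) = 0 := fun i => by
    simpa [Matrix.mulVec, dotProduct, mul_comm] using congrFun hc i
  exact c0 (funext (Fintype.linearIndependent_iff.1 he c (h _ (Submodule.sum_mem _ fun j _ =>
    Submodule.smul_mem _ _ (Submodule.subset_span ⟨j, rfl⟩)) (fun i => e1 (some i)) (e1 none))))

theorem Dm_inj {μ : Dual K X} (h0 : Dm ψ e μ ≠ 0) {x : X} (hx : x ∈ Submodule.span K (Set.range e))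
    (h1 : ∀ i, ψ i x = 0) (h2 : μ x = 0) : x = 0 := by
  obtain ⟨c, rfl⟩ := (Submodule.mem_span_range_iff_exists_fun K).1 hx
  have : c = 0 := Matrix.eq_zero_of_mulVec_eq_zero h0 (funext fun i => by
    have : (i.elim μ ψ) (∑ j, c j • e j) = 0 := by cases i; exacts [h2, h1 _]
    simpa [Matrix.mulVec, dotProduct, mul_comm] using this)
  simp [this]

theorem Dm_edge (w : ι → X) {x x' : X} {μ μ' : Dual K X} (h : μ x = μ' x') (h1 : ∀ i, μ (w i) = 0)
    (h2 : ∀ i, μ' (w i) = 0) :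
    Dm ψ (fun j => j.elim x w) μ = Dm ψ (fun j => j.elim x' w) μ' := by
  let M : Matrix (Option ι) (Option ι) K :=
    Matrix.of fun i j => (i.elim μ' ψ) (Option.elim j x' w)
  have e1 : Dm ψ (fun j => j.elim x w) μ = (M.updateCol none ((fun i => M i none) +
      fun i => i.elim 0 fun i => ψ i (x - x'))).det := by
    refine congrArg Matrix.det ?_
    ext (_ | i) (_ | j) <;> simp [M, h, h1, h2]
  rw [e1, Matrix.det_updateCol_add, Matrix.updateCol_eq_self, Matrix.det_eq_zero_of_row_eq_zero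
    (A := M.updateCol none _) none (by rintro (_ | j) <;> simp [M, h2]), add_zero]
  rfl

end Det

section BC

variable {K W : Type} [Field K] [Algebra (ZMod 2) K] [AddCommGroup W] [Module (ZMod 2) W]

/-- The extension of a linear form. -/
abbrev bc (K : Type) [Field K] [Algebra (ZMod 2) K] (l : Dual (ZMod 2) W) :
    Dual K (K ⊗[ZMod 2] W) := Dual.baseChange K l

theorem coef (x : K ⊗[ZMod 2] W) : ∃ (J : Type) (s : Finset J) (t : J → K) (c : J → W),
    x = ∑ i ∈ s, t i ⊗ₜ c i ∧ ∀ l : Dual (ZMod 2) W, bc K l x = 0 → ∀ i ∈ s, l (c i) = 0 := by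
  let B := Free.chooseBasis (ZMod 2) K
  obtain ⟨c, rfl⟩ := TensorProduct.eq_repr_basis_left B x
  exact ⟨_, c.support, B, c, rfl, fun l h => linearIndependent_iff'.1 B.linearIndependent _ _
    (by simpa [Finsupp.sum] using h)⟩

theorem mem_span {J I : Type} (l : J → Dual (ZMod 2) W) (v : I → W)
    (hv : ∀ w, (∀ j, l j w = 0) → w ∈ Submodule.span (ZMod 2) (Set.range v))
    {x : K ⊗[ZMod 2] W} (hx : ∀ j, bc K (l j) x = 0) :
    x ∈ Submodule.span K (Set.range fun i => (1 : K) ⊗ₜ[ZMod 2] v i) := by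
  obtain ⟨J, s, t, c, rfl, h⟩ := coef x
  refine Submodule.sum_mem _ fun i hi => ?_
  have := hv (c i) fun j => h _ (hx j) i hi
  generalize c i = w at this
  induction this using Submodule.span_induction with
  | mem w hw =>
    obtain ⟨j, rfl⟩ := hw
    simpa [smul_tmul'] using Submodule.smul_mem _ (t i) (Submodule.subset_span
      (s := Set.range fun i => (1 : K) ⊗ₜ[ZMod 2] v i) ⟨j, rfl⟩)
  | zero => simp
  | add _ _ _ _ h h' => rw [tmul_add]; exact add_mem h h'
  | smul r _ _ h => rw [tmul_smul]; exact Submodule.smul_of_tower_mem _ r h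

theorem ex_ne {x : K ⊗[ZMod 2] W} (hx : x ≠ 0) :
    ∃ w : W, w ≠ 0 ∧ ∀ l : Dual (ZMod 2) W, l w ≠ 0 → bc K l x ≠ 0 := by
  obtain ⟨J, s, t, c, rfl, h⟩ := coef x
  obtain ⟨i, hi, h0⟩ := exists_ne_zero_of_sum_ne_zero hx
  exact ⟨c i, fun e => h0 (by simp [e]), fun l e e' => e (h l e' i hi)⟩

variable {ι : Type} [Fintype ι] [DecidableEq ι] (ψ : ι → Dual K (K ⊗[ZMod 2] W))

theorem Dm_mul {v v' : Option ι → W} (h : ∀ j, v' j ∈ Submodule.span (ZMod 2) (Set.range v))
    (μ : Dual K (K ⊗[ZMod 2] W)) : ∃ c : ZMod 2,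
    Dm ψ (fun j => 1 ⊗ₜ v' j) μ = Dm ψ (fun j => 1 ⊗ₜ v j) μ * algebraMap _ K c := by
  choose Q hQ using fun j => (Submodule.mem_span_range_iff_exists_fun _).1 (h j)
  refine ⟨(Matrix.of fun l j => Q j l).det, ?_⟩
  rw [RingHom.map_det, Dm, Dm, ← Matrix.det_mul]
  refine congrArg Matrix.det ?_
  ext i j
  simp only [Matrix.mul_apply, ← hQ j, tmul_sum, tmul_smul, map_sum, Matrix.of_apply,
    LinearMap.map_smul_of_tower, Algebra.smul_def, mul_comm, RingHom.mapMatrix_apply,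
    Matrix.map_apply]

theorem Dm_congr {v v' : Option ι → W}
    (h : Submodule.span (ZMod 2) (Set.range v) = Submodule.span (ZMod 2) (Set.range v'))
    (μ : Dual K (K ⊗[ZMod 2] W)) : Dm ψ (fun j => 1 ⊗ₜ v' j) μ = Dm ψ (fun j => 1 ⊗ₜ v j) μ := by
  obtain ⟨c, hc⟩ := Dm_mul ψ (v := v) (v' := v') (fun j => h.ge (Submodule.subset_span ⟨j, rfl⟩)) μ
  obtain ⟨c', hc'⟩ := Dm_mul ψ (v := v') (v' := v) (fun j => h.le (Submodule.subset_span ⟨j, rfl⟩)) μ
  obtain rfl | rfl := (by decide : ∀ c : ZMod 2, c = 0 ∨ c = 1) c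
  · rw [hc', hc]; simp
  · simpa using hc

end BC

end Pool.Agent.Lib.MP_d6ddbd_nt.K11.LA
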