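import Pool.Agent.Lib.MP_d6ddbd_nt.K11.A2

/-!
Systems over the field with two elements, and rigidity along the projective line.
-/

namespace Pool.Agent.Lib.MP_d6ddbd_nt.K11.LA

open Finset Filter Module TensorProduct Polynomial

section Gen

variable {K X ι P : Type} [Field K] [AddCommGroup X] [Module K X] (ψ : ι → Dual K X)

/-- The common kernel. -/
def Ker : Submodule K X := ⨅ i, LinearMap.ker (ψ i)

theorem mem_Ker {x : X} : x ∈ Ker ψ ↔ ∀ i, ψ i x = 0 := by simp [Ker]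

theorem dim_res [Fintype ι] (s : P → Dual K X) (m : Finset P) [FiniteDimensional K (Zs s m)]
    (h : #m + (Fintype.card ι + 1) ≤ finrank K (Zs s m)) :
    FiniteDimensional K (Zs (fun p => (s p).domRestrict (Ker ψ)) m) ∧
      #m + 1 ≤ finrank K (Zs (fun p => (s p).domRestrict (Ker ψ)) m) := by
  let φ : Zs s m →ₗ[K] (ι → K) := LinearMap.pi fun i => (ψ i).comp (Zs s m).subtype
  have h3 : (Zs (fun p => (s p).domRestrict (Ker ψ)) m).map (Ker ψ).subtype =
      (LinearMap.ker φ).map (Zs s m).subtype := by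
    ext x
    exact ⟨fun ⟨z, hz, e⟩ => ⟨⟨z, mem_Zs.2 fun p hp => mem_Zs.1 hz p hp⟩,
      funext ((mem_Ker ψ).1 z.2), e⟩, fun ⟨z, hz, e⟩ => ⟨⟨z, (mem_Ker ψ).2 (congrFun hz)⟩,
        mem_Zs.2 fun p hp => mem_Zs.1 z.2 p hp, e⟩⟩
  have h4 := φ.finrank_range_add_finrank_ker
  have h5 := (LinearMap.range φ).finrank_le
  have h6 := congrArg (fun S : Submodule K _ => finrank K S) h3
  simp only [Submodule.finrank_map_subtype_eq, finrank_fintype_fun_eq_card] at h5 h6
  exact ⟨.of_finrank_pos (by omega), by omega⟩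

theorem span_iff {W J I : Type} [AddCommGroup W] [Module (ZMod 2) W] [Algebra (ZMod 2) K]
    (l : I → Dual (ZMod 2) W) {v : J → W}
    (hv : Submodule.span (ZMod 2) (Set.range v) = Ker l) (x : K ⊗[ZMod 2] W) :
    x ∈ Submodule.span K (Set.range fun j => (1 : K) ⊗ₜ[ZMod 2] v j) ↔ ∀ p, bc K (l p) x = 0 :=
  ⟨fun hx p => (Submodule.span_le (p := LinearMap.ker (bc K (l p)))).2 (by
    rintro _ ⟨i, rfl⟩
    simp [(mem_Ker l).1 (hv.le (Submodule.subset_span ⟨i, rfl⟩)) p]) hx,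
    mem_span _ _ fun w hw => hv.ge ((mem_Ker l).2 hw)⟩

theorem bas {J : Type} [Fintype J] {T : Submodule K X} [FiniteDimensional K T]
    (h : finrank K T = Fintype.card J) : ∃ v : J → X, LinearIndependent K v ∧
      Submodule.span K (Set.range v) = T := by
  let B := (Module.finBasisOfFinrankEq _ _ h).reindex (Fintype.equivFin J).symm
  refine ⟨_, B.linearIndependent.map' T.subtype T.ker_subtype, ?_⟩
  rw [Set.range_comp, ← Submodule.map_span, B.span_eq, Submodule.map_subtype_top]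

theorem card_le {J : Type} [Fintype J] [Fintype ι] {e : J → X} (he : LinearIndependent K e)
    (h : ∀ x ∈ Submodule.span K (Set.range e), (∀ i, ψ i x = 0) → x = 0) :
    Fintype.card J ≤ Fintype.card ι := by
  simpa using (he.map (f := LinearMap.pi ψ)
    (Submodule.disjoint_def.2 fun x hx e => h x hx (congrFun e))).fintype_card_le_finrank

theorem hyp {V : Submodule K X} [FiniteDimensional K V] {l : Dual K X} {x : X} (hx : x ∈ V)
    (h : l x ≠ 0) : finrank K (V ⊓ LinearMap.ker l : Submodule K X) + 1 = finrank K V := by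
  rw [← Submodule.map_comap_subtype, Submodule.finrank_map_subtype_eq, ← LinearMap.ker_comp]
  exact Module.Dual.finrank_ker_add_one_of_ne_zero fun e => h (LinearMap.congr_fun e ⟨x, hx⟩)

theorem span_elim {V : Submodule K X} {l : Dual K X} {x : X} (hx : x ∈ V) (h : l x ≠ 0) {w : ι → X}
    (hw : Submodule.span K (Set.range w) = V ⊓ LinearMap.ker l) :
    V = Submodule.span K (Set.range fun j : Option ι => j.elim x w) :=
  le_antisymm (fun y hy => by
    rw [← sub_add_cancel y ((l y / l x) • x)]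
    exact add_mem (Submodule.span_mono (by rintro _ ⟨i, rfl⟩; exact ⟨some i, rfl⟩)
      (hw.ge ⟨sub_mem hy (V.smul_mem _ hx), by simp [h]⟩))
      (Submodule.smul_mem _ _ (Submodule.subset_span ⟨none, rfl⟩)))
    (Submodule.span_le.2 (by
      rintro _ ⟨_ | i, rfl⟩
      exacts [hx, (hw.le (Submodule.subset_span ⟨i, rfl⟩)).1]))

end Gen

/-- Local conditions over the field with two elements, in coordinates. -/
structure Dat (W ι P : Type) [AddCommGroup W] [Module (ZMod 2) W] [Fintype ι] where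
  s : P → Dual (ZMod 2) W
  f : P → Dual (ZMod 2) W
  sq : Dual (ZMod 2) W
  fq : Dual (ZMod 2) W
  a : ι → Dual (ZMod 2) W
  b : ι → Dual (ZMod 2) W
  β : ι → ι → ZMod 2
  recip : ∀ x y, ∀ᶠ S : Finset P in atTop,
    ∑ p ∈ S, (s p x * f p y + f p x * s p y) + (sq x * fq y + fq x * sq y) +
      ∑ i, ∑ j, β i j • (a i x * b j y + b i x * a j y) = 0
  fin : ∀ m, FiniteDimensional (ZMod 2) (Zs s m)
  dim : ∀ m : Finset P, #m + (Fintype.card ι + 1) ≤ finrank (ZMod 2) (Zs s m)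
  cheb : ∀ x y, x ≠ 0 → y ≠ 0 → ∀ m : Finset P, ∃ p, p ∉ m ∧ f p x ≠ 0 ∧ f p y ≠ 0

namespace Dat

variable {W ι P : Type} [AddCommGroup W] [Module (ZMod 2) W] [Fintype ι] [DecidableEq P]
  (D : Dat W ι P) {K : Type} [Field K] [Algebra (ZMod 2) K]

omit [DecidableEq P] in
theorem recipK (x y : K ⊗[ZMod 2] W) : ∀ᶠ S : Finset P in atTop,
    ∑ p ∈ S, (bc K (D.s p) x * bc K (D.f p) y + bc K (D.f p) x * bc K (D.s p) y) +
      (bc K D.sq x * bc K D.fq y + bc K D.fq x * bc K D.sq y) +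
      ∑ i, ∑ j, D.β i j • (bc K (D.a i) x * bc K (D.b j) y + bc K (D.b i) x * bc K (D.a j) y) =
        0 := by
  induction x using TensorProduct.induction_on with
  | zero => simp
  | add x x' h h' =>
    filter_upwards [h, h'] with S e e'
    simp only [map_add, add_mul, smul_add, sum_add_distrib] at e e' ⊢
    linear_combination e + e'
  | tmul c w =>
    induction y using TensorProduct.induction_on with
    | zero => simp
    | add y y' h h' =>
      filter_upwards [h, h'] with S e e'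
      simp only [map_add, mul_add, smul_add, sum_add_distrib] at e e' ⊢
      linear_combination e + e'
    | tmul c' w' =>
      filter_upwards [D.recip w w'] with S e
      simp only [Dual.baseChange_apply_tmul, smul_mul_smul_comm, ← add_smul, ← smul_assoc,
        ← sum_smul]
      rw [e, zero_smul]

/-- The conditions at the point `(x₀, y₀)`. -/
noncomputable def ψ (x₀ y₀ : K) (i : ι) : Dual K (K ⊗[ZMod 2] W) :=
  x₀ • bc K (D.a i) - y₀ • bc K (D.b i)

/-- The solutions of the conditions at the point `(x₀, y₀)`. -/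
noncomputable abbrev Xp (x₀ y₀ : K) : Submodule K (K ⊗[ZMod 2] W) := Ker (D.ψ x₀ y₀)

omit [DecidableEq P] in
theorem dimK (m : Finset P) : FiniteDimensional K (Zs (fun p => bc K (D.s p)) m) ∧
    finrank K (Zs (fun p => bc K (D.s p)) m) = finrank (ZMod 2) (Zs D.s m) := by
  have := D.fin m
  obtain ⟨v, h1, h2⟩ := bas (T := Zs D.s m) (J := Fin _) (Fintype.card_fin _).symm
  have h3 : Zs (fun p => bc K (D.s p)) m =
      Submodule.span K (Set.range fun i => (1 : K) ⊗ₜ[ZMod 2] v i) := by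
    ext x
    rw [mem_Zs, span_iff (fun p : {p // p ∉ m} => D.s p) h2, Subtype.forall]
  have h4 : LinearIndependent K fun i => (1 : K) ⊗ₜ[ZMod 2] v i :=
    Module.Flat.linearIndependent_one_tmul h1
  rw [h3]
  exact ⟨FiniteDimensional.span_of_finite K (Set.finite_range _),
    (finrank_span_eq_card h4).trans (Fintype.card_fin _)⟩

/-- The system at the point `(x₀, y₀)`. -/
noncomputable def sys (x₀ y₀ : K) (h0 : x₀ ≠ 0 ∨ y₀ ≠ 0) : Sys K (D.Xp x₀ y₀) P where
  s p := (bc K (D.s p)).domRestrict _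
  f p := (bc K (D.f p)).domRestrict _
  sq := (bc K D.sq).domRestrict _
  fq := (bc K D.fq).domRestrict _
  recip x y := by
    have two : (2 : K) = 0 :=
      (map_ofNat (algebraMap (ZMod 2) K) 2).symm.trans (map_zero (algebraMap (ZMod 2) K))
    filter_upwards [D.recipK x.1 y.1] with S e
    have e0 : ∀ i j, bc K (D.a i) x * bc K (D.b j) y + bc K (D.b i) x * bc K (D.a j) y = 0 :=
      fun i j => by
        have e1 : x₀ * bc K (D.a i) x - y₀ * bc K (D.b i) x = 0 := (mem_Ker _).1 x.2 i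
        have e2 : x₀ * bc K (D.a j) y - y₀ * bc K (D.b j) y = 0 := (mem_Ker _).1 y.2 j
        rcases h0 with h | h <;> refine (mul_eq_zero.1 ?_).resolve_left h
        · linear_combination bc K (D.b j) y * e1 + bc K (D.b i) x * e2 +
            y₀ * bc K (D.b i) x * bc K (D.b j) y * two
        · linear_combination -bc K (D.a j) y * e1 - bc K (D.a i) x * e2 +
            x₀ * bc K (D.a i) x * bc K (D.a j) y * two
    simp only [e0, smul_zero, sum_const_zero, add_zero] at e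
    simp only [LinearMap.domRestrict_apply]
    linear_combination e - bc K D.fq x * bc K D.sq y * two
  fin m := have := (D.dimK (K := K) m).1
    (dim_res _ _ m ((D.dim m).trans (D.dimK m).2.ge)).1
  dim m := have := (D.dimK (K := K) m).1
    (dim_res _ _ m ((D.dim m).trans (D.dimK m).2.ge)).2
  cheb x y hx hy m := by
    obtain ⟨w, w0, hw⟩ := ex_ne (x := x.1) (by simpa using hx)
    obtain ⟨w', w0', hw'⟩ := ex_ne (x := y.1) (by simpa using hy)
    obtain ⟨p, h1, h2, h3⟩ := D.cheb w w' w0 w0' m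
    exact ⟨p, h1, hw _ h2, hw' _ h3⟩

/-- The condition at `p`. -/
def g (n : Finset P) (p : P) : Dual (ZMod 2) W := if p ∈ n then D.f p else D.s p

/-- The space cut out by the conditions. -/
abbrev V (n : Finset P) : Submodule (ZMod 2) W := Ker (D.g n)

theorem dimV (n : Finset P) : FiniteDimensional (ZMod 2) (D.V n) ∧
    Fintype.card ι + 1 ≤ finrank (ZMod 2) (D.V n) := by
  obtain ⟨Z, h1, h2, h3⟩ := big0 D.s D.f _ D.fin D.dim n ∅
  obtain rfl : Z = D.V n := Submodule.ext fun w => by simp [h3, mem_Ker, g]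
  exact ⟨h1, by simpa using h2⟩

theorem g_ne (n : Finset P) {p r : P} (e : r ≠ p) : D.g (tg n p) r = D.g n r := by
  simp [g, mem_tg, e]

variable {x₀ y₀ : K} (h0 : x₀ ≠ 0 ∨ y₀ ≠ 0)

theorem g_sys (n : Finset P) (p : P) (x : D.Xp x₀ y₀) :
    (D.sys x₀ y₀ h0).g n p x = bc K (D.g n p) x := by
  unfold Sys.g g
  split_ifs <;> rfl

theorem h_sys (n : Finset P) (p : P) (x : D.Xp x₀ y₀) :
    (D.sys x₀ y₀ h0).h n p x = bc K (D.g (tg n p) p) x := by
  rw [← Sys.g_tg, g_sys]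

theorem core_inj {n : Finset P} (hn : (D.sys x₀ y₀ h0).Core n) : ∃ l, (l = D.sq ∨ l = D.fq) ∧
    ∀ x, (∀ p, bc K (D.g n p) x = 0) → (∀ i, D.ψ x₀ y₀ i x = 0) → bc K l x = 0 → x = 0 := by
  obtain ⟨c, h1, h2⟩ := (D.sys x₀ y₀ h0).ex_in n
  obtain ⟨l, h3, h4⟩ : ∃ l, (l = D.sq ∨ l = D.fq) ∧ bc K l c ≠ 0 := by
    by_contra! h
    exact h2 (hn c h1 (h _ (.inl rfl)) (h _ (.inr rfl)))
  refine ⟨l, h3, fun x e1 e2 e3 => ?_⟩
  obtain ⟨μ, e⟩ := Sys.line (x := ⟨x, (mem_Ker _).2 e2⟩) hn h1 h2 fun p => (D.g_sys ..).trans (e1 p)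
  obtain rfl : x = μ • c.1 := congrArg Subtype.val e
  rw [map_smul, smul_eq_mul, mul_eq_zero] at e3
  rw [e3.resolve_right h4, zero_smul]

variable [DecidableEq ι]

/-- A basis of the space of `n` with one more vector than `ι`. -/
def Gd (n : Finset P) (v : Option ι → W) : Prop :=
  LinearIndependent (ZMod 2) v ∧ Submodule.span (ZMod 2) (Set.range v) = D.V n

omit [DecidableEq ι] in
theorem ex_v : ∃ v : Finset P → Option ι → W, ∀ n,
    finrank (ZMod 2) (D.V n) = Fintype.card (Option ι) → D.Gd n (v n) := by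
  have := fun n => (D.dimV n).1
  choose! v hv using fun n (h : finrank (ZMod 2) (D.V n) = Fintype.card (Option ι)) => bas h
  exact ⟨v, hv⟩

variable {v : Finset P → Option ι → W}
  (hv : ∀ n, finrank (ZMod 2) (D.V n) = Fintype.card (Option ι) → D.Gd n (v n))

include hv in
theorem core_iff (n : Finset P) : (D.sys x₀ y₀ h0).Core n ↔ D.Gd n (v n) ∧ ∃ l,
    (l = D.sq ∨ l = D.fq) ∧ Dm (D.ψ x₀ y₀) (fun j => 1 ⊗ₜ v n j) (bc K l) ≠ 0 := by
  refine ⟨fun hn => ?_, fun ⟨h1, l, h2, h3⟩ y e1 e2 e3 => Subtype.ext (Dm_inj _ _ h3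
    ((span_iff _ h1.2 _).2 fun p => (D.g_sys h0 ..).symm.trans (e1 p)) ((mem_Ker _).1 y.2)
      (by rcases h2 with rfl | rfl; exacts [e2, e3]))⟩
  obtain ⟨l, h1, h2⟩ := D.core_inj h0 hn
  obtain ⟨f1, f2⟩ := D.dimV n
  obtain ⟨e, e1, e2⟩ := bas (T := D.V n) (J := Fin _) (Fintype.card_fin _).symm
  have h3 := card_le (fun i : Option ι => i.elim (bc K l) (D.ψ x₀ y₀))
    (Module.Flat.linearIndependent_one_tmul (S := K) e1) fun x hx e =>
      h2 x ((span_iff _ e2 _).1 hx) (fun i => e (some i)) (e none)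
  have h4 := hv n (by simp at h3 ⊢; omega)
  exact ⟨h4, l, h1, Dm_ne _ _ (Module.Flat.linearIndependent_one_tmul h4.1) fun x hx =>
    h2 x ((span_iff _ h4.2 _).1 hx)⟩

theorem edge (φ : ι → Dual K (K ⊗[ZMod 2] W)) {n : Finset P} {p : P} {e e' : Option ι → W}
    (he : D.Gd n e) (he' : D.Gd (tg n p) e')
    (h : Dm φ (fun j => 1 ⊗ₜ e j) (bc K (D.g (tg n p) p)) ≠ 0)
    (h' : Dm φ (fun j => 1 ⊗ₜ e' j) (bc K (D.g n p)) ≠ 0) :
    Dm φ (fun j => 1 ⊗ₜ e j) (bc K (D.g (tg n p) p)) =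
      Dm φ (fun j => 1 ⊗ₜ e' j) (bc K (D.g n p)) := by
  have ex : ∀ (e : Option ι → W) (l : Dual (ZMod 2) W),
      Dm φ (fun j => 1 ⊗ₜ e j) (bc K l) ≠ 0 → ∃ j, l (e j) = 1 := fun e l h => by
    by_contra! h1
    exact h (Matrix.det_eq_zero_of_row_eq_zero none fun j => by
      simp [((by decide : ∀ c : ZMod 2, c = 0 ∨ c = 1) _).resolve_right (h1 j)])
  obtain ⟨j, hj⟩ := ex _ _ h
  obtain ⟨j', hj'⟩ := ex _ _ h'
  have f1 := (D.dimV n).1
  have m : e j ∈ D.V n := he.2.le (Submodule.subset_span ⟨j, rfl⟩)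
  have m' : e' j' ∈ D.V (tg n p) := he'.2.le (Submodule.subset_span ⟨j', rfl⟩)
  have d := hyp m (hj.trans_ne one_ne_zero)
  rw [← he.2, finrank_span_eq_card he.1, he.2, Fintype.card_option] at d
  obtain ⟨w, -, hw⟩ := bas (Nat.succ_injective d)
  have hw' : Submodule.span (ZMod 2) (Set.range w) = D.V (tg n p) ⊓ LinearMap.ker (D.g n p) := by
    rw [hw]
    ext x
    simp only [Submodule.mem_inf, mem_Ker, LinearMap.mem_ker]
    refine ⟨fun h => ⟨fun r => ?_, h.1 p⟩, fun h => ⟨fun r => ?_, h.1 p⟩⟩ <;>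
      by_cases e : r = p
    exacts [e ▸ h.2, D.g_ne n e ▸ h.1 r, e ▸ h.2, D.g_ne n e ▸ h.1 r]
  have w1 := fun i => hw.le (Submodule.subset_span ⟨i, rfl⟩)
  have e0 : ∀ x : W, (fun j : Option ι => (1 : K) ⊗ₜ[ZMod 2] j.elim x w) =
    fun j => j.elim (1 ⊗ₜ x) fun i => 1 ⊗ₜ w i := fun x => funext fun j => by cases j <;> rfl
  rw [← Dm_congr φ (he.2.trans (span_elim m (hj.trans_ne one_ne_zero) hw)),
    ← Dm_congr φ (he'.2.trans (span_elim m' (hj'.trans_ne one_ne_zero) hw')), e0, e0]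
  exact Dm_edge _ _ (by simp [hj, hj']) (fun i => by simp [LinearMap.mem_ker.1 (w1 i).2])
    fun i => by simp [(mem_Ker _).1 (w1 i).1 p]

include hv in
theorem rig (κ : Finset P → K ⊗[ZMod 2] W) (h1 : ∀ n i, D.ψ x₀ y₀ i (κ n) = 0)
    (h2 : ∀ n p, bc K (D.g n p) (κ n) = 0)
    (h3 : ∀ n p, bc K (D.g (tg n p) p) (κ n) = bc K (D.g n p) (κ (tg n p))) :
    (∀ n, κ n ≠ 0 → (D.sys x₀ y₀ h0).Core n) ∧ ∃ ρ : K, ∀ n, (D.sys x₀ y₀ h0).Core n → ∀ l,
      bc K l (κ n) = ρ * Dm (D.ψ x₀ y₀) (fun j => 1 ⊗ₜ v n j) (bc K l) := by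
  choose Δ d1 d2 using fun n => ex_del (D.ψ x₀ y₀) fun j => (1 : K) ⊗ₜ[ZMod 2] v n j
  have hκ : (D.sys x₀ y₀ h0).Kol fun n => ⟨κ n, (mem_Ker _).2 (h1 n)⟩ :=
    ⟨fun n p => (D.g_sys ..).trans (h2 n p), fun n p => by rw [g_sys, h_sys]; exact h3 n p⟩
  have d3 : ∀ n, Δ n ∈ D.Xp x₀ y₀ := fun n => (mem_Ker _).2 fun i => (d2 ..).trans (Dm_self ..)
  obtain ⟨ρ, hρ⟩ := hκ.rigid (Δ := fun n => ⟨Δ n, d3 n⟩)
    (fun n hn => by
      obtain ⟨e1, l, -, e2⟩ := (D.core_iff h0 hv n).1 hn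
      exact ⟨fun p => (D.g_sys ..).trans ((span_iff _ e1.2 _).1 (d1 n) p), fun e =>
        e2 (by rw [← d2, show Δ n = 0 from congrArg Subtype.val e, map_zero])⟩)
    fun n p c1 c2 e1 e2 => by
      rw [h_sys, d2] at e1 ⊢
      rw [g_sys, d2] at e2 ⊢
      exact D.edge _ ((D.core_iff h0 hv _).1 c1).1 ((D.core_iff h0 hv _).1 c2).1 e1 e2
  refine ⟨fun n h => hκ.core fun e => h (congrArg Subtype.val e), ρ, fun n hn l => ?_⟩
  rw [← d2, show κ n = ρ • Δ n from congrArg Subtype.val (hρ n hn), map_smul, smul_eq_mul]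

end Dat

end Pool.Agent.Lib.MP_d6ddbd_nt.K11.LA
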