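import Pool.Agent.Lib.MP_d6ddbd_nt.K11.Stmt

/-!
The choice of the auxiliary prime `r`: valuations and inertia elements.
-/

set_option autoImplicit false

open Pointwise
open Pool.Agent.Lib.MP_02f36d_nt (xc yc)

noncomputable section

namespace Pool.Agent.Lib.MP_d6ddbd_nt.K11.Aux

variable {O : ValuationSubring ℂ}

theorem nu {x : ℂ} : x ∈ O.nonunits ↔ O.valuation x < 1 := O.mem_nonunits_iff

theorem mo {x : ℂ} : x ∈ O ↔ O.valuation x ≤ 1 := (O.valuation_le_one_iff x).symm

theorem v_int (n : ℤ) : O.valuation (n : ℂ) ≤ 1 := mo.1 (intCast_mem O n)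

theorem v_mul_lt {x y : ℂ} (hx : O.valuation x ≤ 1) (hy : O.valuation y < 1) :
    O.valuation (x * y) < 1 := by
  rw [map_mul]
  exact lt_of_le_of_lt (mul_le_of_le_one_left' hx) hy

theorem v_unit {l : ℕ} (hl : l.Prime) (hO : Ov O l) {n : ℤ} (hn : ¬ (l : ℤ) ∣ n) :
    O.valuation (n : ℂ) = 1 := by
  refine (v_int n).antisymm (not_lt.1 fun h => ?_)
  have hc : IsCoprime (l : ℤ) n := (Nat.prime_iff_prime_int.1 hl).coprime_iff_not_dvd.2 hn
  obtain ⟨a, b, hab⟩ := hc
  have h1 : (a : ℂ) * l + b * n = 1 := by exact_mod_cast hab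
  have h2 := O.valuation.map_add_lt (v_mul_lt (v_int a) (nu.1 hO)) (v_mul_lt (v_int b) h)
  rw [h1, map_one] at h2
  exact lt_irrefl _ h2

theorem v_prime {l l' : ℕ} (hl : l.Prime) (hl' : l'.Prime) (hO : Ov O l) (hne : l ≠ l') :
    O.valuation (l' : ℂ) = 1 := by
  have := v_unit hl hO (n := (l' : ℤ)) fun h =>
    hne ((Nat.prime_dvd_prime_iff_eq hl hl').1 (Int.natCast_dvd_natCast.1 h))
  simpa using this

theorem v_two {l : ℕ} (hl : l.Prime) (hO : Ov O l) (h2 : l ≠ 2) : O.valuation (2 : ℂ) = 1 := by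
  simpa using v_prime hl Nat.prime_two hO h2

theorem v_root {x : ℂ} {n : ℕ} (hn : n ≠ 0) (h : O.valuation (x ^ n) = 1) :
    O.valuation x = 1 := by
  rw [map_pow] at h
  exact (pow_eq_one_iff_of_nonneg zero_le hn).1 h

theorem neg_one_ne (h2 : O.valuation (2 : ℂ) = 1) (h : O.valuation ((-1 : ℂ) - 1) < 1) : False := by
  have e : (-1 : ℂ) - 1 = -2 := by norm_num
  rw [e, Valuation.map_neg, h2] at h
  exact lt_irrefl _ h

theorem root_eq_one (h2 : O.valuation (2 : ℂ) = 1) (n : ℕ) :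
    ∀ η : ℂ, η ^ 2 ^ n = 1 → O.valuation (η - 1) < 1 → η = 1 := by
  induction n with
  | zero => intro η h _; simpa using h
  | succ n ih =>
    intro η h h1
    have hη : O.valuation η = 1 := v_root (n := 2 ^ (n + 1)) (by positivity) (by rw [h, map_one])
    have h3 : η ^ 2 = 1 := by
      refine ih _ (by rw [← pow_mul, ← pow_succ', h]) ?_
      have e : η ^ 2 - 1 = (η + 1) * (η - 1) := by ring
      rw [e]
      exact v_mul_lt (O.valuation.map_add_le hη.le (by rw [map_one])) h1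
    rcases sq_eq_one_iff.1 h3 with h4 | h4
    · exact h4
    · exact (neg_one_ne h2 (h4 ▸ h1)).elim

theorem cong_mul {x y x' y' : ℂ} (hx : O.valuation x ≤ 1) (hy : O.valuation y' ≤ 1)
    (h : O.valuation (x - y) < 1) (h' : O.valuation (x' - y') < 1) :
    O.valuation (x * x' - y * y') < 1 := by
  have e : x * x' - y * y' = x * (x' - y') + y' * (x - y) := by ring
  rw [e]
  exact O.valuation.map_add_lt (v_mul_lt hx h') (v_mul_lt hy h)

theorem cong_pow {x y : ℂ} (hx : O.valuation x ≤ 1) (hy : O.valuation y ≤ 1)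
    (h : O.valuation (x - y) < 1) (n : ℕ) : O.valuation (x ^ n - y ^ n) < 1 := by
  induction n with
  | zero => simp
  | succ n ih =>
    rw [pow_succ, pow_succ]
    exact cong_mul (by rw [map_pow]; exact pow_le_one' hx n) hy ih h

theorem cong_trans {x y z : ℂ} (h : O.valuation (x - y) < 1) (h' : O.valuation (y - z) < 1) :
    O.valuation (x - z) < 1 := by
  have e : x - z = (x - y) + (y - z) := by ring
  rw [e]
  exact O.valuation.map_add_lt h h'

theorem cong_symm {x y : ℂ} (h : O.valuation (x - y) < 1) : O.valuation (y - x) < 1 := by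
  rwa [Valuation.map_sub_swap]

/-- An inertia element fixes the roots of two-power order of the units that it fixes. -/
theorem fix_root (h2 : O.valuation (2 : ℂ) = 1) {σ : G} (hσ : Frob O 1 σ) {w : ℂ} (n : ℕ)
    (ha : IsAlgebraic ℚ w) (hw : O.valuation w = 1) (hf : σ (w ^ 2 ^ n) = w ^ 2 ^ n) :
    σ w = w := by
  have hw0 : w ≠ 0 := fun h => by simp [h] at hw
  have h1 := nu.1 (hσ w ha (mo.2 hw.le)).2
  rw [pow_one] at h1
  have h3 : σ w / w = 1 := by
    refine root_eq_one h2 n _ (by rw [div_pow, ← map_pow, hf, div_self (pow_ne_zero _ hw0)]) ?_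
    have e : σ w / w - 1 = w⁻¹ * (σ w - w) := by field_simp
    rw [e]
    exact v_mul_lt (by rw [map_inv₀, hw, inv_one]) h1
  exact (div_eq_one_iff_eq hw0).1 h3

theorem v_nat {l : ℕ} (hl : l.Prime) (hO : Ov O l) {n : ℕ} (hn : n ≠ 0) :
    ∃ k : ℕ, O.valuation (n : ℂ) = O.valuation (l : ℂ) ^ k := by
  obtain ⟨k, n', h1, h2⟩ := Nat.exists_eq_pow_mul_and_not_dvd hn l hl.ne_one
  refine ⟨k, ?_⟩
  have h3 := v_unit hl hO (n := (n' : ℤ)) fun h => h1 (Int.natCast_dvd_natCast.1 h)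
  rw [Int.cast_natCast] at h3
  rw [h2, Nat.cast_mul, Nat.cast_pow, map_mul, map_pow, h3, mul_one]

/-- An inertia element that moves the square root of `± l`. -/
theorem exists_move (hV3 : V3Stmt) {l : ℕ} (hl : l.Prime) (hO : Ov O l) {t : ℂ}
    (ht : t ^ 2 = l ∨ t ^ 2 = -l) : ∃ σ : G, Frob O 1 σ ∧ σ t = -t := by
  by_contra hcon
  have hl0 : (l : ℂ) ≠ 0 := by exact_mod_cast hl.ne_zero
  have ht0 : t ≠ 0 := by
    rintro rfl
    rcases ht with h | h
    · exact hl0 (by simpa using h.symm)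
    · exact hl0 (by simpa using h.symm)
  have hvt : O.valuation t ^ 2 = O.valuation (l : ℂ) := by
    rcases ht with h | h
    · rw [← map_pow, h]
    · rw [← map_pow, h, Valuation.map_neg]
  have halg : IsAlgebraic ℚ t := by
    refine IsAlgebraic.of_pow (n := 2) (by norm_num) ?_
    rcases ht with h | h
    · rw [h]; exact isAlgebraic_natCast l
    · rw [h]; exact (isAlgebraic_natCast l).neg
  obtain ⟨y, hy0, hy1, hy2⟩ := hV3 ℚ (algebraMap ℚ ℂ) l O t hl hO halg ht0 fun σ hσ _ => by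
    have h1 : (σ t) ^ 2 = t ^ 2 := by
      rw [← map_pow]
      rcases ht with h | h <;> rw [h] <;> simp
    rcases sq_eq_sq_iff_eq_or_eq_neg.1 h1 with h | h
    · exact h
    · exact (hcon ⟨σ, hσ, h⟩).elim
  have h1 : O.valuation (t / algebraMap ℚ ℂ y) = 1 :=
    (mo.1 hy1).antisymm (not_lt.1 fun h => hy2 (nu.2 h))
  obtain ⟨a, ha⟩ := v_nat hl hO (n := y.num.natAbs) (by simpa using hy0)
  obtain ⟨b, hb⟩ := v_nat hl hO (n := y.den) y.den_ne_zero
  have hnum : O.valuation (y.num : ℂ) = O.valuation (l : ℂ) ^ a := by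
    rw [← ha]
    rcases Int.natAbs_eq y.num with h | h
    · conv_lhs => rw [h, Int.cast_natCast]
    · conv_lhs => rw [h, Int.cast_neg, Int.cast_natCast, Valuation.map_neg]
  have hy : (algebraMap ℚ ℂ y) * (y.den : ℂ) = y.num := by
    have := Rat.mul_den_eq_num y
    simp only [eq_ratCast]
    exact_mod_cast this
  have hy' : algebraMap ℚ ℂ y ≠ 0 := by simpa using hy0
  have h2 : O.valuation t = O.valuation (algebraMap ℚ ℂ y) := by
    rw [map_div₀, div_eq_one_iff_eq ((Valuation.ne_zero_iff _).2 hy')] at h1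
    exact h1
  have h3 : O.valuation (l : ℂ) ^ (2 * b + 1) = O.valuation (l : ℂ) ^ (2 * a) := by
    have := congrArg O.valuation hy
    rw [map_mul, hb, hnum, ← h2] at this
    rw [pow_succ', pow_mul' _ 2 a, pow_mul' _ 2 b, ← this, mul_pow, hvt]
  have h4 := (pow_right_inj₀ (zero_lt_iff.2 ((Valuation.ne_zero_iff _).2 hl0)) (nu.1 hO).ne).1 h3
  omega

theorem om_mem {q : ℕ} (hq : q % 4 = 3) : O.valuation (om q) ≤ 1 := by
  by_contra h
  have h1 : 1 < O.valuation (om q) := not_le.1 h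
  have h2 := congrArg O.valuation (om_sq hq)
  rw [O.valuation.map_sub_eq_of_lt_left (lt_of_le_of_lt (v_int _) h1), map_pow, pow_two] at h2
  have h3 : O.valuation (om q) ≠ 0 := (lt_trans zero_lt_one h1).ne'
  exact h1.ne' (mul_left_eq_self₀.1 h2 |>.resolve_right h3)

theorem cj_om (q : ℕ) : cj (om q) = 1 - om q := by
  simp [om, map_ofNat]
  ring

theorem mem_OK {q : ℕ} {π : ℂ} (h : π ∈ OK q) : ∃ a b : ℤ, π = a + b * om q := by
  obtain ⟨a, b, hab⟩ := Submodule.mem_span_pair.1 h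
  exact ⟨a, b, by rw [← hab]; simp⟩

theorem om_alg (q : ℕ) : IsAlgebraic ℚ (om q) := by
  have h1 : IsAlgebraic ℚ (2 * om q - 1) := by
    refine IsAlgebraic.of_pow (n := 2) (by norm_num) ?_
    rw [om_sq']
    exact (isAlgebraic_natCast q).neg
  have e : om q = algebraMap ℚ ℂ (1 / 2) * ((2 * om q - 1) + 1) := by
    simp
  rw [e]
  exact (isAlgebraic_algebraMap _).mul (h1.add isAlgebraic_one)

end Pool.Agent.Lib.MP_d6ddbd_nt.K11.Aux
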