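import Pool.Agent.Lib.MP_d6ddbd_nt.K11.Aux1

/-!
The choice of the auxiliary prime `r`: the automorphism that prescribes the Frobenius element.
-/

set_option autoImplicit false

open Pointwise
open Pool.Agent.Lib.MP_02f36d_nt (xc yc)

noncomputable section

namespace Pool.Agent.Lib.MP_d6ddbd_nt.K11.Aux

/-- The quotient of the conjugate of a number by the number. -/
def uu (π : ℂ) : ℂ := starRingEnd ℂ π / π

theorem gen_fix {q : ℕ} {π : ℂ} (h : π ∈ OK q) {τ : G} (hτ : τ (om q) = om q) :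
    τ π = π ∧ τ (starRingEnd ℂ π) = starRingEnd ℂ π := by
  obtain ⟨a, b, rfl⟩ := mem_OK h
  have e : starRingEnd ℂ ((a : ℂ) + b * om q) = a + b * (1 - om q) := by
    rw [← cj_om, cj_apply]; simp
  rw [e]
  simp [hτ]

theorem uu_fix {q : ℕ} {π : ℂ} (h : π ∈ OK q) {τ : G} (hτ : τ (om q) = om q) :
    τ (uu π) = uu π := by
  rw [uu, map_div₀, (gen_fix h hτ).1, (gen_fix h hτ).2]

theorem gen_mul {q l : ℕ} {π : ℂ} (h : Gen q l π) :
    ∃ n : ℕ, Odd n ∧ π * starRingEnd ℂ π = (l : ℂ) ^ n := by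
  obtain ⟨_, _, n, hn, h1⟩ := h
  exact ⟨n, hn, by rw [Complex.mul_conj, h1]; simp⟩

theorem gen_ne {q l : ℕ} {π : ℂ} (hl : l.Prime) (h : Gen q l π) : π ≠ 0 := by
  obtain ⟨n, _, h1⟩ := gen_mul h
  rintro rfl
  rw [zero_mul] at h1
  exact pow_ne_zero n (Nat.cast_ne_zero.2 hl.ne_zero) h1.symm

theorem uu_norm {π : ℂ} (h : π ≠ 0) : ‖uu π‖ = 1 := by
  rw [uu, norm_div, RCLike.norm_conj, div_self (norm_ne_zero_iff.2 h)]

theorem uu_alg {q : ℕ} {π : ℂ} (h : π ∈ OK q) : IsAlgebraic ℚ (uu π) := by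
  obtain ⟨a, b, rfl⟩ := mem_OK h
  have e : starRingEnd ℂ ((a : ℂ) + b * om q) = a + b * (1 - om q) := by
    rw [← cj_om, cj_apply]; simp
  rw [uu, e, div_eq_mul_inv]
  exact ((isAlgebraic_intCast a).add ((isAlgebraic_intCast b).mul
    (isAlgebraic_one.sub (om_alg q)))).mul
    ((isAlgebraic_intCast a).add ((isAlgebraic_intCast b).mul (om_alg q))).inv

theorem uu_val {q l r : ℕ} {π : ℂ} {O : ValuationSubring ℂ} (hq : q % 4 = 3) (hl : l.Prime)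
    (h : Gen q l π) (hr : r.Prime) (hO : Ov O r) (hne : r ≠ l) : O.valuation (uu π) = 1 := by
  obtain ⟨n, _, h1⟩ := gen_mul h
  obtain ⟨a, b, hab⟩ := mem_OK h.1
  have e : starRingEnd ℂ π = a + b * (1 - om q) := by
    rw [hab, ← cj_om, cj_apply]; simp
  have ho := om_mem (O := O) hq
  have h2 : O.valuation π ≤ 1 := by
    rw [hab]
    exact O.valuation.map_add_le (v_int a) (by rw [map_mul]; exact mul_le_one' (v_int b) ho)
  have h3 : O.valuation (starRingEnd ℂ π) ≤ 1 := by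
    rw [e]
    refine O.valuation.map_add_le (v_int a) ?_
    rw [map_mul]
    exact mul_le_one' (v_int b) (O.valuation.map_sub_le (by rw [map_one]) ho)
  have h4 : O.valuation π * O.valuation (starRingEnd ℂ π) = 1 := by
    rw [← map_mul, h1, map_pow, v_prime hr hl hO hne, one_pow]
  have h5 : O.valuation π = 1 :=
    h2.antisymm (by rw [← h4]; exact mul_le_of_le_one_right' h3)
  rw [h5, one_mul] at h4
  rw [uu, map_div₀, h4, h5, div_one]

theorem fc_map (σ : G) (x : ℂ) : fc (σ x) = σ (fc x) := by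
  simp [fc, map_ofNat]

theorem two_tors (hR : R1Stmt) {x : ℂ} (hx : fc x = 0) :
    ∃ T : Pt, 2 • T = 0 ∧ xc T = x ∧ AlgP T := by
  obtain ⟨⟨h0, _, _, _, h1, _⟩, _, h2, h3, _⟩ := hR
  obtain ⟨_, h5, h6⟩ := h2 x 0 (by rw [hx]; norm_num)
  have h7 : 2 • pt x 0 = 0 := (h3 _).2 (Or.inr ⟨h6, by rw [h5, hx]⟩)
  exact ⟨pt x 0, h7, h5, h1 _ (by rw [h7]; exact h0)⟩

theorem fix_zeta {O : ValuationSubring ℂ} (h2 : O.valuation (2 : ℂ) = 1) {σ : G}
    (hσ : Frob O 1 σ) {ζ : ℂ} {m : ℕ} (hζ : ζ ^ 2 ^ m = 1) : σ ζ = ζ :=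
  fix_root h2 hσ m (IsAlgebraic.of_pow (n := 2 ^ m) (by positivity) (by rw [hζ]; exact isAlgebraic_one))
    (v_root (n := 2 ^ m) (by positivity) (by rw [hζ, map_one])) (by rw [hζ, map_one])

/-- The inertia element at a prime that divides `d`. -/
theorem exists_s (hV : VStmt) (hR : RStmt) {q : ℕ} {d : ℤ} {π w : ℕ → ℂ} (hq : QD q d)
    (hπ : ∀ l : ℕ, l.Prime → (l : ℤ) ∣ d → Gen q l (π l)) (hw : ∀ l, w l ^ 8 = uu (π l))
    {ζ : ℂ} {m : ℕ} (hζ : ζ ^ 2 ^ m = 1) {l : ℕ} (hl : l.Prime) (hd : (l : ℤ) ∣ d) :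
    ∃ s : G, s (om q) = om q ∧ s ζ = ζ ∧ (∀ x, fc x = 0 → s x = x) ∧
      (∀ l' : ℕ, l'.Prime → (l' : ℤ) ∣ d → l' ≠ l → s (w l') = w l') ∧
      s (w l ^ 4) = -w l ^ 4 := by
  have hl2 : l ≠ 2 := by
    rintro rfl
    have := hq.fam.m4
    omega
  have hl11 : l ≠ 11 := by
    rintro rfl
    exact hq.fam.n11 hd
  have hlq : l ≠ q := by
    rintro rfl
    exact hq.nd hd
  obtain ⟨O, hO⟩ := hV.1.1 l hl
  obtain ⟨t, ht⟩ := IsAlgClosed.exists_pow_nat_eq (l : ℂ) (n := 2) (by norm_num)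
  obtain ⟨s, hs, hst⟩ := exists_move hV.2.2.1 hl hO (Or.inl ht)
  have h2 := v_two hl hO hl2
  have hom : s (om q) = om q := hV.2.1.2.2.2.2.2.2.1 q l O s hq.qf.pr hq.qf.m4 hl hlq hO hs
  refine ⟨s, hom, fix_zeta h2 hs hζ, fun x hx => ?_, fun l' hl' hd' hne => ?_, ?_⟩
  · obtain ⟨T, hT, hx', ha⟩ := two_tors hR.1 hx
    obtain ⟨_, _, h3, _, h5, _⟩ := hR.2 l O hl hl2 hl11 hO
    have h7 : s • (T + T) = s • T + s • T := smul_add s T T
    have h8 : s • (0 : Pt) = 0 := (smul_eq_zero' s 0).2 rfl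
    have h6 := h5 1 _ (by rw [pow_one, nsmul_sub, hT, sub_zero, two_nsmul, ← h7,
      ← two_nsmul, hT, h8]) (h3 s T hs ha)
    rw [← hx', ← xc_smul, sub_eq_zero.1 h6]
  · have hg := hπ l' hl' hd'
    refine fix_root h2 hs 3 (IsAlgebraic.of_pow (n := 8) (by norm_num)
      (by rw [hw]; exact uu_alg hg.1)) (v_root (n := 8) (by norm_num) ?_) ?_
    · rw [hw]; exact uu_val hq.qf.m4 hl' hg hl hO hne.symm
    · rw [show (2 : ℕ) ^ 3 = 8 by norm_num, hw]; exact uu_fix hg.1 hom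
  · have hg := hπ l hl hd
    obtain ⟨n, hn, h1⟩ := gen_mul hg
    have h0 := gen_ne hl hg
    have ht0 : t ^ n ≠ 0 := pow_ne_zero _ fun h =>
      (Nat.cast_ne_zero.2 hl.ne_zero : (l : ℂ) ≠ 0) (by rw [← ht, h]; norm_num)
    have h3 : (w l ^ 4 * t ^ n) ^ 2 = (starRingEnd ℂ (π l)) ^ 2 := by
      rw [mul_pow, ← pow_mul, ← pow_mul, mul_comm n 2, pow_mul t, ht, hw, ← h1, uu]
      field_simp
    have h4 : s (w l ^ 4 * t ^ n) = w l ^ 4 * t ^ n := by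
      rcases sq_eq_sq_iff_eq_or_eq_neg.1 h3 with h | h
      · rw [h, (gen_fix hg.1 hom).2]
      · rw [h, map_neg, (gen_fix hg.1 hom).2]
    rw [map_mul, map_pow s t, hst, hn.neg_pow] at h4
    exact mul_right_cancel₀ ht0 (by linear_combination -h4)

/-- The inertia element at `11`. -/
theorem exists_g0 (hV : VStmt) (hR : R1Stmt) {q : ℕ} (hq : QF q) {ζ : ℂ} {m : ℕ}
    (hζ : ζ ^ 2 ^ m = 1) : ∃ (g : G) (e : ℂ), fc e = 0 ∧ g (om q) = om q ∧ g ζ = ζ ∧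
      ∀ g' : G, (∀ x, fc x = 0 → g' x = g x) → (cj * g') ((cj * g') e) ≠ e := by
  obtain ⟨_, _, _, _, ⟨e₁, e₂, e₃, hf, h12, h13, h23, hc1, hc2, _, ⟨ω, hω1, hω2, hω3⟩, _⟩, _⟩ := hR
  have hc3 : cj e₃ = e₂ := by rw [← hc2]; exact Complex.conj_conj e₂
  have hr1 : fc e₁ = 0 := by rw [hf]; ring
  have hr2 : fc e₂ = 0 := by rw [hf]; ring
  have hr3 : fc e₃ = 0 := by rw [hf]; ring
  have hroot : ∀ (τ : G) (x : ℂ), fc x = 0 → τ x = e₁ ∨ τ x = e₂ ∨ τ x = e₃ := fun τ x hx => by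
    have h1 : fc (τ x) = 0 := by rw [fc_map, hx, map_zero]
    rw [hf, mul_eq_zero, mul_eq_zero, sub_eq_zero, sub_eq_zero, sub_eq_zero] at h1
    tauto
  have a0 := hf 0
  have a1 := hf 1
  have a2 := hf (-1)
  simp only [fc] at a0 a1 a2
  have s3 : e₁ * e₂ * e₃ = 1264 := by linear_combination a0
  have s1 : e₁ + e₂ + e₃ = 4 := by linear_combination (a1 + a2) / 2 - a0
  have s2 : e₁ * e₂ + e₁ * e₃ + e₂ * e₃ = -160 := by linear_combination (a2 - a1) / 2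
  set δ : ℂ := (e₁ - e₂) * (e₁ - e₃) * (e₂ - e₃) with hδ
  have hδ0 : δ ≠ 0 := mul_ne_zero (mul_ne_zero (sub_ne_zero.2 h12) (sub_ne_zero.2 h13))
    (sub_ne_zero.2 h23)
  have hδ2 : (δ / 1936) ^ 2 = -((11 : ℕ) : ℂ) := by
    have : δ ^ 2 = (e₁ + e₂ + e₃) ^ 2 * (e₁ * e₂ + e₁ * e₃ + e₂ * e₃) ^ 2 -
        4 * (e₁ * e₂ + e₁ * e₃ + e₂ * e₃) ^ 3 - 4 * (e₁ + e₂ + e₃) ^ 3 * (e₁ * e₂ * e₃) +
        18 * (e₁ + e₂ + e₃) * (e₁ * e₂ + e₁ * e₃ + e₂ * e₃) * (e₁ * e₂ * e₃) -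
        27 * (e₁ * e₂ * e₃) ^ 2 := by rw [hδ]; ring
    rw [div_pow, this, s1, s2, s3]
    norm_num
  have hmap : ∀ τ : G, τ δ = (τ e₁ - τ e₂) * (τ e₁ - τ e₃) * (τ e₂ - τ e₃) := fun τ => by
    simp only [hδ, map_mul, map_sub]
  have h11 : Nat.Prime 11 := by norm_num
  have key : ∃ (O : ValuationSubring ℂ) (g : G), Ov O 11 ∧ Frob O 1 g ∧ g δ = -δ ∧ g e₁ ≠ e₁ := by
    obtain ⟨O, hO⟩ := hV.1.1 11 h11
    obtain ⟨g, hg, hgt⟩ := exists_move hV.2.2.1 h11 hO (Or.inr hδ2)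
    have hgδ : g δ = -δ := by
      rw [map_div₀, map_ofNat] at hgt
      linear_combination 1936 * hgt
    by_cases h1 : g e₁ = e₁
    · have h2 : g e₂ ≠ e₂ := fun h2 => by
        have h3 : g e₃ = e₃ := by
          have := congrArg g s1
          rw [map_add, map_add, h1, h2, map_ofNat] at this
          linear_combination this - s1
        rw [hmap, h1, h2, h3] at hgδ
        exact hδ0 (by linear_combination hgδ / 2)
      refine ⟨_, ω⁻¹ * g * ω⁻¹⁻¹, hV.2.1.2.2.2.2.1 O 11 _ hO, hV.2.1.2.2.2.1 O 1 g ω⁻¹ hg, ?_, ?_⟩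
      · have h3 : ω δ = δ := by rw [hmap, hω1, hω2, hω3, hδ]; ring
        apply ω.injective
        change (ω * (ω⁻¹ * g * ω⁻¹⁻¹)) δ = _
        rw [inv_inv, ← mul_assoc, ← mul_assoc, mul_inv_cancel, one_mul, map_neg]
        change g (ω δ) = _
        rw [h3, hgδ]
      · intro h3
        have h4 := congrArg ω h3
        change (ω * (ω⁻¹ * g * ω⁻¹⁻¹)) e₁ = _ at h4
        rw [inv_inv, ← mul_assoc, ← mul_assoc, mul_inv_cancel, one_mul] at h4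
        change g (ω e₁) = _ at h4
        rw [hω1] at h4
        exact h2 h4
    · exact ⟨O, g, hO, hg, hgδ, h1⟩
  obtain ⟨O, g, hO, hg, hgδ, hg1⟩ := key
  have hq11 : (11 : ℕ) ≠ q := by have := hq.big; omega
  refine ⟨g, e₁, hr1, hV.2.1.2.2.2.2.2.2.1 q 11 O g hq.pr hq.m4 h11 hq11 hO hg,
    fix_zeta (v_two h11 hO (by norm_num)) hg hζ, fun g' hg' h => ?_⟩
  change cj (g' (cj (g' e₁))) = e₁ at h
  rw [hg' e₁ hr1] at h
  have hs : g e₁ + g e₂ + g e₃ = 4 := by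
    have := congrArg g s1
    rwa [map_add, map_add, map_ofNat] at this
  have hinj : ∀ x, cj x = e₁ → x = e₁ := fun x hx => cj.injective (by rw [hx, hc1])
  have h5 := hinj _ h
  rw [hmap] at hgδ
  rcases hroot g e₁ hr1 with h1 | h1 | h1
  · exact hg1 h1
  · rw [h1, hc2, hg' e₃ hr3] at h5
    have h6 : g e₂ = e₃ := by linear_combination hs - h1 - h5 - s1
    rw [h1, h5, h6] at hgδ
    exact hδ0 (by linear_combination hgδ / 2)
  · rw [h1, hc3, hg' e₂ hr2] at h5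
    have h6 : g e₃ = e₂ := by linear_combination hs - h1 - h5 - s1
    rw [h1, h5, h6] at hgδ
    exact hδ0 (by linear_combination hgδ / 2)

end Pool.Agent.Lib.MP_d6ddbd_nt.K11.Aux
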