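import Mathlib

/-!
Lemma K, the group theory: the action on the points of two-power order, level by level.
-/

set_option autoImplicit false

noncomputable section

namespace Pool.Agent.Lib.MP_d6ddbd_nt.K11.Comm

variable {Γ M : Type*} [Group Γ] [AddCommGroup M] [DistribMulAction Γ M]

variable (Γ M) in
/-- The elements that fix the points killed by `2 ^ i`. -/
def NN (i : ℕ) : Subgroup Γ where
  carrier := {g | ∀ U : M, 2 ^ i • U = 0 → g • U = U}
  mul_mem' := fun {a b} ha hb U hU => by rw [mul_smul, hb U hU, ha U hU]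
  one_mem' := fun U _ => one_smul _ U
  inv_mem' := fun {a} ha U hU => by rw [inv_smul_eq_iff, ha U hU]

theorem mem_NN {i : ℕ} {g : Γ} : g ∈ NN Γ M i ↔ ∀ U : M, 2 ^ i • U = 0 → g • U = U := Iff.rfl

theorem smul_ns (g : Γ) (n : ℕ) (U : M) : g • (n • U) = n • (g • U) :=
  map_nsmul (DistribSMul.toAddMonoidHom M g) n U

theorem NN_conj {i : ℕ} {g : Γ} (hg : g ∈ NN Γ M i) (γ : Γ) : γ * g * γ⁻¹ ∈ NN Γ M i := by
  intro U hU
  rw [mul_smul, mul_smul, hg (γ⁻¹ • U) (by rw [← smul_ns, hU, smul_zero]), smul_inv_smul]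

theorem NN_mono {i j : ℕ} (h : i ≤ j) {g : Γ} (hg : g ∈ NN Γ M j) : g ∈ NN Γ M i := by
  intro U hU
  obtain ⟨k, rfl⟩ := Nat.exists_eq_add_of_le h
  exact hg U (by rw [pow_add, mul_comm, mul_smul, hU, smul_zero])

/-- A division by `2 ^ i`. -/
def dv (i : ℕ) (U : M) : M := Classical.epsilon fun S : M => 2 ^ i • S = U

variable (M) in
/-- Divisibility by two. -/
def Dv : Prop := ∀ P : M, ∃ S : M, 2 • S = P

theorem dv_spec (hD : Dv M) (i : ℕ) (U : M) : 2 ^ i • dv i U = U := by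
  refine Classical.epsilon_spec (p := fun S : M => 2 ^ i • S = U) ?_
  induction i with
  | zero => exact ⟨U, by simp⟩
  | succ i ih =>
    obtain ⟨S, hS⟩ := ih
    obtain ⟨R, hR⟩ := hD S
    exact ⟨R, by rw [pow_succ, mul_smul, hR, hS]⟩

/-- The leading term of the action at level `i`. -/
def AA (i : ℕ) (g : Γ) (U : M) : M := g • dv i U - dv i U

section

variable (hD : Dv M) {i : ℕ} {g h : Γ}
include hD

theorem AA_eq (hg : g ∈ NN Γ M i) {S U : M} (hS : 2 ^ i • S = U) : g • S - S = AA i g U := by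
  have h1 := hg (S - dv i U) (by rw [smul_sub, hS, dv_spec hD, sub_self])
  rw [smul_sub] at h1
  rw [AA, sub_eq_sub_iff_sub_eq_sub, h1]

theorem AA_two (hg : g ∈ NN Γ M i) {U : M} (hU : 2 • U = 0) : 2 • AA i g U = 0 := by
  have h1 := hg (2 • dv i U) (by rw [smul_comm, dv_spec hD, hU])
  rw [AA, smul_sub, ← smul_ns, h1, sub_self]

theorem AA_add (hg : g ∈ NN Γ M i) (U U' : M) : AA i g (U + U') = AA i g U + AA i g U' := by
  rw [← AA_eq hD hg (S := dv i U + dv i U') (by rw [smul_add, dv_spec hD, dv_spec hD]), AA, AA,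
    smul_add]
  abel

theorem AA_zero (hg : g ∈ NN Γ M i) : AA i g (0 : M) = 0 := by
  rw [← AA_eq hD hg (S := 0) (smul_zero _), smul_zero, sub_self]

theorem AA_mul (hi : 1 ≤ i) (hg : g ∈ NN Γ M i) (hh : h ∈ NN Γ M i) {U : M} (hU : 2 • U = 0) :
    AA i (g * h) U = AA i g U + AA i h U := by
  have h1 := NN_mono hi hg (AA i h U) (by rw [pow_one, AA_two hD hh hU])
  rw [← h1]
  simp only [AA, smul_sub, mul_smul]
  abel

theorem AA_conj (hg : g ∈ NN Γ M i) (γ : Γ) (U : M) :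
    AA i (γ * g * γ⁻¹) (γ • U) = γ • AA i g U := by
  rw [← AA_eq hD (NN_conj hg γ) (S := γ • dv i U) (by rw [← smul_ns, dv_spec hD]), AA, smul_sub,
    mul_smul, mul_smul, inv_smul_smul]

theorem mem_succ (hg : g ∈ NN Γ M i) (h0 : ∀ U : M, 2 • U = 0 → AA i g U = 0) :
    g ∈ NN Γ M (i + 1) := by
  intro U hU
  rw [← sub_eq_zero, AA_eq hD hg rfl]
  exact h0 _ (by rw [← mul_smul, ← pow_succ', hU])

theorem sq_mem (hi : 1 ≤ i) (hg : g ∈ NN Γ M i) : g * g ∈ NN Γ M (i + 1) :=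
  mem_succ hD (mul_mem hg hg) fun U hU => by
    rw [AA_mul hD hi hg hg hU, ← two_smul ℕ, AA_two hD hg hU]

theorem AA_sq (hi : 1 ≤ i) (hg : g ∈ NN Γ M i) (U : M) :
    AA (i + 1) (g * g) U = AA i g U + AA 1 g (AA i g U) := by
  have h1 : g • (2 • dv (i + 1) U) - 2 • dv (i + 1) U = AA i g U :=
    AA_eq hD hg (by rw [← mul_smul, ← pow_succ, dv_spec hD])
  have h2 : g • AA (i + 1) g U - AA (i + 1) g U = AA 1 g (AA i g U) :=
    AA_eq hD (NN_mono hi hg) (by rw [pow_one, ← h1, AA, smul_sub, smul_ns])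
  rw [← h2, ← h1]
  simp only [AA, smul_sub, mul_smul, two_smul, smul_add]
  abel

theorem AA_low (hg : g ∈ NN Γ M 2) {U : M} (hU : 2 • U = 0) : AA 1 g U = 0 := by
  rw [AA, sub_eq_zero]
  exact hg _ (by rw [pow_succ', mul_smul, dv_spec hD, hU])

end

/-- The three points of order two, the pairings with them, an element of order three and a
transposition. -/
structure Dat (T : Fin 3 → M) (w : Fin 3 → M → ZMod 2) (ω τ : Γ) : Prop where
  div : Dv M
  two : ∀ k, 2 • T k = 0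
  add : ∀ j U U', 2 • U = 0 → 2 • U' = 0 → w j (U + U') = w j U + w j U'
  sum : T 0 + T 1 = T 2
  all : ∀ U : M, 2 • U = 0 → U = 0 ∨ ∃ k, U = T k
  wT : ∀ j k, w j (T k) = if j = k then 0 else 1
  om : ∀ k, ω • T k = T (k + 1)
  tau : ∀ k, τ • T k = T (-k)

/-- Equivariant characters with values in the vectors of sum zero. -/
structure Eqv (M : Type*) [AddCommGroup M] [DistribMulAction Γ M] (ω τ : Γ) (i : ℕ)
    (f : Γ → Fin 3 → ZMod 2) : Prop where
  mul : ∀ g h, g ∈ NN Γ M i → h ∈ NN Γ M i → f (g * h) = f g + f h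
  om : ∀ g j, g ∈ NN Γ M i → f (ω * g * ω⁻¹) (j + 1) = f g j
  tau : ∀ g j, g ∈ NN Γ M i → f (τ * g * τ⁻¹) (-j) = f g j
  sum : ∀ g, g ∈ NN Γ M i → f g 0 + f g 1 + f g 2 = 0

theorem z2 (x : ZMod 2) : x + x = 0 := by revert x; decide

theorem v2 (x : Fin 3 → ZMod 2) : x + x = 0 := funext fun j => z2 (x j)

theorem v2' {x y : Fin 3 → ZMod 2} (h : x + y = 0) : x = y := by
  rw [← add_zero x, ← v2 y, ← add_assoc, h, zero_add]

namespace Eqv

variable {ω τ : Γ} {i : ℕ} {f p : Γ → Fin 3 → ZMod 2}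

theorem mono (hf : Eqv M ω τ i f) {j : ℕ} (h : i ≤ j) : Eqv M ω τ j f :=
  ⟨fun g g' hg hg' => hf.mul g g' (NN_mono h hg) (NN_mono h hg'),
    fun g k hg => hf.om g k (NN_mono h hg), fun g k hg => hf.tau g k (NN_mono h hg),
    fun g hg => hf.sum g (NN_mono h hg)⟩

theorem inv (hf : Eqv M ω τ i f) {g : Γ} (hg : g ∈ NN Γ M i) : f g⁻¹ = f g := by
  have h1 := hf.mul 1 1 (one_mem _) (one_mem _)
  rw [mul_one, v2] at h1
  exact v2' (by rw [← hf.mul _ _ (inv_mem hg) hg, inv_mul_cancel, h1])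

theorem comm (hf : Eqv M ω τ i f) {g : Γ} (hg : g ∈ NN Γ M i) (j : Fin 3) :
    f (ω * g * ω⁻¹ * g⁻¹) (j + 1) = f g j + f g (j + 1) := by
  rw [hf.mul _ _ (NN_conj hg ω) (inv_mem hg), hf.inv hg, Pi.add_apply, hf.om g j hg]

theorem om' (hf : Eqv M ω τ i f) {g : Γ} (hg : g ∈ NN Γ M i) :
    f (ω * g * ω⁻¹) = fun j => f g (j - 1) :=
  funext fun j => by rw [← hf.om g (j - 1) hg, sub_add_cancel]

theorem four : ∀ x y : Fin 3 → ZMod 2, x 0 + x 1 + x 2 = 0 → y 0 + y 1 + y 2 = 0 → y ≠ 0 →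
    x = 0 ∨ x = y ∨ (x = fun j => y (j - 1)) ∨ x = fun j => y (j - 1 - 1) := by
  decide

theorem cover (hf : Eqv M ω τ i f) (hp : Eqv M ω τ i p)
    (hk : ∀ g ∈ NN Γ M i, p g = 0 → f g = 0) {h : Γ} (hh : h ∈ NN Γ M i) (h0 : p h ≠ 0)
    {c : ZMod 2} (hc : f h = c • p h) {g : Γ} (hg : g ∈ NN Γ M i) : f g = c • p g := by
  have key : ∀ h' ∈ NN Γ M i, f h' = c • p h' → p g = p h' → f g = c • p g := by
    intro h' hh' hc' he
    have h1 := hk _ (mul_mem hg hh') (by rw [hp.mul _ _ hg hh', he, v2])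
    rw [hf.mul _ _ hg hh'] at h1
    rw [v2' h1, hc', he]
  have st : ∀ h' ∈ NN Γ M i, f h' = c • p h' → f (ω * h' * ω⁻¹) = c • p (ω * h' * ω⁻¹) := by
    intro h' hh' hc'
    rw [hf.om' hh', hp.om' hh', hc']
    rfl
  have h1 := NN_conj hh ω
  rcases four (p g) (p h) (hp.sum g hg) (hp.sum h hh) h0 with e | e | e | e
  · rw [hk g hg e, e, smul_zero]
  · exact key h hh hc e
  · exact key _ h1 (st h hh hc) (by rw [hp.om' hh, e])
  · exact key _ (NN_conj h1 ω) (st _ h1 (st h hh hc)) (by rw [hp.om' h1, hp.om' hh, e])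

theorem three : ∀ y : Fin 3 → ZMod 2, y 0 + y 1 + y 2 = 0 → y ≠ 0 →
    y = ![0, 1, 1] ∨ (fun j => y (j - 1)) = ![0, 1, 1] ∨ (fun j => y (j - 1 - 1)) = ![0, 1, 1] := by
  decide

theorem sym : ∀ y : Fin 3 → ZMod 2, y 0 + y 1 + y 2 = 0 → (∀ j, y (-j) = y j) →
    y = y 1 • ![0, 1, 1] := by
  decide

theorem dich (hf : Eqv M ω τ i f) (hp : Eqv M ω τ i p)
    (hk : ∀ g ∈ NN Γ M i, p g = 0 → f g = 0) {h : Γ} (hh : h ∈ NN Γ M i) (h0 : p h ≠ 0) :
    ∃ c : ZMod 2, ∀ g ∈ NN Γ M i, f g = c • p g := by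
  obtain ⟨h', hh', e⟩ : ∃ h' ∈ NN Γ M i, p h' = ![0, 1, 1] := by
    have h1 := NN_conj hh ω
    rcases three (p h) (hp.sum h hh) h0 with e | e | e
    · exact ⟨h, hh, e⟩
    · exact ⟨_, h1, by rw [hp.om' hh, e]⟩
    · exact ⟨_, NN_conj h1 ω, by rw [hp.om' h1, hp.om' hh, e]⟩
  have h2 := NN_conj hh' τ
  have h3 : p (τ * h' * τ⁻¹) = p h' := funext fun j => by
    rw [← neg_neg j, hp.tau h' (-j) hh', e, neg_neg]
    revert j
    decide
  have h4 := hk _ (mul_mem h2 hh') (by rw [hp.mul _ _ h2 hh', h3, v2])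
  rw [hf.mul _ _ h2 hh'] at h4
  refine ⟨f h' 1, fun g hg => cover hf hp hk hh' (by rw [e]; decide) ?_ hg⟩
  rw [e]
  exact sym _ (hf.sum h' hh') fun j => by rw [← hf.tau h' j hh', v2' h4]

end Eqv

end Pool.Agent.Lib.MP_d6ddbd_nt.K11.Comm
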