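import Pool.Agent.Lib.MP_d6ddbd_nt.K11.Comm1

/-!
Lemma K, the group theory: descent through the levels.
-/

set_option autoImplicit false

noncomputable section

namespace Pool.Agent.Lib.MP_d6ddbd_nt.K11.Comm

variable {Γ M : Type*} [Group Γ] [AddCommGroup M] [DistribMulAction Γ M]

/-- The matrix of the leading term. -/
def aa (T : Fin 3 → M) (w : Fin 3 → M → ZMod 2) (i : ℕ) (g : Γ) (j k : Fin 3) : ZMod 2 :=
  w j (AA i g (T k))

/-- The part of the leading term that does not commute with the element of order three. -/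
def pp (T : Fin 3 → M) (w : Fin 3 → M → ZMod 2) (i : ℕ) (g : Γ) (j : Fin 3) : ZMod 2 :=
  aa T w i g (j + 1) (j + 1) + aa T w i g (j + 2) (j + 2)

theorem fin1 : ∀ a0 a1 a2 : Fin 3 → ZMod 2, (∀ k, a0 k + a1 k + a2 k = 0) →
    a0 2 = a0 0 + a0 1 → a1 2 = a1 0 + a1 1 → a0 0 + a1 1 = 0 → a1 1 + a2 2 = 0 →
    ∀ j k : Fin 3, ![a0, a1, a2] (j + 1) (k + 1) = ![a0, a1, a2] j k := by
  decide

theorem fin2 : ∀ a0 a1 a2 : Fin 3 → ZMod 2, (∀ k, a0 k + a1 k + a2 k = 0) →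
    a0 2 = a0 0 + a0 1 → a1 2 = a1 0 + a1 1 → ∀ k : Fin 3,
    (a0 (k - 1) + a1 k) * (![a0, a1, a2] (k - 1) 2 + ![a0, a1, a2] k 0) +
      (a2 (k - 1) + a0 k) * (![a0, a1, a2] (k - 1) 0 + ![a0, a1, a2] k 1) = 0 := by
  decide

theorem fin3 : ∀ x : Fin 3 → ZMod 2, x 0 + x 1 + x 2 = 0 → (∀ j, x j + x (j + 1) = 0) → x = 0 := by
  decide

theorem eta3 (a : Fin 3 → Fin 3 → ZMod 2) : ![a 0, a 1, a 2] = a := by
  funext j
  fin_cases j <;> rfl

namespace Dat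

variable {T : Fin 3 → M} {w : Fin 3 → M → ZMod 2} {ω τ : Γ} (D : Dat T w ω τ)
include D

theorem w0 (j : Fin 3) : w j 0 = 0 := by
  have := D.add j 0 0 (smul_zero _) (smul_zero _)
  rw [add_zero, z2] at this
  exact this

theorem col {U : M} (hU : 2 • U = 0) : w 0 U + w 1 U + w 2 U = 0 := by
  rcases D.all U hU with rfl | ⟨k, rfl⟩
  · simp [D.w0]
  · simp only [D.wT]
    clear hU
    revert k
    decide

theorem eq0 {U : M} (hU : 2 • U = 0) (h : ∀ j, w j U = 0) : U = 0 := by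
  rcases D.all U hU with rfl | ⟨k, rfl⟩
  · rfl
  · have := h (k + 1)
    rw [D.wT] at this
    exact absurd this (by clear this h hU; revert k; decide)

theorem w_perm {γ : Γ} {π : Fin 3 → Fin 3} (hπ : Function.Injective π)
    (hγ : ∀ k, γ • T k = T (π k)) (j : Fin 3) {U : M} (hU : 2 • U = 0) :
    w (π j) (γ • U) = w j U := by
  rcases D.all U hU with rfl | ⟨k, rfl⟩
  · rw [smul_zero, D.w0, D.w0]
  · rw [hγ, D.wT, D.wT]
    simp only [hπ.eq_iff]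

variable {i : ℕ} {g h : Γ}

theorem aa_mul (hi : 1 ≤ i) (hg : g ∈ NN Γ M i) (hh : h ∈ NN Γ M i) (j k : Fin 3) :
    aa T w i (g * h) j k = aa T w i g j k + aa T w i h j k := by
  rw [aa, AA_mul D.div hi hg hh (D.two k),
    D.add _ _ _ (AA_two D.div hg (D.two k)) (AA_two D.div hh (D.two k)), aa, aa]

theorem aa_perm (hg : g ∈ NN Γ M i) {γ : Γ} {π : Fin 3 → Fin 3} (hπ : Function.Injective π)
    (hγ : ∀ k, γ • T k = T (π k)) (j k : Fin 3) :
    aa T w i (γ * g * γ⁻¹) (π j) (π k) = aa T w i g j k := by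
  rw [aa, ← hγ, AA_conj D.div hg, D.w_perm hπ hγ j (AA_two D.div hg (D.two k)), aa]

theorem aa_om (hg : g ∈ NN Γ M i) (j k : Fin 3) :
    aa T w i (ω * g * ω⁻¹) (j + 1) (k + 1) = aa T w i g j k :=
  D.aa_perm hg (π := fun k => k + 1) (add_left_injective 1) D.om j k

theorem aa_tau (hg : g ∈ NN Γ M i) (j k : Fin 3) :
    aa T w i (τ * g * τ⁻¹) (-j) (-k) = aa T w i g j k :=
  D.aa_perm hg (π := fun k => -k) neg_injective D.tau j k

theorem aa_col (hg : g ∈ NN Γ M i) (k : Fin 3) :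
    aa T w i g 0 k + aa T w i g 1 k + aa T w i g 2 k = 0 := D.col (AA_two D.div hg (D.two k))

theorem aa_row (hg : g ∈ NN Γ M i) (j : Fin 3) :
    aa T w i g j 2 = aa T w i g j 0 + aa T w i g j 1 := by
  rw [aa, ← D.sum, AA_add D.div hg,
    D.add _ _ _ (AA_two D.div hg (D.two 0)) (AA_two D.div hg (D.two 1)), aa, aa]

theorem aa_inv (hi : 1 ≤ i) (hg : g ∈ NN Γ M i) (j k : Fin 3) :
    aa T w i g⁻¹ j k = aa T w i g j k := by
  have h1 := D.aa_mul hi (one_mem (NN Γ M i)) (one_mem _) j k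
  rw [mul_one, z2] at h1
  have h2 := D.aa_mul hi (inv_mem hg) hg j k
  rw [inv_mul_cancel, h1] at h2
  rw [← add_zero (aa T w i g⁻¹ j k), ← z2 (aa T w i g j k), ← add_assoc, ← h2, zero_add]

theorem aa_comm (hi : 1 ≤ i) (hg : g ∈ NN Γ M i) (j k : Fin 3) :
    aa T w i (ω * g * ω⁻¹ * g⁻¹) j k = aa T w i g (j - 1) (k - 1) + aa T w i g j k := by
  rw [D.aa_mul hi (NN_conj hg ω) (inv_mem hg), D.aa_inv hi hg, ← D.aa_om hg (j - 1) (k - 1),
    sub_add_cancel, sub_add_cancel]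

theorem w_AA (hg : g ∈ NN Γ M i) (j : Fin 3) {U : M} (hU : 2 • U = 0) :
    w j (AA i g U) = w 1 U * aa T w i g j 0 + w 0 U * aa T w i g j 1 := by
  rcases D.all U hU with rfl | ⟨k, rfl⟩
  · simp [AA_zero D.div hg, D.w0]
  · have := D.aa_row hg j
    rw [D.wT, D.wT]
    fin_cases k
    · simp [aa]
    · simp [aa]
    · simpa [aa] using this

theorem succ_of (hg : g ∈ NN Γ M i) (h0 : ∀ j k, aa T w i g j k = 0) : g ∈ NN Γ M (i + 1) :=
  mem_succ D.div hg fun U hU => D.eq0 (AA_two D.div hg hU) fun j => by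
    rw [D.w_AA hg j hU, h0, h0, mul_zero, mul_zero, add_zero]

theorem eqv (hi : 1 ≤ i) : Eqv M ω τ i (pp T w i) where
  mul g h hg hh := funext fun j => by
    simp only [pp, D.aa_mul hi hg hh, Pi.add_apply]
    ring
  om g j hg := by
    rw [pp, pp, ← D.aa_om hg (j + 1), ← D.aa_om hg (j + 2), add_right_comm j 1 2]
  tau g j hg := by
    have e1 : ∀ j : Fin 3, -j + 1 = -(j + 2) := by decide
    have e2 : ∀ j : Fin 3, -j + 2 = -(j + 1) := by decide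
    rw [pp, pp, e1, e2, D.aa_tau hg, D.aa_tau hg, add_comm]
  sum g _ := by
    have : ∀ x y z : ZMod 2, y + z + (z + x) + (x + y) = 0 := by decide
    exact this (aa T w i g 0 0) (aa T w i g 1 1) (aa T w i g 2 2)

theorem comm_mem (hi : 1 ≤ i) (hg : g ∈ NN Γ M i) (h0 : pp T w i g = 0) :
    ω * g * ω⁻¹ * g⁻¹ ∈ NN Γ M (i + 1) := by
  refine D.succ_of (mul_mem (NN_conj hg ω) (inv_mem hg)) fun j k => ?_
  have h1 := fin1 (aa T w i g 0) (aa T w i g 1) (aa T w i g 2) (D.aa_col hg) (D.aa_row hg 0)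
    (D.aa_row hg 1) (congrFun h0 2) (congrFun h0 0) (j - 1) (k - 1)
  rw [eta3, sub_add_cancel, sub_add_cancel] at h1
  rw [D.aa_comm hi hg, h1, z2]

theorem aa_sq (hi : 1 ≤ i) (hg : g ∈ NN Γ M i) (k : Fin 3) :
    aa T w (i + 1) ((ω * g * ω⁻¹ * g⁻¹) * (ω * g * ω⁻¹ * g⁻¹)) k k =
      aa T w i (ω * g * ω⁻¹ * g⁻¹) k k := by
  have hc := mul_mem (NN_conj hg ω) (inv_mem hg)
  have h2 := AA_two D.div hc (D.two k)
  rw [aa, AA_sq D.div hi hc, D.add _ _ _ h2 (AA_two D.div (NN_mono hi hc) h2), aa, add_eq_left]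
  rcases hi.eq_or_lt with rfl | hi2
  · have h1 := fin2 (aa T w 1 g 0) (aa T w 1 g 1) (aa T w 1 g 2) (D.aa_col hg) (D.aa_row hg 0)
      (D.aa_row hg 1) k
    rw [eta3] at h1
    rw [D.w_AA hc k h2]
    change aa T w 1 _ 1 k * _ + aa T w 1 _ 0 k * _ = 0
    simp only [D.aa_comm le_rfl hg]
    exact h1
  · rw [AA_low D.div (NN_mono hi2 hc) h2, D.w0]

variable {f : Γ → Fin 3 → ZMod 2}

theorem ker (hi : 1 ≤ i) (hf : Eqv M ω τ 1 f)
    (hv : ∀ g ∈ commutator Γ, g ∈ NN Γ M (i + 1) → f g = 0) :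
    ∀ g ∈ NN Γ M i, pp T w i g = 0 → f g = 0 := by
  intro g hg h0
  have h1 := hv _ (Subgroup.commutator_mem_commutator (Subgroup.mem_top ω) (Subgroup.mem_top g))
    (D.comm_mem hi hg h0)
  refine fin3 _ ((hf.mono hi).sum g hg) fun j => ?_
  rw [← (hf.mono hi).comm hg j]
  exact congrFun h1 _

theorem step (hi : 1 ≤ i) (hf : Eqv M ω τ 1 f) (hg : g ∈ NN Γ M i) (h0 : pp T w i g ≠ 0) :
    ∃ h ∈ NN Γ M (i + 1), pp T w (i + 1) h ≠ 0 ∧ f h = 0 := by
  have hc := mul_mem (NN_conj hg ω) (inv_mem hg)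
  refine ⟨_, sq_mem D.div hi hc, fun e => h0 ?_, by rw [(hf.mono hi).mul _ _ hc hc, v2]⟩
  refine fin3 _ ((D.eqv hi).sum g hg) fun j => ?_
  have := congrFun e (j + 1)
  rw [pp, D.aa_sq hi hg, D.aa_sq hi hg] at this
  rw [← (D.eqv hi).comm hg j]
  exact this

theorem main (hf : Eqv M ω τ 1 f) (hg : g ∈ NN Γ M 1) (h0 : pp T w 1 g ≠ 0) (m : ℕ)
    (hv : ∀ g ∈ commutator Γ, g ∈ NN Γ M (m + 1) → f g = 0) :
    ∃ c : ZMod 2, ∀ g ∈ NN Γ M 1, f g = c • pp T w 1 g := by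
  have Q : ∀ n, ∃ h ∈ NN Γ M (n + 2), pp T w (n + 2) h ≠ 0 ∧ f h = 0 := by
    intro n
    induction n with
    | zero => exact D.step le_rfl hf hg h0
    | succ n ih =>
      obtain ⟨h, hh, h1, -⟩ := ih
      exact D.step (by omega) hf hh h1
  have P : ∀ n, (∀ g ∈ commutator Γ, g ∈ NN Γ M (n + 2) → f g = 0) →
      ∀ g ∈ commutator Γ, g ∈ NN Γ M 2 → f g = 0 := by
    intro n
    induction n with
    | zero => exact id
    | succ n ih =>
      refine fun hv => ih fun g _ hg => ?_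
      obtain ⟨h, hh, h1, h2⟩ := Q n
      have hi : 1 ≤ n + 2 := by omega
      have := (hf.mono hi).cover (D.eqv hi) (D.ker hi hf hv) hh h1 (c := 0)
        (by rw [h2, zero_smul]) hg
      rw [this, zero_smul]
  exact hf.dich (D.eqv le_rfl)
    (D.ker le_rfl hf (P m fun g hg hg' => hv g hg (NN_mono (by omega) hg'))) hg h0

end Dat

end Pool.Agent.Lib.MP_d6ddbd_nt.K11.Comm
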