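import Pool.Agent.Lib.MP_d6ddbd_nt.K11.Stmt
import Pool.Agent.Lib.MP_d6ddbd_nt.K11.Comm2

/-!
Lemma K: quadratic characters and the points of order two.
-/

set_option autoImplicit false

open NumberField
open Pool.Agent.Lib.MP_02f36d_nt (xc yc)

noncomputable section

namespace Pool.Agent.Lib.MP_d6ddbd_nt.K11.Comm

/-- A square root. -/
def rt (x : ℂ) : ℂ := (IsAlgClosed.exists_pow_nat_eq x two_pos).choose

theorem rt_sq (x : ℂ) : rt x ^ 2 = x := (IsAlgClosed.exists_pow_nat_eq x two_pos).choose_spec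

open Classical in
/-- The quadratic character of `x`. -/
def ch (x : ℂ) (σ : G) : ZMod 2 := if σ (rt x) = rt x then 0 else 1

theorem ch_iff {x s : ℂ} (hs : s ^ 2 = x) (σ : G) : ch x σ = 0 ↔ σ s = s := by
  have h : ch x σ = 0 ↔ σ (rt x) = rt x := by
    unfold ch
    split_ifs with h
    · simp [h]
    · simp [h]
  rw [h]
  rcases sq_eq_sq_iff_eq_or_eq_neg.1 (hs.trans (rt_sq x).symm) with e | e
  · rw [e]
  · rw [e, map_neg, neg_inj]

theorem pm {x s : ℂ} (hs : s ^ 2 = x) {σ : G} (h : σ x = x) : σ s = s ∨ σ s = -s :=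
  sq_eq_sq_iff_eq_or_eq_neg.1 (by rw [← map_pow, hs, h])

theorem add_of : ∀ a b c : ZMod 2, (a = 0 ↔ (b = 0 ↔ c = 0)) → a = b + c := by decide

theorem eq_of : ∀ a b : ZMod 2, (a = 0 ↔ b = 0) → a = b := by decide

theorem rt_ne {x : ℂ} (hx : x ≠ 0) : rt x ≠ 0 := fun h => hx (by rw [← rt_sq x, h]; simp)

theorem neg_ne {s : ℂ} (hs : s ≠ 0) : -s ≠ s := fun h => hs (by linear_combination -h / 2)

theorem ch_mul {x : ℂ} (hx : x ≠ 0) {σ τ : G} (hσ : σ x = x) (hτ : τ x = x) :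
    ch x (σ * τ) = ch x σ + ch x τ := by
  have hn := neg_ne (rt_ne hx)
  refine add_of _ _ _ ?_
  rw [ch_iff (rt_sq x), ch_iff (rt_sq x), ch_iff (rt_sq x)]
  change σ (τ (rt x)) = rt x ↔ _
  rcases pm (rt_sq x) hσ with h | h <;> rcases pm (rt_sq x) hτ with h' | h' <;> simp [h, h', hn]

theorem ch_mul' {x y : ℂ} (hx : x ≠ 0) (hy : y ≠ 0) {σ : G} (hσ : σ x = x) (hτ : σ y = y) :
    ch (x * y) σ = ch x σ + ch y σ := by
  have h1 := neg_ne (rt_ne hx)
  have h2 := neg_ne (rt_ne hy)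
  have h3 := neg_ne (mul_ne_zero (rt_ne hx) (rt_ne hy))
  refine add_of _ _ _ ?_
  rw [ch_iff (s := rt x * rt y) (by rw [mul_pow, rt_sq, rt_sq]), ch_iff (rt_sq x),
    ch_iff (rt_sq y), map_mul]
  rcases pm (rt_sq x) hσ with h | h <;> rcases pm (rt_sq y) hτ with h' | h' <;>
    simp [h, h', h1, h2, h3]

theorem ch_conj (x : ℂ) (γ σ : G) : ch (γ x) (γ * σ * γ⁻¹) = ch x σ := by
  refine eq_of _ _ ?_
  rw [ch_iff (s := γ (rt x)) (by rw [← map_pow, rt_sq]), ch_iff (rt_sq x)]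
  change γ (σ (γ.symm (γ (rt x)))) = γ (rt x) ↔ _
  rw [RingEquiv.symm_apply_apply, γ.injective.eq_iff]

/-- The three roots. -/
structure Rts (e : Fin 3 → ℂ) (ω : G) : Prop where
  fac : ∀ x, fc x = (x - e 0) * (x - e 1) * (x - e 2)
  inj : Function.Injective e
  sum : pt (e 0) 0 + pt (e 1) 0 = pt (e 2) 0
  om : ∀ k, ω (e k) = e (k + 1)
  tau : ∀ k, cj (e k) = e (-k)

theorem exists_rts (hR : R1Stmt) : ∃ e ω, Rts e ω := by
  obtain ⟨-, -, -, -, ⟨a, b, c, h, h1, h2, h3, h4, h5, h6, ⟨ω, h7, h8, h9⟩, -⟩, -⟩ := hR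
  have h10 : cj c = b := by
    rw [← h5]
    exact Complex.conj_conj b
  refine ⟨![a, b, c], ω, h, fun i j hij => ?_, h6, fun k => ?_, fun k => ?_⟩
  · fin_cases i <;> fin_cases j
    exacts [rfl, absurd hij h1, absurd hij h2, absurd hij h1.symm, rfl, absurd hij h3,
      absurd hij h2.symm, absurd hij h3.symm, rfl]
  · fin_cases k
    exacts [h7, h8, h9]
  · fin_cases k
    exacts [h4, h5, h10]

namespace Rts

variable {e : Fin 3 → ℂ} {ω : G} (E : Rts e ω)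
include E

theorem root (k : Fin 3) : fc (e k) = 0 := by
  rw [E.fac]
  fin_cases k <;> simp

theorem ex {x : ℂ} (hx : fc x = 0) : ∃ k, x = e k := by
  rw [E.fac, mul_eq_zero, mul_eq_zero, sub_eq_zero, sub_eq_zero, sub_eq_zero] at hx
  rcases hx with (h | h) | h <;> exact ⟨_, h⟩

theorem s1 : e 0 + e 1 + e 2 = 4 := by
  have h0 := E.fac 0
  have h1 := E.fac 1
  have h2 := E.fac (-1)
  simp only [fc] at h0 h1 h2
  linear_combination (h1 + h2) / 2 - h0

theorem s2 : e 0 * e 1 + e 0 * e 2 + e 1 * e 2 = -160 := by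
  have h1 := E.fac 1
  have h2 := E.fac (-1)
  simp only [fc] at h1 h2
  linear_combination (h2 - h1) / 2

theorem fd_mul : fd (e 0) * (fd (e 0) - 496) = fd (e 1) * fd (e 2) := by
  have h0 : fd (e 0) = (e 0 - e 1) * (e 0 - e 2) := by
    rw [fd]; linear_combination 2 * e 0 * E.s1 - E.s2
  have h1 : fd (e 1) = (e 1 - e 0) * (e 1 - e 2) := by
    rw [fd]; linear_combination 2 * e 1 * E.s1 - E.s2
  have h2 : fd (e 2) = (e 2 - e 0) * (e 2 - e 1) := by
    rw [fd]; linear_combination 2 * e 2 * E.s1 - E.s2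
  have h3 : fd (e 0) - 496 = -(e 1 - e 2) ^ 2 := by
    rw [fd]; linear_combination (4 + 3 * e 0 + e 1 + e 2) * E.s1 - 4 * E.s2
  rw [h3, h0, h1, h2]
  ring

variable (hR : R1Stmt)
include hR

theorem spec (k : Fin 3) : pt (e k) 0 ≠ 0 ∧ xc (pt (e k) 0) = e k ∧ yc (pt (e k) 0) = 0 :=
  hR.2.2.1 _ _ (by rw [E.root]; simp)

theorem perm {γ : G} {j k : Fin 3} (h : γ (e j) = e k) : γ • pt (e j) 0 = pt (e k) 0 :=
  act_ext (by simp [smul_eq_zero', (E.spec hR j).1, (E.spec hR k).1])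
    (by rw [xc_smul, (E.spec hR j).2.1, (E.spec hR k).2.1, h])
    (by rw [yc_smul, (E.spec hR j).2.2, (E.spec hR k).2.2, map_zero])

theorem dat : Dat (fun k => pt (e k) 0) (fun j => wl (e j)) ω cj where
  div := hR.1.2.2.2.2.2
  two k := (hR.2.2.2.1 _).2 (Or.inr ⟨(E.spec hR k).2.2, by rw [(E.spec hR k).2.1, E.root]⟩)
  add j U U' := hR.2.2.2.2.2.1 _ U U' (E.root j)
  sum := E.sum
  all U hU := by
    by_cases h0 : U = 0
    · exact Or.inl h0
    obtain ⟨h1, h2⟩ := ((hR.2.2.2.1 U).1 hU).resolve_left h0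
    obtain ⟨k, hk⟩ := E.ex h2
    exact Or.inr ⟨k, act_ext (by simp [h0, (E.spec hR k).1]) (by rw [hk, (E.spec hR k).2.1])
      (by rw [h1, (E.spec hR k).2.2])⟩
  wT j k := by
    simp only [wl, (E.spec hR k).1, (E.spec hR k).2.1, false_or, E.inj.eq_iff, eq_comm]
  om k := E.perm hR (E.om k)
  tau k := E.perm hR (E.tau k)

theorem mem_one {g : G} : g ∈ NN G Pt 1 ↔ ∀ k, g (e k) = e k := by
  refine ⟨fun h k => ?_, fun h U hU => ?_⟩
  · have := congrArg xc (h _ (by rw [pow_one]; exact (E.dat hR).two k))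
    rwa [xc_smul, (E.spec hR k).2.1] at this
  · rcases (E.dat hR).all U (by rwa [pow_one] at hU) with rfl | ⟨k, rfl⟩
    · exact smul_zero g
    · exact E.perm hR (h k)

theorem aa_diag {g : G} (hg : g ∈ NN G Pt 1) (k : Fin 3) :
    aa (fun k => pt (e k) 0) (fun j => wl (e j)) 1 g k k = ch (fd (e k)) g := by
  have h2 : 2 • dv 1 (pt (e k) 0) = pt (e k) 0 := by
    simpa using dv_spec (E.dat hR).div 1 (pt (e k) 0)
  have hk := (E.mem_one hR).1 hg k
  obtain ⟨h, -, hh, H⟩ := hR.2.2.2.2.2.2.2 (e k) (dv 1 (pt (e k) 0)) (E.root k)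
  have := (H g 1 hk (Or.inl rfl) (by rw [h2, one_smul, E.perm hR hk])).2.1
    (by rw [h2]; simpa using (E.dat hR).wT k k)
  rw [h2, gam, if_neg (E.spec hR k).1, if_pos (E.spec hR k).2.1] at hh
  rw [one_smul] at this
  refine eq_of _ _ ?_
  rw [ch_iff hh, this]
  rfl

end Rts

theorem fd_id {R : Type*} [CommRing R] {x : R} (h : fc x = 0) :
    fd x * (fd x - 496) * fd x = 2 ^ 8 * 11 ^ 5 := by
  rw [fc] at h
  rw [fd]
  linear_combination (27 * x ^ 3 - 108 * x ^ 2 - 4320 * x + 45904) * h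

end Pool.Agent.Lib.MP_d6ddbd_nt.K11.Comm
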