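import Pool.Agent.Lib.MP_d6ddbd_nt.K11.Comp1

/-! Primes of degree one and integer roots; normalised representatives. -/

set_option autoImplicit false

open NumberField
open Pool.Agent.Stark Pool.Agent.Stark.LocAux

noncomputable section

namespace Pool.Agent.Lib.MP_d6ddbd_nt.K11.Comp

/-- The cubic of `ϑ`. -/
def gc (y : ℤ) : ℤ := y ^ 3 - 2 * y ^ 2 + 2

/-- The value of `θ`. -/
def xy (y : ℤ) : ℤ := 8 * y ^ 2 - 14 * y

/-- The product with `y - ϑ`. -/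
def sh (y : ℤ) (t : T3) : T3 := (y * t.1 + 2 * t.2.2, y * t.2.1 - t.1, y * t.2.2 - t.2.1 - 2 * t.2.2)

/-- Ramification patterns. -/
def Pat (d : ℤ) (n y : ℕ) : Prop := (n : ℤ) ∣ d ∧ y < n ∧ (n : ℤ) ∣ gc y

/-- Normalised representatives. -/
def Nd (n y : ℕ) (t : T3) : Prop :=
  nrm t = (8 * n) ^ 2 ∧ 256 ∣ nrm (t.1 - 4, t.2) ∧
    (n : ℤ) ∣ (sh y t).1 ∧ (n : ℤ) ∣ (sh y t).2.1 ∧ (n : ℤ) ∣ (sh y t).2.2

variable {L : Type} [Field L] [NumberField L] {θ ϑ : L} {l n y : ℕ} {𝔭 𝔮 : Pr L} {d : ℤ} {t : T3}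

open Classical in
/-- The valuations of a pattern. -/
def pf (ϑ : L) (n : ℕ) (y : ℤ) (𝔮 : Pr L) : ℤ :=
  if 𝔮 ∈ ab L n ∧ og 𝔮 ((y : L) - ϑ) = 0 then 1 else 0

theorem cv {k : Type*} [AddGroup k] {S : AddSubgroup k} {x y : k} (h : x ∈ S) (e : y = x) :
    y ∈ S := e ▸ h

theorem lself (hl : l.Prime) : Nat.log l l = 1 := by simpa using Nat.log_pow hl.one_lt 1

theorem Ctx.mem (C : Ctx θ ϑ) (hl : l.Prime) (h : 𝔭 ∈ ab L l) (hn : n ≠ 0) :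
    𝔭 ∈ ab L n ↔ l ∣ n := by
  obtain ⟨-, p, hp, -, a⟩ := C.pr 𝔭
  obtain rfl := (Nat.prime_dvd_prime_iff_eq hp hl).1 ((a l hl.ne_zero).1 h)
  exact a n hn

theorem Ctx.intj (C : Ctx θ ϑ) (hl : l.Prime) (h : 𝔭 ∈ ab L l) (h1 : og 𝔭 (l : L) = 1) (j : ℕ)
    {m : ℤ} : (m : L) ∈ pw (𝔭.valuation L) j ↔ (l : ℤ) ^ j ∣ m := by
  have l0 : (l : L) ≠ 0 := by exact_mod_cast hl.ne_zero
  induction j generalizing m with
  | zero => simpa using int0 𝔭 m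
  | succ j ih =>
    constructor
    · intro a
      obtain ⟨k, rfl⟩ := (C.int1 hl h).1 (anti (by omega) a)
      have b := pw_div (y := (l : L)) (l := j) a (by rw [← og, h1]; omega)
      rw [Int.cast_mul, Int.cast_natCast, mul_div_cancel_left₀ _ l0] at b
      rw [pow_succ']
      exact mul_dvd_mul_left _ (ih.1 b)
    · rintro ⟨k, rfl⟩
      rw [pow_succ', mul_assoc, Int.cast_mul, Int.cast_natCast]
      exact pw_mul (mem_of_le h1.ge) (ih.2 ⟨k, rfl⟩) (by omega)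

theorem Ctx.sq1 (C : Ctx θ ϑ) (hl : l.Prime) (h : 𝔭 ∈ ab L l) (hn : nm 𝔭 = l)
    (h2 : og 𝔭 (2 : L) = 0) {β : L} (h0 : β ≠ 0) (hβ : og 𝔭 β = 0) {m : ℤ}
    (hm : β - m ∈ pw (𝔭.valuation L) 1) :
    LSq 𝔭 β ↔ ∃ b ∈ List.range l, (l : ℤ) ∣ m - (b : ℤ) ^ 2 := by
  constructor
  · rintro ⟨r, hr⟩
    have r0 : r ≠ 0 := by rintro rfl; exact h0 (by simpa using hr)
    have r1 : ord (wv 𝔭) r = 0 := by
      have := congrArg (ord (wv 𝔭)) hr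
      rw [ord_emb, ord_mul r0 r0, hβ] at this
      omega
    obtain ⟨k, hk⟩ := res (w := wv 𝔭) (by rw [rc_wv]; exact (hn ▸ hl : (nm 𝔭).Prime)) (mem_of_le r1.ge)
    have a : β - k ^ 2 ∈ pw (𝔭.valuation L) 1 := (ComplAux.emb_mem_pw 𝔭 _ 1).1 (by
      refine cv (pw_mul hk (add_mem (mem_of_le (j := 0) r1.ge)
        ((ComplAux.emb_mem_pw 𝔭 _ 0).2 (int0 𝔭 k))) le_rfl) ?_
      simp only [map_sub, map_pow, map_intCast, hr]
      ring)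
    have b : (l : ℤ) ∣ m - k ^ 2 := (C.int1 hl h).1 (by
      convert sub_mem a hm using 1
      push_cast
      ring)
    have l0 : (0 : ℤ) < l := by exact_mod_cast hl.pos
    have c := Int.emod_nonneg k l0.ne'
    have e := Int.emod_lt_of_pos k l0
    refine ⟨(k % l).toNat, List.mem_range.2 (by omega), ?_⟩
    rw [Int.toNat_of_nonneg c, Int.emod_def]
    exact (b.add (dvd_mul_right (l : ℤ) (k / l * (2 * k - l * (k / l))))).trans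
      (dvd_of_eq (by ring))
  · rintro ⟨b, -, hb⟩
    have a : (b : L) ^ 2 - β ∈ pw (𝔭.valuation L) 1 := by
      convert neg_mem (add_mem hm ((C.int1 hl h).2 hb)) using 1
      push_cast
      ring
    have c := add_high h0 (y := (b : L) ^ 2 - β) (by rw [← og, hβ]; exact a)
    rw [add_sub_cancel, show ord _ β = 0 from hβ] at c
    have e : β / b ^ 2 - 1 ∈ pw (𝔭.valuation L) 1 := by
      refine cv (neg_mem ((pw_div_iff c.1 c.2).2 a)) ?_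
      rw [sub_div, div_self c.1, neg_sub]
    have f := hens (isLoc_wv 𝔭) (x := emb 𝔭 (β / b ^ 2)) (by
      rw [← map_ofNat (emb 𝔭) 2, ord_emb, h2]
      simpa using (ComplAux.emb_mem_pw 𝔭 _ 1).2 e)
    rw [LSq, ← div_mul_cancel₀ β c.1, map_mul, map_pow]
    exact f.mul (IsSquare.sq _)

theorem lsq_mul {β s : L} (hs : s ≠ 0) : LSq 𝔭 (β * s ^ 2) ↔ LSq 𝔭 β := by
  have : ∀ β s : L, LSq 𝔭 β → LSq 𝔭 (β * s ^ 2) := fun β s h => by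
    rw [LSq, map_mul, map_pow]
    exact IsSquare.mul h (IsSquare.sq _)
  refine ⟨fun h => ?_, this _ _⟩
  convert this _ s⁻¹ h using 1
  field_simp

theorem Ctx.sq2 (C : Ctx θ ϑ) (hl : l.Prime) (h : 𝔭 ∈ ab L l) (hn : nm 𝔭 = l)
    (h1 : og 𝔭 (l : L) = 1) (h2 : og 𝔭 (2 : L) = 0) {β : L} (h0 : β ≠ 0) (hβ : og 𝔭 β = 2) {m : ℤ}
    (hm : β - m ∈ pw (𝔭.valuation L) 3) :
    LSq 𝔭 β ↔ ∃ b ∈ List.range l, (l : ℤ) ^ 3 ∣ m - (l : ℤ) ^ 2 * (b : ℤ) ^ 2 := by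
  have l0 : (l : L) ^ 2 ≠ 0 := by exact_mod_cast pow_ne_zero 2 hl.ne_zero
  have l1 : ord (𝔭.valuation L) ((l : L) ^ 2) = 2 := by rw [ord_pow, ← og, h1]; rfl
  obtain ⟨k, rfl⟩ := (C.intj hl h h1 2 (m := m)).1 (by
    simpa using sub_mem (mem_of_le (j := 2) hβ.ge) (anti (by norm_num) hm))
  rw [← div_mul_cancel₀ β l0, lsq_mul (by exact_mod_cast hl.ne_zero), C.sq1 hl h hn h2
    (div_ne_zero h0 l0) (by rw [og, ord_div h0 l0, l1, ← og, hβ]; rfl) (m := k) (by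
      refine cv (pw_div (y := (l : L) ^ 2) (l := 1) hm (by rw [l1]; rfl)) ?_
      push_cast
      rw [sub_div, mul_div_cancel_left₀ _ l0])]
  refine exists_congr fun b => and_congr_right fun _ => ?_
  rw [← mul_sub, pow_succ _ 2, mul_dvd_mul_iff_left (by exact_mod_cast pow_ne_zero 2 hl.ne_zero)]

theorem Ctx.sub_ne (C : Ctx θ ϑ) (y : ℤ) : (y : L) - ϑ = ev (y, -1, 0) ϑ ∧ (y : L) - ϑ ≠ 0 := by
  have e : (y : L) - ϑ = ev (y, -1, 0) ϑ := by simp [ev, sub_eq_add_neg]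
  exact ⟨e, fun h => absurd (show (-1 : ℤ) = 0 from congrArg (·.2.1) (C.inj (e ▸ h))) (by decide)⟩

theorem Ctx.sub0 (C : Ctx θ ϑ) (𝔭 : Pr L) (y : ℤ) : 0 ≤ og 𝔭 ((y : L) - ϑ) :=
  (mem_pw_iff.1 ((C.sub_ne y).1 ▸ C.ev0 𝔭 _)).resolve_left (C.sub_ne y).2

theorem Ctx.xy_sub (C : Ctx θ ϑ) (y : ℤ) :
    (xy y : L) - θ = ((y : L) - ϑ) * ev (8 * y - 14, 8, 0) ϑ := by
  simp only [xy, ev, C.th]
  push_cast
  ring

theorem Ctx.uniq (C : Ctx θ ϑ) (hl : l.Prime) (h2 : l ≠ 2) (h11 : l ≠ 11) (h : 𝔭 ∈ ab L l) {y : ℤ}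
    (hy : 0 < og 𝔭 ((y : L) - ϑ)) : nm 𝔭 = l ∧ (l : ℤ) ∣ xr θ 𝔭 - xy y ∧
      ∀ 𝔮 ∈ ab L l, 𝔮 ≠ 𝔭 → og 𝔮 ((xr θ 𝔭 : L) - θ) = 0 ∧ og 𝔮 ((y : L) - ϑ) = 0 := by
  obtain ⟨g1, g2, -⟩ := C.good l hl h2 h11
  have a : (xy y : L) - θ ∈ pw (𝔭.valuation L) 1 :=
    C.xy_sub y ▸ pw_mul (mem_of_le hy) (C.ev0 𝔭 _) le_rfl
  have b : (xr θ 𝔭 : L) - θ ∈ pw (𝔭.valuation L) 1 :=
    Classical.epsilon_spec (p := fun x : ℤ => (x : L) - θ ∈ pw (𝔭.valuation L) 1) ⟨_, a⟩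
  have c : (xr θ 𝔭 : L) - θ ≠ 0 := sub_ne_zero.2 (by simpa using (C.ne (xr θ 𝔭)).1)
  have e := (g1 𝔭 h).2.2.2.1.2 ((mem_pw_iff.1 b).resolve_left c)
  have f : (l : ℤ) ∣ xr θ 𝔭 - xy y := (C.int1 hl h).1 (by simpa using sub_mem b a)
  refine ⟨e, f, fun 𝔮 hq ne => ⟨g2 𝔭 h 𝔮 hq e ne, ?_⟩⟩
  have i := g2 𝔭 h 𝔮 hq e ne
  have j := add_high c (y := -((xr θ 𝔭 - xy y : ℤ) : L))
    (by rw [← og, i]; exact neg_mem ((C.int1 hl hq).2 f))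
  rw [show ord _ _ = 0 from i, show (xr θ 𝔭 : L) - θ + -((xr θ 𝔭 - xy y : ℤ) : L) = xy y - θ by
    push_cast; ring, C.xy_sub] at j
  have k := j.2
  rw [ord_mul (left_ne_zero_of_mul j.1) (right_ne_zero_of_mul j.1)] at k
  have := C.sub0 𝔮 y
  have := (mem_pw_iff.1 (C.ev0 𝔮 _)).resolve_left (right_ne_zero_of_mul j.1)
  rw [og] at *
  omega

theorem Ctx.root (C : Ctx θ ϑ) (hl : l.Prime) (h2 : l ≠ 2) (h11 : l ≠ 11) {y : ℤ}
    (hy : (l : ℤ) ∣ gc y) : ∃ 𝔭 ∈ ab L l, 0 < og 𝔭 ((y : L) - ϑ) ∧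
      ((l : ℤ) ^ 2 ∣ gc y → 2 ≤ og 𝔭 ((y : L) - ϑ)) := by
  have := Fact.mk hl
  obtain ⟨e, e0⟩ := C.sub_ne y
  have a := (C.nv l _ hl e0).1
  have b : Algebra.norm ℚ ((y : L) - ϑ) = gc y := by
    rw [e, C.norm]
    simp only [nrm, adj, gc]
    congr 1
    ring
  have g0 : gc y ≠ 0 := fun z => e0 (Algebra.norm_eq_zero_iff.1 (by rw [b, z, Int.cast_zero]))
  rw [b, padicValRat.of_int] at a
  have c : ∀ j : ℕ, (l : ℤ) ^ j ∣ gc y → (j : ℤ) ≤ padicValInt l (gc y) := fun j h => by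
    exact_mod_cast ((padicValInt_dvd_iff j _).1 h).resolve_left g0
  obtain ⟨𝔭, h, p⟩ := Finset.exists_ne_zero_of_sum_ne_zero
    (a ▸ (zero_lt_one.trans_le (c 1 (by simpa using hy))).ne')
  have q : 0 < og 𝔭 ((y : L) - ϑ) := (C.sub0 𝔭 y).lt_of_ne' (right_ne_zero_of_mul p)
  obtain ⟨u1, -, u2⟩ := C.uniq hl h2 h11 h q
  rw [Finset.sum_eq_single_of_mem 𝔭 h fun 𝔮 hq ne => by rw [(u2 𝔮 hq ne).2, mul_zero], u1,
    lself hl, Nat.cast_one, one_mul] at a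
  exact ⟨𝔭, h, q, fun z => a ▸ c 2 z⟩

theorem Ctx.lift (C : Ctx θ ϑ) (hl : l.Prime) (h : 𝔭 ∈ ab L l) (hn : nm 𝔭 = l)
    (h1 : og 𝔭 (l : L) = 1) :
    ∃ y ∈ List.range (l * l), (l : ℤ) ^ 2 ∣ gc y ∧ 2 ≤ og 𝔭 (((y : ℤ) : L) - ϑ) := by
  have l0 : (l : L) ≠ 0 := by exact_mod_cast hl.ne_zero
  obtain ⟨a, ha⟩ := resL (hn ▸ hl) (x := ϑ) (by simpa [ev] using C.ev0 𝔭 (0, 1, 0))
  obtain ⟨b, hb⟩ := resL (hn ▸ hl) (pw_div (y := (l : L)) (l := 0) ha (by rw [← og, h1]; rfl))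
  have p : (0 : ℤ) < l * l := by exact_mod_cast Nat.mul_pos hl.pos hl.pos
  have c := Int.emod_nonneg (a + l * b) p.ne'
  have e := Int.emod_lt_of_pos (a + l * b) p
  refine ⟨((a + l * b) % (l * l)).toNat, List.mem_range.2 (by zify; omega), ?_⟩
  rw [Int.toNat_of_nonneg c]
  have f : ((((a + l * b) % (l * l) : ℤ)) : L) - ϑ ∈ pw (𝔭.valuation L) 2 := by
    refine cv (neg_mem (add_mem (pw_mul (mem_of_le h1.ge) hb le_rfl)
      ((C.intj hl h h1 2).2 (dvd_mul_right _ ((a + l * b) / (l * l)))))) ?_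
    rw [Int.emod_def]
    push_cast
    field_simp
    ring
  generalize (a + l * b) % (l * l) = y at f
  refine ⟨(C.intj hl h h1 2).1 ?_, (mem_pw_iff.1 f).resolve_left (C.sub_ne y).2⟩
  refine cv (pw_mul f (C.ev0 𝔭 (y ^ 2 - 2 * y, y - 2, 1)) le_rfl) ?_
  simp only [gc, ev]
  push_cast
  linear_combination C.rt

theorem Ctx.evc (C : Ctx θ ϑ) {y j : ℤ} (h : j ≤ og 𝔭 ((y : L) - ϑ)) (t : T3) :
    ev t ϑ - (ev t y : ℤ) ∈ pw (𝔭.valuation L) j := by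
  convert neg_mem (pw_mul (mem_of_le h) (C.ev0 𝔭 (t.2.1 + t.2.2 * y, t.2.2, 0)) (add_zero j).ge)
    using 1
  simp only [ev]
  push_cast
  ring

theorem Ctx.fpos (C : Ctx θ ϑ) (hl : l.Prime) (h2 : l ≠ 2) (h11 : l ≠ 11) (h : 𝔭 ∈ ab L l) :
    0 < Nat.log l (nm 𝔭) := by
  obtain ⟨-, -, a, b, c, e | e | e⟩ := C.good l hl h2 h11
  · obtain ⟨𝔮, p, q⟩ := a e
    rw [p, Finset.mem_singleton] at h
    rw [h, q, Nat.log_pow hl.one_lt]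
    norm_num
  · obtain ⟨𝔮, 𝔯, -, p, q, r⟩ := b e
    rcases (p 𝔭).1 h with rfl | rfl
    · rw [q, lself hl]
      norm_num
    · rw [r, Nat.log_pow hl.one_lt]
      norm_num
  · rw [(c e).2 𝔭 h, lself hl]
    norm_num

theorem Ctx.pfsum (C : Ctx θ ϑ) (hl : l.Prime) (h2 : l ≠ 2) (h11 : l ≠ 11) (hn : n ≠ 0)
    (h : l ∣ n) {y : ℤ} (hy : (l : ℤ) ∣ gc y) :
    ∑ 𝔮 ∈ ab L l, (Nat.log l (nm 𝔮) : ℤ) * pf ϑ n y 𝔮 = 2 := by
  classical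
  have := Fact.mk hl
  obtain ⟨𝔭, m, p, -⟩ := C.root hl h2 h11 hy
  obtain ⟨u1, -, u2⟩ := C.uniq hl h2 h11 m p
  have a := (C.nv l (l : L) hl (by exact_mod_cast hl.ne_zero)).1
  rw [← map_natCast (algebraMap ℚ L), Algebra.norm_algebraMap, C.cub.rk,
    padicValRat.pow, padicValRat.self hl.one_lt, map_natCast,
    ← Finset.add_sum_erase _ _ m, u1, lself hl,
    ((C.good l hl h2 h11).1 𝔭 m).1] at a
  rw [← Finset.add_sum_erase _ _ m, pf, if_neg fun z => p.ne' z.2, mul_zero, zero_add]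
  refine (Finset.sum_congr rfl fun 𝔮 hq => ?_).trans
    (by omega : ∑ 𝔮 ∈ (ab L l).erase 𝔭, (Nat.log l (nm 𝔮) : ℤ) * og 𝔮 (l : L) = 2)
  obtain ⟨b, c⟩ := Finset.mem_erase.1 hq
  rw [pf, if_pos ⟨(C.mem hl c hn).2 h, (u2 𝔮 c b).2⟩, ((C.good l hl h2 h11).1 𝔮 c).1]

theorem Fam.prime (F : Fam d) (hl : l.Prime) (h : (l : ℤ) ∣ d) : l ≠ 2 ∧ l ≠ 11 :=
  ⟨by rintro rfl; have := F.m4; omega, by rintro rfl; exact F.n11 h⟩

theorem Pat.ne (P : Pat d n y) : n ≠ 0 := by have := P.2.1; omega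

theorem Pat.sf (F : Fam d) (P : Pat d n y) : Squarefree n :=
  Int.squarefree_natCast.1 (F.sf.squarefree_of_dvd P.1)

theorem Pat.good (F : Fam d) (P : Pat d n y) (hl : l.Prime) (h : l ∣ n) :
    l ≠ 2 ∧ l ≠ 11 ∧ (l : ℤ) ∣ gc y :=
  have a := Int.natCast_dvd_natCast.2 h
  ⟨(Fam.prime F hl (a.trans P.1)).1, (Fam.prime F hl (a.trans P.1)).2, a.trans P.2.2⟩

theorem Pat.val (F : Fam d) (P : Pat d n y) (hl : l.Prime) (h2 : l ≠ 2) :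
    padicValRat l (((8 * n) ^ 2 : ℤ) : ℚ) = if l ∣ n then 2 else 0 := by
  have := Fact.mk hl
  have a : padicValNat l 8 = 0 := padicValNat.eq_zero_of_not_dvd fun h =>
    h2 ((Nat.prime_dvd_prime_iff_eq hl Nat.prime_two).1 (hl.dvd_of_dvd_pow (n := 3) h))
  rw [show (((8 * n) ^ 2 : ℤ) : ℚ) = ((8 * n) ^ 2 : ℕ) by push_cast; rfl, padicValRat.of_nat,
    padicValNat.pow, padicValNat.mul (by norm_num) P.ne, a]
  split_ifs with h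
  · have b := (Nat.squarefree_iff_factorization_le_one P.ne).1 (P.sf F) l
    have c := one_le_padicValNat_of_dvd P.ne h
    rw [Nat.factorization_def _ hl] at b
    omega
  · simp [padicValNat.eq_zero_of_not_dvd h]

theorem Ctx.ev_sh (C : Ctx θ ϑ) (y : ℤ) (t : T3) : ev (sh y t) ϑ = ev t ϑ * ((y : L) - ϑ) := by
  simp only [ev, sh]
  push_cast
  linear_combination (t.2.2 : L) * C.rt

theorem Ctx.v2 (C : Ctx θ ϑ) (h : ab L 2 = {𝔭}) (h2 : nm 𝔭 = 2) (t : T3) :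
    256 ∣ nrm (t.1 - 4, t.2) ↔ ev t ϑ - 4 ∈ pw (𝔭.valuation L) 8 := by
  have e : ev t ϑ - 4 = ev (t.1 - 4, t.2) ϑ := by
    simp only [ev]
    push_cast
    ring
  have b := C.norm (t.1 - 4, t.2)
  rw [e, mem_pw_iff, show (256 : ℤ) = (2 : ℕ) ^ 8 by norm_num, padicValInt_dvd_iff]
  by_cases z : ev (t.1 - 4, t.2) ϑ = 0
  · rw [z, Algebra.norm_zero] at b
    exact iff_of_true (Or.inl (by exact_mod_cast b.symm)) (Or.inl z)
  have a := (C.nv 2 _ Nat.prime_two z).1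
  rw [h, Finset.sum_singleton, h2, b, padicValRat.of_int, og] at a
  refine or_congr (iff_of_false (fun p => z ((Algebra.norm_eq_zero_iff (R := ℚ)).1 ?_)) z) ?_
  · rw [b, p, Int.cast_zero]
  · norm_num at a
    omega

theorem Ctx.sound (C : Ctx θ ϑ) (F : Fam d) (P : Pat d n y) (N : Nd n y t) :
    ev t ϑ ≠ 0 ∧ IsSquare (Algebra.norm ℚ (ev t ϑ)) ∧ At2 (ev t ϑ) ∧
      ∀ 𝔮 ∉ ab L 2, og 𝔮 (ev t ϑ) = pf ϑ n y 𝔮 := by
  obtain ⟨n1, n2, ⟨a, ha⟩, ⟨b, hb⟩, c, hc⟩ := N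
  have n0 : (n : L) ≠ 0 := by exact_mod_cast P.ne
  have m := C.mul_adj t
  have m0 : ((nrm t : ℤ) : L) ≠ 0 := by
    rw [n1]
    exact_mod_cast pow_ne_zero 2 (mul_ne_zero (by norm_num) P.ne)
  have h0 := left_ne_zero_of_mul (m ▸ m0)
  have h1 := right_ne_zero_of_mul (m ▸ m0)
  have nn : ∀ 𝔮 : Pr L, 0 ≤ og 𝔮 (ev t ϑ) := fun 𝔮 => (mem_pw_iff.1 (C.ev0 𝔮 t)).resolve_left h0
  refine ⟨h0, by rw [C.norm, n1]; exact ⟨8 * n, by push_cast; ring⟩, fun 𝔭 h => ⟨2⁻¹, ?_⟩,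
    fun 𝔮 hq => ?_⟩
  · obtain ⟨𝔮, e, e2, e3, -⟩ := C.two
    obtain rfl := Finset.mem_singleton.1 (e ▸ h)
    convert pw_div (y := (2 : L) ^ 2) (l := 2) ((C.v2 e e2 t).1 n2)
      (by rw [ord_pow, ← og, e3]; rfl) using 1
    ring
  obtain ⟨-, l, hl, m1, -⟩ := C.pr 𝔮
  have l2 : l ≠ 2 := by rintro rfl; exact hq m1
  by_cases h : l ∣ n
  · obtain ⟨-, l11, g⟩ := P.good F hl h
    have s1 := (C.nv l _ hl h0).1
    rw [C.norm, n1, P.val F hl l2, if_pos h, ← C.pfsum hl l2 l11 P.ne h g] at s1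
    have le : ∀ 𝔯 ∈ ab L l, pf ϑ n y 𝔯 ≤ og 𝔯 (ev t ϑ) := fun 𝔯 hr => by
      rw [pf]
      split_ifs with z
      · have e : ev t ϑ * (((y : ℤ) : L) - ϑ) = n * ev (a, b, c) ϑ := by
          rw [← C.ev_sh, ev, ha, hb, hc, ev]
          push_cast
          ring
        have e1 : ev t ϑ * (((y : ℤ) : L) - ϑ) ∈ pw (𝔯.valuation L) 1 := e ▸ pw_mul
          (by simpa using (C.int1 hl hr).2 (Int.natCast_dvd_natCast.2 h)) (C.ev0 𝔯 _) le_rfl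
        have := (mem_pw_iff.1 e1).resolve_left (mul_ne_zero h0 (C.sub_ne _).2)
        rwa [ord_mul h0 (C.sub_ne _).2, show ord _ _ = 0 from z.2, add_zero] at this
      · exact nn 𝔯
    have := (Finset.sum_eq_sum_iff_of_le fun 𝔯 hr =>
      mul_le_mul_of_nonneg_left (le 𝔯 hr) (Int.natCast_nonneg _)).1 s1 𝔮 m1
    exact (mul_left_cancel₀ (by exact_mod_cast (C.fpos hl l2 l11 m1).ne') this).symm
  · rw [pf, if_neg fun z => h ((C.mem hl m1 P.ne).1 z.1)]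
    have e1 : ((nrm t : ℤ) : L) ∉ pw (𝔮.valuation L) 1 := fun z => by
      have := (C.int1 hl m1).1 z
      rw [n1] at this
      rcases hl.dvd_mul.1 (hl.dvd_of_dvd_pow (m := 8 * n) (n := 2) (by exact_mod_cast this)) with
        p | p
      · exact l2 ((Nat.prime_dvd_prime_iff_eq hl Nat.prime_two).1 (hl.dvd_of_dvd_pow (n := 3) p))
      · exact h p
    have e2 := (not_mem.1 e1).2
    have e3 := (mem_pw_iff.1 (C.ev0 𝔮 _)).resolve_left h1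
    have e4 := nn 𝔮
    rw [← m, ord_mul h0 h1] at e2
    rw [og] at *
    omega

end Pool.Agent.Lib.MP_d6ddbd_nt.K11.Comp
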