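import Pool.Agent.Lib.MP_d6ddbd_nt.K11.Comp2

/-! The classes are classified by their patterns; the local criterion. -/

set_option autoImplicit false

open NumberField
open Pool.Agent.Stark Pool.Agent.Stark.LocAux

noncomputable section

namespace Pool.Agent.Lib.MP_d6ddbd_nt.K11.Comp

/-- The local criterion at a root `z` modulo `l ^ 2`. -/
def Loc (d : ℤ) (n y : ℕ) (t : T3) (l z : ℕ) : Prop :=
  (¬ l ∣ n → ∃ b ∈ List.range l, (l : ℤ) ∣ ev t (z : ℤ) - (b : ℤ) ^ 2) ∧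
  (l ∣ n → (l : ℤ) ∣ z - y → ∃ b ∈ List.range l, (l : ℤ) ∣ ev t (z : ℤ) * fd (xy z) - (b : ℤ) ^ 2) ∧
  (l ∣ n → ¬ (l : ℤ) ∣ z - y → ∃ b ∈ List.range l,
    (l : ℤ) ^ 3 ∣ ev t (z : ℤ) * (d * (xy y - xy z)) - (l : ℤ) ^ 2 * (b : ℤ) ^ 2)

/-- The criterion. -/
def Crit (d : ℤ) (n y : ℕ) (t : T3) : Prop :=
  ∀ l ∈ List.range (d.natAbs + 1), l.Prime → (l : ℤ) ∣ d → ∀ z ∈ List.range (l * l),
    (l : ℤ) ^ 2 ∣ gc z → Loc d n y t l z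

variable {L : Type} [Field L] [NumberField L] {θ ϑ : L} {l n y : ℕ} {𝔭 𝔮 : Pr L} {d : ℤ} {t : T3}

theorem Ctx.one (C : Ctx θ ϑ) (F : Fam d) (hl : l.Prime) (h : 𝔭 ∈ ab L l) {m : ℤ} (a : (l : ℤ) ∣ m)
    (b : m ∣ d) : (m : L) ≠ 0 ∧ og 𝔭 (m : L) = 1 := by
  obtain ⟨l2, l11⟩ := Fam.prime F hl (a.trans b)
  have c := not_mem.1 ((C.intj hl h ((C.good l hl l2 l11).1 𝔭 h).1 2 (m := m)).not.2 fun e =>
    hl.ne_one (by simpa using Int.isUnit_iff_natAbs_eq.1 (F.sf l (sq (l : ℤ) ▸ e.trans b))))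
  have e := (mem_pw_iff.1 ((C.int1 hl h).2 a)).resolve_left c.1
  exact ⟨c.1, by rw [og]; omega⟩

theorem Ctx.exist (C : Ctx θ ϑ) (hT : TwoStmt) (F : Fam d) (P : Pat d n y) : ∃ t, Nd n y t := by
  have n0 : (n : L) ≠ 0 := by exact_mod_cast P.ne
  have p0 : ∀ 𝔮 : Pr L, 0 ≤ pf ϑ n y 𝔮 := fun 𝔮 => by rw [pf]; split_ifs <;> norm_num
  have p1 : ∀ l : ℕ, l.Prime → ¬ l ∣ n → ∀ 𝔮 ∈ ab L l, pf ϑ n y 𝔮 = 0 := fun l hl h 𝔮 hq =>
    if_neg fun z => h ((C.mem hl hq P.ne).1 z.1)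
  have n2 : ¬ 2 ∣ n := fun h => (P.good F Nat.prime_two h).1 rfl
  obtain ⟨x, x0, hx, xn⟩ : ∃ x : L, x ≠ 0 ∧ (∀ 𝔮, og 𝔮 x = pf ϑ n y 𝔮) ∧
      Algebra.norm ℚ x = n ^ 2 := by
    obtain ⟨x, x0, hx⟩ := C.prin (Finsupp.onFinset (ab L n) (pf ϑ n y) fun 𝔮 h =>
      by_contra fun z => h (if_neg fun e => z e.1))
    simp only [Finsupp.onFinset_apply] at hx
    obtain ⟨z, rfl⟩ := exists_int_of_og fun 𝔮 => (p0 𝔮).trans (hx 𝔮).ge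
    have e := Algebra.coe_norm_int z
    have a : (Algebra.norm ℤ z).natAbs = n ^ 2 := by
      refine (Nat.eq_iff_prime_padicValNat_eq _ _ (by simpa using x0) (pow_ne_zero 2 P.ne)).2
        fun l hl => ?_
      have := Fact.mk hl
      have b := (C.nv l _ hl x0).1
      simp only [← e, padicValRat.of_int, hx, padicValInt] at b
      rw [padicValNat.pow]
      by_cases h : l ∣ n
      · obtain ⟨l2, l11, g⟩ := P.good F hl h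
        have c := (Nat.squarefree_iff_factorization_le_one P.ne).1 (P.sf F) l
        have := one_le_padicValNat_of_dvd P.ne h
        rw [Nat.factorization_def _ hl] at c
        rw [C.pfsum hl l2 l11 P.ne h g] at b
        omega
      · rw [Finset.sum_eq_zero fun 𝔮 hq => by rw [p1 l hl h 𝔮 hq, mul_zero]] at b
        rw [padicValNat.eq_zero_of_not_dvd h]
        omega
    rcases Int.natAbs_eq (Algebra.norm ℤ z) with b | b <;> rw [a] at b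
    · exact ⟨z, x0, hx, by rw [← e, b]; push_cast; rfl⟩
    · refine ⟨-z, neg_ne_zero.2 x0, fun 𝔮 => by rw [← hx, og, og, ord_neg], ?_⟩
      rw [show -(z : L) = ev (-1, 0, 0) ϑ * z by simp [ev], map_mul, C.norm, ← e, b]
      simp [nrm, adj]
  obtain ⟨e0, e1, e2, e3⟩ := C.eps
  obtain ⟨x, x0, hx, xn, x2⟩ : ∃ x : L, x ≠ 0 ∧ (∀ 𝔮, og 𝔮 x = pf ϑ n y 𝔮) ∧
      Algebra.norm ℚ x = n ^ 2 ∧ At2 x := by
    by_cases h : At2 x
    · exact ⟨x, x0, hx, xn, h⟩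
    · refine ⟨x * (1 - ϑ), mul_ne_zero x0 e0, fun 𝔮 => ?_, by rw [map_mul, e1, mul_one, xn],
        (hT L θ C.cub).2.1 _ _ x0 e0 (fun 𝔭 hp => ?_) h e3⟩
      · rw [SUnitAux.og_mul _ x0 e0, e2, add_zero, hx]
      · simp [hx, e2, p1 2 Nat.prime_two n2 𝔭 hp]
  obtain ⟨z, rfl⟩ := exists_int_of_og fun 𝔮 => (p0 𝔮).trans (hx 𝔮).ge
  obtain ⟨s, hs⟩ := C.disc.2 z
  have ht : ev (2 * s.1, 2 * s.2.1, 2 * s.2.2) ϑ = 4 * z := by
    simp only [ev] at hs ⊢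
    push_cast
    linear_combination -2 * hs
  generalize ((2 * s.1, 2 * s.2.1, 2 * s.2.2) : T3) = t at ht
  obtain ⟨w, hw⟩ := exists_int_of_og (x := z * (((y : ℤ) : L) - ϑ) / n) fun 𝔮 => by
    rw [SUnitAux.og_div _ (mul_ne_zero x0 (C.sub_ne _).2) n0, SUnitAux.og_mul _ x0 (C.sub_ne _).2,
      hx, pf]
    have a := C.sub0 𝔮 y
    by_cases h : 𝔮 ∈ ab L n
    · obtain ⟨-, l, hl, m, b⟩ := C.pr 𝔮
      have c := (C.one F hl m (Int.natCast_dvd_natCast.2 ((b n P.ne).1 h)) P.1).2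
      rw [Int.cast_natCast] at c
      split_ifs with e
      · omega
      · have := a.lt_of_ne' fun z => e ⟨h, z⟩
        omega
    · have := not_not.1 (mem_ab.not.1 h)
      split_ifs <;> omega
  obtain ⟨u, hu⟩ := C.disc.2 w
  have k := C.inj (t := ((sh y t).1 - n * (2 * u.1), (sh y t).2.1 - n * (2 * u.2.1),
      (sh y t).2.2 - n * (2 * u.2.2))) (by
    have a := C.ev_sh y t
    rw [ht] at a
    rw [hw] at hu
    field_simp at hu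
    simp only [ev] at a hu ⊢
    push_cast at a hu ⊢
    linear_combination a + 2 * hu)
  obtain ⟨𝔭, h, h2, h3, -⟩ := C.two
  have m2 : 𝔭 ∈ ab L 2 := h ▸ Finset.mem_singleton_self _
  refine ⟨t, Int.cast_injective (α := ℚ) ?_, (C.v2 h h2 t).2 ?_,
    ⟨_, sub_eq_zero.1 (congrArg (·.1) k)⟩, ⟨_, sub_eq_zero.1 (congrArg (·.2.1) k)⟩,
    ⟨_, sub_eq_zero.1 (congrArg (·.2.2) k)⟩⟩
  · rw [← C.norm, ht, show (4 : L) = ev (4, 0, 0) ϑ by simp [ev], map_mul, C.norm, xn]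
    simp [nrm, adj]
    ring
  · have a := mem_of_le (w := 𝔭.valuation L) h3.ge
    refine cv (pw_mul (pw_mul a a le_rfl)
      (C.at2 h h2 x0 ((hx 𝔭).trans (p1 2 Nat.prime_two n2 𝔭 m2)) x2) le_rfl) ?_
    rw [ht]
    ring

theorem Ctx.cong (C : Ctx θ ϑ) (hl : l.Prime) (h : 𝔭 ∈ ab L l) {y z : ℤ}
    (hy : 0 < og 𝔭 ((y : L) - ϑ)) : 0 < og 𝔭 ((z : L) - ϑ) ↔ (l : ℤ) ∣ z - y := by
  rw [← C.int1 hl h]
  refine ⟨fun a => cv (sub_mem (mem_of_le a) (mem_of_le hy)) (by push_cast; ring), fun a =>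
    (mem_pw_iff.1 (cv (add_mem a (mem_of_le hy)) (by push_cast; ring))).resolve_left (C.sub_ne z).2⟩

theorem Ctx.special (C : Ctx θ ϑ) (hl : l.Prime) (h2 : l ≠ 2) (h11 : l ≠ 11) {α : L} (h0 : α ≠ 0)
    (hn : IsSquare (Algebra.norm ℚ α)) (h : ∃ 𝔮 ∈ ab L l, ¬ Even (og 𝔮 α)) :
    ∃ y : ℕ, (l : ℤ) ∣ gc y ∧ ∀ 𝔮 ∈ ab L l, Even (og 𝔮 α) ↔ 0 < og 𝔮 (((y : ℤ) : L) - ϑ) := by
  classical
  obtain ⟨g, -, a, b, c, e⟩ := C.good l hl h2 h11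
  obtain ⟨𝔮, hq, o⟩ := h
  have s := (C.nv l α hl h0).2 hn
  obtain ⟨𝔭, m, p1, p2⟩ : ∃ 𝔭 ∈ ab L l, nm 𝔭 = l ∧ ∀ 𝔮 ∈ ab L l, Even (og 𝔮 α) ↔ 𝔮 = 𝔭 := by
    rcases e with e | e | e
    · obtain ⟨𝔭, p, q⟩ := a e
      rw [p, Finset.mem_singleton] at hq
      rw [p, Finset.sum_singleton, q, Nat.log_pow hl.one_lt, ← hq] at s
      exact absurd (by grind) o
    · obtain ⟨𝔭, 𝔯, ne, p, q, r⟩ := b e
      rw [show ab L l = {𝔭, 𝔯} from Finset.ext fun x => by simp [p], Finset.sum_pair ne, q, r,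
        lself hl, Nat.log_pow hl.one_lt] at s
      exact ⟨𝔭, (p _).2 (Or.inl rfl), q, by grind⟩
    · obtain ⟨u, v, w, uv, uw, vw, p⟩ := Finset.card_eq_three.1 (c e).1
      rw [Finset.sum_congr rfl fun x hx => by rw [(c e).2 x hx, lself hl, Nat.cast_one, one_mul], p,
        Finset.sum_insert (by simp [uv, uw]), Finset.sum_pair vw] at s
      have q := (c e).2
      rw [p] at q hq ⊢
      simp only [Finset.mem_insert, Finset.mem_singleton, forall_eq_or_imp, forall_eq,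
        exists_eq_or_imp, exists_eq_left] at q hq ⊢
      grind
  obtain ⟨y, -, y1, y2⟩ := C.lift hl m p1 (g 𝔭 m).1
  have y3 := zero_lt_two.trans_le y2
  refine ⟨y, (dvd_pow_self _ two_ne_zero).trans y1, fun 𝔯 hr => (p2 𝔯 hr).trans
    ⟨fun z => z ▸ y3, fun z => by_contra fun ne => z.ne' ((C.uniq hl h2 h11 m y3).2.2 𝔯 hr ne).2⟩⟩

theorem dvd_of_primes (hn : Squarefree n) {m : ℤ} (h : ∀ l : ℕ, l.Prime → l ∣ n → (l : ℤ) ∣ m) :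
    (n : ℤ) ∣ m := by
  rw [Int.natCast_dvd, ← Nat.prod_primeFactors_of_squarefree hn]
  exact Finset.prod_primes_dvd _ (fun l hl => (Nat.prime_of_mem_primeFactors hl).prime) fun l hl =>
    Int.natCast_dvd.1 (h l (Nat.prime_of_mem_primeFactors hl) (Nat.dvd_of_mem_primeFactors hl))

theorem Ctx.patt (C : Ctx θ ϑ) (F : Fam d) {α : L} (W : Wc d ∅ α) :
    ∃ n y, Pat d n y ∧ ∀ 𝔮 ∉ ab L 2, Even (og 𝔮 α - pf ϑ n y 𝔮) := by
  classical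
  let S := d.natAbs.primeFactors.filter fun l => ∃ 𝔮 ∈ ab L l, ¬ Even (og 𝔮 α)
  have hS : ∀ l ∈ S, l.Prime ∧ (l : ℤ) ∣ d ∧ ∃ 𝔮 ∈ ab L l, ¬ Even (og 𝔮 α) := fun l h =>
    have a := Finset.mem_filter.1 h
    ⟨Nat.prime_of_mem_primeFactors a.1, Int.natCast_dvd.2 (Nat.dvd_of_mem_primeFactors a.1), a.2⟩
  choose! r r1 r2 using fun l (h : l ∈ S) => C.special (hS l h).1
    (Fam.prime F (hS l h).1 (hS l h).2.1).1 (Fam.prime F (hS l h).1 (hS l h).2.1).2 W.ne W.sq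
    (hS l h).2.2
  obtain ⟨k, hk⟩ := Nat.chineseRemainderOfFinset r id S (fun l h => (hS l h).1.ne_zero)
    fun l h l' h' ne => (Nat.coprime_primes (hS l h).1 (hS l' h').1).2 ne
  have nd : ((∏ l ∈ S, l : ℕ) : ℤ) ∣ d := Int.natCast_dvd.2
    ((Finset.prod_dvd_prod_of_subset _ _ _ (Finset.filter_subset _ _)).trans
      (Nat.prod_primeFactors_dvd _))
  have ms : ∀ l : ℕ, l.Prime → (l ∣ ∏ l ∈ S, l ↔ l ∈ S) := fun l hl =>
    ⟨fun h => by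
      obtain ⟨p, a, b⟩ := (hl.prime.dvd_finsetProd_iff _).1 h
      rwa [(Nat.prime_dvd_prime_iff_eq hl (hS p a).1).1 b], Finset.dvd_prod_of_mem _⟩
  generalize ∏ l ∈ S, l = n at nd ms
  have sf : Squarefree n := Int.squarefree_natCast.1 (F.sf.squarefree_of_dvd nd)
  have ky : ∀ l ∈ S, (l : ℤ) ∣ (k % n : ℕ) - r l := fun l h =>
    (((Nat.mod_modEq k n).of_dvd ((ms l (hS l h).1).2 h)).trans (hk l h)).symm.dvd
  refine ⟨n, k % n, ⟨nd, Nat.mod_lt _ (Nat.pos_of_ne_zero sf.ne_zero), dvd_of_primes sf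
    fun l hl h => ?_⟩, fun 𝔮 _ => ?_⟩
  · have a := ky l ((ms l hl).1 h)
    generalize ((k % n : ℕ) : ℤ) = z at a
    exact ((r1 l ((ms l hl).1 h)).add (a.mul_right (z ^ 2 + z * r l + r l ^ 2 - 2 * (z + r l)))).trans
      (dvd_of_eq (by simp only [gc]; ring))
  obtain ⟨-, l, hl, m, b⟩ := C.pr 𝔮
  rw [pf]
  by_cases h : l ∈ S
  · have c := r2 l h 𝔮 m
    have e : 0 < og 𝔮 ((((k % n : ℕ) : ℤ) : L) - ϑ) ↔ 0 < og 𝔮 (((r l : ℤ) : L) - ϑ) :=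
      ⟨fun z => (C.cong hl m z).2 (dvd_sub_comm.1 (ky l h)), fun z => (C.cong hl m z).2 (ky l h)⟩
    have f := C.sub0 𝔮 (k % n : ℕ)
    have g := (b n sf.ne_zero).2 ((ms l hl).2 h)
    grind
  · rw [if_neg fun z => h ((ms l hl).1 ((b n sf.ne_zero).1 z.1)), sub_zero]
    by_cases c : (l : ℤ) ∣ d
    · exact by_contra fun z => h (Finset.mem_filter.2 ⟨Nat.mem_primeFactors.2
        ⟨hl, Int.natCast_dvd.1 c, by simpa using F.sf.ne_zero⟩, 𝔮, m, z⟩)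
    · exact W.ev l hl c (by simp) 𝔮 m

theorem Ctx.patinj (C : Ctx θ ϑ) (F : Fam d) {n' y' : ℕ} (P : Pat d n y) (P' : Pat d n' y')
    (h : ∀ 𝔮 ∉ ab L 2, pf ϑ n y 𝔮 = pf ϑ n' y' 𝔮) : n = n' ∧ y = y' := by
  have n2 : ∀ l : ℕ, l.Prime → l ≠ 2 → ∀ 𝔮 ∈ ab L l, 𝔮 ∉ ab L 2 := fun l hl l2 𝔮 m z =>
    l2 ((Nat.prime_dvd_prime_iff_eq hl Nat.prime_two).1 ((C.mem hl m two_ne_zero).1 z))
  have key : ∀ {n y n' y' : ℕ}, Pat d n y → Pat d n' y' →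
      (∀ 𝔮 ∉ ab L 2, pf ϑ n y 𝔮 = pf ϑ n' y' 𝔮) → ∀ l : ℕ, l.Prime → l ∣ n → l ∣ n' := by
    intro n y n' y' P P' h l hl a
    obtain ⟨l2, l11, g⟩ := P.good F hl a
    obtain ⟨𝔮, m, b⟩ := Finset.exists_ne_zero_of_sum_ne_zero
      ((C.pfsum hl l2 l11 P.ne a g).trans_ne two_ne_zero)
    rw [h 𝔮 (n2 l hl l2 𝔮 m)] at b
    exact by_contra fun c => right_ne_zero_of_mul b (if_neg fun z => c ((C.mem hl m P'.ne).1 z.1))
  obtain rfl : n = n' := (Nat.Squarefree.ext_iff (P.sf F) (P'.sf F)).2 fun l hl =>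
    ⟨key P P' h l hl, key P' P (fun 𝔮 a => (h 𝔮 a).symm) l hl⟩
  refine ⟨rfl, Nat.ModEq.eq_of_lt_of_lt (Nat.modEq_iff_dvd.2 (dvd_of_primes (P.sf F)
    fun l hl a => ?_)) P.2.1 P'.2.1⟩
  obtain ⟨l2, l11, g⟩ := P.good F hl a
  obtain ⟨𝔭, m, p, -⟩ := C.root hl l2 l11 g
  have b := h 𝔭 (n2 l hl l2 𝔭 m)
  refine (C.cong hl m p).1 ((C.sub0 𝔭 _).lt_of_ne' fun z => ?_)
  rw [pf, pf, if_neg fun e => p.ne' e.2, if_pos ⟨(C.mem hl m P.ne).2 a, z⟩] at b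
  exact zero_ne_one b

theorem nsq_eq {β : L} : nsq 𝔭 β = 0 ↔ LSq 𝔭 β := by
  rw [nsq]
  split_ifs with h <;> simp [h]

theorem Ctx.loc (C : Ctx θ ϑ) (hD : LocDStmt) (F : Fam d) (P : Pat d n y) (N : Nd n y t)
    (hl : l.Prime) (ld : (l : ℤ) ∣ d) (m : 𝔭 ∈ ab L l) {z : ℕ}
    (hz : 2 ≤ og 𝔭 (((z : ℤ) : L) - ϑ)) : bv θ d 𝔭 (ev t ϑ) = 0 ↔ Loc d n y t l z := by
  classical
  obtain ⟨l2, l11⟩ := Fam.prime F hl ld
  obtain ⟨h0, sq, -, v⟩ := C.sound F P N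
  have z0 := zero_lt_two.trans_le hz
  have np := (C.uniq hl l2 l11 m z0).1
  obtain ⟨g1, g2, g3, -⟩ := (C.good l hl l2 l11).1 𝔭 m
  obtain ⟨A, B⟩ := (hD L θ C.cub d l F hl ld).1 _ h0 sq 𝔭 m np
  have v' : ∀ 𝔮 ∈ ab L l, og 𝔮 (ev t ϑ) = pf ϑ n y 𝔮 := fun 𝔮 h => v 𝔮 fun e =>
    l2 ((Nat.prime_dvd_prime_iff_eq hl Nat.prime_two).1 ((C.mem hl h two_ne_zero).1 e))
  have e2 := C.evc hz t
  have x2 : (xy z : L) - θ ∈ pw (𝔭.valuation L) 2 :=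
    C.xy_sub z ▸ pw_mul (mem_of_le hz) (C.ev0 𝔭 _) le_rfl
  by_cases h : l ∣ n
  swap
  · have p : ∀ 𝔮 ∈ ab L l, og 𝔮 (ev t ϑ) = 0 := fun 𝔮 a =>
      (v' 𝔮 a).trans (if_neg fun e => h ((C.mem hl a P.ne).1 e.1))
    rw [A fun 𝔮 a => by simp [p 𝔮 a], nsq_eq,
      C.sq1 hl m np g2 h0 (p 𝔭 m) (anti one_le_two e2)]
    simp only [Loc, h, not_false_iff, true_imp_iff, false_imp_iff, and_true]
  obtain ⟨𝔯, r, r0, -⟩ := C.root hl l2 l11 (P.good F hl h).2.2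
  obtain ⟨u1, u2, u3⟩ := C.uniq hl l2 l11 r r0
  have p0 : og 𝔯 (ev t ϑ) = 0 := (v' 𝔯 r).trans (if_neg fun e => r0.ne' e.2)
  have p1 : ∀ 𝔮 ∈ ab L l, 𝔮 ≠ 𝔯 → og 𝔮 (ev t ϑ) = 1 := fun 𝔮 a ne =>
    (v' 𝔮 a).trans (if_pos ⟨(C.mem hl a P.ne).2 h, (u3 𝔮 a ne).2⟩)
  rw [B 𝔯 r u1 fun 𝔮 a => ⟨fun e => by_contra fun ne => by simp [p1 𝔮 a ne] at e,
    fun e => by simp [e, p0]⟩, nsq_eq, gm]
  split_ifs with e
  · subst e
    have f0 : fd θ ≠ 0 := fun a => by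
      have := C.inj (t := (416, -272, -52)) (by
        rw [← a]
        simp only [ev, fd, C.th]
        push_cast
        linear_combination -(192 * ϑ - 288) * C.rt)
      exact absurd (show (416 : ℤ) = 0 from congrArg (·.1) this) (by decide)
    have t0 : θ ∈ pw (𝔭.valuation L) 0 := mem_of_le (C.pr 𝔭).1
    rw [C.sq1 hl m np g2 (mul_ne_zero h0 f0) (by rw [SUnitAux.og_mul _ h0 f0, p0, g3, add_zero])
      (m := ev t (z : ℤ) * fd (xy z)) (cv (sub_mem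
        (pw_mul e2 (mem_of_le (j := 0) g3.ge) one_le_two)
        (pw_mul x2 (pw_mul (int0 𝔭 (ev t (z : ℤ))) (add_mem (pw_mul (int0 𝔭 3) t0 le_rfl)
          (int0 𝔭 (3 * xy z - 8))) le_rfl) one_le_two)) (by simp only [fd]; push_cast; ring))]
    simp only [Loc, h, (C.cong hl m r0).1 z0, not_true, true_imp_iff, false_imp_iff, and_true,
      true_and]
  · obtain ⟨d0, d1⟩ := C.one F hl m ld dvd_rfl
    have x0 : (xr θ 𝔯 : L) - θ ≠ 0 := sub_ne_zero.2 (by simpa using (C.ne (xr θ 𝔯)).1)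
    have a1 := mem_of_le (w := 𝔭.valuation L) (p1 𝔭 m e).ge
    have a2 := mem_of_le (w := 𝔭.valuation L) d1.ge
    rw [C.sq2 hl m np g1 g2 (mul_ne_zero h0 (mul_ne_zero d0 x0)) (by
        rw [SUnitAux.og_mul _ h0 (mul_ne_zero d0 x0), SUnitAux.og_mul _ d0 x0, p1 𝔭 m e, d1,
          (u3 𝔭 m e).1]
        rfl)
      (m := ev t (z : ℤ) * (d * (xy y - xy z))) (cv (add_mem
        (pw_mul (pw_mul a1 a2 le_rfl) (add_mem ((C.int1 hl m).2 u2) (anti one_le_two x2)) le_rfl)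
        (pw_mul e2 (pw_mul a2 (int0 𝔭 (xy y - xy z)) le_rfl) le_rfl)) (by push_cast; ring))]
    have : ¬ (l : ℤ) ∣ z - y := fun a => ((C.cong hl m z0).2 (dvd_sub_comm.1 a)).ne' (u3 𝔭 m e).2
    simp only [Loc, h, this, not_true, not_false_iff, true_imp_iff, false_imp_iff, true_and]

theorem Ctx.wc (C : Ctx θ ϑ) (hT : TwoStmt) (F : Fam d) (P : Pat d n y) (N : Nd n y t) :
    Wc d ∅ (ev t ϑ) := by
  obtain ⟨h0, sq, a2, v⟩ := C.sound F P N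
  refine ⟨h0, sq, a2, fun p hp h _ 𝔭 m => ?_⟩
  by_cases e : 𝔭 ∈ ab L 2
  · exact (hT L θ C.cub).2.2.1 _ a2 𝔭 e
  · rw [v 𝔭 e, pf, if_neg fun z =>
      h ((Int.natCast_dvd_natCast.2 ((C.mem hp m P.ne).1 z.1)).trans P.1)]
    simp

theorem Ctx.crit (C : Ctx θ ϑ) (hT : TwoStmt) (hD : LocDStmt) (hL : LStmt) (F : Fam d)
    (P : Pat d n y) (N : Nd n y t) : SelC θ d (ev t ϑ) ↔ Crit d n y t := by
  have d0 : d.natAbs ≠ 0 := by simpa using F.sf.ne_zero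
  rw [(hL L θ C.cub d F).1, and_iff_right (C.wc hT F P N)]
  constructor
  · intro h l _ hl ld z _ hz
    obtain ⟨l2, l11⟩ := Fam.prime F hl ld
    obtain ⟨𝔭, m, p0, p⟩ := C.root hl l2 l11 ((dvd_pow_self _ two_ne_zero).trans hz)
    refine (C.loc hD F P N hl ld m (p hz)).1 (h 𝔭 (Finset.mem_filter.2
      ⟨(C.mem hl m d0).2 (Int.natCast_dvd.1 ld), ?_⟩))
    rwa [(C.uniq hl l2 l11 m p0).1]
  · intro h 𝔭 hp
    obtain ⟨a, b⟩ := Finset.mem_filter.1 hp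
    obtain ⟨-, l, hl, m, c⟩ := C.pr 𝔭
    have e := (c _ d0).1 a
    have ld := Int.natCast_dvd.2 e
    obtain ⟨l2, l11⟩ := Fam.prime F hl ld
    obtain ⟨g1, -, -, -, g⟩ := (C.good l hl l2 l11).1 𝔭 m
    obtain ⟨z, z1, z2, z3⟩ := C.lift hl m (g.1 b) g1
    exact (C.loc hD F P N hl ld m z3).2 (h l (List.mem_range.2
      (Nat.lt_succ_of_le (Nat.le_of_dvd (Nat.pos_of_ne_zero d0) e))) hl ld z z1 z2)

end Pool.Agent.Lib.MP_d6ddbd_nt.K11.Comp
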