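import Pool.Agent.Lib.MP_d6ddbd_nt.K11.StG

/-!
The commutant of a complex multiplication; two complex multiplications in characteristic `q`.
-/

set_option autoImplicit false

open WeierstrassCurve Filter
open Pool.Agent.Lib.MP_02f36d_nt

noncomputable section

namespace Pool.Agent.Lib.MP_d6ddbd_nt.K11

namespace End2

/-- A ring with a definite multiplicative norm and quadratic equations. -/
structure NR {R : Type*} [Ring R] (N : R → ℤ) : Prop where
  mul : ∀ x y, N (x * y) = N x * N y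
  eq0 : ∀ x, N x = 0 → x = 0
  nn : ∀ x, 0 ≤ N x
  int : ∀ n : ℤ, N (n • (1 : R)) = n ^ 2
  cp : ∀ x, ∃ t : ℤ, t ^ 2 ≤ 4 * N x ∧ x * x = t • x - N x • (1 : R)

section Abs

variable {R : Type*} [Ring R] {N : R → ℤ}

lemma NR.zero (h : NR N) : N 0 = 0 := by simpa using h.int 0

lemma NR.smul (h : NR N) (n : ℤ) (x : R) : N (n • x) = n ^ 2 * N x := by
  rw [← h.int, ← h.mul, smul_mul_assoc, one_mul]

lemma NR.one (h : NR N) : N 1 = 1 := by simpa using h.int 1

lemma NR.cancel (h : NR N) {n : ℤ} {x : R} (hn : n ≠ 0) (e : n • x = 0) : x = 0 := by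
  have := h.smul n x
  rw [e, h.zero] at this
  exact h.eq0 x ((mul_eq_zero.1 this.symm).resolve_left (pow_ne_zero _ hn))

lemma NR.int0 (h : NR N) {n : ℤ} (e : n • (1 : R) = 0) : n = 0 := by
  have := h.int n
  rw [e, h.zero] at this
  exact pow_eq_zero_iff (two_ne_zero) |>.1 this.symm

lemma NR.indep (h : NR N) {m : ℤ} (hm : 0 < m) {α : R} (hα : α * α = α - m • (1 : R)) {x y : ℤ}
    (e : x • (1 : R) + y • α = 0) : x = 0 ∧ y = 0 := by
  have e1 : (x • (1 : R) + y • α) * ((x + y) • (1 : R) - y • α) =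
      (x ^ 2 + x * y + m * y ^ 2) • (1 : R) := by
    simp only [mul_sub, add_mul, smul_mul_assoc, mul_smul_comm, one_mul, mul_one, hα]
    module
  rw [e, zero_mul] at e1
  have e2 := h.int0 e1.symm
  have hy : y = 0 := by
    by_contra hy
    have : 0 < y ^ 2 := by positivity
    nlinarith [sq_nonneg (2 * x + y)]
  subst hy
  exact ⟨by simpa using e2, rfl⟩

lemma arith {q : ℕ} (hq : q.Prime) {m A B D t n : ℤ} (hm : (q : ℤ) = 4 * m - 1) (hD : D ≠ 0)
    (ht : t ^ 2 ≤ 4 * n) (h1 : A ^ 2 - m * B ^ 2 - t * D * A + n * D ^ 2 = 0)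
    (h2 : 2 * A * B + B ^ 2 - t * D * B = 0) :
    ∃ a b : ℤ, A = D * a ∧ B = D * b ∧ n = a ^ 2 + a * b + m * b ^ 2 := by
  have h3 : 2 * A + B = t * D := by
    by_cases hB : B = 0
    · subst hB
      have e : (2 * A - t * D) ^ 2 = (t ^ 2 - 4 * n) * D ^ 2 := by linear_combination 4 * h1
      have e' : (2 * A - t * D) ^ 2 ≤ 0 := by
        rw [e]; exact mul_nonpos_of_nonpos_of_nonneg (by linarith) (sq_nonneg _)
      have := pow_eq_zero_iff (two_ne_zero) |>.1 (le_antisymm e' (sq_nonneg _))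
      linarith
    · exact mul_right_cancel₀ hB (by linear_combination h2)
  have h4 : n * D ^ 2 = A ^ 2 + A * B + m * B ^ 2 := by linear_combination h1 - A * h3
  have h5 : (q * B) ^ 2 = D ^ 2 * (q * (4 * n - t ^ 2)) := by
    rw [hm]
    linear_combination (4 * m - 1) * (-4 * h4 - (2 * A + B + t * D) * h3)
  have hq0 : (q : ℤ) ≠ 0 := by exact_mod_cast hq.ne_zero
  obtain ⟨c, hc⟩ : D ∣ q * B := (Int.pow_dvd_pow_iff two_ne_zero).1 ⟨_, h5⟩
  have h6 : c ^ 2 = q * (4 * n - t ^ 2) :=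
    mul_left_cancel₀ (pow_ne_zero 2 hD) (by rw [← h5, hc]; ring)
  obtain ⟨b, rfl⟩ : (q : ℤ) ∣ c := (Nat.prime_iff_prime_int.1 hq).dvd_of_dvd_pow ⟨_, h6⟩
  have hb : B = D * b := mul_left_cancel₀ hq0 (by rw [hc]; ring)
  have h7 : q * b ^ 2 = 4 * n - t ^ 2 := mul_left_cancel₀ hq0 (by rw [← h6]; ring)
  have h8 : Even (t - b) := by
    have e : (t - b) * (t - b + 2 * b) = 2 * (2 * (n - m * b ^ 2)) := by
      rw [hm] at h7; linear_combination h7
    by_contra ho
    rw [Int.not_even_iff_odd] at ho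
    have := ho.mul (ho.add_even (even_two_mul b))
    rw [e] at this
    exact (Int.not_even_iff_odd.2 this) (even_two_mul _)
  obtain ⟨a, ha⟩ := h8
  have hA : A = D * a := by
    have : 2 * A = 2 * (D * a) := by linear_combination h3 - hb + D * ha
    linarith
  refine ⟨a, b, hA, hb, mul_right_cancel₀ (pow_ne_zero 2 hD) ?_⟩
  rw [h4, hA, hb]; ring

lemma NR.comm (h : NR N) {q : ℕ} (hq : q.Prime) {m : ℤ} (hm : (q : ℤ) = 4 * m - 1) {α : R}
    (hα : α * α = α - m • (1 : R)) {f : R} (hf : α * f = f * α) :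
    ∃ a b : ℤ, f = a • (1 : R) + b • α ∧ N f = a ^ 2 + a * b + m * b ^ 2 := by
  have hq0 : (0 : ℤ) < q := by exact_mod_cast hq.pos
  have hm0 : 0 < m := by omega
  obtain ⟨t, ht, e⟩ := h.cp f
  obtain ⟨t', -, e'⟩ := h.cp (f + α)
  set n := N f
  set n' := N (f + α)
  have e1 : f * ((2 : ℤ) • α + (t - t') • (1 : R)) = (t' - 1) • α + (n + m - n') • (1 : R) := by
    simp only [mul_add, add_mul, mul_smul_comm, mul_one, hα, hf, e] at e' ⊢
    linear_combination (norm := module) e'
  set c := t - t'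
  set u := n + m - n'
  have e2 : (c ^ 2 + 2 * c + 4 * m) • f =
      (2 * (t' - 1) * m + u * (2 + c)) • (1 : R) + ((t' - 1) * c - 2 * u) • α := by
    have e3 := congrArg (· * ((2 + c) • (1 : R) - (2 : ℤ) • α)) e1
    simp only [mul_assoc] at e3
    simp only [mul_add, add_mul, mul_sub, mul_smul_comm, smul_mul_assoc, mul_one, one_mul,
      hα] at e3
    linear_combination (norm := module) e3
  have hD : c ^ 2 + 2 * c + 4 * m ≠ 0 := by nlinarith [sq_nonneg (c + 1)]
  generalize c ^ 2 + 2 * c + 4 * m = D at e2 hD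
  generalize 2 * (t' - 1) * m + u * (2 + c) = A at e2
  generalize (t' - 1) * c - 2 * u = B at e2
  have e4 : (A ^ 2 - m * B ^ 2 - t * D * A + n * D ^ 2) • (1 : R) +
      (2 * A * B + B ^ 2 - t * D * B) • α = 0 := by
    have e5 : (D • f) * (D • f) = (A • (1 : R) + B • α) * (A • (1 : R) + B • α) := by rw [e2]
    simp only [mul_add, add_mul, mul_smul_comm, smul_mul_assoc, mul_one, one_mul, hα, e] at e5
    linear_combination (norm := module) (t * D) • e2 - e5
  obtain ⟨h1, h2⟩ := h.indep hm0 hα e4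
  obtain ⟨a, b, rfl, rfl, hn⟩ := arith hq hm hD ht h1 h2
  refine ⟨a, b, sub_eq_zero.1 (h.cancel hD ?_), hn⟩
  linear_combination (norm := module) e2

lemma NR.sq (h : NR N) {x : R} {c : ℤ} (hc : 0 ≤ c) (e : x * x = (-c) • (1 : R)) : N x = c := by
  have := h.mul x x
  rw [e, h.int] at this
  have h0 := h.nn x
  nlinarith

/-- The anticommutator of the two trace zero elements is a small nonzero integer. -/
lemma NR.two (h : NR N) {q : ℕ} (hq : q.Prime) (hq4 : 44 < q) {m : ℤ} (hm : (q : ℤ) = 4 * m - 1)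
    {α β : R} (hα : α * α = α - m • (1 : R)) (hβ : β * β = β - (3 : ℤ) • (1 : R)) {x y : R}
    (hx : x = (2 : ℤ) • α - 1) (hy : y = (2 : ℤ) • β - 1) :
    x * x = (-(q : ℤ)) • (1 : R) ∧ x ≠ 0 ∧ y ≠ 0 ∧ x * y ≠ y * x ∧
      ∃ s : ℤ, s ≠ 0 ∧ s ^ 2 ≤ 44 * q ∧ x * y + y * x = s • (1 : R) := by
  have hq0 : (44 : ℤ) < q := by exact_mod_cast hq4
  have x2 : x * x = (-(q : ℤ)) • (1 : R) := by
    rw [hx, hm]
    simp only [mul_sub, sub_mul, mul_smul_comm, smul_mul_assoc, mul_one, one_mul, hα]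
    module
  have y2 : y * y = (-(11 : ℤ)) • (1 : R) := by
    rw [hy]
    simp only [mul_sub, sub_mul, mul_smul_comm, smul_mul_assoc, mul_one, one_mul, hβ]
    module
  have nx := h.sq (by omega) x2
  have ny := h.sq (by omega) y2
  have nc : α * y ≠ y * α := fun e => by
    obtain ⟨a, b, -, hn⟩ := h.comm hq hm hα e
    rw [ny] at hn
    have hb : b = 0 := by
      by_contra hb
      have : 0 < b ^ 2 := by positivity
      nlinarith [sq_nonneg (2 * a + b)]
    subst hb
    have h1 : a ^ 2 = 11 := by linarith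
    have h2 : a < 4 := by nlinarith
    have h3 : -4 < a := by nlinarith
    interval_cases a <;> omega
  have nc' : x * y ≠ y * x := fun e => nc (sub_eq_zero.1 (h.cancel two_ne_zero (by
    rw [hx] at e
    simp only [mul_sub, sub_mul, mul_smul_comm, smul_mul_assoc, mul_one, one_mul] at e
    linear_combination (norm := module) e)))
  have c1 : x * (x * y + y * x) = (x * y + y * x) * x := by
    rw [mul_add, add_mul, ← mul_assoc, x2, mul_assoc y, x2, mul_assoc]
    simp only [mul_smul_comm, smul_mul_assoc, mul_one, one_mul]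
    exact add_comm _ _
  have c2 : y * (x * y + y * x) = (x * y + y * x) * y := by
    rw [mul_add, add_mul, ← mul_assoc y y, y2, mul_assoc x, y2, mul_assoc]
    simp only [mul_smul_comm, smul_mul_assoc, mul_one, one_mul]
    exact add_comm _ _
  have c3 : α * (x * y + y * x) = (x * y + y * x) * α := by
    generalize x * y + y * x = z at c1
    refine sub_eq_zero.1 (h.cancel two_ne_zero ?_)
    rw [hx] at c1
    simp only [mul_sub, sub_mul, mul_smul_comm, smul_mul_assoc, mul_one, one_mul] at c1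
    linear_combination (norm := module) c1
  obtain ⟨s, b, hs, -⟩ := h.comm hq hm hα c3
  have hb : b = 0 := by
    by_contra hb
    refine nc (sub_eq_zero.1 (h.cancel hb ?_))
    rw [hs] at c2
    simp only [mul_add, add_mul, mul_smul_comm, smul_mul_assoc, mul_one, one_mul] at c2
    linear_combination (norm := module) -c2
  rw [hb, zero_smul, add_zero] at hs
  refine ⟨x2, fun e => ?_, fun e => ?_, nc', s, fun e => ?_, ?_, hs⟩
  · rw [e, h.zero] at nx; omega
  · rw [e, h.zero] at ny; omega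
  · have e1 : (4 : ℤ) • (α + β - (α * β + β * α)) = (2 : ℤ) • (1 : R) := by
      rw [e, hx, hy] at hs
      simp only [mul_sub, sub_mul, mul_smul_comm, smul_mul_assoc, mul_one, one_mul] at hs
      linear_combination (norm := module) -hs
    have e2 := h.smul 4 (α + β - (α * β + β * α))
    rw [e1, h.int] at e2
    omega
  · obtain ⟨t, ht, e⟩ := h.cp (x * y)
    have ng : N (x * y) = q * 11 := by rw [h.mul, nx, ny]
    have e1 : x * y * (x * y) = s • (x * y) - (q * 11 : ℤ) • (1 : R) := by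
      have e2 : y * x = s • (1 : R) - x * y := by rw [← hs]; abel
      rw [mul_assoc, ← mul_assoc y, e2, sub_mul, mul_assoc x y y, y2, mul_sub]
      simp only [mul_smul_comm, smul_mul_assoc, mul_one, one_mul, x2]
      module
    rw [ng] at e ht
    have e3 : t = s := by
      by_contra hts
      have := h.cancel (x := x * y) (sub_ne_zero.2 hts)
        (by linear_combination (norm := module) e1 - e)
      rw [this, h.zero] at ng
      omega
    rw [← e3]; linarith

end Abs

variable {k : Type} [Field k] [DecidableEq k] (U : Affine k) [Infinite U.Point]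

/-- The ring of algebraic endomorphisms. -/
def ER : Subring (AddMonoid.End U.Point) where
  carrier := {f | Alg0 (V := U) (V' := U) f}
  mul_mem' ha hb := Alg0.comp ha hb
  one_mem' := alg0_id
  add_mem' ha hb := Alg0.add ha hb
  zero_mem' := Or.inl rfl
  neg_mem' ha := Alg0.neg ha

variable {U}

/-- The underlying map. -/
def hm (f : ER U) : U.Point →+ U.Point := f.1

lemma hm_alg (f : ER U) : Alg0 (hm f) := f.2

lemma hm_ext {f g : ER U} (h : ∀ P, hm f P = hm g P) : f = g :=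
  Subtype.ext (AddMonoidHom.ext h)

lemma hm_mul (f g : ER U) : hm (f * g) = (hm f).comp (hm g) := rfl

lemma hm_add (f g : ER U) : hm (f + g) = hm f + hm g := rfl

lemma hm_sub (f g : ER U) : hm (f - g) = hm f - hm g := rfl

lemma hm_one : hm (1 : ER U) = AddMonoidHom.id U.Point := rfl

lemma hm_smul (n : ℤ) (f : ER U) : hm (n • f) = n • hm f := rfl

lemma hm_isAlg {f : ER U} (h : f ≠ 0) : IsAlg ⊤ (hm f) :=
  (hm_alg f).resolve_left fun e => h (Subtype.ext e)

lemma nrE [IsAlgClosed k] (hEnd1 : End1Stmt) (hΔ : U.Δ ≠ 0) : NR fun f : ER U => (deg (hm f) : ℤ) := by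
  have hV : Sep U := sep_of_c4 (Or.inr hΔ)
  refine ⟨fun x y => ?_, fun x e => ?_, fun x => Int.natCast_nonneg _, fun n => ?_, fun x => ?_⟩
  · rw [hm_mul, deg_comp hV hV (hm_alg x) (hm_alg y), Nat.cast_mul]
  · by_contra hx
    have := (hm_isAlg hx).deg_pos hV
    omega
  · rw [hm_smul, hm_one, deg_zsmul hV hΔ alg0_id, deg_id hV]; simp
  · obtain ⟨h1, h2⟩ := (hEnd1 k U hΔ).1 (hm x) (hm_alg x) _ rfl
    refine ⟨_, h1, hm_ext fun P => ?_⟩
    have := h2 P
    simp only [hm_mul, hm_sub, hm_smul, hm_one, AddMonoidHom.comp_apply, AddMonoidHom.sub_apply,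
      AddMonoidHom.smul_apply, AddMonoidHom.id_apply]
    rw [← natCast_zsmul] at this
    linear_combination (norm := module) this

end End2

open End2

theorem end2_thm (hEnd1 : End1Stmt) : End2Stmt := by
  intro k _ _ _ U hΔ q α hq hq4 hq3 hα hα2
  have hV : Sep U := sep_of_c4 (Or.inr hΔ)
  have := infinite_pt hV
  have h := nrE hEnd1 hΔ
  have hm' : (q : ℤ) = 4 * ((q + 1) / 4 : ℕ) - 1 := by omega
  generalize (q + 1) / 4 = m at *
  let a0 : ER U := ⟨α, hα⟩
  have ha0 : a0 * a0 = a0 - (m : ℤ) • (1 : ER U) := hm_ext fun P => by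
    simp only [hm_mul, hm_sub, hm_smul, hm_one, AddMonoidHom.comp_apply, AddMonoidHom.sub_apply,
      AddMonoidHom.smul_apply, AddMonoidHom.id_apply]
    exact (hα2 P).trans (by rw [← natCast_zsmul]; rfl)
  refine ⟨fun f hf hc => ?_, fun β hk hβ hβ2 => ?_⟩
  · obtain ⟨a, b, e, hn⟩ := h.comm hq hm' ha0 (f := ⟨f, hf⟩) (hm_ext fun P => (hc P).symm)
    exact ⟨a, b, fun P => DFunLike.congr_fun (congrArg hm e) P, hn⟩
  let b0 : ER U := ⟨β, hβ⟩
  have hb0 : b0 * b0 = b0 - (3 : ℤ) • (1 : ER U) := hm_ext fun P => by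
    simp only [hm_mul, hm_sub, hm_smul, hm_one, AddMonoidHom.comp_apply, AddMonoidHom.sub_apply,
      AddMonoidHom.smul_apply, AddMonoidHom.id_apply]
    exact (hβ2 P).trans (by rw [← natCast_zsmul]; rfl)
  obtain ⟨x2, x0, y0, nc, s, s0, s2, hs⟩ := h.two hq hq4 hm' ha0 hb0 rfl rfl
  generalize (2 : ℤ) • a0 - 1 = x at *
  generalize (2 : ℤ) • b0 - 1 = y at *
  have hdvd : ∀ n : ℤ, (n : k) = 0 → (q : ℤ) ∣ n := fun n hn => by
    by_contra hd
    obtain ⟨u, v, e⟩ := ((Nat.prime_iff_prime_int.1 hq).coprime_iff_not_dvd).2 hd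
    have := congrArg (Int.cast : ℤ → k) e
    simp [hk, hn] at this
  have hq0 : (44 : ℤ) < q := by exact_mod_cast hq4
  have h2 : (2 : k) ≠ 0 := fun e => by
    have := Int.le_of_dvd (by norm_num) (hdvd 2 (by exact_mod_cast e))
    omega
  obtain ⟨A, hA⟩ := (hm_isAlg x0).exists_mult_const h2 hΔ hV
  obtain ⟨B, hB⟩ := (hm_isAlg y0).exists_mult_const h2 hΔ hV
  have A0 : A = 0 := by
    have m1 := hA.comp hV hV hA
    rw [← hm_mul, x2, hm_smul, hm_one] at m1
    obtain ⟨P, e⟩ := (m1.unique hV hV (mult_zsmul hΔ (by omega))).exists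
    simp only [Int.cast_neg, Int.cast_natCast, hk, neg_zero] at e
    exact mul_self_eq_zero.1 e
  have m1 := hA.comp hV hV hB
  have m2 := hB.comp hV hV hA
  rw [← hm_mul] at m1 m2
  have a1 := hm_isAlg (sub_ne_zero.2 nc)
  have a2 : IsAlg ⊤ (hm (x * y + y * x)) := hm_isAlg fun e => s0 (h.int0 (hs.symm.trans e))
  have m3 := m1.add hV hV m2 (by
    filter_upwards [m1.alg.ne, m2.alg.ne, a1.ne, a2.ne] with P e1 e2 e3 e4 e
    rcases eq_or_neg_of_xc e1 e2 e with h | h
    · exact e3 (by rw [hm_sub, AddMonoidHom.sub_apply, h, sub_self])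
    · exact e4 (by rw [hm_add, AddMonoidHom.add_apply, h, neg_add_cancel]))
  rw [← hm_add, hs, hm_smul, hm_one] at m3
  obtain ⟨P, e⟩ := (m3.unique hV hV (mult_zsmul hΔ s0)).exists
  simp only [A0, zero_mul, mul_zero, add_zero] at e
  obtain ⟨c, rfl⟩ := hdvd s e.symm
  have c0 : c ≠ 0 := right_ne_zero_of_mul s0
  have c1 : 1 ≤ c ^ 2 := by
    have : 0 < c ^ 2 := by positivity
    omega
  have c2 : (q : ℤ) ^ 2 * 1 ≤ (q : ℤ) ^ 2 * c ^ 2 := mul_le_mul_of_nonneg_left c1 (sq_nonneg _)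
  rw [mul_pow] at s2
  nlinarith

end Pool.Agent.Lib.MP_d6ddbd_nt.K11
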