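import Mathlib

/-!
Character sums for the local condition at a good prime.
-/

set_option autoImplicit false

open Finset

namespace Pool.Agent.Lib.MP_d6ddbd_nt.K11.Good

variable {F : Type} [Field F] [Fintype F] [DecidableEq F]

theorem sum_lin (hr : ringChar F ≠ 2) (u a : F) : ∑ x : F, quadraticChar F (u * (x - a)) = 0 := by
  simp only [map_mul, ← mul_sum]
  rw [Fintype.sum_equiv (Equiv.subRight a) (fun x => quadraticChar F (x - a))
    (fun x => quadraticChar F x) fun _ => rfl, quadraticChar_sum_zero hr, mul_zero]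

theorem sum_pair (hr : ringChar F ≠ 2) {u a b : F} (hu : u ≠ 0) (h : a ≠ b) :
    ∑ x : F, quadraticChar F (u * (x - a)) * quadraticChar F (u * (x - b)) = -1 := by
  have e := jacobiSum_nontrivial_inv (quadraticChar_ne_one hr)
  rw [(quadraticChar_isQuadratic F).inv, jacobiSum] at e
  have h0 : b - a ≠ 0 := sub_ne_zero.2 h.symm
  have h1 := quadraticChar_sq_one (F := F) (neg_ne_zero.2 one_ne_zero)
  have : ∑ x : F, quadraticChar F (u * (x - a)) * quadraticChar F (u * (x - b)) =
      ∑ x : F, quadraticChar F (-1) * (quadraticChar F x * quadraticChar F (1 - x)) := by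
    refine (Fintype.sum_equiv ((Equiv.mulLeft₀ _ h0).trans (Equiv.addLeft a)) _ _ fun t => ?_).symm
    change _ = quadraticChar F (u * (a + (b - a) * t - a)) * quadraticChar F (u * (a + (b - a) * t - b))
    rw [← map_mul, ← map_mul, ← map_mul, show u * (a + (b - a) * t - a) * (u * (a + (b - a) * t - b))
      = -1 * (t * (1 - t)) * (u * (b - a)) ^ 2 by ring, map_mul _ _ (_ ^ 2),
      quadraticChar_sq_one' (mul_ne_zero hu h0), mul_one]
  rw [this, ← mul_sum, e]
  linear_combination -h1

theorem sum_quad (hr : ringChar F ≠ 2) {b c : F} (h : ∀ x, x ^ 2 + b * x + c ≠ 0) :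
    ∑ x : F, quadraticChar F (x ^ 2 + b * x + c) = -1 := by
  have h2 : (2 : F) ≠ 0 := Ring.two_ne_zero hr
  obtain ⟨b, rfl⟩ : ∃ b', b = 2 * b' := ⟨b / 2, by field_simp⟩
  have hD : (0 : F) ≠ b ^ 2 - c := fun e => h (-b) (by linear_combination e)
  rw [Fintype.sum_equiv (Equiv.addRight b) _ (fun y => quadraticChar F (y ^ 2 - (b ^ 2 - c)))
    fun x => by simp only [Equiv.coe_addRight]; congr 1; ring,
    ← sum_fiberwise' univ (fun y : F => y ^ 2) fun t => quadraticChar F (t - (b ^ 2 - c))]
  have := congrArg₂ (· + ·) (sum_pair hr one_ne_zero hD) (sum_lin hr 1 (b ^ 2 - c))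
  simp only [← sum_add_distrib, one_mul, sub_zero, add_zero] at this
  rw [← this]
  refine sum_congr rfl fun t _ => ?_
  have h3 := quadraticChar_card_sqrts hr t
  rw [Set.toFinset_ofPred] at h3
  rw [sum_const, nsmul_eq_mul, h3]
  ring

theorem chi_cases (x : F) :
    quadraticChar F x = 0 ∨ quadraticChar F x = 1 ∨ quadraticChar F x = -1 :=
  quadraticChar_isQuadratic F x

open Classical in
theorem term (u x a : F) (P : Prop) (hu : u ≠ 0)
    (h : ¬ (x ≠ a → (IsSquare (u * (x - a)) ↔ P))) :
    1 + (if P then 1 else -1) * quadraticChar F (u * (x - a)) = 0 := by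
  rw [Classical.not_imp] at h
  have h0 := mul_ne_zero hu (sub_ne_zero.2 h.1)
  split_ifs with hP
  · rw [quadraticChar_neg_one_iff_not_isSquare.2 fun e => h.2 (iff_of_true e hP)]
    ring
  · rw [(quadraticChar_one_iff_isSquare h0).2 (by_contra fun e => h.2 (iff_of_false e hP))]
    ring

/-- Three distinct roots. -/
theorem three (hr : ringChar F ≠ 2) {u a b c : F} (hu : u ≠ 0) (hab : a ≠ b) (hac : a ≠ c)
    (hbc : b ≠ c) {P Q R : Prop} (h1 : ¬ (P ∧ Q ∧ R)) (h2 : P ∨ Q ∨ R) :
    ∃ x, (x ≠ a → (IsSquare (u * (x - a)) ↔ P)) ∧ (x ≠ b → (IsSquare (u * (x - b)) ↔ Q)) ∧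
      (x ≠ c → (IsSquare (u * (x - c)) ↔ R)) := by
  classical
  by_contra h
  obtain ⟨s, hs⟩ : ∃ s : ℤ, s = if P then 1 else -1 := ⟨_, rfl⟩
  obtain ⟨t, ht⟩ : ∃ s : ℤ, s = if Q then 1 else -1 := ⟨_, rfl⟩
  obtain ⟨r, hr'⟩ : ∃ s : ℤ, s = if R then 1 else -1 := ⟨_, rfl⟩
  have e : s * t + s * r + t * r = -1 ∧ (s * t * r = 1 ∨ s * t * r = -1) := by
    rw [hs, ht, hr']
    split_ifs <;> first | decide | tauto
  have key : ∀ x, s * quadraticChar F (u * (x - a)) + t * quadraticChar F (u * (x - b)) +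
      r * quadraticChar F (u * (x - c)) +
      s * t * (quadraticChar F (u * (x - a)) * quadraticChar F (u * (x - b))) +
      s * r * (quadraticChar F (u * (x - a)) * quadraticChar F (u * (x - c))) +
      t * r * (quadraticChar F (u * (x - b)) * quadraticChar F (u * (x - c))) ≤ 0 := fun x => by
    have h3 : (1 + s * quadraticChar F (u * (x - a))) * (1 + t * quadraticChar F (u * (x - b))) *
        (1 + r * quadraticChar F (u * (x - c))) = 0 := by
      by_contra h3
      simp only [mul_eq_zero, not_or] at h3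
      exact h ⟨x, by_contra fun e => h3.1.1 (hs ▸ term u x a P hu e),
        by_contra fun e => h3.1.2 (ht ▸ term u x b Q hu e),
        by_contra fun e => h3.2 (hr' ▸ term u x c R hu e)⟩
    have h4 : -1 ≤ s * t * r * quadraticChar F (u * (x - a) * (u * (x - b)) * (u * (x - c))) := by
      rcases e.2 with e | e <;>
        rcases chi_cases (u * (x - a) * (u * (x - b)) * (u * (x - c))) with h | h | h <;>
        simp [e, h]
    rw [map_mul, map_mul] at h4
    linear_combination h3 + h4
  have := sum_nonpos (s := univ) fun x _ => key x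
  simp only [sum_add_distrib, ← mul_sum, sum_lin hr, sum_pair hr hu hab, sum_pair hr hu hac,
    sum_pair hr hu hbc] at this
  linarith [e.1]

/-- One root and an irreducible factor. -/
theorem two (hr : ringChar F ≠ 2) {u a b c : F} (hu : u ≠ 0) (h0 : ∀ x, x ^ 2 + b * x + c ≠ 0) :
    ∃ x, (x ≠ a → ¬ IsSquare (u * (x - a))) ∧ ¬ IsSquare (x ^ 2 + b * x + c) := by
  classical
  by_contra h
  have key : ∀ x, 0 ≤ quadraticChar F (u * (x - a)) + quadraticChar F (x ^ 2 + b * x + c) :=
    fun x => by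
    by_cases h1 : IsSquare (x ^ 2 + b * x + c)
    · rw [(quadraticChar_one_iff_isSquare (h0 x)).2 h1]
      rcases chi_cases (u * (x - a)) with h | h | h <;> simp [h]
    · have h2 := term u x a False hu fun e => h ⟨x, fun e' => (e e').1, h1⟩
      rw [quadraticChar_neg_one_iff_not_isSquare.2 h1]
      rw [if_neg id] at h2
      linarith
  have := sum_nonneg (s := univ) fun x _ => key x
  rw [sum_add_distrib, sum_lin hr, sum_quad hr h0] at this
  omega

end Pool.Agent.Lib.MP_d6ddbd_nt.K11.Good
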