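import Pool.Agent.Lib.MP_d6ddbd_nt.K11.KB1

/-! Local data at a good place, the coefficients `a l`, and the base point. -/

set_option autoImplicit false

open Pool.Agent.Lib.MP_02f36d_nt (xc yc)

noncomputable section

namespace Pool.Agent.Lib.MP_d6ddbd_nt.K11.KK

open Finset

/-- The algebraic points that reduce to the origin. -/
def E1a (hR : R1Stmt) (O : ValuationSubring ℂ) : AddSubgroup (AlgS hR) :=
  (E1 O).addSubgroupOf (AlgS hR)

theorem red_eq {hR : R1Stmt} {O : ValuationSubring ℂ} (x y : AlgS hR) :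
    QuotientAddGroup.mk' (E1a hR O) x = QuotientAddGroup.mk' (E1a hR O) y ↔
      (x : Pt) - (y : Pt) ∈ E1 O := by
  rw [QuotientAddGroup.mk'_apply, QuotientAddGroup.mk'_apply, QuotientAddGroup.eq_iff_sub_mem]
  rfl

theorem red_zero {hR : R1Stmt} {O : ValuationSubring ℂ} (x : AlgS hR) :
    QuotientAddGroup.mk' (E1a hR O) x = 0 ↔ (x : Pt) ∈ E1 O := by
  rw [QuotientAddGroup.mk'_apply, QuotientAddGroup.eq_zero_iff]
  rfl

/-- The local datum at a place of good reduction. -/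
def mkLoc (hR : RStmt) {v : ℕ} {O : ValuationSubring ℂ} (hv : v.Prime) (h2 : v ≠ 2) (h11 : v ≠ 11)
    (hO : Ov O v) {σ φ : G} (hσ : Frob O 1 σ) (hφ : Frob O v φ) :
    Loc G (AlgS hR.1) (AlgS hR.1 ⧸ E1a hR.1 O) where
  red := QuotientAddGroup.mk' _
  F := QuotientAddGroup.map _ _ (DistribSMul.toAddMonoidHom _ φ) fun x hx =>
    ((hR.2 v O hv h2 h11 hO).2.2.2.1 v φ x.1 hφ hv.ne_zero x.2).2 hx
  σ := σ
  φ := φ
  hF := fun _ => rfl
  hσ := fun x => (red_eq _ _).2 ((hR.2 v O hv h2 h11 hO).2.2.1 σ x.1 hσ x.2)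
  inj := fun x h1 h0 => Subtype.ext ((hR.2 v O hv h2 h11 hO).2.2.2.2.1 1 x.1
    (by rw [pow_one]; exact (two_iff x).1 h1) ((red_zero x).1 h0))
  sur := fun x h1 => by
    rw [← map_zsmul, red_zero, coe_two] at h1
    obtain ⟨T, t1, t2⟩ := (hR.2 v O hv h2 h11 hO).2.2.2.2.2.1 1 x.1 (by rwa [pow_one])
    rw [pow_one] at t1
    exact ⟨⟨T, alg_of_two hR.1 t1⟩, (two_iff _).2 t1, ((red_eq _ _).2 t2).symm⟩

theorem exists_two (hR : R1Stmt) : ∃ T : Pt, 2 • T = 0 ∧ T ≠ 0 := by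
  obtain ⟨e₁, e₂, e₃, hf, -⟩ := hR.2.2.2.2.1
  have h0 : fc e₁ = 0 := by rw [hf]; simp
  obtain ⟨t1, t2, t3⟩ := hR.2.2.1 e₁ 0 (by rw [h0]; simp)
  exact ⟨pt e₁ 0, (hR.2.2.2.1 _).2 (Or.inr ⟨t3, by rw [t2, h0]⟩), t1⟩

theorem exists_ord (hR : R1Stmt) (n : ℕ) :
    ∃ T : Pt, AlgP T ∧ 2 ^ (n + 1) • T = 0 ∧ 2 ^ n • T ≠ 0 := by
  induction n with
  | zero =>
    obtain ⟨T, t1, t2⟩ := exists_two hR
    exact ⟨T, alg_of_two hR t1, by simpa using t1, by simpa using t2⟩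
  | succ n ih =>
    obtain ⟨T, t0, t1, t2⟩ := ih
    obtain ⟨U, rfl⟩ := hR.1.2.2.2.2.2 T
    refine ⟨U, hR.1.2.2.2.2.1 U t0, ?_, ?_⟩
    · rw [pow_succ, mul_smul]; exact t1
    · rw [pow_succ, mul_smul]; exact t2

theorem gn (σ : G) (n : ℕ) (P : Pt) : σ • n • P = n • σ • P :=
  map_nsmul (DistribSMul.toAddMonoidHom Pt σ) n P

theorem ga (σ : G) (P Q : Pt) : σ • (P + Q) = σ • P + σ • Q := smul_add σ P Q

theorem g0 (σ : G) : σ • (0 : Pt) = 0 := (smul_eq_zero' σ 0).2 rfl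

theorem na (n : ℕ) (P Q : Pt) : n • (P + Q) = n • P + n • Q := smul_add n P Q

theorem ns (n : ℕ) (P Q : Pt) : n • (P - Q) = n • P - n • Q := smul_sub n P Q

theorem n0 (n : ℕ) : n • (0 : Pt) = 0 := nsmul_zero n

theorem z0 (n : ℤ) : n • (0 : Pt) = 0 := zsmul_zero n

theorem two_z {T : Pt} (h : 2 • T = 0) : (2 : ℤ) • T = 0 := by
  rw [two_zsmul, ← two_nsmul, h]

section HSl

variable {q : ℕ} {k : ℕ → ℕ} {a : ℕ → ℤ} {S : Finset ℕ → (A k → ℤ) →+ Pt} {ρ : G → A k}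
  {ν : A k} {j : ℕ → A k}

theorem es_tor (hR : RStmt) (h : HS q k a S ρ ν j) {l : ℕ} {O : ValuationSubring ℂ} {φ : G}
    (hl : l.Prime) (h2 : l ≠ 2) (h11 : l ≠ 11) (hO : Ov O l) (hφ : Frob O l φ) {n : ℕ} {T : Pt}
    (hA : AlgP T) (hT : 2 ^ n • T = 0) : a l • T = φ • T + l • φ⁻¹ • T := by
  rw [← sub_eq_zero]
  apply (hR.2 l O hl h2 h11 hO).2.2.2.2.1 n _ _ (h.es l O φ T hl h2 h11 hO hφ hA)
  rw [ns, na, smul_comm _ (a l), smul_comm _ l, ← gn φ, ← gn φ⁻¹, hT, g0, g0, n0, z0]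
  simp

theorem a_par (hV : VStmt) (hR : RStmt) (h : HS q k a S ρ ν j) {l : ℕ}
    (hl : l.Prime) (h2 : l ≠ 2) (h11 : l ≠ 11) : (nr l = 0 → Odd (a l)) ∧ (nr l ≠ 0 → Even (a l)) := by
  obtain ⟨O, hO⟩ := hV.1.1 l hl
  obtain ⟨φ, hφ⟩ := hV.1.2.2.2.2 l O hl hO
  obtain ⟨hn, ht⟩ := (hR.2 l O hl h2 h11 hO).2.2.2.2.2.2
  obtain ⟨t3, t1, t0⟩ := ht φ hφ
  have ol : Odd (l : ℤ) := by exact_mod_cast hl.odd_of_ne_two h2
  have key : ∀ T : Pt, 2 • T = 0 → a l • T = φ • T + φ⁻¹ • T := by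
    intro T hT
    rw [es_tor hR h hl h2 h11 hO hφ (n := 1) (alg_of_two hR.1 hT) (by rwa [pow_one]),
      ← natCast_zsmul, odd_smul ol (two_g _ (two_z hT))]
  have ev : ∀ T : Pt, 2 • T = 0 → T ≠ 0 → φ • T = T → Even (a l) := by
    intro T hT h0 hf
    have h1 := key T hT
    rw [hf, inv_smul_eq_iff.2 hf.symm, ← two_nsmul, hT] at h1
    by_contra ho
    rw [odd_smul (Int.not_even_iff_odd.1 ho) (two_z hT)] at h1
    exact h0 h1
  constructor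
  · intro h0
    obtain ⟨T, hT, hT0⟩ := exists_two hR.1
    have h1 := congrArg (φ⁻¹ • ·) (t0.1 h0 T hT)
    simp only [ga, inv_smul_smul, g0] at h1
    by_contra ho
    have h3 := key T hT
    rw [even_smul (Int.not_odd_iff_even.1 ho) (two_z hT)] at h3
    apply hT0
    rw [add_right_comm, ← h3, zero_add] at h1
    exact h1
  · intro h0
    rcases hn with hn | hn | hn
    · exact absurd hn h0
    · obtain ⟨u1, T, hT, u2⟩ := t1.1 hn
      refine ev (φ • T + T) (by rw [na, ← gn, hT, g0]; simp) (fun e => u2 ?_) ?_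
      · rw [two_nsmul] at hT
        exact add_right_cancel (e.trans hT.symm)
      · rw [ga, u1 T hT, add_comm]
    · obtain ⟨T, hT, hT0⟩ := exists_two hR.1
      exact ev T hT hT0 (t3.1 hn T hT)

theorem kol_ne_two {d : ℤ} {p : ℕ} (hp : Kol q d p) : p ≠ 2 := by
  rintro rfl
  have := Nat.le_of_dvd (by norm_num) hp.dv
  have h2 : 2 ^ 3 ≤ 2 ^ (tt d + 3) := Nat.pow_le_pow_right (by norm_num) (by omega)
  omega

theorem rd_ne_two {d : ℤ} {r : ℕ} (hp : RD q d r) : r ≠ 2 := by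
  rintro rfl
  have := Nat.le_of_dvd (by norm_num) hp.dv
  have h2 : 2 ^ 4 ≤ 2 ^ (3 * tt d + 4) := Nat.pow_le_pow_right (by norm_num) (by omega)
  omega

theorem a_kol (hR : RStmt) (h : HS q k a S ρ ν j) {d : ℤ} {p : ℕ} (hp : Kol q d p) :
    (2 : ℤ) ^ (tt d + 3) ∣ a p := by
  obtain ⟨O, φ, hO, hφ, hf⟩ := hp.fr
  obtain ⟨T, hA, t1, t2⟩ := exists_ord hR.1 (tt d + 2)
  have h1 := es_tor hR h hp.pr (kol_ne_two hp) hp.n11 hO hφ hA t1
  have h2 : φ⁻¹ • T = φ • T := inv_smul_eq_iff.2 (hf T t1).symm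
  obtain ⟨c, hc⟩ := hp.dv
  rw [h2, add_comm, ← succ_nsmul, hc, mul_comm, mul_smul, ← gn φ, t1, g0, n0] at h1
  have h3 : addOrderOf T = 2 ^ (tt d + 2 + 1) := addOrderOf_eq_prime_pow t2 t1
  have h4 := addOrderOf_dvd_iff_zsmul_eq_zero.2 h1
  rw [h3] at h4
  exact_mod_cast h4

end HSl

theorem val_int {O : ValuationSubring ℂ} {q : ℕ} (hq : q.Prime) (hO : Ov O q) (c : ℤ)
    (hc : c ≠ 0) : ∃ e : ℕ, O.valuation (c : ℂ) = O.valuation (q : ℂ) ^ e := by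
  obtain ⟨e, n, hn, h⟩ := Nat.exists_eq_pow_mul_and_not_dvd (Int.natAbs_ne_zero.2 hc) q hq.ne_one
  have h1 : O.valuation (n : ℂ) = 1 := by
    have hco : IsCoprime (q : ℤ) (n : ℤ) :=
      Nat.isCoprime_iff_coprime.2 ((Nat.Prime.coprime_iff_not_dvd hq).2 hn)
    obtain ⟨x, y, hxy⟩ := hco
    have hle : ∀ z : ℤ, O.valuation (z : ℂ) ≤ 1 := fun z =>
      (O.valuation_le_one_iff _).2 (intCast_mem O z)
    by_contra hne
    have h2 : O.valuation (n : ℂ) < 1 := lt_of_le_of_ne (by exact_mod_cast hle n) hne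
    have h3 : O.valuation (q : ℂ) < 1 := (O.mem_nonunits_iff).1 hO
    have h4 : (x : ℂ) * q + y * n = 1 := by exact_mod_cast hxy
    have h5 : O.valuation ((x : ℂ) * q + y * n) < 1 := by
      apply Valuation.map_add_lt
      · rw [map_mul]; exact lt_of_le_of_lt (mul_le_of_le_one_left' (hle x)) h3
      · rw [map_mul]; exact lt_of_le_of_lt (mul_le_of_le_one_left' (hle y)) h2
    rw [h4, map_one] at h5
    exact lt_irrefl _ h5
  refine ⟨e, ?_⟩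
  have h6 : O.valuation (c : ℂ) = O.valuation ((c.natAbs : ℕ) : ℂ) := by
    rcases Int.natAbs_eq c with h' | h'
    · conv_lhs => rw [h']
      simp
    · conv_lhs => rw [h']
      simp
  rw [h6, h]
  push_cast
  rw [map_mul, map_pow, h1, mul_one]

theorem exists_iota (hV : VStmt) {O : ValuationSubring ℂ} {q : ℕ} (hq : q.Prime) (hO : Ov O q) :
    ∃ ι : G, Frob O 1 ι ∧ ι (om q) ≠ om q := by
  by_contra hc
  push Not at hc
  have hq0 : (q : ℂ) ≠ 0 := by exact_mod_cast hq.ne_zero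
  have hx := om_sq' q
  have hx0 : 2 * om q - 1 ≠ 0 := fun e => hq0 (by rw [e] at hx; simpa using hx)
  have halg : IsAlgebraic ℚ (2 * om q - 1) :=
    IsAlgebraic.of_pow two_pos (by rw [hx]; exact (isAlgebraic_natCast q).neg)
  obtain ⟨y, hy, h1, h2⟩ := hV.2.2.1 ℚ (algebraMap ℚ ℂ) q O _ hq hO halg hx0
    fun σ hσ _ => by rw [map_sub, map_mul, map_ofNat, map_one, hc σ hσ]
  have h3 : O.valuation ((2 * om q - 1) / algebraMap ℚ ℂ y) = 1 :=
    le_antisymm ((O.valuation_le_one_iff _).2 h1) (not_lt.1 fun e => h2 (O.mem_nonunits_iff.2 e))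
  obtain ⟨e1, v1⟩ := val_int hq hO y.num (Rat.num_ne_zero.2 hy)
  obtain ⟨e2, v2⟩ := val_int hq hO (y.den : ℤ) (by exact_mod_cast y.den_ne_zero)
  have hd : ((y.den : ℤ) : ℂ) ≠ 0 := by exact_mod_cast y.den_ne_zero
  have hn : ((y.num : ℤ) : ℂ) ≠ 0 := by exact_mod_cast Rat.num_ne_zero.2 hy
  have hy' : algebraMap ℚ ℂ y = (y.num : ℂ) / ((y.den : ℤ) : ℂ) := by
    rw [eq_ratCast, Rat.cast_def]; simp
  have h4 : ((2 * om q - 1) / algebraMap ℚ ℂ y) ^ 2 * (y.num : ℂ) ^ 2 =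
      -(q * ((y.den : ℤ) : ℂ) ^ 2) := by
    rw [hy', div_pow, hx]; field_simp
  have h5 := congrArg O.valuation h4
  rw [Valuation.map_neg, map_mul, map_mul, map_pow, map_pow, map_pow, h3, v1, v2, one_pow, one_mul,
    ← pow_mul, ← pow_mul, ← pow_succ'] at h5
  have h6 : O.valuation (q : ℂ) < 1 := (O.mem_nonunits_iff).1 hO
  have h7 : 0 < O.valuation (q : ℂ) := zero_lt_iff.2 (by simpa using hq0)
  have := (pow_right_strictAnti₀ h7 h6).injective h5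
  omega

end Pool.Agent.Lib.MP_d6ddbd_nt.K11.KK
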