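import Pool.Agent.Lib.MP_d6ddbd_nt.K11.KB2

/-! The abstract system attached to the Heegner system. -/

set_option autoImplicit false

noncomputable section

namespace Pool.Agent.Lib.MP_d6ddbd_nt.K11.KK

open Finset

/-- The hypotheses of block `K`. -/
structure Ctx (q : ℕ) (d : ℤ) (r : ℕ) (k : ℕ → ℕ) (a : ℕ → ℤ) (S : Finset ℕ → (A k → ℤ) →+ Pt)
    (ρ : G → A k) (ν : A k) (j : ℕ → A k) : Prop where
  hV : VStmt
  hR : RStmt
  qd : QD q d
  rd : RD q d r
  kd : ∀ l : ℕ, l.Prime → (l : ℤ) ∣ d → k l = 1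
  kr : k r = 3 * tt d + 4
  kp : ∀ p, Kol q d p → k p = tt d + 3
  kle : ∀ l, k l ≤ 3 * tt d + 4
  hs : HS q k a S ρ ν j
  hj : ∀ l : ℕ, l.Prime → (l : ℤ) ∣ d →
    (nr l = 1 → (j l r).val % 2 = 1) ∧ (nr l = 3 → (j l r).val % 4 = 2)

/-- Reduction of a coordinate. -/
def cz (i m : ℕ) : ZMod (2 ^ i) →+ ZMod (2 ^ m) :=
  if h : m ≤ i then (ZMod.castHom (pow_dvd_pow 2 h) (ZMod (2 ^ m))).toAddMonoidHom else 0

theorem cz_val {i m : ℕ} (h : i = m) (x : ZMod (2 ^ i)) : (cz i m x).val = x.val := by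
  subst h; simp [cz]

theorem cz_sum {i m : ℕ} (h : i = m) (w : ZMod (2 ^ m) → ℤ) :
    ∑ x : ZMod (2 ^ i), w (cz i m x) = ∑ z, w z := by
  subst h; simp [cz]

/-- The coordinates of the abstract system. -/
def pa (k : ℕ → ℕ) (r m : ℕ) : A k →+ Co ℕ (k r) m where
  toFun g := (g r, fun p => cz (k p) m (g p))
  map_zero' := by ext <;> simp
  map_add' g g' := by ext <;> simp

/-- Forget the coordinates outside `n`. -/
def res {i m : ℕ} (n : Finset ℕ) (x : Co ℕ i m) : Co ℕ i m :=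
  (x.1, fun p => if p ∈ n then x.2 p else 0)

/-- The conductor. -/
def cc (d : ℤ) (r : ℕ) (n : Finset ℕ) : Finset ℕ := insert r d.natAbs.primeFactors ∪ n

/-- The twisted test function. -/
def tst (k : ℕ → ℕ) (d : ℤ) (r m : ℕ) (n : Finset ℕ) (f : Co ℕ (k r) m → ℤ) (g : A k) : ℤ :=
  chi d.natAbs.primeFactors g * f (res n (pa k r m g))

theorem dep_tst (k : ℕ → ℕ) (d : ℤ) (r m : ℕ) (n : Finset ℕ) (f : Co ℕ (k r) m → ℤ) :
    K11.Dep (cc d r n) (tst k d r m n f) := by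
  intro g g' h
  unfold tst chi
  congr 1
  · exact Finset.prod_congr rfl fun l hl => by
      rw [h l (by simp only [cc, mem_union, mem_insert]; tauto)]
  · congr 1
    refine Prod.ext (h r (by simp [cc])) (funext fun p => ?_)
    simp only [res, pa, AddMonoidHom.coe_mk, ZeroHom.coe_mk]
    split_ifs with hp
    · rw [h p (by simp [cc, hp])]
    · rfl

theorem Dep.res {i m : ℕ} {n : Finset ℕ} {f : Co ℕ i m → ℤ} (hf : Dep n f) (x : Co ℕ i m) :
    f (res n x) = f x := hf _ _ rfl fun p hp => by simp [KK.res, hp]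

theorem tst_eq {k : ℕ → ℕ} (d : ℤ) {r m : ℕ} {n : Finset ℕ} {f : Co ℕ (k r) m → ℤ} (hf : Dep n f)
    (g : A k) : tst k d r m n f g = chi d.natAbs.primeFactors g * f (pa k r m g) := by
  rw [tst, hf.res]

namespace Ctx

variable {q : ℕ} {d : ℤ} {r : ℕ} {k : ℕ → ℕ} {a : ℕ → ℤ} {S : Finset ℕ → (A k → ℤ) →+ Pt}
  {ρ : G → A k} {ν : A k} {j : ℕ → A k} (C : Ctx q d r k a S ρ ν j)

include C

theorem cdD : Cd k d.natAbs.primeFactors := fun l hl => by
  obtain ⟨p1, p2⟩ := (mem_D C.qd.fam).1 hl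
  rw [C.kd l p1 p2]; omega

theorem cd {n : Finset ℕ} (hn : Kn q d n) : Cd k (cc d r n) := by
  intro l hl
  simp only [cc, mem_union, mem_insert] at hl
  rcases hl with (rfl | hl) | hl
  · rw [C.kr]; omega
  · exact C.cdD l hl
  · rw [C.kp l (hn l hl)]; omega

theorem not_mem_cc {n : Finset ℕ} {v : ℕ} (h1 : v ≠ r) (h2 : ¬ (v : ℤ) ∣ d) (h3 : v ∉ n) :
    v ∉ cc d r n := by
  simp only [cc, mem_union, mem_insert, mem_D C.qd.fam]
  tauto

theorem kol_ne_r {p : ℕ} (hp : Kol q d p) : p ≠ r := by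
  rintro rfl
  have h1 := hp.ty
  rw [C.rd.ty] at h1
  omega

/-- A Heegner point as an algebraic point. -/
def pA {c : Finset ℕ} (hc : Cd k c) (Φ : A k → ℤ) : AlgS C.hR.1 := ⟨S c Φ, C.hs.alg c Φ hc⟩

open Classical in
/-- The twisted Heegner points. -/
def YY (n : Finset ℕ) : (Co ℕ (k r) (tt d + 3) → ℤ) →+ AlgS C.hR.1 :=
  if h : Kn q d n then
    { toFun := fun f => C.pA (C.cd h) (tst k d r _ n f)
      map_zero' := Subtype.ext (by
        have : tst k d r (tt d + 3) n 0 = 0 := funext fun g => by simp [tst]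
        simp only [pA, this, map_zero]; rfl)
      map_add' := fun f f' => Subtype.ext (by
        have : tst k d r (tt d + 3) n (f + f') = tst k d r _ n f + tst k d r _ n f' :=
          funext fun g => by simp [tst, mul_add]
        simp only [pA, this, map_add]; rfl) }
  else 0

theorem YY_pos {n : Finset ℕ} (h : Kn q d n) (f : Co ℕ (k r) (tt d + 3) → ℤ) :
    (C.YY n f : Pt) = S (cc d r n) (tst k d r _ n f) := by
  rw [YY, dif_pos h]; rfl

theorem YY_neg {n : Finset ℕ} (h : ¬ Kn q d n) (f : Co ℕ (k r) (tt d + 3) → ℤ) :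
    C.YY n f = 0 := by
  rw [YY, dif_neg h]; rfl

/-- The points that are fixed by the kernel of the coordinates. -/
def AA : AddSubgroup (AlgS C.hR.1) where
  carrier := {x | ∀ σ : G, σ (om q) = om q → ρ σ = 0 → σ • x = x}
  zero_mem' := fun σ _ _ => smul_zero σ
  add_mem' := fun {x y} hx hy σ h1 h2 => by rw [smul_add, hx σ h1 h2, hy σ h1 h2]
  neg_mem' := fun {x} hx σ h1 h2 => by rw [smul_neg, hx σ h1 h2]

theorem pA_mem {c : Finset ℕ} (hc : Cd k c) {Φ : A k → ℤ} (hΦ : K11.Dep c Φ) :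
    C.pA hc Φ ∈ C.AA := fun σ h1 h2 => Subtype.ext (by
  have := C.hs.act c Φ σ hc hΦ h1
  simp only [h2, sub_zero] at this
  exact this)

theorem sh_GK {σ : G} (hσ : σ (om q) = om q) :
    Sh C.YY σ (chi d.natAbs.primeFactors (ρ σ)) (pa k r _ (-ρ σ)) := by
  intro n f hf
  by_cases hn : Kn q d n
  · apply Subtype.ext
    rw [coe_sm, AddSubgroupClass.coe_zsmul, C.YY_pos hn, C.YY_pos hn,
      C.hs.act _ _ σ (C.cd hn) (dep_tst _ _ _ _ _ _) hσ, ← map_zsmul]
    congr 1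
    funext g
    rw [Pi.smul_apply, tst_eq d hf, tst_eq d (hf.shift _), chi_sub C.cdD, ← map_add,
      ← sub_eq_add_neg, smul_eq_mul]
    ring
  · simp [C.YY_neg hn]

theorem rf_not {σ : G} (hσ : σ (om q) ≠ om q) :
    Rf C.YY σ (-chi d.natAbs.primeFactors (ν + ρ (σ * cj))) (pa k r _ (ν + ρ (σ * cj))) := by
  intro n f hf
  by_cases hn : Kn q d n
  · apply Subtype.ext
    rw [coe_sm, AddSubgroupClass.coe_zsmul, C.YY_pos hn, C.YY_pos hn,
      act_not C.hs (C.cd hn) (dep_tst _ _ _ _ _ _) hσ, ← map_zsmul, ← map_neg]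
    congr 1
    funext g
    rw [Pi.smul_apply, Pi.neg_apply, tst_eq d hf, tst_eq d (hf.refl _), chi_sub C.cdD, ← map_sub,
      smul_eq_mul]
    ring
  · simp [C.YY_neg hn]

open Classical in
/-- The abstract system. -/
def sys : Sys G (AlgS C.hR.1) ℕ (k r) (tt d + 3) where
  A := C.AA
  stab := fun g x hx σ h1 h2 => by
    obtain ⟨h3, h4⟩ := rho_conj C.hs h1 h2 g
    have := congrArg (g • ·) (hx _ h3 h4)
    simpa only [mul_smul, smul_inv_smul] using this
  tf := fun x hx h2 => by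
    obtain ⟨ω, w1, w2, w3⟩ := exists_om C.hR.1 C.hs C.kle
    exact Subtype.ext (w3 x.1 ((two_iff x).1 h2) (congrArg Subtype.val (hx ω w1 w2)))
  Y := C.YY
  mem := fun n f => by
    by_cases hn : Kn q d n
    · have : C.YY n f = C.pA (C.cd hn) (tst k d r _ n f) := Subtype.ext (C.YY_pos hn f)
      rw [this]
      exact C.pA_mem _ (dep_tst _ _ _ _ _ _)
    · rw [C.YY_neg hn]; exact AddSubgroup.zero_mem _
  a := fun p => if Kol q d p then a p else 0
  norm := fun n p hp f hf => by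
    by_cases hk : Kol q d p
    · rw [if_pos hk]
      by_cases hn : Kn q d n
      · have hn' : Kn q d (insert p n) := fun x hx => by
          rcases Finset.mem_insert.1 hx with rfl | hx
          exacts [hk, hn x hx]
        apply Subtype.ext
        have e : tst k d r _ (insert p n) f = tst k d r _ n f := funext fun g => by
          rw [tst_eq d hf, tst_eq d (hf.mono (Finset.subset_insert _ _))]
        rw [AddSubgroupClass.coe_zsmul, C.YY_pos hn, C.YY_pos hn', e, cc, Finset.union_insert]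
        exact C.hs.inert _ _ p (C.cd hn) (dep_tst _ _ _ _ _ _) (by rw [C.kp p hk]; omega)
          (C.not_mem_cc (C.kol_ne_r hk) hk.nd hp) hk.inert
      · rw [C.YY_neg hn, C.YY_neg fun h => hn fun x hx => h x (Finset.mem_insert_of_mem hx),
          smul_zero]
    · rw [if_neg hk, C.YY_neg fun h => hk (h p (Finset.mem_insert_self _ _)), zero_smul]
  a4 := fun p => by
    split_ifs with hk
    · exact (pow_dvd_pow (2 : ℤ) (by omega : 2 ≤ tt d + 3)).trans (a_kol C.hR C.hs hk)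
    · simp
  act := fun g => by
    by_cases hg : g (om q) = om q
    · exact ⟨_, _, chi_or _ _, Or.inl (C.sh_GK hg)⟩
    · refine ⟨_, _, ?_, Or.inr (C.rf_not hg)⟩
      rcases chi_or d.natAbs.primeFactors (ν + ρ (g * cj)) with h | h <;> simp [h]

theorem chain (D : Finset ℕ) (hD : D ⊆ d.natAbs.primeFactors) (f : ZMod (2 ^ k r) → ℤ)
    (hf : Tp (∑ l ∈ D, 2 * ((nr l + 1) / 2)) f) :
    ∃ f' : ZMod (2 ^ k r) → ℤ, Tp 0 f' ∧
      S (insert r D) (fun g => f (g r)) = S {r} fun g => f' (g r) := by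
  induction D using Finset.induction_on generalizing f with
  | empty => exact ⟨f, by simpa using hf, rfl⟩
  | insert l D hl ih =>
    obtain ⟨p1, p2⟩ := (mem_D C.qd.fam).1 (hD (Finset.mem_insert_self _ _))
    have hD' : D ⊆ d.natAbs.primeFactors := (Finset.subset_insert _ _).trans hD
    have l2 := fam_odd C.qd.fam p1 p2
    have l11 : l ≠ 11 := fun e => C.qd.fam.n11 (by simpa [e] using p2)
    have lr : l ≠ r := fun e => C.rd.nd (e ▸ p2)
    obtain ⟨a0, a1⟩ := a_par C.hV C.hR C.hs p1 l2 l11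
    obtain ⟨j1, j3⟩ := C.hj l p1 p2
    obtain ⟨O, hO⟩ := C.hV.1.1 l p1
    have hn := (C.hR.2 l O p1 l2 l11 hO).2.2.2.2.2.2.1
    rw [Finset.sum_insert hl, add_comm] at hf
    have st := hf.step (a := a l) (j := j l r) (by
      rcases hn with hn | hn | hn
      · exact Or.inl ⟨by rw [hn], a0 hn⟩
      · exact Or.inr (Or.inl ⟨by rw [hn], a1 (by omega), j1 hn⟩)
      · exact Or.inr (Or.inr ⟨by rw [hn], a1 (by omega), j3 hn⟩))
    obtain ⟨f', f1, f2⟩ := ih hD' _ st
    refine ⟨f', f1, ?_⟩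
    have hc : Cd k (insert r D) := fun x hx => by
      rcases Finset.mem_insert.1 hx with rfl | hx
      · rw [C.kr]; omega
      · exact C.cdD x (hD' hx)
    rw [← f2, Finset.insert_comm, C.hs.split _ _ l hc
      (fun g g' h => by rw [h r (Finset.mem_insert_self _ _)]) (by rw [C.kd l p1 p2]; omega)
      (by simp [hl, lr]) (C.qd.spl l p1 p2), ← map_zsmul, ← map_sub, ← map_sub]
    rfl

theorem base : C.sys.Q ∅ (2 * tt d) ∉ C.sys.D 1 := by
  intro h
  have kr0 : k r ≠ 0 := by rw [C.kr]; omega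
  have k0 : Kn q d ∅ := fun _ h => absurd h (Finset.notMem_empty _)
  have c0 : Cd k ∅ := fun _ h => absurd h (Finset.notMem_empty _)
  have cr : Cd k {r} := fun x hx => by rw [Finset.mem_singleton.1 hx]; exact kr0
  obtain ⟨f', f1, f2⟩ := C.chain _ subset_rfl (ph (2 * tt d)) (by
    rw [← Finset.mul_sum]
    exact Tp_ph (2 * tt d) (by rw [C.kr]; omega))
  choose u hu using f1.odd
  obtain ⟨c, hc⟩ := (a_par C.hV C.hR C.hs C.rd.pr (rd_ne_two C.rd) C.rd.n11).1 C.rd.ty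
  obtain ⟨Φ, hΦ⟩ : ∃ Φ : A k → ℤ, Φ = fun g =>
    (if chi d.natAbs.primeFactors g = 1 then 0 else -1) * ph (2 * tt d) (g r) := ⟨_, rfl⟩
  have dΦ : K11.Dep (cc d r ∅) Φ := by
    intro g g' h
    have e : chi d.natAbs.primeFactors g = chi d.natAbs.primeFactors g' :=
      Finset.prod_congr rfl fun l hl => by
        rw [h l (by simp only [cc, mem_union, mem_insert]; tauto)]
    simp only [hΦ, e, h r (by simp [cc])]
  have e1 : tst k d r (tt d + 3) ∅ (tf2 (ph (2 * tt d)) ∅) =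
      (fun g => ph (2 * tt d) (g r)) + (2 : ℤ) • Φ := by
    funext g
    rw [tst_eq d (dep_tf2 _ _), hΦ]
    simp only [tf2, ps, pa, Finset.prod_empty, AddMonoidHom.coe_mk, ZeroHom.coe_mk, Pi.add_apply,
      Pi.smul_apply, smul_eq_mul]
    rcases chi_or d.natAbs.primeFactors g with e | e <;> rw [e] <;> simp
    ring
  have e2 : (fun g : A k => f' (g r)) = (fun _ => 1) + (2 : ℤ) • fun g : A k => u (g r) := by
    funext g
    simp only [Pi.add_apply, Pi.smul_apply, smul_eq_mul]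
    linear_combination hu (g r)
  have e3 := C.hs.inert ∅ (fun _ => 1) r c0 (fun _ _ _ => rfl) kr0 (by simp) C.rd.inert
  have e4 : C.sys.Q ∅ (2 * tt d) = a r • C.pA c0 (fun _ => 1) +
      (2 : ℤ) • C.pA cr (fun g => u (g r)) + (2 : ℤ) • C.pA (C.cd k0) Φ := by
    apply Subtype.ext
    have e5 : cc d r ∅ = insert r d.natAbs.primeFactors := Finset.union_empty _
    change (C.YY ∅ _ : Pt) = a r • S ∅ _ + (2 : ℤ) • S {r} _ + (2 : ℤ) • S (cc d r ∅) Φ
    rw [C.YY_pos k0, e1, map_add, map_zsmul, e5, f2, e2, map_add, map_zsmul, ← e3]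
    rfl
  have m0 : C.pA c0 (fun _ => 1) ∈ C.sys.A := C.pA_mem c0 fun _ _ _ => rfl
  have m1 : C.pA cr (fun g => u (g r)) ∈ C.sys.A :=
    C.pA_mem cr fun g g' h => by rw [h r (Finset.mem_singleton_self _)]
  have m2 : C.pA (C.cd k0) Φ ∈ C.sys.A := C.pA_mem _ dΦ
  obtain ⟨x, hx, e6⟩ := h
  obtain ⟨y, hy, e7⟩ : ∃ y ∈ C.sys.A, C.pA c0 (fun _ => 1) = (2 : ℤ) ^ 1 • y := by
    refine ⟨x - c • C.pA c0 (fun _ => 1) - C.pA cr (fun g => u (g r)) - C.pA (C.cd k0) Φ,
      sub_mem (sub_mem (sub_mem hx (zsmul_mem m0 c)) m1) m2, ?_⟩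
    rw [e4, hc] at e6
    linear_combination (norm := module) e6
  have hq := C.qd.qf
  obtain ⟨O, hO⟩ := C.hV.1.1 q hq.pr
  obtain ⟨φ, hφ⟩ := C.hV.1.2.2.2.2 q O hq.pr hO
  obtain ⟨ι, i1, i2⟩ := exists_iota C.hV hq.pr hO
  have hb := hq.big
  have b1 : y ∈ C.sys.B (mkLoc C.hR hq.pr (by omega) (by omega) hO i1 hφ).σ := by
    apply C.sys.B_cancel 1 hy
    rw [← e7]
    exact ⟨m0, Subtype.ext (act_not C.hs c0 (fun _ _ _ => rfl) i2)⟩
  have b2 := Sys.B_red b1
  rw [← map_zsmul, ← pow_one (2 : ℤ), ← e7] at b2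
  exact C.hs.base O hO ((red_zero _).1 b2)

end Ctx

end Pool.Agent.Lib.MP_d6ddbd_nt.K11.KK
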