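import Pool.Agent.Lib.MP_d6ddbd_nt.K11.Stmt
import Pool.Agent.Lib.MP_ca56d1_nt.Recip
import Pool.Agent.Lib.MP_ca56d1_nt.SUnit
import Pool.Agent.Lib.MP_ca56d1_nt.LocE2

/-!
General lemmas for the block `L`: squares of rational numbers, the tame symbol, linear maps on
the Selmer group.
-/

set_option autoImplicit false

open NumberField IsDedekindDomain
open Pool.Agent.Stark

noncomputable section

namespace Pool.Agent.Lib.MP_d6ddbd_nt.K11.L

theorem nat_sq {n : ℕ} (hn : n ≠ 0) (h : ∀ p : ℕ, p.Prime → Even (padicValNat p n)) :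
    IsSquare n := by
  obtain ⟨a, b, hab, ha⟩ := Nat.sq_mul_squarefree n
  have hb0 : b ≠ 0 := by rintro rfl; simp at hab; exact hn hab.symm
  have ha0 : a ≠ 0 := ha.ne_zero
  have h1 : a = 1 := by
    by_contra h1
    obtain ⟨p, hp, hpa⟩ := Nat.exists_prime_and_dvd h1
    have := Fact.mk hp
    have h2 := h p hp
    rw [← hab, padicValNat.mul (pow_ne_zero 2 hb0) ha0, padicValNat.pow] at h2
    have h3 : padicValNat p a = 1 := by
      have h4 := (Nat.squarefree_iff_factorization_le_one ha0).1 ha p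
      have h5 := one_le_padicValNat_of_dvd ha0 hpa
      rw [Nat.factorization_def _ hp] at h4
      omega
    rw [h3] at h2
    obtain ⟨m, hm⟩ := h2
    omega
  exact ⟨b, by rw [← hab, h1]; ring⟩

theorem rat_sq {x : ℚ} (hx : 0 < x) (h : ∀ p : ℕ, p.Prime → Even (padicValRat p x)) :
    IsSquare x := by
  have hn : x.num.natAbs ≠ 0 := by simpa using hx.ne'
  have h1 : IsSquare (x.num.natAbs * x.den) := nat_sq (mul_ne_zero hn x.den_nz) fun p hp => by
    have := Fact.mk hp
    obtain ⟨m, hm⟩ := h p hp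
    rw [padicValRat, padicValInt] at hm
    rw [padicValNat.mul hn x.den_nz, Nat.even_iff]
    omega
  obtain ⟨r, hr⟩ := h1
  have h2 : ((x.num.natAbs : ℕ) : ℚ) = x.num := by
    rw [← Int.cast_natCast, Int.natAbs_of_nonneg (Rat.num_pos.2 hx).le]
  have h3 : (x.num : ℚ) * x.den = r * r := by rw [← h2]; exact_mod_cast hr
  have h4 : (x.den : ℚ) ≠ 0 := by exact_mod_cast x.den_nz
  refine ⟨r / x.den, ?_⟩
  rw [div_mul_div_comm, ← h3, mul_div_mul_right _ _ h4, Rat.num_div_den]

section Tame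

variable {k : Type*} [Field k] {w : Valuation k (WithZero (Multiplicative ℤ))}

theorem cast_even {n : ℤ} (h : Even n) : (n : ZMod 2) = 0 := ZMod.intCast_eq_zero_iff_even.2 h

theorem cast_odd {n : ℤ} (h : ¬ Even n) : (n : ZMod 2) = 1 :=
  (zmod2_cases _).resolve_left fun h0 => h (ZMod.intCast_eq_zero_iff_even.1 h0)

/-- The tame symbol. -/
theorem tame (H : IsLoc w) (h2 : ord w (2 : k) = 0) {π a b : k} (hπ : π ≠ 0) (h1 : ord w π = 1)
    (ha : a ≠ 0) (hb : b ≠ 0) :
    hs a b = (ord w a : ZMod 2) * hs b π + (ord w b : ZMod 2) * hs a π +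
      (ord w b : ZMod 2) * hs a (-1) := by
  have hm : (-1 : k) ≠ 0 := neg_ne_zero.2 one_ne_zero
  have key : ∀ {x y : k}, x ≠ 0 → y ≠ 0 → Even (ord w x) → hs x y = (ord w y : ZMod 2) * hs x π := by
    intro x y hx hy he
    have hu := H.unr_of_odd h2 hx he
    rw [LocEAux.hs_unr H hx hu hy, LocEAux.hs_unr H hx hu hπ, h1]
    simp [mul_comm]
  have hm1 : ord w (-1 : k) = 0 := by simp
  by_cases hea : Even (ord w a)
  · rw [key ha hb hea, key ha hm hea, cast_even hea, hm1]
    simp
  · by_cases heb : Even (ord w b)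
    · rw [hs_comm H.two ha hb, key hb ha heb, cast_even heb]
      simp
    · have he : Even (ord w (a * π)) := by
        rw [ord_mul ha hπ, h1]
        exact (Int.not_even_iff_odd.1 hea).add_one
      have e1 := key (mul_ne_zero ha hπ) hb he
      have e2 := key (mul_ne_zero ha hπ) hm he
      rw [H.hs_mul_left ha hπ hb, H.hs_mul_left ha hπ hπ, cast_odd heb] at e1
      rw [H.hs_mul_left ha hπ hm, hm1, Int.cast_zero, zero_mul] at e2
      have e3 := H.hs_mul_right hπ hm hπ
      rw [neg_one_mul, hs_neg_self] at e3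
      rw [cast_odd hea, cast_odd heb, hs_comm H.two hb hπ]
      generalize hs a b = x1 at *
      generalize hs π b = x2 at *
      generalize hs a π = x3 at *
      generalize hs π π = x4 at *
      generalize hs a (-1) = x5 at *
      generalize hs π (-1) = x6 at *
      revert x1 x2 x3 x4 x5 x6
      decide

end Tame

variable {F : Type*} [Field F] [NumberField F]

theorem isSel_mul {S : Finset (Pr F)} {x y : F} (hx : IsSel S x) (hy : IsSel S y) :
    IsSel S (x * y) :=
  ⟨mul_ne_zero hx.1 hy.1, fun q hq => by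
    rw [SUnitAux.og_mul q hx.1 hy.1]; exact (hx.2 q hq).add (hy.2 q hq)⟩

/-- Linear maps on the Selmer group. -/
theorem exists_lin (S : Finset (Pr F)) {V : Type*} [AddCommGroup V] [Module (ZMod 2) V]
    (f : F → V) (h1 : ∀ x y, IsSel S x → IsSel S y → f (x * y) = f x + f y)
    (h2 : ∀ t, t ≠ 0 → f (t * t) = 0) :
    ∃ φ : Sel S →ₗ[ZMod 2] V, ∀ c : Sel S, ∃ x, IsSel S x ∧ cl x = c.1 ∧ φ c = f x := by
  have hv : ∀ v : V, v + v = 0 := fun v => by
    rw [← two_smul (ZMod 2) v, show (2 : ZMod 2) = 0 from rfl, zero_smul]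
  have key : ∀ x y, IsSel S x → IsSel S y → cl x = cl y → f x = f y := fun x y hx hy h => by
    obtain ⟨t, ht⟩ := (cl_eq_cl hx.1 hy.1).1 h
    have ht0 : t ≠ 0 := by
      rintro rfl
      exact mul_ne_zero hx.1 hy.1 (by simpa using ht)
    have h3 := h1 x y hx hy
    rw [ht, h2 t ht0] at h3
    rw [← add_zero (f x), ← hv (f y), ← add_assoc, ← h3, zero_add]
  choose r hr1 hr2 using fun c : Sel S => c.2
  let g : Sel S →+ V := AddMonoidHom.mk' (fun c => f (r c)) fun c c' => by
    rw [← h1 _ _ (hr1 c) (hr1 c')]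
    refine key _ _ (hr1 _) (isSel_mul (hr1 c) (hr1 c')) ?_
    rw [cl_mul (hr1 c).1 (hr1 c').1, hr2, hr2, hr2]
    rfl
  exact ⟨g.toZModLinearMap 2, fun c => ⟨r c, hr1 c, hr2 c, rfl⟩⟩

/-- The dimension of a subspace that contains the kernel of such a map. -/
theorem rank_le (S : Finset (Pr F)) {V : Type*} [AddCommGroup V] [Module (ZMod 2) V]
    [Module.Finite (ZMod 2) V] (f : F → V)
    (h1 : ∀ x y, IsSel S x → IsSel S y → f (x * y) = f x + f y)
    (h2 : ∀ t, t ≠ 0 → f (t * t) = 0) (W : Submodule (ZMod 2) (SqCl F))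
    [Module.Finite (ZMod 2) W] (hW : ∀ x, IsSel S x → f x = 0 → cl x ∈ W) :
    Fintype.card (InfinitePlace F) + S.card ≤
      Module.finrank (ZMod 2) V + Module.finrank (ZMod 2) W := by
  obtain ⟨φ, hφ⟩ := exists_lin S f h1 h2
  have := finite_Sel S
  have e1 := φ.finrank_range_add_finrank_ker
  have e2 := finrank_Sel S
  have e3 := (LinearMap.range φ).finrank_le
  have e4 : (LinearMap.ker φ).map (Sel S).subtype ≤ W := by
    rintro _ ⟨c, hc, rfl⟩
    obtain ⟨x, hx, h3, h4⟩ := hφ c
    rw [Submodule.subtype_apply, ← h3]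
    exact hW x hx (h4.symm.trans hc)
  have e5 := Submodule.finrank_mono e4
  rw [Submodule.finrank_map_subtype_eq] at e5
  omega

theorem two_le_card (h : Module.finrank ℚ F = 3) : 2 ≤ Fintype.card (InfinitePlace F) := by
  have h1 := InfinitePlace.card_add_two_mul_card_eq_rank F
  have h2 := InfinitePlace.card_eq_nrRealPlaces_add_nrComplexPlaces F
  omega

end Pool.Agent.Lib.MP_d6ddbd_nt.K11.L
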