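import Pool.Agent.Lib.MP_d6ddbd_nt.K11.Stmt

/-!
The cubic field of `X₀(11)`: power basis, norms, embeddings, valuations of norms.
-/

set_option autoImplicit false

open NumberField IsDedekindDomain Polynomial
open Pool.Agent.Stark

noncomputable section

namespace Pool.Agent.Lib.MP_d6ddbd_nt.K11.PrA

variable {L : Type} [Field L] [NumberField L]

/-- The cubic as a polynomial. -/
def PP (R : Type) [CommRing R] : R[X] := X ^ 3 - C 4 * X ^ 2 - C 160 * X - C 1264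

theorem PP_monic (R : Type) [CommRing R] [Nontrivial R] : (PP R).Monic := by
  unfold PP
  monicity!

theorem PP_deg (R : Type) [CommRing R] [Nontrivial R] : (PP R).natDegree = 3 := by
  unfold PP
  compute_degree!

theorem aeval_PP {R S : Type} [CommRing R] [CommRing S] [Algebra R S] (x : S) :
    aeval x (PP R) = fc x := by
  simp [PP, fc, map_ofNat]

theorem aeval_PP' {R S : Type} [CommRing R] [CommRing S] [Algebra R S] (x : S) :
    aeval x (derivative (PP R)) = fd x := by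
  simp [PP, fd, map_ofNat]
  ring

theorem map_fc {R S : Type} [CommRing R] [CommRing S] (e : R →+* S) (x : R) :
    e (fc x) = fc (e x) := by
  simp [fc, map_ofNat]

theorem th_int {θ : L} (h : Cub θ) : IsIntegral ℤ θ :=
  ⟨PP ℤ, PP_monic ℤ, (aeval_PP (R := ℤ) θ).trans h.eq⟩

theorem ne_th {θ : L} (h : Cub θ) (x : ℚ) : (x : L) ≠ θ := by
  intro e
  have h1 : IsIntegral ℤ (algebraMap ℚ L x) := by
    rw [eq_ratCast, e]
    exact th_int h
  obtain ⟨n, rfl⟩ := IsIntegrallyClosed.isIntegral_iff.1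
    ((isIntegral_algebraMap_iff (algebraMap ℚ L).injective).1 h1)
  have h2 : ((fc n : ℤ) : L) = 0 := by
    rw [← eq_intCast (Int.castRingHom L), map_fc]
    have : (Int.castRingHom L) n = θ := by simpa using e
    rw [this]
    exact h.eq
  have h3 : fc n = 0 := by exact_mod_cast h2
  have h4 : fc (n : ZMod 3) = 0 := by
    rw [← eq_intCast (Int.castRingHom (ZMod 3)), ← map_fc, h3, map_zero]
  revert h4
  generalize (n : ZMod 3) = y
  revert y
  unfold fc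
  decide

theorem minp {θ : L} (h : Cub θ) : minpoly ℚ θ = PP ℚ := by
  have hi : IsIntegral ℚ θ := .of_finite ℚ θ
  have h1 := minpoly.degree_dvd hi
  rw [h.rk, Nat.dvd_prime Nat.prime_three] at h1
  have h2 := h1.resolve_left fun e => by
    obtain ⟨x, hx⟩ := minpoly.natDegree_eq_one_iff.1 e
    exact ne_th h x (by simpa using hx)
  exact (eq_of_monic_of_dvd_of_natDegree_le (minpoly.monic hi) (PP_monic ℚ)
    (minpoly.dvd ℚ θ ((aeval_PP θ).trans h.eq)) (by rw [h2, PP_deg])).symm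

theorem adj {θ : L} (h : Cub θ) : Algebra.adjoin ℚ {θ} = ⊤ := by
  have h1 := (Field.primitive_element_iff_minpoly_natDegree_eq ℚ θ).2 (by rw [minp h, PP_deg, h.rk])
  rw [← IntermediateField.adjoin_simple_toSubalgebra_of_isAlgebraic (.of_finite ℚ θ), h1]
  rfl

theorem exists_pb {θ : L} (h : Cub θ) : ∃ B : PowerBasis ℚ L, B.gen = θ :=
  ⟨PowerBasis.ofAdjoinEqTop (.of_finite ℚ θ) (adj h), rfl⟩

theorem norm_sub {θ : L} (h : Cub θ) (x : ℚ) : Algebra.norm ℚ ((x : L) - θ) = fc x := by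
  obtain ⟨B, rfl⟩ := exists_pb h
  have h1 := congrArg (eval x) (charpoly_leftMulMatrix B)
  rw [minp h, Matrix.eval_charpoly, ← coe_aeval_eq_eval, aeval_PP] at h1
  rw [← h1, Algebra.norm_eq_matrix_det B.basis, map_sub, ← eq_ratCast (algebraMap ℚ L),
    AlgHom.commutes]
  rfl

theorem coords {θ : L} (h : Cub θ) (α : L) : ∃ a b c : ℚ, α = a + b * θ + c * θ ^ 2 := by
  have hα : α ∈ Algebra.adjoin ℚ {θ} := by rw [adj h]; trivial
  induction hα using Algebra.adjoin_induction with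
  | mem x hx => exact ⟨0, 1, 0, by simp [show x = θ from hx]⟩
  | algebraMap r => exact ⟨r, 0, 0, by simp⟩
  | add x y _ _ hx hy =>
    obtain ⟨a, b, c, rfl⟩ := hx
    obtain ⟨a', b', c', rfl⟩ := hy
    exact ⟨a + a', b + b', c + c', by push_cast; ring⟩
  | mul x y _ _ hx hy =>
    obtain ⟨a, b, c, rfl⟩ := hx
    obtain ⟨a', b', c', rfl⟩ := hy
    refine ⟨a * a' + 1264 * (b * c' + c * b' + 4 * c * c'),
      a * b' + b * a' + 160 * (b * c' + c * b' + 4 * c * c') + 1264 * c * c',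
      a * c' + b * b' + c * a' + 4 * (b * c' + c * b' + 4 * c * c') + 160 * c * c', ?_⟩
    push_cast
    linear_combination ((b : L) * c' + c * b' + 4 * c * c' + c * c' * θ) * h.eq

theorem exists_emb {θ : L} (h : Cub θ) {K : Type} [Field K] [CharZero K] {x : K} (hx : fc x = 0) :
    ∃ e : L →+* K, e θ = x := by
  obtain ⟨B, rfl⟩ := exists_pb h
  exact ⟨(B.lift x (by rw [minp h, aeval_PP, hx])).toRingHom, B.lift_gen _ _⟩

theorem emb_ext {θ : L} (h : Cub θ) {K : Type} [Field K] [CharZero K] {e e' : L →+* K}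
    (he : e θ = e' θ) : e = e' := by
  ext α
  obtain ⟨a, b, c, rfl⟩ := coords h α
  simp [he]

theorem norm_eq {θ : L} (h : Cub θ) (α : L) (e₁ e₂ e₃ : L →+* ℂ) (h12 : e₁ θ ≠ e₂ θ)
    (h13 : e₁ θ ≠ e₃ θ) (h23 : e₂ θ ≠ e₃ θ) :
    ((Algebra.norm ℚ α : ℚ) : ℂ) = e₁ α * e₂ α * e₃ α := by
  classical
  have n12 : e₁.toRatAlgHom ≠ e₂.toRatAlgHom := fun e => h12 (AlgHom.congr_fun e θ)
  have n13 : e₁.toRatAlgHom ≠ e₃.toRatAlgHom := fun e => h13 (AlgHom.congr_fun e θ)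
  have n23 : e₂.toRatAlgHom ≠ e₃.toRatAlgHom := fun e => h23 (AlgHom.congr_fun e θ)
  have hu : ({e₁.toRatAlgHom, e₂.toRatAlgHom, e₃.toRatAlgHom} : Finset (L →ₐ[ℚ] ℂ)) =
      Finset.univ := by
    apply Finset.eq_univ_of_card
    rw [AlgHom.card, h.rk, Finset.card_eq_three]
    exact ⟨_, _, _, n12, n13, n23, rfl⟩
  rw [← eq_ratCast (algebraMap ℚ ℂ), Algebra.norm_eq_prod_embeddings, ← hu,
    Finset.prod_insert (by simp [n12, n13]), Finset.prod_pair n23, mul_assoc]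
  rfl

theorem root_gt {r : ℝ} (h : fc r = 0) : 16 < r := by
  unfold fc at h
  by_contra hr
  push Not at hr
  nlinarith [mul_nonneg (sq_nonneg (r + 6)) (sub_nonneg.2 hr), sq_nonneg (r + 7),
    mul_nonneg (sq_nonneg (r + 7)) (sub_nonneg.2 hr)]

theorem root_unique {r s : ℝ} (hr : fc r = 0) (hs : fc s = 0) : r = s := by
  have h1 := root_gt hr
  have h2 := root_gt hs
  unfold fc at hr hs
  have h3 : (r - s) * (r ^ 2 + r * s + s ^ 2 - 4 * (r + s) - 160) = 0 := by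
    linear_combination hr - hs
  refine sub_eq_zero.1 ((mul_eq_zero.1 h3).resolve_right (ne_of_gt ?_))
  nlinarith

theorem real_emb {θ : L} (h : Cub θ) : ∃ e : L →+* ℝ, (∀ e' : L →+* ℝ, e' = e) ∧
    ∀ α : L, α ≠ 0 → IsSquare (Algebra.norm ℚ α) → 0 < e α := by
  obtain ⟨r, -, hr⟩ : (0 : ℝ) ∈ (fun x : ℝ => fc x) '' Set.Icc 0 20 :=
    intermediate_value_Icc (by norm_num) (by unfold fc; fun_prop)
      ⟨by norm_num [fc], by norm_num [fc]⟩
  obtain ⟨e, he⟩ := exists_emb h (show fc r = 0 from hr)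
  have hf : ∀ {K : Type} [Field K] (e : L →+* K), fc (e θ) = 0 := fun e => by
    rw [← map_fc, show fc θ = 0 from h.eq, map_zero]
  refine ⟨e, fun e' => emb_ext h (root_unique (hf e') (hf e)), fun α hα hs => ?_⟩
  obtain ⟨σ, hσ⟩ := Fintype.exists_ne_of_one_lt_card (α := L →ₐ[ℚ] ℂ)
    (by rw [AlgHom.card, h.rk]; norm_num) (Complex.ofRealHom.comp e).toRatAlgHom
  have h12 : (Complex.ofRealHom.comp e) θ ≠ σ.toRingHom θ := fun q =>
    hσ (AlgHom.ext fun y => (RingHom.congr_fun (emb_ext h q) y).symm)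
  have h13 : (Complex.ofRealHom.comp e) θ ≠ ((starRingEnd ℂ).comp σ.toRingHom) θ := fun q =>
    h12 (by simpa using congrArg (starRingEnd ℂ) q)
  have h23 : σ.toRingHom θ ≠ ((starRingEnd ℂ).comp σ.toRingHom) θ := fun q => by
    obtain ⟨s, hs⟩ := Complex.conj_eq_iff_real.1 q.symm
    have h4 := hf σ.toRingHom
    rw [hs, ← Complex.ofRealHom_eq_coe, ← map_fc] at h4
    have h5 : fc s = 0 := by simpa using h4
    exact h12 (by rw [hs, root_unique h5 (hf e)]; rfl)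
  have h6 := norm_eq h α _ _ _ h12 h13 h23
  have h7 : ((Algebra.norm ℚ α : ℚ) : ℝ) = e α * Complex.normSq (σ α) := by
    apply Complex.ofReal_injective
    rw [Complex.ofReal_ratCast, h6, mul_assoc, Complex.ofReal_mul, ← Complex.mul_conj]
    rfl
  obtain ⟨u, hu⟩ := hs
  have h8 : u ≠ 0 := by
    rintro rfl
    exact hα (Algebra.norm_eq_zero_iff.1 (hu.trans (mul_zero 0)))
  have h9 : (0 : ℝ) < ((Algebra.norm ℚ α : ℚ) : ℝ) := by
    rw [hu]
    exact_mod_cast mul_self_pos.2 h8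
  rw [h7] at h9
  exact lt_of_not_ge fun hle =>
    not_lt.2 (mul_nonpos_of_nonpos_of_nonneg hle (Complex.normSq_nonneg _)) h9

/-! ### Primes of a number field and valuations of norms -/

theorem res (𝔭 : Pr L) : ∃ l f : ℕ, l.Prime ∧ 0 < f ∧ nm 𝔭 = l ^ f ∧
    ∀ n : ℤ, (n : 𝓞 L) ∈ 𝔭.asIdeal ↔ (l : ℤ) ∣ n := by
  have := 𝔭.isMaximal
  have : Finite (𝓞 L ⧸ 𝔭.asIdeal) := Ideal.finiteQuotientOfFreeOfNeBot _ 𝔭.ne_bot
  let _ := Ideal.Quotient.field 𝔭.asIdeal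
  let _ := Fintype.ofFinite (𝓞 L ⧸ 𝔭.asIdeal)
  obtain ⟨f, hp, hf⟩ := FiniteField.card (𝓞 L ⧸ 𝔭.asIdeal) (ringChar (𝓞 L ⧸ 𝔭.asIdeal))
  refine ⟨_, f, hp, f.pos, ?_, fun n => ?_⟩
  · rw [← hf, ← Nat.card_eq_fintype_card]
    rfl
  · rw [← Ideal.Quotient.eq_zero_iff_mem, map_intCast, CharP.intCast_eq_zero_iff _ (ringChar _)]

theorem res' (𝔭 : Pr L) : ∃ l : ℕ, l.Prime ∧ 𝔭 ∈ ab L l ∧
    ∀ n : ℕ, n ≠ 0 → (𝔭 ∈ ab L n ↔ l ∣ n) := by
  obtain ⟨l, f, hl, -, -, h⟩ := res 𝔭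
  have key : ∀ n : ℕ, n ≠ 0 → (𝔭 ∈ ab L n ↔ l ∣ n) := fun n hn => by
    rw [mem_ab' hn, ← Int.natCast_dvd_natCast, ← h, Int.cast_natCast]
  exact ⟨l, hl, (key l hl.ne_zero).2 dvd_rfl, key⟩

theorem res_ab {l : ℕ} (hl : l.Prime) {𝔭 : Pr L} (hp : 𝔭 ∈ ab L l) :
    0 < Nat.log l (nm 𝔭) ∧ nm 𝔭 = l ^ Nat.log l (nm 𝔭) ∧
      ∀ n : ℤ, (n : 𝓞 L) ∈ 𝔭.asIdeal ↔ (l : ℤ) ∣ n := by
  obtain ⟨l', f, hl', hf, h1, h2⟩ := res 𝔭
  rw [mem_ab' hl.ne_zero, ← Int.cast_natCast, h2, Int.natCast_dvd_natCast,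
    Nat.prime_dvd_prime_iff_eq hl' hl] at hp
  subst hp
  rw [h1, Nat.log_pow hl.one_lt]
  exact ⟨hf, rfl, h2⟩

open Classical in
theorem val_nm {l : ℕ} (hl : l.Prime) (𝔭 : Pr L) :
    (nm 𝔭).factorization l = if 𝔭 ∈ ab L l then Nat.log l (nm 𝔭) else 0 := by
  split_ifs with hp
  · conv_lhs => rw [(res_ab hl hp).2.1]
    exact Nat.factorization_pow_self hl
  · obtain ⟨l', hl', h1, h2⟩ := res' 𝔭
    rw [(res_ab hl' h1).2.1, Nat.factorization_eq_zero_of_not_dvd]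
    intro hd
    rw [h2 l hl.ne_zero, (Nat.prime_dvd_prime_iff_eq hl hl').1 (hl.dvd_of_dvd_pow hd)] at hp
    exact hp dvd_rfl

theorem val_int {l : ℕ} (hl : l.Prime) {x : 𝓞 L} (hx : x ≠ 0) :
    padicValRat l (Algebra.norm ℚ (x : L)) =
      ∑ 𝔭 ∈ ab L l, (Nat.log l (nm 𝔭) : ℤ) * og 𝔭 (x : L) := by
  classical
  have h1 := congrArg Ideal.absNorm (ComplAux.span_eq_prod hx
    (ab L l ∪ (og_finite (x : L)).toFinset) (fun q hq => by
      by_contra h0
      exact hq (Finset.mem_union_right _ (by simpa using h0))))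
  rw [map_prod, Ideal.absNorm_span_singleton] at h1
  rw [← Algebra.coe_norm_int, padicValRat.of_int, padicValInt, ← Nat.factorization_def _ hl, h1,
    Nat.factorization_prod (fun q _ => by simp [Ideal.absNorm_eq_zero_iff, q.ne_bot]), Finset.sum_apply', Nat.cast_sum,
    ← Finset.sum_subset Finset.subset_union_left]
  · refine Finset.sum_congr rfl fun q hq => ?_
    rw [map_pow, Nat.factorization_pow, Finsupp.smul_apply, val_nm hl, if_pos hq, smul_eq_mul,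
      Nat.cast_mul, Int.toNat_of_nonneg (og_nonneg q x), mul_comm]
  · intro q _ hq
    rw [map_pow, Nat.factorization_pow, Finsupp.smul_apply, val_nm hl, if_neg hq]
    simp

theorem val_norm {l : ℕ} (hl : l.Prime) {α : L} (hα : α ≠ 0) :
    padicValRat l (Algebra.norm ℚ α) = ∑ 𝔭 ∈ ab L l, (Nat.log l (nm 𝔭) : ℤ) * og 𝔭 α := by
  have := Fact.mk hl
  obtain ⟨a, b, hb, rfl⟩ := IsFractionRing.div_surjective (A := 𝓞 L) α
  have hb0 : b ≠ 0 := nonZeroDivisors.ne_zero hb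
  have hb1 : algebraMap (𝓞 L) L b ≠ 0 := by simpa using hb0
  have ha1 : algebraMap (𝓞 L) L a ≠ 0 := fun e => hα (by rw [e, zero_div])
  have ha0 : a ≠ 0 := fun e => ha1 (by rw [e, map_zero])
  have h1 := val_int hl ha0
  have h2 := val_int hl hb0
  simp only [RingOfIntegers.coe_eq_algebraMap] at h1 h2
  have h3 : Algebra.norm ℚ (algebraMap (𝓞 L) L a) =
      Algebra.norm ℚ (algebraMap (𝓞 L) L a / algebraMap (𝓞 L) L b) *
        Algebra.norm ℚ (algebraMap (𝓞 L) L b) := by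
    rw [← map_mul, div_mul_cancel₀ _ hb1]
  rw [h3, padicValRat.mul (Algebra.norm_ne_zero_iff.2 hα) (Algebra.norm_ne_zero_iff.2 hb1),
    h2] at h1
  rw [eq_sub_of_add_eq h1, ← Finset.sum_sub_distrib]
  refine Finset.sum_congr rfl fun q _ => ?_
  rw [← mul_sub, og, og, og, ord_div ha1 hb1]

theorem val_even {l : ℕ} (hl : l.Prime) {α : L} (hα : α ≠ 0) (hs : IsSquare (Algebra.norm ℚ α)) :
    Even (∑ 𝔭 ∈ ab L l, (Nat.log l (nm 𝔭) : ℤ) * og 𝔭 α) := by
  have := Fact.mk hl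
  obtain ⟨u, hu⟩ := hs
  have h8 : u ≠ 0 := by
    rintro rfl
    exact hα (Algebra.norm_eq_zero_iff.1 (hu.trans (mul_zero 0)))
  rw [← val_norm hl hα, hu, padicValRat.mul h8 h8]
  exact ⟨_, rfl⟩

theorem sum_ef {l : ℕ} (hl : l.Prime) :
    ∑ 𝔭 ∈ ab L l, (Nat.log l (nm 𝔭) : ℤ) * og 𝔭 (l : L) = Module.finrank ℚ L := by
  have := Fact.mk hl
  rw [← val_norm hl (Nat.cast_ne_zero.2 hl.ne_zero), ← map_natCast (algebraMap ℚ L),
    Algebra.norm_algebraMap, padicValRat.pow,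
    padicValRat.self hl.one_lt, mul_one]

theorem og_pos {l : ℕ} {𝔭 : Pr L} (hp : 𝔭 ∈ ab L l) : 0 < og 𝔭 (l : L) :=
  lt_of_le_of_ne (og_nonneg 𝔭 (l : 𝓞 L)) (mem_ab.1 hp).symm

/-- A prime that divides the norm of an integer lies below a prime that divides the integer. -/
theorem exists_mem {l : ℕ} (hl : l.Prime) {x : 𝓞 L} (hx : x ≠ 0) {n : ℤ}
    (hn : Algebra.norm ℚ (x : L) = n) (hd : (l : ℤ) ∣ n) : ∃ 𝔭 ∈ ab L l, x ∈ 𝔭.asIdeal := by
  have := Fact.mk hl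
  by_contra hc
  push Not at hc
  have h1 := val_int hl hx
  have h0 : n ≠ 0 := by
    rintro rfl
    exact hx (by simpa using Algebra.norm_eq_zero_iff.1 (hn.trans Int.cast_zero))
  rw [hn, padicValRat.of_int, Finset.sum_eq_zero fun q hq => ?_] at h1
  · have h2 := padicValInt.eq_zero_iff.1 (show padicValInt l n = 0 by exact_mod_cast h1)
    rcases h2 with h2 | h2 | h2
    exacts [hl.ne_one h2, h0 h2, h2 hd]
  · have h3 := og_nonneg q x
    have h4 := mt (og_pos_iff q hx).1 (hc q hq)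
    rw [show og q (x : L) = 0 by omega, mul_zero]

theorem tri {ι : Type} [DecidableEq ι] {s : Finset ι} {w : ι → ℤ} (h1 : ∀ a ∈ s, 1 ≤ w a)
    (h : ∑ a ∈ s, w a = 3) : (∃ a, s = {a} ∧ w a = 3) ∨
      (∃ a b, a ≠ b ∧ s = {a, b} ∧ w a = 1 ∧ w b = 2) ∨ (s.card = 3 ∧ ∀ a ∈ s, w a = 1) := by
  have hc := Finset.card_nsmul_le_sum s w 1 h1
  rw [h, nsmul_one] at hc
  have : s.card = 0 ∨ s.card = 1 ∨ s.card = 2 ∨ s.card = 3 := by omega
  rcases this with h0 | h0 | h0 | h0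
  · rw [Finset.card_eq_zero.1 h0] at h
    simp at h
  · obtain ⟨a, rfl⟩ := Finset.card_eq_one.1 h0
    exact Or.inl ⟨a, rfl, by simpa using h⟩
  · obtain ⟨a, b, hab, rfl⟩ := Finset.card_eq_two.1 h0
    rw [Finset.sum_pair hab] at h
    have ha := h1 a (by simp)
    have hb := h1 b (by simp)
    by_cases h2 : w a = 1
    · exact Or.inr (Or.inl ⟨a, b, hab, rfl, h2, by omega⟩)
    · exact Or.inr (Or.inl ⟨b, a, hab.symm, Finset.pair_comm a b, by omega, by omega⟩)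
  · refine Or.inr (Or.inr ⟨h0, fun a ha => ?_⟩)
    have h2 : (s.erase a).card • (1 : ℤ) ≤ ∑ x ∈ s.erase a, w x :=
      Finset.card_nsmul_le_sum (s.erase a) w 1 fun b hb => h1 b (Finset.mem_of_mem_erase hb)
    rw [← Finset.add_sum_erase s w ha] at h
    rw [Finset.card_erase_of_mem ha, h0, nsmul_one] at h2
    have := h1 a ha
    omega

end Pool.Agent.Lib.MP_d6ddbd_nt.K11.PrA
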