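import Pool.Agent.Lib.MP_d6ddbd_nt.K11.Stmt
import Pool.Agent.Lib.MP_02f36d_nt.Glob
import Pool.Agent.Lib.MP_02f36d_nt.Diff

/-!
Complex multiplication at a place: the statements of the pieces.
-/

set_option autoImplicit false

open Pointwise WeierstrassCurve
open Pool.Agent.Lib.MP_02f36d_nt
open Pool.Agent.Lib.MP_9177b7_ag.CM (IsLat sp Conj jL g2 g3)

noncomputable section

namespace Pool.Agent.Lib.MP_d6ddbd_nt.K11

/-- The coefficients of the curve are algebraic. -/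
def AlgW (W : Affine ℂ) : Prop := IsAlgebraic ℚ W.a₁ ∧ IsAlgebraic ℚ W.a₂ ∧ IsAlgebraic ℚ W.a₃ ∧
  IsAlgebraic ℚ W.a₄ ∧ IsAlgebraic ℚ W.a₆

/-- A uniformisation of the curve `W` by the lattice `Λ`. -/
structure Uni (Λ : Submodule ℤ ℂ) (W : Affine ℂ) (u : ℂ →+ W.Point) : Prop where
  surj : Function.Surjective u
  ker : ∀ z, u z = 0 ↔ z ∈ Λ
  mul : ∀ α : ℂ, α ≠ 0 → α • Λ ≤ Λ →
    ∃ f : W.Point →+ W.Point, IsAlg ⊤ f ∧ ∀ z, f (u z) = u (α * z)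
  gal : ∀ (σ : G) (μ : ℂ) (W' : Affine ℂ) (e : W.map (σ : ℂ →+* ℂ) = W'), μ ≠ 0 →
    Conj (σ : ℂ →+* ℂ) Λ (μ • Λ) →
    ∃ (c : W'.Point →+ W.Point) (c' : W.Point →+ W'.Point), IsAlg ⊤ c ∧ IsAlg ⊤ c' ∧
      (∀ P, c (c' P) = P) ∧
      (∀ α z z' : ℂ, α • Λ ≤ Λ → σ α = α → c (ptMap (σ : ℂ →+* ℂ) e (u z)) = u z' →
        c (ptMap (σ : ℂ →+* ℂ) e (u (α * z))) = u (α * z')) ∧
      ∀ (L L' : Submodule ℤ ℂ) (z z' : ℂ), Λ ≤ L → Conj (σ : ℂ →+* ℂ) L L' →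
        c (ptMap (σ : ℂ →+* ℂ) e (u z)) = u z' → (z ∈ L ↔ μ * z' ∈ L')

/-- Every curve with the right invariant is uniformised by the lattice. -/
def UniStmt : Prop := ∀ (Λ : Submodule ℤ ℂ) (W : Affine ℂ), IsLat Λ → W.Δ ≠ 0 →
  W.c₄ ^ 3 / W.Δ = jL Λ → ∃ u, Uni Λ W u

/-- Models with good or multiplicative reduction. -/
def ModelStmt : Prop := ∀ (k : Type) [Field k] (p : Place ℂ k) (j : ℂ), IsAlgebraic ℚ j →
  ∃ (W : Affine ℂ) (U : Affine k), AlgW W ∧ W.Δ ≠ 0 ∧ W.c₄ ^ 3 / W.Δ = j ∧ SpW p W U ∧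
    (j ∈ p.A → U.Δ ≠ 0 ∧ Sp p j (U.c₄ ^ 3 / U.Δ)) ∧ (j ∉ p.A → U.Δ = 0 ∧ U.c₄ ≠ 0)

/-- Reduction of algebraic homomorphisms, integrality of singular moduli, algebraicity of torsion
points. -/
def RedStmt : Prop :=
  (∀ (k : Type) [Field k] [DecidableEq k] [IsAlgClosed k] (p : Place ℂ k),
    Function.Surjective p.ρ → ∀ (V₁ V₂ : Affine ℂ) (U₁ U₂ : Affine k), Mod p V₁ U₁ → Mod p V₂ U₂ →
      ∀ f : V₁.Point →+ V₂.Point, IsAlg ⊤ f → ∃ g : U₁.Point →+ U₂.Point, Alg0 g ∧ Desc p f g) ∧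
  (∀ (q : ℕ) (O : ValuationSubring ℂ) (Λ : Submodule ℤ ℂ), q % 4 = 3 → IsLat Λ → om q • Λ ≤ Λ →
    IsAlgebraic ℚ (jL Λ) ∧ jL Λ ∈ O) ∧
  ∀ (Λ : Submodule ℤ ℂ) (W : Affine ℂ) (u : ℂ →+ W.Point) (m : ℕ) (z : ℂ), IsLat Λ → AlgW W →
    Uni Λ W u → m ≠ 0 → m * z ∈ Λ → IsAlgebraic ℚ (xc (u z)) ∧ IsAlgebraic ℚ (yc (u z))

/-- Reduction is injective on torsion of order prime to the residue characteristic. -/
def TorStmt : Prop := ∀ (k : Type) [Field k] [DecidableEq k] [IsAlgClosed k] (p : Place ℂ k),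
  Function.Surjective p.ρ → ∀ (V : Affine ℂ) (U : Affine k), V.Δ ≠ 0 → U.Δ ≠ 0 → SpW p V U →
    ∀ (m : ℕ) (P : V.Point), (m : k) ≠ 0 → m • P = 0 → Red p P (0 : U.Point) → P = 0

/-- The characteristic polynomial of an endomorphism, and the Frobenius map. -/
def End1Stmt : Prop := ∀ (k : Type) [Field k] [DecidableEq k] [IsAlgClosed k] (U : Affine k),
  U.Δ ≠ 0 →
  (∀ f : U.Point →+ U.Point, Alg0 f → ∀ t : ℤ,
    t = (deg (f + AddMonoidHom.id U.Point) : ℤ) - deg f - 1 → t ^ 2 ≤ 4 * deg f ∧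
      ∀ P, f (f P) - t • f P + deg f • P = 0) ∧
  ∀ (v n : ℕ) (F : k →+* k) (U' : Affine k) (e : U.map F = U'), v.Prime → (v : k) = 0 →
    (∀ x, F x = x ^ v ^ n) → IsAlg ⊤ (ptMap F e) ∧ deg (ptMap F e) = v ^ n

/-- The commutant of a complex multiplication, and two complex multiplications. -/
def End2Stmt : Prop := ∀ (k : Type) [Field k] [DecidableEq k] [IsAlgClosed k] (U : Affine k),
  U.Δ ≠ 0 → ∀ (q : ℕ) (α : U.Point →+ U.Point), q.Prime → 44 < q → q % 4 = 3 → Alg0 α →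
  (∀ P, α (α P) = α P - ((q + 1) / 4) • P) →
  (∀ f : U.Point →+ U.Point, Alg0 f → (∀ P, f (α P) = α (f P)) → ∃ a b : ℤ,
    (∀ P, f P = a • P + b • α P) ∧ (deg f : ℤ) = a ^ 2 + a * b + ((q + 1) / 4 : ℕ) * b ^ 2) ∧
  ∀ β : U.Point →+ U.Point, (q : k) = 0 → Alg0 β → (∀ P, β (β P) = β P - 3 • P) → False

end Pool.Agent.Lib.MP_d6ddbd_nt.K11
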